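import Mathlib

/-!
# A conformal map of the right half-plane with slowly varying derivative
`F w = w (4 - (2/π) log w)`.
-/

set_option autoImplicit false

namespace Pool.Agent.V1181.FB

open Complex Set Filter Topology

noncomputable section

/-- The map `F w = w (4 - (2/π) log w)`. -/
def F (w : ℂ) : ℂ := w * (4 - (2 / Real.pi : ℝ) * log w)

theorem F_re (w : ℂ) : (F w).re
    = w.re * (4 - 2 / Real.pi * Real.log ‖w‖) + 2 / Real.pi * (w.im * arg w) := by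
  unfold F
  simp only [mul_re, sub_re, sub_im, mul_im, ofReal_re, ofReal_im, log_re, log_im]
  norm_num
  ring

theorem F_im (w : ℂ) : (F w).im
    = w.im * (4 - 2 / Real.pi * Real.log ‖w‖) - 2 / Real.pi * (w.re * arg w) := by
  unfold F
  simp only [mul_re, sub_re, sub_im, mul_im, ofReal_re, ofReal_im, log_re, log_im]
  norm_num
  ring

theorem F_zero : F 0 = 0 := by simp [F]

theorem slit_of_re {w : ℂ} (h : 0 ≤ w.re) (h0 : w ≠ 0) : w ∈ slitPlane := by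
  rcases h.lt_or_eq with h1 | h1
  · exact Or.inl h1
  · right
    intro h2
    exact h0 (Complex.ext h1.symm h2)

theorem F_hasDerivAt {w : ℂ} (hw : w ∈ slitPlane) :
    HasDerivAt F (4 - (2 / Real.pi : ℝ) - (2 / Real.pi : ℝ) * log w) w := by
  have h0 : w ≠ 0 := slitPlane_ne_zero hw
  have h1 : HasDerivAt (fun w : ℂ => 4 - ((2 / Real.pi : ℝ) : ℂ) * log w)
      (0 - ((2 / Real.pi : ℝ) : ℂ) * w⁻¹) w :=
    (hasDerivAt_const w (4 : ℂ)).sub ((hasDerivAt_log hw).const_mul _)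
  have h2 := (hasDerivAt_id w).mul h1
  refine h2.congr_deriv ?_
  simp only [id]
  field_simp
  ring

theorem F_continuousAt {w : ℂ} (hw : 0 ≤ w.re) : ContinuousAt F w := by
  by_cases h0 : w = 0
  · subst h0
    rw [continuousAt_iff_punctured_nhds]
    have hsmall : Tendsto (fun w : ℂ => ‖F w‖) (𝓝[≠] 0) (𝓝 0) := by
      have hb : ∀ w : ℂ, ‖F w‖ ≤ ‖w‖ * (4 + 2 / Real.pi * Real.pi)
          + 2 / Real.pi * |‖w‖ * Real.log ‖w‖| := by
        intro w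
        unfold F
        rw [norm_mul]
        have h1 : ‖4 - ((2 / Real.pi : ℝ) : ℂ) * log w‖
            ≤ 4 + 2 / Real.pi * (|Real.log ‖w‖| + Real.pi) := by
          refine (norm_sub_le _ _).trans ?_
          rw [norm_mul]
          have e1 : ‖((2 / Real.pi : ℝ) : ℂ)‖ = 2 / Real.pi := by
            rw [Complex.norm_real, Real.norm_eq_abs, abs_of_pos (by positivity)]
          have e2 : ‖log w‖ ≤ |Real.log ‖w‖| + Real.pi := by
            refine (norm_le_abs_re_add_abs_im _).trans ?_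
            rw [log_re, log_im]
            gcongr
            exact abs_arg_le_pi w
          rw [e1]
          have e3 : ‖(4 : ℂ)‖ = 4 := by simp
          rw [e3]
          gcongr
        calc ‖w‖ * ‖4 - ((2 / Real.pi : ℝ) : ℂ) * log w‖
            ≤ ‖w‖ * (4 + 2 / Real.pi * (|Real.log ‖w‖| + Real.pi)) := by gcongr
          _ = _ := by
            rw [abs_mul, abs_of_nonneg (norm_nonneg w)]
            ring
      have hlim : Tendsto (fun w : ℂ => ‖w‖ * (4 + 2 / Real.pi * Real.pi)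
          + 2 / Real.pi * |‖w‖ * Real.log ‖w‖|) (𝓝 0) (𝓝 0) := by
        have hc : Continuous (fun w : ℂ => ‖w‖ * (4 + 2 / Real.pi * Real.pi)
          + 2 / Real.pi * |‖w‖ * Real.log ‖w‖|) := by
          have h2 : Continuous (fun w : ℂ => ‖w‖ * Real.log ‖w‖) :=
            Real.continuous_mul_log.comp continuous_norm
          fun_prop
        have := hc.tendsto 0
        simpa using this
      exact squeeze_zero (fun w => norm_nonneg _) hb (hlim.mono_left nhdsWithin_le_nhds)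
    rw [F_zero]
    exact tendsto_zero_iff_norm_tendsto_zero.mpr hsmall
  · exact (F_hasDerivAt (slit_of_re hw h0)).continuousAt

theorem F_continuousOn : ContinuousOn F {w : ℂ | 0 ≤ w.re} :=
  fun _ hw => (F_continuousAt hw).continuousWithinAt

theorem log_bound {r : ℝ} (h0 : 0 ≤ r) (h1 : r ≤ 3 / 2) : 2 / Real.pi * (1 + Real.log r) ≤ 1 := by
  have hpi := Real.pi_gt_three
  have h2 : 1 + Real.log r ≤ 3 / 2 := by
    rcases h0.lt_or_eq with h | h
    · have := Real.log_le_sub_one_of_pos h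
      linarith
    · rw [← h]
      norm_num
  have h3 : 2 / Real.pi * (1 + Real.log r) ≤ 2 / Real.pi * (3 / 2) := by gcongr
  have h4 : 2 / Real.pi * (3 / 2) ≤ 1 := by
    rw [div_mul_eq_mul_div, div_le_one (by positivity)]
    linarith
  linarith

/-- `F` is strongly monotone on the open half-disc. -/
theorem F_mono_open {a b : ℂ} (ha : 0 < a.re) (hb : 0 < b.re) (ha' : ‖a‖ ≤ 3 / 2)
    (hb' : ‖b‖ ≤ 3 / 2) :
    3 * ‖b - a‖ ^ 2 ≤ ((F b - F a) * (starRingEnd ℂ) (b - a)).re := by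
  set φ : ℝ → ℝ := fun t => (F (a + t * (b - a)) * (starRingEnd ℂ) (b - a)).re with hφ
  have hre : ∀ t ∈ Icc (0 : ℝ) 1, 0 < (a + t * (b - a)).re := by
    intro t ht
    have : (a + t * (b - a)).re = (1 - t) * a.re + t * b.re := by simp; ring
    rw [this]
    rcases ht.1.lt_or_eq with h | h
    · have h1 : 0 ≤ (1 - t) * a.re := mul_nonneg (by linarith [ht.2]) ha.le
      have h2 : 0 < t * b.re := mul_pos h hb
      linarith
    · rw [← h]; simpa using ha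
  have hnorm : ∀ t ∈ Icc (0 : ℝ) 1, ‖a + t * (b - a)‖ ≤ 3 / 2 := by
    intro t ht
    have e : a + t * (b - a) = ((1 - t : ℝ) : ℂ) * a + (t : ℂ) * b := by push_cast; ring
    rw [e]
    refine (norm_add_le _ _).trans ?_
    rw [norm_mul, norm_mul, Complex.norm_real, Complex.norm_real, Real.norm_of_nonneg ht.1,
      Real.norm_of_nonneg (by linarith [ht.2] : (0 : ℝ) ≤ 1 - t)]
    nlinarith [ht.1, ht.2]
  have hd : ∀ t ∈ Icc (0 : ℝ) 1, HasDerivAt φ
      (((4 - ((2 / Real.pi : ℝ) : ℂ) - ((2 / Real.pi : ℝ) : ℂ) * log (a + t * (b - a)))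
        * (b - a) * (starRingEnd ℂ) (b - a)).re) t := by
    intro t ht
    have hs : a + t * (b - a) ∈ slitPlane := Or.inl (hre t ht)
    have h1 : HasDerivAt (fun t : ℝ => a + (t : ℂ) * (b - a)) (b - a) t := by
      have h2 : HasDerivAt (fun t : ℝ => (t : ℂ)) 1 t := by
        simpa using (hasDerivAt_id t).ofReal_comp
      have h3 := (h2.mul_const (b - a)).const_add a
      simpa using h3
    have h4 := (F_hasDerivAt hs).comp t h1
    have h5 := (h4.mul_const ((starRingEnd ℂ) (b - a)))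
    have h6 := (Complex.reCLM.hasFDerivAt (x := F (a + t * (b - a)) *
      (starRingEnd ℂ) (b - a))).comp_hasDerivAt t h5
    exact h6
  obtain ⟨t, ht, hst⟩ := exists_hasDerivAt_eq_slope φ _ (zero_lt_one' ℝ)
    (fun t ht => (hd t ht).continuousAt.continuousWithinAt)
    (fun t ht => hd t (Ioo_subset_Icc_self ht))
  have ht' := Ioo_subset_Icc_self ht
  have e1 : φ 1 - φ 0 = ((F b - F a) * (starRingEnd ℂ) (b - a)).re := by
    simp only [hφ, ofReal_one, one_mul, ofReal_zero, zero_mul, add_zero, add_sub_cancel]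
    rw [sub_mul, sub_re]
  rw [sub_zero, div_one, e1] at hst
  rw [← hst, mul_assoc, mul_conj]
  have e2 : ((4 - ((2 / Real.pi : ℝ) : ℂ) - ((2 / Real.pi : ℝ) : ℂ) * log (a + t * (b - a)))
      * ((normSq (b - a) : ℝ) : ℂ)).re
      = (4 - 2 / Real.pi * (1 + Real.log ‖a + t * (b - a)‖)) * ‖b - a‖ ^ 2 := by
    rw [re_mul_ofReal, normSq_eq_norm_sq]
    congr 1
    simp only [sub_re, mul_re, ofReal_re, ofReal_im, log_re]
    norm_num
    ring
  rw [e2]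
  have h7 := log_bound (norm_nonneg (a + t * (b - a))) (hnorm t ht')
  nlinarith [sq_nonneg ‖b - a‖]

/-- The closed rectangle on which everything happens. -/
def Q : Set ℂ := {w | 0 ≤ w.re ∧ w.re ≤ 1 ∧ |w.im| ≤ 1}

theorem Q_norm {w : ℂ} (hw : w ∈ Q) : ‖w‖ ≤ 71 / 50 := by
  obtain ⟨h1, h2, h3⟩ := hw
  have h4 : ‖w‖ ^ 2 ≤ 2 := by
    rw [← normSq_eq_norm_sq, normSq_apply]
    have := abs_le.mp h3
    nlinarith
  nlinarith [norm_nonneg w]

theorem F_mono {a b : ℂ} (ha : a ∈ Q) (hb : b ∈ Q) :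
    3 * ‖b - a‖ ^ 2 ≤ ((F b - F a) * (starRingEnd ℂ) (b - a)).re := by
  have hlim : Tendsto (fun n : ℕ => ((F (b + (1 / (n + 1 : ℝ) : ℝ)) - F (a + (1 / (n + 1 : ℝ) : ℝ)))
      * (starRingEnd ℂ) (b - a)).re) atTop (𝓝 (((F b - F a) * (starRingEnd ℂ) (b - a)).re)) := by
    have h0 : Tendsto (fun n : ℕ => (((1 / (n + 1 : ℝ) : ℝ)) : ℂ)) atTop (𝓝 0) := by
      have := (Complex.continuous_ofReal.tendsto 0).comp
        (tendsto_one_div_add_atTop_nhds_zero_nat (𝕜 := ℝ))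
      rw [Complex.ofReal_zero] at this
      exact this
    have h1 : ∀ c : ℂ, c ∈ Q → Tendsto (fun n : ℕ => F (c + (1 / (n + 1 : ℝ) : ℝ))) atTop
        (𝓝 (F c)) := by
      intro c hc
      have h2 : Tendsto (fun n : ℕ => c + (((1 / (n + 1 : ℝ) : ℝ)) : ℂ)) atTop (𝓝 c) := by
        simpa using h0.const_add c
      exact (F_continuousAt hc.1).tendsto.comp h2
    have h3 := ((h1 b hb).sub (h1 a ha)).mul_const ((starRingEnd ℂ) (b - a))
    exact (Complex.continuous_re.tendsto _).comp h3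
  refine ge_of_tendsto hlim ?_
  filter_upwards [eventually_ge_atTop 100] with n hn
  have hn' : (100 : ℝ) ≤ n := by exact_mod_cast hn
  have hpos : 0 < 1 / ((n : ℝ) + 1) := by positivity
  have hsm : 1 / ((n : ℝ) + 1) ≤ 1 / 100 := by
    apply one_div_le_one_div_of_le <;> linarith
  have key : ∀ c : ℂ, c ∈ Q → 0 < (c + ((1 / ((n : ℝ) + 1) : ℝ) : ℂ)).re ∧
      ‖c + ((1 / ((n : ℝ) + 1) : ℝ) : ℂ)‖ ≤ 3 / 2 := by
    intro c hc
    constructor
    · rw [add_re, ofReal_re]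
      linarith [hc.1]
    · refine (norm_add_le _ _).trans ?_
      rw [Complex.norm_real, Real.norm_of_nonneg hpos.le]
      linarith [Q_norm hc]
  have h4 := F_mono_open (key a ha).1 (key b hb).1 (key a ha).2 (key b hb).2
  have e : (b + ((1 / ((n : ℝ) + 1) : ℝ) : ℂ)) - (a + ((1 / ((n : ℝ) + 1) : ℝ) : ℂ)) = b - a := by
    ring
  rw [e] at h4
  exact h4

theorem F_lower {a b : ℂ} (ha : a ∈ Q) (hb : b ∈ Q) : 3 * ‖b - a‖ ≤ ‖F b - F a‖ := by
  by_cases h : ‖b - a‖ = 0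
  · rw [h]; simp
  · have h1 := F_mono ha hb
    have h2 : ((F b - F a) * (starRingEnd ℂ) (b - a)).re ≤ ‖F b - F a‖ * ‖b - a‖ := by
      refine (re_le_norm _).trans ?_
      rw [norm_mul, RCLike.norm_conj]
    have h3 : 0 < ‖b - a‖ := lt_of_le_of_ne (norm_nonneg _) (Ne.symm h)
    nlinarith

theorem F_inj {a b : ℂ} (ha : a ∈ Q) (hb : b ∈ Q) (h : F a = F b) : a = b := by
  have h1 := F_lower ha hb
  rw [h, sub_self, norm_zero] at h1
  have h2 : ‖b - a‖ = 0 := le_antisymm (by linarith) (norm_nonneg _)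
  exact (sub_eq_zero.mp (norm_eq_zero.mp h2)).symm

theorem F_im_mono {σ η η' : ℝ} (h1 : (⟨σ, η⟩ : ℂ) ∈ Q) (h2 : (⟨σ, η'⟩ : ℂ) ∈ Q) :
    3 * (η' - η) ^ 2 ≤ ((F ⟨σ, η'⟩).im - (F ⟨σ, η⟩).im) * (η' - η) := by
  have h3 := F_mono h1 h2
  have e : (⟨σ, η'⟩ : ℂ) - ⟨σ, η⟩ = ⟨0, η' - η⟩ := by
    apply Complex.ext <;> simp
  rw [e] at h3
  have e2 : ‖(⟨0, η' - η⟩ : ℂ)‖ ^ 2 = (η' - η) ^ 2 := by
    rw [← normSq_eq_norm_sq, normSq_apply]
    simp
    ring
  rw [e2] at h3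
  simp at h3
  linarith

theorem F_im_abs {σ η η' : ℝ} (h1 : (⟨σ, η⟩ : ℂ) ∈ Q) (h2 : (⟨σ, η'⟩ : ℂ) ∈ Q) :
    3 * |η' - η| ≤ |(F ⟨σ, η'⟩).im - (F ⟨σ, η⟩).im| := by
  have h3 := F_im_mono h1 h2
  by_cases h : |η' - η| = 0
  · rw [h]; simp
  · have h4 : 0 < |η' - η| := lt_of_le_of_ne (abs_nonneg _) (Ne.symm h)
    have h5 : ((F ⟨σ, η'⟩).im - (F ⟨σ, η⟩).im) * (η' - η)
        ≤ |(F ⟨σ, η'⟩).im - (F ⟨σ, η⟩).im| * |η' - η| := by
      rw [← abs_mul]; exact le_abs_self _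
    have h6 : (η' - η) ^ 2 = |η' - η| ^ 2 := (sq_abs _).symm
    rw [h6] at h3
    nlinarith

theorem Fac_bound {w : ℂ} (hw : w ∈ Q) : 3 ≤ 4 - 2 / Real.pi * Real.log ‖w‖ := by
  have h := log_bound (norm_nonneg w) (by linarith [Q_norm hw])
  have h2 : 0 < 2 / Real.pi := by positivity
  nlinarith

theorem abs_arg_Q {w : ℂ} (hw : w ∈ Q) : |arg w| ≤ Real.pi / 2 :=
  abs_arg_le_pi_div_two_iff.mpr hw.1

theorem two_pi_arg {w : ℂ} (hw : w ∈ Q) : |2 / Real.pi * (w.re * arg w)| ≤ 1 := by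
  have h1 := abs_arg_Q hw
  have hpi := Real.pi_pos
  rw [abs_mul, abs_of_pos (by positivity : (0 : ℝ) < 2 / Real.pi), abs_mul,
    abs_of_nonneg hw.1]
  calc 2 / Real.pi * (w.re * |arg w|) ≤ 2 / Real.pi * (1 * (Real.pi / 2)) := by
        gcongr
        exact hw.2.1
    _ = 1 := by field_simp

theorem top_im {σ : ℝ} (h0 : 0 ≤ σ) (h1 : σ ≤ 1) : 2 ≤ (F ⟨σ, 1⟩).im := by
  have hQ : (⟨σ, 1⟩ : ℂ) ∈ Q := ⟨h0, h1, by simp⟩
  rw [F_im]
  have h2 := Fac_bound hQ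
  have h3 := abs_le.mp (two_pi_arg hQ)
  simp only at h3 ⊢
  nlinarith [h3.2]

theorem bot_im {σ : ℝ} (h0 : 0 ≤ σ) (h1 : σ ≤ 1) : (F ⟨σ, -1⟩).im ≤ -2 := by
  have hQ : (⟨σ, -1⟩ : ℂ) ∈ Q := ⟨h0, h1, by simp⟩
  rw [F_im]
  have h2 := Fac_bound hQ
  have h3 := abs_le.mp (two_pi_arg hQ)
  simp only at h3 ⊢
  nlinarith [h3.1]

theorem exists_eta {σ Y : ℝ} (h0 : 0 ≤ σ) (h1 : σ ≤ 1) (hY : |Y| ≤ 2) :
    ∃ η : ℝ, |η| ≤ 1 ∧ (F ⟨σ, η⟩).im = Y := by
  have hc : ContinuousOn (fun η : ℝ => (F ⟨σ, η⟩).im) (Icc (-1) 1) := by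
    intro η _
    have h2 : ContinuousAt F (⟨σ, η⟩ : ℂ) := F_continuousAt h0
    have h3 : Continuous (fun η : ℝ => (⟨σ, η⟩ : ℂ)) := by
      have : (fun η : ℝ => (⟨σ, η⟩ : ℂ)) = fun η : ℝ => (σ : ℂ) + (η : ℂ) * I := by
        funext η; apply Complex.ext <;> simp
      rw [this]; fun_prop
    have h4 : ContinuousAt (fun η : ℝ => F (⟨σ, η⟩ : ℂ)) η :=
      ContinuousAt.comp (f := fun η : ℝ => (⟨σ, η⟩ : ℂ)) h2 h3.continuousAt
    exact (Complex.continuous_im.continuousAt.comp h4).continuousWithinAt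
  have h5 := intermediate_value_Icc (by norm_num : (-1 : ℝ) ≤ 1) hc
  obtain ⟨η, hη, hη2⟩ := h5 (⟨(bot_im h0 h1).trans (by linarith [(abs_le.mp hY).1]),
    (by linarith [(abs_le.mp hY).2] : Y ≤ 2).trans (top_im h0 h1)⟩ :
      Y ∈ Icc ((F ⟨σ, -1⟩).im) ((F ⟨σ, 1⟩).im))
  exact ⟨η, abs_le.mpr hη, hη2⟩

/-- Surjectivity of `F` onto the relevant part of the domain. -/
theorem exists_pre {X Y t : ℝ} (ht : |t| ≤ 1) (htY : (F ⟨0, t⟩).im = Y) (hY : |Y| ≤ 2)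
    (hX : |t| ≤ X) (hX3 : X ≤ 3) : ∃ w ∈ Q, F w = ⟨X, Y⟩ := by
  have hex : ∀ σ : ℝ, ∃ η : ℝ, 0 ≤ σ → σ ≤ 1 → (|η| ≤ 1 ∧ (F ⟨σ, η⟩).im = Y) := by
    intro σ
    by_cases h0 : 0 ≤ σ
    · by_cases h1 : σ ≤ 1
      · obtain ⟨η, hη⟩ := exists_eta h0 h1 hY
        exact ⟨η, fun _ _ => hη⟩
      · exact ⟨0, fun _ h => absurd h h1⟩
    · exact ⟨0, fun h => absurd h h0⟩
  choose e he using hex
  have hQ : ∀ σ ∈ Icc (0 : ℝ) 1, (⟨σ, e σ⟩ : ℂ) ∈ Q := fun σ hσ =>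
    ⟨hσ.1, hσ.2, (he σ hσ.1 hσ.2).1⟩
  have hcont : ContinuousOn e (Icc (0 : ℝ) 1) := by
    intro σ₀ hσ₀
    have hQ0 := hQ σ₀ hσ₀
    have hlim : Tendsto (fun σ : ℝ => |Y - (F ⟨σ, e σ₀⟩).im| / 3) (𝓝[Icc 0 1] σ₀) (𝓝 0) := by
      have h2 : ContinuousAt F (⟨σ₀, e σ₀⟩ : ℂ) := F_continuousAt hσ₀.1
      have h3 : Continuous (fun σ : ℝ => (⟨σ, e σ₀⟩ : ℂ)) := by
        have : (fun σ : ℝ => (⟨σ, e σ₀⟩ : ℂ)) = fun σ : ℝ => (σ : ℂ) + (e σ₀ : ℂ) * I := by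
          funext σ; apply Complex.ext <;> simp
        rw [this]; fun_prop
      have h4 : ContinuousAt (fun σ : ℝ => F (⟨σ, e σ₀⟩ : ℂ)) σ₀ :=
        ContinuousAt.comp (f := fun σ : ℝ => (⟨σ, e σ₀⟩ : ℂ)) h2 h3.continuousAt
      have h5 : ContinuousAt (fun σ : ℝ => |Y - (F ⟨σ, e σ₀⟩).im| / 3) σ₀ := by
        have h6 : ContinuousAt (fun σ : ℝ => (F ⟨σ, e σ₀⟩).im) σ₀ :=
          Complex.continuous_im.continuousAt.comp h4
        exact ((continuousAt_const.sub h6).abs).div_const 3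
      have h7 := h5.tendsto.mono_left (nhdsWithin_le_nhds (s := Icc (0 : ℝ) 1))
      have h8 : |Y - (F ⟨σ₀, e σ₀⟩).im| / 3 = 0 := by
        rw [(he σ₀ hσ₀.1 hσ₀.2).2, sub_self, abs_zero, zero_div]
      rwa [h8] at h7
    rw [ContinuousWithinAt, tendsto_iff_norm_sub_tendsto_zero]
    refine squeeze_zero' (Eventually.of_forall fun _ => norm_nonneg _) ?_ hlim
    filter_upwards [self_mem_nhdsWithin] with σ hσ
    have hQ1 := hQ σ hσ
    have hQ2 : (⟨σ, e σ₀⟩ : ℂ) ∈ Q := ⟨hσ.1, hσ.2, (he σ₀ hσ₀.1 hσ₀.2).1⟩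
    have h9 := F_im_abs hQ2 hQ1
    rw [(he σ hσ.1 hσ.2).2] at h9
    rw [Real.norm_eq_abs, le_div_iff₀ (by norm_num)]
    linarith
  have hcF : ContinuousOn (fun σ : ℝ => (F ⟨σ, e σ⟩).re) (Icc (0 : ℝ) 1) := by
    have h3 : ContinuousOn (fun σ : ℝ => (⟨σ, e σ⟩ : ℂ)) (Icc (0 : ℝ) 1) := by
      have : (fun σ : ℝ => (⟨σ, e σ⟩ : ℂ)) = fun σ : ℝ => (σ : ℂ) + (e σ : ℂ) * I := by
        funext σ; apply Complex.ext <;> simp
      rw [this]
      have h1 : ContinuousOn (fun σ : ℝ => ((e σ : ℝ) : ℂ)) (Icc (0 : ℝ) 1) :=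
        Complex.continuous_ofReal.comp_continuousOn hcont
      have h2 : ContinuousOn (fun σ : ℝ => (σ : ℂ)) (Icc (0 : ℝ) 1) :=
        Complex.continuous_ofReal.continuousOn
      exact h2.add (h1.mul continuousOn_const)
    exact Complex.continuous_re.comp_continuousOn
      (F_continuousOn.comp h3 fun σ hσ => (hQ σ hσ).1)
  have h0 : e 0 = t := by
    have hq1 := hQ 0 (by simp)
    have hq2 : (⟨0, t⟩ : ℂ) ∈ Q := ⟨le_refl _, zero_le_one, ht⟩
    have h9 := F_im_abs hq2 hq1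
    rw [(he 0 le_rfl zero_le_one).2, htY, sub_self, abs_zero] at h9
    have h10 : |e 0 - t| = 0 := le_antisymm (by linarith) (abs_nonneg _)
    exact sub_eq_zero.mp (abs_eq_zero.mp h10)
  have hleft : (F ⟨0, e 0⟩).re ≤ X := by
    rw [h0, F_re]
    simp only [zero_mul, zero_add]
    have hq2 : (⟨0, t⟩ : ℂ) ∈ Q := ⟨le_refl _, zero_le_one, ht⟩
    have h1 := abs_arg_Q hq2
    have h2 : t * arg ⟨0, t⟩ ≤ |t| * (Real.pi / 2) := by
      refine (le_abs_self _).trans ?_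
      rw [abs_mul]; gcongr
    have hpi := Real.pi_pos
    calc 2 / Real.pi * (t * arg ⟨0, t⟩) ≤ 2 / Real.pi * (|t| * (Real.pi / 2)) := by gcongr
      _ = |t| := by field_simp
      _ ≤ X := hX
  have hright : X ≤ (F ⟨1, e 1⟩).re := by
    rw [F_re]
    have hq := hQ 1 (by simp)
    have h1 := Fac_bound hq
    have h2 : 0 ≤ e 1 * arg ⟨1, e 1⟩ := by
      rcases le_total 0 (e 1) with h | h
      · exact mul_nonneg h (arg_nonneg_iff.mpr h)
      · have h3 : arg ⟨1, e 1⟩ ≤ 0 := by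
          rcases h.lt_or_eq with h4 | h4
          · exact (arg_neg_iff.mpr h4).le
          · rw [h4]
            have : (⟨1, 0⟩ : ℂ) = 1 := rfl
            rw [this, arg_one]
        exact mul_nonneg_of_nonpos_of_nonpos h h3
    have hpi := Real.pi_pos
    have h4 : 0 ≤ 2 / Real.pi * (e 1 * arg ⟨1, e 1⟩) := by positivity
    simp only at h1 h4 ⊢
    linarith
  obtain ⟨σ, hσ, hσX⟩ := intermediate_value_Icc zero_le_one hcF
    (⟨hleft, hright⟩ : X ∈ Icc ((F ⟨0, e 0⟩).re) ((F ⟨1, e 1⟩).re))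
  exact ⟨⟨σ, e σ⟩, hQ σ hσ, Complex.ext hσX (he σ hσ.1 hσ.2).2⟩

/-- Boundary values of `F`. -/
theorem F_bd_re (t : ℝ) : (F ⟨0, t⟩).re = |t| := by
  rw [F_re]
  simp only [zero_mul, zero_add]
  have hpi := Real.pi_pos
  rcases lt_trichotomy t 0 with h | h | h
  · have e : (⟨0, t⟩ : ℂ) = ((-t : ℝ) : ℂ) * (-I) := by apply Complex.ext <;> simp
    rw [e, arg_real_mul _ (by linarith : 0 < -t), arg_neg_I, abs_of_neg h]
    field_simp
  · rw [h]; simp
  · have e : (⟨0, t⟩ : ℂ) = ((t : ℝ) : ℂ) * I := by apply Complex.ext <;> simp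
    rw [e, arg_real_mul _ h, arg_I, abs_of_pos h]
    field_simp

theorem F_bd_im (t : ℝ) : (F ⟨0, t⟩).im = t * (4 - 2 / Real.pi * Real.log |t|) := by
  rw [F_im]
  simp only [zero_mul, mul_zero, sub_zero]
  have : ‖(⟨0, t⟩ : ℂ)‖ = |t| := by
    have e : (⟨0, t⟩ : ℂ) = ((t : ℝ) : ℂ) * I := by apply Complex.ext <;> simp
    rw [e, norm_mul, norm_I, mul_one, Complex.norm_real, Real.norm_eq_abs]
  rw [this]

end

end Pool.Agent.V1181.FB
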