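import Mathlib
import Pool.Agent.V1181.FBMap

/-!
# The free boundary and the inverse conformal map
-/

set_option autoImplicit false

namespace Pool.Agent.V1181.FB

open Complex Set Filter Topology

noncomputable section

/-- Clamping to `[-2,2]`. -/
def cl (Y : ℝ) : ℝ := (projIcc (-2 : ℝ) 2 (by norm_num) Y : ℝ)

theorem cl_abs (Y : ℝ) : |cl Y| ≤ 2 := abs_le.mpr (projIcc (-2 : ℝ) 2 (by norm_num) Y).2

theorem cl_eq {Y : ℝ} (h : |Y| ≤ 2) : cl Y = Y := by
  unfold cl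
  rw [projIcc_of_mem (by norm_num) (abs_le.mp h : Y ∈ Icc (-2 : ℝ) 2)]

theorem cl_lip (a b : ℝ) : |cl a - cl b| ≤ |a - b| := by
  have := (LipschitzWith.projIcc (a := (-2 : ℝ)) (b := 2) (by norm_num)).dist_le_mul a b
  simpa [Real.dist_eq, cl, Subtype.dist_eq] using this

theorem exists_T (Y : ℝ) : ∃ t : ℝ, |t| ≤ 1 ∧ (F ⟨0, t⟩).im = cl Y :=
  exists_eta le_rfl zero_le_one (cl_abs Y)

/-- The parameter of the boundary point with height `Y`. -/
def T (Y : ℝ) : ℝ := (exists_T Y).choose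

theorem T_abs (Y : ℝ) : |T Y| ≤ 1 := (exists_T Y).choose_spec.1

theorem T_spec (Y : ℝ) : (F ⟨0, T Y⟩).im = cl Y := (exists_T Y).choose_spec.2

theorem T_mem (Y : ℝ) : (⟨0, T Y⟩ : ℂ) ∈ Q := ⟨le_rfl, zero_le_one, T_abs Y⟩

theorem T_lip (a b : ℝ) : |T a - T b| ≤ (1 / 3) * |a - b| := by
  have h1 := F_im_abs (T_mem b) (T_mem a)
  rw [T_spec, T_spec] at h1
  have h2 := cl_lip a b
  linarith

theorem T_unique {Y t : ℝ} (hY : |Y| ≤ 2) (ht : |t| ≤ 1) (h : (F ⟨0, t⟩).im = Y) : T Y = t := by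
  have hq2 : (⟨0, t⟩ : ℂ) ∈ Q := ⟨le_refl _, zero_le_one, ht⟩
  have h9 := F_im_abs hq2 (T_mem Y)
  rw [T_spec, cl_eq hY, h, sub_self, abs_zero] at h9
  have h10 : |T Y - t| = 0 := le_antisymm (by linarith) (abs_nonneg _)
  exact sub_eq_zero.mp (abs_eq_zero.mp h10)

theorem T_zero : T 0 = 0 := by
  refine T_unique (by simp) (by simp) ?_
  rw [F_bd_im]; simp

/-- The function whose graph is the free boundary. -/
def g (Y : ℝ) : ℝ := |T Y|

theorem g_zero : g 0 = 0 := by simp [g, T_zero]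

theorem g_nonneg (Y : ℝ) : 0 ≤ g Y := abs_nonneg _

theorem g_le_one (Y : ℝ) : g Y ≤ 1 := T_abs Y

theorem g_lip (a b : ℝ) : |g a - g b| ≤ (1 / 3) * |a - b| :=
  (abs_abs_sub_abs_le _ _).trans (T_lip a b)

theorem g_lipschitz : LipschitzWith 1 g := by
  refine LipschitzWith.of_dist_le_mul fun a b => ?_
  rw [Real.dist_eq, Real.dist_eq, NNReal.coe_one, one_mul]
  have := g_lip a b
  have := abs_nonneg (a - b)
  linarith

theorem g_cont : Continuous g := g_lipschitz.continuous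

/-- The domain. -/
def D : Set ℂ := {z | g z.im < z.re}

theorem D_open : IsOpen D :=
  isOpen_lt (g_cont.comp continuous_im) continuous_re

/-- The compact set on which the inverse map is defined. -/
def K : Set ℂ := {z | |z.im| ≤ 2 ∧ g z.im ≤ z.re ∧ z.re ≤ 3}

theorem exists_W (z : ℂ) : ∃ w, z ∈ K → w ∈ Q ∧ F w = z := by
  by_cases h : z ∈ K
  · obtain ⟨h1, h2, h3⟩ := h
    obtain ⟨w, hw, hw2⟩ := exists_pre (T_abs z.im) (by rw [T_spec, cl_eq h1]) h1 h2 h3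
    exact ⟨w, fun _ => ⟨hw, hw2⟩⟩
  · exact ⟨0, fun h' => absurd h' h⟩

/-- The inverse map. -/
def W (z : ℂ) : ℂ := (exists_W z).choose

theorem W_mem {z : ℂ} (h : z ∈ K) : W z ∈ Q := ((exists_W z).choose_spec h).1

theorem F_W {z : ℂ} (h : z ∈ K) : F (W z) = z := ((exists_W z).choose_spec h).2

theorem W_lip {z z' : ℂ} (h : z ∈ K) (h' : z' ∈ K) : ‖W z - W z'‖ ≤ (1 / 3) * ‖z - z'‖ := by
  have h1 := F_lower (W_mem h') (W_mem h)
  rw [F_W h, F_W h'] at h1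
  linarith

theorem W_norm {z : ℂ} (h : z ∈ K) : ‖W z‖ ≤ 3 / 2 := (Q_norm (W_mem h)).trans (by norm_num)

theorem W_re_pos {z : ℂ} (h : z ∈ K) (hD : z ∈ D) : 0 < (W z).re := by
  rcases (W_mem h).1.lt_or_eq with h1 | h1
  · exact h1
  · exfalso
    have e : W z = ⟨0, (W z).im⟩ := Complex.ext h1.symm rfl
    have h2 := F_W h
    have h3 : z.re = |(W z).im| := by
      rw [← F_bd_re, ← e, h2]
    have h4 : (F ⟨0, (W z).im⟩).im = z.im := by rw [← e, h2]
    have h5 := T_unique h.1 (W_mem h).2.2 h4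
    have h6 : g z.im = z.re := by rw [g, h5, h3]
    exact absurd hD (by simp [D, h6])

/-- On the free boundary, `W z` is purely imaginary with `|W z| = Re z`. -/
theorem W_bd {z : ℂ} (h : z ∈ K) (hb : g z.im = z.re) : W z = ⟨0, T z.im⟩ := by
  refine F_inj (W_mem h) (T_mem _) ?_
  rw [F_W h]
  refine Complex.ext ?_ ?_
  · rw [F_bd_re]; exact hb.symm
  · rw [T_spec, cl_eq h.1]

theorem W_bd_sq {z : ℂ} (h : z ∈ K) (hb : g z.im = z.re) : (W z) ^ 2 = -((z.re : ℂ) ^ 2) := by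
  rw [W_bd h hb, ← hb, g]
  have e : (⟨0, T z.im⟩ : ℂ) = (T z.im : ℂ) * I := by apply Complex.ext <;> simp
  rw [e, mul_pow, I_sq, ← ofReal_pow, ← ofReal_pow, sq_abs]
  ring

theorem ball_K {z : ℂ} (hz : z ∈ Metric.ball (0 : ℂ) 2) (hg : g z.im ≤ z.re) : z ∈ K := by
  rw [mem_ball_zero_iff] at hz
  refine ⟨(abs_im_le_norm z).trans hz.le, hg, ?_⟩
  have := (re_le_norm z)
  linarith

theorem W_continuousWithinAt {z : ℂ} (h : z ∈ K) : ContinuousWithinAt W K z := by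
  rw [ContinuousWithinAt, tendsto_iff_norm_sub_tendsto_zero]
  have hlim : Tendsto (fun y : ℂ => (1 / 3) * ‖y - z‖) (𝓝[K] z) (𝓝 0) := by
    have : Continuous fun y : ℂ => (1 / 3) * ‖y - z‖ := by fun_prop
    have h2 := (this.tendsto z).mono_left (nhdsWithin_le_nhds (s := K))
    simpa using h2
  refine squeeze_zero' (Eventually.of_forall fun _ => norm_nonneg _) ?_ hlim
  filter_upwards [self_mem_nhdsWithin] with y hy using W_lip hy h

theorem K_nhds {z : ℂ} (hz : z ∈ Metric.ball (0 : ℂ) 2) (hD : z ∈ D) :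
    ∀ᶠ y in 𝓝 z, y ∈ K ∧ y ∈ D ∧ y ∈ Metric.ball (0 : ℂ) 2 := by
  filter_upwards [Metric.isOpen_ball.mem_nhds hz, D_open.mem_nhds hD] with y hy hy2
  exact ⟨ball_K hy (le_of_lt hy2), hy2, hy⟩

theorem W_continuousAt {z : ℂ} (hz : z ∈ Metric.ball (0 : ℂ) 2) (hD : z ∈ D) :
    ContinuousAt W z := by
  have h := W_continuousWithinAt (ball_K hz (le_of_lt hD))
  exact h.continuousAt ((K_nhds hz hD).mono fun y hy => hy.1)

/-- The derivative of `F`. -/
def F' (w : ℂ) : ℂ := 4 - (2 / Real.pi : ℝ) - (2 / Real.pi : ℝ) * log w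

theorem F'_re {w : ℂ} (hw : ‖w‖ ≤ 3 / 2) : 3 ≤ (F' w).re := by
  have h := log_bound (norm_nonneg w) hw
  unfold F'
  simp only [sub_re, mul_re, ofReal_re, ofReal_im, log_re]
  norm_num
  linarith

theorem F'_ne {w : ℂ} (hw : ‖w‖ ≤ 3 / 2) : F' w ≠ 0 := by
  intro h
  have := F'_re hw
  rw [h] at this
  norm_num at this

theorem W_hasDerivAt {z : ℂ} (hz : z ∈ Metric.ball (0 : ℂ) 2) (hD : z ∈ D) :
    HasDerivAt W (F' (W z))⁻¹ z := by
  have hK := ball_K hz (le_of_lt hD)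
  have h1 : HasDerivAt F (F' (W z)) (W z) := F_hasDerivAt (Or.inl (W_re_pos hK hD))
  exact h1.of_local_left_inverse (W_continuousAt hz hD) (F'_ne (W_norm hK))
    ((K_nhds hz hD).mono fun y hy => F_W hy.1)

end

end Pool.Agent.V1181.FB
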