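import Mathlib
import Pool.Agent.V1181.FBSol

/-!
# Regularity of the free boundary: `C¹` but not `C^{1,α}`
-/

set_option autoImplicit false

namespace Pool.Agent.V1181.FB

open Complex Set Filter Topology

noncomputable section

theorem closure_D : closure D = {z : ℂ | g z.im ≤ z.re} := by
  apply Subset.antisymm
  · have hc : IsClosed {z : ℂ | g z.im ≤ z.re} :=
      isClosed_le (g_cont.comp continuous_im) continuous_re
    refine closure_minimal (fun z hz => ?_) hc
    show g z.im ≤ z.re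
    exact le_of_lt hz
  · intro z hz
    rw [mem_closure_iff_seq_limit]
    refine ⟨fun n : ℕ => z + ((1 / ((n : ℝ) + 1) : ℝ) : ℂ), fun n => ?_, ?_⟩
    · show g (z + ((1 / ((n : ℝ) + 1) : ℝ) : ℂ)).im < (z + ((1 / ((n : ℝ) + 1) : ℝ) : ℂ)).re
      rw [add_im, add_re, ofReal_im, ofReal_re, add_zero]
      have h1 : 0 < 1 / ((n : ℝ) + 1) := by positivity
      have h2 : g z.im ≤ z.re := hz
      linarith
    · have h0 : Tendsto (fun n : ℕ => (((1 / (n + 1 : ℝ) : ℝ)) : ℂ)) atTop (𝓝 0) := by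
        have := (Complex.continuous_ofReal.tendsto 0).comp
          (tendsto_one_div_add_atTop_nhds_zero_nat (𝕜 := ℝ))
        rw [Complex.ofReal_zero] at this
        exact this
      simpa using h0.const_add z

theorem frontier_D : frontier D = {z : ℂ | g z.im = z.re} := by
  rw [frontier, closure_D, D_open.interior_eq]
  ext z
  constructor
  · rintro ⟨h1, h2⟩
    have h1' : g z.im ≤ z.re := h1
    have h2' : ¬ g z.im < z.re := h2
    exact le_antisymm h1' (not_lt.mp h2')
  · intro h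
    have h' : g z.im = z.re := h
    refine ⟨h'.le, ?_⟩
    show ¬ g z.im < z.re
    exact not_lt.mpr h'.ge

theorem frontier_null : MeasureTheory.volume (frontier D) = 0 := by
  rw [frontier_D]
  have hmeas : MeasurableSet {p : ℝ × ℝ | g p.2 = p.1} :=
    (isClosed_eq (g_cont.comp continuous_snd) continuous_fst).measurableSet
  have h1 : {z : ℂ | g z.im = z.re} = Complex.measurableEquivRealProd ⁻¹' {p : ℝ × ℝ | g p.2 = p.1} := by
    ext z; simp [Complex.measurableEquivRealProd_apply]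
  rw [h1, Complex.volume_preserving_equiv_real_prod.measure_preimage hmeas.nullMeasurableSet]
  rw [MeasureTheory.Measure.volume_eq_prod, MeasureTheory.Measure.prod_apply_symm hmeas]
  have h2 : ∀ y : ℝ, MeasureTheory.volume ((fun x => (x, y)) ⁻¹' {p : ℝ × ℝ | g p.2 = p.1}) = 0 := by
    intro y
    have : ((fun x => (x, y)) ⁻¹' {p : ℝ × ℝ | g p.2 = p.1}) = {g y} := by
      ext x; simp [eq_comm]
    rw [this]
    simp
  simp

theorem D_connected : IsConnected D := by
  have h1 : D = (fun p : ℝ × ℝ => (⟨g p.2 + p.1, p.2⟩ : ℂ)) '' (Ioi (0 : ℝ) ×ˢ (univ : Set ℝ)) := by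
    ext z
    constructor
    · intro hz
      have hz' : 0 < z.re - g z.im := sub_pos.mpr hz
      refine ⟨(z.re - g z.im, z.im), ⟨hz', mem_univ _⟩, ?_⟩
      apply Complex.ext <;> simp
    · rintro ⟨p, hp, rfl⟩
      have : 0 < p.1 := hp.1
      show g p.2 < g p.2 + p.1
      linarith
  rw [h1]
  have hc : Continuous (fun p : ℝ × ℝ => (⟨g p.2 + p.1, p.2⟩ : ℂ)) := by
    have : (fun p : ℝ × ℝ => (⟨g p.2 + p.1, p.2⟩ : ℂ))
        = fun p : ℝ × ℝ => ((g p.2 + p.1 : ℝ) : ℂ) + ((p.2 : ℝ) : ℂ) * I := by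
      funext p; apply Complex.ext <;> simp
    rw [this]
    have := g_cont
    fun_prop
  refine IsConnected.image ?_ _ hc.continuousOn
  exact isConnected_Ioi.prod isConnected_univ

theorem y_T {Y : ℝ} (hY : |Y| ≤ 2) : T Y * (4 - 2 / Real.pi * Real.log (T Y)) = Y := by
  have h := T_spec Y
  rw [cl_eq hY, F_bd_im, Real.log_abs] at h
  exact h

/-- The derivative of the boundary parametrization. -/
def dy (t : ℝ) : ℝ := 4 - 2 / Real.pi - 2 / Real.pi * Real.log t

theorem dy_ge {t : ℝ} (ht : |t| ≤ 1) : 3 ≤ dy t := by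
  unfold dy
  have h1 : Real.log t ≤ 0 := by
    rw [← Real.log_abs]; exact Real.log_nonpos (abs_nonneg _) ht
  have hpi := Real.pi_gt_three
  have h2 : 2 / Real.pi ≤ 1 := by
    rw [div_le_one (by positivity)]; linarith
  have h3 : 0 ≤ 2 / Real.pi * (-Real.log t) := by
    apply mul_nonneg (by positivity); linarith
  linarith

theorem yy_hasDerivAt {t : ℝ} (ht : t ≠ 0) :
    HasDerivAt (fun t : ℝ => t * (4 - 2 / Real.pi * Real.log t)) (dy t) t := by
  have h1 : HasDerivAt (fun t : ℝ => 4 - 2 / Real.pi * Real.log t) (0 - 2 / Real.pi * t⁻¹) t :=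
    (hasDerivAt_const t (4 : ℝ)).sub ((Real.hasDerivAt_log ht).const_mul _)
  have h2 := (hasDerivAt_id t).mul h1
  refine h2.congr_deriv ?_
  simp only [id, dy]
  field_simp
  ring

theorem T_cont : Continuous T := by
  refine (LipschitzWith.of_dist_le_mul (K := 1) fun a b => ?_ : LipschitzWith 1 T).continuous
  rw [Real.dist_eq, Real.dist_eq, NNReal.coe_one, one_mul]
  have := T_lip a b
  have := abs_nonneg (a - b)
  linarith

theorem T_ne {Y : ℝ} (hY : |Y| ≤ 2) (h0 : Y ≠ 0) : T Y ≠ 0 := by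
  intro h
  have := y_T hY
  rw [h, zero_mul] at this
  exact h0 this.symm

theorem T_hasDerivAt {Y : ℝ} (hY : |Y| < 2) (h0 : Y ≠ 0) : HasDerivAt T (dy (T Y))⁻¹ Y := by
  have h1 := yy_hasDerivAt (T_ne hY.le h0)
  refine h1.of_local_left_inverse T_cont.continuousAt ?_ ?_
  · have := dy_ge (T_abs Y)
    linarith
  · have hopen : IsOpen {Y : ℝ | |Y| < 2} := isOpen_lt continuous_abs continuous_const
    filter_upwards [hopen.mem_nhds hY] with y hy using y_T (le_of_lt hy)

/-- The derivative of `g`. -/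
def g' (Y : ℝ) : ℝ := (SignType.sign (T Y) : ℝ) * (dy (T Y))⁻¹

theorem fac_large {ε : ℝ} : ∀ᶠ t : ℝ in 𝓝[≠] 0, 1 / ε ≤ dy t := by
  have h1 : Tendsto Real.log (𝓝[≠] 0) atBot := Real.tendsto_log_nhdsNE_zero
  have hpi := Real.pi_pos
  have h2 : ∀ᶠ t : ℝ in 𝓝[≠] 0, Real.log t ≤ (4 - 2 / Real.pi - 1 / ε) / (2 / Real.pi) :=
    h1.eventually (eventually_le_atBot _)
  filter_upwards [h2] with t ht
  rw [le_div_iff₀ (by positivity)] at ht
  unfold dy
  linarith

theorem g_hasDerivAt_zero : HasDerivAt g 0 0 := by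
  rw [hasDerivAt_iff_isLittleO]
  rw [Asymptotics.isLittleO_iff]
  intro ε hε
  have h1 := fac_large (ε := ε)
  rw [eventually_nhdsWithin_iff] at h1
  have h2 : ∀ᶠ Y : ℝ in 𝓝 0, T Y ∈ ({0}ᶜ : Set ℝ) → 1 / ε ≤ dy (T Y) := by
    have h3 : Tendsto T (𝓝 0) (𝓝 0) := by
      have := T_cont.tendsto 0
      rwa [T_zero] at this
    exact h3.eventually h1
  have hopen : IsOpen {Y : ℝ | |Y| < 2} := isOpen_lt continuous_abs continuous_const
  filter_upwards [h2, hopen.mem_nhds (by simp : (0 : ℝ) ∈ {Y : ℝ | |Y| < 2})] with Y hY hY2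
  simp only [g_zero, sub_zero, smul_zero, Real.norm_eq_abs]
  rw [abs_of_nonneg (g_nonneg Y), g]
  by_cases h0 : T Y = 0
  · rw [h0, abs_zero]; positivity
  · have h3 := hY h0
    have h4 := y_T (le_of_lt hY2)
    have hpi := Real.pi_pos
    have h5 : 1 / ε ≤ 4 - 2 / Real.pi * Real.log (T Y) := by
      unfold dy at h3
      have : 0 < 2 / Real.pi := by positivity
      linarith
    have h6 : |Y| = |T Y| * (4 - 2 / Real.pi * Real.log (T Y)) := by
      have hp : 0 ≤ 4 - 2 / Real.pi * Real.log (T Y) := le_trans (by positivity) h5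
      nth_rewrite 1 [← h4]
      rw [abs_mul, abs_of_nonneg hp]
    rw [h6]
    have h7 : |T Y| * (1 / ε) ≤ |T Y| * (4 - 2 / Real.pi * Real.log (T Y)) := by gcongr
    calc |T Y| = ε * (|T Y| * (1 / ε)) := by field_simp
      _ ≤ _ := by gcongr

theorem g_hasDerivAt {Y : ℝ} (hY : |Y| < 2) : HasDerivAt g (g' Y) Y := by
  by_cases h0 : Y = 0
  · subst h0
    have : g' 0 = 0 := by simp [g', T_zero]
    rw [this]
    exact g_hasDerivAt_zero
  · have h1 := T_hasDerivAt hY h0
    exact (hasDerivAt_abs (T_ne hY.le h0)).comp Y h1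

theorem g'_continuousAt {Y : ℝ} (hY : |Y| < 2) : ContinuousAt g' Y := by
  by_cases h0 : Y = 0
  · subst h0
    have e : g' 0 = 0 := by simp [g', T_zero]
    rw [ContinuousAt, e, Metric.tendsto_nhds]
    intro ε hε
    have h1 := fac_large (ε := ε / 2)
    rw [eventually_nhdsWithin_iff] at h1
    have h2 : ∀ᶠ Y : ℝ in 𝓝 0, T Y ∈ ({0}ᶜ : Set ℝ) → 1 / (ε / 2) ≤ dy (T Y) := by
      have h3 : Tendsto T (𝓝 0) (𝓝 0) := by
        have := T_cont.tendsto 0
        rwa [T_zero] at this
      exact h3.eventually h1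
    filter_upwards [h2] with Y hY
    rw [Real.dist_eq, sub_zero]
    by_cases h0 : T Y = 0
    · simp [g', h0, hε]
    · have h3 := hY h0
      have h4 : |g' Y| ≤ (dy (T Y))⁻¹ := by
        rw [g', abs_mul]
        have hdp : 0 < dy (T Y) := by linarith [dy_ge (T_abs Y)]
        rw [abs_of_pos (inv_pos.mpr hdp)]
        have h5 : |(SignType.sign (T Y) : ℝ)| ≤ 1 := by
          rcases lt_trichotomy (T Y) 0 with h | h | h
          · simp [sign_neg h]
          · simp [h]
          · simp [sign_pos h]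
        have := inv_pos.mpr hdp
        nlinarith
      have h6 : (dy (T Y))⁻¹ ≤ ε / 2 := by
        rw [inv_le_comm₀ (by linarith [dy_ge (T_abs Y)]) (by positivity)]
        rwa [one_div] at h3
      linarith
  · have hT := T_ne hY.le h0
    have h1 : ContinuousAt (fun t : ℝ => (SignType.sign t : ℝ) * (dy t)⁻¹) (T Y) := by
      refine ContinuousAt.mul ?_ ?_
      · have h2 : ContinuousAt (fun t : ℝ => SignType.sign t) (T Y) :=
          continuousAt_sign_of_ne_zero hT
        have h3 : Continuous (fun s : SignType => (s : ℝ)) := continuous_of_discreteTopology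
        exact h3.continuousAt.comp h2
      · refine ContinuousAt.inv₀ ?_ ?_
        · unfold dy
          exact continuousAt_const.sub (continuousAt_const.mul (Real.continuousAt_log hT))
        · have := dy_ge (T_abs Y)
          linarith
    exact ContinuousAt.comp (f := T) h1 T_cont.continuousAt

theorem g_contDiffOn : ContDiffOn ℝ 1 g (Ioo (-2) 2) := by
  intro Y hY
  refine ContDiffAt.contDiffWithinAt ?_
  rw [contDiffAt_one_iff]
  have habs : ∀ y ∈ Ioo (-2 : ℝ) 2, |y| < 2 := fun y hy => abs_lt.mpr hy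
  refine ⟨fun y => ContinuousLinearMap.toSpanSingleton ℝ (g' y), Ioo (-2) 2,
    isOpen_Ioo.mem_nhds hY, ?_, fun y hy => (g_hasDerivAt (habs y hy)).hasFDerivAt⟩
  intro y hy
  have h1 : ContinuousAt g' y := g'_continuousAt (habs y hy)
  have h2 : Continuous fun c : ℝ => ContinuousLinearMap.toSpanSingleton ℝ c := by
    exact (ContinuousLinearMap.toSpanSingletonCLE (𝕜 := ℝ) (E := ℝ)).continuous
  exact (h2.continuousAt.comp h1).continuousWithinAt

/-- `g` is not `O(|Y|^{1+α})`. -/
theorem g_not_holder {α C δ : ℝ} (hα : 0 < α) (hδ : 0 < δ)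
    (h : ∀ Y : ℝ, 0 < Y → Y < δ → g Y ≤ C * Y ^ (1 + α)) : False := by
  -- choose `Y = y(t)`
  set β := α / (1 + α) with hβ
  have hβ0 : 0 < β := by positivity
  have hlim1 : Tendsto (fun t : ℝ => t ^ β * 4 - 2 / Real.pi * (Real.log t * t ^ β)) (𝓝[>] 0)
      (𝓝 0) := by
    have h1 := tendsto_log_mul_rpow_nhdsGT_zero hβ0
    have h2 : Tendsto (fun t : ℝ => t ^ β) (𝓝[>] 0) (𝓝 0) := by
      have := (Real.continuousAt_rpow_const 0 β (Or.inr hβ0.le)).tendsto
      rw [Real.zero_rpow hβ0.ne'] at this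
      exact this.mono_left nhdsWithin_le_nhds
    have h3 := (h2.mul_const 4).sub (h1.const_mul (2 / Real.pi))
    simpa using h3
  have hlim2 : Tendsto (fun t : ℝ => C * (t ^ β * 4 - 2 / Real.pi * (Real.log t * t ^ β))
      ^ (1 + α)) (𝓝[>] 0) (𝓝 0) := by
    have h1 := hlim1.rpow_const (p := 1 + α) (Or.inr (by positivity))
    rw [Real.zero_rpow (by positivity)] at h1
    simpa using h1.const_mul C
  have hlim3 : Tendsto (fun t : ℝ => t * (4 - 2 / Real.pi * Real.log t)) (𝓝[>] 0) (𝓝 0) := by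
    have h1 : Tendsto (fun t : ℝ => t * Real.log t) (𝓝[>] 0) (𝓝 0) := by
      have := Real.continuous_mul_log.tendsto 0
      simp only [zero_mul] at this
      exact this.mono_left nhdsWithin_le_nhds
    have h2 : Tendsto (fun t : ℝ => t) (𝓝[>] 0) (𝓝 0) := nhdsWithin_le_nhds
    have h3 := (h2.mul_const 4).sub (h1.const_mul (2 / Real.pi))
    simp only [zero_mul, mul_zero, sub_zero] at h3
    refine h3.congr fun t => ?_
    ring
  have hev : ∀ᶠ t : ℝ in 𝓝[>] 0, False := by
    filter_upwards [hlim2.eventually (gt_mem_nhds (zero_lt_one' ℝ)),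
      hlim3.eventually (gt_mem_nhds hδ), hlim3.eventually (gt_mem_nhds (by norm_num : (0 : ℝ) < 2)),
      self_mem_nhdsWithin, Ioo_mem_nhdsGT (zero_lt_one' ℝ)] with t h1 h2 h2' h3 h4
    have ht : 0 < t := h3
    have ht1 : t < 1 := h4.2
    have hlog : Real.log t < 0 := Real.log_neg ht ht1
    have hpi := Real.pi_pos
    have hfac : 0 < 4 - 2 / Real.pi * Real.log t := by
      have : 0 < 2 / Real.pi * (-Real.log t) := mul_pos (by positivity) (by linarith)
      linarith
    set Y := t * (4 - 2 / Real.pi * Real.log t) with hY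
    have hY0 : 0 < Y := mul_pos ht hfac
    have hTY : T Y = t := by
      refine T_unique (by rw [abs_of_pos hY0]; exact h2'.le) (by rw [abs_of_pos ht]; exact ht1.le) ?_
      rw [F_bd_im, abs_of_pos ht]
    have h5 := h Y hY0 h2
    rw [g, hTY, abs_of_pos ht] at h5
    -- `Y^(1+α) = t * (t^β * ...)^(1+α)`
    have h6 : Y ^ (1 + α) = t * (t ^ β * 4 - 2 / Real.pi * (Real.log t * t ^ β)) ^ (1 + α) := by
      have e1 : t ^ β * 4 - 2 / Real.pi * (Real.log t * t ^ β)
          = t ^ β * (4 - 2 / Real.pi * Real.log t) := by ring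
      rw [e1, hY, Real.mul_rpow ht.le hfac.le, Real.mul_rpow (by positivity) hfac.le,
        ← Real.rpow_mul ht.le, ← mul_assoc]
      congr 1
      have e2 : β * (1 + α) = α := by rw [hβ]; field_simp
      rw [e2, Real.rpow_add ht, Real.rpow_one]
    rw [h6] at h5
    have h7 : t * (C * (t ^ β * 4 - 2 / Real.pi * (Real.log t * t ^ β)) ^ (1 + α)) < t * 1 := by
      exact mul_lt_mul_of_pos_left h1 ht
    linarith
  rw [eventually_false_iff_eq_bot] at hev
  exact (nhdsGT_neBot (0 : ℝ)).ne hev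

end

end Pool.Agent.V1181.FB
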