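import Mathlib

/-!
# Computing Laplacians along orthonormal directions
-/

set_option autoImplicit false

namespace Pool.Agent.V1181

open Real Set Filter MeasureTheory Topology InnerProductSpace Laplacian

variable {E : Type*} [NormedAddCommGroup E] [InnerProductSpace ℝ E] [FiniteDimensional ℝ E]

/-- The Laplacian of a twice continuously differentiable function is the sum of the second
derivatives along the lines spanned by an orthonormal basis. -/
theorem lap_eq {ι : Type*} [Fintype ι] (v : OrthonormalBasis ι ℝ E) {f : E → ℝ} {x : E}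
    (hf : ContDiffAt ℝ 2 f x) (g : ι → E → ℝ) (h : ι → ℝ)
    (hg : ∀ i, ∀ᶠ y in 𝓝 x, HasDerivAt (fun t : ℝ => f (y + t • v i)) (g i y) 0)
    (hh : ∀ i, HasDerivAt (fun t : ℝ => g i (x + t • v i)) (h i) 0) :
    Δ f x = ∑ i, h i := by
  rw [laplacian_eq_iteratedFDeriv_orthonormalBasis f v]
  refine Finset.sum_congr rfl fun i _ => ?_
  rw [iteratedFDeriv_two_apply]
  simp only [Matrix.cons_val_zero, Matrix.cons_val_one]
  have hdiff : ∀ᶠ y in 𝓝 x, DifferentiableAt ℝ f y := by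
    have := hf.eventually (by simp)
    filter_upwards [this] with y hy using hy.differentiableAt (by simp)
  have hline : ∀ y : E, HasDerivAt (fun t : ℝ => y + t • v i) (v i) 0 := by
    intro y
    have h1 : HasDerivAt (fun t : ℝ => t • v i) ((1 : ℝ) • v i) 0 :=
      (hasDerivAt_id (0 : ℝ)).smul_const (v i)
    simpa using h1.const_add y
  have heq : (fun y => fderiv ℝ f y (v i)) =ᶠ[𝓝 x] g i := by
    filter_upwards [hdiff, hg i] with y hy hgy
    have h1 : HasFDerivAt f (fderiv ℝ f y) (y + (0 : ℝ) • v i) := by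
      simpa using hy.hasFDerivAt
    have h2 := h1.comp_hasDerivAt (0 : ℝ) (hline y)
    exact h2.unique hgy
  have hd2 : DifferentiableAt ℝ (fderiv ℝ f) x := by
    have := hf.fderiv_right (m := 1) (by norm_num)
    exact this.differentiableAt (by simp)
  have h3 : HasFDerivAt (fun y => fderiv ℝ f y (v i))
      ((ContinuousLinearMap.apply ℝ ℝ (v i)).comp (fderiv ℝ (fderiv ℝ f) x)) x :=
    (ContinuousLinearMap.apply ℝ ℝ (v i)).hasFDerivAt.comp x hd2.hasFDerivAt
  have h4 : HasFDerivAt (g i)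
      ((ContinuousLinearMap.apply ℝ ℝ (v i)).comp (fderiv ℝ (fderiv ℝ f) x)) x :=
    h3.congr_of_eventuallyEq heq.symm
  have h5 : HasFDerivAt (g i)
      ((ContinuousLinearMap.apply ℝ ℝ (v i)).comp (fderiv ℝ (fderiv ℝ f) x))
      (x + (0 : ℝ) • v i) := by simpa using h4
  have h6 := h5.comp_hasDerivAt (0 : ℝ) (hline x)
  have h7 := h6.unique (hh i)
  simpa using h7

/-- Laplacian of a radial function written as a function of the squared norm. -/
theorem lap_radial {F F' : ℝ → ℝ} {F'' : ℝ} {x : E}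
    (hF2 : ContDiffAt ℝ 2 F (‖x‖ ^ 2))
    (hF : ∀ᶠ s in 𝓝 (‖x‖ ^ 2), HasDerivAt F (F' s) s)
    (hF' : HasDerivAt F' F'' (‖x‖ ^ 2)) :
    Δ (fun y : E => F (‖y‖ ^ 2)) x
      = 4 * ‖x‖ ^ 2 * F'' + 2 * (Module.finrank ℝ E : ℝ) * F' (‖x‖ ^ 2) := by
  classical
  set v := stdOrthonormalBasis ℝ E
  have hsq : ∀ (y : E) i, HasDerivAt (fun t : ℝ => ‖y + t • v i‖ ^ 2)
      (2 * inner ℝ y (v i)) 0 := by
    intro y i
    have h1 : ∀ t : ℝ, ‖y + t • v i‖ ^ 2 = ‖y‖ ^ 2 + 2 * inner ℝ y (v i) * t + t ^ 2 := by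
      intro t
      rw [norm_add_sq_real, norm_smul, inner_smul_right, v.norm_eq_one i]
      simp only [mul_one, Real.norm_eq_abs, sq_abs]
      ring
    have h2 : HasDerivAt (fun t : ℝ => ‖y‖ ^ 2 + 2 * inner ℝ y (v i) * t + t ^ 2)
        (0 + 2 * inner ℝ y (v i) * 1 + 2 * (0 : ℝ)) 0 := by
      have a1 : HasDerivAt (fun t : ℝ => 2 * inner ℝ y (v i) * t) (2 * inner ℝ y (v i) * 1) 0 :=
        (hasDerivAt_id (0 : ℝ)).const_mul _
      have a2 : HasDerivAt (fun t : ℝ => t ^ 2) (2 * (0 : ℝ)) 0 := by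
        simpa using hasDerivAt_pow 2 (0 : ℝ)
      exact (((hasDerivAt_const (0 : ℝ) (‖y‖ ^ 2)).add a1).add a2)
    simp only [zero_add, mul_one, mul_zero, add_zero] at h2
    refine h2.congr_of_eventuallyEq ?_
    exact Filter.Eventually.of_forall fun t => h1 t
  have hcd : ContDiffAt ℝ 2 (fun y : E => F (‖y‖ ^ 2)) x := by
    refine ContDiffAt.comp x hF2 ?_
    exact (contDiff_norm_sq ℝ).contDiffAt
  have hcont : ContinuousAt (fun y : E => ‖y‖ ^ 2) x := by fun_prop
  rw [lap_eq v hcd (fun i y => F' (‖y‖ ^ 2) * (2 * inner ℝ y (v i)))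
    (fun i => (F'' * (2 * inner ℝ x (v i))) * (2 * inner ℝ x (v i)) + F' (‖x‖ ^ 2) * 2)]
  · have hnorm : ∑ i, (inner ℝ x (v i)) ^ 2 = ‖x‖ ^ 2 := by
      have := v.sum_sq_norm_inner_left x
      simpa [sq_abs, real_inner_comm] using this
    have : ∀ i, (F'' * (2 * inner ℝ x (v i))) * (2 * inner ℝ x (v i)) + F' (‖x‖ ^ 2) * 2
        = 4 * F'' * (inner ℝ x (v i)) ^ 2 + F' (‖x‖ ^ 2) * 2 := fun i => by ring
    simp only [this]
    rw [Finset.sum_add_distrib, ← Finset.mul_sum, hnorm, Finset.sum_const, Finset.card_univ,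
      Fintype.card_fin, nsmul_eq_mul]
    ring
  · intro i
    have := hcont.eventually hF
    filter_upwards [this] with y hy
    have h1 : HasDerivAt F (F' (‖y‖ ^ 2)) (‖y + (0 : ℝ) • v i‖ ^ 2) := by simpa using hy
    exact h1.comp (0 : ℝ) (hsq y i)
  · intro i
    have h1 : HasDerivAt F' F'' (‖x + (0 : ℝ) • v i‖ ^ 2) := by simpa using hF'
    have h2 := h1.comp (0 : ℝ) (hsq x i)
    have h3 : HasDerivAt (fun t : ℝ => 2 * inner ℝ (x + t • v i) (v i)) 2 0 := by
      have e : ∀ t : ℝ, 2 * inner ℝ (x + t • v i) (v i) = 2 * inner ℝ x (v i) + 2 * t := by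
        intro t
        rw [inner_add_left, inner_smul_left, real_inner_self_eq_norm_sq, v.norm_eq_one i]
        simp
        ring
      have h4 : HasDerivAt (fun t : ℝ => 2 * inner ℝ x (v i) + 2 * t) (0 + 2 * 1) 0 :=
        (hasDerivAt_const _ _).add ((hasDerivAt_id (0 : ℝ)).const_mul 2)
      simp only [zero_add, mul_one] at h4
      exact h4.congr_of_eventuallyEq (Filter.Eventually.of_forall e)
    have h5 := h2.mul h3
    refine (h5.congr_deriv ?_).congr_of_eventuallyEq (Filter.Eventually.of_forall fun t => rfl)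
    simp

/-- Laplacian in the Euclidean plane through second partial derivatives. -/
theorem lap_plane {f : EuclideanSpace ℝ (Fin 2) → ℝ} {x : EuclideanSpace ℝ (Fin 2)}
    (hf : ContDiffAt ℝ 2 f x) (g : Fin 2 → EuclideanSpace ℝ (Fin 2) → ℝ) (h : Fin 2 → ℝ)
    (hg : ∀ i, ∀ᶠ y in 𝓝 x,
      HasDerivAt (fun t : ℝ => f (y + t • EuclideanSpace.single i (1 : ℝ))) (g i y) 0)
    (hh : ∀ i, HasDerivAt (fun t : ℝ => g i (x + t • EuclideanSpace.single i (1 : ℝ))) (h i) 0) :
    Δ f x = h 0 + h 1 := by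
  rw [lap_eq (EuclideanSpace.basisFun (Fin 2) ℝ) hf g h]
  · simp
  · simpa using hg
  · simpa using hh

end Pool.Agent.V1181
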