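import Mathlib
import Pool.Agent.V1181.Lap
import Pool.Agent.V1181.FBSol

/-!
# The solution of the free boundary problem
-/

set_option autoImplicit false

namespace Pool.Agent.V1181.FB

open Complex Set Filter Topology InnerProductSpace Laplacian

noncomputable section

/-- The holomorphic part of the solution. -/
def Φ (z : ℂ) : ℂ := z * W z ^ 2 - (4 / (3 * Real.pi) : ℝ) * W z ^ 3

/-- The formula for the solution. -/
def U (z : ℂ) : ℝ := (1 / 6) * (z.re ^ 3 + (Φ z).re)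

open Classical in
/-- The solution. -/
def u (z : ℂ) : ℝ := if z ∈ D then U z else 0

open Classical in
/-- The complex gradient (conjugated). -/
def q (z : ℂ) : ℂ := if g z.im ≤ z.re then (1 / 2) * ((z.re : ℂ) ^ 2 + W z ^ 2) else 0

/-- The functional `v ↦ Re (c v)`. -/
def A (c : ℂ) : ℂ →L[ℝ] ℝ := reCLM.comp (c • ContinuousLinearMap.id ℝ ℂ)

theorem A_apply (c v : ℂ) : A c v = (c * v).re := by simp [A]

theorem A_sub (c d : ℂ) : A c - A d = A (c - d) := by
  ext v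
  simp only [_root_.sub_apply, A_apply]
  simp
  ring

theorem A_norm (c : ℂ) : ‖A c‖ ≤ ‖c‖ := by
  refine ContinuousLinearMap.opNorm_le_bound _ (norm_nonneg _) fun v => ?_
  rw [A_apply, ← norm_mul]
  exact abs_re_le_norm _

theorem A_zero : A 0 = 0 := by ext v; simp [A_apply]

theorem log_W {z : ℂ} (h : z ∈ K) : z = W z * (F' (W z) + (2 / Real.pi : ℝ)) := by
  conv_lhs => rw [← F_W h]
  unfold F F'
  ring

theorem Φ_hasDerivAt {z : ℂ} (hz : z ∈ Metric.ball (0 : ℂ) 2) (hD : z ∈ D) :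
    HasDerivAt Φ (3 * W z ^ 2) z := by
  have hK := ball_K hz (le_of_lt hD)
  have hW := W_hasDerivAt hz hD
  have h1 := ((hasDerivAt_id z).mul (hW.pow 2)).sub ((hW.pow 3).const_mul
    (((4 / (3 * Real.pi) : ℝ)) : ℂ))
  refine h1.congr_deriv ?_
  have hne := F'_ne (W_norm hK)
  have hlog := log_W hK
  have hpi : (Real.pi : ℂ) ≠ 0 := by exact_mod_cast Real.pi_ne_zero
  have key : ∀ Z w f : ℂ, f ≠ 0 → Z = w * (f + (2 / Real.pi : ℝ)) →
      1 * w ^ 2 + Z * (2 * w ^ (2 - 1) * f⁻¹) - (4 / (3 * Real.pi) : ℝ) * (3 * w ^ (3 - 1) * f⁻¹)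
        = 3 * w ^ 2 := by
    intro Z w f hf hZ
    rw [hZ]
    push_cast
    field_simp
    ring
  simp only [id, Pi.pow_apply, Nat.cast_ofNat]
  exact key z (W z) (F' (W z)) hne hlog

theorem U_hasFDerivAt {z : ℂ} (hz : z ∈ Metric.ball (0 : ℂ) 2) (hD : z ∈ D) :
    HasFDerivAt U (A ((1 / 2) * ((z.re : ℂ) ^ 2 + W z ^ 2))) z := by
  have h1 : HasFDerivAt (fun z : ℂ => (Φ z).re) (A (3 * W z ^ 2)) z := by
    have h2 := ((Φ_hasDerivAt hz hD).hasFDerivAt.restrictScalars ℝ)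
    have h3 := reCLM.hasFDerivAt.comp z h2
    refine h3.congr_fderiv ?_
    ext v
    rw [A_apply]
    simp
    ring
  have h4 : HasFDerivAt (fun z : ℂ => z.re ^ 3) (A (3 * (z.re : ℂ) ^ 2)) z := by
    have h5 : HasFDerivAt (fun z : ℂ => z.re) reCLM z := reCLM.hasFDerivAt
    have h6 := h5.pow 3
    refine h6.congr_fderiv ?_
    ext v
    rw [A_apply]
    simp [← ofReal_pow]
  have h7 := (h4.add h1).const_mul (1 / 6)
  refine h7.congr_fderiv ?_
  ext v
  simp only [_root_.smul_apply, _root_.add_apply, A_apply, smul_eq_mul]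
  rw [← add_re, ← re_ofReal_mul]
  congr 1
  push_cast
  ring

theorem u_hasFDerivAt_in {z : ℂ} (hz : z ∈ Metric.ball (0 : ℂ) 2) (hD : z ∈ D) :
    HasFDerivAt u (A (q z)) z := by
  have h1 := U_hasFDerivAt hz hD
  have e : q z = (1 / 2) * ((z.re : ℂ) ^ 2 + W z ^ 2) := if_pos (le_of_lt hD)
  rw [e]
  refine h1.congr_of_eventuallyEq ?_
  filter_upwards [D_open.mem_nhds hD] with y hy using if_pos hy

theorem u_hasFDerivAt_out {z : ℂ} (h : z.re < g z.im) : HasFDerivAt u (A (q z)) z := by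
  have e : q z = 0 := if_neg (not_le.mpr h)
  rw [e, A_zero]
  have hopen : IsOpen {z : ℂ | z.re < g z.im} :=
    isOpen_lt continuous_re (g_cont.comp continuous_im)
  refine (hasFDerivAt_const (0 : ℝ) z).congr_of_eventuallyEq ?_
  filter_upwards [hopen.mem_nhds h] with y hy
  have : y ∉ D := not_lt.mpr (le_of_lt hy)
  exact if_neg this

theorem q_bd {z : ℂ} (hK : z ∈ K) (h : g z.im = z.re) : q z = 0 := by
  rw [q, if_pos h.le, W_bd_sq hK h]
  ring

theorem q_lip_aux {z y : ℂ} (hz : z ∈ Metric.ball (0 : ℂ) 2) (hy : y ∈ Metric.ball (0 : ℂ) 2)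
    (hz' : g z.im ≤ z.re) (hy' : g y.im ≤ y.re) : ‖q z - q y‖ ≤ 3 * ‖z - y‖ := by
  have hKz := ball_K hz hz'
  have hKy := ball_K hy hy'
  rw [q, q, if_pos hz', if_pos hy']
  have e : (1 / 2 : ℂ) * ((z.re : ℂ) ^ 2 + W z ^ 2) - (1 / 2) * ((y.re : ℂ) ^ 2 + W y ^ 2)
      = (1 / 2) * (((z.re : ℂ) - y.re) * (z.re + y.re)) + (1 / 2) * ((W z - W y) * (W z + W y)) := by
    ring
  rw [e]
  refine (norm_add_le _ _).trans ?_
  rw [norm_mul, norm_mul, norm_mul, norm_mul]
  have h1 : ‖(z.re : ℂ) - y.re‖ ≤ ‖z - y‖ := by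
    rw [← ofReal_sub, ← sub_re, Complex.norm_real]
    exact abs_re_le_norm _
  have h2 : ‖(z.re : ℂ) + y.re‖ ≤ 4 := by
    rw [mem_ball_zero_iff] at hz hy
    refine (norm_add_le _ _).trans ?_
    rw [Complex.norm_real, Complex.norm_real]
    have := abs_re_le_norm z
    have := abs_re_le_norm y
    rw [Real.norm_eq_abs, Real.norm_eq_abs]
    linarith
  have h3 := W_lip hKz hKy
  have h4 : ‖W z + W y‖ ≤ 3 := by
    refine (norm_add_le _ _).trans ?_
    have := W_norm hKz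
    have := W_norm hKy
    linarith
  have h5 : ‖(1 / 2 : ℂ)‖ = 1 / 2 := by norm_num
  rw [h5]
  have h6 : ‖(z.re : ℂ) - y.re‖ * ‖(z.re : ℂ) + y.re‖ ≤ ‖z - y‖ * 4 := by gcongr
  have h7 : ‖W z - W y‖ * ‖W z + W y‖ ≤ ((1 / 3) * ‖z - y‖) * 3 := by gcongr
  have := norm_nonneg (z - y)
  linarith

/-- Crossing lemma. -/
theorem exists_cross {z y : ℂ} (hz : g z.im ≤ z.re) (hy : y.re < g y.im) :
    ∃ p ∈ segment ℝ z y, g p.im = p.re := by
  have hc : Continuous fun t : ℝ => ((AffineMap.lineMap z y t : ℂ).re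
      - g (AffineMap.lineMap z y t : ℂ).im) := by
    have h1 : Continuous fun t : ℝ => (AffineMap.lineMap z y t : ℂ) :=
      AffineMap.lineMap_continuous
    exact (continuous_re.comp h1).sub (g_cont.comp (continuous_im.comp h1))
  have h2 := intermediate_value_Icc' (zero_le_one' ℝ) hc.continuousOn
  have h3 : (0 : ℝ) ∈ Icc ((AffineMap.lineMap z y (1 : ℝ) : ℂ).re
      - g (AffineMap.lineMap z y (1 : ℝ) : ℂ).im) ((AffineMap.lineMap z y (0 : ℝ) : ℂ).re
      - g (AffineMap.lineMap z y (0 : ℝ) : ℂ).im) := by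
    rw [AffineMap.lineMap_apply_one, AffineMap.lineMap_apply_zero]
    constructor <;> linarith
  obtain ⟨t, ht, ht2⟩ := h2 h3
  refine ⟨AffineMap.lineMap z y t, ?_, ?_⟩
  · rw [segment_eq_image_lineMap]
    exact ⟨t, ht, rfl⟩
  · simp only at ht2
    linarith

theorem q_lip_cross {z y : ℂ} (hz : z ∈ Metric.ball (0 : ℂ) 2) (hy : y ∈ Metric.ball (0 : ℂ) 2)
    (hz' : g z.im ≤ z.re) (hy' : y.re < g y.im) : ‖q z - q y‖ ≤ 3 * ‖z - y‖ := by
  obtain ⟨p, hp, hp2⟩ := exists_cross hz' hy'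
  have hpB : p ∈ Metric.ball (0 : ℂ) 2 := (convex_ball (0 : ℂ) 2).segment_subset hz hy hp
  have h1 : q y = 0 := if_neg (not_le.mpr hy')
  have h2 : q p = 0 := q_bd (ball_K hpB hp2.le) hp2
  have h3 := q_lip_aux hz hpB hz' hp2.le
  rw [h1, ← h2]
  refine h3.trans ?_
  have h4 : ‖z - p‖ ≤ ‖z - y‖ := by
    rw [← dist_eq_norm, ← dist_eq_norm]
    rw [dist_comm z p, dist_comm z y]
    have := (convex_closedBall z (dist y z)).segment_subset
      (Metric.mem_closedBall_self dist_nonneg) (Metric.mem_closedBall.mpr le_rfl) hp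
    exact Metric.mem_closedBall.mp this
  linarith

theorem q_lip {z y : ℂ} (hz : z ∈ Metric.ball (0 : ℂ) 2) (hy : y ∈ Metric.ball (0 : ℂ) 2) :
    ‖q z - q y‖ ≤ 3 * ‖z - y‖ := by
  by_cases hz' : g z.im ≤ z.re
  · by_cases hy' : g y.im ≤ y.re
    · exact q_lip_aux hz hy hz' hy'
    · exact q_lip_cross hz hy hz' (not_le.mp hy')
  · by_cases hy' : g y.im ≤ y.re
    · rw [norm_sub_rev, norm_sub_rev z]
      exact q_lip_cross hy hz hy' (not_le.mp hz')
    · rw [q, q, if_neg hz', if_neg hy', sub_self, norm_zero]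
      positivity

theorem U_bd {z : ℂ} (hK : z ∈ K) (h : g z.im = z.re) : U z = 0 := by
  have e1 := W_bd_sq hK h
  have e2 : (W z ^ 3).re = 0 := by
    have : W z ^ 3 = W z ^ 2 * W z := by ring
    rw [this, e1, W_bd hK h, ← ofReal_pow, ← ofReal_neg, re_ofReal_mul]
    simp
  rw [U, Φ, e1, sub_re, re_ofReal_mul, e2, ← ofReal_pow, ← ofReal_neg, re_mul_ofReal]
  ring

theorem U_continuousOn : ContinuousOn U K := by
  have hW : ContinuousOn W K := fun z hz => W_continuousWithinAt hz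
  have hΦ : ContinuousOn Φ K := by
    unfold Φ
    exact (continuousOn_id.mul (hW.pow 2)).sub (continuousOn_const.mul (hW.pow 3))
  unfold U
  exact continuousOn_const.mul (((continuous_re.pow 3).continuousOn).add
    (continuous_re.comp_continuousOn hΦ))

/-- Quadratic smallness near the free boundary. -/
theorem u_small {z : ℂ} (hz : z ∈ Metric.ball (0 : ℂ) 2) :
    |u z| ≤ 3 * (z.re - g z.im) ^ 2 := by
  by_cases hD : z ∈ D
  · have hlt : g z.im < z.re := hD
    rw [u, if_pos hD]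
    have hB : ∀ x ∈ Icc (g z.im) z.re, (⟨x, z.im⟩ : ℂ) ∈ Metric.ball (0 : ℂ) 2 := by
      intro x hx
      rw [mem_ball_zero_iff] at hz ⊢
      refine lt_of_le_of_lt ?_ hz
      have h0 : 0 ≤ x := (g_nonneg _).trans hx.1
      rw [← sq_le_sq₀ (norm_nonneg _) (norm_nonneg _), ← normSq_eq_norm_sq, ← normSq_eq_norm_sq,
        normSq_apply, normSq_apply]
      nlinarith [hx.2]
    have hKx : ∀ x ∈ Icc (g z.im) z.re, (⟨x, z.im⟩ : ℂ) ∈ K := fun x hx =>
      ball_K (hB x hx) hx.1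
    have hform : (fun x : ℝ => (⟨x, z.im⟩ : ℂ)) = fun x : ℝ => (x : ℂ) + (z.im : ℂ) * I := by
      funext x; apply Complex.ext <;> simp
    have hline : Continuous fun x : ℝ => (⟨x, z.im⟩ : ℂ) := by
      rw [hform]; fun_prop
    have hc : ContinuousOn (fun x : ℝ => U ⟨x, z.im⟩) (Icc (g z.im) z.re) :=
      U_continuousOn.comp hline.continuousOn hKx
    have hd : ∀ x ∈ Ioo (g z.im) z.re, HasDerivAt (fun x : ℝ => U ⟨x, z.im⟩)
        ((q ⟨x, z.im⟩).re) x := by
      intro x hx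
      have hx' := Ioo_subset_Icc_self hx
      have hDx : (⟨x, z.im⟩ : ℂ) ∈ D := hx.1
      have h1 := U_hasFDerivAt (hB x hx') hDx
      have h2 : HasDerivAt (fun x : ℝ => (⟨x, z.im⟩ : ℂ)) 1 x := by
        rw [hform]
        have h3 : HasDerivAt (fun t : ℝ => (t : ℂ)) 1 x := by
          simpa using (hasDerivAt_id x).ofReal_comp
        exact h3.add_const _
      have h4 := h1.comp_hasDerivAt x h2
      refine h4.congr_deriv ?_
      rw [A_apply, mul_one, q, if_pos hx'.1]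
    obtain ⟨c, hc1, hc2⟩ := exists_hasDerivAt_eq_slope _ _ hlt hc hd
    have hend : U ⟨g z.im, z.im⟩ = 0 := U_bd (hKx _ ⟨le_rfl, hlt.le⟩) rfl
    have hz1 : U ⟨z.re, z.im⟩ = U z := rfl
    simp only [hend, hz1, sub_zero] at hc2
    have hpos : 0 < z.re - g z.im := sub_pos.mpr hlt
    have h5 : U z = (q ⟨c, z.im⟩).re * (z.re - g z.im) := by
      rw [hc2]; field_simp
    have hc1' := Ioo_subset_Icc_self hc1
    have hq0 : q ⟨g z.im, z.im⟩ = 0 := q_bd (hKx _ ⟨le_rfl, hlt.le⟩) rfl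
    have h6 : ‖q ⟨c, z.im⟩‖ ≤ 3 * (z.re - g z.im) := by
      have h7 := q_lip (hB c hc1') (hB (g z.im) ⟨le_rfl, hlt.le⟩)
      rw [hq0, sub_zero] at h7
      have h8 : (⟨c, z.im⟩ : ℂ) - ⟨g z.im, z.im⟩ = ((c - g z.im : ℝ) : ℂ) := by
        apply Complex.ext <;> simp
      rw [h8, Complex.norm_real, Real.norm_eq_abs, abs_of_nonneg (by linarith [hc1.1])] at h7
      linarith [hc1.2]
    rw [h5, abs_mul, abs_of_pos hpos]
    have h9 := abs_re_le_norm (q ⟨c, z.im⟩)
    nlinarith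
  · rw [u, if_neg hD, abs_zero]
    positivity

theorem u_hasFDerivAt_bd {z : ℂ} (hz : z ∈ Metric.ball (0 : ℂ) 2) (h : g z.im = z.re) :
    HasFDerivAt u (A (q z)) z := by
  rw [q_bd (ball_K hz h.le) h, A_zero]
  have hu : u z = 0 := if_neg (by simp [D, h])
  have hO : u =O[𝓝 z] fun y => ‖y - z‖ ^ 2 := by
    refine Asymptotics.IsBigO.of_bound 12 ?_
    filter_upwards [Metric.isOpen_ball.mem_nhds hz] with y hy
    simp only [norm_pow, norm_norm]
    rw [Real.norm_eq_abs]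
    refine (u_small hy).trans ?_
    have h1 : |y.re - g y.im| ≤ 2 * ‖y - z‖ := by
      have e : y.re - g y.im = (y - z).re + (g z.im - g y.im) := by rw [h]; simp
      rw [e]
      refine (abs_add_le _ _).trans ?_
      have h2 := abs_re_le_norm (y - z)
      have h3 := g_lip z.im y.im
      have h4 : |z.im - y.im| ≤ ‖y - z‖ := by
        rw [abs_sub_comm, ← sub_im]; exact abs_im_le_norm _
      have := abs_nonneg (z.im - y.im)
      linarith
    have h5 : (y.re - g y.im) ^ 2 ≤ (2 * ‖y - z‖) ^ 2 := by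
      rw [← sq_abs]; gcongr
    nlinarith
  exact hO.hasFDerivAt (by norm_num)

theorem u_hasFDerivAt {z : ℂ} (hz : z ∈ Metric.ball (0 : ℂ) 2) : HasFDerivAt u (A (q z)) z := by
  rcases lt_trichotomy (g z.im) z.re with h | h | h
  · exact u_hasFDerivAt_in hz h
  · exact u_hasFDerivAt_bd hz h
  · exact u_hasFDerivAt_out h

theorem fderiv_lip : LipschitzOnWith 3 (fderiv ℝ u) (Metric.ball 0 2) := by
  refine LipschitzOnWith.of_dist_le_mul fun z hz y hy => ?_
  rw [(u_hasFDerivAt hz).fderiv, (u_hasFDerivAt hy).fderiv, dist_eq_norm, dist_eq_norm, A_sub]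
  exact (A_norm _).trans (q_lip hz hy)

theorem W_analyticAt {z : ℂ} (hz : z ∈ Metric.ball (0 : ℂ) 2) (hD : z ∈ D) :
    AnalyticAt ℂ W z := by
  have hopen : IsOpen (Metric.ball (0 : ℂ) 2 ∩ D) := Metric.isOpen_ball.inter D_open
  have hd : DifferentiableOn ℂ W (Metric.ball (0 : ℂ) 2 ∩ D) := fun y hy =>
    (W_hasDerivAt hy.1 hy.2).differentiableAt.differentiableWithinAt
  exact hd.analyticAt (hopen.mem_nhds ⟨hz, hD⟩)

theorem u_contDiffAt {z : ℂ} (hz : z ∈ Metric.ball (0 : ℂ) 2) (hD : z ∈ D) :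
    ContDiffAt ℝ 2 u z := by
  have hW := W_analyticAt hz hD
  have hΦ : AnalyticAt ℂ Φ z := by
    unfold Φ
    exact (analyticAt_id.mul (hW.pow 2)).sub (analyticAt_const.mul (hW.pow 3))
  have h1 : ContDiffAt ℝ 2 Φ z := (hΦ.contDiffAt (n := 2)).restrict_scalars ℝ
  have h2 : ContDiffAt ℝ 2 U z := by
    unfold U
    refine contDiffAt_const.mul (ContDiffAt.add ?_ ?_)
    · exact (reCLM.contDiff.contDiffAt).pow 3
    · exact reCLM.contDiff.contDiffAt.comp z h1
  refine h2.congr_of_eventuallyEq ?_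
  filter_upwards [D_open.mem_nhds hD] with y hy using if_pos hy

theorem u_laplacian_in {z : ℂ} (hz : z ∈ Metric.ball (0 : ℂ) 2) (hD : z ∈ D) :
    Δ u z = z.re := by
  have hb : ∀ i : Fin 2, (Complex.orthonormalBasisOneI i) = ![1, I] i := by
    intro i
    rw [← Complex.coe_orthonormalBasisOneI]
  have hnear : ∀ᶠ y in 𝓝 z, y ∈ Metric.ball (0 : ℂ) 2 ∧ y ∈ D := by
    filter_upwards [Metric.isOpen_ball.mem_nhds hz, D_open.mem_nhds hD] with y hy hy2
    exact ⟨hy, hy2⟩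
  have hline : ∀ (y : ℂ) (v : ℂ), HasDerivAt (fun t : ℝ => y + t • v) v 0 := by
    intro y v
    have h1 : HasDerivAt (fun t : ℝ => t • v) ((1 : ℝ) • v) 0 :=
      (hasDerivAt_id (0 : ℝ)).smul_const v
    simpa using h1.const_add y
  set w' : ℂ := (F' (W z))⁻¹
  have hWd := W_hasDerivAt hz hD
  -- derivative of `W²` along `v`
  have hW2 : ∀ v : ℂ, HasDerivAt (fun t : ℝ => (W (z + t • v)) ^ 2) (2 * W z * w' * v) 0 := by
    intro v
    have h1 : HasDerivAt W w' (z + (0 : ℝ) • v) := by simpa using hWd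
    have h2 := h1.comp (0 : ℝ) (hline z v)
    have h3 := h2.pow 2
    refine h3.congr_deriv ?_
    simp
    ring
  have hX2 : ∀ v : ℂ, HasDerivAt (fun t : ℝ => ((((z + t • v).re : ℝ) : ℂ)) ^ 2)
      (2 * (z.re : ℂ) * v.re) 0 := by
    intro v
    have h1 : HasDerivAt (fun t : ℝ => (z + t • v).re) v.re 0 := by
      have h0 := (Complex.reCLM.hasFDerivAt (x := z + (0 : ℝ) • v)).comp_hasDerivAt (0 : ℝ)
        (hline z v)
      exact h0
    have h2 := h1.ofReal_comp.pow 2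
    refine h2.congr_deriv ?_
    simp
  rw [lap_eq Complex.orthonormalBasisOneI (u_contDiffAt hz hD)
    (fun i y => ((1 / 2 : ℂ) * ((y.re : ℂ) ^ 2 + W y ^ 2) * (![1, I] i : ℂ)).re)
    (fun i => ((1 / 2 : ℂ) * (2 * (z.re : ℂ) * (![1, I] i : ℂ).re
      + 2 * W z * w' * (![1, I] i : ℂ)) * (![1, I] i : ℂ)).re)]
  · simp
    ring
  · intro i
    filter_upwards [hnear] with y hy
    have h1 : HasFDerivAt u (A (q y)) (y + (0 : ℝ) • (Complex.orthonormalBasisOneI i)) := by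
      simpa using u_hasFDerivAt_in hy.1 hy.2
    have h2 := h1.comp_hasDerivAt (0 : ℝ) (hline y _)
    refine h2.congr_deriv ?_
    rw [A_apply, q, if_pos (le_of_lt hy.2), hb]
  · intro i
    simp only [hb]
    have h1 := ((((hX2 (![1, I] i)).add (hW2 (![1, I] i))).const_mul (1 / 2 : ℂ)).mul_const
      (![1, I] i : ℂ))
    have h2 := (Complex.reCLM.hasFDerivAt (x := (1 / 2 : ℂ) * ((((z + (0 : ℝ) • (![1, I] i : ℂ)).re : ℝ) : ℂ) ^ 2
      + W (z + (0 : ℝ) • (![1, I] i : ℂ)) ^ 2) * (![1, I] i : ℂ))).comp_hasDerivAt (0 : ℝ) h1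
    exact h2

theorem u_laplacian_out {z : ℂ} (h : z.re < g z.im) : ContDiffAt ℝ 2 u z ∧ Δ u z = 0 := by
  have hopen : IsOpen {z : ℂ | z.re < g z.im} :=
    isOpen_lt continuous_re (g_cont.comp continuous_im)
  have he : u =ᶠ[𝓝 z] fun _ => (0 : ℝ) := by
    filter_upwards [hopen.mem_nhds h] with y hy
    have : y ∉ D := not_lt.mpr (le_of_lt hy)
    exact if_neg this
  refine ⟨contDiffAt_const.congr_of_eventuallyEq he, ?_⟩
  have h2 := laplacian_congr_nhds he
  rw [h2.eq_of_nhds]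
  simp

end

end Pool.Agent.V1181.FB
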