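import Mathlib

/-!
# Green's identity against compactly supported functions
-/

set_option autoImplicit false
set_option linter.unusedSectionVars false

namespace Pool.Agent.V1181

open Real Set Filter MeasureTheory Topology InnerProductSpace Laplacian

variable {E : Type*} [NormedAddCommGroup E] [InnerProductSpace ℝ E] [FiniteDimensional ℝ E]
  [MeasurableSpace E] [BorelSpace E]

theorem fderiv_dir {f : E → ℝ} {x : E} (hf : ContDiffAt ℝ 2 f x) (v w : E) :
    fderiv ℝ (fun y => fderiv ℝ f y v) x w = iteratedFDeriv ℝ 2 f x ![w, v] := by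
  rw [iteratedFDeriv_two_apply]
  have h1 : DifferentiableAt ℝ (fderiv ℝ f) x :=
    (hf.fderiv_right (m := 1) (by norm_num)).differentiableAt (by norm_num)
  have h2 := (h1.hasFDerivAt.clm_apply (hasFDerivAt_const v x)).fderiv
  rw [h2]
  simp

theorem contDiff_dir {f : E → ℝ} (hf : ContDiff ℝ 2 f) (v : E) :
    ContDiff ℝ 1 (fun y => fderiv ℝ f y v) :=
  (hf.fderiv_right (m := 1) (by norm_num)).clm_apply contDiff_const

theorem lap_sum (f : E → ℝ) (hf : ContDiff ℝ 2 f) (x : E) :
    Δ f x = ∑ i, fderiv ℝ (fun y => fderiv ℝ f y (stdOrthonormalBasis ℝ E i)) x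
      (stdOrthonormalBasis ℝ E i) := by
  rw [laplacian_eq_iteratedFDeriv_stdOrthonormalBasis]
  refine Finset.sum_congr rfl fun i _ => ?_
  rw [fderiv_dir hf.contDiffAt]

variable (μ : Measure E) [μ.IsAddHaarMeasure]

theorem by_parts {f g : E → ℝ} (hf : ContDiff ℝ 1 f) (hg : ContDiff ℝ 1 g)
    (hc : HasCompactSupport g) (v : E) :
    ∫ x, f x * fderiv ℝ g x v ∂μ = - ∫ x, fderiv ℝ f x v * g x ∂μ := by
  have cf : Continuous fun x => fderiv ℝ f x v :=
    (hf.continuous_fderiv (by norm_num)).clm_apply continuous_const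
  have cg : Continuous fun x => fderiv ℝ g x v :=
    (hg.continuous_fderiv (by norm_num)).clm_apply continuous_const
  have sg : HasCompactSupport fun x => fderiv ℝ g x v := (hc.fderiv_apply (𝕜 := ℝ) v)
  refine integral_mul_fderiv_eq_neg_fderiv_mul_of_integrable ?_ ?_ ?_
    (fun x _ => hf.differentiable (by norm_num) x) (fun x _ => hg.differentiable (by norm_num) x)
  · exact (cf.mul hg.continuous).integrable_of_hasCompactSupport hc.mul_left
  · exact (hf.continuous.mul cg).integrable_of_hasCompactSupport sg.mul_left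
  · exact (hf.continuous.mul hg.continuous).integrable_of_hasCompactSupport hc.mul_left

theorem by_parts' {f g : E → ℝ} (hf : ContDiff ℝ 1 f) (hg : ContDiff ℝ 1 g)
    (hc : HasCompactSupport f) (v : E) :
    ∫ x, f x * fderiv ℝ g x v ∂μ = - ∫ x, fderiv ℝ f x v * g x ∂μ := by
  have := by_parts μ hg hf hc v
  simp only [mul_comm (g _), mul_comm _ (f _)] at this ⊢
  rw [this, neg_neg]

/-- Green's identity. -/
theorem green {f φ : E → ℝ} (hf : ContDiff ℝ 2 f) (hφ : ContDiff ℝ 2 φ)
    (hc : HasCompactSupport φ) :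
    ∫ x, f x * Δ φ x ∂μ = ∫ x, Δ f x * φ x ∂μ := by
  have key : ∀ v : E, ∫ x, f x * fderiv ℝ (fun y => fderiv ℝ φ y v) x v ∂μ
      = ∫ x, fderiv ℝ (fun y => fderiv ℝ f y v) x v * φ x ∂μ := by
    intro v
    rw [by_parts μ (hf.of_le (by norm_num)) (contDiff_dir hφ v) (hc.fderiv_apply (𝕜 := ℝ) v) v,
      by_parts μ (contDiff_dir hf v) (hφ.of_le (by norm_num)) hc v, neg_neg]
  simp only [lap_sum φ hφ, lap_sum f hf, Finset.mul_sum, Finset.sum_mul]
  rw [integral_finsetSum, integral_finsetSum]
  · exact Finset.sum_congr rfl fun i _ => key _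
  · intro i _
    refine Continuous.integrable_of_hasCompactSupport ?_ hc.mul_left
    exact (((contDiff_dir hf _).continuous_fderiv (by norm_num)).clm_apply continuous_const).mul
      hφ.continuous
  · intro i _
    refine Continuous.integrable_of_hasCompactSupport ?_ ?_
    · exact hf.continuous.mul
        (((contDiff_dir hφ _).continuous_fderiv (by norm_num)).clm_apply continuous_const)
    · exact ((hc.fderiv_apply (𝕜 := ℝ) _).fderiv_apply (𝕜 := ℝ) _).mul_left

end Pool.Agent.V1181
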