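import Mathlib
import Pool.Agent.V1181.Green

/-!
# The space `H¹₀` as the closure of compactly supported `C¹` functions
-/

set_option autoImplicit false
set_option linter.unusedSectionVars false

namespace Pool.Agent.V1181

open Real Set Filter MeasureTheory Topology InnerProductSpace Laplacian
open scoped ENNReal

variable {E : Type*} [NormedAddCommGroup E] [InnerProductSpace ℝ E] [FiniteDimensional ℝ E]
  [MeasurableSpace E] [BorelSpace E]

/-- Compactly supported `C¹` functions in `Ω`. -/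
def IsTest (Ω : Set E) (φ : E → ℝ) : Prop :=
  ContDiff ℝ 1 φ ∧ HasCompactSupport φ ∧ tsupport φ ⊆ Ω

/-- `u ∈ H¹₀(Ω)` with weak gradient `G`: `u` and `G` are limits in `L²(Ω)` of compactly supported
`C¹` functions and of their gradients. -/
structure IsH10 (Ω : Set E) (u : E → ℝ) (G : E → E) : Prop where
  memu : MemLp u 2 (volume.restrict Ω)
  memG : MemLp G 2 (volume.restrict Ω)
  approx : ∃ φ : ℕ → E → ℝ, (∀ n, IsTest Ω (φ n)) ∧
    Tendsto (fun n => eLpNorm (fun x => φ n x - u x) 2 (volume.restrict Ω)) atTop (𝓝 0) ∧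
    Tendsto (fun n => eLpNorm (fun x => gradient (φ n) x - G x) 2 (volume.restrict Ω)) atTop (𝓝 0)

/-! ### Gradients -/

theorem hasGrad_mul {f g : E → ℝ} {f' g' x : E} (hf : HasGradientAt f f' x)
    (hg : HasGradientAt g g' x) :
    HasGradientAt (fun y => f y * g y) (f x • g' + g x • f') x := by
  rw [hasGradientAt_iff_hasFDerivAt] at *
  refine (hf.mul hg).congr_fderiv ?_
  simp [map_add]

theorem hasGrad_add {f g : E → ℝ} {f' g' x : E} (hf : HasGradientAt f f' x)
    (hg : HasGradientAt g g' x) : HasGradientAt (fun y => f y + g y) (f' + g') x := by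
  rw [hasGradientAt_iff_hasFDerivAt] at *
  refine (hf.add hg).congr_fderiv ?_
  simp [map_add]

theorem hasGrad_comp {Φ : ℝ → ℝ} {Φ' : ℝ} {f : E → ℝ} {f' x : E} (hΦ : HasDerivAt Φ Φ' (f x))
    (hf : HasGradientAt f f' x) : HasGradientAt (fun y => Φ (f y)) (Φ' • f') x := by
  rw [hasGradientAt_iff_hasFDerivAt] at *
  refine (hΦ.comp_hasFDerivAt x hf).congr_fderiv ?_
  simp

theorem hasGrad_normsq (x : E) : HasGradientAt (fun y : E => ‖y‖ ^ 2) ((2 : ℝ) • x) x := by
  rw [hasGradientAt_iff_hasFDerivAt]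
  refine (hasStrictFDerivAt_norm_sq x).hasFDerivAt.congr_fderiv ?_
  ext y
  simp [two_smul]

theorem grad_radial {F : ℝ → ℝ} {F' : ℝ} {x : E} (h : HasDerivAt F F' (‖x‖ ^ 2)) :
    gradient (fun y : E => F (‖y‖ ^ 2)) x = (2 * F') • x := by
  have h1 := hasGrad_comp (f := fun y : E => ‖y‖ ^ 2) h (hasGrad_normsq x)
  have h2 : gradient (fun y : E => F (‖y‖ ^ 2)) x = F' • ((2 : ℝ) • x) := h1.gradient
  rw [h2, smul_smul, mul_comm]

theorem grad_cont {f : E → ℝ} (hf : ContDiff ℝ 1 f) : Continuous (gradient f) :=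
  (LinearIsometryEquiv.continuous _).comp (hf.continuous_fderiv (by norm_num))

theorem norm_grad (f : E → ℝ) (x : E) : ‖gradient f x‖ = ‖fderiv ℝ f x‖ := by
  unfold gradient
  exact LinearIsometryEquiv.norm_map _ _

theorem IsTest.zero_out {Ω : Set E} {φ : E → ℝ} (h : IsTest Ω φ) {x : E} (hx : x ∉ Ω) :
    φ x = 0 := image_eq_zero_of_notMem_tsupport fun h' => hx (h.2.2 h')

theorem IsTest.grad_zero_out {Ω : Set E} {φ : E → ℝ} (h : IsTest Ω φ) {x : E} (hx : x ∉ Ω) :
    gradient φ x = 0 := by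
  have h1 : φ =ᶠ[𝓝 x] fun _ => 0 :=
    notMem_tsupport_iff_eventuallyEq.1 fun h' => hx (h.2.2 h')
  rw [h1.gradient_eq]
  exact gradient_fun_const x 0

theorem IsTest.memLp {Ω : Set E} {φ : E → ℝ} (h : IsTest Ω φ) :
    MemLp φ 2 (volume.restrict Ω) :=
  (h.1.continuous.memLp_of_hasCompactSupport h.2.1).restrict _

theorem grad_compact {φ : E → ℝ} (h : HasCompactSupport φ) : HasCompactSupport (gradient φ) := by
  refine (h.fderiv (𝕜 := ℝ)).mono ?_
  intro x hx
  rw [Function.mem_support] at hx ⊢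
  intro h0
  apply hx
  rw [← norm_eq_zero, norm_grad, h0, norm_zero]

theorem IsTest.grad_memLp {Ω : Set E} {φ : E → ℝ} (h : IsTest Ω φ) :
    MemLp (gradient φ) 2 (volume.restrict Ω) :=
  ((grad_cont h.1).memLp_of_hasCompactSupport (grad_compact h.2.1)).restrict _

theorem IsTest.isH10 {Ω : Set E} {φ : E → ℝ} (h : IsTest Ω φ) : IsH10 Ω φ (gradient φ) where
  memu := h.memLp
  memG := h.grad_memLp
  approx := ⟨fun _ => φ, fun _ => h, by simp, by simp⟩

/-! ### Convergence lemmas -/

theorem eLpNorm_tendsto_zero {F : Type*} [NormedAddCommGroup F] {μ : Measure E}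
    {f : ℕ → E → F} {g : E → ℝ} (hf : ∀ n, AEStronglyMeasurable (f n) μ) (hg : MemLp g 2 μ)
    (hb : ∀ n, ∀ᵐ x ∂μ, ‖f n x‖ ≤ g x) (hl : ∀ᵐ x ∂μ, Tendsto (fun n => f n x) atTop (𝓝 0)) :
    Tendsto (fun n => eLpNorm (f n) 2 μ) atTop (𝓝 0) := by
  have h2 : (2 : ℝ≥0∞).toReal = 2 := by norm_num
  have key : Tendsto (fun n => ∫⁻ x, ‖f n x‖ₑ ^ (2 : ℝ) ∂μ) atTop (𝓝 (∫⁻ _, 0 ∂μ)) := by
    refine tendsto_lintegral_of_dominated_convergence' (fun x => ‖g x‖ₑ ^ (2 : ℝ))
      (fun n => (hf n).enorm.pow_const _) (fun n => ?_) ?_ ?_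
    · filter_upwards [hb n] with x hx
      gcongr
      rw [enorm_le_iff_norm_le]
      exact hx.trans (le_abs_self _)
    · have := hg.eLpNorm_lt_top
      rw [eLpNorm_eq_lintegral_rpow_enorm_toReal (by norm_num) (by norm_num), h2] at this
      intro h
      rw [h] at this
      simp at this
    · filter_upwards [hl] with x hx
      have h3 : Tendsto (fun n => ‖f n x‖ₑ ^ (2 : ℝ)) atTop (𝓝 (‖(0 : F)‖ₑ ^ (2 : ℝ))) :=
        ((ENNReal.continuous_rpow_const).tendsto _).comp hx.enorm
      simpa using h3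
  rw [lintegral_zero] at key
  have h4 : Tendsto (fun n => (∫⁻ x, ‖f n x‖ₑ ^ (2 : ℝ) ∂μ) ^ (1 / 2 : ℝ)) atTop
      (𝓝 ((0 : ℝ≥0∞) ^ (1 / 2 : ℝ))) := ((ENNReal.continuous_rpow_const).tendsto _).comp key
  rw [ENNReal.zero_rpow_of_pos (by norm_num)] at h4
  refine h4.congr fun n => ?_
  rw [eLpNorm_eq_lintegral_rpow_enorm_toReal (by norm_num) (by norm_num), h2]

theorem tendsto_integral_inner {F : Type*} [NormedAddCommGroup F] [InnerProductSpace ℝ F]
    {μ : Measure E} {f : E → F} {g : ℕ → E → F} {g' : E → F} (hf : MemLp f 2 μ)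
    (hg : ∀ n, MemLp (g n) 2 μ) (hg' : MemLp g' 2 μ)
    (h : Tendsto (fun n => eLpNorm (fun x => g n x - g' x) 2 μ) atTop (𝓝 0)) :
    Tendsto (fun n => ∫ x, inner ℝ (f x) (g n x) ∂μ) atTop (𝓝 (∫ x, inner ℝ (f x) (g' x) ∂μ)) := by
  have h1 := (Lp.tendsto_Lp_iff_tendsto_eLpNorm'' g hg g' hg').2 h
  have h2 : Tendsto (fun n => inner ℝ (hf.toLp f) ((hg n).toLp (g n))) atTop
      (𝓝 (inner ℝ (hf.toLp f) (hg'.toLp g'))) := tendsto_const_nhds.inner h1
  have e : ∀ {k : E → F} (hk : MemLp k 2 μ),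
      inner ℝ (hf.toLp f) (hk.toLp k) = ∫ x, inner ℝ (f x) (k x) ∂μ := by
    intro k hk
    rw [L2.inner_def]
    refine integral_congr_ae ?_
    filter_upwards [hf.coeFn_toLp, hk.coeFn_toLp] with x h3 h4
    rw [h3, h4]
  rw [e hg'] at h2
  refine h2.congr fun n => ?_
  exact e (hg n)

theorem tendsto_integral_mul {μ : Measure E} {f : E → ℝ} {g : ℕ → E → ℝ} {g' : E → ℝ}
    (hf : MemLp f 2 μ) (hg : ∀ n, MemLp (g n) 2 μ) (hg' : MemLp g' 2 μ)
    (h : Tendsto (fun n => eLpNorm (fun x => g n x - g' x) 2 μ) atTop (𝓝 0)) :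
    Tendsto (fun n => ∫ x, f x * g n x ∂μ) atTop (𝓝 (∫ x, f x * g' x ∂μ)) := by
  have := tendsto_integral_inner hf hg hg' h
  simp only [RCLike.inner_apply, conj_trivial] at this
  simpa only [mul_comm] using this

/-! ### Green's identity -/

/-- Green's identity for test functions. -/
theorem green_test {w φ : E → ℝ} (hw : ContDiff ℝ 2 w) (hφ : ContDiff ℝ 1 φ)
    (hc : HasCompactSupport φ) :
    ∫ x, inner ℝ (gradient w x) (gradient φ x) = - ∫ x, Δ w x * φ x := by
  set b := stdOrthonormalBasis ℝ E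
  have h1 : ∀ x, inner ℝ (gradient w x) (gradient φ x)
      = ∑ i, fderiv ℝ w x (b i) * fderiv ℝ φ x (b i) := by
    intro x
    rw [← b.sum_inner_mul_inner]
    refine Finset.sum_congr rfl fun i _ => ?_
    rw [inner_gradient_left, real_inner_comm, inner_gradient_left]
  simp only [h1, lap_sum w hw, Finset.sum_mul]
  rw [integral_finsetSum, integral_finsetSum, ← Finset.sum_neg_distrib]
  · refine Finset.sum_congr rfl fun i _ => ?_
    exact by_parts volume (contDiff_dir hw (b i)) hφ hc (b i)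
  · intro i _
    refine Continuous.integrable_of_hasCompactSupport ?_ hc.mul_left
    exact (((contDiff_dir hw _).continuous_fderiv (by norm_num)).clm_apply continuous_const).mul
      hφ.continuous
  · intro i _
    refine Continuous.integrable_of_hasCompactSupport ?_ ?_
    · exact ((hw.continuous_fderiv (by norm_num)).clm_apply continuous_const).mul
        ((hφ.continuous_fderiv (by norm_num)).clm_apply continuous_const)
    · exact (hc.fderiv_apply (𝕜 := ℝ) _).mul_left

theorem lap_continuous {w : E → ℝ} (hw : ContDiff ℝ 2 w) : Continuous (Δ w) := by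
  have : Δ w = fun x => ∑ i, fderiv ℝ (fun y => fderiv ℝ w y (stdOrthonormalBasis ℝ E i)) x
      (stdOrthonormalBasis ℝ E i) := by
    funext x
    exact lap_sum w hw x
  rw [this]
  refine continuous_finsetSum _ fun i _ => ?_
  exact ((contDiff_dir hw _).continuous_fderiv (by norm_num)).clm_apply continuous_const

theorem memLp_of_continuous {F : Type*} [NormedAddCommGroup F] {Ω : Set E}
    (hΩ : Bornology.IsBounded Ω) (hm : MeasurableSet Ω) {f : E → F}
    (hf : Continuous f) [SecondCountableTopology F] [MeasurableSpace F] [BorelSpace F] :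
    MemLp f 2 (volume.restrict Ω) := by
  obtain ⟨C, hC⟩ := hΩ.isCompact_closure.exists_bound_of_continuousOn hf.continuousOn
  have : IsFiniteMeasure ((volume : Measure E).restrict Ω) := by
    refine ⟨?_⟩
    rw [Measure.restrict_apply_univ]
    exact hΩ.measure_lt_top
  exact MemLp.of_bound hf.aestronglyMeasurable C
    ((ae_restrict_iff' hm).2 (Eventually.of_forall fun x hx => hC x (subset_closure hx)))

theorem grad_memLp {Ω : Set E} (hΩ : Bornology.IsBounded Ω) (hm : MeasurableSet Ω) {w : E → ℝ}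
    (hw : ContDiff ℝ 1 w) : MemLp (gradient w) 2 (volume.restrict Ω) := by
  obtain ⟨C, hC⟩ := hΩ.isCompact_closure.exists_bound_of_continuousOn (grad_cont hw).continuousOn
  have : IsFiniteMeasure ((volume : Measure E).restrict Ω) := by
    refine ⟨?_⟩
    rw [Measure.restrict_apply_univ]
    exact hΩ.measure_lt_top
  exact MemLp.of_bound (grad_cont hw).aestronglyMeasurable C
    ((ae_restrict_iff' hm).2 (Eventually.of_forall fun x hx => hC x (subset_closure hx)))

/-- Green's identity for `H¹₀` functions. -/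
theorem IsH10.green {Ω : Set E} (hΩ : Bornology.IsBounded Ω) (hm : MeasurableSet Ω) {v : E → ℝ}
    {G : E → E} (h : IsH10 Ω v G) {w : E → ℝ} (hw : ContDiff ℝ 2 w) :
    ∫ x in Ω, inner ℝ (gradient w x) (G x) = - ∫ x in Ω, Δ w x * v x := by
  obtain ⟨φ, hφ, h1, h2⟩ := h.approx
  have hw1 : ContDiff ℝ 1 w := hw.of_le (by norm_num)
  have a1 := tendsto_integral_inner (grad_memLp hΩ hm hw1) (fun n => (hφ n).grad_memLp) h.memG h2
  have a2 := tendsto_integral_mul (memLp_of_continuous hΩ hm (lap_continuous hw))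
    (fun n => (hφ n).memLp) h.memu h1
  refine tendsto_nhds_unique a1 ?_
  refine a2.neg.congr fun n => ?_
  have e1 : ∫ x in Ω, Δ w x * φ n x = ∫ x, Δ w x * φ n x := by
    refine setIntegral_eq_integral_of_forall_compl_eq_zero fun x hx => ?_
    rw [(hφ n).zero_out hx, mul_zero]
  have e2 : ∫ x in Ω, inner ℝ (gradient w x) (gradient (φ n) x)
      = ∫ x, inner ℝ (gradient w x) (gradient (φ n) x) := by
    refine setIntegral_eq_integral_of_forall_compl_eq_zero fun x hx => ?_
    rw [(hφ n).grad_zero_out hx, inner_zero_right]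
  rw [e1, e2, green_test hw (hφ n).1 (hφ n).2.1]

/-! ### Functions vanishing on the unit sphere -/

theorem IsH10.congr_grad {Ω : Set E} {v : E → ℝ} {G G' : E → E} (h : IsH10 Ω v G)
    (hG : G =ᵐ[volume.restrict Ω] G') : IsH10 Ω v G' where
  memu := h.memu
  memG := (memLp_congr_ae hG).1 h.memG
  approx := by
    obtain ⟨φ, hφ, h1, h2⟩ := h.approx
    refine ⟨φ, hφ, h1, h2.congr fun n => eLpNorm_congr_ae ?_⟩
    filter_upwards [hG] with x hx
    rw [hx]

/-- A `C¹` function vanishing on the unit sphere is in `H¹₀` of the unit ball. -/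
theorem isH10_ball {g : E → ℝ} (hg : ContDiff ℝ 1 g) (h0 : ∀ x, ‖x‖ = 1 → g x = 0) :
    IsH10 (Metric.ball (0 : E) 1) g (gradient g) := by
  have hbd : Bornology.IsBounded (Metric.ball (0 : E) 1) := Metric.isBounded_ball
  have hms : MeasurableSet (Metric.ball (0 : E) 1) := measurableSet_ball
  have hfin : IsFiniteMeasure ((volume : Measure E).restrict (Metric.ball (0 : E) 1)) := by
    refine ⟨?_⟩
    rw [Measure.restrict_apply_univ]
    exact hbd.measure_lt_top
  obtain ⟨L, hL⟩ := (isCompact_closedBall (0 : E) 1).exists_bound_of_continuousOn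
    (grad_cont hg).continuousOn
  obtain ⟨Cg, hCg⟩ := (isCompact_closedBall (0 : E) 1).exists_bound_of_continuousOn
    hg.continuous.continuousOn
  have hL0 : 0 ≤ L := (norm_nonneg _).trans (hL 0 (by simp))
  have hCg0 : 0 ≤ Cg := (norm_nonneg _).trans (hCg 0 (by simp))
  -- the bound of `g` near the sphere
  have hgb : ∀ x : E, ‖x‖ ≤ 1 → x ≠ 0 → |g x| ≤ L * (1 - ‖x‖ ^ 2) := by
    intro x hx hx0
    have hxp : 0 < ‖x‖ := norm_pos_iff.2 hx0
    set y := (‖x‖⁻¹ : ℝ) • x with hy
    have hyn : ‖y‖ = 1 := by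
      rw [hy, norm_smul, norm_inv, norm_norm, inv_mul_cancel₀ hxp.ne']
    have h1 := Convex.norm_image_sub_le_of_norm_fderiv_le (𝕜 := ℝ) (f := g) (C := L)
      (s := Metric.closedBall (0 : E) 1) (x := y) (y := x)
      (fun z _ => hg.differentiable (by norm_num) z)
      (fun z hz => by rw [← norm_grad]; exact hL z hz) (convex_closedBall _ _)
      (by simp [hyn]) (by simpa using hx)
    rw [h0 y hyn, sub_zero, Real.norm_eq_abs] at h1
    have h2 : ‖x - y‖ = 1 - ‖x‖ := by
      have : x - y = (1 - ‖x‖⁻¹ : ℝ) • x := by rw [hy, sub_smul, one_smul]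
      rw [this, norm_smul, Real.norm_eq_abs, abs_sub_comm]
      have h3 : 1 ≤ ‖x‖⁻¹ := (one_le_inv₀ hxp).2 hx
      rw [abs_of_nonneg (by linarith), sub_mul, inv_mul_cancel₀ hxp.ne', one_mul]
    rw [h2] at h1
    refine h1.trans (mul_le_mul_of_nonneg_left ?_ hL0)
    nlinarith
  -- the cut-off functions
  set st := Real.smoothTransition with hst
  have hstc : ContDiff ℝ 1 st := Real.smoothTransition.contDiff
  have hstd : ∀ t, HasDerivAt st (deriv st t) t := fun t =>
    (hstc.differentiable (by norm_num) t).hasDerivAt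
  have hst'c : Continuous (deriv st) := hstc.continuous_deriv (le_refl _)
  obtain ⟨C0, hC0⟩ := (isCompact_Icc (a := (0 : ℝ)) (b := 1)).exists_bound_of_continuousOn
    hst'c.continuousOn
  have hC00 : 0 ≤ C0 := (norm_nonneg _).trans (hC0 0 (by simp))
  have hd0 : ∀ t, t < 0 → deriv st t = 0 := by
    intro t ht
    have : st =ᶠ[𝓝 t] fun _ => 0 := by
      filter_upwards [gt_mem_nhds ht] with s hs
      exact Real.smoothTransition.zero_of_nonpos hs.le
    rw [this.deriv_eq]; simp
  have hd1 : ∀ t, 1 < t → deriv st t = 0 := by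
    intro t ht
    have : st =ᶠ[𝓝 t] fun _ => 1 := by
      filter_upwards [lt_mem_nhds ht] with s hs
      exact Real.smoothTransition.one_of_one_le hs.le
    rw [this.deriv_eq]; simp
  set N : ℕ → ℝ := fun n => (n : ℝ) + 3 with hN
  have hNpos : ∀ n, 0 < N n := fun n => by simp only [hN]; positivity
  set η : ℕ → E → ℝ := fun n x => st (N n * (1 - ‖x‖ ^ 2) - 1) with hη
  have hηsm : ∀ n, ContDiff ℝ 1 (η n) := fun n => by
    have h1 : ContDiff ℝ 1 fun x : E => N n * (1 - ‖x‖ ^ 2) - 1 :=
      (contDiff_const.mul (contDiff_const.sub (contDiff_norm_sq ℝ))).sub contDiff_const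
    exact hstc.comp h1
  have hηg : ∀ n x, HasGradientAt (η n)
      ((deriv st (N n * (1 - ‖x‖ ^ 2) - 1) * (N n * (-2))) • x) x := by
    intro n x
    have h1 : HasDerivAt (fun s : ℝ => st (N n * (1 - s) - 1))
        (deriv st (N n * (1 - ‖x‖ ^ 2) - 1) * (N n * (-1))) (‖x‖ ^ 2) := by
      have h2 : HasDerivAt (fun s : ℝ => N n * (1 - s) - 1) (N n * (-1)) (‖x‖ ^ 2) :=
        (((hasDerivAt_id (‖x‖ ^ 2)).const_sub 1).const_mul (N n)).sub_const 1
      exact (hstd _).comp (‖x‖ ^ 2) h2
    have h3 := hasGrad_comp (f := fun y : E => ‖y‖ ^ 2) h1 (hasGrad_normsq x)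
    have e : (deriv st (N n * (1 - ‖x‖ ^ 2) - 1) * (N n * (-1))) • ((2 : ℝ) • x)
        = (deriv st (N n * (1 - ‖x‖ ^ 2) - 1) * (N n * (-2))) • x := by
      rw [smul_smul]; congr 1; ring
    rw [← e]
    exact h3
  set φ : ℕ → E → ℝ := fun n x => η n x * g x with hφ
  have hφsm : ∀ n, ContDiff ℝ 1 (φ n) := fun n => (hηsm n).mul hg
  have hφg : ∀ n x, gradient (φ n) x = η n x • gradient g x
      + g x • ((deriv st (N n * (1 - ‖x‖ ^ 2) - 1) * (N n * (-2))) • x) := by
    intro n x
    have hgx : HasGradientAt g (gradient g x) x :=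
      (hg.differentiable (by norm_num) x).hasGradientAt
    exact (hasGrad_mul (hηg n x) hgx).gradient
  have hsupp : ∀ n, tsupport (φ n) ⊆ {x : E | ‖x‖ ^ 2 ≤ 1 - 1 / N n} := by
    intro n
    refine closure_minimal ?_ (isClosed_le (by fun_prop) continuous_const)
    intro x hx
    by_contra hcon
    apply hx
    have hcon' : 1 - 1 / N n < ‖x‖ ^ 2 := not_le.1 hcon
    have h1 : N n * (1 - ‖x‖ ^ 2) - 1 ≤ 0 := by
      have h2 := hNpos n
      have h3 : 1 - ‖x‖ ^ 2 < 1 / N n := by linarith
      rw [lt_div_iff₀ h2] at h3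
      linarith
    simp only [hφ, hη, hst]
    rw [Real.smoothTransition.zero_of_nonpos h1, zero_mul]
  have hsub : ∀ n, {x : E | ‖x‖ ^ 2 ≤ 1 - 1 / N n} ⊆ Metric.ball (0 : E) 1 := by
    intro n x hx
    have hx' : ‖x‖ ^ 2 ≤ 1 - 1 / N n := hx
    have h2 : 0 < 1 / N n := by have := hNpos n; positivity
    rw [mem_ball_zero_iff]
    nlinarith [norm_nonneg x]
  have htest : ∀ n, IsTest (Metric.ball (0 : E) 1) (φ n) := by
    intro n
    refine ⟨hφsm n, ?_, (hsupp n).trans (hsub n)⟩
    refine HasCompactSupport.of_support_subset_isCompact (isCompact_closedBall (0 : E) 1) ?_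
    exact (subset_tsupport _).trans (((hsupp n).trans (hsub n)).trans Metric.ball_subset_closedBall)
  have hη01 : ∀ n x, 0 ≤ η n x ∧ η n x ≤ 1 := fun n x =>
    ⟨Real.smoothTransition.nonneg _, Real.smoothTransition.le_one _⟩
  have hlim : ∀ x ∈ Metric.ball (0 : E) 1, ∀ᶠ n : ℕ in atTop, 1 < N n * (1 - ‖x‖ ^ 2) - 1 := by
    intro x hx
    have hx1 : ‖x‖ < 1 := by simpa using hx
    have h1 : 0 < 1 - ‖x‖ ^ 2 := by nlinarith [norm_nonneg x]
    have h2 : Tendsto (fun n : ℕ => N n * (1 - ‖x‖ ^ 2) - 1) atTop atTop := by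
      have h3 : Tendsto (fun n : ℕ => (n : ℝ) + 3) atTop atTop :=
        tendsto_atTop_add_const_right _ _ tendsto_natCast_atTop_atTop
      exact tendsto_atTop_add_const_right _ _ (h3.atTop_mul_const h1)
    exact h2.eventually_gt_atTop 1
  refine ⟨memLp_of_continuous hbd hms hg.continuous, grad_memLp hbd hms hg, φ, htest, ?_, ?_⟩
  · refine eLpNorm_tendsto_zero (g := fun _ => Cg)
      (fun n => ((hφsm n).continuous.sub hg.continuous).aestronglyMeasurable)
      (memLp_const _) (fun n => ?_) ?_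
    · refine (ae_restrict_iff' hms).2 (Eventually.of_forall fun x hx => ?_)
      have h1 := hCg x (Metric.ball_subset_closedBall hx)
      have h2 := hη01 n x
      have e : φ n x - g x = (η n x - 1) * g x := by simp only [hφ]; ring
      rw [e, norm_mul]
      have h3 : ‖η n x - 1‖ ≤ 1 := by
        rw [Real.norm_eq_abs, abs_le]
        constructor <;> linarith [h2.1, h2.2]
      calc _ ≤ 1 * ‖g x‖ := by gcongr
        _ ≤ Cg := by rw [one_mul]; exact h1
    · refine (ae_restrict_iff' hms).2 (Eventually.of_forall fun x hx => ?_)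
      refine tendsto_const_nhds.congr' ?_
      filter_upwards [hlim x hx] with n hn
      have : η n x = 1 := Real.smoothTransition.one_of_one_le hn.le
      simp only [hφ]
      rw [this]
      ring
  · refine eLpNorm_tendsto_zero (g := fun _ => L + 4 * L * C0)
      (fun n => ((grad_cont (hφsm n)).sub (grad_cont hg)).aestronglyMeasurable)
      (memLp_const _) (fun n => ?_) ?_
    · refine (ae_restrict_iff' hms).2 (Eventually.of_forall fun x hx => ?_)
      have hx1 : ‖x‖ < 1 := by simpa using hx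
      have h1 := hL x (Metric.ball_subset_closedBall hx)
      have h2 := hη01 n x
      rw [hφg]
      have e : η n x • gradient g x
          + g x • ((deriv st (N n * (1 - ‖x‖ ^ 2) - 1) * (N n * (-2))) • x) - gradient g x
          = (η n x - 1) • gradient g x
          + g x • ((deriv st (N n * (1 - ‖x‖ ^ 2) - 1) * (N n * (-2))) • x) := by
        rw [sub_smul, one_smul]
        abel
      rw [e]
      refine (norm_add_le _ _).trans (add_le_add ?_ ?_)
      · rw [norm_smul]
        have h3 : ‖η n x - 1‖ ≤ 1 := by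
          rw [Real.norm_eq_abs, abs_le]
          constructor <;> linarith [h2.1, h2.2]
        calc _ ≤ 1 * ‖gradient g x‖ := by gcongr
          _ ≤ L := by rw [one_mul]; exact h1
      · set t := N n * (1 - ‖x‖ ^ 2) - 1 with ht
        by_cases htI : t ∈ Icc (0 : ℝ) 1
        · have hN3 : 3 ≤ N n := by simp only [hN]; have : (0 : ℝ) ≤ n := by positivity
                                   linarith
          have hx0 : x ≠ 0 := by
            rintro rfl
            have := htI.2
            rw [ht, norm_zero] at this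
            nlinarith
          have h3 := hgb x hx1.le hx0
          have h4 := hC0 t htI
          have h5 : N n * (1 - ‖x‖ ^ 2) ≤ 2 := by
            have := htI.2
            rw [ht] at this
            linarith
          have h6 : 0 ≤ 1 - ‖x‖ ^ 2 := by nlinarith [norm_nonneg x]
          rw [norm_smul, norm_smul, norm_mul, norm_mul, Real.norm_of_nonneg (hNpos n).le,
            Real.norm_eq_abs (g x)]
          have e2 : ‖(-2 : ℝ)‖ = 2 := by norm_num
          rw [e2]
          calc |g x| * (‖deriv st t‖ * (N n * 2) * ‖x‖)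
              ≤ (L * (1 - ‖x‖ ^ 2)) * (C0 * (N n * 2) * 1) := by
                have := hNpos n
                gcongr
            _ = 2 * L * C0 * (N n * (1 - ‖x‖ ^ 2)) := by ring
            _ ≤ 2 * L * C0 * 2 := by gcongr
            _ = _ := by ring
        · have h3 : deriv st t = 0 := by
            rcases lt_or_ge t 0 with h | h
            · exact hd0 t h
            · refine hd1 t ?_
              by_contra hcon
              exact htI ⟨h, not_lt.1 hcon⟩
          rw [h3]
          simp only [zero_mul, zero_smul, smul_zero, norm_zero]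
          positivity
    · refine (ae_restrict_iff' hms).2 (Eventually.of_forall fun x hx => ?_)
      refine tendsto_const_nhds.congr' ?_
      filter_upwards [hlim x hx] with n hn
      have h1 : η n x = 1 := Real.smoothTransition.one_of_one_le hn.le
      rw [hφg, h1, hd1 _ hn]
      simp

end Pool.Agent.V1181
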