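import Mathlib
import Pool.Agent.V1181.H10
import Pool.Agent.V1181.Lap

/-!
# Dirichlet problems with quadratic growth in the gradient on the unit disc
-/

set_option autoImplicit false

namespace Pool.Agent.V1181

open Real Set Filter MeasureTheory Topology InnerProductSpace Laplacian
open scoped ENNReal

/-- The plane. -/
abbrev Plane := EuclideanSpace ℝ (Fin 2)

/-- The unit disc. -/
def disc : Set Plane := Metric.ball 0 1

/-- Essentially bounded functions on the disc. -/
def BddAE (v : Plane → ℝ) : Prop := ∃ M : ℝ, ∀ᵐ x ∂volume.restrict disc, |v x| ≤ M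

/-- `u ∈ H¹₀ ∩ L^∞` with weak gradient `G` is a weak solution of
`-Δ u = lam c u + μ |∇ u|² + h` in the disc. -/
def IsSol (lam : ℝ) (c μ h u : Plane → ℝ) (G : Plane → Plane) : Prop :=
  IsH10 disc u G ∧ BddAE u ∧ ∀ (v : Plane → ℝ) (V : Plane → Plane), IsH10 disc v V → BddAE v →
    ∫ x in disc, inner ℝ (G x) (V x) = lam * (∫ x in disc, c x * u x * v x)
      + (∫ x in disc, μ x * ‖G x‖ ^ 2 * v x) + ∫ x in disc, h x * v x

theorem disc_bounded : Bornology.IsBounded disc := Metric.isBounded_ball

theorem disc_meas : MeasurableSet disc := measurableSet_ball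

instance disc_finite : IsFiniteMeasure ((volume : Measure Plane).restrict disc) := by
  refine ⟨?_⟩
  rw [Measure.restrict_apply_univ]
  exact disc_bounded.measure_lt_top

theorem integrable_cont_mul {f v : Plane → ℝ} (hf : Continuous f)
    (hv : MemLp v 2 (volume.restrict disc)) :
    Integrable (fun x => f x * v x) (volume.restrict disc) :=
  (memLp_of_continuous disc_bounded disc_meas hf).integrable_mul hv

/-- Classical solutions are weak solutions. -/
theorem isSol_of_classical {lam : ℝ} {c μ h u : Plane → ℝ} (hc : Continuous c)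
    (hμ : Continuous μ) (hh : Continuous h) (hu : ContDiff ℝ 2 u) (h0 : ∀ x, ‖x‖ = 1 → u x = 0)
    (hpde : ∀ x ∈ disc, -Δ u x = lam * (c x * u x) + μ x * ‖gradient u x‖ ^ 2 + h x) :
    IsSol lam c μ h u (gradient u) := by
  have hu1 : ContDiff ℝ 1 u := hu.of_le (by norm_num)
  have hgc := grad_cont hu1
  have huc := hu.continuous
  refine ⟨isH10_ball hu1 h0, ?_, ?_⟩
  · obtain ⟨M, hM⟩ := disc_bounded.isCompact_closure.exists_bound_of_continuousOn huc.continuousOn
    exact ⟨M, (ae_restrict_iff' disc_meas).2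
      (Eventually.of_forall fun x hx => hM x (subset_closure hx))⟩
  · intro v V hv _
    rw [hv.green disc_bounded disc_meas hu]
    have i1 := integrable_cont_mul (hc.mul huc) hv.memu
    have i2 := integrable_cont_mul (f := fun x => μ x * ‖gradient u x‖ ^ 2) (by fun_prop) hv.memu
    have i3 := integrable_cont_mul hh hv.memu
    have e1 : ∫ x in disc, Δ u x * v x = ∫ x in disc, -(lam * (c x * u x * v x)
        + μ x * ‖gradient u x‖ ^ 2 * v x + h x * v x) := by
      refine setIntegral_congr_fun disc_meas fun x hx => ?_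
      have := hpde x hx
      have h2 : Δ u x = -(lam * (c x * u x) + μ x * ‖gradient u x‖ ^ 2 + h x) := by linarith
      rw [h2]
      ring
    have e2 : ∫ x in disc, (lam * (c x * u x * v x) + μ x * ‖gradient u x‖ ^ 2 * v x + h x * v x)
        = (∫ x in disc, (lam * (c x * u x * v x) + μ x * ‖gradient u x‖ ^ 2 * v x))
          + ∫ x in disc, h x * v x := integral_add ((i1.const_mul lam).add i2) i3
    have e3 : ∫ x in disc, (lam * (c x * u x * v x) + μ x * ‖gradient u x‖ ^ 2 * v x)
        = (∫ x in disc, lam * (c x * u x * v x)) + ∫ x in disc, μ x * ‖gradient u x‖ ^ 2 * v x :=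
      integral_add (i1.const_mul lam) i2
    rw [e1, integral_neg, neg_neg, e2, e3, integral_const_mul]

/-- The Laplacian and the gradient of radial functions in the plane. -/
theorem radial_plane {F F' F'' : ℝ → ℝ} (hF2 : ContDiff ℝ 2 F)
    (hF : ∀ s, HasDerivAt F (F' s) s) (hF' : ∀ s, HasDerivAt F' (F'' s) s) (x : Plane) :
    Δ (fun y : Plane => F (‖y‖ ^ 2)) x = 4 * ‖x‖ ^ 2 * F'' (‖x‖ ^ 2) + 4 * F' (‖x‖ ^ 2) ∧
    ‖gradient (fun y : Plane => F (‖y‖ ^ 2)) x‖ ^ 2 = 4 * ‖x‖ ^ 2 * F' (‖x‖ ^ 2) ^ 2 := by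
  constructor
  · rw [lap_radial (F' := F') (F'' := F'' (‖x‖ ^ 2)) hF2.contDiffAt
      (Eventually.of_forall hF) (hF' _)]
    simp only [finrank_euclideanSpace, Fintype.card_fin]
    norm_num
  · rw [grad_radial (hF _), norm_smul, mul_pow, Real.norm_eq_abs, sq_abs]
    ring

end Pool.Agent.V1181
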