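import Mathlib
import Pool.Agent.V1181.QuadGrad

/-!
# Chain rule and products in `H¹₀`
-/

set_option autoImplicit false
set_option linter.unusedSectionVars false

namespace Pool.Agent.V1181

open Real Set Filter MeasureTheory Topology InnerProductSpace Laplacian
open scoped ENNReal

variable {E : Type*} [NormedAddCommGroup E] [InnerProductSpace ℝ E] [FiniteDimensional ℝ E]
  [MeasurableSpace E] [BorelSpace E]

theorem eLp_le_mul {F F' : Type*} [NormedAddCommGroup F] [NormedAddCommGroup F'] {μ : Measure E}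
    {f : E → F} {g : E → F'} {L : ℝ} (h : ∀ᵐ x ∂μ, ‖f x‖ ≤ L * ‖g x‖) :
    eLpNorm f 2 μ ≤ ENNReal.ofReal L * eLpNorm g 2 μ :=
  eLpNorm_le_mul_eLpNorm_of_ae_le_mul h 2

theorem tendsto_mul_zero {f : ℕ → ℝ≥0∞} (h : Tendsto f atTop (𝓝 0)) (L : ℝ) :
    Tendsto (fun n => ENNReal.ofReal L * f n) atTop (𝓝 0) := by
  have := ENNReal.Tendsto.const_mul (a := ENNReal.ofReal L) h (Or.inr ENNReal.ofReal_ne_top)
  rwa [mul_zero] at this

theorem squeeze_zero_ennreal {f g : ℕ → ℝ≥0∞} (h : Tendsto g atTop (𝓝 0)) (hle : ∀ n, f n ≤ g n) :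
    Tendsto f atTop (𝓝 0) :=
  tendsto_of_tendsto_of_tendsto_of_le_of_le tendsto_const_nhds h (fun _ => zero_le) hle

theorem IsH10.add {Ω : Set E} {u v : E → ℝ} {G H : E → E} (hu : IsH10 Ω u G) (hv : IsH10 Ω v H) :
    IsH10 Ω (fun x => u x + v x) (fun x => G x + H x) := by
  obtain ⟨φ, hφ, h1, h2⟩ := hu.approx
  obtain ⟨ψ, hψ, h3, h4⟩ := hv.approx
  refine ⟨hu.memu.add hv.memu, hu.memG.add hv.memG, fun n x => φ n x + ψ n x, ?_, ?_, ?_⟩
  · intro n
    refine ⟨(hφ n).1.add (hψ n).1, (hφ n).2.1.add (hψ n).2.1, ?_⟩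
    exact (tsupport_add (φ n) (ψ n)).trans (union_subset (hφ n).2.2 (hψ n).2.2)
  · have h := h1.add h3
    rw [add_zero] at h
    refine squeeze_zero_ennreal h fun n => ?_
    have e : (fun x => φ n x + ψ n x - (u x + v x))
        = (fun x => φ n x - u x) + fun x => ψ n x - v x := by
      funext x
      simp only [Pi.add_apply]
      ring
    rw [e]
    exact eLpNorm_add_le ((hφ n).memLp.sub hu.memu).1 ((hψ n).memLp.sub hv.memu).1 (by norm_num)
  · have h := h2.add h4
    rw [add_zero] at h
    refine squeeze_zero_ennreal h fun n => ?_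
    have e : (fun x => gradient (fun x => φ n x + ψ n x) x - (G x + H x))
        = (fun x => gradient (φ n) x - G x) + fun x => gradient (ψ n) x - H x := by
      funext x
      have g1 : HasGradientAt (φ n) (gradient (φ n) x) x :=
        ((hφ n).1.differentiable (by norm_num) x).hasGradientAt
      have g2 : HasGradientAt (ψ n) (gradient (ψ n) x) x :=
        ((hψ n).1.differentiable (by norm_num) x).hasGradientAt
      rw [(hasGrad_add g1 g2).gradient]
      simp only [Pi.add_apply]
      abel
    rw [e]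
    exact eLpNorm_add_le ((hφ n).grad_memLp.sub hu.memG).1 ((hψ n).grad_memLp.sub hv.memG).1
      (by norm_num)

theorem IsH10.congr {Ω : Set E} {v v' : E → ℝ} {G G' : E → E} (h : IsH10 Ω v G)
    (hv : v =ᵐ[volume.restrict Ω] v') (hG : G =ᵐ[volume.restrict Ω] G') : IsH10 Ω v' G' where
  memu := (memLp_congr_ae hv).1 h.memu
  memG := (memLp_congr_ae hG).1 h.memG
  approx := by
    obtain ⟨φ, hφ, h1, h2⟩ := h.approx
    refine ⟨φ, hφ, h1.congr fun n => eLpNorm_congr_ae ?_, h2.congr fun n => eLpNorm_congr_ae ?_⟩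
    · filter_upwards [hv] with x hx
      rw [hx]
    · filter_upwards [hG] with x hx
      rw [hx]

/-- The chain rule. -/
theorem IsH10.comp {Ω : Set E} {u : E → ℝ} {G : E → E} (h : IsH10 Ω u G) {Φ Φ' : ℝ → ℝ}
    (hΦ : ∀ t, HasDerivAt Φ (Φ' t) t) (hc : Continuous Φ') (h0 : Φ 0 = 0) {L : ℝ}
    (hL : ∀ t, |Φ' t| ≤ L) :
    IsH10 Ω (fun x => Φ (u x)) (fun x => Φ' (u x) • G x) := by
  have hL0 : 0 ≤ L := (abs_nonneg _).trans (hL 0)
  have hΦc : Continuous Φ := continuous_iff_continuousAt.2 fun t => (hΦ t).continuousAt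
  have hd : deriv Φ = Φ' := funext fun t => (hΦ t).deriv
  have hΦ1 : ContDiff ℝ 1 Φ := contDiff_one_iff_deriv.2
    ⟨fun t => (hΦ t).differentiableAt, by rw [hd]; exact hc⟩
  have hlip : ∀ a b, |Φ a - Φ b| ≤ L * |a - b| := by
    intro a b
    have := Convex.norm_image_sub_le_of_norm_hasDerivWithin_le (f := Φ) (f' := Φ') (C := L)
      (s := univ) (x := b) (y := a) (fun t _ => (hΦ t).hasDerivWithinAt)
      (fun t _ => by rw [Real.norm_eq_abs]; exact hL t) convex_univ (mem_univ _) (mem_univ _)
    simpa only [Real.norm_eq_abs] using this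
  have mu : MemLp (fun x => Φ (u x)) 2 (volume.restrict Ω) := by
    refine h.memu.of_le_mul (c := L) (hΦc.comp_aestronglyMeasurable h.memu.1)
      (Eventually.of_forall fun x => ?_)
    have := hlip (u x) 0
    rw [h0, sub_zero, sub_zero] at this
    exact this
  have mG : MemLp (fun x => Φ' (u x) • G x) 2 (volume.restrict Ω) := by
    refine h.memG.of_le_mul (c := L) ((hc.comp_aestronglyMeasurable h.memu.1).smul h.memG.1)
      (Eventually.of_forall fun x => ?_)
    rw [norm_smul, Real.norm_eq_abs]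
    have := hL (u x)
    gcongr
  obtain ⟨φ, hφ, h1, h2⟩ := h.approx
  obtain ⟨ns, hns, hae⟩ := (tendstoInMeasure_of_tendsto_eLpNorm (f := φ) (g := u) (by norm_num)
    (fun n => (hφ n).memLp.1) h.memu.1 h1).exists_seq_tendsto_ae
  have hsub := hns.tendsto_atTop
  have hz : ∀ n x, Φ (φ n x) ≠ 0 → φ n x ≠ 0 := fun n x hx h' => hx (by rw [h', h0])
  have hg : ∀ n x, gradient (fun x => Φ (φ n x)) x = Φ' (φ n x) • gradient (φ n) x := by
    intro n x
    have g1 : HasGradientAt (φ n) (gradient (φ n) x) x :=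
      ((hφ n).1.differentiable (by norm_num) x).hasGradientAt
    exact (hasGrad_comp (hΦ _) g1).gradient
  refine ⟨mu, mG, fun k x => Φ (φ (ns k) x), fun k => ⟨hΦ1.comp (hφ _).1, ?_, ?_⟩, ?_, ?_⟩
  · exact (hφ (ns k)).2.1.mono fun x hx => hz _ x hx
  · exact (closure_mono fun x hx => hz _ x hx).trans (hφ (ns k)).2.2
  · refine squeeze_zero_ennreal (tendsto_mul_zero (h1.comp hsub) L) fun k => ?_
    exact eLp_le_mul (Eventually.of_forall fun x => hlip _ _)
  · have a1 := tendsto_mul_zero (h2.comp hsub) L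
    have a2 : Tendsto (fun k => eLpNorm (fun x => (Φ' (φ (ns k) x) - Φ' (u x)) • G x) 2
        (volume.restrict Ω)) atTop (𝓝 0) := by
      refine eLpNorm_tendsto_zero (g := fun x => 2 * L * ‖G x‖) (fun k => ?_)
        (h.memG.norm.const_mul (2 * L)) (fun k => Eventually.of_forall fun x => ?_) ?_
      · exact ((hc.comp_aestronglyMeasurable (hφ _).memLp.1).sub
          (hc.comp_aestronglyMeasurable h.memu.1)).smul h.memG.1
      · rw [norm_smul, Real.norm_eq_abs]
        have b1 := hL (φ (ns k) x)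
        have b2 := hL (u x)
        have b3 : |Φ' (φ (ns k) x) - Φ' (u x)| ≤ 2 * L := by
          refine (abs_sub _ _).trans ?_
          linarith
        gcongr
      · filter_upwards [hae] with x hx
        have b1 : Tendsto (fun k => Φ' (φ (ns k) x) - Φ' (u x)) atTop (𝓝 0) := by
          have := ((hc.tendsto _).comp hx).sub_const (Φ' (u x))
          rwa [sub_self] at this
        have b2 := b1.smul_const (G x)
        rwa [zero_smul] at b2
    have a3 := a1.add a2
    rw [add_zero] at a3
    refine squeeze_zero_ennreal a3 fun k => ?_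
    have e : (fun x => gradient (fun x => Φ (φ (ns k) x)) x - Φ' (u x) • G x)
        = (fun x => Φ' (φ (ns k) x) • (gradient (φ (ns k)) x - G x))
          + fun x => (Φ' (φ (ns k) x) - Φ' (u x)) • G x := by
      funext x
      rw [hg]
      simp only [Pi.add_apply, sub_smul, smul_sub]
      abel
    rw [e]
    refine (eLpNorm_add_le ?_ ?_ (by norm_num)).trans (add_le_add ?_ le_rfl)
    · exact (hc.comp_aestronglyMeasurable (hφ _).memLp.1).smul ((hφ _).grad_memLp.sub h.memG).1
    · exact ((hc.comp_aestronglyMeasurable (hφ _).memLp.1).sub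
          (hc.comp_aestronglyMeasurable h.memu.1)).smul h.memG.1
    · refine eLp_le_mul (Eventually.of_forall fun x => ?_)
      rw [norm_smul, Real.norm_eq_abs]
      have := hL (φ (ns k) x)
      gcongr

/-- Products with `C¹` functions. -/
theorem IsH10.mul_smooth {Ω : Set E} (hΩ : Bornology.IsBounded Ω) (hm : MeasurableSet Ω)
    {u : E → ℝ} {G : E → E} (h : IsH10 Ω u G) {g : E → ℝ} (hg : ContDiff ℝ 1 g) :
    IsH10 Ω (fun x => u x * g x) (fun x => u x • gradient g x + g x • G x) := by
  obtain ⟨C1, hC1⟩ := hΩ.isCompact_closure.exists_bound_of_continuousOn hg.continuous.continuousOn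
  obtain ⟨C2, hC2⟩ := hΩ.isCompact_closure.exists_bound_of_continuousOn (grad_cont hg).continuousOn
  have m1 : ∀ {w : E → ℝ}, MemLp w 2 (volume.restrict Ω) →
      MemLp (fun x => w x * g x) 2 (volume.restrict Ω) := by
    intro w hw
    refine hw.of_le_mul (c := C1) (hw.1.mul hg.continuous.aestronglyMeasurable) ?_
    refine (ae_restrict_iff' hm).2 (Eventually.of_forall fun x hx => ?_)
    rw [norm_mul, mul_comm]
    have := hC1 x (subset_closure hx)
    gcongr
  have m2 : ∀ {w : E → ℝ}, MemLp w 2 (volume.restrict Ω) →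
      MemLp (fun x => w x • gradient g x) 2 (volume.restrict Ω) := by
    intro w hw
    refine hw.of_le_mul (c := C2) (hw.1.smul (grad_cont hg).aestronglyMeasurable) ?_
    refine (ae_restrict_iff' hm).2 (Eventually.of_forall fun x hx => ?_)
    rw [norm_smul, mul_comm]
    have := hC2 x (subset_closure hx)
    gcongr
  have m3 : ∀ {W : E → E}, MemLp W 2 (volume.restrict Ω) →
      MemLp (fun x => g x • W x) 2 (volume.restrict Ω) := by
    intro w hw
    refine hw.of_le_mul (c := C1) (hg.continuous.aestronglyMeasurable.smul hw.1) ?_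
    refine (ae_restrict_iff' hm).2 (Eventually.of_forall fun x hx => ?_)
    rw [norm_smul]
    have := hC1 x (subset_closure hx)
    gcongr
  obtain ⟨φ, hφ, h1, h2⟩ := h.approx
  have hz : ∀ n x, φ n x * g x ≠ 0 → φ n x ≠ 0 := fun n x hx h' => hx (by rw [h', zero_mul])
  refine ⟨m1 h.memu, (m2 h.memu).add (m3 h.memG), fun n x => φ n x * g x,
    fun n => ⟨(hφ n).1.mul hg, ?_, ?_⟩, ?_, ?_⟩
  · exact (hφ n).2.1.mono fun x hx => hz _ x hx
  · exact (closure_mono fun x hx => hz _ x hx).trans (hφ n).2.2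
  · refine squeeze_zero_ennreal (tendsto_mul_zero h1 C1) fun n => ?_
    refine eLp_le_mul ((ae_restrict_iff' hm).2 (Eventually.of_forall fun x hx => ?_))
    rw [← sub_mul, norm_mul, mul_comm]
    have := hC1 x (subset_closure hx)
    gcongr
  · have a := (tendsto_mul_zero h1 C2).add (tendsto_mul_zero h2 C1)
    rw [add_zero] at a
    refine squeeze_zero_ennreal a fun n => ?_
    have e : (fun x => gradient (fun x => φ n x * g x) x - (u x • gradient g x + g x • G x))
        = (fun x => (φ n x - u x) • gradient g x) + fun x => g x • (gradient (φ n) x - G x) := by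
      funext x
      have g1 : HasGradientAt (φ n) (gradient (φ n) x) x :=
        ((hφ n).1.differentiable (by norm_num) x).hasGradientAt
      have g2 : HasGradientAt g (gradient g x) x :=
        (hg.differentiable (by norm_num) x).hasGradientAt
      rw [(hasGrad_mul g1 g2).gradient]
      simp only [Pi.add_apply, sub_smul, smul_sub]
      abel
    rw [e]
    refine (eLpNorm_add_le ?_ ?_ (by norm_num)).trans (add_le_add ?_ ?_)
    · exact (m2 ((hφ n).memLp.sub h.memu)).1
    · exact (m3 ((hφ n).grad_memLp.sub h.memG)).1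
    · refine eLp_le_mul ((ae_restrict_iff' hm).2 (Eventually.of_forall fun x hx => ?_))
      rw [norm_smul, mul_comm]
      have := hC2 x (subset_closure hx)
      gcongr
    · refine eLp_le_mul ((ae_restrict_iff' hm).2 (Eventually.of_forall fun x hx => ?_))
      rw [norm_smul]
      have := hC1 x (subset_closure hx)
      gcongr

end Pool.Agent.V1181
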