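import Mathlib
import Pool.Agent.V1181.H10Chain

/-!
# Eigenfunctions are bounded by multiples of the distance to the boundary
-/

set_option autoImplicit false

namespace Pool.Agent.V1181

open Real Set Filter MeasureTheory Topology InnerProductSpace Laplacian
open scoped ENNReal

theorem integrable_inner' {E F : Type*} [MeasurableSpace E] {μ : Measure E}
    [NormedAddCommGroup F] [InnerProductSpace ℝ F] {f g : E → F} (hf : MemLp f 2 μ)
    (hg : MemLp g 2 μ) : Integrable (fun x => inner ℝ (f x) (g x)) μ := by
  have := L2.integrable_inner (𝕜 := ℝ) (hf.toLp f) (hg.toLp g)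
  refine (integrable_congr ?_).1 this
  filter_upwards [hf.coeFn_toLp, hg.coeFn_toLp] with x h1 h2
  rw [h1, h2]

/-- `φ ∈ H¹₀` with gradient `P` solves `-Δ φ = γ c φ` weakly in the disc. -/
def IsEig (c : Plane → ℝ) (γ : ℝ) (φ : Plane → ℝ) (P : Plane → Plane) : Prop :=
  IsH10 disc φ P ∧ ∀ (v : Plane → ℝ) (V : Plane → Plane), IsH10 disc v V →
    ∫ x in disc, inner ℝ (P x) (V x) = γ * ∫ x in disc, c x * φ x * v x

/-- A `C¹` version of the positive part. -/
noncomputable def pcut (t : ℝ) : ℝ := ∫ τ in (0 : ℝ)..t, min (max τ 0) 1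

theorem pcut_deriv (t : ℝ) : HasDerivAt pcut (min (max t 0) 1) t := by
  have hc : Continuous fun τ : ℝ => min (max τ 0) 1 := by fun_prop
  exact intervalIntegral.integral_hasDerivAt_right (hc.intervalIntegrable 0 t)
    (hc.stronglyMeasurableAtFilter _ _) hc.continuousAt

theorem pcut_zero : pcut 0 = 0 := by simp [pcut]

theorem pcut_pos {t : ℝ} (h : 0 < t) : 0 < pcut t := by
  have hc : Continuous fun τ : ℝ => min (max τ 0) 1 := by fun_prop
  refine intervalIntegral.integral_pos h hc.continuousOn (fun x hx => ?_) ⟨t, ⟨h.le, le_rfl⟩, ?_⟩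
  · positivity
  · exact lt_min (lt_max_of_lt_left h) one_pos

theorem pcut_nonneg (t : ℝ) : 0 ≤ pcut t := by
  rcases le_or_gt t 0 with h | h
  · have : pcut t = 0 := by
      unfold pcut
      rw [intervalIntegral.integral_symm, neg_eq_zero]
      refine intervalIntegral.integral_zero_ae (Eventually.of_forall fun τ hτ => ?_)
      rw [uIoc_of_le h] at hτ
      rw [max_eq_right hτ.2, min_eq_left zero_le_one]
    rw [this]
  · exact (pcut_pos h).le

theorem IsEig.bound {c : Plane → ℝ} {γ : ℝ} {φ : Plane → ℝ} {P : Plane → Plane}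
    (hc : Continuous c) (h : IsEig c γ φ P) (hφ : ContinuousOn φ (closure disc)) :
    ∃ K > 0, ∀ x ∈ closure disc, φ x ≤ K * (1 - ‖x‖ ^ 2) := by
  obtain ⟨hH, heq⟩ := h
  have hcont : ContinuousOn (fun x => γ * (c x * φ x)) (closure disc) :=
    continuousOn_const.mul (hc.continuousOn.mul hφ)
  obtain ⟨M, hM⟩ := disc_bounded.isCompact_closure.exists_bound_of_continuousOn hcont
  have hM0 : 0 ≤ M := (norm_nonneg _).trans (hM 0 (subset_closure (by simp [disc])))
  set K := M + 1 with hK
  have hK0 : 0 < K := by positivity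
  refine ⟨K, hK0, ?_⟩
  -- the barrier
  set b : Plane → ℝ := fun x => K * (‖x‖ ^ 2 - 1) with hb
  have hb2 : ContDiff ℝ 2 b := contDiff_const.mul ((contDiff_norm_sq ℝ).sub contDiff_const)
  have hb1 : ContDiff ℝ 1 b := hb2.of_le (by norm_num)
  have hb0 : ∀ x, ‖x‖ = 1 → b x = 0 := fun x hx => by simp only [hb]; rw [hx]; ring
  have hlap : ∀ x, Δ b x = 4 * K := by
    intro x
    have hd : ∀ s : ℝ, HasDerivAt (fun s : ℝ => K * (s - 1)) K s := fun s => by
      have := ((hasDerivAt_id s).sub_const 1).const_mul K
      rw [mul_one] at this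
      exact this
    have := (radial_plane (F := fun s => K * (s - 1)) (F' := fun _ => K) (F'' := fun _ => 0)
      (contDiff_const.mul (contDiff_id.sub contDiff_const)) hd
      (fun s => hasDerivAt_const s K) x).1
    rw [hb, this]
    ring
  have hw := hH.add (isH10_ball hb1 hb0)
  have hv := hw.comp (L := 1) pcut_deriv (by fun_prop) pcut_zero (fun t => by
    rw [abs_of_nonneg (by positivity)]
    exact min_le_right _ _)
  set w : Plane → ℝ := fun x => φ x + b x with hwdef
  set V : Plane → Plane := fun x => min (max (w x) 0) 1 • (P x + gradient b x) with hV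
  have hv' : IsH10 disc (fun x => pcut (w x)) V := hv
  have h1 := heq _ _ hv'
  have h2 := hv'.green disc_bounded disc_meas hb2
  have m1 : MemLp (gradient b) 2 (volume.restrict disc) := grad_memLp disc_bounded disc_meas hb1
  have h3 : ∫ x in disc, (inner ℝ (P x) (V x) + inner ℝ (gradient b x) (V x))
      = (∫ x in disc, inner ℝ (P x) (V x)) + ∫ x in disc, inner ℝ (gradient b x) (V x) :=
    integral_add (integrable_inner' hH.memG hv'.memG) (integrable_inner' m1 hv'.memG)
  have h4 : 0 ≤ ∫ x in disc, (inner ℝ (P x) (V x) + inner ℝ (gradient b x) (V x)) := by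
    refine integral_nonneg fun x => ?_
    show 0 ≤ inner ℝ (P x) (V x) + inner ℝ (gradient b x) (V x)
    rw [← inner_add_left, hV]
    simp only
    rw [inner_smul_right]
    have : 0 ≤ inner ℝ (P x + gradient b x) (P x + gradient b x) := real_inner_self_nonneg
    positivity
  have mφ : MemLp (fun x => c x * φ x) 2 (volume.restrict disc) := by
    obtain ⟨C, hC⟩ := disc_bounded.isCompact_closure.exists_bound_of_continuousOn hc.continuousOn
    refine hH.memu.of_le_mul (c := C) (hc.aestronglyMeasurable.mul hH.memu.1)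
      ((ae_restrict_iff' disc_meas).2 (Eventually.of_forall fun x hx => ?_))
    rw [norm_mul]
    have := hC x (subset_closure hx)
    gcongr
  have i1 : Integrable (fun x => c x * φ x * pcut (w x)) (volume.restrict disc) :=
    mφ.integrable_mul hv'.memu
  have i2 : Integrable (fun x => pcut (w x)) (volume.restrict disc) :=
    hv'.memu.integrable (by norm_num)
  have h5 : ∫ x in disc, (4 * K - γ * (c x * φ x)) * pcut (w x) ≤ 0 := by
    have e1 : ∫ x in disc, (4 * K * pcut (w x) - γ * (c x * φ x * pcut (w x)))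
        = (∫ x in disc, 4 * K * pcut (w x)) - ∫ x in disc, γ * (c x * φ x * pcut (w x)) :=
      integral_sub (i2.const_mul _) (i1.const_mul _)
    rw [integral_const_mul, integral_const_mul] at e1
    have e2 : ∫ x in disc, (4 * K - γ * (c x * φ x)) * pcut (w x)
        = ∫ x in disc, (4 * K * pcut (w x) - γ * (c x * φ x * pcut (w x))) := by
      refine integral_congr_ae (Eventually.of_forall fun x => ?_)
      show (4 * K - γ * (c x * φ x)) * pcut (w x)
        = 4 * K * pcut (w x) - γ * (c x * φ x * pcut (w x))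
      ring
    have e3 : ∫ x in disc, Δ b x * pcut (w x) = 4 * K * ∫ x in disc, pcut (w x) := by
      simp only [hlap]
      exact integral_const_mul _ _
    rw [e3] at h2
    rw [e2, e1]
    linarith
  have hpos : ∀ x ∈ disc, 0 < 4 * K - γ * (c x * φ x) := by
    intro x hx
    have h6 := hM x (subset_closure hx)
    rw [Real.norm_eq_abs] at h6
    have h7 := le_abs_self (γ * (c x * φ x))
    linarith
  have h6 : 0 ≤ᵐ[volume.restrict disc] fun x => (4 * K - γ * (c x * φ x)) * pcut (w x) :=
    (ae_restrict_iff' disc_meas).2 (Eventually.of_forall fun x hx =>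
      mul_nonneg (hpos x hx).le (pcut_nonneg _))
  have i3 : Integrable (fun x => (4 * K - γ * (c x * φ x)) * pcut (w x))
      (volume.restrict disc) := by
    refine ((i2.const_mul (4 * K)).sub (i1.const_mul γ)).congr (Eventually.of_forall fun x => ?_)
    show 4 * K * pcut (w x) - γ * (c x * φ x * pcut (w x))
      = (4 * K - γ * (c x * φ x)) * pcut (w x)
    ring
  have h7 := (integral_eq_zero_iff_of_nonneg_ae h6 i3).1
    (le_antisymm h5 (integral_nonneg_of_ae h6))
  have h8 : (fun x => max (w x) 0) =ᵐ[volume.restrict disc] fun _ => 0 := by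
    rw [Filter.EventuallyEq, ae_restrict_iff' disc_meas] at h7 ⊢
    filter_upwards [h7] with x hx hxd
    have h9 : (4 * K - γ * (c x * φ x)) * pcut (w x) = 0 := hx hxd
    rcases mul_eq_zero.1 h9 with h10 | h10
    · exact absurd h10 (hpos x hxd).ne'
    · refine max_eq_right ?_
      by_contra hcon
      exact (pcut_pos (not_le.1 hcon)).ne' h10
  have hopen : IsOpen disc := Metric.isOpen_ball
  have hwc : ContinuousOn w (closure disc) := hφ.add hb2.continuous.continuousOn
  have h9 := Measure.eqOn_open_of_ae_eq h8 hopen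
    (ContinuousOn.sup (hwc.mono subset_closure) continuousOn_const) continuousOn_const
  have h10 : ∀ x ∈ disc, w x ≤ 0 := fun x hx => by
    have := h9 hx
    exact max_eq_right_iff.1 this
  intro x hx
  have h11 : w x ≤ 0 := ContinuousWithinAt.closure_le hx
    ((hwc x hx).mono subset_closure) continuousWithinAt_const h10
  have h12 : φ x + K * (‖x‖ ^ 2 - 1) ≤ 0 := h11
  linarith

/-- `u ≪ 0`: for every positive (hence every first) eigenfunction `φ`, continuous on the closed
disc, `-u ≥ ε φ` on the closed disc for some `ε > 0`. -/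
def MuchBelow (c u : Plane → ℝ) : Prop :=
  ∀ (γ : ℝ) (φ : Plane → ℝ) (P : Plane → Plane), IsEig c γ φ P → ContinuousOn φ (closure disc) →
    (∀ x ∈ disc, 0 < φ x) → ∃ ε > 0, ∀ x ∈ closure disc, ε * φ x ≤ -u x

end Pool.Agent.V1181
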