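import Mathlib
import Pool.Agent.V1181.H10Chain

/-!
# The Hopf-Cole identity
-/

set_option autoImplicit false

namespace Pool.Agent.V1181

open Real Set Filter MeasureTheory Topology InnerProductSpace Laplacian
open scoped ENNReal

/-- A `C¹` function with bounded derivative equal to `exp t - 1` for `t ≤ M`. -/
noncomputable def expCut (M t : ℝ) : ℝ := ∫ τ in (0 : ℝ)..t, exp (min τ M)

theorem expCut_deriv (M t : ℝ) : HasDerivAt (expCut M) (exp (min t M)) t := by
  have hc : Continuous fun τ : ℝ => exp (min τ M) := by fun_prop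
  exact intervalIntegral.integral_hasDerivAt_right (hc.intervalIntegrable 0 t)
    (hc.stronglyMeasurableAtFilter _ _) hc.continuousAt

theorem expCut_zero (M : ℝ) : expCut M 0 = 0 := by simp [expCut]

theorem expCut_eq {M t : ℝ} (hM : 0 ≤ M) (h : t ≤ M) : expCut M t = exp t - 1 := by
  have h1 : expCut M t = ∫ τ in (0 : ℝ)..t, exp τ := by
    refine intervalIntegral.integral_congr fun τ hτ => ?_
    have h2 : τ ≤ M := by
      have := hτ.2
      rcases le_total 0 t with h3 | h3
      · rw [max_eq_right h3] at this
        linarith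
      · rw [max_eq_left h3] at this
        linarith
    show exp (min τ M) = exp τ
    rw [min_eq_left h2]
  rw [h1, integral_exp, exp_zero]

/-- Testing with `exp u * g`. -/
theorem IsSol.hopf_cole {lam : ℝ} {c h u : Plane → ℝ} {G : Plane → Plane}
    (hc : Continuous c) (hh : Continuous h)
    (hs : IsSol lam c (fun _ => 1) h u G) {g : Plane → ℝ} (hg : ContDiff ℝ 2 g)
    (hg0 : ∀ x, ‖x‖ = 1 → g x = 0) :
    Integrable (fun x => (lam * (c x * u x) + h x) * (exp (u x) * g x)) (volume.restrict disc) ∧
    ∫ x in disc, -Δ g x * (exp (u x) - 1) =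
      ∫ x in disc, (lam * (c x * u x) + h x) * (exp (u x) * g x) := by
  obtain ⟨hu, ⟨M₀, hM₀⟩, hw⟩ := hs
  set M := max M₀ 0 with hMdef
  have hM : ∀ᵐ x ∂volume.restrict disc, |u x| ≤ M := by
    filter_upwards [hM₀] with x hx
    exact hx.trans (le_max_left _ _)
  have hM0 : 0 ≤ M := le_max_right _ _
  have hg1 : ContDiff ℝ 1 g := hg.of_le (by norm_num)
  have hcomp := hu.comp (L := exp M) (expCut_deriv M) (by fun_prop) (expCut_zero M) (fun t => by
    rw [abs_of_pos (exp_pos _), exp_le_exp]
    exact min_le_right _ _)
  have hprod := hcomp.mul_smooth disc_bounded disc_meas hg1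
  have hsum := hprod.add (isH10_ball hg1 hg0)
  have hv : (fun x => expCut M (u x) * g x + g x) =ᵐ[volume.restrict disc]
      fun x => exp (u x) * g x := by
    filter_upwards [hM] with x hx
    rw [expCut_eq hM0 ((le_abs_self _).trans hx)]
    ring
  have hV : (fun x => expCut M (u x) • gradient g x + g x • exp (min (u x) M) • G x
      + gradient g x) =ᵐ[volume.restrict disc]
      fun x => exp (u x) • gradient g x + (g x * exp (u x)) • G x := by
    filter_upwards [hM] with x hx
    have h1 : u x ≤ M := (le_abs_self _).trans hx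
    rw [expCut_eq hM0 h1, min_eq_left h1, sub_smul, one_smul, smul_smul]
    abel
  have htest := hsum.congr hv hV
  obtain ⟨Cg, hCg⟩ := disc_bounded.isCompact_closure.exists_bound_of_continuousOn
    hg.continuous.continuousOn
  have hCg0 : 0 ≤ Cg := (norm_nonneg _).trans (hCg 0 (subset_closure (by simp [disc])))
  have hbv : ∀ᵐ x ∂volume.restrict disc, |exp (u x) * g x| ≤ exp M * Cg := by
    have h2 : ∀ᵐ x ∂volume.restrict disc, ‖g x‖ ≤ Cg :=
      (ae_restrict_iff' disc_meas).2 (Eventually.of_forall fun x hx => hCg x (subset_closure hx))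
    filter_upwards [hM, h2] with x hx h3
    rw [abs_mul, abs_of_pos (exp_pos _)]
    have h4 : exp (u x) ≤ exp M := exp_le_exp.2 ((le_abs_self _).trans hx)
    rw [Real.norm_eq_abs] at h3
    gcongr
  have hkey := hw _ _ htest ⟨_, hbv⟩
  simp only [one_mul] at hkey
  -- integrability
  have hGsq : Integrable (fun x => ‖G x‖ ^ 2) (volume.restrict disc) :=
    hu.memG.norm.integrable_sq
  have mvG : MemLp (fun x => exp (u x) * g x) 2 (volume.restrict disc) := htest.memu
  have i3 : Integrable (fun x => ‖G x‖ ^ 2 * (exp (u x) * g x)) (volume.restrict disc) := by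
    refine Integrable.mono' (hGsq.mul_const (exp M * Cg)) (hGsq.1.mul mvG.1) ?_
    filter_upwards [hbv] with x hx
    rw [norm_mul, Real.norm_of_nonneg (sq_nonneg ‖G x‖), Real.norm_eq_abs]
    gcongr
  have mcu : MemLp (fun x => c x * u x) 2 (volume.restrict disc) := by
    obtain ⟨C, hC⟩ := disc_bounded.isCompact_closure.exists_bound_of_continuousOn hc.continuousOn
    refine hu.memu.of_le_mul (c := C) (hc.aestronglyMeasurable.mul hu.memu.1)
      ((ae_restrict_iff' disc_meas).2 (Eventually.of_forall fun x hx => ?_))
    rw [norm_mul]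
    have := hC x (subset_closure hx)
    gcongr
  have i1 : Integrable (fun x => c x * u x * (exp (u x) * g x)) (volume.restrict disc) :=
    mcu.integrable_mul mvG
  have i2 : Integrable (fun x => h x * (exp (u x) * g x)) (volume.restrict disc) :=
    integrable_cont_mul hh mvG
  have e1 : ∫ x in disc, (lam * (c x * u x) + h x) * (exp (u x) * g x)
      = lam * (∫ x in disc, c x * u x * (exp (u x) * g x))
        + ∫ x in disc, h x * (exp (u x) * g x) := by
    have e2 : ∫ x in disc, (lam * (c x * u x * (exp (u x) * g x)) + h x * (exp (u x) * g x))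
        = (∫ x in disc, lam * (c x * u x * (exp (u x) * g x)))
          + ∫ x in disc, h x * (exp (u x) * g x) := integral_add (i1.const_mul lam) i2
    rw [integral_const_mul] at e2
    rw [← e2]
    refine integral_congr_ae (Eventually.of_forall fun x => ?_)
    show (lam * (c x * u x) + h x) * (exp (u x) * g x)
      = lam * (c x * u x * (exp (u x) * g x)) + h x * (exp (u x) * g x)
    ring
  have mexp : MemLp (fun x => exp (u x) - 1) 2 (volume.restrict disc) := by
    refine (memLp_congr_ae ?_).1 hcomp.memu
    filter_upwards [hM] with x hx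
    exact expCut_eq hM0 ((le_abs_self _).trans hx)
  have mexpG : MemLp (fun x => exp (u x) • G x) 2 (volume.restrict disc) := by
    refine (memLp_congr_ae ?_).1 hcomp.memG
    filter_upwards [hM] with x hx
    rw [min_eq_left ((le_abs_self _).trans hx)]
  have i4 : Integrable (fun x => inner ℝ (gradient g x) (exp (u x) • G x))
      (volume.restrict disc) := by
    have := L2.integrable_inner (𝕜 := ℝ)
      ((grad_memLp disc_bounded disc_meas hg1).toLp (gradient g)) (mexpG.toLp _)
    refine (integrable_congr ?_).1 this
    filter_upwards [(grad_memLp disc_bounded disc_meas hg1).coeFn_toLp, mexpG.coeFn_toLp]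
      with x h1 h2
    rw [h1, h2]
  have e3 : ∫ x in disc, inner ℝ (G x) (exp (u x) • gradient g x + (g x * exp (u x)) • G x)
      = (∫ x in disc, inner ℝ (gradient g x) (exp (u x) • G x))
        + ∫ x in disc, ‖G x‖ ^ 2 * (exp (u x) * g x) := by
    have e4 : ∫ x in disc, (inner ℝ (gradient g x) (exp (u x) • G x)
        + ‖G x‖ ^ 2 * (exp (u x) * g x)) = _ := integral_add i4 i3
    rw [← e4]
    refine integral_congr_ae (Eventually.of_forall fun x => ?_)
    show inner ℝ (G x) (exp (u x) • gradient g x + (g x * exp (u x)) • G x)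
      = inner ℝ (gradient g x) (exp (u x) • G x) + ‖G x‖ ^ 2 * (exp (u x) * g x)
    rw [inner_add_right, inner_smul_right, inner_smul_right, inner_smul_right,
      real_inner_self_eq_norm_sq, real_inner_comm]
    ring
  have hgreen := hcomp.green disc_bounded disc_meas hg
  have e5 : ∫ x in disc, inner ℝ (gradient g x) (exp (min (u x) M) • G x)
      = ∫ x in disc, inner ℝ (gradient g x) (exp (u x) • G x) := by
    refine integral_congr_ae ?_
    filter_upwards [hM] with x hx
    rw [min_eq_left ((le_abs_self _).trans hx)]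
  have e6 : ∫ x in disc, Δ g x * expCut M (u x) = ∫ x in disc, Δ g x * (exp (u x) - 1) := by
    refine integral_congr_ae ?_
    filter_upwards [hM] with x hx
    rw [expCut_eq hM0 ((le_abs_self _).trans hx)]
  rw [e5, e6] at hgreen
  have e7 : ∫ x in disc, -Δ g x * (exp (u x) - 1) = -∫ x in disc, Δ g x * (exp (u x) - 1) := by
    rw [← integral_neg]
    refine integral_congr_ae (Eventually.of_forall fun x => ?_)
    show -Δ g x * (exp (u x) - 1) = -(Δ g x * (exp (u x) - 1))
    ring
  constructor
  · refine ((i1.const_mul lam).add i2).congr (Eventually.of_forall fun x => ?_)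
    show lam * (c x * u x * (exp (u x) * g x)) + h x * (exp (u x) * g x)
      = (lam * (c x * u x) + h x) * (exp (u x) * g x)
    ring
  · rw [e1, e7, ← hgreen]
    linarith

/-- The exponential of a solution is bounded. -/
theorem IsSol.exp_memLp {lam : ℝ} {c μ h u : Plane → ℝ} {G : Plane → Plane}
    (hs : IsSol lam c μ h u G) : MemLp (fun x => exp (u x)) 2 (volume.restrict disc) := by
  obtain ⟨hu, ⟨M, hM⟩, -⟩ := hs
  refine MemLp.of_bound (Real.continuous_exp.comp_aestronglyMeasurable hu.memu.1) (exp M) ?_
  filter_upwards [hM] with x hx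
  rw [Real.norm_of_nonneg (exp_pos _).le, exp_le_exp]
  exact (le_abs_self _).trans hx

end Pool.Agent.V1181
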