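import Mathlib

/-!
# Lengths, distances and diameter of a conformal metric on the plane

The plane is `ℂ` with its Euclidean structure, the metric is `exp (2 u) |dz|^2`.
-/

set_option autoImplicit false

namespace Pool.Agent.V1181

open Real Set Filter MeasureTheory Topology

/-- `γ` is piecewise `C^1` on `[0, 1]`: there is a finite subdivision `0 = t 0 ≤ ... ≤ t n = 1`
such that `γ` is `C^1` on each closed interval `[t i, t (i + 1)]`. -/
def PiecewiseC1 (γ : ℝ → ℂ) : Prop :=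
  ∃ (n : ℕ) (t : ℕ → ℝ), Monotone t ∧ t 0 = 0 ∧ t n = 1 ∧
    ∀ i < n, ContDiffOn ℝ 1 γ (Icc (t i) (t (i + 1)))

/-- Length of a curve for the metric `exp (2 u) |dz|^2`. -/
noncomputable def confLength (u : ℂ → ℝ) (γ : ℝ → ℂ) : ℝ :=
  ∫ t in (0 : ℝ)..1, exp (u (γ t)) * ‖deriv γ t‖

/-- Distance for the metric `exp (2 u) |dz|^2`: infimum of the lengths of piecewise `C^1` curves. -/
noncomputable def confDist (u : ℂ → ℝ) (x y : ℂ) : ENNReal :=
  ⨅ (γ : ℝ → ℂ) (_ : PiecewiseC1 γ ∧ γ 0 = x ∧ γ 1 = y), ENNReal.ofReal (confLength u γ)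

/-- Diameter of the plane for the metric `exp (2 u) |dz|^2`. -/
noncomputable def confDiam (u : ℂ → ℝ) : ENNReal :=
  ⨆ (x : ℂ) (y : ℂ), confDist u x y

theorem piece {u : ℂ → ℝ} (hu : Continuous u) {Ψ : ℂ → ℝ} (hΨ : Continuous Ψ) {C : ℝ}
    (hC : 0 ≤ C)
    (h : ∀ z, ∀ ε > 0, ∀ᶠ w in 𝓝 z, Ψ w - Ψ z ≤ (C * exp (u z) + ε) * ‖w - z‖)
    {γ : ℝ → ℂ} {a b : ℝ} (hab : a ≤ b) (hγ : ContDiffOn ℝ 1 γ (Icc a b)) :
    IntervalIntegrable (fun t => exp (u (γ t)) * ‖deriv γ t‖) volume a b ∧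
    Ψ (γ b) - Ψ (γ a) ≤ C * ∫ t in a..b, exp (u (γ t)) * ‖deriv γ t‖ := by
  rcases hab.eq_or_lt with rfl | hlt
  · simp
  set v := derivWithin γ (Icc a b) with hv
  have hvc : ContinuousOn v (Icc a b) :=
    hγ.continuousOn_derivWithin (uniqueDiffOn_Icc hlt) (by norm_num)
  have hγc : ContinuousOn γ (Icc a b) := hγ.continuousOn
  set g : ℝ → ℝ := fun t => exp (u (γ t)) * ‖v t‖ with hg
  have hgc : ContinuousOn g (Icc a b) :=
    (Real.continuous_exp.comp_continuousOn (hu.comp_continuousOn hγc)).mul hvc.norm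
  have heq : ∀ t ∈ Ioo a b, exp (u (γ t)) * ‖deriv γ t‖ = g t := by
    intro t ht
    have : deriv γ t = v t := by
      rw [hv]
      exact (derivWithin_of_mem_nhds (Icc_mem_nhds ht.1 ht.2)).symm
    rw [this]
  have hgi : IntervalIntegrable g volume a b := hgc.intervalIntegrable_of_Icc hab
  have hae : ∀ᵐ t ∂volume, t ∈ uIoc a b → g t = exp (u (γ t)) * ‖deriv γ t‖ := by
    have hb : ∀ᵐ t ∂(volume : Measure ℝ), t ≠ b := by
      rw [ae_iff]
      simp
    filter_upwards [hb] with t htb ht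
    rw [uIoc_of_le hab] at ht
    exact (heq t ⟨ht.1, lt_of_le_of_ne ht.2 htb⟩).symm
  have hint : IntervalIntegrable (fun t => exp (u (γ t)) * ‖deriv γ t‖) volume a b := by
    refine hgi.congr_ae ?_
    rw [Filter.EventuallyEq, ae_restrict_iff' measurableSet_uIoc]
    exact hae
  refine ⟨hint, ?_⟩
  have hI : ∫ t in a..b, exp (u (γ t)) * ‖deriv γ t‖ = ∫ t in a..b, g t := by
    refine (intervalIntegral.integral_congr_ae ?_).symm
    exact hae
  rw [hI]
  set G : ℝ → ℝ := IccExtend hab (fun t : Icc a b => g t) with hG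
  have hGc : Continuous G := by
    rw [hG]
    exact continuous_IccExtend_iff.2 (continuousOn_iff_continuous_domRestrict.1 hgc)
  have hGeq : ∀ t ∈ Icc a b, G t = g t := by
    intro t ht
    rw [hG, IccExtend_of_mem hab _ ht]
  have hGI : ∫ t in a..b, g t = ∫ t in a..b, G t := by
    refine intervalIntegral.integral_congr fun t ht => ?_
    rw [uIcc_of_le hab] at ht
    exact (hGeq t ht).symm
  rw [hGI]
  refine le_of_forall_pos_le_add fun ε hε => ?_
  set e := ε / (b - a) with he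
  have hba : 0 < b - a := sub_pos.2 hlt
  have hepos : 0 < e := div_pos hε hba
  set B : ℝ → ℝ := fun t => Ψ (γ a) + ∫ s in a..t, (C * G s + e) with hB
  have hBd : ∀ t, HasDerivAt B (C * G t + e) t := by
    intro t
    have hc : Continuous fun s => C * G s + e := by fun_prop
    have := intervalIntegral.integral_hasDerivAt_right (hc.intervalIntegrable a t)
      (hc.stronglyMeasurableAtFilter _ _) (hc.continuousAt (x := t))
    exact this.const_add _
  have key := image_le_of_liminf_slope_right_lt_deriv_boundary' (f := fun t => Ψ (γ t))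
    (f' := fun t => C * G t) (a := a) (b := b) (hΨ.comp_continuousOn hγc) ?_ (B := B)
    (B' := fun t => C * G t + e) (by simp [hB]) (fun t _ => (hBd t).continuousAt.continuousWithinAt)
    (fun t _ => (hBd t).hasDerivWithinAt) (fun t _ _ => by simpa using hepos)
  · have h1 := key (right_mem_Icc.2 hab)
    have h2 : B b = Ψ (γ a) + (C * (∫ t in a..b, G t) + ε) := by
      rw [hB]
      simp only
      rw [intervalIntegral.integral_add (hGc.intervalIntegrable a b |>.const_mul C)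
        (by simp), intervalIntegral.integral_const_mul, intervalIntegral.integral_const,
        smul_eq_mul, he]
      have : (b - a) * (ε / (b - a)) = ε := by field_simp
      rw [this]
    rw [h2] at h1
    linarith
  · intro t ht r hr
    have htI : t ∈ Icc a b := Ico_subset_Icc_self ht
    have hd : HasDerivWithinAt γ (v t) (Icc a b) t := by
      rw [hv]
      exact ((hγ.differentiableOn (by norm_num)) t htI).hasDerivWithinAt
    have hd2 : HasDerivWithinAt γ (v t) (Ioi t) t := by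
      refine hd.mono_of_mem_nhdsWithin ?_
      refine Filter.mem_of_superset (Ioc_mem_nhdsGT ht.2) ?_
      intro z hz
      exact ⟨ht.1.trans hz.1.le, hz.2⟩
    have hslope : Tendsto (slope γ t) (𝓝[>] t) (𝓝 (v t)) := by
      have := hasDerivWithinAt_iff_tendsto_slope.1 hd2
      simpa using this
    set δ := (r - C * G t) / (2 * (‖v t‖ + 1)) with hδ
    have hδpos : 0 < δ := div_pos (sub_pos.2 hr) (by positivity)
    have hlim : Tendsto (fun z => (C * exp (u (γ t)) + δ) * ‖slope γ t z‖) (𝓝[>] t)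
        (𝓝 ((C * exp (u (γ t)) + δ) * ‖v t‖)) := hslope.norm.const_mul _
    have hlt' : (C * exp (u (γ t)) + δ) * ‖v t‖ < r := by
      have h1 : C * exp (u (γ t)) * ‖v t‖ = C * G t := by
        rw [hGeq t htI, hg]
        ring
      have h2 : δ * ‖v t‖ ≤ (r - C * G t) / 2 := by
        rw [hδ, div_mul_eq_mul_div, div_le_div_iff₀ (by positivity) (by norm_num)]
        have : 0 ≤ (r - C * G t) := (sub_pos.2 hr).le
        nlinarith [norm_nonneg (v t)]
      rw [add_mul, h1]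
      linarith
    have hcont : Tendsto γ (𝓝[>] t) (𝓝 (γ t)) := hd2.continuousWithinAt
    have hev := hcont.eventually (h (γ t) δ hδpos)
    refine Filter.Eventually.frequently ?_
    filter_upwards [hev, hlim.eventually (gt_mem_nhds hlt'), self_mem_nhdsWithin] with z hz1 hz2 hz3
    have hzt : 0 < z - t := sub_pos.2 hz3
    refine lt_of_le_of_lt ?_ hz2
    rw [slope_def_field, slope_def_module, norm_smul, norm_inv, Real.norm_of_nonneg hzt.le]
    rw [div_le_iff₀ hzt]
    calc Ψ (γ z) - Ψ (γ t) ≤ (C * exp (u (γ t)) + δ) * ‖γ z - γ t‖ := hz1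
      _ = (C * exp (u (γ t)) + δ) * ((z - t)⁻¹ * ‖γ z - γ t‖) * (z - t) := by
        field_simp

/-- If the pointwise upper Lipschitz constant of `Ψ` is at most `C exp u`, then the variation of
`Ψ` along a piecewise `C^1` curve is at most `C` times its length. -/
theorem length_bound {u : ℂ → ℝ} (hu : Continuous u) {Ψ : ℂ → ℝ} (hΨ : Continuous Ψ) {C : ℝ}
    (hC : 0 ≤ C)
    (h : ∀ z, ∀ ε > 0, ∀ᶠ w in 𝓝 z, Ψ w - Ψ z ≤ (C * exp (u z) + ε) * ‖w - z‖)
    {γ : ℝ → ℂ} (hγ : PiecewiseC1 γ) : Ψ (γ 1) - Ψ (γ 0) ≤ C * confLength u γ := by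
  obtain ⟨n, t, hm, h0, h1, hc⟩ := hγ
  have hp : ∀ i < n, _ := fun i hi => piece hu hΨ hC h (hm (Nat.le_succ i)) (hc i hi)
  have hsum : ∑ i ∈ Finset.range n, ∫ s in t i..t (i + 1), exp (u (γ s)) * ‖deriv γ s‖
      = ∫ s in t 0..t n, exp (u (γ s)) * ‖deriv γ s‖ :=
    intervalIntegral.sum_integral_adjacent_intervals fun k hk => (hp k hk).1
  have htel : ∑ i ∈ Finset.range n, (Ψ (γ (t (i + 1))) - Ψ (γ (t i)))
      = Ψ (γ (t n)) - Ψ (γ (t 0)) := Finset.sum_range_sub (fun i => Ψ (γ (t i))) n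
  rw [h0, h1] at hsum htel
  unfold confLength
  rw [← htel, ← hsum, Finset.mul_sum]
  exact Finset.sum_le_sum fun i hi => (hp i (Finset.mem_range.1 hi)).2

/-- Lower bound for the distance. -/
theorem dist_bound {u : ℂ → ℝ} (hu : Continuous u) {Ψ : ℂ → ℝ} (hΨ : Continuous Ψ) {C : ℝ}
    (hC : 0 < C)
    (h : ∀ z, ∀ ε > 0, ∀ᶠ w in 𝓝 z, Ψ w - Ψ z ≤ (C * exp (u z) + ε) * ‖w - z‖)
    (x y : ℂ) : ENNReal.ofReal ((Ψ y - Ψ x) / C) ≤ confDist u x y := by
  unfold confDist
  refine le_iInf fun γ => le_iInf fun hγ => ?_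
  refine ENNReal.ofReal_le_ofReal ?_
  rw [div_le_iff₀ hC, mul_comm]
  have := length_bound hu hΨ hC.le h hγ.1
  rwa [hγ.2.1, hγ.2.2] at this

/-- A differentiable function with gradient bounded by `C exp u` satisfies the hypothesis of the
previous results. -/
theorem slope_of_fderiv {u : ℂ → ℝ} {Ψ : ℂ → ℝ} {C : ℝ} {z : ℂ} {L : ℂ →L[ℝ] ℝ}
    (hd : HasFDerivAt Ψ L z) (hL : ‖L‖ ≤ C * exp (u z)) :
    ∀ ε > 0, ∀ᶠ w in 𝓝 z, Ψ w - Ψ z ≤ (C * exp (u z) + ε) * ‖w - z‖ := by
  intro ε hε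
  have h1 := hd.isLittleO.def hε
  filter_upwards [h1] with w hw
  have h2 : Ψ w - Ψ z - L (w - z) ≤ ε * ‖w - z‖ := (le_abs_self _).trans hw
  have h3 : L (w - z) ≤ ‖L‖ * ‖w - z‖ := (le_abs_self _).trans (L.le_opNorm _)
  have h4 : ‖L‖ * ‖w - z‖ ≤ C * exp (u z) * ‖w - z‖ := by gcongr
  linarith

end Pool.Agent.V1181
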