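import Mathlib
set_option autoImplicit false

/-! Rosenthal's inequality for complex independent bounded random variables. -/

namespace Pool.Agent.V1181.Ros

open MeasureTheory ProbabilityTheory Complex

lemma pw_small {q : ℝ} (hq : 2 ≤ q) (a b : ℂ) (ha : a ≠ 0) (hb : ‖b‖ ≤ ‖a‖ / (4 * q)) :
    ‖a + b‖ ^ q ≤ ‖a‖ ^ q + q * (‖a‖ ^ (q - 2) * ((starRingEnd ℂ) a * b).re) +
      (q / 2 + 9 * q ^ 2 / 4) * (‖a‖ ^ (q - 2) * ‖b‖ ^ 2) := by
  have hq0 : 0 < q := by linarith
  have hA : 0 < ‖a‖ := norm_pos_iff.2 ha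
  set u : ℝ := ((starRingEnd ℂ) a * b).re with hu
  have hu1 : |u| ≤ ‖a‖ * ‖b‖ := by
    have := Complex.abs_re_le_norm ((starRingEnd ℂ) a * b)
    rwa [norm_mul, RCLike.norm_conj] at this
  have hsq : ‖a + b‖ ^ 2 = ‖a‖ ^ 2 + 2 * u + ‖b‖ ^ 2 := by
    rw [hu]
    have h1 := Complex.sq_norm (a + b)
    have h2 := Complex.sq_norm a
    have h3 := Complex.sq_norm b
    rw [h1, h2, h3, Complex.normSq_apply, Complex.normSq_apply, Complex.normSq_apply]
    simp only [Complex.add_re, Complex.add_im, Complex.mul_re, Complex.conj_re, Complex.conj_im]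
    ring
  set w : ℝ := ‖b‖ / ‖a‖ with hw
  have hw0 : 0 ≤ w := by positivity
  have hbw : ‖b‖ = w * ‖a‖ := by rw [hw]; field_simp
  have hw1 : w ≤ 1 / (4 * q) := by
    rw [hw, div_le_iff₀ hA]
    calc ‖b‖ ≤ ‖a‖ / (4 * q) := hb
      _ = 1 / (4 * q) * ‖a‖ := by ring
  have hwle : w ≤ 1 := hw1.trans (by
    rw [div_le_one (by positivity)]; linarith)
  set s : ℝ := (2 * u + ‖b‖ ^ 2) / ‖a‖ ^ 2 with hs
  have hs1 : |s| ≤ 3 * w := by
    rw [hs, abs_div, abs_of_pos (by positivity : (0:ℝ) < ‖a‖ ^ 2), div_le_iff₀ (by positivity)]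
    calc |2 * u + ‖b‖ ^ 2| ≤ |2 * u| + |‖b‖ ^ 2| := abs_add_le _ _
      _ ≤ 2 * (‖a‖ * ‖b‖) + ‖b‖ ^ 2 := by
          rw [abs_mul, abs_two, abs_of_nonneg (by positivity : (0:ℝ) ≤ ‖b‖ ^ 2)]
          linarith
      _ ≤ 3 * w * ‖a‖ ^ 2 := by
          rw [hbw]
          nlinarith [mul_nonneg hw0 (sq_nonneg ‖a‖), mul_nonneg (mul_nonneg hw0 (sq_nonneg ‖a‖))
            (by linarith : (0:ℝ) ≤ 1 - w)]
  have hsle : |s * (q / 2)| ≤ 1 := by
    rw [abs_mul, abs_of_pos (by positivity : (0:ℝ) < q / 2)]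
    calc |s| * (q / 2) ≤ 3 * w * (q / 2) := mul_le_mul_of_nonneg_right hs1 (by positivity)
      _ ≤ 3 * (1 / (4 * q)) * (q / 2) := by
          refine mul_le_mul_of_nonneg_right ?_ (by positivity)
          linarith
      _ ≤ 1 := by
          have : 3 * (1 / (4 * q)) * (q / 2) = 3 / 8 := by field_simp; norm_num
          rw [this]; norm_num
  have hs2 : ‖a + b‖ ^ 2 = ‖a‖ ^ 2 * (1 + s) := by
    rw [hsq, hs]; field_simp; ring
  have h1s : 0 ≤ 1 + s := by
    by_contra hcon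
    push Not at hcon
    have : 0 ≤ ‖a + b‖ ^ 2 := by positivity
    rw [hs2] at this
    nlinarith [mul_pos (pow_pos hA 2) (neg_pos.2 hcon)]
  have hexp : (1 + s) ^ (q / 2) ≤ 1 + s * (q / 2) + (s * (q / 2)) ^ 2 := by
    have h2 : (1 + s) ^ (q / 2) ≤ Real.exp (s * (q / 2)) := by
      rw [Real.exp_mul]
      refine Real.rpow_le_rpow h1s ?_ (by positivity)
      have := Real.add_one_le_exp s
      linarith
    have h3 := (abs_le.1 (Real.abs_exp_sub_one_sub_id_le hsle)).2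
    linarith
  have hpow : ∀ x : ℝ, 0 ≤ x → x ^ q = (x ^ 2) ^ (q / 2) := by
    intro x hx
    rw [← Real.rpow_natCast x 2, ← Real.rpow_mul hx]
    congr 1
    push_cast
    ring
  have haq : ‖a‖ ^ q = ‖a‖ ^ (q - 2) * ‖a‖ ^ 2 := by
    rw [← Real.rpow_natCast ‖a‖ 2, ← Real.rpow_add hA]
    congr 1
    push_cast
    ring
  rw [hpow _ (norm_nonneg _), hs2, Real.mul_rpow (by positivity) h1s, ← hpow _ (norm_nonneg _)]
  have hA2 : 0 ≤ ‖a‖ ^ (q - 2) := by positivity
  calc ‖a‖ ^ q * (1 + s) ^ (q / 2) ≤ ‖a‖ ^ q * (1 + s * (q / 2) + (s * (q / 2)) ^ 2) :=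
        mul_le_mul_of_nonneg_left hexp (by positivity)
    _ = ‖a‖ ^ q + ‖a‖ ^ (q - 2) * (q / 2) * (‖a‖ ^ 2 * s) +
          ‖a‖ ^ (q - 2) * (q ^ 2 / 4) * (‖a‖ ^ 2 * s ^ 2) := by rw [haq]; ring
    _ ≤ ‖a‖ ^ q + ‖a‖ ^ (q - 2) * (q / 2) * (2 * u + ‖b‖ ^ 2) +
          ‖a‖ ^ (q - 2) * (q ^ 2 / 4) * (9 * ‖b‖ ^ 2) := by
        have e1 : ‖a‖ ^ 2 * s = 2 * u + ‖b‖ ^ 2 := by rw [hs]; field_simp
        have e2 : ‖a‖ ^ 2 * s ^ 2 ≤ 9 * ‖b‖ ^ 2 := by
          have : s ^ 2 ≤ (3 * w) ^ 2 := by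
            rw [← sq_abs]
            exact pow_le_pow_left₀ (abs_nonneg _) hs1 2
          rw [hbw]
          nlinarith [mul_le_mul_of_nonneg_left this (sq_nonneg ‖a‖)]
        rw [e1]
        have := mul_le_mul_of_nonneg_left e2 (by positivity : 0 ≤ ‖a‖ ^ (q - 2) * (q ^ 2 / 4))
        linarith
    _ = _ := by ring

/-- a Taylor inequality for the `q`-th power of the norm -/
lemma pw {q : ℝ} (hq : 2 ≤ q) : ∃ C : ℝ, 0 < C ∧ ∀ a b : ℂ,
    ‖a + b‖ ^ q ≤ ‖a‖ ^ q + q * (‖a‖ ^ (q - 2) * ((starRingEnd ℂ) a * b).re) +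
      C * (‖a‖ ^ (q - 2) * ‖b‖ ^ 2 + ‖b‖ ^ q) := by
  have hq0 : 0 < q := by linarith
  set C1 : ℝ := q / 2 + 9 * q ^ 2 / 4 with hC1
  set C2 : ℝ := (4 * q + 1) ^ q + q * ((4 * q) ^ (q - 2) * (4 * q)) with hC2
  have hC1p : 0 < C1 := by positivity
  have hC2p : 0 < C2 := by positivity
  refine ⟨C1 + C2, by positivity, ?_⟩
  intro a b
  have hab : 0 ≤ ‖a‖ ^ (q - 2) * ‖b‖ ^ 2 := by positivity
  have hbq : 0 ≤ ‖b‖ ^ q := by positivity
  by_cases h : a ≠ 0 ∧ ‖b‖ ≤ ‖a‖ / (4 * q)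
  · have h1 := pw_small hq a b h.1 h.2
    have h2 : (q / 2 + 9 * q ^ 2 / 4) * (‖a‖ ^ (q - 2) * ‖b‖ ^ 2) ≤
        (C1 + C2) * (‖a‖ ^ (q - 2) * ‖b‖ ^ 2 + ‖b‖ ^ q) := by
      rw [← hC1]
      nlinarith [mul_nonneg hC1p.le hbq, mul_nonneg hC2p.le hbq, mul_nonneg hC2p.le hab]
    linarith
  · have hA : ‖a‖ ≤ 4 * q * ‖b‖ := by
      by_cases ha : a = 0
      · rw [ha, norm_zero]; positivity
      · have h2 : ¬ ‖b‖ ≤ ‖a‖ / (4 * q) := fun h3 => h ⟨ha, h3⟩
        push Not at h2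
        rw [div_lt_iff₀ (by positivity)] at h2
        linarith
    have h1 : ‖a + b‖ ^ q ≤ (4 * q + 1) ^ q * ‖b‖ ^ q := by
      rw [← Real.mul_rpow (by positivity) (norm_nonneg _)]
      refine Real.rpow_le_rpow (norm_nonneg _) ?_ hq0.le
      refine (norm_add_le _ _).trans ?_
      linarith
    have hu1 : |((starRingEnd ℂ) a * b).re| ≤ ‖a‖ * ‖b‖ := by
      have := Complex.abs_re_le_norm ((starRingEnd ℂ) a * b)
      rwa [norm_mul, RCLike.norm_conj] at this
    have h2 : -(q * ((4 * q) ^ (q - 2) * (4 * q)) * ‖b‖ ^ q) ≤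
        q * (‖a‖ ^ (q - 2) * ((starRingEnd ℂ) a * b).re) := by
      have h3 : ‖a‖ ^ (q - 2) * |((starRingEnd ℂ) a * b).re| ≤
          (4 * q) ^ (q - 2) * (4 * q) * ‖b‖ ^ q := by
        have h4 : ‖a‖ ^ (q - 2) ≤ (4 * q) ^ (q - 2) * ‖b‖ ^ (q - 2) := by
          rw [← Real.mul_rpow (by positivity) (norm_nonneg _)]
          exact Real.rpow_le_rpow (norm_nonneg _) hA (by linarith)
        have h5 : |((starRingEnd ℂ) a * b).re| ≤ 4 * q * ‖b‖ ^ 2 := by
          refine hu1.trans ?_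
          nlinarith [norm_nonneg b]
        rcases (norm_nonneg b).eq_or_lt with h6 | h6
        · rw [← h6] at h5 ⊢
          have : |((starRingEnd ℂ) a * b).re| = 0 := le_antisymm (by linarith) (abs_nonneg _)
          rw [this, Real.zero_rpow hq0.ne']
          simp
        · have e : ‖b‖ ^ q = ‖b‖ ^ (q - 2) * ‖b‖ ^ 2 := by
            rw [← Real.rpow_natCast ‖b‖ 2, ← Real.rpow_add h6]
            congr 1
            push_cast
            ring
          calc ‖a‖ ^ (q - 2) * |((starRingEnd ℂ) a * b).re|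
              ≤ ((4 * q) ^ (q - 2) * ‖b‖ ^ (q - 2)) * (4 * q * ‖b‖ ^ 2) :=
                mul_le_mul h4 h5 (abs_nonneg _) (by positivity)
            _ = _ := by rw [e]; ring
      have h7 := neg_abs_le ((starRingEnd ℂ) a * b).re
      have h8 : 0 ≤ ‖a‖ ^ (q - 2) := by positivity
      have h9 : -(‖a‖ ^ (q - 2) * |((starRingEnd ℂ) a * b).re|) ≤
          ‖a‖ ^ (q - 2) * ((starRingEnd ℂ) a * b).re := by nlinarith
      nlinarith
    have h10 : 0 ≤ ‖a‖ ^ q := by positivity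
    nlinarith [mul_nonneg hC1p.le hbq, mul_nonneg hC2p.le hbq, mul_nonneg hC2p.le hab,
      mul_nonneg hC1p.le hab]

section

variable {Ω : Type*} [MeasurableSpace Ω] {μ : Measure Ω} [IsProbabilityMeasure μ]

lemma young {q : ℝ} (hq : 2 ≤ q) {l x : ℝ} (hl : 0 < l) (hx : 0 ≤ x) :
    x ^ (q - 2) ≤ l⁻¹ ^ 2 * x ^ q + l ^ (q - 2) := by
  rcases le_total x l with h | h
  · have h1 : x ^ (q - 2) ≤ l ^ (q - 2) := Real.rpow_le_rpow hx h (by linarith)
    have h2 : 0 ≤ l⁻¹ ^ 2 * x ^ q := by positivity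
    linarith
  · have hx0 : 0 < x := hl.trans_le h
    have h1 : x ^ q = x ^ (q - 2) * x ^ 2 := by
      rw [← Real.rpow_natCast x 2, ← Real.rpow_add hx0]
      congr 1
      push_cast
      ring
    have h2 : 1 ≤ l⁻¹ ^ 2 * x ^ 2 := by
      rw [← mul_pow]
      apply one_le_pow₀
      rw [inv_mul_eq_div, le_div_iff₀ hl]
      linarith
    have h3 : 0 ≤ x ^ (q - 2) := by positivity
    have h4 : 0 ≤ l ^ (q - 2) := by positivity
    rw [h1]
    nlinarith [mul_le_mul_of_nonneg_left h2 h3]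

lemma int_bdd {f : Ω → ℝ} {M : ℝ} (hf : Measurable f) (hM : ∀ ω, |f ω| ≤ M) : Integrable f μ :=
  Integrable.of_bound (C := M) hf.aestronglyMeasurable
    (Filter.Eventually.of_forall fun ω => by rw [Real.norm_eq_abs]; exact hM ω)

/-- centred variables -/
theorem centred {q : ℝ} (hq : 2 ≤ q) : ∃ C : ℝ, 0 < C ∧
    ∀ (Ω : Type) [MeasurableSpace Ω] (μ : Measure Ω) [IsProbabilityMeasure μ]
      (ι : Type) [Fintype ι] (X : ι → Ω → ℂ), (∀ i, Measurable (X i)) → iIndepFun X μ →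
      (∃ M : ℝ, ∀ i ω, ‖X i ω‖ ≤ M) → (∀ i, ∫ ω, X i ω ∂μ = 0) →
      ∫ ω, ‖∑ i, X i ω‖ ^ q ∂μ ≤
        C * ((∑ i, ∫ ω, ‖X i ω‖ ^ 2 ∂μ) ^ (q / 2) + ∑ i, ∫ ω, ‖X i ω‖ ^ q ∂μ) := by
  classical
  obtain ⟨C, hC0, hC⟩ := pw hq
  have hq0 : 0 < q := by linarith
  refine ⟨2 * C * (2 * C) ^ ((q - 2) / 2) + 2 * C, by positivity, ?_⟩
  intro Ω _ μ _ ι _ X hX hind ⟨M, hM⟩ hmean
  by_cases hemp : IsEmpty ι
  · simp only [Finset.univ_eq_empty, Finset.sum_empty, norm_zero, Real.zero_rpow hq0.ne']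
    simp only [integral_zero, add_zero]
    positivity
  rw [not_isEmpty_iff] at hemp
  have hM0 : 0 ≤ M := by
    obtain ⟨i⟩ := hemp
    have : Nonempty Ω := by
      by_contra hne
      rw [not_nonempty_iff] at hne
      have h1 : μ Set.univ = 1 := measure_univ
      rw [Set.univ_eq_empty_iff.2 hne, measure_empty] at h1
      exact zero_ne_one h1
    obtain ⟨ω⟩ := this
    exact (norm_nonneg _).trans (hM i ω)
  let S : Finset ι → Ω → ℂ := fun s ω => ∑ i ∈ s, X i ω
  have hSm : ∀ s, Measurable (S s) := fun s => Finset.measurable_sum _ fun i _ => hX i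
  have hSb : ∀ s ω, ‖S s ω‖ ≤ s.card * M := by
    intro s ω
    refine (norm_sum_le _ _).trans ?_
    refine (Finset.sum_le_sum fun i _ => hM i ω).trans ?_
    rw [Finset.sum_const, nsmul_eq_mul]
  let a : Finset ι → ℝ := fun s => ∫ ω, ‖S s ω‖ ^ q ∂μ
  obtain ⟨s0, hs0, hmax⟩ := Finset.exists_max_image (Finset.univ : Finset ι).powerset a ⟨∅, by simp⟩
  set L : ℝ := a s0 with hL
  have haL : ∀ s, a s ≤ L := fun s => hmax s (Finset.mem_powerset.2 (Finset.subset_univ s))
  have ha0 : ∀ s, 0 ≤ a s := fun s => integral_nonneg fun ω => by positivity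
  set v : ι → ℝ := fun i => ∫ ω, ‖X i ω‖ ^ 2 ∂μ with hv
  set w : ι → ℝ := fun i => ∫ ω, ‖X i ω‖ ^ q ∂μ with hw
  have hv0 : ∀ i, 0 ≤ v i := fun i => integral_nonneg fun ω => by positivity
  have hw0 : ∀ i, 0 ≤ w i := fun i => integral_nonneg fun ω => by positivity
  have key : ∀ l : ℝ, 0 < l → ∀ s : Finset ι,
      a s ≤ C * ((l⁻¹ ^ 2 * L + l ^ (q - 2)) * ∑ i ∈ s, v i + ∑ i ∈ s, w i) := by
    intro l hl s
    induction s using Finset.induction_on with
    | empty =>
      simp only [a, S, Finset.sum_empty, norm_zero, Real.zero_rpow hq0.ne', integral_zero, mul_zero,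
        add_zero, le_refl]
    | insert i s his ih =>
      have hindep : IndepFun (S s) (X i) μ := by
        have h1 := hind.indepFun_finsetSum_of_notMem hX his
        have h2 : S s = ∑ j ∈ s, X j := by
          ext ω
          simp only [S, Finset.sum_apply]
        rw [h2]
        exact h1
      -- integrability
      have hSr : ∀ e : ℝ, 0 ≤ e → ∀ ω, ‖S s ω‖ ^ e ≤ (s.card * M) ^ e := fun e he ω =>
        Real.rpow_le_rpow (norm_nonneg _) (hSb s ω) he
      have i1 : Integrable (fun ω => ‖S s ω‖ ^ q) μ :=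
        int_bdd ((hSm s).norm.pow_const q) fun ω => by
          rw [abs_of_nonneg (by positivity)]; exact hSr q hq0.le ω
      have i2 : Integrable (fun ω => ‖S s ω‖ ^ (q - 2) * ((starRingEnd ℂ) (S s ω) * X i ω).re) μ := by
        refine int_bdd (M := (s.card * M) ^ (q - 2) * ((s.card * M) * M)) ?_ fun ω => ?_
        · exact ((hSm s).norm.pow_const _).mul
            (Complex.measurable_re.comp ((Complex.continuous_conj.measurable.comp (hSm s)).mul (hX i)))
        · rw [abs_mul, abs_of_nonneg (by positivity : 0 ≤ ‖S s ω‖ ^ (q - 2))]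
          refine mul_le_mul (hSr (q - 2) (by linarith) ω) ?_ (abs_nonneg _) (by positivity)
          refine (Complex.abs_re_le_norm _).trans ?_
          rw [norm_mul, RCLike.norm_conj]
          exact mul_le_mul (hSb s ω) (hM i ω) (norm_nonneg _) (by positivity)
      have i3 : Integrable (fun ω => ‖S s ω‖ ^ (q - 2) * ‖X i ω‖ ^ 2) μ := by
        refine int_bdd (M := (s.card * M) ^ (q - 2) * M ^ 2) ?_ fun ω => ?_
        · exact ((hSm s).norm.pow_const _).mul ((hX i).norm.pow_const 2)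
        · rw [abs_of_nonneg (by positivity)]
          exact mul_le_mul (hSr (q - 2) (by linarith) ω)
            (pow_le_pow_left₀ (norm_nonneg _) (hM i ω) 2) (by positivity) (by positivity)
      have i4 : Integrable (fun ω => ‖X i ω‖ ^ q) μ :=
        int_bdd (M := M ^ q) ((hX i).norm.pow_const q) fun ω => by
          rw [abs_of_nonneg (by positivity)]
          exact Real.rpow_le_rpow (norm_nonneg _) (hM i ω) hq0.le
      have i5 : Integrable (fun ω => ‖S s ω‖ ^ (q - 2)) μ :=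
        int_bdd ((hSm s).norm.pow_const _) fun ω => by
          rw [abs_of_nonneg (by positivity)]; exact hSr (q - 2) (by linarith) ω
      -- the linear term vanishes
      have z1 : ∫ ω, ‖S s ω‖ ^ (q - 2) * ((starRingEnd ℂ) (S s ω) * X i ω).re ∂μ = 0 := by
        have h1 : ∫ ω, (((‖S s ω‖ ^ (q - 2) : ℝ) : ℂ) * (starRingEnd ℂ) (S s ω)) * X i ω ∂μ = 0 := by
          have hmf : Measurable fun z : ℂ => ((‖z‖ ^ (q - 2) : ℝ) : ℂ) * (starRingEnd ℂ) z :=
            (Complex.measurable_ofReal.comp (measurable_norm.pow_const _)).mul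
              Complex.continuous_conj.measurable
          have h2 := hindep.integral_fun_comp_mul_comp (hSm s).aemeasurable (hX i).aemeasurable
            (f := fun z : ℂ => ((‖z‖ ^ (q - 2) : ℝ) : ℂ) * (starRingEnd ℂ) z) (g := fun z : ℂ => z)
            hmf.aestronglyMeasurable measurable_id.aestronglyMeasurable
          rw [h2, hmean i, mul_zero]
        have h3 : ∀ ω, ‖S s ω‖ ^ (q - 2) * ((starRingEnd ℂ) (S s ω) * X i ω).re =
            ((((‖S s ω‖ ^ (q - 2) : ℝ) : ℂ) * (starRingEnd ℂ) (S s ω)) * X i ω).re := by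
          intro ω
          rw [mul_assoc, Complex.re_ofReal_mul]
        have hi : Integrable (fun ω =>
            (((‖S s ω‖ ^ (q - 2) : ℝ) : ℂ) * (starRingEnd ℂ) (S s ω)) * X i ω) μ := by
          refine Integrable.of_bound (C := (s.card * M) ^ (q - 2) * (s.card * M) * M) ?_
            (Filter.Eventually.of_forall fun ω => ?_)
          · exact (((Complex.measurable_ofReal.comp ((hSm s).norm.pow_const _)).mul
              (Complex.continuous_conj.measurable.comp (hSm s))).mul (hX i)).aestronglyMeasurable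
          · rw [norm_mul, norm_mul, RCLike.norm_conj, Complex.norm_real, Real.norm_eq_abs,
              abs_of_nonneg (by positivity)]
            refine mul_le_mul (mul_le_mul (hSr (q - 2) (by linarith) ω) (hSb s ω) (norm_nonneg _)
              (by positivity)) (hM i ω) (norm_nonneg _) (by positivity)
        calc ∫ ω, ‖S s ω‖ ^ (q - 2) * ((starRingEnd ℂ) (S s ω) * X i ω).re ∂μ
            = ∫ ω, ((((‖S s ω‖ ^ (q - 2) : ℝ) : ℂ) * (starRingEnd ℂ) (S s ω)) * X i ω).re ∂μ :=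
              integral_congr_ae (Filter.Eventually.of_forall h3)
          _ = (∫ ω, (((‖S s ω‖ ^ (q - 2) : ℝ) : ℂ) * (starRingEnd ℂ) (S s ω)) * X i ω ∂μ).re :=
              integral_re (𝕜 := ℂ) hi
          _ = 0 := by rw [h1, Complex.zero_re]
      have z2 : ∫ ω, ‖S s ω‖ ^ (q - 2) * ‖X i ω‖ ^ 2 ∂μ = (∫ ω, ‖S s ω‖ ^ (q - 2) ∂μ) * v i :=
        hindep.integral_fun_comp_mul_comp (hSm s).aemeasurable (hX i).aemeasurable
          (f := fun z : ℂ => ‖z‖ ^ (q - 2)) (g := fun z : ℂ => ‖z‖ ^ 2)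
          (measurable_norm.pow_const _).aestronglyMeasurable
          (measurable_norm.pow_const 2).aestronglyMeasurable
      have z3 : ∫ ω, ‖S s ω‖ ^ (q - 2) ∂μ ≤ l⁻¹ ^ 2 * L + l ^ (q - 2) := by
        calc ∫ ω, ‖S s ω‖ ^ (q - 2) ∂μ ≤ ∫ ω, (l⁻¹ ^ 2 * ‖S s ω‖ ^ q + l ^ (q - 2)) ∂μ :=
              integral_mono i5 ((i1.const_mul _).add (integrable_const _))
                fun ω => young hq hl (norm_nonneg _)
          _ = l⁻¹ ^ 2 * a s + l ^ (q - 2) := by
              rw [integral_add (f := fun ω => l⁻¹ ^ 2 * ‖S s ω‖ ^ q) (g := fun _ => l ^ (q - 2))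
                (i1.const_mul _) (integrable_const _), integral_const_mul]
              simp [a]
          _ ≤ _ := by
              have := mul_le_mul_of_nonneg_left (haL s) (by positivity : 0 ≤ l⁻¹ ^ 2)
              linarith
      have hstep : a (insert i s) ≤ a s + C * ((l⁻¹ ^ 2 * L + l ^ (q - 2)) * v i + w i) := by
        calc a (insert i s) = ∫ ω, ‖S s ω + X i ω‖ ^ q ∂μ := by
              apply integral_congr_ae
              refine Filter.Eventually.of_forall fun ω => ?_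
              simp only [S]
              rw [Finset.sum_insert his, add_comm]
          _ ≤ ∫ ω, ((‖S s ω‖ ^ q + q * (‖S s ω‖ ^ (q - 2) * ((starRingEnd ℂ) (S s ω) * X i ω).re)) +
                C * (‖S s ω‖ ^ (q - 2) * ‖X i ω‖ ^ 2 + ‖X i ω‖ ^ q)) ∂μ := by
              apply integral_mono_of_nonneg
              · exact Filter.Eventually.of_forall fun ω => by positivity
              · exact (i1.add (i2.const_mul _)).add ((i3.add i4).const_mul _)
              · exact Filter.Eventually.of_forall fun ω => hC (S s ω) (X i ω)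
          _ = a s + q * 0 + C * ((∫ ω, ‖S s ω‖ ^ (q - 2) ∂μ) * v i + w i) := by
              rw [integral_add (f := fun ω => ‖S s ω‖ ^ q +
                  q * (‖S s ω‖ ^ (q - 2) * ((starRingEnd ℂ) (S s ω) * X i ω).re))
                (g := fun ω => C * (‖S s ω‖ ^ (q - 2) * ‖X i ω‖ ^ 2 + ‖X i ω‖ ^ q))
                (i1.add (i2.const_mul _)) ((i3.add i4).const_mul _),
                integral_add (f := fun ω => ‖S s ω‖ ^ q)
                  (g := fun ω => q * (‖S s ω‖ ^ (q - 2) * ((starRingEnd ℂ) (S s ω) * X i ω).re))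
                  i1 (i2.const_mul _), integral_const_mul, integral_const_mul, z1,
                integral_add (f := fun ω => ‖S s ω‖ ^ (q - 2) * ‖X i ω‖ ^ 2)
                  (g := fun ω => ‖X i ω‖ ^ q) i3 i4, z2]
          _ ≤ _ := by
              have h1 := mul_le_mul_of_nonneg_right z3 (hv0 i)
              have h2 := mul_le_mul_of_nonneg_left h1 hC0.le
              nlinarith
      rw [Finset.sum_insert his, Finset.sum_insert his]
      nlinarith
  set V : ℝ := ∑ i, v i with hV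
  set U : ℝ := ∑ i, w i with hU
  have hV0 : 0 ≤ V := Finset.sum_nonneg fun i _ => hv0 i
  have hU0 : 0 ≤ U := Finset.sum_nonneg fun i _ => hw0 i
  have hL0 : 0 ≤ L := ha0 s0
  have key2 : ∀ l : ℝ, 0 < l → L ≤ C * ((l⁻¹ ^ 2 * L + l ^ (q - 2)) * V + U) := by
    intro l hl
    refine (key l hl s0).trans ?_
    have h1 : ∑ i ∈ s0, v i ≤ V :=
      Finset.sum_le_sum_of_subset_of_nonneg (Finset.subset_univ _) fun i _ _ => hv0 i
    have h2 : ∑ i ∈ s0, w i ≤ U :=
      Finset.sum_le_sum_of_subset_of_nonneg (Finset.subset_univ _) fun i _ _ => hw0 i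
    refine mul_le_mul_of_nonneg_left (add_le_add ?_ h2) hC0.le
    exact mul_le_mul_of_nonneg_left h1 (by positivity)
  change a Finset.univ ≤ _
  refine (haL _).trans ?_
  rcases hV0.eq_or_lt with h0 | hVpos
  · have h1 := key2 1 one_pos
    rw [← h0] at h1 ⊢
    rw [Real.zero_rpow (by positivity)]
    have h2 : 0 ≤ 2 * C * (2 * C) ^ ((q - 2) / 2) := by positivity
    nlinarith [mul_nonneg h2 hU0, mul_nonneg hC0.le hU0]
  · have hl : 0 < (2 * C * V) ^ ((1 : ℝ) / 2) := by positivity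
    have h1 := key2 _ hl
    set l : ℝ := (2 * C * V) ^ ((1 : ℝ) / 2) with hldef
    have hl2 : l ^ 2 = 2 * C * V := by
      rw [hldef, ← Real.rpow_natCast, ← Real.rpow_mul (by positivity)]
      norm_num
    have hlq : l ^ (q - 2) = (2 * C) ^ ((q - 2) / 2) * V ^ ((q - 2) / 2) := by
      rw [hldef, ← Real.rpow_mul (by positivity), ← Real.mul_rpow (by positivity) hV0]
      congr 1
      ring
    have hVV : V ^ ((q - 2) / 2) * V = V ^ (q / 2) := by
      nth_rewrite 2 [← Real.rpow_one V]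
      rw [← Real.rpow_add hVpos]
      congr 1
      ring
    have h2 : C * (l⁻¹ ^ 2 * L * V) = L / 2 := by
      rw [inv_pow, hl2]
      field_simp
    have h3 : C * (l ^ (q - 2) * V) = C * (2 * C) ^ ((q - 2) / 2) * V ^ (q / 2) := by
      rw [hlq, ← hVV]; ring
    have h4 : L ≤ L / 2 + C * (2 * C) ^ ((q - 2) / 2) * V ^ (q / 2) + C * U := by
      calc L ≤ C * ((l⁻¹ ^ 2 * L + l ^ (q - 2)) * V + U) := h1
        _ = C * (l⁻¹ ^ 2 * L * V) + C * (l ^ (q - 2) * V) + C * U := by ring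
        _ = _ := by rw [h2, h3]
    have h5 : 0 ≤ V ^ (q / 2) := by positivity
    have h6 : 0 ≤ (2 * C) ^ ((q - 2) / 2) := by positivity
    nlinarith [mul_nonneg hC0.le h5, mul_nonneg (mul_nonneg hC0.le h6) hU0]

end

end Pool.Agent.V1181.Ros
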