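import Mathlib
import Pool.Agent.V1181.Ros
set_option autoImplicit false

/-! Rosenthal's inequality on product spaces, without centring. -/

namespace Pool.Agent.V1181.Ros

open MeasureTheory ProbabilityTheory Complex
open scoped ENNReal

lemma rpow_le_mul {s v V : ℝ} (hs : 1 ≤ s) (hv : 0 ≤ v) (hV : v ≤ V) : v ^ s ≤ v * V ^ (s - 1) := by
  rcases hv.eq_or_lt with h | h
  · rw [← h, Real.zero_rpow (by linarith), zero_mul]
  · have h1 : v ^ s = v * v ^ (s - 1) := by
      nth_rewrite 2 [← Real.rpow_one v]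
      rw [← Real.rpow_add h]
      congr 1
      ring
    rw [h1]
    exact mul_le_mul_of_nonneg_left (Real.rpow_le_rpow hv hV (by linarith)) hv

lemma sum_rpow_le {ι : Type} (t : Finset ι) (v : ι → ℝ) (hv : ∀ i, 0 ≤ v i) {s : ℝ} (hs : 1 ≤ s) :
    ∑ i ∈ t, v i ^ s ≤ (∑ i ∈ t, v i) ^ s := by
  have hV : 0 ≤ ∑ i ∈ t, v i := Finset.sum_nonneg fun i _ => hv i
  calc ∑ i ∈ t, v i ^ s ≤ ∑ i ∈ t, v i * (∑ i ∈ t, v i) ^ (s - 1) :=
        Finset.sum_le_sum fun i hi => rpow_le_mul hs (hv i)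
          (Finset.single_le_sum (f := v) (fun j _ => hv j) hi)
    _ = (∑ i ∈ t, v i) * (∑ i ∈ t, v i) ^ (s - 1) := by rw [Finset.sum_mul]
    _ = _ := by
        rcases hV.eq_or_lt with h | h
        · rw [← h, zero_mul, Real.zero_rpow (by linarith)]
        · nth_rewrite 1 [← Real.rpow_one (∑ i ∈ t, v i)]
          rw [← Real.rpow_add h]
          congr 1
          ring

lemma add_rpow_le {q a b : ℝ} (hq : 0 ≤ q) (ha : 0 ≤ a) (hb : 0 ≤ b) :
    (a + b) ^ q ≤ 2 ^ q * (a ^ q + b ^ q) := by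
  have h1 : a + b ≤ 2 * max a b := by
    linarith [le_max_left a b, le_max_right a b]
  have h2 : (max a b) ^ q ≤ a ^ q + b ^ q := by
    rcases max_choice a b with h | h
    · rw [h]; linarith [Real.rpow_nonneg hb q]
    · rw [h]; linarith [Real.rpow_nonneg ha q]
  calc (a + b) ^ q ≤ (2 * max a b) ^ q := Real.rpow_le_rpow (by positivity) h1 hq
    _ = 2 ^ q * (max a b) ^ q := Real.mul_rpow (by norm_num) (le_max_of_le_left ha)
    _ ≤ _ := mul_le_mul_of_nonneg_left h2 (by positivity)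

lemma sq_integral_le {E : Type} [MeasurableSpace E] (ρ : Measure E) [IsProbabilityMeasure ρ]
    (X : E → ℂ) (hX : Measurable X) (M : ℝ) (hM : ∀ v, ‖X v‖ ≤ M) :
    ‖∫ v, X v ∂ρ‖ ^ 2 ≤ ∫ v, ‖X v‖ ^ 2 ∂ρ := by
  have hne : Nonempty E := by
    by_contra hne
    rw [not_nonempty_iff] at hne
    have h1 : ρ Set.univ = 1 := measure_univ
    rw [Set.univ_eq_empty_iff.2 hne, measure_empty] at h1
    exact zero_ne_one h1
  obtain ⟨v0⟩ := hne
  have hM0 : 0 ≤ M := (norm_nonneg _).trans (hM v0)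
  have i1 : Integrable (fun v => ‖X v‖) ρ := int_bdd hX.norm fun v => by
    rw [abs_of_nonneg (norm_nonneg _)]; exact hM v
  have i2 : Integrable (fun v => ‖X v‖ ^ 2) ρ := int_bdd (M := M ^ 2) (hX.norm.pow_const 2) fun v => by
    rw [abs_of_nonneg (by positivity)]; exact pow_le_pow_left₀ (norm_nonneg _) (hM v) 2
  set c : ℝ := ∫ v, ‖X v‖ ∂ρ with hc
  have hc0 : 0 ≤ c := integral_nonneg fun _ => norm_nonneg _
  have h1 : ‖∫ v, X v ∂ρ‖ ≤ c := norm_integral_le_integral_norm _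
  have h2 : 0 ≤ ∫ v, (‖X v‖ - c) ^ 2 ∂ρ := integral_nonneg fun _ => sq_nonneg _
  have h3 : ∫ v, (‖X v‖ - c) ^ 2 ∂ρ = ∫ v, ‖X v‖ ^ 2 ∂ρ - 2 * c * c + c ^ 2 := by
    have e : ∀ v, (‖X v‖ - c) ^ 2 = (‖X v‖ ^ 2 - 2 * c * ‖X v‖) + c ^ 2 := fun v => by ring
    rw [integral_congr_ae (Filter.Eventually.of_forall e),
      integral_add (f := fun v => ‖X v‖ ^ 2 - 2 * c * ‖X v‖) (g := fun _ => c ^ 2)
        (i2.sub (i1.const_mul _)) (integrable_const _),
      integral_sub (f := fun v => ‖X v‖ ^ 2) (g := fun v => 2 * c * ‖X v‖) i2 (i1.const_mul _),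
      integral_const_mul]
    simp [hc]
  have h4 : ‖∫ v, X v ∂ρ‖ ^ 2 ≤ c ^ 2 := pow_le_pow_left₀ (norm_nonneg _) h1 2
  nlinarith

/-- Rosenthal's inequality on a product space -/
theorem product {q : ℝ} (hq : 2 ≤ q) : ∃ C : ℝ, 0 < C ∧
    ∀ (E : Type) [MeasurableSpace E] (ρ : Measure E) [IsProbabilityMeasure ρ]
      (m : ℕ) (X : Fin m → E → ℂ), (∀ j, Measurable (X j)) → (∃ M : ℝ, ∀ j v, ‖X j v‖ ≤ M) →
      ∫ y : Fin m → E, ‖∑ j, X j (y j)‖ ^ q ∂(Measure.pi fun _ => ρ) ≤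
        C * ((∑ j, ∫ v, ‖X j v‖ ^ 2 ∂ρ) ^ (q / 2) + ∑ j, ∫ v, ‖X j v‖ ^ q ∂ρ +
          ‖∑ j, ∫ v, X j v ∂ρ‖ ^ q) := by
  obtain ⟨C, hC0, hC⟩ := centred hq
  have hq0 : 0 < q := by linarith
  refine ⟨2 ^ q * (C * (4 ^ (q / 2) + 2 ^ q) + 1), by positivity, ?_⟩
  intro E _ ρ _ m X hX ⟨M, hM⟩
  by_cases hm : m = 0
  · subst hm
    simp only [Finset.univ_eq_empty, Finset.sum_empty, norm_zero, Real.zero_rpow hq0.ne']
    simp only [integral_zero, add_zero]
    positivity
  have hne : Nonempty E := by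
    by_contra hne
    rw [not_nonempty_iff] at hne
    have h1 : ρ Set.univ = 1 := measure_univ
    rw [Set.univ_eq_empty_iff.2 hne, measure_empty] at h1
    exact zero_ne_one h1
  obtain ⟨v0⟩ := hne
  have hM0 : 0 ≤ M := (norm_nonneg _).trans (hM ⟨0, Nat.pos_of_ne_zero hm⟩ v0)
  let μ : Measure (Fin m → E) := Measure.pi fun _ => ρ
  let c : Fin m → ℂ := fun j => ∫ v, X j v ∂ρ
  let Y : Fin m → E → ℂ := fun j v => X j v - c j
  have hcb : ∀ j, ‖c j‖ ≤ M := by
    intro j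
    refine (norm_integral_le_of_norm_le_const (Filter.Eventually.of_forall fun v => hM j v)).trans ?_
    simp
  have hYm : ∀ j, Measurable (Y j) := fun j => (hX j).sub_const _
  have hYb : ∀ j v, ‖Y j v‖ ≤ 2 * M := by
    intro j v
    refine (norm_sub_le _ _).trans ?_
    linarith [hM j v, hcb j]
  have hXi : ∀ j, Integrable (X j) ρ := fun j =>
    Integrable.of_bound (C := M) (hX j).aestronglyMeasurable
      (Filter.Eventually.of_forall fun v => hM j v)
  have hproj : ∀ (j : Fin m) {F : Type} [NormedAddCommGroup F] [NormedSpace ℝ F] (f : E → F),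
      AEStronglyMeasurable f ρ → ∫ y : Fin m → E, f (y j) ∂μ = ∫ v, f v ∂ρ := by
    intro j F _ _ f hf
    have hmp : MeasurePreserving (Function.eval j) μ ρ := measurePreserving_eval (fun _ => ρ) j
    have hf' : AEStronglyMeasurable f (Measure.map (Function.eval j) μ) := by
      rw [hmp.map_eq]; exact hf
    have h := integral_map hmp.measurable.aemeasurable hf'
    rw [hmp.map_eq] at h
    exact h.symm
  have hind : iIndepFun (fun j (y : Fin m → E) => Y j (y j)) μ :=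
    iIndepFun_pi fun j => (hYm j).aemeasurable
  have hcen := hC (Fin m → E) μ (Fin m) (fun j y => Y j (y j))
    (fun j => (hYm j).comp (measurable_pi_apply j)) hind ⟨2 * M, fun j y => hYb j (y j)⟩ (by
      intro j
      rw [hproj j (Y j) (hYm j).aestronglyMeasurable]
      simp only [Y]
      rw [integral_sub (f := X j) (g := fun _ => c j) (hXi j) (integrable_const _)]
      simp [c])
  have hj2 : ∀ j, ∫ y : Fin m → E, ‖Y j (y j)‖ ^ 2 ∂μ = ∫ v, ‖Y j v‖ ^ 2 ∂ρ := fun j =>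
    hproj j (fun v => ‖Y j v‖ ^ 2) ((hYm j).norm.pow_const 2).aestronglyMeasurable
  have hjq : ∀ j, ∫ y : Fin m → E, ‖Y j (y j)‖ ^ q ∂μ = ∫ v, ‖Y j v‖ ^ q ∂ρ := fun j =>
    hproj j (fun v => ‖Y j v‖ ^ q) ((hYm j).norm.pow_const q).aestronglyMeasurable
  simp only [hj2, hjq] at hcen
  set v : Fin m → ℝ := fun j => ∫ x, ‖X j x‖ ^ 2 ∂ρ with hv
  set w : Fin m → ℝ := fun j => ∫ x, ‖X j x‖ ^ q ∂ρ with hw
  have hv0 : ∀ j, 0 ≤ v j := fun j => integral_nonneg fun _ => by positivity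
  have hw0 : ∀ j, 0 ≤ w j := fun j => integral_nonneg fun _ => by positivity
  have hcv : ∀ j, ‖c j‖ ^ 2 ≤ v j := fun j => sq_integral_le ρ (X j) (hX j) M (hM j)
  have i2 : ∀ j, Integrable (fun x => ‖X j x‖ ^ 2) ρ := fun j =>
    int_bdd (M := M ^ 2) ((hX j).norm.pow_const 2) fun x => by
      rw [abs_of_nonneg (by positivity)]; exact pow_le_pow_left₀ (norm_nonneg _) (hM j x) 2
  have iq : ∀ j, Integrable (fun x => ‖X j x‖ ^ q) ρ := fun j =>
    int_bdd (M := M ^ q) ((hX j).norm.pow_const q) fun x => by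
      rw [abs_of_nonneg (by positivity)]; exact Real.rpow_le_rpow (norm_nonneg _) (hM j x) hq0.le
  have hY2 : ∀ j, ∫ x, ‖Y j x‖ ^ 2 ∂ρ ≤ 4 * v j := by
    intro j
    calc ∫ x, ‖Y j x‖ ^ 2 ∂ρ ≤ ∫ x, (2 * ‖X j x‖ ^ 2 + 2 * ‖c j‖ ^ 2) ∂ρ := by
          apply integral_mono_of_nonneg
          · exact Filter.Eventually.of_forall fun _ => by positivity
          · exact ((i2 j).const_mul 2).add (integrable_const _)
          · refine Filter.Eventually.of_forall fun x => ?_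
            simp only [Y]
            have h1 := norm_sub_le (X j x) (c j)
            have h2 : ‖X j x - c j‖ ^ 2 ≤ (‖X j x‖ + ‖c j‖) ^ 2 :=
              pow_le_pow_left₀ (norm_nonneg _) h1 2
            nlinarith [sq_nonneg (‖X j x‖ - ‖c j‖)]
      _ = 2 * v j + 2 * ‖c j‖ ^ 2 := by
          rw [integral_add (f := fun x => 2 * ‖X j x‖ ^ 2) (g := fun _ => 2 * ‖c j‖ ^ 2)
            ((i2 j).const_mul 2) (integrable_const _), integral_const_mul]
          simp [v]
      _ ≤ 4 * v j := by linarith [hcv j]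
  have hcq : ∀ j, ‖c j‖ ^ q ≤ v j ^ (q / 2) := by
    intro j
    have h1 : ‖c j‖ ^ q = (‖c j‖ ^ 2) ^ (q / 2) := by
      rw [← Real.rpow_natCast ‖c j‖ 2, ← Real.rpow_mul (norm_nonneg _)]
      congr 1
      push_cast
      ring
    rw [h1]
    exact Real.rpow_le_rpow (by positivity) (hcv j) (by positivity)
  have hYq : ∀ j, ∫ x, ‖Y j x‖ ^ q ∂ρ ≤ 2 ^ q * (w j + v j ^ (q / 2)) := by
    intro j
    calc ∫ x, ‖Y j x‖ ^ q ∂ρ ≤ ∫ x, (2 ^ q * (‖X j x‖ ^ q + ‖c j‖ ^ q)) ∂ρ := by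
          apply integral_mono_of_nonneg
          · exact Filter.Eventually.of_forall fun _ => by positivity
          · exact ((iq j).add (integrable_const _)).const_mul _
          · refine Filter.Eventually.of_forall fun x => ?_
            simp only [Y]
            exact (Real.rpow_le_rpow (norm_nonneg _) (norm_sub_le (X j x) (c j)) hq0.le).trans
              (add_rpow_le hq0.le (norm_nonneg _) (norm_nonneg _))
      _ = 2 ^ q * (w j + ‖c j‖ ^ q) := by
          rw [integral_const_mul, integral_add (f := fun x => ‖X j x‖ ^ q)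
            (g := fun _ => ‖c j‖ ^ q) (iq j) (integrable_const _)]
          simp [w]
      _ ≤ _ := by
          have := hcq j
          have h2 : (0 : ℝ) ≤ 2 ^ q := by positivity
          nlinarith
  set V : ℝ := ∑ j, v j with hV
  set U : ℝ := ∑ j, w j with hU
  have hV0 : 0 ≤ V := Finset.sum_nonneg fun j _ => hv0 j
  have hU0 : 0 ≤ U := Finset.sum_nonneg fun j _ => hw0 j
  have hs2 : (∑ j, ∫ x, ‖Y j x‖ ^ 2 ∂ρ) ^ (q / 2) ≤ 4 ^ (q / 2) * V ^ (q / 2) := by
    rw [← Real.mul_rpow (by norm_num) hV0]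
    refine Real.rpow_le_rpow (Finset.sum_nonneg fun j _ => integral_nonneg fun _ => by positivity)
      ?_ (by positivity)
    rw [hV, Finset.mul_sum]
    exact Finset.sum_le_sum fun j _ => hY2 j
  have hsq : ∑ j, ∫ x, ‖Y j x‖ ^ q ∂ρ ≤ 2 ^ q * (U + V ^ (q / 2)) := by
    calc ∑ j, ∫ x, ‖Y j x‖ ^ q ∂ρ ≤ ∑ j, 2 ^ q * (w j + v j ^ (q / 2)) :=
          Finset.sum_le_sum fun j _ => hYq j
      _ = 2 ^ q * (U + ∑ j, v j ^ (q / 2)) := by
          rw [← Finset.mul_sum, Finset.sum_add_distrib]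
      _ ≤ _ := by
          refine mul_le_mul_of_nonneg_left ?_ (by positivity)
          linarith [sum_rpow_le Finset.univ v hv0 (by linarith : 1 ≤ q / 2)]
  set P : ℝ := ‖∑ j, c j‖ with hP
  have hP0 : 0 ≤ P ^ q := Real.rpow_nonneg (norm_nonneg _) _
  have hcen2 : ∫ y : Fin m → E, ‖∑ j, Y j (y j)‖ ^ q ∂μ ≤
      C * ((4 ^ (q / 2) + 2 ^ q) * V ^ (q / 2) + 2 ^ q * U) := by
    refine hcen.trans ?_
    refine mul_le_mul_of_nonneg_left ?_ hC0.le
    linarith
  have hYsb : ∀ y : Fin m → E, ‖∑ j, Y j (y j)‖ ≤ m * (2 * M) := by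
    intro y
    refine (norm_sum_le _ _).trans ?_
    refine (Finset.sum_le_sum fun j _ => hYb j (y j)).trans ?_
    simp
  have iY : Integrable (fun y : Fin m → E => ‖∑ j, Y j (y j)‖ ^ q) μ := by
    refine int_bdd (M := (m * (2 * M)) ^ q) ?_ fun y => ?_
    · exact (Finset.measurable_sum _ fun j _ =>
        (hYm j).comp (measurable_pi_apply j)).norm.pow_const q
    · rw [abs_of_nonneg (by positivity)]
      exact Real.rpow_le_rpow (norm_nonneg _) (hYsb y) hq0.le
  calc ∫ y : Fin m → E, ‖∑ j, X j (y j)‖ ^ q ∂μ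
      ≤ ∫ y : Fin m → E, (2 ^ q * (‖∑ j, Y j (y j)‖ ^ q + P ^ q)) ∂μ := by
        apply integral_mono_of_nonneg
        · exact Filter.Eventually.of_forall fun _ => by positivity
        · exact (iY.add (integrable_const _)).const_mul _
        · refine Filter.Eventually.of_forall fun y => ?_
          have e : ∑ j, X j (y j) = ∑ j, Y j (y j) + ∑ j, c j := by
            rw [← Finset.sum_add_distrib]
            refine Finset.sum_congr rfl fun j _ => ?_
            simp only [Y]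
            ring
          simp only
          rw [e]
          exact (Real.rpow_le_rpow (norm_nonneg _) (norm_add_le _ _) hq0.le).trans
            (add_rpow_le hq0.le (norm_nonneg _) (norm_nonneg _))
    _ = 2 ^ q * (∫ y : Fin m → E, ‖∑ j, Y j (y j)‖ ^ q ∂μ + P ^ q) := by
        rw [integral_const_mul, integral_add (f := fun y : Fin m → E => ‖∑ j, Y j (y j)‖ ^ q)
          (g := fun _ => P ^ q) iY (integrable_const _)]
        simp
    _ ≤ 2 ^ q * (C * ((4 ^ (q / 2) + 2 ^ q) * V ^ (q / 2) + 2 ^ q * U) + P ^ q) := by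
        refine mul_le_mul_of_nonneg_left ?_ (by positivity)
        linarith
    _ ≤ _ := by
        have h1 : 0 ≤ V ^ (q / 2) := by positivity
        have h4 : (0 : ℝ) ≤ 4 ^ (q / 2) := by positivity
        have h2 : (0 : ℝ) ≤ 2 ^ q := by positivity
        rw [mul_assoc (2 ^ q)]
        refine mul_le_mul_of_nonneg_left ?_ h2
        have e1 := mul_nonneg (mul_nonneg hC0.le h4) hU0
        have e2 := mul_nonneg (mul_nonneg hC0.le h4) hP0
        have e3 := mul_nonneg (mul_nonneg hC0.le h2) hP0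
        nlinarith

end Pool.Agent.V1181.Ros
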