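import Mathlib
import Pool.Agent.V1181.RosB
import Pool.Agent.Helper390.CovarioA
set_option autoImplicit false

/-! Random translations of the pieces of an extension: the extension operator. -/

namespace Pool.Agent.V1181.RT

open MeasureTheory Set Complex FourierTransform
open scoped ENNReal RealInnerProductSpace

/-- `ℝ^k` -/
abbrev V (k : ℕ) := EuclideanSpace ℝ (Fin k)

/-- the cube `[-1,1]^k` -/
def cube (k : ℕ) : Set (V k) := {ξ | ∀ i, |ξ i| ≤ 1}

/-- the extension operator of the truncated paraboloid -/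
noncomputable def ext {k : ℕ} (f : V k → ℂ) (x : V k) (t : ℝ) : ℂ :=
  ∫ ξ in cube k, f ξ * cexp (((2 * Real.pi * (⟪ξ, x⟫ + ‖ξ‖ ^ 2 * t) : ℝ) : ℂ) * I)

lemma cube_meas (k : ℕ) : MeasurableSet (cube k) := by
  have : cube k = ⋂ i, {ξ : V k | |ξ i| ≤ 1} := by
    ext ξ; simp [cube]
  rw [this]
  refine MeasurableSet.iInter fun i => ?_
  have hc : Continuous fun ξ : V k => |ξ i| := by fun_prop
  exact (isClosed_le hc continuous_const).measurableSet

lemma cube_bdd (k : ℕ) : cube k ⊆ Metric.closedBall (0 : V k) k := by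
  intro ξ hξ
  rw [mem_closedBall_zero_iff, EuclideanSpace.norm_eq]
  have h1 : ∑ i, ‖ξ i‖ ^ 2 ≤ (k : ℝ) ^ 2 := by
    calc ∑ i, ‖ξ i‖ ^ 2 ≤ ∑ _i : Fin k, (1 : ℝ) := by
          refine Finset.sum_le_sum fun i _ => ?_
          rw [Real.norm_eq_abs]
          exact pow_le_one₀ (abs_nonneg _) (hξ i)
      _ = k := by simp
      _ ≤ (k : ℝ) ^ 2 := by
          rcases Nat.eq_zero_or_pos k with h | h
          · subst h; simp
          · have : (1 : ℝ) ≤ k := by exact_mod_cast h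
            nlinarith
  calc √(∑ i, ‖ξ i‖ ^ 2) ≤ √((k : ℝ) ^ 2) := Real.sqrt_le_sqrt h1
    _ = k := Real.sqrt_sq (Nat.cast_nonneg k)

lemma cube_fin (k : ℕ) : volume (cube k) < ∞ :=
  (measure_mono (cube_bdd k)).trans_lt measure_closedBall_lt_top

section

variable {k : ℕ} {f : V k → ℂ}

lemma phase_norm (ξ x : V k) (t : ℝ) :
    ‖cexp (((2 * Real.pi * (⟪ξ, x⟫ + ‖ξ‖ ^ 2 * t) : ℝ) : ℂ) * I)‖ = 1 :=
  Complex.norm_exp_ofReal_mul_I _

lemma phase_cont : Continuous fun p : V k × (V k × ℝ) =>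
    cexp (((2 * Real.pi * (⟪p.1, p.2.1⟫ + ‖p.1‖ ^ 2 * p.2.2) : ℝ) : ℂ) * I) := by
  fun_prop

lemma integrable_piece (hf : Measurable f) {M : ℝ} (hM : ∀ ξ, ‖f ξ‖ ≤ M) (x : V k) (t : ℝ) :
    Integrable (fun ξ => f ξ * cexp (((2 * Real.pi * (⟪ξ, x⟫ + ‖ξ‖ ^ 2 * t) : ℝ) : ℂ) * I))
      (volume.restrict (cube k)) := by
  have : IsFiniteMeasure (volume.restrict (cube k)) := ⟨by
    rw [Measure.restrict_apply_univ]; exact cube_fin k⟩
  refine Integrable.of_bound (C := M) ?_ (Filter.Eventually.of_forall fun ξ => ?_)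
  · refine (hf.mul ?_).aestronglyMeasurable
    exact (phase_cont.comp (by fun_prop : Continuous fun ξ : V k => (ξ, (x, t)))).measurable
  · rw [norm_mul, phase_norm, mul_one]
    exact hM ξ

lemma ext_cont (hf : Measurable f) {M : ℝ} (hM : ∀ ξ, ‖f ξ‖ ≤ M) :
    Continuous fun p : V k × ℝ => ext f p.1 p.2 := by
  have : IsFiniteMeasure (volume.restrict (cube k)) := ⟨by
    rw [Measure.restrict_apply_univ]; exact cube_fin k⟩
  unfold ext
  refine continuous_of_dominated (bound := fun _ => M) ?_ ?_ (integrable_const _) ?_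
  · intro p
    exact (integrable_piece hf hM p.1 p.2).aestronglyMeasurable
  · intro p
    refine Filter.Eventually.of_forall fun ξ => ?_
    rw [norm_mul, phase_norm, mul_one]
    exact hM ξ
  · refine Filter.Eventually.of_forall fun ξ => ?_
    exact continuous_const.mul (phase_cont.comp
      (by fun_prop : Continuous fun p : V k × ℝ => (ξ, (p.1, p.2))))

lemma ind_bdd {M : ℝ} (hM : ∀ ξ, ‖f ξ‖ ≤ M) (S : Set (V k)) : ∀ ξ, ‖S.indicator f ξ‖ ≤ M :=
  fun ξ => (norm_indicator_le_norm_self _ _).trans (hM ξ)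

lemma ext_le (S : Set (V k)) (hS : MeasurableSet S) (x : V k) (t : ℝ) :
    ‖ext (S.indicator f) x t‖ₑ ≤ ∫⁻ ξ in cube k ∩ S, ‖f ξ‖ₑ := by
  unfold ext
  refine (enorm_integral_le_lintegral_enorm _).trans (le_of_eq ?_)
  have h1 : ∀ ξ : V k, ‖S.indicator f ξ *
      cexp (((2 * Real.pi * (⟪ξ, x⟫ + ‖ξ‖ ^ 2 * t) : ℝ) : ℂ) * I)‖ₑ =
      S.indicator (fun ξ => ‖f ξ‖ₑ) ξ := by
    intro ξ
    rw [enorm_mul]
    have h2 : ‖cexp (((2 * Real.pi * (⟪ξ, x⟫ + ‖ξ‖ ^ 2 * t) : ℝ) : ℂ) * I)‖ₑ = 1 := by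
      rw [← ofReal_norm, phase_norm, ENNReal.ofReal_one]
    rw [h2, mul_one, enorm_indicator_eq_indicator_enorm]
  rw [lintegral_congr h1, lintegral_indicator hS, Measure.restrict_restrict hS, inter_comm]

lemma lintegral_of_bdd {X : Type*} [MeasurableSpace X] {μ : Measure X} (g : X → ℂ) (e : ℝ)
    (he : 0 ≤ e) (hi : Integrable (fun x => ‖g x‖ ^ e) μ) :
    ∫⁻ x, ‖g x‖ₑ ^ e ∂μ = ENNReal.ofReal (∫ x, ‖g x‖ ^ e ∂μ) := by
  rw [ofReal_integral_eq_lintegral_ofReal hi
    (Filter.Eventually.of_forall fun x => Real.rpow_nonneg (norm_nonneg _) _)]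
  refine lintegral_congr fun x => ?_
  rw [← ofReal_norm, ENNReal.ofReal_rpow_of_nonneg (norm_nonneg _) he]

/-- Plancherel at a fixed time -/
lemma ext_L2 (hf : Measurable f) {M : ℝ} (hM : ∀ ξ, ‖f ξ‖ ≤ M) (S : Set (V k))
    (hS : MeasurableSet S) (t : ℝ) :
    ∫⁻ x, ‖ext (S.indicator f) x t‖ₑ ^ (2 : ℝ) = ∫⁻ ξ in cube k ∩ S, ‖f ξ‖ₑ ^ (2 : ℝ) := by
  set h : V k → ℂ := (cube k ∩ S).indicator
    (fun ξ => f ξ * cexp (((2 * Real.pi * (‖ξ‖ ^ 2 * t) : ℝ) : ℂ) * I)) with hh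
  have hDm : MeasurableSet (cube k ∩ S) := (cube_meas k).inter hS
  have hDf : volume (cube k ∩ S) < ∞ := (measure_mono inter_subset_left).trans_lt (cube_fin k)
  have hphm : Measurable fun ξ : V k => cexp (((2 * Real.pi * (‖ξ‖ ^ 2 * t) : ℝ) : ℂ) * I) :=
    (by fun_prop : Continuous fun ξ : V k =>
      cexp (((2 * Real.pi * (‖ξ‖ ^ 2 * t) : ℝ) : ℂ) * I)).measurable
  have hhm : Measurable h := (hf.mul hphm).indicator hDm
  have hnorm : ∀ ξ, ‖h ξ‖ = (cube k ∩ S).indicator (fun ξ => ‖f ξ‖) ξ := by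
    intro ξ
    rw [hh, norm_indicator_eq_indicator_norm]
    congr 1
    ext ξ
    rw [norm_mul, Complex.norm_exp_ofReal_mul_I, mul_one]
  have hL : ∀ p : ℝ≥0∞, MemLp h p := by
    intro p
    have h1 : MemLp (fun _ : V k => M) p (volume.restrict (cube k ∩ S)) := by
      have : IsFiniteMeasure (volume.restrict (cube k ∩ S)) := ⟨by
        rw [Measure.restrict_apply_univ]; exact hDf⟩
      exact memLp_const M
    rw [hh, memLp_indicator_iff_restrict hDm]
    refine h1.mono (hf.mul hphm).aestronglyMeasurable (Filter.Eventually.of_forall fun ξ => ?_)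
    rw [norm_mul, Complex.norm_exp_ofReal_mul_I, mul_one, Real.norm_eq_abs]
    exact (hM ξ).trans (le_abs_self _)
  have hint : Integrable h := memLp_one_iff_integrable.1 (hL 1)
  obtain ⟨hm2, hpl⟩ := Pool.Agent.Helper390.Covario.plancherel hint (hL 2)
  have hF : ∀ x : V k, ext (S.indicator f) x t = 𝓕 h (-x) := by
    intro x
    rw [Real.fourier_eq', ext, ← integral_indicator (cube_meas k)]
    apply integral_congr_ae
    refine Filter.Eventually.of_forall fun ξ => ?_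
    simp only [hh, smul_eq_mul]
    by_cases h1 : ξ ∈ cube k
    · by_cases h2 : ξ ∈ S
      · rw [indicator_of_mem h1, indicator_of_mem h2, indicator_of_mem (show ξ ∈ cube k ∩ S from ⟨h1, h2⟩), mul_comm (f ξ),
          mul_comm (f ξ), ← mul_assoc, ← Complex.exp_add]
        congr 2
        rw [inner_neg_right]
        push_cast
        ring
      · rw [indicator_of_mem h1, indicator_of_notMem h2,
          indicator_of_notMem (show ξ ∉ cube k ∩ S from fun h => h2 h.2)]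
        simp
    · rw [indicator_of_notMem h1, indicator_of_notMem (show ξ ∉ cube k ∩ S from fun h => h1 h.1)]
      simp
  have hi2 : Integrable (fun ξ => ‖𝓕 h ξ‖ ^ (2 : ℝ)) := by
    have := hm2.integrable_norm_pow (by norm_num)
    refine this.congr (Filter.Eventually.of_forall fun x => ?_)
    simp
  have hi3 : Integrable (fun ξ => ‖h ξ‖ ^ (2 : ℝ)) := by
    have := (hL 2).integrable_norm_pow (by norm_num)
    refine this.congr (Filter.Eventually.of_forall fun x => ?_)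
    simp
  calc ∫⁻ x, ‖ext (S.indicator f) x t‖ₑ ^ (2 : ℝ) = ∫⁻ x : V k, ‖𝓕 h (-x)‖ₑ ^ (2 : ℝ) :=
        lintegral_congr fun x => by rw [hF x]
    _ = ∫⁻ x : V k, ‖𝓕 h x‖ₑ ^ (2 : ℝ) :=
        lintegral_neg_eq_self (fun x : V k => ‖𝓕 h x‖ₑ ^ (2 : ℝ))
    _ = ENNReal.ofReal (∫ x : V k, ‖𝓕 h x‖ ^ (2 : ℝ)) :=
        lintegral_of_bdd _ 2 (by norm_num) hi2
    _ = ENNReal.ofReal (∫ x : V k, ‖h x‖ ^ (2 : ℝ)) := by
        congr 1
        have e1 : ∀ u : V k → ℂ, ∫ x, ‖u x‖ ^ (2 : ℝ) = ∫ x, ‖u x‖ ^ 2 := fun u =>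
          integral_congr_ae (Filter.Eventually.of_forall fun x => by simp)
        rw [e1, e1, hpl]
    _ = ∫⁻ x : V k, ‖h x‖ₑ ^ (2 : ℝ) := (lintegral_of_bdd _ 2 (by norm_num) hi3).symm
    _ = ∫⁻ x : V k, (cube k ∩ S).indicator (fun ξ => ‖f ξ‖ₑ ^ (2 : ℝ)) x := by
        refine lintegral_congr fun ξ => ?_
        rw [← ofReal_norm, hnorm ξ]
        by_cases h1 : ξ ∈ cube k ∩ S
        · rw [indicator_of_mem h1, indicator_of_mem h1, ofReal_norm]
        · rw [indicator_of_notMem h1, indicator_of_notMem h1]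
          simp
    _ = _ := lintegral_indicator hDm _

/-- the pieces add up -/
lemma ext_sum (hf : Measurable f) {M : ℝ} (hM : ∀ ξ, ‖f ξ‖ ≤ M) {m : ℕ} (θ : Fin m → Set (V k))
    (hθ : ∀ j, MeasurableSet (θ j)) (hd : Pairwise (Function.onFun Disjoint θ)) (x : V k) (t : ℝ) :
    ∑ j, ext ((θ j).indicator f) x t = ext ((⋃ j, θ j).indicator f) x t := by
  unfold ext
  rw [← integral_finsetSum]
  · apply integral_congr_ae
    refine Filter.Eventually.of_forall fun ξ => ?_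
    simp only
    rw [← Finset.sum_mul]
    congr 1
    by_cases h : ∃ j, ξ ∈ θ j
    · obtain ⟨j, hj⟩ := h
      rw [indicator_of_mem (mem_iUnion.2 ⟨j, hj⟩), Finset.sum_eq_single j]
      · rw [indicator_of_mem hj]
      · intro i _ hij
        rw [indicator_of_notMem]
        intro hi
        exact Set.disjoint_left.1 (hd hij) hi hj
      · simp
    · rw [indicator_of_notMem (fun h' => h (mem_iUnion.1 h'))]
      push Not at h
      exact Finset.sum_eq_zero fun j _ => indicator_of_notMem (h j) _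
  · intro j _
    exact integrable_piece (hf.indicator (hθ j)) (ind_bdd hM _) x t

end

end Pool.Agent.V1181.RT
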