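import Mathlib
import Pool.Agent.V1181.RTa
set_option autoImplicit false

/-! Random translations: the average of the `q`-th power. -/

namespace Pool.Agent.V1181.RT

open MeasureTheory Set Complex
open scoped ENNReal RealInnerProductSpace

/-- Rosenthal's inequality in `ℝ≥0∞` -/
theorem product_enn {q : ℝ} (hq : 2 ≤ q) : ∃ C : ℝ, 0 < C ∧
    ∀ (E : Type) [MeasurableSpace E] (ρ : Measure E) [IsProbabilityMeasure ρ]
      (m : ℕ) (X : Fin m → E → ℂ), (∀ j, Measurable (X j)) → (∃ M : ℝ, ∀ j v, ‖X j v‖ ≤ M) →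
      ∫⁻ y : Fin m → E, ‖∑ j, X j (y j)‖ₑ ^ q ∂(Measure.pi fun _ => ρ) ≤
        ENNReal.ofReal C * ((∑ j, ∫⁻ v, ‖X j v‖ₑ ^ (2 : ℝ) ∂ρ) ^ (q / 2) +
          ∑ j, ∫⁻ v, ‖X j v‖ₑ ^ q ∂ρ + (∫⁻ v, ‖∑ j, X j v‖ₑ ^ (2 : ℝ) ∂ρ) ^ (q / 2)) := by
  obtain ⟨C, hC0, hC⟩ := Ros.product hq
  have hq0 : 0 < q := by linarith
  refine ⟨C, hC0, ?_⟩
  intro E _ ρ _ m X hX ⟨M, hM⟩
  have hSb : ∀ y : Fin m → E, ‖∑ j, X j (y j)‖ ≤ m * M := by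
    intro y
    refine (norm_sum_le _ _).trans ?_
    refine (Finset.sum_le_sum fun j _ => hM j (y j)).trans ?_
    simp
  have hSb' : ∀ v : E, ‖∑ j, X j v‖ ≤ m * M := fun v => hSb fun _ => v
  have iS : Integrable (fun y : Fin m → E => ‖∑ j, X j (y j)‖ ^ q) (Measure.pi fun _ => ρ) := by
    refine Ros.int_bdd (M := (m * M) ^ q) ?_ fun y => ?_
    · exact (Finset.measurable_sum _ fun j _ =>
        (hX j).comp (measurable_pi_apply j)).norm.pow_const q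
    · rw [abs_of_nonneg (by positivity)]
      exact Real.rpow_le_rpow (norm_nonneg _) (hSb y) hq0.le
  have ie : ∀ (j : Fin m) (e : ℝ), 0 ≤ e → Integrable (fun v => ‖X j v‖ ^ e) ρ := fun j e he =>
    Ros.int_bdd (M := M ^ e) ((hX j).norm.pow_const e) fun v => by
      rw [abs_of_nonneg (by positivity)]; exact Real.rpow_le_rpow (norm_nonneg _) (hM j v) he
  have hsm : Measurable fun v => ∑ j, X j v := Finset.measurable_sum _ fun j _ => hX j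
  have is2 : Integrable (fun v => ‖∑ j, X j v‖ ^ (2 : ℝ)) ρ :=
    Ros.int_bdd (M := (m * M) ^ (2 : ℝ)) (hsm.norm.pow_const 2) fun v => by
      rw [abs_of_nonneg (by positivity)]
      exact Real.rpow_le_rpow (norm_nonneg _) (hSb' v) (by norm_num)
  rw [lintegral_of_bdd _ q hq0.le iS]
  have e2 : ∀ j, ∫⁻ v, ‖X j v‖ₑ ^ (2 : ℝ) ∂ρ = ENNReal.ofReal (∫ v, ‖X j v‖ ^ 2 ∂ρ) := by
    intro j
    rw [lintegral_of_bdd _ 2 (by norm_num) (ie j 2 (by norm_num))]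
    congr 1
    exact integral_congr_ae (Filter.Eventually.of_forall fun v => by simp)
  have eq' : ∀ j, ∫⁻ v, ‖X j v‖ₑ ^ q ∂ρ = ENNReal.ofReal (∫ v, ‖X j v‖ ^ q ∂ρ) := fun j =>
    lintegral_of_bdd _ q hq0.le (ie j q hq0.le)
  have e3 : ∫⁻ v, ‖∑ j, X j v‖ₑ ^ (2 : ℝ) ∂ρ = ENNReal.ofReal (∫ v, ‖∑ j, X j v‖ ^ 2 ∂ρ) := by
    rw [lintegral_of_bdd _ 2 (by norm_num) is2]
    congr 1
    exact integral_congr_ae (Filter.Eventually.of_forall fun v => by simp)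
  have hv0 : ∀ j, 0 ≤ ∫ v, ‖X j v‖ ^ 2 ∂ρ := fun j => integral_nonneg fun _ => by positivity
  have hw0 : ∀ j, 0 ≤ ∫ v, ‖X j v‖ ^ q ∂ρ := fun j => integral_nonneg fun _ => by positivity
  have hs0 : 0 ≤ ∫ v, ‖∑ j, X j v‖ ^ 2 ∂ρ := integral_nonneg fun _ => by positivity
  simp only [e2, eq', e3]
  rw [← ENNReal.ofReal_sum_of_nonneg fun j _ => hv0 j, ← ENNReal.ofReal_sum_of_nonneg fun j _ => hw0 j,
    ENNReal.ofReal_rpow_of_nonneg (Finset.sum_nonneg fun j _ => hv0 j) (by positivity),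
    ENNReal.ofReal_rpow_of_nonneg hs0 (by positivity),
    ← ENNReal.ofReal_add (by positivity) (Finset.sum_nonneg fun j _ => hw0 j),
    ← ENNReal.ofReal_add (by positivity) (by positivity), ← ENNReal.ofReal_mul hC0.le]
  apply ENNReal.ofReal_le_ofReal
  refine (hC E ρ m X hX ⟨M, hM⟩).trans ?_
  refine mul_le_mul_of_nonneg_left ?_ hC0.le
  have h1 : ‖∑ j, ∫ v, X j v ∂ρ‖ ^ q ≤ (∫ v, ‖∑ j, X j v‖ ^ 2 ∂ρ) ^ (q / 2) := by
    have h2 : ∑ j, ∫ v, X j v ∂ρ = ∫ v, ∑ j, X j v ∂ρ := by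
      rw [integral_finsetSum]
      intro j _
      exact Integrable.of_bound (C := M) (hX j).aestronglyMeasurable
        (Filter.Eventually.of_forall fun v => hM j v)
    have h3 := Ros.sq_integral_le ρ (fun v => ∑ j, X j v) hsm (m * M) hSb'
    have h4 : ‖∫ v, ∑ j, X j v ∂ρ‖ ^ q = (‖∫ v, ∑ j, X j v ∂ρ‖ ^ 2) ^ (q / 2) := by
      rw [← Real.rpow_natCast _ 2, ← Real.rpow_mul (norm_nonneg _)]
      congr 1
      push_cast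
      ring
    rw [h2, h4]
    exact Real.rpow_le_rpow (by positivity) h3 (by positivity)
  linarith

section

variable {k : ℕ} (ρ : Measure (V k)) [IsProbabilityMeasure ρ]

lemma conv_int (ψ : V k → ℝ≥0∞) (hψ : Measurable ψ) :
    ∫⁻ x, ∫⁻ v, ψ (x - v) ∂ρ = ∫⁻ x, ψ x := by
  rw [lintegral_lintegral_swap]
  · have h1 : ∀ v : V k, ∫⁻ x, ψ (x - v) = ∫⁻ x, ψ x := fun v => lintegral_sub_right_eq_self ψ v
    simp only [h1, lintegral_const, measure_univ, mul_one]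
  · exact (hψ.comp (measurable_fst.sub measurable_snd)).aemeasurable

omit [IsProbabilityMeasure ρ] in
lemma conv_sup (ψ : V k → ℝ≥0∞) (b : ℝ≥0∞) (hb : ρ ≤ b • (volume : Measure (V k))) (x : V k) :
    ∫⁻ v, ψ (x - v) ∂ρ ≤ b * ∫⁻ x, ψ x := by
  calc ∫⁻ v, ψ (x - v) ∂ρ ≤ ∫⁻ v, ψ (x - v) ∂(b • (volume : Measure (V k))) :=
        lintegral_mono' hb le_rfl
    _ = b * ∫⁻ v, ψ (x - v) := by rw [lintegral_smul_measure, smul_eq_mul]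
    _ = b * ∫⁻ x, ψ x := by rw [lintegral_sub_left_eq_self]

lemma conv_pow (ψ : V k → ℝ≥0∞) (hψ : Measurable ψ) (b : ℝ≥0∞)
    (hb : ρ ≤ b • (volume : Measure (V k))) {s : ℝ} (hs : 1 ≤ s) :
    ∫⁻ x, (∫⁻ v, ψ (x - v) ∂ρ) ^ s ≤ (b * ∫⁻ x, ψ x) ^ (s - 1) * ∫⁻ x, ψ x := by
  have hm : Measurable fun x => ∫⁻ v, ψ (x - v) ∂ρ :=
    Measurable.lintegral_prod_right (hψ.comp (measurable_fst.sub measurable_snd))
  calc ∫⁻ x, (∫⁻ v, ψ (x - v) ∂ρ) ^ s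
      ≤ ∫⁻ x, (b * ∫⁻ x, ψ x) ^ (s - 1) * ∫⁻ v, ψ (x - v) ∂ρ := by
        apply lintegral_mono
        intro x
        have h1 : (∫⁻ v, ψ (x - v) ∂ρ) ^ s =
            (∫⁻ v, ψ (x - v) ∂ρ) ^ (s - 1) * ∫⁻ v, ψ (x - v) ∂ρ := by
          nth_rewrite 3 [← ENNReal.rpow_one (∫⁻ v, ψ (x - v) ∂ρ)]
          rw [← ENNReal.rpow_add_of_nonneg _ _ (by linarith) zero_le_one]
          congr 1
          ring
        simp only
        rw [h1]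
        gcongr
        exact conv_sup ρ ψ b hb x
    _ = (b * ∫⁻ x, ψ x) ^ (s - 1) * ∫⁻ x, ∫⁻ v, ψ (x - v) ∂ρ := lintegral_const_mul _ hm
    _ = _ := by rw [conv_int ρ ψ hψ]

/-- the average over the translations -/
theorem average {q : ℝ} (hq : 2 ≤ q) {C : ℝ} (hC : ∀ (E : Type) [MeasurableSpace E]
      (ρ : Measure E) [IsProbabilityMeasure ρ]
      (m : ℕ) (X : Fin m → E → ℂ), (∀ j, Measurable (X j)) → (∃ M : ℝ, ∀ j v, ‖X j v‖ ≤ M) →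
      ∫⁻ y : Fin m → E, ‖∑ j, X j (y j)‖ₑ ^ q ∂(Measure.pi fun _ => ρ) ≤
        ENNReal.ofReal C * ((∑ j, ∫⁻ v, ‖X j v‖ₑ ^ (2 : ℝ) ∂ρ) ^ (q / 2) +
          ∑ j, ∫⁻ v, ‖X j v‖ₑ ^ q ∂ρ + (∫⁻ v, ‖∑ j, X j v‖ₑ ^ (2 : ℝ) ∂ρ) ^ (q / 2)))
    (b : ℝ≥0∞) (hb : ρ ≤ b • (volume : Measure (V k))) {m : ℕ} (φ : Fin m → V k → ℂ)
    (hφ : ∀ j, Measurable (φ j)) {M : ℝ} (hM : ∀ j x, ‖φ j x‖ ≤ M) :
    ∫⁻ x, ∫⁻ y : Fin m → V k, ‖∑ j, φ j (x - y j)‖ₑ ^ q ∂(Measure.pi fun _ => ρ) ≤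
      ENNReal.ofReal C * (((b * (∑ j, ∫⁻ x, ‖φ j x‖ₑ ^ (2 : ℝ))) ^ (q / 2 - 1) *
          (∑ j, ∫⁻ x, ‖φ j x‖ₑ ^ (2 : ℝ)) + (∑ j, ∫⁻ x, ‖φ j x‖ₑ ^ q)) +
        (b * (∫⁻ x, ‖∑ j, φ j x‖ₑ ^ (2 : ℝ))) ^ (q / 2 - 1) *
          (∫⁻ x, ‖∑ j, φ j x‖ₑ ^ (2 : ℝ))) := by
  have hq0 : 0 < q := by linarith
  let ψ1 : V k → ℝ≥0∞ := fun x => ∑ j, ‖φ j x‖ₑ ^ (2 : ℝ)
  let ψ2 : V k → ℝ≥0∞ := fun x => ∑ j, ‖φ j x‖ₑ ^ q
  let ψ3 : V k → ℝ≥0∞ := fun x => ‖∑ j, φ j x‖ₑ ^ (2 : ℝ)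
  have h1m : ∀ (e : ℝ) (j : Fin m), Measurable fun x => ‖φ j x‖ₑ ^ e := fun e j =>
    (hφ j).enorm.pow_const e
  have hψ1 : Measurable ψ1 := Finset.measurable_sum _ fun j _ => h1m 2 j
  have hψ2 : Measurable ψ2 := Finset.measurable_sum _ fun j _ => h1m q j
  have hψ3 : Measurable ψ3 := (Finset.measurable_sum _ fun j _ => hφ j).enorm.pow_const 2
  have hI1 : ∫⁻ x, ψ1 x = ∑ j, ∫⁻ x, ‖φ j x‖ₑ ^ (2 : ℝ) :=
    lintegral_finsetSum _ fun j _ => h1m 2 j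
  have hI2 : ∫⁻ x, ψ2 x = ∑ j, ∫⁻ x, ‖φ j x‖ₑ ^ q := lintegral_finsetSum _ fun j _ => h1m q j
  have hmc : ∀ ψ : V k → ℝ≥0∞, Measurable ψ → Measurable fun x => ∫⁻ v, ψ (x - v) ∂ρ :=
    fun ψ hψ => Measurable.lintegral_prod_right (hψ.comp (measurable_fst.sub measurable_snd))
  calc ∫⁻ x, ∫⁻ y : Fin m → V k, ‖∑ j, φ j (x - y j)‖ₑ ^ q ∂(Measure.pi fun _ => ρ)
      ≤ ∫⁻ x, ENNReal.ofReal C * (((∫⁻ v, ψ1 (x - v) ∂ρ) ^ (q / 2) + ∫⁻ v, ψ2 (x - v) ∂ρ) +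
          (∫⁻ v, ψ3 (x - v) ∂ρ) ^ (q / 2)) := by
        apply lintegral_mono
        intro x
        have hx : ∀ j, Measurable fun v => φ j (x - v) := fun j =>
          (hφ j).comp (measurable_const.sub measurable_id)
        have h := hC (V k) ρ m (fun j v => φ j (x - v)) hx ⟨M, fun j v => hM j _⟩
        refine h.trans (le_of_eq ?_)
        congr 3
        · congr 1
          rw [← lintegral_finsetSum _ fun j _ => (hx j).enorm.pow_const 2]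
        · rw [← lintegral_finsetSum _ fun j _ => (hx j).enorm.pow_const q]
    _ = ENNReal.ofReal C * (((∫⁻ x, (∫⁻ v, ψ1 (x - v) ∂ρ) ^ (q / 2)) +
          (∫⁻ x, ∫⁻ v, ψ2 (x - v) ∂ρ)) + (∫⁻ x, (∫⁻ v, ψ3 (x - v) ∂ρ) ^ (q / 2))) := by
        have a1 := lintegral_add_left (μ := (volume : Measure (V k)))
          (((hmc ψ1 hψ1).pow_const (q / 2)).add (hmc ψ2 hψ2))
          (fun x => (∫⁻ v, ψ3 (x - v) ∂ρ) ^ (q / 2))
        have a2 := lintegral_add_left (μ := (volume : Measure (V k)))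
          ((hmc ψ1 hψ1).pow_const (q / 2)) (fun x => ∫⁻ v, ψ2 (x - v) ∂ρ)
        rw [lintegral_const_mul' _ _ ENNReal.ofReal_ne_top]
        congr 1
        refine a1.trans ?_
        congr 1
    _ ≤ _ := by
        rw [conv_int ρ ψ2 hψ2, hI2, ← hI1]
        refine mul_le_mul_right (add_le_add (add_le_add ?_ le_rfl) ?_) _
        · exact conv_pow ρ ψ1 hψ1 b hb (by linarith)
        · exact conv_pow ρ ψ3 hψ3 b hb (by linarith)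

end

end Pool.Agent.V1181.RT
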