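import Mathlib
import Pool.Agent.V1181.RTb
set_option autoImplicit false

/-! Random translations: the final estimate. -/

namespace Pool.Agent.V1181.RT

open MeasureTheory Set Complex
open scoped ENNReal RealInnerProductSpace

lemma enn_sum_rpow {ι : Type} (t : Finset ι) (v : ι → ℝ≥0∞) {s : ℝ} (hs : 1 ≤ s) :
    ∑ i ∈ t, v i ^ s ≤ (∑ i ∈ t, v i) ^ s := by
  have key : ∀ x : ℝ≥0∞, x ^ s = x ^ (s - 1) * x := by
    intro x
    nth_rewrite 3 [← ENNReal.rpow_one x]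
    rw [← ENNReal.rpow_add_of_nonneg _ _ (by linarith) zero_le_one]
    congr 1
    ring
  calc ∑ i ∈ t, v i ^ s ≤ ∑ i ∈ t, (∑ i ∈ t, v i) ^ (s - 1) * v i := by
        refine Finset.sum_le_sum fun i hi => ?_
        rw [key (v i)]
        gcongr
        exact Finset.single_le_sum (f := v) (fun j _ => zero_le) hi
    _ = (∑ i ∈ t, v i) ^ (s - 1) * ∑ i ∈ t, v i := by rw [Finset.mul_sum]
    _ = _ := (key _).symm

lemma holder {k : ℕ} (f : V k → ℂ) (hf : Measurable f) (S : Set (V k)) {a p : ℝ} (ha : 0 < a)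
    (hap : a ≤ p) :
    ∫⁻ ξ in S, ‖f ξ‖ₑ ^ a ≤ (∫⁻ ξ in S, ‖f ξ‖ₑ ^ p) ^ (a / p) * volume S ^ (1 - a / p) := by
  have hp : 0 < p := by linarith
  have h := eLpNorm'_le_eLpNorm'_mul_rpow_measure_univ (μ := volume.restrict S) (f := f) ha hap
    hf.aestronglyMeasurable
  unfold eLpNorm' at h
  rw [Measure.restrict_apply_univ] at h
  have h2 := ENNReal.rpow_le_rpow h ha.le
  rw [← ENNReal.rpow_mul, ENNReal.mul_rpow_of_nonneg _ _ ha.le, ← ENNReal.rpow_mul,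
    ← ENNReal.rpow_mul] at h2
  have e1 : 1 / a * a = 1 := by field_simp
  have e2 : 1 / p * a = a / p := by ring
  have e3 : (1 / a - 1 / p) * a = 1 - a / p := by field_simp
  rw [e1, e2, e3, ENNReal.rpow_one] at h2
  exact h2

/-- one piece -/
lemma piece {k : ℕ} (f : V k → ℂ) (hf : Measurable f) (S : Set (V k)) {p q : ℝ} (hp : 2 ≤ p)
    (hpq : p ≤ q) :
    (∫⁻ ξ in S, ‖f ξ‖ₑ) ^ (q - 2) * ∫⁻ ξ in S, ‖f ξ‖ₑ ^ (2 : ℝ) ≤
      (∫⁻ ξ in S, ‖f ξ‖ₑ ^ p) ^ (q / p) * volume S ^ (q - 1 - q / p) := by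
  have hp0 : 0 < p := by linarith
  have hq2 : 0 ≤ q - 2 := by linarith
  have h1 := holder f hf S (a := 1) one_pos (by linarith : (1 : ℝ) ≤ p)
  have h2 := holder f hf S (a := 2) two_pos hp
  simp only [ENNReal.rpow_one] at h1
  set P := ∫⁻ ξ in S, ‖f ξ‖ₑ ^ p
  set v := volume S
  have hle1 : 1 / p ≤ 1 := by rw [div_le_one hp0]; linarith
  have hle2 : 2 / p ≤ 1 := by rw [div_le_one hp0]; linarith
  calc (∫⁻ ξ in S, ‖f ξ‖ₑ) ^ (q - 2) * ∫⁻ ξ in S, ‖f ξ‖ₑ ^ (2 : ℝ)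
      ≤ (P ^ (1 / p) * v ^ (1 - 1 / p)) ^ (q - 2) * (P ^ (2 / p) * v ^ (1 - 2 / p)) := by
        gcongr
    _ = (P ^ (1 / p * (q - 2)) * P ^ (2 / p)) * (v ^ ((1 - 1 / p) * (q - 2)) * v ^ (1 - 2 / p)) := by
        rw [ENNReal.mul_rpow_of_nonneg _ _ hq2, ← ENNReal.rpow_mul, ← ENNReal.rpow_mul]
        ring
    _ = _ := by
        rw [← ENNReal.rpow_add_of_nonneg _ _ (by positivity) (by positivity),
          ← ENNReal.rpow_add_of_nonneg _ _ (mul_nonneg (by linarith) hq2) (by linarith)]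
        congr 2
        · field_simp; ring
        · field_simp; ring

lemma sum_pieces {k m : ℕ} (θ : Fin m → Set (V k)) (hθ : ∀ j, MeasurableSet (θ j))
    (hd : Pairwise (Function.onFun Disjoint θ)) (g : V k → ℝ≥0∞) :
    ∑ j, ∫⁻ ξ in cube k ∩ θ j, g ξ ≤ ∫⁻ ξ in cube k, g ξ := by
  have h1 : ∫⁻ ξ in ⋃ j, cube k ∩ θ j, g ξ = ∑ j, ∫⁻ ξ in cube k ∩ θ j, g ξ := by
    rw [lintegral_iUnion (fun j => (cube_meas k).inter (hθ j)), tsum_fintype]
    intro i j hij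
    exact (hd hij).mono inter_subset_right inter_subset_right
  rw [← h1]
  exact lintegral_mono_set (iUnion_subset fun j => inter_subset_left)

lemma ext_cont_x {k : ℕ} {f : V k → ℂ} (hf : Measurable f) {M : ℝ} (hM : ∀ ξ, ‖f ξ‖ ≤ M) (t : ℝ) :
    Continuous fun x : V k => ext f x t := by
  have h := ext_cont hf hM
  have h2 : Continuous fun x : V k => (x, t) := Continuous.prodMk_left t
  have h3 := Continuous.comp h h2
  exact h3

lemma ind_cont {k : ℕ} {f : V k → ℂ} (hf : Measurable f) {M : ℝ} (hM : ∀ ξ, ‖f ξ‖ ≤ M)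
    (S : Set (V k)) (hS : MeasurableSet S) (t : ℝ) :
    Continuous fun x : V k => ext (S.indicator f) x t := by
  have h1 : Measurable (S.indicator f) := hf.indicator hS
  have h2 : ∀ ξ, ‖S.indicator f ξ‖ ≤ M := ind_bdd hM S
  exact ext_cont_x h1 h2 t

lemma ext_bdd {k : ℕ} {f : V k → ℂ} {M : ℝ} (hM : ∀ ξ, ‖f ξ‖ ≤ M) (x : V k) (t : ℝ) :
    ‖ext f x t‖ ≤ M * (volume (cube k)).toReal := by
  have : IsFiniteMeasure (volume.restrict (cube k)) := ⟨by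
    rw [Measure.restrict_apply_univ]; exact cube_fin k⟩
  have h1 : ‖ext f x t‖ ≤ M * (volume.restrict (cube k)).real univ := by
    unfold ext
    refine norm_integral_le_of_norm_le_const (Filter.Eventually.of_forall fun ξ => ?_)
    rw [norm_mul, phase_norm, mul_one]
    exact hM ξ
  rw [measureReal_def, Measure.restrict_apply_univ] at h1
  exact h1

/-- the `L^q` norm of one piece -/
lemma Lq_piece {k : ℕ} {A' e κ p q r : ℝ} {f : V k → ℂ} (hf : Measurable f) {M : ℝ}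
    (hM : ∀ ξ, ‖f ξ‖ ≤ M) (hp : 2 ≤ p) (hpq : p ≤ q) (he : e = q - 1 - q / p) (he0 : 0 ≤ e)
    (hA0 : 0 ≤ A') (hr0 : 0 < r) (hκ : κ = r ^ (-((k : ℝ) / 2 * e))) (S : Set (V k))
    (hS : MeasurableSet S) (hv : volume S ≤ ENNReal.ofReal (A' * r ^ (-((k : ℝ) / 2)))) (t : ℝ) :
    ∫⁻ x, ‖ext (S.indicator f) x t‖ₑ ^ q ≤
      (∫⁻ ξ in cube k ∩ S, ‖f ξ‖ₑ ^ p) ^ (q / p) * ENNReal.ofReal (A' ^ e * κ) := by
  have hcont : Continuous fun x : V k => ext (S.indicator f) x t := ind_cont hf hM S hS t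
  have h1 : ∫⁻ x, ‖ext (S.indicator f) x t‖ₑ ^ q ≤ (∫⁻ ξ in cube k ∩ S, ‖f ξ‖ₑ) ^ (q - 2) *
      ∫⁻ ξ in cube k ∩ S, ‖f ξ‖ₑ ^ (2 : ℝ) := by
    rw [← ext_L2 hf hM S hS t, ← lintegral_const_mul _ (hcont.measurable.enorm.pow_const 2)]
    apply lintegral_mono
    intro x
    have h2 : ‖ext (S.indicator f) x t‖ₑ ^ q =
        ‖ext (S.indicator f) x t‖ₑ ^ (q - 2) * ‖ext (S.indicator f) x t‖ₑ ^ (2 : ℝ) := by
      rw [← ENNReal.rpow_add_of_nonneg _ _ (by linarith) (by norm_num)]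
      congr 1
      ring
    simp only
    rw [h2]
    exact mul_le_mul_left (ENNReal.rpow_le_rpow (ext_le S hS x t) (by linarith)) _
  refine h1.trans ((piece f hf (cube k ∩ S) hp hpq).trans ?_)
  refine mul_le_mul_right ?_ _
  have h3 : volume (cube k ∩ S) ≤ ENNReal.ofReal (A' * r ^ (-((k : ℝ) / 2))) :=
    (measure_mono inter_subset_right).trans hv
  rw [← he]
  calc volume (cube k ∩ S) ^ e ≤ ENNReal.ofReal (A' * r ^ (-((k : ℝ) / 2))) ^ e :=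
        ENNReal.rpow_le_rpow h3 he0
    _ = ENNReal.ofReal (A' ^ e * κ) := by
        rw [ENNReal.ofReal_rpow_of_nonneg (by positivity) he0,
          Real.mul_rpow hA0 (by positivity), ← Real.rpow_mul hr0.le]
        congr 2
        rw [hκ]
        congr 1
        ring

/-- the term with the square function -/
lemma square_term {k : ℕ} {B' c e κ p q r : ℝ} {b n2 P : ℝ≥0∞} (hp : 2 ≤ p) (hpq : p ≤ q)
    (he : e = q - 1 - q / p) (hB0 : 0 ≤ B') (hc0 : 0 ≤ c) (hr : 1 ≤ r)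
    (hκ : κ = r ^ (-((k : ℝ) / 2 * e))) (hb : b = ENNReal.ofReal (B' * r ^ (-(k : ℝ))))
    (hn : n2 ≤ P ^ (2 / p) * ENNReal.ofReal c ^ (1 - 2 / p)) :
    (b * n2) ^ (q / 2 - 1) * n2 ≤
      P ^ (q / p) * ENNReal.ofReal (B' ^ (q / 2 - 1) * c ^ ((1 - 2 / p) * (q / 2)) * κ) := by
  have hr0 : 0 < r := by linarith
  have hp0 : 0 < p := by linarith
  have hq0 : 0 < q := by linarith
  have hκ0 : 0 < κ := by rw [hκ]; positivity
  have hle2 : 2 / p ≤ 1 := by rw [div_le_one hp0]; linarith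
  have hqp : 1 ≤ q / p := by rw [le_div_iff₀ hp0]; linarith
  have hn2P : n2 ^ (q / 2) ≤ P ^ (q / p) * ENNReal.ofReal (c ^ ((1 - 2 / p) * (q / 2))) := by
    have h2 := ENNReal.rpow_le_rpow hn (by positivity : 0 ≤ q / 2)
    rw [ENNReal.mul_rpow_of_nonneg _ _ (by positivity), ← ENNReal.rpow_mul, ← ENNReal.rpow_mul,
      ENNReal.ofReal_rpow_of_nonneg hc0 (mul_nonneg (by linarith) (by positivity))] at h2
    have e1 : 2 / p * (q / 2) = q / p := by field_simp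
    rw [e1] at h2
    exact h2
  have hq21 : 0 ≤ q / 2 - 1 := by linarith
  have h1 : (b * n2) ^ (q / 2 - 1) * n2 = b ^ (q / 2 - 1) * n2 ^ (q / 2) := by
    rw [ENNReal.mul_rpow_of_nonneg _ _ hq21, mul_assoc]
    congr 1
    nth_rewrite 2 [← ENNReal.rpow_one n2]
    rw [← ENNReal.rpow_add_of_nonneg _ _ hq21 zero_le_one]
    congr 1
    ring
  have h2 : b ^ (q / 2 - 1) ≤ ENNReal.ofReal (B' ^ (q / 2 - 1) * κ) := by
    rw [hb, ENNReal.ofReal_rpow_of_nonneg (by positivity) hq21,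
      Real.mul_rpow hB0 (by positivity), ← Real.rpow_mul hr0.le]
    apply ENNReal.ofReal_le_ofReal
    refine mul_le_mul_of_nonneg_left ?_ (by positivity)
    rw [hκ]
    apply Real.rpow_le_rpow_of_exponent_le hr
    have hk0 : (0 : ℝ) ≤ k := Nat.cast_nonneg k
    have h3 : e ≤ q - 2 := by rw [he]; linarith
    nlinarith [mul_le_mul_of_nonneg_left h3 hk0]
  rw [h1]
  calc b ^ (q / 2 - 1) * n2 ^ (q / 2)
      ≤ ENNReal.ofReal (B' ^ (q / 2 - 1) * κ) *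
        (P ^ (q / p) * ENNReal.ofReal (c ^ ((1 - 2 / p) * (q / 2)))) := mul_le_mul' h2 hn2P
    _ = P ^ (q / p) * (ENNReal.ofReal (B' ^ (q / 2 - 1) * κ) *
        ENNReal.ofReal (c ^ ((1 - 2 / p) * (q / 2)))) := by ring
    _ = _ := by
        rw [← ENNReal.ofReal_mul (by positivity)]
        congr 2
        ring

/-- the bound at a fixed time -/
theorem fixed_time (k : ℕ) (A B p q : ℝ) (hp : 2 ≤ p) (hpq : p ≤ q) :
    ∃ C : ℝ, 0 < C ∧ ∀ r : ℝ, 1 ≤ r → ∀ (m : ℕ) (θ : Fin m → Set (V k)),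
      (∀ j, MeasurableSet (θ j)) → Pairwise (Function.onFun Disjoint θ) →
      (∀ j, volume (θ j) ≤ ENNReal.ofReal (A * r ^ (-((k : ℝ) / 2)))) →
      ∀ (ρ : Measure (V k)) [IsProbabilityMeasure ρ],
      ρ ≤ ENNReal.ofReal (B * r ^ (-(k : ℝ))) • (volume : Measure (V k)) →
      ∀ f : V k → ℂ, Measurable f → (∃ M : ℝ, ∀ ξ, ‖f ξ‖ ≤ M) → ∀ t : ℝ,
      ∫⁻ x, ∫⁻ y : Fin m → V k, ‖∑ j, ext ((θ j).indicator f) (x - y j) t‖ₑ ^ q
          ∂(Measure.pi fun _ => ρ) ≤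
        ENNReal.ofReal (C * r ^ (-((k : ℝ) / 2 * (q - 1 - q / p)))) *
          (∫⁻ ξ in cube k, ‖f ξ‖ₑ ^ p) ^ (q / p) := by
  have hq : 2 ≤ q := by linarith
  have hp0 : 0 < p := by linarith
  have hq0 : 0 < q := by linarith
  obtain ⟨C, hC0, hC⟩ := product_enn hq
  set e : ℝ := q - 1 - q / p with he
  have hqp : 1 ≤ q / p := by rw [le_div_iff₀ hp0]; linarith
  have hqp2 : q / p ≤ q / 2 := by
    rw [div_le_div_iff₀ hp0 two_pos]; nlinarith
  have he0 : 0 ≤ e := by rw [he]; linarith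
  set A' : ℝ := max A 0 with hA'
  set B' : ℝ := max B 0 with hB'
  have hA0 : 0 ≤ A' := le_max_right _ _
  have hB0 : 0 ≤ B' := le_max_right _ _
  set c : ℝ := (volume (cube k)).toReal with hc
  have hc0 : 0 ≤ c := ENNReal.toReal_nonneg
  have hcv : volume (cube k) = ENNReal.ofReal c := (ENNReal.ofReal_toReal (cube_fin k).ne).symm
  set c1 : ℝ := B' ^ (q / 2 - 1) * c ^ ((1 - 2 / p) * (q / 2)) with hc1
  set c2 : ℝ := A' ^ e with hc2
  have hc10 : 0 ≤ c1 := by positivity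
  have hc20 : 0 ≤ c2 := by positivity
  refine ⟨C * (2 * c1 + c2) + 1, by positivity, ?_⟩
  intro r hr m θ hθ hd hv ρ _ hρ f hf ⟨M, hM⟩ t
  have hr0 : 0 < r := by linarith
  set κ : ℝ := r ^ (-((k : ℝ) / 2 * e)) with hκ
  have hκ0 : 0 < κ := by positivity
  set b : ℝ≥0∞ := ENNReal.ofReal (B' * r ^ (-(k : ℝ))) with hb
  have hρb : ρ ≤ b • (volume : Measure (V k)) := by
    refine hρ.trans ?_
    intro s
    rw [Measure.smul_apply, Measure.smul_apply, smul_eq_mul, smul_eq_mul]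
    gcongr
    rw [hb]
    apply ENNReal.ofReal_le_ofReal
    exact mul_le_mul_of_nonneg_right (le_max_left _ _) (by positivity)
  set φ : Fin m → V k → ℂ := fun j x => ext ((θ j).indicator f) x t with hφ
  have hφc : ∀ j, Continuous (φ j) := by
    intro j
    exact ind_cont hf hM (θ j) (hθ j) t
  have hφb : ∀ j x, ‖φ j x‖ ≤ M * c := by
    intro j x
    exact ext_bdd (ind_bdd hM _) x t
  have havg := average ρ hq hC b hρb φ (fun j => (hφc j).measurable) hφb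
  -- the quantities
  set P : ℝ≥0∞ := ∫⁻ ξ in cube k, ‖f ξ‖ₑ ^ p with hP
  set n2 : ℝ≥0∞ := ∫⁻ ξ in cube k, ‖f ξ‖ₑ ^ (2 : ℝ) with hn2
  have hL2 : ∀ j, ∫⁻ x, ‖φ j x‖ₑ ^ (2 : ℝ) = ∫⁻ ξ in cube k ∩ θ j, ‖f ξ‖ₑ ^ (2 : ℝ) := fun j =>
    ext_L2 hf hM (θ j) (hθ j) t
  have hN : ∑ j, ∫⁻ x, ‖φ j x‖ₑ ^ (2 : ℝ) ≤ n2 := by
    simp only [hL2]
    exact sum_pieces θ hθ hd _
  have hN' : ∫⁻ x, ‖∑ j, φ j x‖ₑ ^ (2 : ℝ) ≤ n2 := by
    have h1 : ∀ x, ∑ j, φ j x = ext ((⋃ j, θ j).indicator f) x t := fun x =>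
      ext_sum hf hM θ hθ hd x t
    simp only [h1]
    rw [ext_L2 hf hM _ (MeasurableSet.iUnion hθ) t]
    exact lintegral_mono_set inter_subset_left
  have hUj : ∀ j, ∫⁻ x, ‖φ j x‖ₑ ^ q ≤
      (∫⁻ ξ in cube k ∩ θ j, ‖f ξ‖ₑ ^ p) ^ (q / p) * ENNReal.ofReal (c2 * κ) := by
    intro j
    refine Lq_piece hf hM hp hpq he he0 hA0 hr0 hκ (θ j) (hθ j) ((hv j).trans ?_) t
    apply ENNReal.ofReal_le_ofReal
    exact mul_le_mul_of_nonneg_right (le_max_left _ _) (by positivity)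
  have hU : ∑ j, ∫⁻ x, ‖φ j x‖ₑ ^ q ≤ P ^ (q / p) * ENNReal.ofReal (c2 * κ) := by
    calc ∑ j, ∫⁻ x, ‖φ j x‖ₑ ^ q
        ≤ ∑ j, (∫⁻ ξ in cube k ∩ θ j, ‖f ξ‖ₑ ^ p) ^ (q / p) * ENNReal.ofReal (c2 * κ) :=
          Finset.sum_le_sum fun j _ => hUj j
      _ = (∑ j, (∫⁻ ξ in cube k ∩ θ j, ‖f ξ‖ₑ ^ p) ^ (q / p)) * ENNReal.ofReal (c2 * κ) := by
          rw [Finset.sum_mul]
      _ ≤ _ := by
          gcongr
          refine (enn_sum_rpow Finset.univ _ hqp).trans ?_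
          exact ENNReal.rpow_le_rpow (sum_pieces θ hθ hd _) (by positivity)
  have hmain : (b * n2) ^ (q / 2 - 1) * n2 ≤ P ^ (q / p) * ENNReal.ofReal (c1 * κ) := by
    have h1 := holder f hf (cube k) (a := 2) two_pos hp
    rw [hcv] at h1
    exact square_term hp hpq he hB0 hc0 hr hκ hb h1
  refine havg.trans ?_
  calc ENNReal.ofReal C * (((b * (∑ j, ∫⁻ x, ‖φ j x‖ₑ ^ (2 : ℝ))) ^ (q / 2 - 1) *
          (∑ j, ∫⁻ x, ‖φ j x‖ₑ ^ (2 : ℝ)) + (∑ j, ∫⁻ x, ‖φ j x‖ₑ ^ q)) +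
        (b * (∫⁻ x, ‖∑ j, φ j x‖ₑ ^ (2 : ℝ))) ^ (q / 2 - 1) *
          (∫⁻ x, ‖∑ j, φ j x‖ₑ ^ (2 : ℝ)))
      ≤ ENNReal.ofReal C * (((b * n2) ^ (q / 2 - 1) * n2 + P ^ (q / p) * ENNReal.ofReal (c2 * κ)) +
        (b * n2) ^ (q / 2 - 1) * n2) := by
        have hq21 : 0 ≤ q / 2 - 1 := by linarith
        refine mul_le_mul_right (add_le_add (add_le_add ?_ hU) ?_) _
        · exact mul_le_mul' (ENNReal.rpow_le_rpow (mul_le_mul_right hN _) hq21) hN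
        · exact mul_le_mul' (ENNReal.rpow_le_rpow (mul_le_mul_right hN' _) hq21) hN'
    _ ≤ ENNReal.ofReal C * ((P ^ (q / p) * ENNReal.ofReal (c1 * κ) +
        P ^ (q / p) * ENNReal.ofReal (c2 * κ)) + P ^ (q / p) * ENNReal.ofReal (c1 * κ)) :=
        mul_le_mul_right (add_le_add (add_le_add hmain le_rfl) hmain) _
    _ = ENNReal.ofReal (C * (2 * c1 + c2) * κ) * P ^ (q / p) := by
        rw [← mul_add, ← mul_add, ← ENNReal.ofReal_add (by positivity) (by positivity),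
          ← ENNReal.ofReal_add (by positivity) (by positivity), mul_comm (P ^ (q / p)), ← mul_assoc,
          ← ENNReal.ofReal_mul hC0.le]
        congr 2
        ring
    _ ≤ _ := by
        refine mul_le_mul_left (ENNReal.ofReal_le_ofReal ?_) _
        refine mul_le_mul_of_nonneg_right ?_ hκ0.le
        linarith

end Pool.Agent.V1181.RT
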