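import Mathlib
import Pool.Agent.V1181.RTc
set_option autoImplicit false

/-! Mean values of Dirichlet polynomials with respect to spread measures. -/

namespace Pool.Agent.V1181.DB

open MeasureTheory Finset Complex
open scoped ENNReal

/-- the phase `n^{it}` -/
noncomputable def ph (t : ℝ) (n : ℕ) : ℂ := cexp (I * (t : ℂ) * (Real.log (n : ℝ) : ℂ))

lemma ph_norm (t : ℝ) (n : ℕ) : ‖ph t n‖ = 1 := by
  unfold ph
  rw [show I * (t : ℂ) * (Real.log (n : ℝ) : ℂ) = ((t * Real.log n : ℝ) : ℂ) * I by push_cast; ring]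
  exact Complex.norm_exp_ofReal_mul_I _

lemma ph_add (t v : ℝ) (n : ℕ) : ph (t + v) n = ph t n * ph v n := by
  unfold ph
  rw [← Complex.exp_add]
  congr 1
  push_cast
  ring

lemma ph_cont (n : ℕ) : Continuous fun t : ℝ => ph t n := by
  unfold ph
  fun_prop

lemma ph_mul_conj (v : ℝ) (m n : ℕ) :
    ph v m * (starRingEnd ℂ) (ph v n) =
      cexp (I * ((Real.log m - Real.log n : ℝ) : ℂ) * (v : ℂ)) := by
  unfold ph
  rw [← Complex.exp_conj, ← Complex.exp_add]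
  congr 1
  simp only [map_mul, Complex.conj_I, Complex.conj_ofReal]
  push_cast
  ring

lemma gauss_ft {Y : ℝ} (hY : 0 < Y) (θ : ℝ) :
    ‖∫ v : ℝ, cexp (I * (θ : ℂ) * (v : ℂ)) * ((Real.exp (-(v ^ 2 / Y ^ 2)) : ℝ) : ℂ)‖ ≤
      Real.sqrt Real.pi * Y * Real.exp (-(Y ^ 2 * θ ^ 2 / 4)) := by
  have hb : 0 < (((1 / Y ^ 2 : ℝ) : ℂ)).re := by
    rw [Complex.ofReal_re]; positivity
  have h := fourierIntegral_gaussian hb (θ : ℂ)
  have h1 : (∫ v : ℝ, cexp (I * (θ : ℂ) * (v : ℂ)) * ((Real.exp (-(v ^ 2 / Y ^ 2)) : ℝ) : ℂ)) =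
      ∫ x : ℝ, cexp (I * (θ : ℂ) * x) * cexp (-((1 / Y ^ 2 : ℝ) : ℂ) * x ^ 2) := by
    congr 1
    ext v
    congr 1
    rw [Complex.ofReal_exp]
    congr 1
    push_cast
    ring
  rw [h1, h, norm_mul]
  have h2 : ‖((Real.pi : ℂ) / ((1 / Y ^ 2 : ℝ) : ℂ)) ^ (1 / 2 : ℂ)‖ = Real.sqrt Real.pi * Y := by
    have e : (Real.pi : ℂ) / ((1 / Y ^ 2 : ℝ) : ℂ) = ((Real.pi * Y ^ 2 : ℝ) : ℂ) := by
      push_cast
      field_simp
    rw [e, show (1 / 2 : ℂ) = ((1 / 2 : ℝ) : ℂ) by push_cast; ring,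
      ← Complex.ofReal_cpow (by positivity), Complex.norm_real, Real.norm_eq_abs,
      abs_of_nonneg (by positivity), ← Real.sqrt_eq_rpow, Real.sqrt_mul (by positivity),
      Real.sqrt_sq hY.le]
  have h3 : ‖cexp (-(θ : ℂ) ^ 2 / (4 * ((1 / Y ^ 2 : ℝ) : ℂ)))‖ =
      Real.exp (-(Y ^ 2 * θ ^ 2 / 4)) := by
    have e : -(θ : ℂ) ^ 2 / (4 * ((1 / Y ^ 2 : ℝ) : ℂ)) = ((-(Y ^ 2 * θ ^ 2 / 4) : ℝ) : ℂ) := by
      push_cast
      field_simp
    rw [e, ← Complex.ofReal_exp, Complex.norm_real, Real.norm_eq_abs,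
      abs_of_nonneg (Real.exp_pos _).le]
  rw [h2, h3]

/-- a summable majorant -/
lemma summable_g : Summable fun d : ℤ => Real.exp (-((d : ℝ) ^ 2 / 16)) := by
  have hnat : Summable fun n : ℕ => Real.exp (-((n : ℝ) ^ 2 / 16)) := by
    have h1 : Summable fun n : ℕ => Real.exp (1 / 4) * Real.exp ((n : ℝ) * (-(1 / 4))) :=
      (Real.summable_exp_nat_mul_iff.2 (by norm_num)).mul_left _
    refine Summable.of_nonneg_of_le (fun n => (Real.exp_pos _).le) (fun n => ?_) h1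
    rw [← Real.exp_add]
    apply Real.exp_le_exp.2
    nlinarith [sq_nonneg ((n : ℝ) / 4 - 1 / 2)]
  apply Summable.of_nat_of_neg
  · exact hnat
  · simpa using hnat

/-- the constant -/
noncomputable def K0 : ℝ := ∑' d : ℤ, Real.exp (-((d : ℝ) ^ 2 / 16))

lemma K0_pos : 0 < K0 := by
  unfold K0
  exact summable_g.tsum_pos (fun d => (Real.exp_pos _).le) 0 (Real.exp_pos _)

lemma sum_g (F : Finset ℕ) (m : ℕ) :
    ∑ n ∈ F, Real.exp (-(((m : ℝ) - n) ^ 2 / 16)) ≤ K0 := by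
  classical
  have hinj : Set.InjOn (fun n : ℕ => (m : ℤ) - (n : ℤ)) (F : Set ℕ) := by
    intro a _ b _ hab
    simp only at hab
    omega
  have h1 : ∑ n ∈ F, Real.exp (-(((m : ℝ) - n) ^ 2 / 16)) =
      ∑ d ∈ F.image (fun n : ℕ => (m : ℤ) - (n : ℤ)), Real.exp (-((d : ℝ) ^ 2 / 16)) := by
    rw [Finset.sum_image hinj]
    refine Finset.sum_congr rfl fun n _ => ?_
    push_cast
    rfl
  rw [h1]
  exact summable_g.sum_le_tsum _ fun d _ => (Real.exp_pos _).le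

lemma log_gap {N m n : ℕ} (hN : 1 ≤ N) (hm : m ∈ Icc N (2 * N)) (hn : n ∈ Icc N (2 * N)) :
    ((m : ℝ) - n) ^ 2 / (2 * N) ^ 2 ≤ (Real.log m - Real.log n) ^ 2 := by
  have key : ∀ a b : ℕ, a ∈ Icc N (2 * N) → b ∈ Icc N (2 * N) → a ≤ b →
      ((b : ℝ) - a) / (2 * N) ≤ Real.log b - Real.log a := by
    intro a b ha hb hab
    rw [Finset.mem_Icc] at ha hb
    have ha0 : (0 : ℝ) < a := by exact_mod_cast (by omega : 0 < a)
    have hb0 : (0 : ℝ) < b := by exact_mod_cast (by omega : 0 < b)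
    have hN0 : (0 : ℝ) < N := by exact_mod_cast (by omega : 0 < N)
    have h1 : Real.log (a / b) ≤ a / b - 1 := Real.log_le_sub_one_of_pos (by positivity)
    rw [Real.log_div ha0.ne' hb0.ne'] at h1
    have h2 : ((b : ℝ) - a) / (2 * N) ≤ ((b : ℝ) - a) / b := by
      apply div_le_div_of_nonneg_left _ hb0
      · exact_mod_cast hb.2
      · have : (a : ℝ) ≤ b := by exact_mod_cast hab
        linarith
    have h3 : ((b : ℝ) - a) / b = 1 - a / b := by field_simp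
    linarith
  rw [← div_pow]
  rcases le_total m n with h | h
  · have h1 := key m n hm hn h
    have h2 : 0 ≤ ((n : ℝ) - m) / (2 * N) := by
      have : (m : ℝ) ≤ n := by exact_mod_cast h
      apply div_nonneg (by linarith) (by positivity)
    have h3 := pow_le_pow_left₀ h2 h1 2
    calc (((m : ℝ) - n) / (2 * N)) ^ 2 = (((n : ℝ) - m) / (2 * N)) ^ 2 := by ring
      _ ≤ _ := h3
      _ = _ := by ring
  · have h1 := key n m hn hm h
    have h2 : 0 ≤ ((m : ℝ) - n) / (2 * N) := by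
      have : (n : ℝ) ≤ m := by exact_mod_cast h
      apply div_nonneg (by linarith) (by positivity)
    exact pow_le_pow_left₀ h2 h1 2

lemma gauss_int {Y : ℝ} (hY : 0 < Y) : Integrable fun v : ℝ => Real.exp (-(v ^ 2 / Y ^ 2)) := by
  have h := integrable_exp_neg_mul_sq (b := 1 / Y ^ 2) (by positivity)
  refine h.congr (Filter.Eventually.of_forall fun v => ?_)
  simp only
  congr 1
  ring

lemma osc_int {Y : ℝ} (hY : 0 < Y) (θ : ℝ) : Integrable fun v : ℝ =>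
    cexp (I * (θ : ℂ) * (v : ℂ)) * ((Real.exp (-(v ^ 2 / Y ^ 2)) : ℝ) : ℂ) := by
  refine (gauss_int hY).mono' ?_ (Filter.Eventually.of_forall fun v => ?_)
  · apply Continuous.aestronglyMeasurable
    fun_prop
  · rw [norm_mul, show I * (θ : ℂ) * (v : ℂ) = ((θ * v : ℝ) : ℂ) * I by push_cast; ring,
      Complex.norm_exp_ofReal_mul_I, one_mul, Complex.norm_real, Real.norm_eq_abs,
      abs_of_nonneg (Real.exp_pos _).le]

lemma gauss_mv {N : ℕ} (hN : 1 ≤ N) {Y : ℝ} (hY : (N : ℝ) ≤ Y) (F : Finset ℕ)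
    (hF : F ⊆ Icc N (2 * N)) (c : ℕ → ℂ) :
    ∫ v : ℝ, Real.exp (-(v ^ 2 / Y ^ 2)) * ‖∑ n ∈ F, c n * ph v n‖ ^ 2 ≤
      Real.sqrt Real.pi * Y * K0 * ∑ n ∈ F, ‖c n‖ ^ 2 := by
  have hN0 : (0 : ℝ) < N := by exact_mod_cast (by omega : 0 < N)
  have hY0 : 0 < Y := by linarith
  set θ : ℕ → ℕ → ℝ := fun m n => Real.log m - Real.log n with hθ
  have h1 : ∀ v : ℝ, ((Real.exp (-(v ^ 2 / Y ^ 2)) * ‖∑ n ∈ F, c n * ph v n‖ ^ 2 : ℝ) : ℂ) =
      ∑ m ∈ F, ∑ n ∈ F, (c m * (starRingEnd ℂ) (c n)) *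
        (cexp (I * (θ m n : ℂ) * (v : ℂ)) * ((Real.exp (-(v ^ 2 / Y ^ 2)) : ℝ) : ℂ)) := by
    intro v
    rw [Complex.ofReal_mul, Complex.ofReal_pow, ← Complex.mul_conj', map_sum,
      Finset.sum_mul_sum, Finset.mul_sum]
    refine Finset.sum_congr rfl fun m _ => ?_
    rw [Finset.mul_sum]
    refine Finset.sum_congr rfl fun n _ => ?_
    rw [map_mul]
    have h2 := ph_mul_conj v m n
    simp only [hθ]
    rw [← h2]
    ring
  have h2 : ((∫ v : ℝ, Real.exp (-(v ^ 2 / Y ^ 2)) * ‖∑ n ∈ F, c n * ph v n‖ ^ 2 : ℝ) : ℂ) =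
      ∑ m ∈ F, ∑ n ∈ F, (c m * (starRingEnd ℂ) (c n)) *
        ∫ v : ℝ, cexp (I * (θ m n : ℂ) * (v : ℂ)) * ((Real.exp (-(v ^ 2 / Y ^ 2)) : ℝ) : ℂ) := by
    rw [← integral_complex_ofReal]
    simp only [h1]
    rw [integral_finsetSum]
    · refine Finset.sum_congr rfl fun m _ => ?_
      rw [integral_finsetSum]
      · refine Finset.sum_congr rfl fun n _ => ?_
        rw [integral_const_mul]
      · intro n _
        exact (osc_int hY0 _).const_mul _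
    · intro m _
      exact integrable_finsetSum _ fun n _ => (osc_int hY0 _).const_mul _
  have h3 : ∫ v : ℝ, Real.exp (-(v ^ 2 / Y ^ 2)) * ‖∑ n ∈ F, c n * ph v n‖ ^ 2 ≤
      ‖∑ m ∈ F, ∑ n ∈ F, (c m * (starRingEnd ℂ) (c n)) *
        ∫ v : ℝ, cexp (I * (θ m n : ℂ) * (v : ℂ)) * ((Real.exp (-(v ^ 2 / Y ^ 2)) : ℝ) : ℂ)‖ := by
    rw [← h2, Complex.norm_real]
    exact Real.le_norm_self _
  refine h3.trans ?_
  set w : ℕ → ℕ → ℝ := fun m n => Real.exp (-(((m : ℝ) - n) ^ 2 / 16)) with hw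
  have h4 : ∀ m ∈ F, ∀ n ∈ F, ‖(c m * (starRingEnd ℂ) (c n)) *
        ∫ v : ℝ, cexp (I * (θ m n : ℂ) * (v : ℂ)) * ((Real.exp (-(v ^ 2 / Y ^ 2)) : ℝ) : ℂ)‖ ≤
      Real.sqrt Real.pi * Y * ((‖c m‖ ^ 2 * w m n + ‖c n‖ ^ 2 * w m n) / 2) := by
    intro m hm n hn
    rw [norm_mul, norm_mul, RCLike.norm_conj]
    have h5 := gauss_ft hY0 (θ m n)
    have h6 : Real.exp (-(Y ^ 2 * θ m n ^ 2 / 4)) ≤ w m n := by
      apply Real.exp_le_exp.2
      have h7 := log_gap hN (hF hm) (hF hn)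
      have h8 : (N : ℝ) ^ 2 ≤ Y ^ 2 := pow_le_pow_left₀ hN0.le hY 2
      have h9 : 0 ≤ θ m n ^ 2 := sq_nonneg _
      have h10 : ((m : ℝ) - n) ^ 2 / 16 = (N : ℝ) ^ 2 * (((m : ℝ) - n) ^ 2 / (2 * N) ^ 2) / 4 := by
        field_simp
        ring
      have h11 : (N : ℝ) ^ 2 * (((m : ℝ) - n) ^ 2 / (2 * N) ^ 2) ≤ Y ^ 2 * θ m n ^ 2 := by
        calc (N : ℝ) ^ 2 * (((m : ℝ) - n) ^ 2 / (2 * N) ^ 2) ≤ (N : ℝ) ^ 2 * θ m n ^ 2 :=
              mul_le_mul_of_nonneg_left h7 (by positivity)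
          _ ≤ _ := mul_le_mul_of_nonneg_right h8 h9
      rw [h10]
      linarith
    have hw0 : 0 ≤ w m n := (Real.exp_pos _).le
    calc ‖c m‖ * ‖c n‖ * ‖∫ v : ℝ, cexp (I * (θ m n : ℂ) * (v : ℂ)) *
            ((Real.exp (-(v ^ 2 / Y ^ 2)) : ℝ) : ℂ)‖
        ≤ ‖c m‖ * ‖c n‖ * (Real.sqrt Real.pi * Y * w m n) := by
          refine mul_le_mul_of_nonneg_left (h5.trans ?_) (by positivity)
          exact mul_le_mul_of_nonneg_left h6 (by positivity)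
      _ = Real.sqrt Real.pi * Y * (‖c m‖ * ‖c n‖ * w m n) := by ring
      _ ≤ _ := by
          refine mul_le_mul_of_nonneg_left ?_ (by positivity)
          nlinarith [mul_nonneg (sq_nonneg (‖c m‖ - ‖c n‖)) hw0]
  calc ‖∑ m ∈ F, ∑ n ∈ F, (c m * (starRingEnd ℂ) (c n)) *
        ∫ v : ℝ, cexp (I * (θ m n : ℂ) * (v : ℂ)) * ((Real.exp (-(v ^ 2 / Y ^ 2)) : ℝ) : ℂ)‖
      ≤ ∑ m ∈ F, ∑ n ∈ F, Real.sqrt Real.pi * Y * ((‖c m‖ ^ 2 * w m n + ‖c n‖ ^ 2 * w m n) / 2) := by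
        refine (norm_sum_le _ _).trans (Finset.sum_le_sum fun m hm => ?_)
        exact (norm_sum_le _ _).trans (Finset.sum_le_sum fun n hn => h4 m hm n hn)
    _ = Real.sqrt Real.pi * Y * ((∑ m ∈ F, ∑ n ∈ F, ‖c m‖ ^ 2 * w m n) / 2 +
        (∑ m ∈ F, ∑ n ∈ F, ‖c n‖ ^ 2 * w m n) / 2) := by
        simp only [← Finset.mul_sum, ← Finset.sum_div, Finset.sum_add_distrib]
        ring
    _ ≤ Real.sqrt Real.pi * Y * ((K0 * ∑ n ∈ F, ‖c n‖ ^ 2) / 2 +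
        (K0 * ∑ n ∈ F, ‖c n‖ ^ 2) / 2) := by
        refine mul_le_mul_of_nonneg_left ?_ (by positivity)
        have e1 : ∑ m ∈ F, ∑ n ∈ F, ‖c m‖ ^ 2 * w m n ≤ K0 * ∑ n ∈ F, ‖c n‖ ^ 2 := by
          rw [Finset.mul_sum]
          refine Finset.sum_le_sum fun m _ => ?_
          rw [← Finset.mul_sum, mul_comm K0]
          exact mul_le_mul_of_nonneg_left (sum_g F m) (by positivity)
        have e2 : ∑ m ∈ F, ∑ n ∈ F, ‖c n‖ ^ 2 * w m n ≤ K0 * ∑ n ∈ F, ‖c n‖ ^ 2 := by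
          rw [Finset.sum_comm]
          refine le_trans (le_of_eq ?_) e1
          refine Finset.sum_congr rfl fun n _ => Finset.sum_congr rfl fun m _ => ?_
          simp only [hw]
          congr 2
          ring
        linarith
    _ = _ := by ring

end Pool.Agent.V1181.DB
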