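import Mathlib
import Pool.Agent.V1181.DBa
set_option autoImplicit false

/-! Moments of Dirichlet polynomials with independently twisted blocks. -/

namespace Pool.Agent.V1181.DB

open MeasureTheory Finset Complex
open scoped ENNReal

/-- constant of the mean value theorem -/
noncomputable def C1 (B : ℝ) : ℝ := B ^ 2 * Real.exp 1 * Real.sqrt Real.pi * K0

lemma C1_pos {B : ℝ} (hB : 1 ≤ B) : 0 < C1 B := by
  have := K0_pos
  unfold C1
  have hB0 : 0 < B := by linarith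
  positivity

lemma poly_cont (F : Finset ℕ) (c : ℕ → ℂ) (t : ℝ) :
    Continuous fun v : ℝ => ∑ n ∈ F, c n * ph (t + v) n := by
  refine continuous_finsetSum _ fun n _ => ?_
  have h1 : Continuous fun v : ℝ => t + v := continuous_const.add continuous_id
  have h2 := Continuous.comp (ph_cont n) h1
  exact continuous_const.mul h2

lemma poly_le (F : Finset ℕ) {c : ℕ → ℂ} (hc : ∀ n, ‖c n‖ ≤ 1) (t : ℝ) :
    ‖∑ n ∈ F, c n * ph t n‖ ≤ F.card := by
  calc ‖∑ n ∈ F, c n * ph t n‖ ≤ ∑ n ∈ F, ‖c n * ph t n‖ := norm_sum_le _ _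
    _ ≤ ∑ _n ∈ F, (1 : ℝ) := by
        refine Finset.sum_le_sum fun n _ => ?_
        rw [norm_mul, ph_norm, mul_one]
        exact hc n
    _ = _ := by simp

lemma mvt {N : ℕ} (hN : 1 ≤ N) {B : ℝ} (hB : 1 ≤ B) (F : Finset ℕ) (hF : F ⊆ Icc N (2 * N))
    (c : ℕ → ℂ) (ρ : Measure ℝ) (hs : ρ (Set.Icc (-(B * N)) (B * N))ᶜ = 0)
    (hρ : ρ ≤ ENNReal.ofReal (B / N) • (volume : Measure ℝ)) (t : ℝ) :
    ∫⁻ v, ‖∑ n ∈ F, c n * ph (t + v) n‖ₑ ^ (2 : ℝ) ∂ρ ≤
      ENNReal.ofReal (C1 B * ∑ n ∈ F, ‖c n‖ ^ 2) := by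
  have hN0 : (0 : ℝ) < N := by exact_mod_cast (by omega : 0 < N)
  have hB0 : 0 < B := by linarith
  set Y : ℝ := B * N with hY
  have hY0 : 0 < Y := by positivity
  have hNY : (N : ℝ) ≤ Y := by rw [hY]; nlinarith
  set c' : ℕ → ℂ := fun n => c n * ph t n with hc'
  have hS : ∀ v, ∑ n ∈ F, c n * ph (t + v) n = ∑ n ∈ F, c' n * ph v n := by
    intro v
    refine Finset.sum_congr rfl fun n _ => ?_
    rw [ph_add, hc', mul_assoc]
  have hc'n : ∀ n, ‖c' n‖ = ‖c n‖ := by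
    intro n
    simp only [hc', norm_mul, ph_norm, mul_one]
  simp only [hS]
  have hgm := gauss_mv hN hNY F hF c'
  simp only [hc'n] at hgm
  set S : ℝ → ℂ := fun v => ∑ n ∈ F, c' n * ph v n with hSd
  have hScont : Continuous S := by
    refine continuous_finsetSum _ fun n _ => ?_
    exact continuous_const.mul (ph_cont n)
  set G : ℝ → ℝ := fun v => Real.exp (-(v ^ 2 / Y ^ 2)) * ‖S v‖ ^ 2 with hG
  have hG0 : ∀ v, 0 ≤ G v := fun v => by positivity
  have hGint : Integrable G := by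
    have hb : ∀ v, ‖S v‖ ≤ ∑ n ∈ F, ‖c n‖ := by
      intro v
      refine (norm_sum_le _ _).trans (Finset.sum_le_sum fun n _ => ?_)
      rw [norm_mul, ph_norm, mul_one, hc'n]
    refine ((gauss_int hY0).mul_const ((∑ n ∈ F, ‖c n‖) ^ 2)).mono' ?_
      (Filter.Eventually.of_forall fun v => ?_)
    · apply Continuous.aestronglyMeasurable
      have h1 : Continuous fun v : ℝ => Real.exp (-(v ^ 2 / Y ^ 2)) := by fun_prop
      exact h1.mul (hScont.norm.pow 2)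
    · rw [Real.norm_eq_abs, abs_of_nonneg (hG0 v)]
      exact mul_le_mul_of_nonneg_left (pow_le_pow_left₀ (norm_nonneg _) (hb v) 2)
        (Real.exp_pos _).le
  have hae : ∀ᵐ v ∂ρ, v ∈ Set.Icc (-Y) Y := by
    rw [ae_iff]
    exact hs
  calc ∫⁻ v, ‖S v‖ₑ ^ (2 : ℝ) ∂ρ ≤ ∫⁻ v, ENNReal.ofReal (Real.exp 1 * G v) ∂ρ := by
        apply lintegral_mono_ae
        filter_upwards [hae] with v hv
        rw [← ofReal_norm, ENNReal.ofReal_rpow_of_nonneg (norm_nonneg _) (by norm_num)]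
        apply ENNReal.ofReal_le_ofReal
        rw [show ‖S v‖ ^ (2 : ℝ) = ‖S v‖ ^ 2 by simp]
        simp only [hG]
        have h1 : 1 ≤ Real.exp 1 * Real.exp (-(v ^ 2 / Y ^ 2)) := by
          rw [← Real.exp_add]
          apply Real.one_le_exp
          have h2 : v ^ 2 / Y ^ 2 ≤ 1 := by
            rw [div_le_one (by positivity)]
            exact sq_le_sq' hv.1 hv.2
          linarith
        have h2 : 0 ≤ ‖S v‖ ^ 2 := by positivity
        nlinarith
    _ ≤ ∫⁻ v, ENNReal.ofReal (Real.exp 1 * G v) ∂(ENNReal.ofReal (B / N) • (volume : Measure ℝ)) :=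
        lintegral_mono' hρ le_rfl
    _ = ENNReal.ofReal (B / N) * ENNReal.ofReal (∫ v, Real.exp 1 * G v) := by
        rw [lintegral_smul_measure, smul_eq_mul, ofReal_integral_eq_lintegral_ofReal
          (hGint.const_mul _) (Filter.Eventually.of_forall fun v => by
            have := hG0 v
            positivity)]
    _ = ENNReal.ofReal (B / N * (Real.exp 1 * ∫ v, G v)) := by
        rw [integral_const_mul, ← ENNReal.ofReal_mul (by positivity)]
    _ ≤ _ := by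
        apply ENNReal.ofReal_le_ofReal
        calc B / N * (Real.exp 1 * ∫ v, G v)
            ≤ B / N * (Real.exp 1 * (Real.sqrt Real.pi * Y * K0 * ∑ n ∈ F, ‖c n‖ ^ 2)) := by
              refine mul_le_mul_of_nonneg_left ?_ (by positivity)
              exact mul_le_mul_of_nonneg_left hgm (Real.exp_pos _).le
          _ = C1 B * ∑ n ∈ F, ‖c n‖ ^ 2 := by
              rw [hY]
              unfold C1
              field_simp

lemma card_le {N : ℕ} (hN : 1 ≤ N) (F : Finset ℕ) (hF : F ⊆ Icc N (2 * N)) :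
    (F.card : ℝ) ≤ 2 * N := by
  have h := Finset.card_le_card hF
  rw [Nat.card_Icc] at h
  exact_mod_cast (by omega : F.card ≤ 2 * N)

/-- the moments at one point -/
theorem moment (B q : ℝ) (hB : 1 ≤ B) (hq : 2 ≤ q) : ∃ C : ℝ, 0 < C ∧ ∀ N : ℕ, 1 ≤ N →
    ∀ (ρ : Measure ℝ) [IsProbabilityMeasure ρ], ρ (Set.Icc (-(B * N)) (B * N))ᶜ = 0 →
    ρ ≤ ENNReal.ofReal (B / N) • (volume : Measure ℝ) →
    ∀ (m : ℕ) (J : Fin m → Finset ℕ), (∀ j, J j ⊆ Icc N (2 * N)) →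
    (∀ i j, i ≠ j → Disjoint (J i) (J j)) → ∀ M : ℝ, 0 ≤ M → (∀ j, ((J j).card : ℝ) ≤ M) →
    ∀ b : ℕ → ℂ, (∀ n, ‖b n‖ ≤ 1) → ∀ t : ℝ,
    ∫⁻ y : Fin m → ℝ, ‖∑ j, ∑ n ∈ J j, b n * ph (t + y j) n‖ₑ ^ q ∂(Measure.pi fun _ => ρ) ≤
      ENNReal.ofReal (C * ((N : ℝ) ^ (q / 2) + N * M ^ (q - 2))) := by
  classical
  obtain ⟨C, hC0, hC⟩ := Pool.Agent.V1181.RT.product_enn hq
  have hC1 := C1_pos hB
  refine ⟨C * (2 * (C1 B * 2) ^ (q / 2) + C1 B * 2), by positivity, ?_⟩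
  intro N hN ρ _ hs hρ m J hJ hd M hM hJM b hb t
  have hN0 : (0 : ℝ) < N := by exact_mod_cast (by omega : 0 < N)
  set X : Fin m → ℝ → ℂ := fun j v => ∑ n ∈ J j, b n * ph (t + v) n with hX
  have hXc : ∀ j, Continuous (X j) := fun j => poly_cont (J j) b t
  have hXM : ∀ j v, ‖X j v‖ ≤ M := fun j v => (poly_le (J j) hb (t + v)).trans (hJM j)
  have h := hC ℝ ρ m X (fun j => (hXc j).measurable) ⟨M, hXM⟩
  set K : ℝ≥0∞ := ENNReal.ofReal (C1 B * (2 * N)) with hK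
  have hb2 : ∀ F : Finset ℕ, ∑ n ∈ F, ‖b n‖ ^ 2 ≤ F.card := by
    intro F
    calc ∑ n ∈ F, ‖b n‖ ^ 2 ≤ ∑ _n ∈ F, (1 : ℝ) := by
          refine Finset.sum_le_sum fun n _ => ?_
          exact pow_le_one₀ (norm_nonneg _) (hb n)
      _ = _ := by simp
  have hUsub : (Finset.univ.biUnion J) ⊆ Icc N (2 * N) := by
    intro n hn
    rw [Finset.mem_biUnion] at hn
    obtain ⟨j, _, hj⟩ := hn
    exact hJ j hj
  have hUcard : ∑ j, ((J j).card : ℝ) ≤ 2 * N := by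
    have h1 : (Finset.univ.biUnion J).card = ∑ j, (J j).card :=
      Finset.card_biUnion fun i _ j _ hij => hd i j hij
    have h2 := card_le hN _ hUsub
    rw [h1] at h2
    exact_mod_cast h2
  have hsum2 : ∑ j, ∫⁻ v, ‖X j v‖ₑ ^ (2 : ℝ) ∂ρ ≤ K := by
    calc ∑ j, ∫⁻ v, ‖X j v‖ₑ ^ (2 : ℝ) ∂ρ
        ≤ ∑ j, ENNReal.ofReal (C1 B * (J j).card) := by
          refine Finset.sum_le_sum fun j _ => ?_
          refine (mvt hN hB (J j) (hJ j) b ρ hs hρ t).trans (ENNReal.ofReal_le_ofReal ?_)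
          exact mul_le_mul_of_nonneg_left (hb2 _) hC1.le
      _ = ENNReal.ofReal (∑ j, C1 B * (J j).card) := by
          rw [ENNReal.ofReal_sum_of_nonneg fun j _ => by positivity]
      _ ≤ K := by
          apply ENNReal.ofReal_le_ofReal
          rw [← Finset.mul_sum]
          exact mul_le_mul_of_nonneg_left hUcard hC1.le
  have hsum3 : ∫⁻ v, ‖∑ j, X j v‖ₑ ^ (2 : ℝ) ∂ρ ≤ K := by
    have h1 : ∀ v, ∑ j, X j v = ∑ n ∈ Finset.univ.biUnion J, b n * ph (t + v) n := by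
      intro v
      rw [Finset.sum_biUnion fun i _ j _ hij => hd i j hij]
    simp only [h1]
    refine (mvt hN hB _ hUsub b ρ hs hρ t).trans (ENNReal.ofReal_le_ofReal ?_)
    exact mul_le_mul_of_nonneg_left ((hb2 _).trans (card_le hN _ hUsub)) hC1.le
  have hsumq : ∑ j, ∫⁻ v, ‖X j v‖ₑ ^ q ∂ρ ≤ ENNReal.ofReal M ^ (q - 2) * K := by
    calc ∑ j, ∫⁻ v, ‖X j v‖ₑ ^ q ∂ρ
        ≤ ∑ j, ENNReal.ofReal M ^ (q - 2) * ∫⁻ v, ‖X j v‖ₑ ^ (2 : ℝ) ∂ρ := by
          refine Finset.sum_le_sum fun j _ => ?_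
          rw [← lintegral_const_mul _ ((hXc j).measurable.enorm.pow_const 2)]
          apply lintegral_mono
          intro v
          have h2 : ‖X j v‖ₑ ^ q = ‖X j v‖ₑ ^ (q - 2) * ‖X j v‖ₑ ^ (2 : ℝ) := by
            rw [← ENNReal.rpow_add_of_nonneg _ _ (by linarith) (by norm_num)]
            congr 1
            ring
          simp only
          rw [h2]
          refine mul_le_mul_left (ENNReal.rpow_le_rpow ?_ (by linarith)) _
          rw [← ofReal_norm]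
          exact ENNReal.ofReal_le_ofReal (hXM j v)
      _ = ENNReal.ofReal M ^ (q - 2) * ∑ j, ∫⁻ v, ‖X j v‖ₑ ^ (2 : ℝ) ∂ρ := by
          rw [Finset.mul_sum]
      _ ≤ _ := mul_le_mul_right hsum2 _
  have hq20 : 0 ≤ q / 2 := by linarith
  have hq22 : 0 ≤ q - 2 := by linarith
  calc ∫⁻ y : Fin m → ℝ, ‖∑ j, X j (y j)‖ₑ ^ q ∂(Measure.pi fun _ => ρ)
      ≤ ENNReal.ofReal C * ((∑ j, ∫⁻ v, ‖X j v‖ₑ ^ (2 : ℝ) ∂ρ) ^ (q / 2) +
          ∑ j, ∫⁻ v, ‖X j v‖ₑ ^ q ∂ρ + (∫⁻ v, ‖∑ j, X j v‖ₑ ^ (2 : ℝ) ∂ρ) ^ (q / 2)) := h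
    _ ≤ ENNReal.ofReal C * (K ^ (q / 2) + ENNReal.ofReal M ^ (q - 2) * K + K ^ (q / 2)) := by
        refine mul_le_mul_right (add_le_add (add_le_add ?_ hsumq) ?_) _
        · exact ENNReal.rpow_le_rpow hsum2 hq20
        · exact ENNReal.rpow_le_rpow hsum3 hq20
    _ = ENNReal.ofReal (C * ((C1 B * (2 * N)) ^ (q / 2) + M ^ (q - 2) * (C1 B * (2 * N)) +
          (C1 B * (2 * N)) ^ (q / 2))) := by
        rw [hK, ENNReal.ofReal_rpow_of_nonneg (by positivity) hq20,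
          ENNReal.ofReal_rpow_of_nonneg hM hq22, ← ENNReal.ofReal_mul (by positivity),
          ← ENNReal.ofReal_add (by positivity) (by positivity),
          ← ENNReal.ofReal_add (by positivity) (by positivity), ← ENNReal.ofReal_mul hC0.le]
    _ ≤ _ := by
        apply ENNReal.ofReal_le_ofReal
        have e1 : (C1 B * (2 * N)) ^ (q / 2) = (C1 B * 2) ^ (q / 2) * (N : ℝ) ^ (q / 2) := by
          rw [← Real.mul_rpow (by positivity) hN0.le]
          congr 1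
          ring
        rw [e1, mul_assoc C]
        refine mul_le_mul_of_nonneg_left ?_ hC0.le
        have h1 : 0 ≤ (N : ℝ) ^ (q / 2) := by positivity
        have h2 : 0 ≤ M ^ (q - 2) := by positivity
        have h3 : 0 ≤ (C1 B * 2) ^ (q / 2) := by positivity
        have h4 : 0 ≤ (C1 B * 2) ^ (q / 2) * (N * M ^ (q - 2)) := by positivity
        have h5 : 0 ≤ C1 B * 2 * (N : ℝ) ^ (q / 2) := by positivity
        nlinarith

end Pool.Agent.V1181.DB
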