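import Mathlib

/-!
# The bounded differences inequality for uniform independent coordinates
-/

set_option autoImplicit false

namespace Pool.Agent.V1181.BDiff

open Finset

/-- One coordinate. -/
theorem one {α : Type} [Fintype α] [Nonempty α] (X : α → ℝ) (L : ℝ) (hL : 0 < L)
    (h0 : ∑ v, X v = 0) (h : ∀ v v', |X v - X v'| ≤ L) (s : ℝ) :
    ∑ v, Real.exp (s * X v) ≤ (Fintype.card α : ℝ) * Real.exp (s ^ 2 * L ^ 2 / 2) := by
  have hc : 0 < (Fintype.card α : ℝ) := by exact_mod_cast Fintype.card_pos
  have hX : ∀ v, |X v| ≤ L := by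
    intro v
    have h1 : (Fintype.card α : ℝ) * X v = ∑ v', (X v - X v') := by
      rw [Finset.sum_sub_distrib, h0, Finset.sum_const, Finset.card_univ, nsmul_eq_mul, sub_zero]
    have h2 : |(Fintype.card α : ℝ) * X v| ≤ (Fintype.card α : ℝ) * L := by
      rw [h1]
      refine (Finset.abs_sum_le_sum_abs _ _).trans ?_
      refine (Finset.sum_le_sum fun v' _ => h v v').trans (le_of_eq ?_)
      rw [Finset.sum_const, Finset.card_univ, nsmul_eq_mul]
    rw [abs_mul, abs_of_pos hc] at h2
    exact le_of_mul_le_mul_left h2 hc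
  have hpt : ∀ v, Real.exp (s * X v) ≤ (L + X v) / (2 * L) * Real.exp (s * L) +
      (L - X v) / (2 * L) * Real.exp (-(s * L)) := by
    intro v
    have h1 := abs_le.mp (hX v)
    have ha : 0 ≤ (L + X v) / (2 * L) := div_nonneg (by linarith) (by linarith)
    have hb : 0 ≤ (L - X v) / (2 * L) := div_nonneg (by linarith) (by linarith)
    have hab : (L + X v) / (2 * L) + (L - X v) / (2 * L) = 1 := by
      field_simp
      ring
    have h2 := convexOn_exp.2 (Set.mem_univ (s * L)) (Set.mem_univ (-(s * L))) ha hb hab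
    simp only [smul_eq_mul] at h2
    have h3 : (L + X v) / (2 * L) * (s * L) + (L - X v) / (2 * L) * (-(s * L)) = s * X v := by
      field_simp
      ring
    rw [h3] at h2
    exact h2
  calc ∑ v, Real.exp (s * X v) ≤ ∑ v, ((L + X v) / (2 * L) * Real.exp (s * L) +
      (L - X v) / (2 * L) * Real.exp (-(s * L))) := Finset.sum_le_sum fun v _ => hpt v
    _ = ∑ v, ((Real.exp (s * L) + Real.exp (-(s * L))) / 2 +
        (Real.exp (s * L) - Real.exp (-(s * L))) / (2 * L) * X v) := by
        apply Finset.sum_congr rfl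
        intro v _
        field_simp
        ring
    _ = (Fintype.card α : ℝ) * Real.cosh (s * L) := by
        rw [Finset.sum_add_distrib, ← Finset.mul_sum, h0, mul_zero, add_zero, Finset.sum_const,
          Finset.card_univ, nsmul_eq_mul, Real.cosh_eq]
    _ ≤ (Fintype.card α : ℝ) * Real.exp (s ^ 2 * L ^ 2 / 2) := by
        apply mul_le_mul_of_nonneg_left _ hc.le
        refine (Real.cosh_le_exp_half_sq _).trans (le_of_eq ?_)
        congr 1
        ring

/-- Exponential moments, coordinates indexed by `Fin n`. -/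
theorem fin {α : Type} [Fintype α] [Nonempty α] (s : ℝ) :
    ∀ (n : ℕ) (c : Fin n → ℝ) (f : (Fin n → α) → ℝ), (∀ i, 0 < c i) →
      (∀ w i v, |f (Function.update w i v) - f w| ≤ c i) →
      ∑ w, Real.exp (s * (f w - (∑ w', f w') / (Fintype.card α : ℝ) ^ n)) ≤
        (Fintype.card α : ℝ) ^ n * Real.exp (s ^ 2 * (∑ i, c i ^ 2) / 2) := by
  intro n
  have hc : 0 < (Fintype.card α : ℝ) := by exact_mod_cast Fintype.card_pos
  induction n with
  | zero =>
    intro c f _ _
    simp
  | succ n ih =>
    intro c f hcpos hf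
    set q : ℝ := (Fintype.card α : ℝ) with hqdef
    let g : (Fin n → α) → ℝ := fun w => (∑ a, f (Fin.cons a w)) / q
    have hsum : ∀ F : (Fin (n + 1) → α) → ℝ, ∑ w, F w = ∑ w : Fin n → α, ∑ a, F (Fin.cons a w) := by
      intro F
      rw [← (Fin.consEquiv (fun _ : Fin (n + 1) => α)).sum_comp, Fintype.sum_prod_type,
        Finset.sum_comm]
      rfl
    have hg : (∑ w', f w') / q ^ (n + 1) = (∑ w', g w') / q ^ n := by
      rw [hsum f]
      simp only [g]
      rw [← Finset.sum_div, pow_succ, div_div, mul_comm]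
    have hgd : ∀ w i v, |g (Function.update w i v) - g w| ≤ c i.succ := by
      intro w i v
      simp only [g]
      rw [← sub_div, ← Finset.sum_sub_distrib, abs_div, abs_of_pos hc, div_le_iff₀ hc]
      refine (Finset.abs_sum_le_sum_abs _ _).trans ?_
      calc ∑ a, |f (Fin.cons a (Function.update w i v)) - f (Fin.cons a w)|
          ≤ ∑ _a : α, c i.succ := by
            apply Finset.sum_le_sum
            intro a _
            rw [Fin.cons_update]
            exact hf _ _ _
        _ = c i.succ * q := by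
            rw [Finset.sum_const, Finset.card_univ, nsmul_eq_mul, hqdef]
            ring
    have hone : ∀ w : Fin n → α, ∑ a, Real.exp (s * (f (Fin.cons a w) - g w)) ≤
        q * Real.exp (s ^ 2 * c 0 ^ 2 / 2) := by
      intro w
      apply one (fun a => f (Fin.cons a w) - g w) (c 0) (hcpos 0)
      · rw [Finset.sum_sub_distrib, Finset.sum_const, Finset.card_univ, nsmul_eq_mul]
        simp only [g]
        rw [← hqdef]
        field_simp
        ring
      · intro v v'
        have h1 := hf (Fin.cons v' w) 0 v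
        rw [Fin.update_cons_zero] at h1
        have h2 : f (Fin.cons v w) - g w - (f (Fin.cons v' w) - g w) =
          f (Fin.cons v w) - f (Fin.cons v' w) := by ring
        rw [h2]
        exact h1
    have ihg := ih (fun i => c i.succ) g (fun i => hcpos _) hgd
    rw [hsum, hg]
    calc ∑ w : Fin n → α, ∑ a, Real.exp (s * (f (Fin.cons a w) - (∑ w', g w') / q ^ n))
        = ∑ w : Fin n → α, Real.exp (s * (g w - (∑ w', g w') / q ^ n)) *
            ∑ a, Real.exp (s * (f (Fin.cons a w) - g w)) := by
          apply Finset.sum_congr rfl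
          intro w _
          rw [Finset.mul_sum]
          apply Finset.sum_congr rfl
          intro a _
          rw [← Real.exp_add]
          congr 1
          ring
      _ ≤ ∑ w : Fin n → α, Real.exp (s * (g w - (∑ w', g w') / q ^ n)) *
            (q * Real.exp (s ^ 2 * c 0 ^ 2 / 2)) :=
          Finset.sum_le_sum fun w _ => mul_le_mul_of_nonneg_left (hone w) (Real.exp_pos _).le
      _ = (∑ w : Fin n → α, Real.exp (s * (g w - (∑ w', g w') / q ^ n))) *
            (q * Real.exp (s ^ 2 * c 0 ^ 2 / 2)) := by rw [Finset.sum_mul]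
      _ ≤ (q ^ n * Real.exp (s ^ 2 * (∑ i : Fin n, c i.succ ^ 2) / 2)) *
            (q * Real.exp (s ^ 2 * c 0 ^ 2 / 2)) := by
          apply mul_le_mul_of_nonneg_right ihg
          exact mul_nonneg hc.le (Real.exp_pos _).le
      _ = q ^ (n + 1) * (Real.exp (s ^ 2 * (∑ i : Fin n, c i.succ ^ 2) / 2) *
            Real.exp (s ^ 2 * c 0 ^ 2 / 2)) := by
          ring
      _ = q ^ (n + 1) * Real.exp (s ^ 2 * (∑ i, c i ^ 2) / 2) := by
          rw [← Real.exp_add, Fin.sum_univ_succ]
          congr 2
          ring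

/-- **Bounded differences inequality** (lower tail): few functions `w` have `f w` below the mean
by `t`. -/
theorem lower {ι α : Type} [Fintype ι] [DecidableEq ι] [Fintype α] [Nonempty α]
    (c : ι → ℝ) (f : (ι → α) → ℝ) (hc : ∀ i, 0 < c i)
    (hf : ∀ w i v, |f (Function.update w i v) - f w| ≤ c i) (C t : ℝ) (hC : 0 < C)
    (hcC : ∑ i, c i ^ 2 ≤ C) (ht : 0 ≤ t) :
    ((univ.filter fun w => f w ≤
      (∑ w', f w') / (Fintype.card α : ℝ) ^ (Fintype.card ι) - t).card : ℝ) ≤
      Real.exp (-(t ^ 2 / (2 * C))) * (Fintype.card α : ℝ) ^ (Fintype.card ι) := by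
  classical
  set n := Fintype.card ι with hn
  let e : ι ≃ Fin n := Fintype.equivFin ι
  let Φ : (Fin n → α) ≃ (ι → α) := Equiv.arrowCongr e.symm (Equiv.refl α)
  have hΦ : ∀ (w : Fin n → α) (i : ι), Φ w i = w (e i) := fun w i => rfl
  set μ : ℝ := (∑ w', f w') / (Fintype.card α : ℝ) ^ n with hμ
  set s : ℝ := -(t / C) with hs
  have h1 := fin (α := α) s n (fun i => c (e.symm i)) (fun w => f (Φ w)) (fun i => hc _) (by
    intro w i v
    have h2 : Φ (Function.update w i v) = Function.update (Φ w) (e.symm i) v := by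
      funext x
      rw [hΦ]
      by_cases hx : x = e.symm i
      · subst hx
        simp
      · rw [Function.update_of_ne hx, Function.update_of_ne, hΦ]
        intro h3
        apply hx
        rw [← h3]
        simp
    show |f (Φ (Function.update w i v)) - f (Φ w)| ≤ _
    rw [h2]
    exact hf _ _ _)
  have h3 : ∑ w', f (Φ w') = ∑ T, f T := Φ.sum_comp f
  rw [h3, ← hμ] at h1
  have h5 : ∑ w, Real.exp (s * (f (Φ w) - μ)) = ∑ T, Real.exp (s * (f T - μ)) :=
    Φ.sum_comp (fun T => Real.exp (s * (f T - μ)))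
  have h6 : ∑ i, c (e.symm i) ^ 2 = ∑ i, c i ^ 2 := e.symm.sum_comp (fun i => c i ^ 2)
  rw [h5, h6] at h1
  have hcard : (0 : ℝ) < (Fintype.card α : ℝ) ^ n := by
    have : 0 < (Fintype.card α : ℝ) := by exact_mod_cast Fintype.card_pos
    positivity
  have h7 : ((univ.filter fun w => f w ≤ μ - t).card : ℝ) * Real.exp (t ^ 2 / C) ≤
      ∑ T, Real.exp (s * (f T - μ)) := by
    calc ((univ.filter fun w => f w ≤ μ - t).card : ℝ) * Real.exp (t ^ 2 / C)
        = ∑ T ∈ univ.filter (fun w => f w ≤ μ - t), Real.exp (t ^ 2 / C) := by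
          rw [Finset.sum_const, nsmul_eq_mul]
      _ ≤ ∑ T ∈ univ.filter (fun w => f w ≤ μ - t), Real.exp (s * (f T - μ)) := by
          apply Finset.sum_le_sum
          intro T hT
          have h8 := (Finset.mem_filter.mp hT).2
          apply Real.exp_le_exp.mpr
          have h9 : t ^ 2 / C = (t / C) * t := by ring
          rw [h9, hs]
          have h10 : t ≤ μ - f T := by linarith
          have h11 : 0 ≤ t / C := by positivity
          have := mul_le_mul_of_nonneg_left h10 h11
          linarith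
      _ ≤ _ := Finset.sum_le_sum_of_subset_of_nonneg (Finset.filter_subset _ _)
            (fun T _ _ => (Real.exp_pos _).le)
  have h8 : Real.exp (s ^ 2 * (∑ i, c i ^ 2) / 2) ≤ Real.exp (t ^ 2 / (2 * C)) := by
    apply Real.exp_le_exp.mpr
    have h9 : s ^ 2 * (∑ i, c i ^ 2) ≤ s ^ 2 * C := mul_le_mul_of_nonneg_left hcC (sq_nonneg _)
    have h10 : s ^ 2 * C / 2 = t ^ 2 / (2 * C) := by
      rw [hs]
      field_simp
    linarith
  have h9 : ((univ.filter fun w => f w ≤ μ - t).card : ℝ) * Real.exp (t ^ 2 / C) ≤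
      (Fintype.card α : ℝ) ^ n * Real.exp (t ^ 2 / (2 * C)) :=
    (h7.trans h1).trans (mul_le_mul_of_nonneg_left h8 hcard.le)
  have h10 : Real.exp (t ^ 2 / (2 * C)) = Real.exp (-(t ^ 2 / (2 * C))) * Real.exp (t ^ 2 / C) := by
    rw [← Real.exp_add]
    congr 1
    field_simp
    ring
  rw [h10, ← mul_assoc] at h9
  have h11 := le_of_mul_le_mul_right h9 (Real.exp_pos _)
  rw [mul_comm]
  exact h11

end Pool.Agent.V1181.BDiff
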