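import Mathlib

/-!
# Smoothness of the Laplacian
-/

set_option autoImplicit false

namespace Pool.Agent.V1181

open Real Set Filter MeasureTheory Topology InnerProductSpace Laplacian

variable {E : Type*} [NormedAddCommGroup E] [InnerProductSpace ℝ E] [FiniteDimensional ℝ E]

/-- The Laplacian of a smooth function is smooth. -/
theorem contDiff_laplacian {f : E → ℝ} (hf : ContDiff ℝ (⊤ : ℕ∞) f) :
    ContDiff ℝ (⊤ : ℕ∞) (Δ f) := by
  rw [laplacian_eq_iteratedFDeriv_stdOrthonormalBasis]
  refine ContDiff.sum fun i _ => ?_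
  have h : ContDiff ℝ (⊤ : ℕ∞) (iteratedFDeriv ℝ 2 f) :=
    hf.iteratedFDeriv_right (by norm_cast)
  exact (ContinuousMultilinearMap.apply ℝ (fun _ : Fin 2 => E) ℝ
    ![(stdOrthonormalBasis ℝ E) i, (stdOrthonormalBasis ℝ E) i]).contDiff.comp h

end Pool.Agent.V1181
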