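import Mathlib
import Pool.Agent.H789R2.FR.L2
set_option autoImplicit false

/-! Random modulations of pieces of a density on the sphere: one piece. -/

namespace Pool.Agent.V1181.RMod

open MeasureTheory Measure Set Metric Complex
open scoped ENNReal Pointwise RealInnerProductSpace
open Pool.Agent.H789R2.FR Pool.Agent.H789R2.FR.L2

/-- The Gaussian measure on `ℝ^n` with density `π^(-n/2) exp(-|v|^2)`. -/
noncomputable def gauss (n : ℕ) : Measure (E n) :=
  volume.withDensity fun v => ENNReal.ofReal (Real.pi ^ (-((n : ℝ) / 2)) * Real.exp (-‖v‖ ^ 2))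

lemma W_one {n : ℕ} (v : E n) : W 1 v = Real.exp (-‖v‖ ^ 2) := by
  unfold W; simp

lemma integral_W_one (n : ℕ) : ∫ v : E n, Real.exp (-‖v‖ ^ 2) = Real.pi ^ ((n : ℝ) / 2) := by
  have := GaussianFourier.integral_rexp_neg_mul_sq_norm (V := E n) (b := 1) one_pos
  simpa using this

lemma integrable_exp (n : ℕ) : Integrable fun v : E n => Real.exp (-‖v‖ ^ 2) := by
  have h := integrable_W (n := n) (l := 1) one_pos
  exact h.congr (Filter.Eventually.of_forall fun v => W_one v)

lemma dens_meas (n : ℕ) : Measurable fun v : E n =>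
    Real.pi ^ (-((n : ℝ) / 2)) * Real.exp (-‖v‖ ^ 2) := by
  fun_prop

instance gauss_prob (n : ℕ) : IsProbabilityMeasure (gauss n) := by
  refine ⟨?_⟩
  have hpi := Real.pi_pos
  rw [gauss, withDensity_apply _ MeasurableSet.univ, setLIntegral_univ,
    ← ofReal_integral_eq_lintegral_ofReal]
  · rw [integral_const_mul, integral_W_one, ← Real.rpow_add hpi]
    simp
  · exact (integrable_exp n).const_mul _
  · exact Filter.Eventually.of_forall fun v => by positivity

lemma integral_gauss {n : ℕ} {F : Type*} [NormedAddCommGroup F] [NormedSpace ℝ F] (f : E n → F) :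
    ∫ v, f v ∂(gauss n) =
      ∫ v, (Real.pi ^ (-((n : ℝ) / 2)) * Real.exp (-‖v‖ ^ 2)) • f v := by
  have hpi := Real.pi_pos
  rw [gauss, integral_withDensity_eq_integral_toReal_smul (dens_meas n).ennreal_ofReal
    (Filter.Eventually.of_forall fun _ => ENNReal.ofReal_lt_top)]
  apply integral_congr_ae
  refine Filter.Eventually.of_forall fun v => ?_
  simp only
  rw [ENNReal.toReal_ofReal (by positivity)]

/-- characteristic function -/
lemma norm_char {n : ℕ} (v : E n) :
    ‖∫ x, ph x v ∂(gauss n)‖ = Real.exp (-(1 / 4) * ‖v‖ ^ 2) := by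
  have hpi := Real.pi_pos
  have h := norm_K (n := n) (l := 1) one_pos v
  rw [integral_gauss]
  have h1 : ∀ x : E n, (Real.pi ^ (-((n : ℝ) / 2)) * Real.exp (-‖x‖ ^ 2)) • ph x v =
      ((Real.pi ^ (-((n : ℝ) / 2)) : ℝ) : ℂ) * (((W 1 x : ℝ) : ℂ) * ph x v) := by
    intro x
    rw [W_one, Complex.real_smul]
    push_cast
    ring
  rw [integral_congr_ae (Filter.Eventually.of_forall h1), integral_const_mul, norm_mul, h,
    Complex.norm_real, Real.norm_eq_abs, abs_of_pos (by positivity), ← mul_assoc,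
    one_pow, mul_one, ← Real.rpow_add hpi, neg_add_cancel, Real.rpow_zero, one_mul]
  norm_num

lemma ph_smul_sub {n : ℕ} (r : ℝ) (ξ ω w : E n) :
    ph (ξ - r • ω) w = ph ξ w * ph ω (-(r • w)) := by
  unfold ph
  rw [← Complex.exp_add, inner_sub_left, inner_neg_right, real_inner_smul_left,
    real_inner_smul_right]
  congr 1
  push_cast
  ring

/-- the mean value -/
lemma mean_le {n : ℕ} (h : E n → ℂ) (hh : Measurable h) (hb : ∀ x, ‖h x‖ ≤ 1) (S : Set (E n))
    (hS : MeasurableSet S) (h0 : ∀ x, x ∉ S → h x = 0) (r : ℝ) (ξ : E n) :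
    ‖∫ ω, T h (ξ - r • ω) ∂(gauss n)‖ ≤ (sg n).real S * Real.exp (-(1 / 4) * r ^ 2) := by
  have hfin : IsFiniteMeasure (sg n) := sg_finite n
  have h1 : ∫ ω, T h (ξ - r • ω) ∂(gauss n) =
      ∫ w, (∫ ω, ph (ξ - r • ω) w * h w ∂(gauss n)) ∂(sg n) := by
    simp only [T_eq]
    apply integral_integral_swap
    refine Integrable.of_bound (C := 1) ?_ (Filter.Eventually.of_forall fun p => ?_)
    · apply Measurable.aestronglyMeasurable
      refine Measurable.mul ?_ (hh.comp measurable_snd)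
      have hc : Continuous fun p : E n × E n => ph (ξ - r • p.1) p.2 :=
        continuous_ph.comp (by fun_prop : Continuous fun p : E n × E n => (ξ - r • p.1, p.2))
      exact hc.measurable
    · simp only [Function.uncurry, norm_mul, norm_ph, one_mul]
      exact hb _
  rw [h1]
  have h2 : ∀ w, ∫ ω, ph (ξ - r • ω) w * h w ∂(gauss n) =
      ph ξ w * h w * ∫ ω, ph ω (-(r • w)) ∂(gauss n) := by
    intro w
    rw [← integral_const_mul]
    apply integral_congr_ae
    refine Filter.Eventually.of_forall fun ω => ?_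
    simp only
    rw [ph_smul_sub]
    ring
  have h3 : ∀ᵐ w ∂(sg n), ‖∫ ω, ph (ξ - r • ω) w * h w ∂(gauss n)‖ ≤
      S.indicator (fun _ => Real.exp (-(1 / 4) * r ^ 2)) w := by
    filter_upwards [sg_ae n] with w hw
    rw [h2 w, norm_mul, norm_mul, norm_ph, one_mul, norm_char, norm_neg, norm_smul, hw, mul_one,
      Real.norm_eq_abs, sq_abs]
    by_cases hwS : w ∈ S
    · rw [indicator_of_mem hwS]
      exact mul_le_of_le_one_left (Real.exp_pos _).le (hb w)
    · rw [indicator_of_notMem hwS, h0 w hwS]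
      simp
  have h4 : ∫ w, S.indicator (fun _ => Real.exp (-(1 / 4) * r ^ 2)) w ∂(sg n) =
      (sg n).real S * Real.exp (-(1 / 4) * r ^ 2) := by
    rw [integral_indicator hS, setIntegral_const, smul_eq_mul]
  rw [← h4]
  refine norm_integral_le_of_norm_le ?_ h3
  exact (integrable_const _).indicator hS

lemma norm_T_le' {n : ℕ} (h : E n → ℂ) (hb : ∀ x, ‖h x‖ ≤ 1) (S : Set (E n))
    (hS : MeasurableSet S) (h0 : ∀ x, x ∉ S → h x = 0) (x : E n) :
    ‖T h x‖ ≤ (sg n).real S := by
  have hfin : IsFiniteMeasure (sg n) := sg_finite n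
  have h4 : ∫ w, S.indicator (fun _ => (1 : ℝ)) w ∂(sg n) = (sg n).real S := by
    rw [integral_indicator hS, setIntegral_const, smul_eq_mul, mul_one]
  rw [← h4, T_eq]
  refine norm_integral_le_of_norm_le ((integrable_const _).indicator hS)
    (Filter.Eventually.of_forall fun w => ?_)
  rw [norm_mul, norm_ph, one_mul]
  by_cases hwS : w ∈ S
  · rw [indicator_of_mem hwS]
    exact hb w
  · rw [indicator_of_notMem hwS, h0 w hwS]
    simp

/-- the second moment -/
lemma second (n : ℕ) (hn : 2 ≤ n) : ∃ C : ℝ, 0 < C ∧ ∀ h : E n → ℂ, Measurable h →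
    (∀ x, ‖h x‖ ≤ 1) → ∀ S : Set (E n), MeasurableSet S → (∀ x, x ∉ S → h x = 0) →
    ∀ r : ℝ, 0 < r → ∀ ξ : E n,
    ∫ ω, ‖T h (ξ - r • ω)‖ ^ 2 ∂(gauss n) ≤ C * r ^ (-((n : ℝ) - 1)) * (sg n).real S := by
  have hfin : IsFiniteMeasure (sg n) := sg_finite n
  have hpi := Real.pi_pos
  obtain ⟨C, hC0, hC⟩ := L2_bound n hn
  refine ⟨Real.pi ^ (-((n : ℝ) / 2)) * C, by positivity, ?_⟩
  intro h hh hb S hS h0 r hr ξ
  have h1 := hC h hh ⟨1, hb⟩ r hr ξ
  have h2 : ∫ w, ‖h w‖ ^ 2 ∂(sg n) ≤ (sg n).real S := by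
    have h4 : ∫ w, S.indicator (fun _ => (1 : ℝ)) w ∂(sg n) = (sg n).real S := by
      rw [integral_indicator hS, setIntegral_const, smul_eq_mul, mul_one]
    rw [← h4]
    apply integral_mono_of_nonneg
    · exact Filter.Eventually.of_forall fun _ => by positivity
    · exact (integrable_const _).indicator hS
    · refine Filter.Eventually.of_forall fun w => ?_
      simp only
      by_cases hwS : w ∈ S
      · rw [indicator_of_mem hwS]
        exact pow_le_one₀ (norm_nonneg _) (hb w)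
      · rw [indicator_of_notMem hwS, h0 w hwS]
        simp
  set G : E n → ℝ := fun x => Real.exp (-‖x - ξ‖ ^ 2 / r ^ 2) * ‖T h x‖ ^ 2 with hG
  have h3 : ∫ ω, ‖T h (ξ - r • ω)‖ ^ 2 ∂(gauss n) =
      Real.pi ^ (-((n : ℝ) / 2)) * ∫ ω, G (ξ - r • ω) := by
    rw [integral_gauss, ← integral_const_mul]
    apply integral_congr_ae
    refine Filter.Eventually.of_forall fun ω => ?_
    simp only [hG, smul_eq_mul]
    have : ‖ξ - r • ω - ξ‖ ^ 2 / r ^ 2 = ‖ω‖ ^ 2 := by
      rw [show ξ - r • ω - ξ = -(r • ω) by abel, norm_neg, norm_smul, mul_pow, Real.norm_eq_abs,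
        sq_abs]
      field_simp
    rw [neg_div, this]
    ring
  have h4 : ∫ ω, G (ξ - r • ω) = r ^ (-(n : ℝ)) * ∫ x, G x := by
    rw [Measure.integral_comp_smul volume (fun y => G (ξ - y)) r, integral_sub_left_eq_self]
    rw [finrank_euclideanSpace, Fintype.card_fin, smul_eq_mul, abs_of_pos (by positivity),
      Real.rpow_neg hr.le, Real.rpow_natCast]
  rw [h3, h4]
  have h5 : r ^ (-(n : ℝ)) * r = r ^ (-((n : ℝ) - 1)) := by
    nth_rewrite 2 [← Real.rpow_one r]
    rw [← Real.rpow_add hr]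
    congr 1
    ring
  calc Real.pi ^ (-((n : ℝ) / 2)) * (r ^ (-(n : ℝ)) * ∫ x, G x)
      ≤ Real.pi ^ (-((n : ℝ) / 2)) * (r ^ (-(n : ℝ)) * (C * r * (sg n).real S)) := by
        refine mul_le_mul_of_nonneg_left (mul_le_mul_of_nonneg_left ?_ (by positivity))
          (by positivity)
        exact h1.trans (mul_le_mul_of_nonneg_left h2 (by positivity))
    _ = Real.pi ^ (-((n : ℝ) / 2)) * C * (r ^ (-(n : ℝ)) * r) * (sg n).real S := by ring
    _ = _ := by rw [h5]

end Pool.Agent.V1181.RMod
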