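import Mathlib
import Pool.Agent.V1181.RModA
set_option autoImplicit false

/-! Random modulations of pieces of a density on the sphere: the tail at one point. -/

namespace Pool.Agent.V1181.RMod

open MeasureTheory Measure Set Metric Complex
open scoped ENNReal Pointwise RealInnerProductSpace
open Pool.Agent.H789R2.FR Pool.Agent.H789R2.FR.L2

/-- the modulated density -/
noncomputable def md {n m : ℕ} (r : ℝ) (θ : Fin m → Set (E n)) (g : E n → ℂ)
    (ω : Fin m → E n) (x : E n) : ℂ :=
  ∑ j, (θ j).indicator (fun x => Complex.exp (((r * ⟪ω j, x⟫ : ℝ) : ℂ) * I) * g x) x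

section

variable {n m : ℕ} {r : ℝ} {θ : Fin m → Set (E n)} {g : E n → ℂ}

lemma md_meas (hθ : ∀ j, MeasurableSet (θ j)) (hg : Measurable g) (ω : Fin m → E n) :
    Measurable (md r θ g ω) := by
  unfold md
  refine Finset.measurable_sum _ fun j _ => ?_
  refine Measurable.indicator ?_ (hθ j)
  refine Measurable.mul ?_ hg
  exact (by fun_prop : Continuous fun x : E n =>
    Complex.exp (((r * ⟪ω j, x⟫ : ℝ) : ℂ) * I)).measurable

lemma md_norm (hd : Pairwise (Function.onFun Disjoint θ)) (hb : ∀ x, ‖g x‖ ≤ 1)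
    (ω : Fin m → E n) (x : E n) : ‖md r θ g ω x‖ ≤ 1 := by
  unfold md
  by_cases h : ∃ j, x ∈ θ j
  · obtain ⟨j, hj⟩ := h
    rw [Finset.sum_eq_single j]
    · rw [indicator_of_mem hj, norm_mul, Complex.norm_exp_ofReal_mul_I, one_mul]
      exact hb x
    · intro i _ hij
      rw [indicator_of_notMem]
      intro hi
      exact Set.disjoint_left.1 (hd hij) hi hj
    · simp
  · push Not at h
    rw [Finset.sum_eq_zero]
    · simp
    · intro j _
      exact indicator_of_notMem (h j) _

lemma T_md (hθ : ∀ j, MeasurableSet (θ j)) (hg : Measurable g) (hb : ∀ x, ‖g x‖ ≤ 1)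
    (ω : Fin m → E n) (ξ : E n) :
    T (md r θ g ω) ξ = ∑ j, T ((θ j).indicator g) (ξ - r • ω j) := by
  have hfin : IsFiniteMeasure (sg n) := sg_finite n
  simp only [T_eq, md]
  have h1 : ∀ w : E n, ph ξ w * ∑ j, (θ j).indicator
      (fun x => Complex.exp (((r * ⟪ω j, x⟫ : ℝ) : ℂ) * I) * g x) w =
      ∑ j, ph (ξ - r • ω j) w * (θ j).indicator g w := by
    intro w
    rw [Finset.mul_sum]
    refine Finset.sum_congr rfl fun j _ => ?_
    by_cases hj : w ∈ θ j
    · rw [indicator_of_mem hj, indicator_of_mem hj, ← mul_assoc]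
      congr 1
      unfold ph
      rw [← Complex.exp_add, inner_sub_left, real_inner_smul_left]
      congr 1
      push_cast
      ring
    · rw [indicator_of_notMem hj, indicator_of_notMem hj, mul_zero, mul_zero]
  rw [integral_congr_ae (Filter.Eventually.of_forall h1), integral_finsetSum]
  intro j _
  refine Integrable.of_bound (C := 1) ?_ (Filter.Eventually.of_forall fun w => ?_)
  · apply Measurable.aestronglyMeasurable
    refine Measurable.mul ?_ (hg.indicator (hθ j))
    exact (continuous_ph.comp (by fun_prop : Continuous fun w : E n => (ξ - r • ω j, w))).measurable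
  · rw [norm_mul, norm_ph, one_mul]
    exact (norm_indicator_le_norm_self _ _).trans (hb w)

lemma sum_le (hθ : ∀ j, MeasurableSet (θ j)) (hd : Pairwise (Function.onFun Disjoint θ)) :
    ∑ j, (sg n).real (θ j) ≤ (sg n).real univ := by
  have hfin : IsFiniteMeasure (sg n) := sg_finite n
  have h1 : (sg n).real (⋃ j, θ j) = ∑ j, (sg n).real (θ j) := by
    rw [measureReal_def, measure_iUnion hd hθ, tsum_fintype, ENNReal.toReal_sum]
    · rfl
    · intro j _
      exact measure_ne_top _ _
  rw [← h1]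
  exact measureReal_mono (subset_univ _)

end

lemma pow_exp_le (n : ℕ) (r : ℝ) (hr : 1 ≤ r) :
    r ^ (((n : ℝ) - 1) / 2) * Real.exp (-(1 / 4) * r ^ 2) ≤ n.factorial * Real.exp 1 := by
  have hr0 : 0 < r := by linarith
  have h1 : r ^ (((n : ℝ) - 1) / 2) ≤ r ^ (n : ℝ) := by
    apply Real.rpow_le_rpow_of_exponent_le hr
    have : (0 : ℝ) ≤ n := Nat.cast_nonneg n
    linarith
  rw [Real.rpow_natCast] at h1
  have h2 := Real.pow_div_factorial_le_exp r hr0.le n
  rw [div_le_iff₀ (by positivity)] at h2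
  calc r ^ (((n : ℝ) - 1) / 2) * Real.exp (-(1 / 4) * r ^ 2)
      ≤ (Real.exp r * n.factorial) * Real.exp (-(1 / 4) * r ^ 2) :=
        mul_le_mul_of_nonneg_right (h1.trans h2) (Real.exp_pos _).le
    _ = n.factorial * Real.exp (r + -(1 / 4) * r ^ 2) := by rw [Real.exp_add]; ring
    _ ≤ _ := by
        refine mul_le_mul_of_nonneg_left (Real.exp_le_exp.2 ?_) (by positivity)
        nlinarith [sq_nonneg (r - 2)]

/-- moment generating function of one piece -/
lemma mgf_one (n : ℕ) (hn : 2 ≤ n) : ∃ C : ℝ, 0 < C ∧ ∀ A r : ℝ, 1 ≤ A → 1 ≤ r →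
    ∀ h : E n → ℂ, Measurable h → (∀ x, ‖h x‖ ≤ 1) → ∀ S : Set (E n), MeasurableSet S →
    (∀ x, x ∉ S → h x = 0) → (sg n).real S ≤ A * r ^ (-(((n : ℝ) - 1) / 2)) →
    ∀ (u : ℂ), ‖u‖ = 1 → ∀ ξ : E n,
    ∫ v, Real.exp ((A * r ^ (-(((n : ℝ) - 1) / 2)))⁻¹ * (u * T h (ξ - r • v)).re) ∂(gauss n) ≤
      Real.exp (C * (sg n).real S) := by
  have hfin : IsFiniteMeasure (sg n) := sg_finite n
  obtain ⟨C, hC0, hC⟩ := second n hn
  refine ⟨n.factorial * Real.exp 1 + C, by positivity, ?_⟩
  intro A r hA hr h hh hb S hS h0 hSm u hu ξ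
  have hr0 : 0 < r := by linarith
  have hA0 : 0 < A := by linarith
  set e : ℝ := ((n : ℝ) - 1) / 2 with he
  set β : ℝ := r ^ (-e) with hβ
  have hβ0 : 0 < β := by positivity
  set s : ℝ := (A * β)⁻¹ with hs
  have hs0 : 0 < s := by positivity
  set X : E n → ℂ := fun v => T h (ξ - r • v) with hX
  have hXm : Measurable X := by
    have h1 : Measurable (T h) := (measurable_T h hh).measurable
    exact h1.comp (by fun_prop : Continuous fun v : E n => ξ - r • v).measurable
  have hXb : ∀ v, ‖X v‖ ≤ A * β := fun v => (norm_T_le' h hb S hS h0 _).trans hSm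
  set Z : E n → ℝ := fun v => s * (u * X v).re with hZ
  have hZm : Measurable Z := by
    have : Measurable fun v => (u * X v).re := Complex.measurable_re.comp (hXm.const_mul u)
    exact this.const_mul s
  have hZX : ∀ v, |Z v| ≤ s * ‖X v‖ := by
    intro v
    simp only [hZ]
    rw [abs_mul, abs_of_pos hs0]
    refine mul_le_mul_of_nonneg_left ?_ hs0.le
    refine (Complex.abs_re_le_norm _).trans ?_
    rw [norm_mul, hu, one_mul]
  have hZ1 : ∀ v, |Z v| ≤ 1 := by
    intro v
    refine (hZX v).trans ?_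
    calc s * ‖X v‖ ≤ s * (A * β) := mul_le_mul_of_nonneg_left (hXb v) hs0.le
      _ = 1 := by rw [hs]; field_simp
  have hZi : Integrable Z (gauss n) :=
    Integrable.of_bound (C := 1) hZm.aestronglyMeasurable
      (Filter.Eventually.of_forall fun v => by rw [Real.norm_eq_abs]; exact hZ1 v)
  have hZi2 : Integrable (fun v => Z v ^ 2) (gauss n) := by
    refine Integrable.of_bound (C := 1) (hZm.pow_const 2).aestronglyMeasurable
      (Filter.Eventually.of_forall fun v => ?_)
    rw [Real.norm_eq_abs, abs_of_nonneg (by positivity), ← sq_abs]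
    exact pow_le_one₀ (abs_nonneg _) (hZ1 v)
  have hXi : Integrable X (gauss n) :=
    Integrable.of_bound (C := A * β) hXm.aestronglyMeasurable
      (Filter.Eventually.of_forall fun v => hXb v)
  have hXi2 : Integrable (fun v => ‖X v‖ ^ 2) (gauss n) := by
    refine Integrable.of_bound (C := (A * β) ^ 2) (hXm.norm.pow_const 2).aestronglyMeasurable
      (Filter.Eventually.of_forall fun v => ?_)
    rw [Real.norm_eq_abs, abs_of_nonneg (by positivity)]
    exact pow_le_pow_left₀ (norm_nonneg _) (hXb v) 2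
  have h1 : ∫ v, Real.exp (Z v) ∂(gauss n) ≤ ∫ v, (1 + Z v + Z v ^ 2) ∂(gauss n) := by
    apply integral_mono_of_nonneg
    · exact Filter.Eventually.of_forall fun v => (Real.exp_pos _).le
    · exact ((integrable_const _).add hZi).add hZi2
    · refine Filter.Eventually.of_forall fun v => ?_
      have := Real.abs_exp_sub_one_sub_id_le (hZ1 v)
      have h2 := (abs_le.1 this).2
      simp only
      linarith
  have h2 : ∫ v, (1 + Z v + Z v ^ 2) ∂(gauss n) =
      1 + ∫ v, Z v ∂(gauss n) + ∫ v, Z v ^ 2 ∂(gauss n) := by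
    rw [integral_add (f := fun v => 1 + Z v) (g := fun v => Z v ^ 2)
      ((integrable_const _).add hZi) hZi2,
      integral_add (f := fun _ => (1 : ℝ)) (g := Z) (integrable_const _) hZi]
    simp
  have h3 : ∫ v, Z v ∂(gauss n) ≤ n.factorial * Real.exp 1 * (sg n).real S := by
    have h4 : ∫ v, Z v ∂(gauss n) = s * (u * ∫ v, X v ∂(gauss n)).re := by
      have h4' : (∫ v, u * X v ∂(gauss n)).re = ∫ v, (u * X v).re ∂(gauss n) :=
        (integral_re (𝕜 := ℂ) (hXi.const_mul u)).symm
      rw [integral_const_mul, ← integral_const_mul u, h4']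
    rw [h4]
    have h5 : (u * ∫ v, X v ∂(gauss n)).re ≤ (sg n).real S * Real.exp (-(1 / 4) * r ^ 2) := by
      refine (Complex.re_le_norm _).trans ?_
      rw [norm_mul, hu, one_mul]
      exact mean_le h hh hb S hS h0 r ξ
    have h6 : s ≤ r ^ e := by
      rw [hs, mul_inv, hβ, Real.rpow_neg hr0.le, inv_inv]
      exact mul_le_of_le_one_left (by positivity) (inv_le_one_of_one_le₀ hA)
    calc s * (u * ∫ v, X v ∂(gauss n)).re
        ≤ s * ((sg n).real S * Real.exp (-(1 / 4) * r ^ 2)) :=
          mul_le_mul_of_nonneg_left h5 hs0.le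
      _ ≤ r ^ e * ((sg n).real S * Real.exp (-(1 / 4) * r ^ 2)) :=
          mul_le_mul_of_nonneg_right h6 (by positivity)
      _ = r ^ e * Real.exp (-(1 / 4) * r ^ 2) * (sg n).real S := by ring
      _ ≤ _ := mul_le_mul_of_nonneg_right (pow_exp_le n r hr) measureReal_nonneg
  have h7 : ∫ v, Z v ^ 2 ∂(gauss n) ≤ C * (sg n).real S := by
    calc ∫ v, Z v ^ 2 ∂(gauss n) ≤ ∫ v, s ^ 2 * ‖X v‖ ^ 2 ∂(gauss n) := by
          apply integral_mono hZi2 (hXi2.const_mul _)
          intro v
          simp only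
          rw [← mul_pow, ← sq_abs]
          exact pow_le_pow_left₀ (abs_nonneg _) (hZX v) 2
      _ = s ^ 2 * ∫ v, ‖X v‖ ^ 2 ∂(gauss n) := integral_const_mul _ _
      _ ≤ s ^ 2 * (C * r ^ (-((n : ℝ) - 1)) * (sg n).real S) :=
          mul_le_mul_of_nonneg_left (hC h hh hb S hS h0 r hr0 ξ) (by positivity)
      _ = (s ^ 2 * r ^ (-((n : ℝ) - 1))) * (C * (sg n).real S) := by ring
      _ ≤ 1 * (C * (sg n).real S) := by
          refine mul_le_mul_of_nonneg_right ?_ (by positivity)
          have h8 : β ^ 2 = r ^ (-((n : ℝ) - 1)) := by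
            rw [hβ, sq, ← Real.rpow_add hr0]
            congr 1
            rw [he]; ring
          rw [← h8, hs, inv_pow, mul_pow, mul_inv]
          have h9 : (A ^ 2)⁻¹ ≤ 1 := inv_le_one_of_one_le₀ (one_le_pow₀ hA)
          have h10 : (A ^ 2)⁻¹ * (β ^ 2)⁻¹ * β ^ 2 = (A ^ 2)⁻¹ := by field_simp
          rw [h10]; exact h9
      _ = _ := one_mul _
  have h8 : ∫ v, Real.exp (Z v) ∂(gauss n) ≤ 1 + (n.factorial * Real.exp 1 + C) * (sg n).real S := by
    rw [h2] at h1
    linarith
  exact h8.trans (by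
    have := Real.add_one_le_exp ((n.factorial * Real.exp 1 + C) * (sg n).real S)
    linarith)

end Pool.Agent.V1181.RMod
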