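import Mathlib
import Pool.Agent.V1181.RModB
set_option autoImplicit false

/-! Random modulations of pieces of a density on the sphere: tails, nets, the ball. -/

namespace Pool.Agent.V1181.RMod

open MeasureTheory Measure Set Metric Complex
open scoped ENNReal Pointwise RealInnerProductSpace
open Pool.Agent.H789R2.FR Pool.Agent.H789R2.FR.L2

/-- the law of `m` independent Gaussian vectors -/
noncomputable abbrev law (n m : ℕ) : Measure (Fin m → E n) := Measure.pi fun _ => gauss n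

lemma T_md_cont {n m : ℕ} {r : ℝ} {θ : Fin m → Set (E n)} {g : E n → ℂ}
    (hθ : ∀ j, MeasurableSet (θ j)) (hg : Measurable g) (hb : ∀ x, ‖g x‖ ≤ 1) (ξ : E n) :
    Measurable fun ω : Fin m → E n => T (md r θ g ω) ξ := by
  have hfin : IsFiniteMeasure (sg n) := sg_finite n
  have h1 : (fun ω : Fin m → E n => T (md r θ g ω) ξ) =
      fun ω => ∑ j, T ((θ j).indicator g) (ξ - r • ω j) := by
    ext ω
    exact T_md hθ hg hb ω ξ
  rw [h1]
  refine Finset.measurable_sum _ fun j _ => ?_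
  have h2 : Measurable (T ((θ j).indicator g)) :=
    (measurable_T _ (hg.indicator (hθ j))).measurable
  exact h2.comp (by fun_prop : Continuous fun ω : Fin m → E n => ξ - r • ω j).measurable

/-- the tail in one direction -/
lemma tail_dir (n : ℕ) (hn : 2 ≤ n) : ∃ D : ℝ, 0 < D ∧ ∀ A r : ℝ, 1 ≤ A → 1 ≤ r →
    ∀ (m : ℕ) (θ : Fin m → Set (E n)), (∀ j, MeasurableSet (θ j)) →
    Pairwise (Function.onFun Disjoint θ) →
    (∀ j, (sg n).real (θ j) ≤ A * r ^ (-(((n : ℝ) - 1) / 2))) →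
    ∀ g : E n → ℂ, Measurable g → (∀ x, ‖g x‖ ≤ 1) → ∀ (u : ℂ), ‖u‖ = 1 → ∀ (ξ : E n) (l : ℝ),
    (law n m).real {ω | l ≤ (A * r ^ (-(((n : ℝ) - 1) / 2)))⁻¹ * (u * T (md r θ g ω) ξ).re} ≤
      D * Real.exp (-l) := by
  have hfin : IsFiniteMeasure (sg n) := sg_finite n
  obtain ⟨C, hC0, hC⟩ := mgf_one n hn
  refine ⟨Real.exp (C * (sg n).real univ), by positivity, ?_⟩
  intro A r hA hr m θ hθ hd hm g hg hb u hu ξ l
  set s : ℝ := (A * r ^ (-(((n : ℝ) - 1) / 2)))⁻¹ with hs
  have hr0 : 0 < r := by linarith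
  have hs0 : 0 < s := by
    have : 0 < A := by linarith
    positivity
  set X : (Fin m → E n) → ℝ := fun ω => s * (u * T (md r θ g ω) ξ).re with hX
  have hXm : Measurable X := by
    have : Measurable fun ω : Fin m → E n => (u * T (md r θ g ω) ξ).re :=
      Complex.measurable_re.comp ((T_md_cont hθ hg hb ξ).const_mul u)
    exact this.const_mul s
  have hXb : ∀ ω, |X ω| ≤ s * (sg n).real univ := by
    intro ω
    simp only [hX]
    rw [abs_mul, abs_of_pos hs0]
    refine mul_le_mul_of_nonneg_left ?_ hs0.le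
    refine (Complex.abs_re_le_norm _).trans ?_
    rw [norm_mul, hu, one_mul]
    have := norm_T_le (md r θ g ω) 1 (md_norm hd hb ω) ξ
    rwa [one_mul] at this
  have hint : Integrable (fun ω => Real.exp (1 * X ω)) (law n m) := by
    refine Integrable.of_bound (C := Real.exp (s * (sg n).real univ)) ?_
      (Filter.Eventually.of_forall fun ω => ?_)
    · exact (Real.measurable_exp.comp (hXm.const_mul 1)).aestronglyMeasurable
    · rw [Real.norm_eq_abs, abs_of_pos (Real.exp_pos _), one_mul]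
      exact Real.exp_le_exp.2 ((le_abs_self _).trans (hXb ω))
  have h1 := ProbabilityTheory.measure_ge_le_exp_mul_mgf (μ := law n m) (X := X) l zero_le_one hint
  refine h1.trans ?_
  rw [neg_one_mul, mul_comm]
  refine mul_le_mul_of_nonneg_right ?_ (Real.exp_pos _).le
  unfold ProbabilityTheory.mgf
  have h2 : ∀ ω : Fin m → E n, Real.exp (1 * X ω) =
      ∏ j, Real.exp (s * (u * T ((θ j).indicator g) (ξ - r • ω j)).re) := by
    intro ω
    rw [← Real.exp_sum, one_mul]
    congr 1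
    simp only [hX]
    rw [T_md hθ hg hb ω ξ, Finset.mul_sum, Complex.re_sum, Finset.mul_sum]
  rw [integral_congr_ae (Filter.Eventually.of_forall h2)]
  have h3 : ∫ ω : Fin m → E n, ∏ j,
      Real.exp (s * (u * T ((θ j).indicator g) (ξ - r • ω j)).re) ∂(law n m) =
      ∏ j, ∫ v, Real.exp (s * (u * T ((θ j).indicator g) (ξ - r • v)).re) ∂(gauss n) :=
    integral_fintype_prod_eq_prod
      (fun j v => Real.exp (s * (u * T ((θ j).indicator g) (ξ - r • v)).re))
  rw [h3]
  calc ∏ j, ∫ v, Real.exp (s * (u * T ((θ j).indicator g) (ξ - r • v)).re) ∂(gauss n)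
      ≤ ∏ j, Real.exp (C * (sg n).real (θ j)) := by
        apply Finset.prod_le_prod
        · intro j _
          exact integral_nonneg fun _ => (Real.exp_pos _).le
        · intro j _
          exact hC A r hA hr _ (hg.indicator (hθ j))
            (fun x => (norm_indicator_le_norm_self _ _).trans (hb x)) (θ j) (hθ j)
            (fun x hx => indicator_of_notMem hx _) (hm j) u hu ξ
    _ = Real.exp (C * ∑ j, (sg n).real (θ j)) := by
        rw [← Real.exp_sum, Finset.mul_sum]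
    _ ≤ _ := Real.exp_le_exp.2 (mul_le_mul_of_nonneg_left (sum_le hθ hd) hC0.le)

/-- the tail at one point -/
lemma tail_point (n : ℕ) (hn : 2 ≤ n) : ∃ D : ℝ, 0 < D ∧ ∀ A r : ℝ, 1 ≤ A → 1 ≤ r →
    ∀ (m : ℕ) (θ : Fin m → Set (E n)), (∀ j, MeasurableSet (θ j)) →
    Pairwise (Function.onFun Disjoint θ) →
    (∀ j, (sg n).real (θ j) ≤ A * r ^ (-(((n : ℝ) - 1) / 2))) →
    ∀ g : E n → ℂ, Measurable g → (∀ x, ‖g x‖ ≤ 1) → ∀ (ξ : E n) (l : ℝ),
    (law n m).real {ω | 2 * l * (A * r ^ (-(((n : ℝ) - 1) / 2))) ≤ ‖T (md r θ g ω) ξ‖} ≤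
      D * Real.exp (-l) := by
  obtain ⟨D, hD0, hD⟩ := tail_dir n hn
  refine ⟨4 * D, by positivity, ?_⟩
  intro A r hA hr m θ hθ hd hm g hg hb ξ l
  have hr0 : 0 < r := by linarith
  have hA0 : 0 < A := by linarith
  set B : ℝ := A * r ^ (-(((n : ℝ) - 1) / 2)) with hB
  have hB0 : 0 < B := by positivity
  set V : ℂ → Set (Fin m → E n) := fun u => {ω | l ≤ B⁻¹ * (u * T (md r θ g ω) ξ).re} with hV
  have hsub : {ω | 2 * l * B ≤ ‖T (md r θ g ω) ξ‖} ⊆ (V 1 ∪ V (-1)) ∪ (V I ∪ V (-I)) := by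
    intro ω hω
    simp only [mem_ofPred_eq] at hω
    set F := T (md r θ g ω) ξ with hF
    have h1 := Complex.norm_le_abs_re_add_abs_im F
    have e1 : (1 * F).re = F.re := by simp
    have e2 : (-1 * F).re = -F.re := by simp
    have e3 : (I * F).re = -F.im := by simp
    have e4 : (-I * F).re = F.im := by simp
    have key : ∀ y : ℝ, l * B ≤ y → l ≤ B⁻¹ * y := by
      intro y hy
      rw [inv_mul_eq_div, le_div_iff₀ hB0]
      exact hy
    rcases le_or_gt (l * B) |F.re| with h | h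
    · left
      rcases abs_choice F.re with h2 | h2
      · left
        change l ≤ B⁻¹ * (1 * F).re
        rw [e1]
        exact key _ (by rw [← h2]; exact h)
      · right
        change l ≤ B⁻¹ * (-1 * F).re
        rw [e2]
        exact key _ (by rw [← h2]; exact h)
    · right
      have h3 : l * B ≤ |F.im| := by linarith
      rcases abs_choice F.im with h2 | h2
      · right
        change l ≤ B⁻¹ * (-I * F).re
        rw [e4]
        exact key _ (by rw [← h2]; exact h3)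
      · left
        change l ≤ B⁻¹ * (I * F).re
        rw [e3]
        exact key _ (by rw [← h2]; exact h3)
  have hu : ∀ u : ℂ, ‖u‖ = 1 → (law n m).real (V u) ≤ D * Real.exp (-l) := fun u hu =>
    hD A r hA hr m θ hθ hd hm g hg hb u hu ξ l
  calc (law n m).real {ω | 2 * l * B ≤ ‖T (md r θ g ω) ξ‖}
      ≤ (law n m).real ((V 1 ∪ V (-1)) ∪ (V I ∪ V (-I))) := measureReal_mono hsub
    _ ≤ ((law n m).real (V 1) + (law n m).real (V (-1))) +
        ((law n m).real (V I) + (law n m).real (V (-I))) :=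
        (measureReal_union_le _ _).trans
          (add_le_add (measureReal_union_le _ _) (measureReal_union_le _ _))
    _ ≤ (D * Real.exp (-l) + D * Real.exp (-l)) + (D * Real.exp (-l) + D * Real.exp (-l)) := by
        refine add_le_add (add_le_add (hu _ ?_) (hu _ ?_)) (add_le_add (hu _ ?_) (hu _ ?_)) <;> simp
    _ = _ := by ring

/-- the extension of a bounded density is Lipschitz -/
lemma T_lip {n : ℕ} (h : E n → ℂ) (hh : Measurable h) (hb : ∀ x, ‖h x‖ ≤ 1) (ξ η : E n) :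
    ‖T h ξ - T h η‖ ≤ (sg n).real univ * ‖ξ - η‖ := by
  have hfin : IsFiniteMeasure (sg n) := sg_finite n
  have hi : ∀ ζ : E n, Integrable (fun w => ph ζ w * h w) (sg n) := by
    intro ζ
    refine Integrable.of_bound (C := 1) ?_ (Filter.Eventually.of_forall fun w => ?_)
    · apply Measurable.aestronglyMeasurable
      refine Measurable.mul ?_ hh
      exact (continuous_ph.comp (by fun_prop : Continuous fun w : E n => (ζ, w))).measurable
    · rw [norm_mul, norm_ph, one_mul]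
      exact hb w
  rw [T_eq, T_eq, ← integral_sub (hi ξ) (hi η)]
  have h1 : ∀ᵐ w ∂(sg n), ‖ph ξ w * h w - ph η w * h w‖ ≤ ‖ξ - η‖ := by
    filter_upwards [sg_ae n] with w hw
    rw [← sub_mul, norm_mul]
    have h2 : ph ξ w - ph η w = ph η w * (ph (ξ - η) w - 1) := by
      have := ph_add η (ξ - η) w
      rw [show η + (ξ - η) = ξ by abel] at this
      rw [this]
      ring
    rw [h2, norm_mul, norm_ph, one_mul]
    have h3 : ‖ph (ξ - η) w - 1‖ ≤ ‖ξ - η‖ := by
      unfold ph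
      rw [show -((⟪ξ - η, w⟫ : ℝ) : ℂ) * I = I * ((-⟪ξ - η, w⟫ : ℝ) : ℂ) by push_cast; ring]
      refine (Real.norm_exp_I_mul_ofReal_sub_one_le).trans ?_
      rw [norm_neg]
      refine (norm_inner_le_norm _ _).trans ?_
      rw [hw, mul_one]
    calc ‖ph (ξ - η) w - 1‖ * ‖h w‖ ≤ ‖ξ - η‖ * 1 :=
          mul_le_mul h3 (hb w) (norm_nonneg _) (norm_nonneg _)
      _ = _ := mul_one _
  refine (norm_integral_le_of_norm_le (integrable_const _) h1).trans (le_of_eq ?_)
  rw [integral_const, smul_eq_mul]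

/-- a net of the ball -/
lemma net (n : ℕ) (hn : 1 ≤ n) (L δ : ℝ) (hL : 0 < L) (hδ : 0 < δ) :
    ∃ S : Finset (E n), (S.card : ℝ) ≤ (2 * (L / δ) + 3) ^ n ∧
      ∀ ξ : E n, ‖ξ‖ ≤ L → ∃ η ∈ S, ‖ξ - η‖ ≤ n * δ := by
  classical
  set N : ℕ := ⌈L / δ⌉₊ with hN
  have hN1 : L / δ ≤ N := Nat.le_ceil _
  have hN2 : (N : ℝ) < L / δ + 1 := Nat.ceil_lt_add_one (by positivity)
  let f : (Fin n → Fin (2 * N + 1)) → E n := fun k => WithLp.toLp 2 fun i => δ * ((k i : ℝ) - N)
  refine ⟨Finset.univ.image f, ?_, ?_⟩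
  · have h1 : (Finset.univ.image f).card ≤ (2 * N + 1) ^ n := by
      refine Finset.card_image_le.trans ?_
      simp
    have h2 : ((Finset.univ.image f).card : ℝ) ≤ ((2 * N + 1 : ℕ) : ℝ) ^ n := by
      exact_mod_cast h1
    refine h2.trans (pow_le_pow_left₀ (by positivity) ?_ n)
    push_cast
    linarith
  · intro ξ hξ
    have hc : ∀ i, |ξ i| ≤ L := fun i => by
      have := EuclideanSpace.norm_eq ξ
      have h3 : ‖ξ i‖ ≤ ‖ξ‖ := PiLp.norm_apply_le ξ i
      rw [Real.norm_eq_abs] at h3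
      exact h3.trans hξ
    have hq : ∀ i, |ξ i / δ| ≤ N := by
      intro i
      rw [abs_div, abs_of_pos hδ]
      exact (div_le_div_of_nonneg_right (hc i) hδ.le).trans hN1
    have hfl : ∀ i, 0 ≤ ⌊ξ i / δ⌋ + N ∧ ⌊ξ i / δ⌋ + N < 2 * N + 1 := by
      intro i
      have h4 := abs_le.1 (hq i)
      constructor
      · have : -(N : ℤ) ≤ ⌊ξ i / δ⌋ := by
          rw [Int.le_floor]
          push_cast
          exact h4.1
        linarith
      · have : ⌊ξ i / δ⌋ ≤ (N : ℤ) := by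
          have h' : ((⌊ξ i / δ⌋ : ℤ) : ℝ) ≤ ((N : ℤ) : ℝ) := by
            rw [Int.cast_natCast]
            exact (Int.floor_le (ξ i / δ)).trans h4.2
          exact Int.cast_le.1 h'
        linarith
    let k : Fin n → Fin (2 * N + 1) := fun i => ⟨(⌊ξ i / δ⌋ + N).toNat, by
      have := hfl i
      omega⟩
    refine ⟨f k, Finset.mem_image_of_mem _ (Finset.mem_univ _), ?_⟩
    have hki : ∀ i, ((k i : ℕ) : ℝ) = (⌊ξ i / δ⌋ : ℝ) + N := by
      intro i
      have h5 : (((⌊ξ i / δ⌋ + N).toNat : ℕ) : ℤ) = ⌊ξ i / δ⌋ + N := Int.toNat_of_nonneg (hfl i).1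
      have h6 : (((⌊ξ i / δ⌋ + N).toNat : ℕ) : ℝ) = ((⌊ξ i / δ⌋ + N : ℤ) : ℝ) := by
        exact_mod_cast h5
      simp only [k]
      rw [h6]
      push_cast
      rfl
    have hcoord : ∀ i, ‖(ξ - f k) i‖ ^ 2 ≤ δ ^ 2 := by
      intro i
      have h7 : (ξ - f k) i = δ * (ξ i / δ - ⌊ξ i / δ⌋) := by
        change ξ i - δ * (((k i : ℕ) : ℝ) - N) = _
        rw [hki i]
        field_simp
        ring
      rw [h7, norm_mul, Real.norm_eq_abs, abs_of_pos hδ, Real.norm_eq_abs]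
      have h8 : 0 ≤ ξ i / δ - ⌊ξ i / δ⌋ := by linarith [Int.floor_le (ξ i / δ)]
      have h9 : ξ i / δ - ⌊ξ i / δ⌋ ≤ 1 := by linarith [Int.lt_floor_add_one (ξ i / δ)]
      rw [abs_of_nonneg h8, mul_pow]
      have : (ξ i / δ - ⌊ξ i / δ⌋) ^ 2 ≤ 1 := pow_le_one₀ h8 h9
      nlinarith [sq_nonneg δ]
    rw [EuclideanSpace.norm_eq]
    have h10 : ∑ i, ‖(ξ - f k) i‖ ^ 2 ≤ (n * δ) ^ 2 := by
      calc ∑ i, ‖(ξ - f k) i‖ ^ 2 ≤ ∑ _i : Fin n, δ ^ 2 := Finset.sum_le_sum fun i _ => hcoord i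
        _ = n * δ ^ 2 := by simp
        _ ≤ (n * δ) ^ 2 := by
          have : (1 : ℝ) ≤ n := by exact_mod_cast hn
          nlinarith [sq_nonneg δ, mul_nonneg (sq_nonneg δ) (by linarith : (0 : ℝ) ≤ (n : ℝ) - 1),
            mul_nonneg (mul_nonneg (sq_nonneg δ) (by linarith : (0 : ℝ) ≤ (n : ℝ) - 1))
              (by linarith : (0 : ℝ) ≤ (n : ℝ))]
    calc √(∑ i, ‖(ξ - f k) i‖ ^ 2) ≤ √((n * δ) ^ 2) := Real.sqrt_le_sqrt h10
      _ = _ := Real.sqrt_sq (by positivity)

end Pool.Agent.V1181.RMod
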