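import Mathlib
import Pool.Agent.V1181.RModC
set_option autoImplicit false

/-! Random modulations of pieces of a density on the sphere: the supremum over a large ball. -/

namespace Pool.Agent.V1181.RMod

open MeasureTheory Measure Set Metric Complex
open scoped ENNReal Pointwise RealInnerProductSpace
open Pool.Agent.H789R2.FR Pool.Agent.H789R2.FR.L2

lemma sup_tail (n : ℕ) (hn : 2 ≤ n) (A K : ℝ) (hA : 1 ≤ A) (hK : 0 ≤ K) :
    ∃ C : ℝ, 0 < C ∧ ∀ r : ℝ, 2 ≤ r →
    ∀ (m : ℕ) (θ : Fin m → Set (E n)), (∀ j, MeasurableSet (θ j)) →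
    Pairwise (Function.onFun Disjoint θ) →
    (∀ j, (sg n).real (θ j) ≤ A * r ^ (-(((n : ℝ) - 1) / 2))) →
    ∀ g : E n → ℂ, Measurable g → (∀ x, ‖g x‖ ≤ 1) → ∀ t : ℝ, 0 ≤ t →
    (law n m).real {ω | ∃ ξ : E n, ‖ξ‖ ≤ r ^ K ∧
      C * (t + Real.log r) * r ^ (-(((n : ℝ) - 1) / 2)) < ‖T (md r θ g ω) ξ‖} ≤ Real.exp (-t) := by
  have hfin : IsFiniteMeasure (sg n) := sg_finite n
  obtain ⟨D, hD0, hD⟩ := tail_point n hn
  set M : ℝ := (sg n).real univ with hM
  have hM0 : 0 ≤ M := measureReal_nonneg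
  have hn1 : (2 : ℝ) ≤ n := by exact_mod_cast hn
  set e : ℝ := ((n : ℝ) - 1) / 2 with he
  have he0 : 0 < e := by rw [he]; linarith
  set q : ℝ := n * (K + e) with hq
  have hq0 : 0 ≤ q := by positivity
  set c1 : ℝ := (2 * n * (M + 1) + 3) ^ n with hc1
  have hc10 : 0 < c1 := by positivity
  set c2 : ℝ := Real.log (c1 * D + 1) with hc2
  have hc20 : 0 ≤ c2 := Real.log_nonneg (by nlinarith [mul_pos hc10 hD0])
  refine ⟨2 * A * (1 + q + 2 * c2) + 2, by positivity, ?_⟩
  intro r hr m θ hθ hd hm g hg hb t ht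
  have hr0 : 0 < r := by linarith
  have hr1 : 1 ≤ r := by linarith
  set β : ℝ := r ^ (-e) with hβ
  have hβ0 : 0 < β := by positivity
  set C : ℝ := 2 * A * (1 + q + 2 * c2) + 2 with hC
  set lam : ℝ := t + q * Real.log r + c2 with hlam
  have hlog : 1 / 2 ≤ Real.log r := by
    have h1 : Real.log 2 ≤ Real.log r := Real.log_le_log (by norm_num) hr
    have h2 := Real.log_two_gt_d9
    linarith
  have hCb : 2 * lam * (A * β) + β ≤ C * (t + Real.log r) * β := by
    have h1 : 2 * lam * A + 1 ≤ C * (t + Real.log r) := by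
      rw [hC, hlam]
      have hA0 : 0 ≤ A := by linarith
      have h2 : 0 ≤ A * c2 * (Real.log r - 1 / 2) :=
        mul_nonneg (mul_nonneg hA0 hc20) (by linarith)
      have h3 : 0 ≤ A * t * (q + 2 * c2) := by positivity
      have h4 : 0 ≤ A * Real.log r := mul_nonneg hA0 (by linarith)
      nlinarith
    nlinarith
  set δ : ℝ := β / (n * (M + 1)) with hδ
  have hδ0 : 0 < δ := by positivity
  set L : ℝ := r ^ K with hL
  have hL0 : 0 < L := by positivity
  obtain ⟨S, hS1, hS2⟩ := net n (by omega) L δ hL0 hδ0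
  have hcard : (S.card : ℝ) ≤ c1 * r ^ q := by
    refine hS1.trans ?_
    have h1 : L / δ = n * (M + 1) * r ^ (K + e) := by
      rw [hL, hδ, hβ, Real.rpow_neg hr0.le, Real.rpow_add hr0]
      field_simp
    have h2 : 1 ≤ r ^ (K + e) := Real.one_le_rpow hr1 (by positivity)
    have h3 : 2 * (L / δ) + 3 ≤ (2 * n * (M + 1) + 3) * r ^ (K + e) := by
      rw [h1]
      nlinarith
    have h4 : r ^ q = (r ^ (K + e)) ^ n := by
      rw [← Real.rpow_natCast, ← Real.rpow_mul hr0.le, hq]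
      congr 1
      ring
    rw [h4, hc1, ← mul_pow]
    exact pow_le_pow_left₀ (by positivity) h3 n
  have hsub : {ω : Fin m → E n | ∃ ξ : E n, ‖ξ‖ ≤ L ∧
      C * (t + Real.log r) * β < ‖T (md r θ g ω) ξ‖} ⊆
      ⋃ η ∈ S, {ω | 2 * lam * (A * β) ≤ ‖T (md r θ g ω) η‖} := by
    intro ω hω
    obtain ⟨ξ, hξ, hF⟩ := hω
    obtain ⟨η, hη, hdist⟩ := hS2 ξ hξ
    simp only [mem_iUnion, mem_ofPred_eq]
    refine ⟨η, hη, ?_⟩
    have h1 := T_lip (md r θ g ω) (md_meas hθ hg ω) (md_norm hd hb ω) ξ η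
    have h2 : M * ‖ξ - η‖ ≤ β := by
      calc M * ‖ξ - η‖ ≤ (M + 1) * (n * δ) :=
            mul_le_mul (by linarith) hdist (norm_nonneg _) (by positivity)
        _ = β := by rw [hδ]; field_simp
    have h3 : ‖T (md r θ g ω) ξ‖ - ‖T (md r θ g ω) η‖ ≤ ‖T (md r θ g ω) ξ - T (md r θ g ω) η‖ :=
      norm_sub_norm_le _ _
    linarith
  have hexp : Real.exp (-lam) = Real.exp (-t) * (r ^ q)⁻¹ * (c1 * D + 1)⁻¹ := by
    rw [hlam, show -(t + q * Real.log r + c2) = -t + (-(q * Real.log r)) + (-c2) by ring,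
      Real.exp_add, Real.exp_add, Real.exp_neg c2, hc2, Real.exp_log (by positivity),
      Real.exp_neg (q * Real.log r), mul_comm q, ← Real.rpow_def_of_pos hr0]
  calc (law n m).real {ω | ∃ ξ : E n, ‖ξ‖ ≤ L ∧
        C * (t + Real.log r) * β < ‖T (md r θ g ω) ξ‖}
      ≤ (law n m).real (⋃ η ∈ S, {ω | 2 * lam * (A * β) ≤ ‖T (md r θ g ω) η‖}) :=
        measureReal_mono hsub (measure_ne_top _ _)
    _ ≤ ∑ η ∈ S, (law n m).real {ω | 2 * lam * (A * β) ≤ ‖T (md r θ g ω) η‖} :=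
        measureReal_biUnion_finset_le _ _
    _ ≤ ∑ _η ∈ S, D * Real.exp (-lam) :=
        Finset.sum_le_sum fun η _ => hD A r hA hr1 m θ hθ hd hm g hg hb η lam
    _ = S.card * (D * Real.exp (-lam)) := by rw [Finset.sum_const, nsmul_eq_mul]
    _ ≤ (c1 * r ^ q) * (D * Real.exp (-lam)) :=
        mul_le_mul_of_nonneg_right hcard (by positivity)
    _ = (c1 * D) * (c1 * D + 1)⁻¹ * Real.exp (-t) := by
        rw [hexp]
        have : r ^ q ≠ 0 := by positivity
        field_simp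
    _ ≤ 1 * Real.exp (-t) := by
        refine mul_le_mul_of_nonneg_right ?_ (Real.exp_pos _).le
        rw [← div_eq_mul_inv, div_le_one (by positivity)]
        linarith
    _ = _ := one_mul _

/-- the local `L^2` bound -/
lemma ball_L2 (n : ℕ) (hn : 2 ≤ n) : ∃ C : ℝ, 0 < C ∧ ∀ h : E n → ℂ, Measurable h →
    (∀ x, ‖h x‖ ≤ 1) → ∀ R : ℝ, 0 < R →
    ∫⁻ x in ball (0 : E n) R, ENNReal.ofReal (‖T h x‖ ^ 2) ≤ ENNReal.ofReal (C * R) := by
  have hfin : IsFiniteMeasure (sg n) := sg_finite n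
  obtain ⟨C, hC0, hC⟩ := L2_bound n hn
  set M : ℝ := (sg n).real univ with hM
  have hM0 : 0 ≤ M := measureReal_nonneg
  refine ⟨Real.exp 1 * (C * (M + 1)), by positivity, ?_⟩
  intro h hh hb R hR
  have h1 := hC h hh ⟨1, hb⟩ R hR 0
  simp only [sub_zero] at h1
  have h2 : ∫ w, ‖h w‖ ^ 2 ∂(sg n) ≤ M := by
    have h4 : ∫ _w, (1 : ℝ) ∂(sg n) = M := by simp [hM]
    rw [← h4]
    apply integral_mono_of_nonneg
    · exact Filter.Eventually.of_forall fun _ => by positivity
    · exact integrable_const _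
    · exact Filter.Eventually.of_forall fun w => pow_le_one₀ (norm_nonneg _) (hb w)
  have hTm : Measurable (T h) := (measurable_T h hh).measurable
  set G : E n → ℝ := fun x => Real.exp (-‖x‖ ^ 2 / R ^ 2) * ‖T h x‖ ^ 2 with hG
  have hGi : Integrable G := by
    have hW := integrable_W (n := n) hR
    refine (hW.mul_const (M ^ 2)).mono' ?_ (Filter.Eventually.of_forall fun x => ?_)
    · exact ((continuous_W R).measurable.mul (hTm.norm.pow_const 2)).aestronglyMeasurable
    · have hT := norm_T_le h 1 hb x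
      rw [one_mul] at hT
      rw [Real.norm_eq_abs, abs_of_nonneg (by positivity)]
      exact mul_le_mul_of_nonneg_left (pow_le_pow_left₀ (norm_nonneg _) hT 2) (W_pos R x).le
  calc ∫⁻ x in ball (0 : E n) R, ENNReal.ofReal (‖T h x‖ ^ 2)
      ≤ ∫⁻ x in ball (0 : E n) R, ENNReal.ofReal (Real.exp 1) * ENNReal.ofReal (G x) := by
        apply setLIntegral_mono' measurableSet_ball
        intro x hx
        rw [← ENNReal.ofReal_mul (Real.exp_pos _).le]
        apply ENNReal.ofReal_le_ofReal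
        rw [mem_ball_zero_iff] at hx
        simp only [hG]
        have h5 : 1 ≤ Real.exp 1 * Real.exp (-‖x‖ ^ 2 / R ^ 2) := by
          rw [← Real.exp_add]
          apply Real.one_le_exp
          have h6 : ‖x‖ ^ 2 / R ^ 2 ≤ 1 := by
            rw [div_le_one (by positivity)]
            exact pow_le_pow_left₀ (norm_nonneg _) hx.le 2
          rw [neg_div]
          linarith
        have h7 : 0 ≤ ‖T h x‖ ^ 2 := by positivity
        nlinarith
    _ = ENNReal.ofReal (Real.exp 1) * ∫⁻ x in ball (0 : E n) R, ENNReal.ofReal (G x) := by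
        rw [lintegral_const_mul' _ _ ENNReal.ofReal_ne_top]
    _ ≤ ENNReal.ofReal (Real.exp 1) * ∫⁻ x, ENNReal.ofReal (G x) := by
        gcongr
        exact Measure.restrict_le_self
    _ = ENNReal.ofReal (Real.exp 1) * ENNReal.ofReal (∫ x, G x) := by
        rw [ofReal_integral_eq_lintegral_ofReal hGi
          (Filter.Eventually.of_forall fun x => by positivity)]
    _ = ENNReal.ofReal (Real.exp 1 * ∫ x, G x) := by
        rw [ENNReal.ofReal_mul (Real.exp_pos _).le]
    _ ≤ _ := by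
        apply ENNReal.ofReal_le_ofReal
        rw [mul_assoc (Real.exp 1)]
        refine mul_le_mul_of_nonneg_left ?_ (Real.exp_pos _).le
        calc ∫ x, G x ≤ C * R * ∫ w, ‖h w‖ ^ 2 ∂(sg n) := h1
          _ ≤ C * R * (M + 1) := mul_le_mul_of_nonneg_left (by linarith) (by positivity)
          _ = C * (M + 1) * R := by ring

/-- from the supremum and `L^2` to `L^p` -/
lemma ball_Lp {n : ℕ} {h : E n → ℂ} {C R p B : ℝ} (hp : 2 ≤ p) (hB : 0 ≤ B)
    (hsup : ∀ x : E n, ‖x‖ < R → ‖T h x‖ ≤ B)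
    (h2 : ∫⁻ x in ball (0 : E n) R, ENNReal.ofReal (‖T h x‖ ^ 2) ≤ ENNReal.ofReal (C * R)) :
    ∫⁻ x in ball (0 : E n) R, ‖T h x‖ₑ ^ p ≤ ENNReal.ofReal (C * R * B ^ (p - 2)) := by
  have hBp : 0 ≤ B ^ (p - 2) := Real.rpow_nonneg hB _
  calc ∫⁻ x in ball (0 : E n) R, ‖T h x‖ₑ ^ p
      ≤ ∫⁻ x in ball (0 : E n) R, ENNReal.ofReal (B ^ (p - 2)) * ENNReal.ofReal (‖T h x‖ ^ 2) := by
        apply setLIntegral_mono' measurableSet_ball
        intro x hx
        rw [mem_ball_zero_iff] at hx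
        have h3 : ‖T h x‖ₑ ^ p = ENNReal.ofReal (‖T h x‖ ^ p) := by
          rw [← ofReal_norm, ENNReal.ofReal_rpow_of_nonneg (norm_nonneg _) (by linarith)]
        rw [h3, ← ENNReal.ofReal_mul hBp]
        apply ENNReal.ofReal_le_ofReal
        rcases (norm_nonneg (T h x)).eq_or_lt with h4 | h4
        · rw [← h4, Real.zero_rpow (by linarith)]
          simp
        · have h5 : ‖T h x‖ ^ p = ‖T h x‖ ^ (p - 2) * ‖T h x‖ ^ 2 := by
            rw [← Real.rpow_natCast _ 2, ← Real.rpow_add h4]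
            congr 1
            push_cast
            ring
          rw [h5]
          refine mul_le_mul_of_nonneg_right ?_ (by positivity)
          exact Real.rpow_le_rpow (norm_nonneg _) (hsup x hx) (by linarith)
    _ = ENNReal.ofReal (B ^ (p - 2)) * ∫⁻ x in ball (0 : E n) R, ENNReal.ofReal (‖T h x‖ ^ 2) := by
        rw [lintegral_const_mul' _ _ ENNReal.ofReal_ne_top]
    _ ≤ ENNReal.ofReal (B ^ (p - 2)) * ENNReal.ofReal (C * R) := by gcongr
    _ = _ := by
        rw [← ENNReal.ofReal_mul hBp]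
        congr 1
        ring

end Pool.Agent.V1181.RMod
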