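import Mathlib
import Pool.Agent.V1181.RTc
import Pool.Agent.H789R2.FR.L2
set_option autoImplicit false

/-! Random translations of the pieces of a density on the sphere. -/

namespace Pool.Agent.V1181.RS

open MeasureTheory Measure Set Metric Complex
open scoped ENNReal RealInnerProductSpace
open Pool.Agent.H789R2.FR Pool.Agent.H789R2.FR.L2

section conv

variable {n : ℕ} (ρ : Measure (E n)) [IsProbabilityMeasure ρ]

lemma conv_meas (ψ : E n → ℝ≥0∞) (hψ : Measurable ψ) : Measurable fun x => ∫⁻ v, ψ (x - v) ∂ρ :=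
  Measurable.lintegral_prod_right (hψ.comp (measurable_fst.sub measurable_snd))

omit [IsProbabilityMeasure ρ] in
lemma conv_sup (ψ : E n → ℝ≥0∞) (b : ℝ≥0∞) (hb : ρ ≤ b • (volume : Measure (E n))) {s : ℝ}
    (hs : ρ (closedBall 0 s)ᶜ = 0) (x : E n) :
    ∫⁻ v, ψ (x - v) ∂ρ ≤ b * ∫⁻ z in closedBall x s, ψ z := by
  have h1 : ∫⁻ v, ψ (x - v) ∂ρ = ∫⁻ v, (closedBall x s).indicator ψ (x - v) ∂ρ := by
    apply lintegral_congr_ae
    have h2 : ∀ᵐ v ∂ρ, v ∈ closedBall (0 : E n) s := by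
      rw [ae_iff]
      exact hs
    filter_upwards [h2] with v hv
    rw [indicator_of_mem]
    rw [mem_closedBall, dist_eq_norm, show x - v - x = -v by abel, norm_neg]
    exact mem_closedBall_zero_iff.1 hv
  rw [h1]
  calc ∫⁻ v, (closedBall x s).indicator ψ (x - v) ∂ρ
      ≤ ∫⁻ v, (closedBall x s).indicator ψ (x - v) ∂(b • (volume : Measure (E n))) :=
        lintegral_mono' hb le_rfl
    _ = b * ∫⁻ v, (closedBall x s).indicator ψ (x - v) := by
        rw [lintegral_smul_measure, smul_eq_mul]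
    _ = b * ∫⁻ z in closedBall x s, ψ z := by
        rw [lintegral_sub_left_eq_self, lintegral_indicator isClosed_closedBall.measurableSet]

lemma conv_ball (ψ : E n → ℝ≥0∞) (hψ : Measurable ψ) {s L : ℝ}
    (hs : ρ (closedBall 0 s)ᶜ = 0) :
    ∫⁻ x in ball 0 L, ∫⁻ v, ψ (x - v) ∂ρ ≤ ∫⁻ z in closedBall 0 (L + s), ψ z := by
  rw [lintegral_lintegral_swap]
  · have h2 : ∀ᵐ v ∂ρ, v ∈ closedBall (0 : E n) s := by
      rw [ae_iff]
      exact hs
    calc ∫⁻ v, (∫⁻ x in ball 0 L, ψ (x - v)) ∂ρ ≤ ∫⁻ _v, (∫⁻ z in closedBall 0 (L + s), ψ z) ∂ρ := by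
          apply lintegral_mono_ae
          filter_upwards [h2] with v hv
          rw [← lintegral_indicator measurableSet_ball,
            ← lintegral_indicator isClosed_closedBall.measurableSet]
          calc ∫⁻ x, (ball 0 L).indicator (fun x => ψ (x - v)) x
              ≤ ∫⁻ x, (closedBall 0 (L + s)).indicator ψ (x - v) := by
                apply lintegral_mono
                intro x
                by_cases hx : x ∈ ball (0 : E n) L
                · have h3 : x - v ∈ closedBall (0 : E n) (L + s) := by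
                    rw [mem_closedBall_zero_iff] at hv ⊢
                    rw [mem_ball_zero_iff] at hx
                    exact (norm_sub_le _ _).trans (add_le_add hx.le hv)
                  rw [indicator_of_mem hx]
                  simp only
                  rw [indicator_of_mem h3]
                · rw [indicator_of_notMem hx]
                  exact zero_le
            _ = _ := lintegral_sub_right_eq_self _ v
      _ = _ := by rw [lintegral_const, measure_univ, mul_one]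
  · exact (hψ.comp (measurable_fst.sub measurable_snd)).aemeasurable

/-- the average over the translations -/
theorem average {q : ℝ} (hq : 2 ≤ q) {C : ℝ} (hC : ∀ (E : Type) [MeasurableSpace E]
      (ρ : Measure E) [IsProbabilityMeasure ρ]
      (m : ℕ) (X : Fin m → E → ℂ), (∀ j, Measurable (X j)) → (∃ M : ℝ, ∀ j v, ‖X j v‖ ≤ M) →
      ∫⁻ y : Fin m → E, ‖∑ j, X j (y j)‖ₑ ^ q ∂(Measure.pi fun _ => ρ) ≤
        ENNReal.ofReal C * ((∑ j, ∫⁻ v, ‖X j v‖ₑ ^ (2 : ℝ) ∂ρ) ^ (q / 2) +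
          ∑ j, ∫⁻ v, ‖X j v‖ₑ ^ q ∂ρ + (∫⁻ v, ‖∑ j, X j v‖ₑ ^ (2 : ℝ) ∂ρ) ^ (q / 2)))
    {s L : ℝ} (hs : ρ (closedBall 0 s)ᶜ = 0) {m : ℕ} (φ : Fin m → E n → ℂ)
    (hφ : ∀ j, Measurable (φ j)) {M : ℝ} (hM : ∀ j x, ‖φ j x‖ ≤ M) (S I U : ℝ≥0∞)
    (hS1 : ∀ x, ∫⁻ v, (∑ j, ‖φ j (x - v)‖ₑ ^ (2 : ℝ)) ∂ρ ≤ S)
    (hS3 : ∀ x, ∫⁻ v, ‖∑ j, φ j (x - v)‖ₑ ^ (2 : ℝ) ∂ρ ≤ S)
    (hI1 : ∑ j, ∫⁻ z in closedBall 0 (L + s), ‖φ j z‖ₑ ^ (2 : ℝ) ≤ I)
    (hI3 : ∫⁻ z in closedBall 0 (L + s), ‖∑ j, φ j z‖ₑ ^ (2 : ℝ) ≤ I)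
    (hU : ∑ j, ∫⁻ z in closedBall 0 (L + s), ‖φ j z‖ₑ ^ q ≤ U) :
    ∫⁻ x in ball 0 L, ∫⁻ y : Fin m → E n, ‖∑ j, φ j (x - y j)‖ₑ ^ q ∂(Measure.pi fun _ => ρ) ≤
      ENNReal.ofReal C * (2 * (S ^ (q / 2 - 1) * I) + U) := by
  have hq0 : 0 < q := by linarith
  let ψ1 : E n → ℝ≥0∞ := fun x => ∑ j, ‖φ j x‖ₑ ^ (2 : ℝ)
  let ψ2 : E n → ℝ≥0∞ := fun x => ∑ j, ‖φ j x‖ₑ ^ q
  let ψ3 : E n → ℝ≥0∞ := fun x => ‖∑ j, φ j x‖ₑ ^ (2 : ℝ)
  have h1m : ∀ (e : ℝ) (j : Fin m), Measurable fun x => ‖φ j x‖ₑ ^ e := fun e j =>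
    (hφ j).enorm.pow_const e
  have hψ1 : Measurable ψ1 := Finset.measurable_sum _ fun j _ => h1m 2 j
  have hψ2 : Measurable ψ2 := Finset.measurable_sum _ fun j _ => h1m q j
  have hψ3 : Measurable ψ3 := (Finset.measurable_sum _ fun j _ => hφ j).enorm.pow_const 2
  have hpow : ∀ ψ : E n → ℝ≥0∞, Measurable ψ → (∀ x, ∫⁻ v, ψ (x - v) ∂ρ ≤ S) →
      ∫⁻ z in closedBall 0 (L + s), ψ z ≤ I →
      ∫⁻ x in ball 0 L, (∫⁻ v, ψ (x - v) ∂ρ) ^ (q / 2) ≤ S ^ (q / 2 - 1) * I := by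
    intro ψ hψ hSψ hIψ
    calc ∫⁻ x in ball 0 L, (∫⁻ v, ψ (x - v) ∂ρ) ^ (q / 2)
        ≤ ∫⁻ x in ball 0 L, S ^ (q / 2 - 1) * ∫⁻ v, ψ (x - v) ∂ρ := by
          apply lintegral_mono
          intro x
          have h1 : (∫⁻ v, ψ (x - v) ∂ρ) ^ (q / 2) =
              (∫⁻ v, ψ (x - v) ∂ρ) ^ (q / 2 - 1) * ∫⁻ v, ψ (x - v) ∂ρ := by
            nth_rewrite 3 [← ENNReal.rpow_one (∫⁻ v, ψ (x - v) ∂ρ)]
            rw [← ENNReal.rpow_add_of_nonneg _ _ (by linarith) zero_le_one]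
            congr 1
            ring
          simp only
          rw [h1]
          exact mul_le_mul_left (ENNReal.rpow_le_rpow (hSψ x) (by linarith)) _
      _ = S ^ (q / 2 - 1) * ∫⁻ x in ball 0 L, ∫⁻ v, ψ (x - v) ∂ρ :=
          lintegral_const_mul _ (conv_meas ρ ψ hψ)
      _ ≤ _ := mul_le_mul_right ((conv_ball ρ ψ hψ hs).trans hIψ) _
  have e1 : ∫⁻ z in closedBall 0 (L + s), ψ1 z ≤ I := by
    refine le_trans (le_of_eq ?_) hI1
    exact lintegral_finsetSum _ fun j _ => h1m 2 j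
  have e2 : ∫⁻ z in closedBall 0 (L + s), ψ2 z ≤ U := by
    refine le_trans (le_of_eq ?_) hU
    exact lintegral_finsetSum _ fun j _ => h1m q j
  have p1 := hpow ψ1 hψ1 hS1 e1
  have p3 := hpow ψ3 hψ3 hS3 hI3
  have p2 := (conv_ball ρ ψ2 hψ2 hs (L := L)).trans e2
  calc ∫⁻ x in ball 0 L, ∫⁻ y : Fin m → E n, ‖∑ j, φ j (x - y j)‖ₑ ^ q ∂(Measure.pi fun _ => ρ)
      ≤ ∫⁻ x in ball 0 L, ENNReal.ofReal C * (((∫⁻ v, ψ1 (x - v) ∂ρ) ^ (q / 2) +
          ∫⁻ v, ψ2 (x - v) ∂ρ) + (∫⁻ v, ψ3 (x - v) ∂ρ) ^ (q / 2)) := by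
        apply lintegral_mono
        intro x
        have hx : ∀ j, Measurable fun v => φ j (x - v) := fun j =>
          (hφ j).comp (measurable_const.sub measurable_id)
        have h := hC (E n) ρ m (fun j v => φ j (x - v)) hx ⟨M, fun j v => hM j _⟩
        refine h.trans (le_of_eq ?_)
        congr 3
        · congr 1
          rw [← lintegral_finsetSum _ fun j _ => (hx j).enorm.pow_const 2]
        · rw [← lintegral_finsetSum _ fun j _ => (hx j).enorm.pow_const q]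
    _ = ENNReal.ofReal C * (((∫⁻ x in ball 0 L, (∫⁻ v, ψ1 (x - v) ∂ρ) ^ (q / 2)) +
          (∫⁻ x in ball 0 L, ∫⁻ v, ψ2 (x - v) ∂ρ)) +
          (∫⁻ x in ball 0 L, (∫⁻ v, ψ3 (x - v) ∂ρ) ^ (q / 2))) := by
        have a1 := lintegral_add_left (μ := (volume : Measure (E n)).restrict (ball 0 L))
          (((conv_meas ρ ψ1 hψ1).pow_const (q / 2)).add (conv_meas ρ ψ2 hψ2))
          (fun x => (∫⁻ v, ψ3 (x - v) ∂ρ) ^ (q / 2))
        have a2 := lintegral_add_left (μ := (volume : Measure (E n)).restrict (ball 0 L))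
          ((conv_meas ρ ψ1 hψ1).pow_const (q / 2)) (fun x => ∫⁻ v, ψ2 (x - v) ∂ρ)
        rw [lintegral_const_mul' _ _ ENNReal.ofReal_ne_top]
        congr 1
        refine a1.trans ?_
        congr 1
    _ ≤ ENNReal.ofReal C * ((S ^ (q / 2 - 1) * I + U) + S ^ (q / 2 - 1) * I) :=
        mul_le_mul_right (add_le_add (add_le_add p1 p2) p3) _
    _ = _ := by
        congr 1
        ring

end conv

/-- local `L^2` bound with arbitrary centre -/
lemma ball_L2 (n : ℕ) (hn : 2 ≤ n) : ∃ C : ℝ, 0 < C ∧ ∀ h : E n → ℂ, Measurable h →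
    (∃ M : ℝ, ∀ x, ‖h x‖ ≤ M) → ∀ (u : E n) (l : ℝ), 0 < l →
    ∫⁻ x in closedBall u l, ‖T h x‖ₑ ^ (2 : ℝ) ≤
      ENNReal.ofReal (C * l) * ∫⁻ w, ‖h w‖ₑ ^ (2 : ℝ) ∂(sg n) := by
  have hfin : IsFiniteMeasure (sg n) := sg_finite n
  obtain ⟨C, hC0, hC⟩ := L2_bound n hn
  refine ⟨Real.exp 1 * C, by positivity, ?_⟩
  intro h hh ⟨M, hM⟩ u l hl
  have h1 := hC h hh ⟨M, hM⟩ l hl u
  have hM0 : 0 ≤ M := (norm_nonneg _).trans (hM 0)
  have hTm : Measurable (T h) := (measurable_T h hh).measurable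
  have hi2 : Integrable (fun w => ‖h w‖ ^ (2 : ℝ)) (sg n) := by
    refine Integrable.of_bound (C := M ^ (2 : ℝ)) (hh.norm.pow_const 2).aestronglyMeasurable
      (Filter.Eventually.of_forall fun w => ?_)
    rw [Real.norm_eq_abs, abs_of_nonneg (by positivity)]
    exact Real.rpow_le_rpow (norm_nonneg _) (hM w) (by norm_num)
  have hn2 : ∫⁻ w, ‖h w‖ₑ ^ (2 : ℝ) ∂(sg n) = ENNReal.ofReal (∫ w, ‖h w‖ ^ 2 ∂(sg n)) := by
    rw [Pool.Agent.V1181.RT.lintegral_of_bdd _ 2 (by norm_num) hi2]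
    congr 1
    exact integral_congr_ae (Filter.Eventually.of_forall fun w => by simp)
  set G : E n → ℝ := fun x => Real.exp (-‖x - u‖ ^ 2 / l ^ 2) * ‖T h x‖ ^ 2 with hG
  have hGi : Integrable G := by
    have hW := ((integrable_W (n := n) hl).comp_sub_right u)
    refine (hW.mul_const ((M * (sg n).real univ) ^ 2)).mono' ?_
      (Filter.Eventually.of_forall fun x => ?_)
    · have hc : Continuous fun x : E n => Real.exp (-‖x - u‖ ^ 2 / l ^ 2) := by fun_prop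
      exact (hc.measurable.mul (hTm.norm.pow_const 2)).aestronglyMeasurable
    · have hT := norm_T_le h M hM x
      rw [Real.norm_eq_abs, abs_of_nonneg (by positivity)]
      exact mul_le_mul_of_nonneg_left (pow_le_pow_left₀ (norm_nonneg _) hT 2) (Real.exp_pos _).le
  calc ∫⁻ x in closedBall u l, ‖T h x‖ₑ ^ (2 : ℝ)
      ≤ ∫⁻ x in closedBall u l, ENNReal.ofReal (Real.exp 1) * ENNReal.ofReal (G x) := by
        apply setLIntegral_mono' isClosed_closedBall.measurableSet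
        intro x hx
        rw [← ENNReal.ofReal_mul (Real.exp_pos _).le, ← ofReal_norm,
          ENNReal.ofReal_rpow_of_nonneg (norm_nonneg _) (by norm_num)]
        apply ENNReal.ofReal_le_ofReal
        rw [mem_closedBall, dist_eq_norm] at hx
        simp only [hG]
        have h5 : 1 ≤ Real.exp 1 * Real.exp (-‖x - u‖ ^ 2 / l ^ 2) := by
          rw [← Real.exp_add]
          apply Real.one_le_exp
          have h6 : ‖x - u‖ ^ 2 / l ^ 2 ≤ 1 := by
            rw [div_le_one (by positivity)]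
            exact pow_le_pow_left₀ (norm_nonneg _) hx 2
          rw [neg_div]
          linarith
        have h7 : 0 ≤ ‖T h x‖ ^ 2 := by positivity
        rw [show ‖T h x‖ ^ (2 : ℝ) = ‖T h x‖ ^ 2 by simp]
        nlinarith
    _ = ENNReal.ofReal (Real.exp 1) * ∫⁻ x in closedBall u l, ENNReal.ofReal (G x) := by
        rw [lintegral_const_mul' _ _ ENNReal.ofReal_ne_top]
    _ ≤ ENNReal.ofReal (Real.exp 1) * ∫⁻ x, ENNReal.ofReal (G x) :=
        mul_le_mul_right (setLIntegral_le_lintegral _ _) _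
    _ = ENNReal.ofReal (Real.exp 1) * ENNReal.ofReal (∫ x, G x) := by
        rw [ofReal_integral_eq_lintegral_ofReal hGi
          (Filter.Eventually.of_forall fun x => by positivity)]
    _ ≤ ENNReal.ofReal (Real.exp 1) * ENNReal.ofReal (C * l * ∫ w, ‖h w‖ ^ 2 ∂(sg n)) :=
        mul_le_mul_right (ENNReal.ofReal_le_ofReal h1) _
    _ = _ := by
        rw [hn2, ← ENNReal.ofReal_mul (Real.exp_pos _).le,
          ← ENNReal.ofReal_mul (by positivity)]
        congr 1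
        ring

lemma holder {n : ℕ} (μ : Measure (E n)) (f : E n → ℂ) (hf : Measurable f) {a p : ℝ} (ha : 0 < a)
    (hap : a ≤ p) :
    ∫⁻ ξ, ‖f ξ‖ₑ ^ a ∂μ ≤ (∫⁻ ξ, ‖f ξ‖ₑ ^ p ∂μ) ^ (a / p) * μ univ ^ (1 - a / p) := by
  have hp : 0 < p := by linarith
  have h := eLpNorm'_le_eLpNorm'_mul_rpow_measure_univ (μ := μ) (f := f) ha hap
    hf.aestronglyMeasurable
  unfold eLpNorm' at h
  have h2 := ENNReal.rpow_le_rpow h ha.le
  rw [← ENNReal.rpow_mul, ENNReal.mul_rpow_of_nonneg _ _ ha.le, ← ENNReal.rpow_mul,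
    ← ENNReal.rpow_mul] at h2
  have e1 : 1 / a * a = 1 := by field_simp
  have e2 : 1 / p * a = a / p := by ring
  have e3 : (1 / a - 1 / p) * a = 1 - a / p := by field_simp
  rw [e1, e2, e3, ENNReal.rpow_one] at h2
  exact h2

/-- one piece -/
lemma piece {n : ℕ} (μ : Measure (E n)) (f : E n → ℂ) (hf : Measurable f) {p q : ℝ} (hp : 2 ≤ p)
    (hpq : p ≤ q) :
    (∫⁻ ξ, ‖f ξ‖ₑ ∂μ) ^ (q - 2) * ∫⁻ ξ, ‖f ξ‖ₑ ^ (2 : ℝ) ∂μ ≤
      (∫⁻ ξ, ‖f ξ‖ₑ ^ p ∂μ) ^ (q / p) * μ univ ^ (q - 1 - q / p) := by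
  have hp0 : 0 < p := by linarith
  have hq2 : 0 ≤ q - 2 := by linarith
  have h1 := holder μ f hf (a := 1) one_pos (by linarith : (1 : ℝ) ≤ p)
  have h2 := holder μ f hf (a := 2) two_pos hp
  simp only [ENNReal.rpow_one] at h1
  set P := ∫⁻ ξ, ‖f ξ‖ₑ ^ p ∂μ
  set v := μ univ
  have hle1 : 1 / p ≤ 1 := by rw [div_le_one hp0]; linarith
  have hle2 : 2 / p ≤ 1 := by rw [div_le_one hp0]; linarith
  calc (∫⁻ ξ, ‖f ξ‖ₑ ∂μ) ^ (q - 2) * ∫⁻ ξ, ‖f ξ‖ₑ ^ (2 : ℝ) ∂μ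
      ≤ (P ^ (1 / p) * v ^ (1 - 1 / p)) ^ (q - 2) * (P ^ (2 / p) * v ^ (1 - 2 / p)) :=
        mul_le_mul' (ENNReal.rpow_le_rpow h1 hq2) h2
    _ = (P ^ (1 / p * (q - 2)) * P ^ (2 / p)) * (v ^ ((1 - 1 / p) * (q - 2)) * v ^ (1 - 2 / p)) := by
        rw [ENNReal.mul_rpow_of_nonneg _ _ hq2, ← ENNReal.rpow_mul, ← ENNReal.rpow_mul]
        ring
    _ = _ := by
        rw [← ENNReal.rpow_add_of_nonneg _ _ (by positivity) (by positivity),
          ← ENNReal.rpow_add_of_nonneg _ _ (mul_nonneg (by linarith) hq2) (by linarith)]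
        congr 2
        · field_simp; ring
        · field_simp; ring

lemma sum_pieces {n m : ℕ} (μ : Measure (E n)) (θ : Fin m → Set (E n))
    (hθ : ∀ j, MeasurableSet (θ j)) (hd : Pairwise (Function.onFun Disjoint θ)) (g : E n → ℝ≥0∞) :
    ∑ j, ∫⁻ ξ in θ j, g ξ ∂μ ≤ ∫⁻ ξ, g ξ ∂μ := by
  have h1 : ∫⁻ ξ in ⋃ j, θ j, g ξ ∂μ = ∑ j, ∫⁻ ξ in θ j, g ξ ∂μ := by
    rw [lintegral_iUnion hθ hd, tsum_fintype]
  rw [← h1]
  exact setLIntegral_le_lintegral _ _

lemma ind_sq {n : ℕ} (μ : Measure (E n)) (f : E n → ℂ) (S : Set (E n)) (hS : MeasurableSet S)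
    {e : ℝ} (he : 0 < e) :
    ∫⁻ w, ‖S.indicator f w‖ₑ ^ e ∂μ = ∫⁻ w in S, ‖f w‖ₑ ^ e ∂μ := by
  rw [← lintegral_indicator hS]
  refine lintegral_congr fun w => ?_
  by_cases h : w ∈ S
  · rw [indicator_of_mem h, indicator_of_mem h]
  · rw [indicator_of_notMem h, indicator_of_notMem h, enorm_zero, ENNReal.zero_rpow_of_pos he]

lemma T_le {n : ℕ} (f : E n → ℂ) (S : Set (E n)) (hS : MeasurableSet S) (x : E n) :
    ‖T (S.indicator f) x‖ₑ ≤ ∫⁻ w in S, ‖f w‖ₑ ∂(sg n) := by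
  rw [T_eq]
  refine (enorm_integral_le_lintegral_enorm _).trans (le_of_eq ?_)
  have h := ind_sq (sg n) f S hS (e := 1) one_pos
  simp only [ENNReal.rpow_one] at h
  rw [← h]
  refine lintegral_congr fun w => ?_
  rw [enorm_mul, ← ofReal_norm (ph x w), norm_ph, ENNReal.ofReal_one, one_mul]

lemma T_sum {n m : ℕ} {f : E n → ℂ} (hf : Measurable f) {M : ℝ} (hM : ∀ ξ, ‖f ξ‖ ≤ M)
    (θ : Fin m → Set (E n)) (hθ : ∀ j, MeasurableSet (θ j))
    (hd : Pairwise (Function.onFun Disjoint θ)) (x : E n) :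
    ∑ j, T ((θ j).indicator f) x = T ((⋃ j, θ j).indicator f) x := by
  have hfin : IsFiniteMeasure (sg n) := sg_finite n
  simp only [T_eq]
  rw [← integral_finsetSum]
  · apply integral_congr_ae
    refine Filter.Eventually.of_forall fun ξ => ?_
    simp only
    rw [← Finset.mul_sum]
    congr 1
    by_cases h : ∃ j, ξ ∈ θ j
    · obtain ⟨j, hj⟩ := h
      rw [indicator_of_mem (mem_iUnion.2 ⟨j, hj⟩), Finset.sum_eq_single j]
      · rw [indicator_of_mem hj]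
      · intro i _ hij
        rw [indicator_of_notMem]
        intro hi
        exact Set.disjoint_left.1 (hd hij) hi hj
      · simp
    · rw [indicator_of_notMem (fun h' => h (mem_iUnion.1 h'))]
      push Not at h
      exact Finset.sum_eq_zero fun j _ => indicator_of_notMem (h j) _
  · intro j _
    refine Integrable.of_bound (C := M) ?_ (Filter.Eventually.of_forall fun w => ?_)
    · apply Measurable.aestronglyMeasurable
      refine Measurable.mul ?_ (hf.indicator (hθ j))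
      exact (continuous_ph.comp (Continuous.prodMk_right x)).measurable
    · rw [norm_mul, norm_ph, one_mul]
      exact (norm_indicator_le_norm_self _ _).trans (hM w)

end Pool.Agent.V1181.RS
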