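import Mathlib
import Pool.Agent.V1181.RSa
set_option autoImplicit false

/-! Random translations of the pieces of a density on the sphere: the estimate. -/

namespace Pool.Agent.V1181.RS

open MeasureTheory Measure Set Metric Complex
open scoped ENNReal RealInnerProductSpace
open Pool.Agent.H789R2.FR Pool.Agent.H789R2.FR.L2

lemma ind_bdd {n : ℕ} {f : E n → ℂ} {M : ℝ} (hM : ∀ ξ, ‖f ξ‖ ≤ M) (S : Set (E n)) (ξ : E n) :
    ‖S.indicator f ξ‖ ≤ M := (norm_indicator_le_norm_self _ _).trans (hM ξ)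

/-- `L^2` norms of the pieces on a ball -/
lemma pieces_L2 {n m : ℕ} {C : ℝ} (hC : ∀ h : E n → ℂ, Measurable h →
      (∃ M : ℝ, ∀ x, ‖h x‖ ≤ M) → ∀ (u : E n) (l : ℝ), 0 < l →
      ∫⁻ x in closedBall u l, ‖T h x‖ₑ ^ (2 : ℝ) ≤
        ENNReal.ofReal (C * l) * ∫⁻ w, ‖h w‖ₑ ^ (2 : ℝ) ∂(sg n))
    (f : E n → ℂ) (hf : Measurable f) {M : ℝ} (hM : ∀ ξ, ‖f ξ‖ ≤ M)
    (θ : Fin m → Set (E n)) (hθ : ∀ j, MeasurableSet (θ j))
    (hd : Pairwise (Function.onFun Disjoint θ)) (u : E n) (l : ℝ) (hl : 0 < l) :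
    ∑ j, ∫⁻ x in closedBall u l, ‖T ((θ j).indicator f) x‖ₑ ^ (2 : ℝ) ≤
        ENNReal.ofReal (C * l) * ∫⁻ w, ‖f w‖ₑ ^ (2 : ℝ) ∂(sg n) := by
  calc ∑ j, ∫⁻ x in closedBall u l, ‖T ((θ j).indicator f) x‖ₑ ^ (2 : ℝ)
      ≤ ∑ j, ENNReal.ofReal (C * l) * ∫⁻ w in θ j, ‖f w‖ₑ ^ (2 : ℝ) ∂(sg n) := by
        refine Finset.sum_le_sum fun j _ => ?_
        have h1 := hC ((θ j).indicator f) (hf.indicator (hθ j)) ⟨M, ind_bdd hM _⟩ u l hl
        rw [ind_sq (sg n) f (θ j) (hθ j) two_pos] at h1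
        exact h1
    _ = ENNReal.ofReal (C * l) * ∑ j, ∫⁻ w in θ j, ‖f w‖ₑ ^ (2 : ℝ) ∂(sg n) := by
        rw [Finset.mul_sum]
    _ ≤ _ := mul_le_mul_right (sum_pieces (sg n) θ hθ hd _) _

lemma union_L2 {n m : ℕ} {C : ℝ} (hC : ∀ h : E n → ℂ, Measurable h →
      (∃ M : ℝ, ∀ x, ‖h x‖ ≤ M) → ∀ (u : E n) (l : ℝ), 0 < l →
      ∫⁻ x in closedBall u l, ‖T h x‖ₑ ^ (2 : ℝ) ≤
        ENNReal.ofReal (C * l) * ∫⁻ w, ‖h w‖ₑ ^ (2 : ℝ) ∂(sg n))
    (f : E n → ℂ) (hf : Measurable f) {M : ℝ} (hM : ∀ ξ, ‖f ξ‖ ≤ M)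
    (θ : Fin m → Set (E n)) (hθ : ∀ j, MeasurableSet (θ j))
    (hd : Pairwise (Function.onFun Disjoint θ)) (u : E n) (l : ℝ) (hl : 0 < l) :
    ∫⁻ x in closedBall u l, ‖∑ j, T ((θ j).indicator f) x‖ₑ ^ (2 : ℝ) ≤
        ENNReal.ofReal (C * l) * ∫⁻ w, ‖f w‖ₑ ^ (2 : ℝ) ∂(sg n) := by
  simp only [T_sum hf hM θ hθ hd]
  have hU : MeasurableSet (⋃ j, θ j) := MeasurableSet.iUnion hθ
  have h1 := hC ((⋃ j, θ j).indicator f) (hf.indicator hU) ⟨M, ind_bdd hM _⟩ u l hl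
  rw [ind_sq (sg n) f _ hU two_pos] at h1
  exact h1.trans (mul_le_mul_right (setLIntegral_le_lintegral _ _) _)

/-- the `L^q` norm of one piece on a ball -/
lemma Lq_piece {n : ℕ} {C : ℝ} (hC : ∀ h : E n → ℂ, Measurable h →
      (∃ M : ℝ, ∀ x, ‖h x‖ ≤ M) → ∀ (u : E n) (l : ℝ), 0 < l →
      ∫⁻ x in closedBall u l, ‖T h x‖ₑ ^ (2 : ℝ) ≤
        ENNReal.ofReal (C * l) * ∫⁻ w, ‖h w‖ₑ ^ (2 : ℝ) ∂(sg n))
    {k : ℕ} {A' e κ p q r : ℝ} {f : E n → ℂ} (hf : Measurable f) {M : ℝ}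
    (hM : ∀ ξ, ‖f ξ‖ ≤ M) (hp : 2 ≤ p) (hpq : p ≤ q) (he : e = q - 1 - q / p) (he0 : 0 ≤ e)
    (hA0 : 0 ≤ A') (hr0 : 0 < r) (hκ : κ = r ^ (-((k : ℝ) / 2 * e))) (S : Set (E n))
    (hS : MeasurableSet S) (hv : sg n S ≤ ENNReal.ofReal (A' * r ^ (-((k : ℝ) / 2))))
    (u : E n) (l : ℝ) (hl : 0 < l) :
    ∫⁻ x in closedBall u l, ‖T (S.indicator f) x‖ₑ ^ q ≤
      ENNReal.ofReal (C * l) *
        ((∫⁻ ξ in S, ‖f ξ‖ₑ ^ p ∂(sg n)) ^ (q / p) * ENNReal.ofReal (A' ^ e * κ)) := by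
  have hfin : IsFiniteMeasure (sg n) := sg_finite n
  have hTm : Measurable (T (S.indicator f)) := (measurable_T _ (hf.indicator hS)).measurable
  have h0 := hC (S.indicator f) (hf.indicator hS) ⟨M, ind_bdd hM _⟩ u l hl
  rw [ind_sq (sg n) f S hS two_pos] at h0
  have h1 : ∫⁻ x in closedBall u l, ‖T (S.indicator f) x‖ₑ ^ q ≤
      (∫⁻ ξ in S, ‖f ξ‖ₑ ∂(sg n)) ^ (q - 2) *
      ∫⁻ x in closedBall u l, ‖T (S.indicator f) x‖ₑ ^ (2 : ℝ) := by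
    rw [← lintegral_const_mul _ (hTm.enorm.pow_const 2)]
    apply lintegral_mono
    intro x
    have h2 : ‖T (S.indicator f) x‖ₑ ^ q =
        ‖T (S.indicator f) x‖ₑ ^ (q - 2) * ‖T (S.indicator f) x‖ₑ ^ (2 : ℝ) := by
      rw [← ENNReal.rpow_add_of_nonneg _ _ (by linarith) (by norm_num)]
      congr 1
      ring
    simp only
    rw [h2]
    exact mul_le_mul_left (ENNReal.rpow_le_rpow (T_le f S hS x) (by linarith)) _
  have h3 : (∫⁻ ξ in S, ‖f ξ‖ₑ ∂(sg n)) ^ (q - 2) * ∫⁻ w in S, ‖f w‖ₑ ^ (2 : ℝ) ∂(sg n) ≤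
      (∫⁻ ξ in S, ‖f ξ‖ₑ ^ p ∂(sg n)) ^ (q / p) * ENNReal.ofReal (A' ^ e * κ) := by
    refine (piece ((sg n).restrict S) f hf hp hpq).trans ?_
    refine mul_le_mul_right ?_ _
    rw [Measure.restrict_apply_univ, ← he]
    calc sg n S ^ e ≤ ENNReal.ofReal (A' * r ^ (-((k : ℝ) / 2))) ^ e :=
          ENNReal.rpow_le_rpow hv he0
      _ = ENNReal.ofReal (A' ^ e * κ) := by
          rw [ENNReal.ofReal_rpow_of_nonneg (by positivity) he0,
            Real.mul_rpow hA0 (by positivity), ← Real.rpow_mul hr0.le]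
          congr 2
          rw [hκ]
          congr 1
          ring
  calc ∫⁻ x in closedBall u l, ‖T (S.indicator f) x‖ₑ ^ q
      ≤ (∫⁻ ξ in S, ‖f ξ‖ₑ ∂(sg n)) ^ (q - 2) *
        (ENNReal.ofReal (C * l) * ∫⁻ w in S, ‖f w‖ₑ ^ (2 : ℝ) ∂(sg n)) :=
        h1.trans (mul_le_mul_right h0 _)
    _ = ENNReal.ofReal (C * l) *
        ((∫⁻ ξ in S, ‖f ξ‖ₑ ∂(sg n)) ^ (q - 2) * ∫⁻ w in S, ‖f w‖ₑ ^ (2 : ℝ) ∂(sg n)) := by ring
    _ ≤ _ := mul_le_mul_right h3 _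

/-- the bound on a ball -/
theorem ball_bound (k : ℕ) (hk : 1 ≤ k) (A B p q : ℝ) (hp : 2 ≤ p) (hpq : p ≤ q) :
    ∃ C : ℝ, 0 < C ∧ ∀ r : ℝ, 1 ≤ r → ∀ L : ℝ, r ≤ L → ∀ (m : ℕ) (θ : Fin m → Set (E (k + 1))),
      (∀ j, MeasurableSet (θ j)) → Pairwise (Function.onFun Disjoint θ) →
      (∀ j, sg (k + 1) (θ j) ≤ ENNReal.ofReal (A * r ^ (-((k : ℝ) / 2)))) →
      ∀ (ρ : Measure (E (k + 1))) [IsProbabilityMeasure ρ],
      ρ (closedBall 0 (B * r))ᶜ = 0 →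
      ρ ≤ ENNReal.ofReal (B * r ^ (-((k : ℝ) + 1))) • (volume : Measure (E (k + 1))) →
      ∀ f : E (k + 1) → ℂ, Measurable f → (∃ M : ℝ, ∀ ξ, ‖f ξ‖ ≤ M) →
      ∫⁻ x in ball 0 L, ∫⁻ y : Fin m → E (k + 1), ‖∑ j, T ((θ j).indicator f) (x - y j)‖ₑ ^ q
          ∂(Measure.pi fun _ => ρ) ≤
        ENNReal.ofReal (C * L * r ^ (-((k : ℝ) / 2 * (q - 1 - q / p)))) *
          (∫⁻ ξ, ‖f ξ‖ₑ ^ p ∂(sg (k + 1))) ^ (q / p) := by
  have hfin : IsFiniteMeasure (sg (k + 1)) := sg_finite (k + 1)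
  have hq : 2 ≤ q := by linarith
  have hp0 : 0 < p := by linarith
  have hq0 : 0 < q := by linarith
  obtain ⟨C, hC0, hC⟩ := Pool.Agent.V1181.RT.product_enn hq
  obtain ⟨C2, hC20, hC2⟩ := ball_L2 (k + 1) (by omega)
  set e : ℝ := q - 1 - q / p with he
  have hqp : 1 ≤ q / p := by rw [le_div_iff₀ hp0]; linarith
  have hqp2 : q / p ≤ q / 2 := by
    rw [div_le_div_iff₀ hp0 two_pos]; nlinarith
  have he0 : 0 ≤ e := by rw [he]; linarith
  set A' : ℝ := max A 0 with hA'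
  set B' : ℝ := max B 1 with hB'
  have hA0 : 0 ≤ A' := le_max_right _ _
  have hB1 : 1 ≤ B' := le_max_right _ _
  have hB0 : 0 < B' := by linarith
  set D : ℝ := B' * C2 * B' with hD
  have hD0 : 0 < D := by positivity
  set c : ℝ := (sg (k + 1) univ).toReal with hc
  have hc0 : 0 ≤ c := ENNReal.toReal_nonneg
  have hcv : sg (k + 1) univ = ENNReal.ofReal c := (ENNReal.ofReal_toReal (measure_ne_top _ _)).symm
  set c1 : ℝ := D ^ (q / 2 - 1) * c ^ ((1 - 2 / p) * (q / 2)) with hc1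
  set c2 : ℝ := A' ^ e with hc2
  have hc10 : 0 ≤ c1 := by positivity
  have hc20 : 0 ≤ c2 := by positivity
  refine ⟨C * C2 * (1 + B') * (2 * c1 + c2) + 1, by positivity, ?_⟩
  intro r hr L hL m θ hθ hd hv ρ _ hρs hρ f hf ⟨M, hM⟩
  have hr0 : 0 < r := by linarith
  have hL0 : 0 < L := by linarith
  set κ : ℝ := r ^ (-((k : ℝ) / 2 * e)) with hκ
  have hκ0 : 0 < κ := by positivity
  set b : ℝ≥0∞ := ENNReal.ofReal (B' * r ^ (-((k : ℝ) + 1))) with hb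
  have hρb : ρ ≤ b • (volume : Measure (E (k + 1))) := by
    refine hρ.trans ?_
    intro s
    rw [Measure.smul_apply, Measure.smul_apply, smul_eq_mul, smul_eq_mul]
    refine mul_le_mul_left ?_ _
    rw [hb]
    apply ENNReal.ofReal_le_ofReal
    exact mul_le_mul_of_nonneg_right (le_max_left _ _) (by positivity)
  set s : ℝ := B' * r with hs
  have hs0 : 0 < s := by positivity
  have hρs' : ρ (closedBall 0 s)ᶜ = 0 := by
    refine measure_mono_null (compl_subset_compl.2 (closedBall_subset_closedBall ?_)) hρs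
    exact mul_le_mul_of_nonneg_right (le_max_left _ _) hr0.le
  have hLs : 0 < L + s := by positivity
  set φ : Fin m → E (k + 1) → ℂ := fun j x => T ((θ j).indicator f) x with hφ
  have hφm : ∀ j, Measurable (φ j) := fun j => (measurable_T _ (hf.indicator (hθ j))).measurable
  have hφb : ∀ j x, ‖φ j x‖ ≤ M * (sg (k + 1)).real univ := fun j x =>
    norm_T_le _ M (ind_bdd hM _) x
  -- the quantities
  set P : ℝ≥0∞ := ∫⁻ ξ, ‖f ξ‖ₑ ^ p ∂(sg (k + 1)) with hP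
  set n2 : ℝ≥0∞ := ∫⁻ ξ, ‖f ξ‖ₑ ^ (2 : ℝ) ∂(sg (k + 1)) with hn2
  have hsum : ∀ (u : E (k + 1)) (l : ℝ), 0 < l →
      ∑ j, ∫⁻ x in closedBall u l, ‖φ j x‖ₑ ^ (2 : ℝ) ≤ ENNReal.ofReal (C2 * l) * n2 :=
    fun u l hl => pieces_L2 hC2 f hf hM θ hθ hd u l hl
  have huni : ∀ (u : E (k + 1)) (l : ℝ), 0 < l →
      ∫⁻ x in closedBall u l, ‖∑ j, φ j x‖ₑ ^ (2 : ℝ) ≤ ENNReal.ofReal (C2 * l) * n2 :=
    fun u l hl => union_L2 hC2 f hf hM θ hθ hd u l hl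
  have hS1 : ∀ x, ∫⁻ v, (∑ j, ‖φ j (x - v)‖ₑ ^ (2 : ℝ)) ∂ρ ≤
      b * (ENNReal.ofReal (C2 * s) * n2) := by
    intro x
    have h1 := conv_sup ρ (fun x => ∑ j, ‖φ j x‖ₑ ^ (2 : ℝ)) b hρb hρs' x
    refine h1.trans (mul_le_mul_right ?_ _)
    rw [lintegral_finsetSum _ fun j _ => (hφm j).enorm.pow_const 2]
    exact hsum x s hs0
  have hS3 : ∀ x, ∫⁻ v, ‖∑ j, φ j (x - v)‖ₑ ^ (2 : ℝ) ∂ρ ≤
      b * (ENNReal.ofReal (C2 * s) * n2) := by
    intro x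
    have h1 := conv_sup ρ (fun x => ‖∑ j, φ j x‖ₑ ^ (2 : ℝ)) b hρb hρs' x
    exact h1.trans (mul_le_mul_right (huni x s hs0) _)
  have hU : ∑ j, ∫⁻ z in closedBall 0 (L + s), ‖φ j z‖ₑ ^ q ≤
      ENNReal.ofReal (C2 * (L + s)) * (P ^ (q / p) * ENNReal.ofReal (c2 * κ)) := by
    calc ∑ j, ∫⁻ z in closedBall 0 (L + s), ‖φ j z‖ₑ ^ q
        ≤ ∑ j, ENNReal.ofReal (C2 * (L + s)) * ((∫⁻ ξ in θ j, ‖f ξ‖ₑ ^ p ∂(sg (k + 1))) ^ (q / p) *
            ENNReal.ofReal (c2 * κ)) := by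
          refine Finset.sum_le_sum fun j _ => ?_
          refine Lq_piece hC2 hf hM hp hpq he he0 hA0 hr0 hκ (θ j) (hθ j) ((hv j).trans ?_) 0
            (L + s) hLs
          apply ENNReal.ofReal_le_ofReal
          exact mul_le_mul_of_nonneg_right (le_max_left _ _) (by positivity)
      _ = ENNReal.ofReal (C2 * (L + s)) * ((∑ j, (∫⁻ ξ in θ j, ‖f ξ‖ₑ ^ p ∂(sg (k + 1))) ^ (q / p)) *
            ENNReal.ofReal (c2 * κ)) := by
          rw [Finset.sum_mul, Finset.mul_sum]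
      _ ≤ _ := by
          refine mul_le_mul_right (mul_le_mul_left ?_ _) _
          refine (Pool.Agent.V1181.RT.enn_sum_rpow Finset.univ _ hqp).trans ?_
          exact ENNReal.rpow_le_rpow (sum_pieces (sg (k + 1)) θ hθ hd _) (by positivity)
  have havg := average ρ hq hC hρs' (L := L) φ hφm hφb (b * (ENNReal.ofReal (C2 * s) * n2))
    (ENNReal.ofReal (C2 * (L + s)) * n2)
    (ENNReal.ofReal (C2 * (L + s)) * (P ^ (q / p) * ENNReal.ofReal (c2 * κ))) hS1 hS3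
    (hsum 0 (L + s) hLs) (huni 0 (L + s) hLs) hU
  have hbb : b * (ENNReal.ofReal (C2 * s) * n2) =
      ENNReal.ofReal (D * r ^ (-(k : ℝ))) * n2 := by
    rw [← mul_assoc, hb, ← ENNReal.ofReal_mul (by positivity)]
    congr 2
    rw [hs, hD]
    have h1 : r ^ (-(k : ℝ)) = r ^ (-((k : ℝ) + 1)) * r := by
      nth_rewrite 3 [← Real.rpow_one r]
      rw [← Real.rpow_add hr0]
      congr 1
      ring
    rw [h1]
    ring
  have hmain : (ENNReal.ofReal (D * r ^ (-(k : ℝ))) * n2) ^ (q / 2 - 1) * n2 ≤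
      P ^ (q / p) * ENNReal.ofReal (c1 * κ) := by
    have h1 := holder (sg (k + 1)) f hf (a := 2) two_pos hp
    rw [hcv] at h1
    exact Pool.Agent.V1181.RT.square_term hp hpq he hD0.le hc0 hr hκ rfl h1
  refine havg.trans ?_
  rw [hbb]
  calc ENNReal.ofReal C * (2 * ((ENNReal.ofReal (D * r ^ (-(k : ℝ))) * n2) ^ (q / 2 - 1) *
          (ENNReal.ofReal (C2 * (L + s)) * n2)) +
          ENNReal.ofReal (C2 * (L + s)) * (P ^ (q / p) * ENNReal.ofReal (c2 * κ)))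
      = ENNReal.ofReal C * (ENNReal.ofReal (C2 * (L + s)) *
        (2 * ((ENNReal.ofReal (D * r ^ (-(k : ℝ))) * n2) ^ (q / 2 - 1) * n2) +
          P ^ (q / p) * ENNReal.ofReal (c2 * κ))) := by ring
    _ ≤ ENNReal.ofReal C * (ENNReal.ofReal (C2 * (L + s)) *
        (2 * (P ^ (q / p) * ENNReal.ofReal (c1 * κ)) +
          P ^ (q / p) * ENNReal.ofReal (c2 * κ))) :=
        mul_le_mul_right (mul_le_mul_right (add_le_add (mul_le_mul_right hmain _) le_rfl) _) _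
    _ = ENNReal.ofReal (C * (C2 * (L + s)) * (2 * (c1 * κ) + c2 * κ)) * P ^ (q / p) := by
        have e2 : (2 : ℝ≥0∞) = ENNReal.ofReal 2 := by simp
        have e3 : 2 * (P ^ (q / p) * ENNReal.ofReal (c1 * κ)) +
            P ^ (q / p) * ENNReal.ofReal (c2 * κ) =
            ENNReal.ofReal (2 * (c1 * κ) + c2 * κ) * P ^ (q / p) := by
          rw [ENNReal.ofReal_add (by positivity) (by positivity),
            ENNReal.ofReal_mul (by norm_num : (0 : ℝ) ≤ 2), ← e2]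
          ring
        have e4 : ENNReal.ofReal (C * (C2 * (L + s)) * (2 * (c1 * κ) + c2 * κ)) =
            ENNReal.ofReal C * (ENNReal.ofReal (C2 * (L + s)) *
              ENNReal.ofReal (2 * (c1 * κ) + c2 * κ)) := by
          rw [← ENNReal.ofReal_mul (by positivity), ← ENNReal.ofReal_mul hC0.le, mul_assoc]
        rw [e3, e4]
        simp only [mul_assoc]
    _ ≤ _ := by
        refine mul_le_mul_left (ENNReal.ofReal_le_ofReal ?_) _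
        have h1 : L + s ≤ (1 + B') * L := by
          rw [hs]
          nlinarith
        calc C * (C2 * (L + s)) * (2 * (c1 * κ) + c2 * κ)
            ≤ C * (C2 * ((1 + B') * L)) * (2 * (c1 * κ) + c2 * κ) := by gcongr
          _ = (C * C2 * (1 + B') * (2 * c1 + c2)) * (L * κ) := by ring
          _ ≤ (C * C2 * (1 + B') * (2 * c1 + c2) + 1) * (L * κ) :=
              mul_le_mul_of_nonneg_right (by linarith) (by positivity)
          _ = _ := by ring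

end Pool.Agent.V1181.RS
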