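import Mathlib
import Pool.Agent.V1181.Lap

/-!
# Radial inversion of the Laplacian in even dimensions

In dimension `2 (k + 1)` and in the variable `s = |x| ^ 2` the Laplacian is
`4 s F'' + 4 (k + 1) F'`, and `K k` is its right inverse vanishing at the origin.
-/

set_option autoImplicit false

namespace Pool.Agent.V1181

open Real Set Filter MeasureTheory Topology InnerProductSpace Laplacian

/-- Averaging operator. -/
noncomputable def A (k : ℕ) (G : ℝ → ℝ) (s : ℝ) : ℝ := ∫ τ in (0 : ℝ)..1, τ ^ k * G (τ * s)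

/-- Right inverse of the radial Laplacian in the variable `|x| ^ 2`. -/
noncomputable def K (k : ℕ) (G : ℝ → ℝ) (s : ℝ) : ℝ := (1 / 4) * ∫ σ in (0 : ℝ)..s, A k G σ

theorem A_cont {k : ℕ} {G : ℝ → ℝ} (hG : Continuous G) : Continuous (A k G) := by
  unfold A
  refine intervalIntegral.continuous_parametric_intervalIntegral_of_continuous' ?_ 0 1
  fun_prop

theorem A_hasDerivAt {k : ℕ} {G : ℝ → ℝ} (hG : ContDiff ℝ 1 G) (s : ℝ) :
    HasDerivAt (A k G) (A (k + 1) (deriv G) s) s := by
  have hGc := hG.continuous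
  have hG'c : Continuous (deriv G) := hG.continuous_deriv (le_refl _)
  have hG'd : ∀ t, HasDerivAt G (deriv G t) t := fun t =>
    (hG.differentiable (by norm_num) t).hasDerivAt
  obtain ⟨M, hM⟩ := (isCompact_Icc (a := -(|s| + 1)) (b := |s| + 1)).exists_bound_of_continuousOn
    hG'c.continuousOn
  have h := intervalIntegral.hasDerivAt_integral_of_dominated_loc_of_deriv_le (μ := volume)
    (a := 0) (b := 1) (F := fun s τ => τ ^ k * G (τ * s))
    (F' := fun s τ => τ ^ (k + 1) * deriv G (τ * s)) (x₀ := s) (s := Metric.ball s 1)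
    (bound := fun _ => M) (Metric.ball_mem_nhds s one_pos)
    (Filter.Eventually.of_forall fun x => Continuous.aestronglyMeasurable (by fun_prop))
    (Continuous.intervalIntegrable (by fun_prop) _ _)
    (Continuous.aestronglyMeasurable (by fun_prop))
    (Filter.Eventually.of_forall fun τ hτ x hx => by
      rw [uIoc_of_le zero_le_one] at hτ
      have hx' : |x - s| < 1 := by rwa [Metric.mem_ball, Real.dist_eq] at hx
      have h1 : |τ * x| ≤ |s| + 1 := by
        rw [abs_mul, abs_of_pos hτ.1]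
        have h2 : |x| ≤ |s| + 1 := by
          have := abs_sub_abs_le_abs_sub x s
          linarith
        nlinarith [abs_nonneg x, hτ.2, hτ.1]
      have h3 := hM (τ * x) (abs_le.1 h1)
      rw [norm_mul, norm_pow, Real.norm_of_nonneg hτ.1.le]
      calc τ ^ (k + 1) * ‖deriv G (τ * x)‖ ≤ 1 * ‖deriv G (τ * x)‖ := by
            gcongr
            exact pow_le_one₀ hτ.1.le hτ.2
        _ ≤ M := by rwa [one_mul])
    (by simp)
    (Filter.Eventually.of_forall fun τ hτ x hx => by
      have h1 : HasDerivAt (fun x : ℝ => τ * x) τ x := by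
        simpa using (hasDerivAt_id x).const_mul τ
      have h2 := ((hG'd (τ * x)).comp x h1).const_mul (τ ^ k)
      refine h2.congr_deriv ?_
      ring)
  exact h.2

theorem A_contDiff {n : ℕ} : ∀ {k : ℕ} {G : ℝ → ℝ}, ContDiff ℝ n G → ContDiff ℝ n (A k G) := by
  induction n with
  | zero =>
    intro k G hG
    exact contDiff_zero.2 (A_cont hG.continuous)
  | succ n ih =>
    intro k G hG
    have hG1 : ContDiff ℝ 1 G := hG.of_le (by exact_mod_cast Nat.le_add_left 1 n)
    have hG2 : ContDiff ℝ n (deriv G) := by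
      have h : ContDiff ℝ ((n : WithTop ℕ∞) + 1) G := by exact_mod_cast hG
      exact (contDiff_succ_iff_deriv.1 h).2.2
    have hd : deriv (A k G) = A (k + 1) (deriv G) := by
      funext s
      exact (A_hasDerivAt hG1 s).deriv
    have h : ContDiff ℝ ((n : WithTop ℕ∞) + 1) (A k G) := by
      refine contDiff_succ_iff_deriv.2 ⟨fun s => (A_hasDerivAt hG1 s).differentiableAt, ?_, ?_⟩
      · intro h
        exact absurd h (by simp)
      · rw [hd]
        exact ih hG2
    exact_mod_cast h

theorem K_hasDerivAt {k : ℕ} {G : ℝ → ℝ} (hG : Continuous G) (s : ℝ) :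
    HasDerivAt (K k G) (1 / 4 * A k G s) s := by
  unfold K
  refine HasDerivAt.const_mul _ ?_
  exact intervalIntegral.integral_hasDerivAt_right ((A_cont hG).intervalIntegrable _ _)
    ((A_cont hG).stronglyMeasurableAtFilter _ _) (A_cont hG).continuousAt

theorem K_cont {k : ℕ} {G : ℝ → ℝ} (hG : Continuous G) : Continuous (K k G) :=
  continuous_iff_continuousAt.2 fun s => (K_hasDerivAt hG s).continuousAt

theorem K_contDiff {n : ℕ} {k : ℕ} {G : ℝ → ℝ} (hG : ContDiff ℝ n G) :
    ContDiff ℝ (n + 1 : ℕ) (K k G) := by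
  have hd : deriv (K k G) = fun s => 1 / 4 * A k G s := by
    funext s
    exact (K_hasDerivAt hG.continuous s).deriv
  have h : ContDiff ℝ ((n : WithTop ℕ∞) + 1) (K k G) := by
    refine contDiff_succ_iff_deriv.2
      ⟨fun s => (K_hasDerivAt hG.continuous s).differentiableAt, ?_, ?_⟩
    · intro h
      exact absurd h (by simp)
    · rw [hd]
      exact contDiff_const.mul (A_contDiff hG)
  exact_mod_cast h

theorem K_contDiff_infty {k : ℕ} {G : ℝ → ℝ} (hG : ContDiff ℝ (⊤ : ℕ∞) G) :
    ContDiff ℝ (⊤ : ℕ∞) (K k G) := by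
  rw [contDiff_infty]
  intro n
  exact (K_contDiff (contDiff_infty.1 hG n)).of_le (by exact_mod_cast Nat.le_succ n)

theorem K_zero {k : ℕ} {G : ℝ → ℝ} : K k G 0 = 0 := by simp [K]

/-- Euler type identity. -/
theorem A_euler {k : ℕ} {G : ℝ → ℝ} (hG : ContDiff ℝ 1 G) (s : ℝ) :
    s * A (k + 1) (deriv G) s + (k + 1) * A k G s = G s := by
  have hGc := hG.continuous
  have hG'c : Continuous (deriv G) := hG.continuous_deriv (le_refl _)
  have hG'd : ∀ t, HasDerivAt G (deriv G t) t := fun t =>
    (hG.differentiable (by norm_num) t).hasDerivAt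
  have hd : ∀ τ ∈ uIcc (0 : ℝ) 1, HasDerivAt (fun τ => τ ^ (k + 1) * G (τ * s))
      (s * (τ ^ (k + 1) * deriv G (τ * s)) + (k + 1) * (τ ^ k * G (τ * s))) τ := by
    intro τ _
    have h1 : HasDerivAt (fun τ : ℝ => τ * s) s τ := by
      simpa using (hasDerivAt_id τ).mul_const s
    have h2 := (hasDerivAt_pow (k + 1) τ).mul ((hG'd (τ * s)).comp τ h1)
    refine h2.congr_deriv ?_
    simp only [Function.comp_apply]
    push_cast
    ring
  have hi := intervalIntegral.integral_eq_sub_of_hasDerivAt hd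
    (Continuous.intervalIntegrable (by fun_prop) _ _)
  rw [intervalIntegral.integral_add (Continuous.intervalIntegrable (by fun_prop) _ _)
    (Continuous.intervalIntegrable (by fun_prop) _ _), intervalIntegral.integral_const_mul,
    intervalIntegral.integral_const_mul] at hi
  unfold A
  rw [hi]
  simp

/-- The operator `K` inverts the Laplacian. -/
theorem lap_K {E : Type*} [NormedAddCommGroup E] [InnerProductSpace ℝ E] [FiniteDimensional ℝ E]
    {k : ℕ} (hE : Module.finrank ℝ E = 2 * (k + 1)) {c : ℝ} {G : ℝ → ℝ}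
    (hG : ContDiff ℝ (⊤ : ℕ∞) G) :
    Δ (fun x : E => c + K k G (‖x‖ ^ 2)) = fun x : E => G (‖x‖ ^ 2) := by
  funext x
  have hG1 : ContDiff ℝ 1 G := by exact_mod_cast contDiff_infty.1 hG 1
  have hK := K_contDiff_infty (k := k) hG
  have h := lap_radial (E := E) (F := fun s => c + K k G s) (F' := fun s => 1 / 4 * A k G s)
    (F'' := 1 / 4 * A (k + 1) (deriv G) (‖x‖ ^ 2)) (x := x)
    (by exact_mod_cast (contDiff_infty.1 (contDiff_const.add hK) 2).contDiffAt)
    (Filter.Eventually.of_forall fun s => (K_hasDerivAt hG.continuous s).const_add c)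
    ((A_hasDerivAt hG1 _).const_mul _)
  rw [h, hE]
  have e := A_euler (k := k) hG1 (‖x‖ ^ 2)
  push_cast
  linarith

theorem A_bound {k : ℕ} {G : ℝ → ℝ} {s B : ℝ} (h : ∀ t, |t| ≤ |s| → |G t| ≤ B) :
    |A k G s| ≤ B := by
  have hB : 0 ≤ B := (abs_nonneg _).trans (h s (le_refl _))
  unfold A
  rw [← Real.norm_eq_abs]
  have h1 := intervalIntegral.norm_integral_le_of_norm_le_const (a := (0 : ℝ)) (b := 1)
    (f := fun τ => τ ^ k * G (τ * s)) (C := B) (fun τ hτ => by
      rw [uIoc_of_le zero_le_one] at hτ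
      rw [norm_mul, norm_pow, Real.norm_of_nonneg hτ.1.le, Real.norm_eq_abs]
      have h2 : |τ * s| ≤ |s| := by
        rw [abs_mul, abs_of_pos hτ.1]
        nlinarith [abs_nonneg s, hτ.2]
      calc τ ^ k * |G (τ * s)| ≤ 1 * B := by
            gcongr
            · exact pow_le_one₀ hτ.1.le hτ.2
            · exact h _ h2
        _ = B := one_mul _)
  simpa using h1

theorem A_neg_arg {k : ℕ} {G : ℝ → ℝ} (s : ℝ) : A k G (-s) = A k (fun t => G (-t)) s := by
  unfold A
  simp

theorem K_neg_arg {k : ℕ} {G : ℝ → ℝ} (s : ℝ) : K k G (-s) = - K k (fun t => G (-t)) s := by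
  unfold K
  have h : ∫ σ in (0 : ℝ)..(-s), A k G σ = - ∫ σ in (0 : ℝ)..s, A k (fun t => G (-t)) σ := by
    have h1 := intervalIntegral.integral_comp_neg (a := 0) (b := s) (fun σ => A k G σ)
    rw [neg_zero] at h1
    rw [intervalIntegral.integral_symm, ← h1]
    simp only [A_neg_arg]
  rw [h]
  ring

theorem A_sub {k : ℕ} {G H : ℝ → ℝ} (hG : Continuous G) (hH : Continuous H) (s : ℝ) :
    A k (fun t => G t - H t) s = A k G s - A k H s := by
  unfold A
  rw [← intervalIntegral.integral_sub (Continuous.intervalIntegrable (by fun_prop) _ _)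
    (Continuous.intervalIntegrable (by fun_prop) _ _)]
  congr 1
  funext τ
  ring

theorem K_sub {k : ℕ} {G H : ℝ → ℝ} (hG : Continuous G) (hH : Continuous H) (s : ℝ) :
    K k (fun t => G t - H t) s = K k G s - K k H s := by
  unfold K
  have h : (fun σ => A k (fun t => G t - H t) σ) = fun σ => A k G σ - A k H σ := by
    funext σ
    exact A_sub hG hH σ
  rw [h, intervalIntegral.integral_sub ((A_cont hG).intervalIntegrable _ _)
    ((A_cont hH).intervalIntegrable _ _)]
  ring

theorem A_nonneg {k : ℕ} {G : ℝ → ℝ} {s : ℝ} (hs : 0 ≤ s) (h : ∀ t, 0 ≤ t → t ≤ s → 0 ≤ G t) :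
    0 ≤ A k G s := by
  unfold A
  refine intervalIntegral.integral_nonneg zero_le_one fun τ hτ => ?_
  exact mul_nonneg (pow_nonneg hτ.1 _) (h _ (mul_nonneg hτ.1 hs) (by nlinarith [hτ.2]))

theorem K_nonneg {k : ℕ} {G : ℝ → ℝ} {s : ℝ} (hs : 0 ≤ s) (h : ∀ t, 0 ≤ t → t ≤ s → 0 ≤ G t) :
    0 ≤ K k G s := by
  unfold K
  refine mul_nonneg (by norm_num) (intervalIntegral.integral_nonneg hs fun σ hσ => ?_)
  exact A_nonneg hσ.1 fun t h0 h1 => h t h0 (h1.trans hσ.2)

end Pool.Agent.V1181
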