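import Mathlib
import Pool.Agent.V1181.RadOp

/-!
# Existence of smooth radial solutions of polyharmonic equations with prescribed data
-/

set_option autoImplicit false

namespace Pool.Agent.V1181

open Real Set Filter MeasureTheory Topology InnerProductSpace Laplacian

/-- The function with iterated Laplacians `a 0, ..., a (m - 1)` at the origin and `m`-th Laplacian
equal to `G`. -/
noncomputable def Phi (k : ℕ) : ℕ → (ℕ → ℝ) → (ℝ → ℝ) → ℝ → ℝ
  | 0, _, G => G
  | (m + 1), a, G => fun s => a 0 + K k (Phi k m (fun i => a (i + 1)) G) s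

theorem Phi_cont {k : ℕ} : ∀ (m : ℕ) (a : ℕ → ℝ) {G : ℝ → ℝ}, Continuous G →
    Continuous (Phi k m a G)
  | 0, _, _, hG => hG
  | (m + 1), a, _, hG => continuous_const.add (K_cont (Phi_cont m (fun i => a (i + 1)) hG))

theorem Phi_contDiff {k n : ℕ} : ∀ (m : ℕ) (a : ℕ → ℝ) {G : ℝ → ℝ}, ContDiff ℝ n G →
    ContDiff ℝ n (Phi k m a G)
  | 0, _, _, hG => hG
  | (m + 1), a, _, hG => contDiff_const.add
      ((K_contDiff (Phi_contDiff m (fun i => a (i + 1)) hG)).of_le
        (by exact_mod_cast Nat.le_succ n))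

theorem Phi_contDiff_succ {k n : ℕ} (m : ℕ) (a : ℕ → ℝ) {G : ℝ → ℝ} (hG : ContDiff ℝ n G) :
    ContDiff ℝ (n + 1 : ℕ) (Phi k (m + 1) a G) :=
  contDiff_const.add (K_contDiff (Phi_contDiff m (fun i => a (i + 1)) hG))

theorem Phi_contDiff_infty {k : ℕ} (m : ℕ) (a : ℕ → ℝ) {G : ℝ → ℝ}
    (hG : ContDiff ℝ (⊤ : ℕ∞) G) : ContDiff ℝ (⊤ : ℕ∞) (Phi k m a G) := by
  rw [contDiff_infty] at hG ⊢
  intro n
  exact Phi_contDiff m a (hG n)

section contraction

variable {κ : ℝ → ℝ} (hκc : Continuous κ) (hκm : ∀ s t, 0 ≤ s → s ≤ t → κ s ≤ κ t)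
  (hκ1 : ∀ s, 0 ≤ s → 1 ≤ κ s)

/-- The weight. -/
noncomputable def Om (κ : ℝ → ℝ) (s : ℝ) : ℝ := exp (∫ t in (0 : ℝ)..|s|, κ t)

include hκc

theorem Om_cont : Continuous (Om κ) := by
  unfold Om
  have h : Continuous fun s : ℝ => ∫ t in (0 : ℝ)..s, κ t :=
    intervalIntegral.continuous_primitive (fun a b => hκc.intervalIntegrable a b) 0
  exact Real.continuous_exp.comp (h.comp continuous_abs)

theorem Om_hasDerivAt (s : ℝ) : HasDerivAt (fun s : ℝ => exp (∫ t in (0 : ℝ)..s, κ t))
    (κ s * exp (∫ t in (0 : ℝ)..s, κ t)) s := by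
  have h := intervalIntegral.integral_hasDerivAt_right (hκc.intervalIntegrable 0 s)
    (hκc.stronglyMeasurableAtFilter _ _) hκc.continuousAt
  refine h.exp.congr_deriv ?_
  ring

include hκ1

theorem Om_mono {s t : ℝ} (h : |s| ≤ |t|) : Om κ s ≤ Om κ t := by
  unfold Om
  refine Real.exp_le_exp.2 ?_
  refine intervalIntegral.integral_mono_interval (le_refl _) (abs_nonneg s) h ?_
    (hκc.intervalIntegrable _ _)
  refine (ae_restrict_mem measurableSet_Ioc).mono fun x hx => ?_
  exact zero_le_one.trans (hκ1 x hx.1.le)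

theorem one_le_Om (s : ℝ) : 1 ≤ Om κ s := by
  have h := Om_mono hκc hκ1 (s := 0) (t := s) (by simp)
  simpa [Om] using h

include hκm

theorem K_weight_pos {k : ℕ} {G : ℝ → ℝ} {c : ℝ} (hG : Continuous G)
    (h : ∀ t, |G t| ≤ c * (κ |t| * Om κ t)) {s : ℝ} (hs : 0 ≤ s) :
    |K k G s| ≤ c / 4 * Om κ s := by
  have hc : 0 ≤ c := by
    have h0 := (abs_nonneg _).trans (h 0)
    have h1 : 0 < κ |0| * Om κ 0 := mul_pos
      (lt_of_lt_of_le one_pos (hκ1 _ (abs_nonneg _))) (lt_of_lt_of_le one_pos (one_le_Om hκc hκ1 _))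
    by_contra hneg
    rw [not_le] at hneg
    have := mul_neg_of_neg_of_pos hneg h1
    linarith
  have hA : ∀ σ, |A k G σ| ≤ c * (κ |σ| * Om κ σ) := by
    intro σ
    refine A_bound fun t ht => (h t).trans ?_
    have h1 := hκm |t| |σ| (abs_nonneg _) ht
    have h2 := Om_mono hκc hκ1 ht
    have h3 := hκ1 |t| (abs_nonneg _)
    have h4 := one_le_Om hκc hκ1 t
    gcongr
    linarith
  unfold K
  rw [abs_mul, abs_of_pos (by norm_num : (0 : ℝ) < 1 / 4)]
  have h1 : |∫ σ in (0 : ℝ)..s, A k G σ| ≤ ∫ σ in (0 : ℝ)..s, c * (κ σ *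
      exp (∫ t in (0 : ℝ)..σ, κ t)) := by
    rw [← Real.norm_eq_abs]
    refine intervalIntegral.norm_integral_le_of_norm_le hs ?_ ?_
    · refine Filter.Eventually.of_forall fun σ hσ => ?_
      have := hA σ
      unfold Om at this
      rwa [abs_of_pos hσ.1] at this
    · refine Continuous.intervalIntegrable ?_ _ _
      have h2 : Continuous fun s : ℝ => ∫ t in (0 : ℝ)..s, κ t :=
        intervalIntegral.continuous_primitive (fun a b => hκc.intervalIntegrable a b) 0
      exact continuous_const.mul (hκc.mul (Real.continuous_exp.comp h2))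
  have h2 : ∫ σ in (0 : ℝ)..s, c * (κ σ * exp (∫ t in (0 : ℝ)..σ, κ t))
      = c * (exp (∫ t in (0 : ℝ)..s, κ t) - 1) := by
    rw [intervalIntegral.integral_const_mul]
    congr 1
    have h3 := intervalIntegral.integral_eq_sub_of_hasDerivAt
      (fun x (_ : x ∈ uIcc 0 s) => Om_hasDerivAt hκc x) (by
        refine Continuous.intervalIntegrable ?_ _ _
        have h2 : Continuous fun s : ℝ => ∫ t in (0 : ℝ)..s, κ t :=
          intervalIntegral.continuous_primitive (fun a b => hκc.intervalIntegrable a b) 0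
        exact hκc.mul (Real.continuous_exp.comp h2))
    rw [h3]
    simp
  rw [h2] at h1
  have h3 : Om κ s = exp (∫ t in (0 : ℝ)..s, κ t) := by
    unfold Om
    rw [abs_of_nonneg hs]
  rw [h3]
  nlinarith

theorem K_weight {k : ℕ} {G : ℝ → ℝ} {c : ℝ} (hG : Continuous G)
    (h : ∀ t, |G t| ≤ c * (κ |t| * Om κ t)) (s : ℝ) :
    |K k G s| ≤ c / 4 * Om κ s := by
  rcases le_total 0 s with hs | hs
  · exact K_weight_pos hκc hκm hκ1 hG h hs
  · have h1 := K_weight_pos (k := k) (G := fun t => G (-t)) (s := -s) hκc hκm hκ1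
      (hG.comp continuous_neg) (fun t => by
        have := h (-t)
        unfold Om at this ⊢
        rwa [abs_neg] at this) (by linarith)
    have h2 := K_neg_arg (k := k) (G := G) (-s)
    rw [neg_neg] at h2
    rw [h2, abs_neg]
    refine h1.trans (le_of_eq ?_)
    unfold Om
    rw [abs_neg]

theorem Phi_weight {k : ℕ} : ∀ (m : ℕ) (a : ℕ → ℝ) {G H : ℝ → ℝ} {c : ℝ}, Continuous G →
    Continuous H → (∀ t, |G t - H t| ≤ c * (κ |t| * Om κ t)) →
    ∀ s, |Phi k (m + 1) a G s - Phi k (m + 1) a H s| ≤ c / 4 * Om κ s := by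
  intro m
  induction m with
  | zero =>
    intro a G H c hG hH h s
    have h1 : Phi k (0 + 1) a G s - Phi k (0 + 1) a H s = K k (fun t => G t - H t) s := by
      rw [K_sub hG hH]
      simp [Phi]
    rw [h1]
    exact K_weight hκc hκm hκ1 (hG.sub hH) h s
  | succ m ih =>
    intro a G H c hG hH h s
    have hc : 0 ≤ c := by
      have h0 := (abs_nonneg _).trans (h 0)
      have h1 : 0 < κ |0| * Om κ 0 := mul_pos
        (lt_of_lt_of_le one_pos (hκ1 _ (abs_nonneg _)))
        (lt_of_lt_of_le one_pos (one_le_Om hκc hκ1 _))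
      by_contra hneg
      rw [not_le] at hneg
      have := mul_neg_of_neg_of_pos hneg h1
      linarith
    have h1 : Phi k (m + 1 + 1) a G s - Phi k (m + 1 + 1) a H s
        = K k (fun t => Phi k (m + 1) (fun i => a (i + 1)) G t
          - Phi k (m + 1) (fun i => a (i + 1)) H t) s := by
      rw [K_sub (Phi_cont _ _ hG) (Phi_cont _ _ hH)]
      simp [Phi]
    rw [h1]
    refine K_weight hκc hκm hκ1 ((Phi_cont _ _ hG).sub (Phi_cont _ _ hH)) (fun t => ?_) s
    have h2 := ih (fun i => a (i + 1)) hG hH h t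
    have h3 := hκ1 |t| (abs_nonneg _)
    have h4 := one_le_Om hκc hκ1 t
    calc _ ≤ c / 4 * Om κ t := h2
      _ ≤ c * (κ |t| * Om κ t) := by
        have : c / 4 * Om κ t ≤ c * (1 * Om κ t) := by nlinarith
        refine this.trans ?_
        gcongr

end contraction

/-- Existence of continuous solutions of the fixed point equation. -/
theorem exists_fixed {k m : ℕ} (a : ℕ → ℝ) {N : ℝ → ℝ → ℝ} {κ : ℝ → ℝ} (hκc : Continuous κ)
    (hκm : ∀ s t, 0 ≤ s → s ≤ t → κ s ≤ κ t) (hκ1 : ∀ s, 0 ≤ s → 1 ≤ κ s)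
    (hN : Continuous (Function.uncurry N)) (hB : ∀ s u, |N s u| ≤ κ |s|)
    (hL : ∀ s u v, |N s u - N s v| ≤ κ |s| * |u - v|) :
    ∃ F : ℝ → ℝ, Continuous F ∧ F = Phi k (m + 1) a (fun s => N s (F s)) := by
  set F0 := Phi k (m + 1) a (fun _ => 0) with hF0
  have hF0c : Continuous F0 := Phi_cont _ _ continuous_const
  have hOc := Om_cont hκc
  have hO1 := one_le_Om hκc hκ1
  have hOpos : ∀ s, 0 < Om κ s := fun s => lt_of_lt_of_le one_pos (hO1 s)
  have hGc : ∀ h : BoundedContinuousFunction ℝ ℝ,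
      Continuous fun s => N s (F0 s + Om κ s * h s) := by
    intro h
    have : Continuous fun s => (s, F0 s + Om κ s * h s) :=
      continuous_id.prodMk (hF0c.add (hOc.mul h.continuous))
    exact hN.comp this
  set Tf : BoundedContinuousFunction ℝ ℝ → ℝ → ℝ := fun h s =>
    (Phi k (m + 1) a (fun s => N s (F0 s + Om κ s * h s)) s - F0 s) / Om κ s with hTf
  have hTc : ∀ h, Continuous (Tf h) := fun h =>
    ((Phi_cont _ _ (hGc h)).sub hF0c).div hOc fun s => (hOpos s).ne'
  have hTb : ∀ h s, ‖Tf h s‖ ≤ 1 := by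
    intro h s
    have h1 := Phi_weight (k := k) hκc hκm hκ1 m a (c := 1) (hGc h) continuous_const
      (H := fun _ => 0) (fun t => by
        rw [sub_zero, one_mul]
        refine (hB _ _).trans ?_
        have := hκ1 |t| (abs_nonneg _)
        nlinarith [hO1 t]) s
    rw [hTf]
    simp only
    rw [norm_div, Real.norm_eq_abs, Real.norm_of_nonneg (hOpos s).le, div_le_one (hOpos s)]
    refine h1.trans ?_
    have := hOpos s
    linarith
  set T : BoundedContinuousFunction ℝ ℝ → BoundedContinuousFunction ℝ ℝ := fun h =>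
    BoundedContinuousFunction.ofNormedAddCommGroup (Tf h) (hTc h) 1 (hTb h) with hT
  have hcontr : ContractingWith (1 / 4) T := by
    refine ⟨by norm_num, LipschitzWith.of_dist_le_mul fun h h' => ?_⟩
    rw [BoundedContinuousFunction.dist_le (by positivity)]
    intro s
    have h1 := Phi_weight (k := k) hκc hκm hκ1 m a (c := dist h h') (hGc h) (hGc h') (fun t => by
      refine (hL _ _ _).trans ?_
      have e : F0 t + Om κ t * h t - (F0 t + Om κ t * h' t) = Om κ t * (h t - h' t) := by ring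
      rw [e, abs_mul, abs_of_pos (hOpos t)]
      have h2 : |h t - h' t| ≤ dist h h' := by
        rw [← Real.dist_eq]
        exact BoundedContinuousFunction.dist_coe_le_dist t
      have h3 := hκ1 |t| (abs_nonneg _)
      have h4 := hOpos t
      calc κ |t| * (Om κ t * |h t - h' t|) ≤ κ |t| * (Om κ t * dist h h') := by gcongr
        _ = dist h h' * (κ |t| * Om κ t) := by ring) s
    show dist (Tf h s) (Tf h' s) ≤ _
    rw [Real.dist_eq, hTf]
    simp only
    rw [← sub_div, abs_div, abs_of_pos (hOpos s), div_le_iff₀ (hOpos s)]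
    have e : Phi k (m + 1) a (fun s => N s (F0 s + Om κ s * h s)) s - F0 s
        - (Phi k (m + 1) a (fun s => N s (F0 s + Om κ s * h' s)) s - F0 s)
        = Phi k (m + 1) a (fun s => N s (F0 s + Om κ s * h s)) s
          - Phi k (m + 1) a (fun s => N s (F0 s + Om κ s * h' s)) s := by ring
    rw [e]
    refine h1.trans (le_of_eq ?_)
    have e4 : ((1 / 4 : NNReal) : ℝ) = 1 / 4 := by push_cast; rfl
    rw [e4]
    ring
  obtain ⟨h, hh, -, -⟩ := hcontr.exists_fixedPoint 0 (edist_ne_top _ _)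
  refine ⟨fun s => F0 s + Om κ s * h s, hF0c.add (hOc.mul h.continuous), ?_⟩
  funext s
  have h1 : T h s = h s := by rw [hh.eq]
  have h2 : T h s = (Phi k (m + 1) a (fun s => N s (F0 s + Om κ s * h s)) s - F0 s) / Om κ s := rfl
  rw [h2, div_eq_iff (hOpos s).ne'] at h1
  linarith

/-- Regularity of solutions of the fixed point equation. -/
theorem fixed_smooth {k m : ℕ} {a : ℕ → ℝ} {N : ℝ → ℝ → ℝ} {F : ℝ → ℝ}
    (hN : ContDiff ℝ (⊤ : ℕ∞) (Function.uncurry N)) (hF : Continuous F)
    (h : F = Phi k (m + 1) a (fun s => N s (F s))) : ContDiff ℝ (⊤ : ℕ∞) F := by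
  have key : ∀ n : ℕ, ContDiff ℝ n F := by
    intro n
    induction n with
    | zero => exact contDiff_zero.2 hF
    | succ n ih =>
      have h1 : ContDiff ℝ n (fun s => N s (F s)) := by
        have h2 : ContDiff ℝ n (fun s => (s, F s)) := contDiff_id.prodMk ih
        exact (contDiff_infty.1 hN n).comp h2
      rw [h]
      exact Phi_contDiff_succ m a h1
  exact contDiff_infty.2 key

section laplacian

variable {E : Type*} [NormedAddCommGroup E] [InnerProductSpace ℝ E] [FiniteDimensional ℝ E]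

/-- Iterated Laplacian. -/
noncomputable def lapIter (j : ℕ) (U : E → ℝ) : E → ℝ := (fun f : E → ℝ => Δ f)^[j] U

theorem lapIter_succ (j : ℕ) (U : E → ℝ) : lapIter (j + 1) U = lapIter j (Δ U) := rfl

theorem lapIter_succ' (j : ℕ) (U : E → ℝ) : lapIter (j + 1) U = Δ (lapIter j U) :=
  Function.iterate_succ_apply' _ _ _

theorem lapIter_Phi {k : ℕ} (hE : Module.finrank ℝ E = 2 * (k + 1)) {G : ℝ → ℝ}
    (hG : ContDiff ℝ (⊤ : ℕ∞) G) : ∀ (m : ℕ) (a : ℕ → ℝ) (j : ℕ), j ≤ m →
    lapIter j (fun x : E => Phi k m a G (‖x‖ ^ 2))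
      = fun x : E => Phi k (m - j) (fun i => a (i + j)) G (‖x‖ ^ 2) := by
  intro m
  induction m with
  | zero =>
    intro a j hj
    obtain rfl : j = 0 := Nat.le_zero.1 hj
    rfl
  | succ m ih =>
    intro a j hj
    cases j with
    | zero => rfl
    | succ j =>
      rw [lapIter_succ]
      have h1 : Δ (fun x : E => Phi k (m + 1) a G (‖x‖ ^ 2))
          = fun x : E => Phi k m (fun i => a (i + 1)) G (‖x‖ ^ 2) :=
        lap_K hE (Phi_contDiff_infty m (fun i => a (i + 1)) hG)
      rw [h1, ih (fun i => a (i + 1)) j (Nat.le_of_succ_le_succ hj)]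
      funext x
      rw [Nat.succ_sub_succ]
      have e : (fun i => a (i + (j + 1))) = fun i => a (i + j + 1) := by
        funext i
        rw [Nat.add_assoc]
      rw [e]

theorem Phi_at_zero {k m : ℕ} (a : ℕ → ℝ) (G : ℝ → ℝ) (hm : 0 < m) : Phi k m a G 0 = a 0 := by
  cases m with
  | zero => exact absurd hm (lt_irrefl _)
  | succ m => simp [Phi, K_zero]

end laplacian

end Pool.Agent.V1181
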