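import Mathlib
import Pool.Agent.V1181.Lap
import Pool.Agent.V1181.Lap2
import Pool.Agent.V1181.RadExist

/-!
# Profiles of radial functions
-/

set_option autoImplicit false

namespace Pool.Agent.V1181

open Real Set Filter MeasureTheory Topology InnerProductSpace Laplacian

variable {E : Type*} [NormedAddCommGroup E] [InnerProductSpace ℝ E] [FiniteDimensional ℝ E]

/-- `W` depends only on the norm. -/
def IsRadial (W : E → ℝ) : Prop := ∀ x y : E, ‖x‖ = ‖y‖ → W x = W y

theorem prof_hasDeriv {W : E → ℝ} (hW : ContDiff ℝ 2 W) {e : E} (he : ‖e‖ = 1)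
    (hr : IsRadial W) {r : ℝ} (hr0 : 0 < r) :
    Δ W (r • e) = deriv (deriv fun t : ℝ => W (t • e)) r
      + ((Module.finrank ℝ E : ℝ) - 1) / r * deriv (fun t : ℝ => W (t • e)) r := by
  set w : ℝ → ℝ := fun t => W (t • e) with hw
  have hwc : ContDiff ℝ 2 w := hW.comp (contDiff_id.smul contDiff_const)
  have hw1 : ContDiff ℝ 1 (deriv w) := by
    have h : ContDiff ℝ ((1 : WithTop ℕ∞) + 1) w := by
      have : (1 : WithTop ℕ∞) + 1 = 2 := by norm_num
      rwa [this]
    exact (contDiff_succ_iff_deriv.1 h).2.2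
  have hd1 : ∀ t, HasDerivAt w (deriv w t) t := fun t =>
    (hwc.differentiable (by norm_num) t).hasDerivAt
  have hd2 : ∀ t, HasDerivAt (deriv w) (deriv (deriv w) t) t := fun t =>
    (hw1.differentiable (by norm_num) t).hasDerivAt
  have hWF : W = fun x : E => (fun s => w (√s)) (‖x‖ ^ 2) := by
    funext x
    simp only [hw]
    rw [Real.sqrt_sq (norm_nonneg _)]
    refine hr _ _ ?_
    rw [norm_smul, he, mul_one, Real.norm_of_nonneg (norm_nonneg _)]
  have hnorm : ‖r • e‖ = r := by rw [norm_smul, he, mul_one, Real.norm_of_nonneg hr0.le]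
  have hs0 : 0 < ‖r • e‖ ^ 2 := by rw [hnorm]; positivity
  have hsq : √(‖r • e‖ ^ 2) = r := by rw [hnorm, Real.sqrt_sq hr0.le]
  have key := lap_radial (E := E) (F := fun s => w (√s)) (F' := fun s => deriv w (√s) * (1 / (2 * √s)))
    (F'' := deriv (deriv w) r * (1 / (2 * r)) * (1 / (2 * r))
      + deriv w r * (-(2 * (1 / (2 * r))) / (2 * r) ^ 2)) (x := r • e) ?_ ?_ ?_
  · conv_lhs => rw [hWF]
    rw [key, hsq, hnorm]
    field_simp
    ring
  · exact hwc.contDiffAt.comp _ (Real.contDiffAt_sqrt hs0.ne')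
  · filter_upwards [isOpen_Ioi.mem_nhds hs0] with s hs
    exact (hd1 _).comp s (Real.hasDerivAt_sqrt (ne_of_gt hs))
  · have h1 : HasDerivAt (fun s => √s) (1 / (2 * r)) (‖r • e‖ ^ 2) := by
      have := Real.hasDerivAt_sqrt hs0.ne'
      rwa [hsq] at this
    have h2 : HasDerivAt (fun s => deriv w (√s)) (deriv (deriv w) r * (1 / (2 * r)))
        (‖r • e‖ ^ 2) := by
      have h3 : HasDerivAt (deriv w) (deriv (deriv w) r) (√(‖r • e‖ ^ 2)) := by
        rw [hsq]
        exact hd2 r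
      exact h3.comp _ h1
    have h4 : HasDerivAt (fun s => 1 / (2 * √s)) (-(2 * (1 / (2 * r))) / (2 * r) ^ 2)
        (‖r • e‖ ^ 2) := by
      have h5 := (h1.const_mul 2).inv (by rw [hsq]; positivity)
      simp only [one_div]
      refine h5.congr_deriv ?_
      rw [hsq]
      simp
    have h6 := h2.mul h4
    refine h6.congr_deriv ?_
    rw [hsq]

/-- The divergence form of the radial Laplacian. -/
theorem prof_flux {W : E → ℝ} (hW : ContDiff ℝ 2 W) {e : E} (he : ‖e‖ = 1)
    (hr : IsRadial W) {n : ℕ} (hn : Module.finrank ℝ E = n + 1) {r : ℝ} (hr0 : 0 < r) :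
    HasDerivAt (fun t : ℝ => t ^ n * deriv (fun t : ℝ => W (t • e)) t) (r ^ n * Δ W (r • e)) r := by
  have h := prof_hasDeriv hW he hr hr0
  set w : ℝ → ℝ := fun t => W (t • e) with hw
  have hwc : ContDiff ℝ 2 w := hW.comp (contDiff_id.smul contDiff_const)
  have hw1 : ContDiff ℝ 1 (deriv w) := by
    have h : ContDiff ℝ ((1 : WithTop ℕ∞) + 1) w := by
      have : (1 : WithTop ℕ∞) + 1 = 2 := by norm_num
      rwa [this]
    exact (contDiff_succ_iff_deriv.1 h).2.2
  have hd2 : HasDerivAt (deriv w) (deriv (deriv w) r) r :=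
    (hw1.differentiable (by norm_num) r).hasDerivAt
  refine ((hasDerivAt_pow n r).mul hd2).congr_deriv ?_
  rw [h, hn]
  push_cast
  rcases Nat.eq_zero_or_pos n with h0 | h0
  · subst h0
    simp
  · have : r ^ n = r ^ (n - 1) * r := by
      rw [← pow_succ, Nat.sub_add_cancel h0]
    rw [this]
    field_simp
    ring

theorem prof_int {W : E → ℝ} (hW : ContDiff ℝ 2 W) {e : E} (he : ‖e‖ = 1)
    (hr : IsRadial W) {n : ℕ} (hn : Module.finrank ℝ E = n + 1) (hn0 : 0 < n) {r : ℝ}
    (hr0 : 0 ≤ r) (hLc : Continuous (Δ W)) :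
    r ^ n * deriv (fun t : ℝ => W (t • e)) r = ∫ t in (0 : ℝ)..r, t ^ n * Δ W (t • e) := by
  set w : ℝ → ℝ := fun t => W (t • e) with hw
  have hwc : ContDiff ℝ 2 w := hW.comp (contDiff_id.smul contDiff_const)
  have hw1 : Continuous (deriv w) := hwc.continuous_deriv (by norm_num)
  have h := intervalIntegral.integral_eq_sub_of_hasDerivAt_of_le hr0
    (f := fun t => t ^ n * deriv w t) (f' := fun t => t ^ n * Δ W (t • e))
    (Continuous.continuousOn (by fun_prop)) (fun t ht => prof_flux hW he hr hn ht.1)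
    (Continuous.intervalIntegrable (by fun_prop) _ _)
  rw [h, zero_pow hn0.ne', zero_mul, sub_zero]

theorem lap_isRadial {W : E → ℝ} (hW : ContDiff ℝ 2 W) (hr : IsRadial W) : IsRadial (Δ W) := by
  intro x y hxy
  rcases eq_or_ne x 0 with rfl | hx
  · have : y = 0 := by
      rw [← norm_eq_zero, ← hxy, norm_zero]
    rw [this]
  · have hx0 : 0 < ‖x‖ := norm_pos_iff.2 hx
    have hy0 : 0 < ‖y‖ := by rwa [← hxy]
    have key : ∀ z : E, 0 < ‖z‖ → Δ W z = deriv (deriv fun t : ℝ => W (t • (‖z‖⁻¹ • z))) ‖z‖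
        + ((Module.finrank ℝ E : ℝ) - 1) / ‖z‖ * deriv (fun t : ℝ => W (t • (‖z‖⁻¹ • z))) ‖z‖ := by
      intro z hz
      have he : ‖‖z‖⁻¹ • z‖ = 1 := by
        rw [norm_smul, norm_inv, norm_norm, inv_mul_cancel₀ hz.ne']
      have := prof_hasDeriv hW he hr hz
      rwa [smul_smul, mul_inv_cancel₀ hz.ne', one_smul] at this
    rw [key x hx0, key y hy0]
    have e : (fun t : ℝ => W (t • (‖x‖⁻¹ • x))) = fun t : ℝ => W (t • (‖y‖⁻¹ • y)) := by
      funext t
      refine hr _ _ ?_
      rw [norm_smul, norm_smul, norm_smul, norm_smul, norm_inv, norm_inv, norm_norm, norm_norm,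
        inv_mul_cancel₀ hx0.ne', inv_mul_cancel₀ hy0.ne']
    rw [e, hxy]

theorem lapIter_smooth {U : E → ℝ} (hU : ContDiff ℝ (⊤ : ℕ∞) U) (j : ℕ) :
    ContDiff ℝ (⊤ : ℕ∞) (lapIter j U) := by
  induction j with
  | zero => exact hU
  | succ j ih =>
    rw [lapIter_succ']
    exact contDiff_laplacian ih

theorem lapIter_radial {U : E → ℝ} (hU : ContDiff ℝ (⊤ : ℕ∞) U) (hr : IsRadial U) (j : ℕ) :
    IsRadial (lapIter j U) := by
  induction j with
  | zero => exact hr
  | succ j ih =>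
    rw [lapIter_succ']
    exact lap_isRadial (by exact_mod_cast contDiff_infty.1 (lapIter_smooth hU j) 2) ih

/-- The profiles of the iterated Laplacians of a smooth radial function. -/
theorem prof_chain {U : E → ℝ} (hU : ContDiff ℝ (⊤ : ℕ∞) U) (hr : IsRadial U) {e : E}
    (he : ‖e‖ = 1) {n : ℕ} (hn : Module.finrank ℝ E = n + 1) (hn0 : 0 < n) (j : ℕ) :
    ContDiff ℝ (⊤ : ℕ∞) (fun t : ℝ => lapIter j U (t • e)) ∧
    ∀ r, 0 < r → HasDerivAt (fun t : ℝ => lapIter j U (t • e))
      ((∫ t in (0 : ℝ)..r, t ^ n * lapIter (j + 1) U (t • e)) / r ^ n) r := by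
  have hs := lapIter_smooth hU j
  have hc : ContDiff ℝ (⊤ : ℕ∞) (fun t : ℝ => lapIter j U (t • e)) :=
    hs.comp (contDiff_id.smul contDiff_const)
  refine ⟨hc, fun r hr0 => ?_⟩
  have h2 : ContDiff ℝ 2 (lapIter j U) := by exact_mod_cast contDiff_infty.1 hs 2
  have h3 := prof_int h2 he (lapIter_radial hU hr j) hn hn0 hr0.le (contDiff_laplacian hs).continuous
  rw [lapIter_succ', ← h3]
  have h1 : ContDiff ℝ 1 (fun t : ℝ => lapIter j U (t • e)) := by
    exact_mod_cast contDiff_infty.1 hc 1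
  have h4 := (h1.differentiable (by norm_num) r).hasDerivAt
  refine h4.congr_deriv ?_
  field_simp

/-- Integrals of radial functions. -/
theorem radial_integral [MeasurableSpace E] [BorelSpace E] [Nontrivial E] {g : E → ℝ}
    (hr : IsRadial g) {e : E} (he : ‖e‖ = 1) {n : ℕ} (hn : Module.finrank ℝ E = n + 1) :
    (Integrable g ↔ IntegrableOn (fun t : ℝ => t ^ n * g (t • e)) (Ioi 0)) ∧
    ∫ x, g x = ((n + 1 : ℕ) * (volume : Measure E).real (Metric.ball 0 1))
      * ∫ t in Ioi (0 : ℝ), t ^ n * g (t • e) := by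
  have hg : g = fun x : E => (fun t : ℝ => g (t • e)) ‖x‖ := by
    funext x
    refine hr _ _ ?_
    rw [norm_smul, he, mul_one, norm_norm]
  constructor
  · conv_lhs => rw [hg]
    rw [integrable_fun_norm_addHaar (E := E) volume (f := fun t : ℝ => g (t • e)), hn]
    simp
  · conv_lhs => rw [hg]
    rw [integral_fun_norm_addHaar (E := E) volume (fun t : ℝ => g (t • e)), hn]
    simp [mul_assoc]

end Pool.Agent.V1181
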