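import Mathlib
import Pool.Agent.V1181.RadProf

/-!
# One-dimensional analysis of chains of radial profiles
-/

set_option autoImplicit false

namespace Pool.Agent.V1181

open Real Set Filter MeasureTheory Topology InnerProductSpace Laplacian

/-- `v` and `w` are profiles with `w` the radial Laplacian of `v` in dimension `n + 1`. -/
structure Chain (n : ℕ) (v w : ℝ → ℝ) : Prop where
  cv : Continuous v
  cw : Continuous w
  d : ∀ r, 0 < r → HasDerivAt v ((∫ t in (0 : ℝ)..r, t ^ n * w t) / r ^ n) r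

theorem Chain.neg {n : ℕ} {v w : ℝ → ℝ} (h : Chain n v w) :
    Chain n (fun r => - v r) (fun r => - w r) where
  cv := h.cv.neg
  cw := h.cw.neg
  d := fun r hr => by
    refine (h.d r hr).neg.congr_deriv ?_
    rw [← neg_div, ← intervalIntegral.integral_neg]
    congr 2
    funext t
    ring

theorem Chain.sub {n : ℕ} {v w v' w' : ℝ → ℝ} (h : Chain n v w) (h' : Chain n v' w') :
    Chain n (fun r => v r - v' r) (fun r => w r - w' r) where
  cv := h.cv.sub h'.cv
  cw := h.cw.sub h'.cw
  d := fun r hr => by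
    refine ((h.d r hr).sub (h'.d r hr)).congr_deriv ?_
    have hc := h.cw
    have hc' := h'.cw
    rw [← sub_div, ← intervalIntegral.integral_sub (Continuous.intervalIntegrable (by fun_prop) _ _)
      (Continuous.intervalIntegrable (by fun_prop) _ _)]
    congr 2
    funext t
    ring

/-- Monotonicity on an initial interval. -/
theorem Chain.mono {n : ℕ} {v w : ℝ → ℝ} (h : Chain n v w) {R : ℝ}
    (hw : ∀ t, 0 ≤ t → t ≤ R → 0 ≤ w t) {s r : ℝ} (hs : 0 ≤ s) (hsr : s ≤ r) (hr : r ≤ R) :
    v s ≤ v r := by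
  have hm : MonotoneOn v (Icc 0 R) := by
    refine monotoneOn_of_deriv_nonneg (convex_Icc 0 R) h.cv.continuousOn ?_ ?_
    · intro x hx
      rw [interior_Icc] at hx
      exact (h.d x hx.1).differentiableAt.differentiableWithinAt
    · intro x hx
      rw [interior_Icc] at hx
      rw [(h.d x hx.1).deriv]
      refine div_nonneg (intervalIntegral.integral_nonneg hx.1.le fun t ht => ?_)
        (pow_nonneg hx.1.le _)
      exact mul_nonneg (pow_nonneg ht.1 _) (hw t ht.1 (ht.2.trans hx.2.le))
  exact hm ⟨hs, hsr.trans hr⟩ ⟨hs.trans hsr, hr⟩ hsr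

/-- Monotonicity on the half-line. -/
theorem Chain.mono' {n : ℕ} {v w : ℝ → ℝ} (h : Chain n v w)
    (hw : ∀ t, 0 ≤ t → 0 ≤ w t) {s r : ℝ} (hs : 0 ≤ s) (hsr : s ≤ r) : v s ≤ v r :=
  h.mono (R := r) (fun t h0 _ => hw t h0) hs hsr (le_refl _)

/-- Comparison. -/
theorem Chain.compare {n : ℕ} {v w v' w' : ℝ → ℝ} (h : Chain n v w) (h' : Chain n v' w') {R : ℝ}
    (hw : ∀ t, 0 ≤ t → t ≤ R → w t ≤ w' t) {r : ℝ} (hr0 : 0 ≤ r) (hr : r ≤ R) :
    v r - v 0 ≤ v' r - v' 0 := by
  have := (h'.sub h).mono (R := R) (fun t h0 h1 => sub_nonneg.2 (hw t h0 h1)) (le_refl 0) hr0 hr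
  linarith

/-- The model chains. -/
theorem chain_pow (n p : ℕ) (c : ℝ) :
    Chain n (fun r => c * r ^ (p + 2) / ((p + 2) * (n + p + 1))) (fun r => c * r ^ p) where
  cv := by fun_prop
  cw := by fun_prop
  d := fun r hr => by
    have h1 := ((hasDerivAt_pow (p + 2) r).const_mul c).div_const ((p + 2) * (n + p + 1) : ℝ)
    refine h1.congr_deriv ?_
    have h2 : (fun t : ℝ => t ^ n * (c * t ^ p)) = fun t => c * t ^ (n + p) := by
      funext t
      rw [pow_add]
      ring
    rw [h2, intervalIntegral.integral_const_mul, integral_pow, zero_pow (by omega)]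
    have h3 : (p : ℝ) + 2 ≠ 0 := by positivity
    have h4 : (n : ℝ) + p + 1 ≠ 0 := by positivity
    have h5 : r ^ (n + p + 1) = r ^ n * r ^ (p + 1) := by rw [← pow_add]; ring_nf
    rw [h5]
    push_cast
    have h6 : p + 2 - 1 = p + 1 := by omega
    field_simp
    ring

theorem chain_const (n : ℕ) (c : ℝ) :
    Chain n (fun r => c * r ^ 2 / (2 * (n + 1))) (fun _ => c) := by
  have := chain_pow n 0 c
  simpa using this

/-- If `w` is eventually below a negative constant then `v` tends to minus infinity at a quadratic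
rate. -/
theorem Chain.down {n : ℕ} {v w : ℝ → ℝ} (h : Chain n v w) {c R : ℝ} (hc : 0 < c)
    (hw : ∀ r, R ≤ r → w r ≤ -c) : ∃ c' > 0, ∃ R' > 0, ∀ r, R' ≤ r → v r ≤ - c' * r ^ 2 := by
  set R1 := max R 1 with hR1
  have hR1pos : 0 < R1 := lt_of_lt_of_le one_pos (le_max_right _ _)
  have hR1one : 1 ≤ R1 := le_max_right _ _
  set N : ℝ := (n : ℝ) + 1 with hN
  have hNpos : 0 < N := by positivity
  set I := |∫ t in (0 : ℝ)..R1, t ^ n * w t| with hI
  set B := I + c * R1 ^ (n + 1) / N with hB
  have hcw := h.cw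
  have hB0 : 0 ≤ B := by positivity
  have hder : ∀ r, R1 ≤ r → (∫ t in (0 : ℝ)..r, t ^ n * w t) / r ^ n ≤ B - c * r / N := by
    intro r hr
    have hrpos : 0 < r := lt_of_lt_of_le hR1pos hr
    have hr1 : 1 ≤ r ^ n := one_le_pow₀ (hR1one.trans hr)
    have e1 : ∫ t in (0 : ℝ)..r, t ^ n * w t = (∫ t in (0 : ℝ)..R1, t ^ n * w t)
        + ∫ t in R1..r, t ^ n * w t :=
      (intervalIntegral.integral_add_adjacent_intervals
        (Continuous.intervalIntegrable (by fun_prop) _ _)
        (Continuous.intervalIntegrable (by fun_prop) _ _)).symm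
    have e2 : ∫ t in R1..r, t ^ n * w t ≤ ∫ t in R1..r, (-c) * t ^ n := by
      refine intervalIntegral.integral_mono_on hr (Continuous.intervalIntegrable (by fun_prop) _ _)
        (Continuous.intervalIntegrable (by fun_prop) _ _) fun t ht => ?_
      have h1 := hw t ((le_max_left _ _).trans ht.1)
      have h2 : 0 ≤ t ^ n := pow_nonneg (hR1pos.le.trans ht.1) _
      nlinarith
    rw [intervalIntegral.integral_const_mul, integral_pow] at e2
    rw [div_le_iff₀ (by positivity), e1]
    have h3 : (∫ t in (0 : ℝ)..R1, t ^ n * w t) ≤ I := le_abs_self _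
    have h4 : r ^ (n + 1) = r ^ n * r := pow_succ _ _
    have h5 : B ≤ B * r ^ n := le_mul_of_one_le_right hB0 hr1
    have h6 : -c * ((r ^ (n + 1) - R1 ^ (n + 1)) / ((n : ℝ) + 1))
        = c * R1 ^ (n + 1) / N - c * r / N * r ^ n := by
      rw [h4, hN]
      field_simp
      ring
    rw [h6] at e2
    have h7 : (B - c * r / N) * r ^ n = B * r ^ n - c * r / N * r ^ n := by ring
    rw [h7]
    linarith
  have hanti : AntitoneOn (fun r => v r - B * r + c * r ^ 2 / (2 * N)) (Ici R1) := by
    have hd : ∀ r, R1 < r → HasDerivAt (fun r => v r - B * r + c * r ^ 2 / (2 * N))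
        ((∫ t in (0 : ℝ)..r, t ^ n * w t) / r ^ n - B + c * (2 * r) / (2 * N)) r := by
      intro r hr
      have h1 := ((h.d r (hR1pos.trans hr)).sub ((hasDerivAt_id r).const_mul B)).add
        (((hasDerivAt_pow 2 r).const_mul c).div_const (2 * N))
      refine h1.congr_deriv ?_
      simp
    have hcv := h.cv
    refine antitoneOn_of_deriv_nonpos (convex_Ici R1) (Continuous.continuousOn (by fun_prop)) ?_ ?_
    · intro r hr
      rw [interior_Ici] at hr
      exact (hd r hr).differentiableAt.differentiableWithinAt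
    · intro r hr
      rw [interior_Ici] at hr
      rw [(hd r hr).deriv]
      have h1 := hder r (le_of_lt hr)
      have h2 : c * (2 * r) / (2 * N) = c * r / N := by
        field_simp
      rw [h2]
      linarith
  set D := |v R1 - B * R1 + c * R1 ^ 2 / (2 * N)| with hD
  have hbound : ∀ r, R1 ≤ r → v r ≤ D + B * r - c * r ^ 2 / (2 * N) := by
    intro r hr
    have h1 := hanti (mem_Ici.2 (le_refl R1)) (mem_Ici.2 hr) hr
    simp only at h1
    have h2 := le_abs_self (v R1 - B * R1 + c * R1 ^ 2 / (2 * N))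
    linarith
  refine ⟨c / (4 * N), by positivity, max R1 (max 1 (4 * N * (D + B) / c)), by positivity,
    fun r hr => ?_⟩
  have h1 := hbound r ((le_max_left _ _).trans hr)
  have h2 : 1 ≤ r := (le_max_left _ _).trans ((le_max_right _ _).trans hr)
  have h3 : 4 * N * (D + B) / c ≤ r := (le_max_right _ _).trans ((le_max_right _ _).trans hr)
  rw [div_le_iff₀ hc] at h3
  have h4 : c * r ^ 2 / (2 * N) = c / (4 * N) * r ^ 2 + c / (4 * N) * r ^ 2 := by
    field_simp
    ring
  have h5 : D + B * r ≤ c / (4 * N) * r ^ 2 := by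
    have h6 : (D + B) ≤ c / (4 * N) * r := by
      rw [div_mul_eq_mul_div, le_div_iff₀ (by positivity)]
      linarith
    have hD0 : 0 ≤ D := abs_nonneg _
    nlinarith
  linarith

/-- Integrability from a quadratic upper bound. -/
theorem integrable_of_quadratic {n : ℕ} {v : ℝ → ℝ} (hv : Continuous v) {β c R : ℝ} (hβ : 0 < β)
    (hc : 0 < c) (h : ∀ r, R ≤ r → v r ≤ - c * r ^ 2) :
    IntegrableOn (fun t : ℝ => t ^ n * exp (β * v t)) (Ioi 0) := by
  set R1 := max R 0 with hR1
  have h1 : IntegrableOn (fun t : ℝ => t ^ n * exp (β * v t)) (Ioc 0 R1) :=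
    (Continuous.integrableOn_Icc (by fun_prop)).mono_set Ioc_subset_Icc_self
  have h2 : IntegrableOn (fun t : ℝ => t ^ n * exp (β * v t)) (Ioi R1) := by
    have h3 := (integrable_rpow_mul_exp_neg_mul_sq (b := β * c) (s := n) (by positivity)
      (by have : (0 : ℝ) ≤ n := Nat.cast_nonneg n; linarith)).integrableOn (s := Ioi R1)
    refine Integrable.mono' h3 (Continuous.aestronglyMeasurable (by fun_prop)) ?_
    refine (ae_restrict_mem measurableSet_Ioi).mono fun t ht => ?_
    have ht0 : 0 ≤ t := (le_max_right R 0).trans (le_of_lt ht)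
    rw [Real.norm_of_nonneg (by positivity), Real.rpow_natCast]
    have h4 := h t ((le_max_left R 0).trans (le_of_lt ht))
    have h5 : β * v t ≤ -(β * c) * t ^ 2 := by nlinarith
    gcongr
  have h3 : Ioi (0 : ℝ) = Ioc 0 R1 ∪ Ioi R1 := (Ioc_union_Ioi_eq_Ioi (le_max_right R 0)).symm
  rw [h3]
  exact h1.union h2

/-- The chain of profiles of a smooth radial function. -/
theorem chain_lapIter {E : Type*} [NormedAddCommGroup E] [InnerProductSpace ℝ E]
    [FiniteDimensional ℝ E] {U : E → ℝ} (hU : ContDiff ℝ (⊤ : ℕ∞) U) (hr : IsRadial U) {e : E}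
    (he : ‖e‖ = 1) {n : ℕ} (hn : Module.finrank ℝ E = n + 1) (hn0 : 0 < n) (j : ℕ) :
    Chain n (fun t : ℝ => lapIter j U (t • e)) (fun t : ℝ => lapIter (j + 1) U (t • e)) where
  cv := (prof_chain hU hr he hn hn0 j).1.continuous
  cw := (prof_chain hU hr he hn hn0 (j + 1)).1.continuous
  d := (prof_chain hU hr he hn hn0 j).2

end Pool.Agent.V1181
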