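import Mathlib
import Pool.Agent.V1181.RadExist

/-!
# Radial solutions of polyharmonic equations with exponential nonlinearity
-/

set_option autoImplicit false

namespace Pool.Agent.V1181

open Real Set Filter MeasureTheory Topology InnerProductSpace Laplacian

/-- The exponential function, cut off to the right of the origin. -/
noncomputable def eta (x : ℝ) : ℝ := exp x * (1 - Real.smoothTransition x)

theorem eta_contDiff : ContDiff ℝ (⊤ : ℕ∞) eta :=
  Real.contDiff_exp.mul (contDiff_const.sub Real.smoothTransition.contDiff)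

theorem eta_eq {x : ℝ} (h : x ≤ 0) : eta x = exp x := by
  unfold eta
  rw [Real.smoothTransition.zero_of_nonpos h]
  ring

theorem eta_zero {x : ℝ} (h : 1 ≤ x) : eta x = 0 := by
  unfold eta
  rw [Real.smoothTransition.one_of_one_le h]
  ring

theorem eta_nonneg (x : ℝ) : 0 ≤ eta x :=
  mul_nonneg (exp_pos _).le (by linarith [Real.smoothTransition.le_one x])

theorem eta_le (x : ℝ) : eta x ≤ exp 1 := by
  rcases le_total x 1 with h | h
  · unfold eta
    have h0 := Real.smoothTransition.nonneg x
    have h1 := Real.smoothTransition.le_one x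
    have h2 : exp x ≤ exp 1 := Real.exp_le_exp.2 h
    nlinarith [exp_pos x]
  · rw [eta_zero h]
    exact (exp_pos 1).le

theorem eta_lipschitz : ∃ M : ℝ, 0 ≤ M ∧ ∀ x y, |eta x - eta y| ≤ M * |x - y| := by
  have hcd : ContDiff ℝ 1 eta := by exact_mod_cast contDiff_infty.1 eta_contDiff 1
  have hc : Continuous (deriv eta) := hcd.continuous_deriv (le_refl _)
  obtain ⟨M, hM⟩ := (isCompact_Icc (a := (0 : ℝ)) (b := 1)).exists_bound_of_continuousOn
    hc.continuousOn
  have hd : ∀ x, ‖deriv eta x‖ ≤ max M 1 := by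
    intro x
    by_cases h0 : x < 0
    · have : eta =ᶠ[𝓝 x] exp := by
        filter_upwards [gt_mem_nhds h0] with y hy using eta_eq hy.le
      rw [this.deriv_eq, Real.deriv_exp, Real.norm_of_nonneg (exp_pos _).le]
      exact (Real.exp_le_one_iff.2 h0.le).trans (le_max_right _ _)
    · by_cases h1 : 1 < x
      · have : eta =ᶠ[𝓝 x] fun _ => 0 := by
          filter_upwards [lt_mem_nhds h1] with y hy using eta_zero hy.le
        rw [this.deriv_eq]
        simp
      · exact (hM x ⟨not_lt.1 h0, not_lt.1 h1⟩).trans (le_max_left _ _)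
  refine ⟨max M 1, le_max_of_le_right zero_le_one, fun x y => ?_⟩
  have := Convex.norm_image_sub_le_of_norm_deriv_le (f := eta) (C := max M 1) (s := univ)
    (x := y) (y := x) (fun z _ => hcd.differentiable (by norm_num) z) (fun z _ => hd z)
    convex_univ (mem_univ _) (mem_univ _)
  simpa [Real.norm_eq_abs] using this

/-- General existence for the cut-off exponential nonlinearity. -/
theorem exists_cut {k m : ℕ} (a : ℕ → ℝ) {b : ℝ → ℝ} (hb : ContDiff ℝ (⊤ : ℕ∞) b) (c β : ℝ) :
    ∃ F : ℝ → ℝ, ContDiff ℝ (⊤ : ℕ∞) F ∧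
      F = Phi k (m + 1) a (fun s => c * exp (β * b s) * eta (β * (F s - b s))) := by
  obtain ⟨M, hM0, hM⟩ := eta_lipschitz
  have hb1 : ContDiff ℝ 1 b := by exact_mod_cast contDiff_infty.1 hb 1
  have hbc := hb.continuous
  have hb'c : Continuous (deriv b) := hb1.continuous_deriv (le_refl _)
  have hb'd : ∀ t, HasDerivAt b (deriv b t) t := fun t =>
    (hb1.differentiable (by norm_num) t).hasDerivAt
  set g : ℝ → ℝ := fun t => |deriv b t| + |deriv b (-t)| with hg
  have hgc : Continuous g := by fun_prop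
  have hg0 : ∀ t, 0 ≤ g t := fun t => by positivity
  set bb : ℝ → ℝ := fun s => |b 0| + ∫ t in (0 : ℝ)..s, g t with hbb
  have hbbc : Continuous bb :=
    continuous_const.add (intervalIntegral.continuous_primitive
      (fun a b => hgc.intervalIntegrable a b) 0)
  have hbbm : ∀ s t, 0 ≤ s → s ≤ t → bb s ≤ bb t := by
    intro s t h0 h
    have := intervalIntegral.integral_mono_interval (μ := volume) (f := g) (le_refl 0) h0 h
      (Filter.Eventually.of_forall fun x => hg0 x) (hgc.intervalIntegrable _ _)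
    simp only [hbb]
    linarith
  have hbb_ge_pos : ∀ s, 0 ≤ s → |b s| ≤ bb s ∧ |b (-s)| ≤ bb s := by
    intro s hs
    have e1 : b s - b 0 = ∫ t in (0 : ℝ)..s, deriv b t :=
      (intervalIntegral.integral_eq_sub_of_hasDerivAt (fun t _ => hb'd t)
        (hb'c.intervalIntegrable _ _)).symm
    have e2 : b (-s) - b 0 = ∫ t in (0 : ℝ)..s, - deriv b (-t) := by
      have hd : ∀ t ∈ uIcc 0 s, HasDerivAt (fun t => b (-t)) (- deriv b (-t)) t := by
        intro t _
        have := (hb'd (-t)).comp t (hasDerivAt_neg t)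
        simpa [Function.comp_def] using this
      have := (intervalIntegral.integral_eq_sub_of_hasDerivAt hd
        (Continuous.intervalIntegrable (by fun_prop) _ _)).symm
      simpa using this
    have i1 : |∫ t in (0 : ℝ)..s, deriv b t| ≤ ∫ t in (0 : ℝ)..s, g t := by
      rw [← Real.norm_eq_abs]
      refine intervalIntegral.norm_integral_le_of_norm_le hs
        (Filter.Eventually.of_forall fun t _ => ?_) (hgc.intervalIntegrable _ _)
      rw [Real.norm_eq_abs]
      simp only [hg]
      linarith [abs_nonneg (deriv b (-t))]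
    have i2 : |∫ t in (0 : ℝ)..s, - deriv b (-t)| ≤ ∫ t in (0 : ℝ)..s, g t := by
      rw [← Real.norm_eq_abs]
      refine intervalIntegral.norm_integral_le_of_norm_le hs
        (Filter.Eventually.of_forall fun t _ => ?_) (hgc.intervalIntegrable _ _)
      rw [Real.norm_eq_abs, abs_neg]
      simp only [hg]
      linarith [abs_nonneg (deriv b t)]
    constructor
    · have : b s = b 0 + ∫ t in (0 : ℝ)..s, deriv b t := by linarith
      rw [this]
      exact (abs_add_le _ _).trans (by simp only [hbb]; linarith)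
    · have : b (-s) = b 0 + ∫ t in (0 : ℝ)..s, - deriv b (-t) := by linarith
      rw [this]
      exact (abs_add_le _ _).trans (by simp only [hbb]; linarith)
  have hbb_ge : ∀ s, |b s| ≤ bb |s| := by
    intro s
    rcases le_total 0 s with hs | hs
    · rw [abs_of_nonneg hs]
      exact (hbb_ge_pos s hs).1
    · rw [abs_of_nonpos hs]
      have := (hbb_ge_pos (-s) (by linarith)).2
      rwa [neg_neg] at this
  set κ : ℝ → ℝ := fun s => 1 + |c| * exp (|β| * bb s) * (exp 1 + M * |β|) with hκ
  have hκc : Continuous κ := by fun_prop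
  have hpos : 0 ≤ exp 1 + M * |β| := by positivity
  have hκm : ∀ s t, 0 ≤ s → s ≤ t → κ s ≤ κ t := by
    intro s t h0 h
    have h1 := hbbm s t h0 h
    have h2 : |β| * bb s ≤ |β| * bb t := mul_le_mul_of_nonneg_left h1 (abs_nonneg _)
    simp only [hκ]
    have h3 := Real.exp_le_exp.2 h2
    have h4 : |c| * exp (|β| * bb s) ≤ |c| * exp (|β| * bb t) :=
      mul_le_mul_of_nonneg_left h3 (abs_nonneg _)
    nlinarith
  have hκ1 : ∀ s, 0 ≤ s → 1 ≤ κ s := by
    intro s _
    simp only [hκ]
    have : 0 ≤ |c| * exp (|β| * bb s) * (exp 1 + M * |β|) := by positivity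
    linarith
  have hexp : ∀ s, exp (β * b s) ≤ exp (|β| * bb |s|) := by
    intro s
    refine Real.exp_le_exp.2 ?_
    calc β * b s ≤ |β * b s| := le_abs_self _
      _ = |β| * |b s| := abs_mul _ _
      _ ≤ |β| * bb |s| := mul_le_mul_of_nonneg_left (hbb_ge s) (abs_nonneg _)
  have hNsm : ContDiff ℝ (⊤ : ℕ∞) (Function.uncurry fun s u : ℝ =>
      c * exp (β * b s) * eta (β * (u - b s))) := by
    have h1 : ContDiff ℝ (⊤ : ℕ∞) (fun p : ℝ × ℝ => b p.1) := hb.comp contDiff_fst
    have h2 : ContDiff ℝ (⊤ : ℕ∞) (fun p : ℝ × ℝ => β * (p.2 - b p.1)) :=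
      contDiff_const.mul (contDiff_snd.sub h1)
    exact (contDiff_const.mul (Real.contDiff_exp.comp (contDiff_const.mul h1))).mul
      (eta_contDiff.comp h2)
  obtain ⟨F, hF, hFe⟩ := exists_fixed (k := k) (m := m) a (κ := κ)
    (N := fun s u => c * exp (β * b s) * eta (β * (u - b s))) hκc hκm hκ1 hNsm.continuous
    (fun s u => by
      rw [abs_mul, abs_mul, abs_of_pos (exp_pos _), abs_of_nonneg (eta_nonneg _)]
      have h1 := hexp s
      have h2 := eta_le (β * (u - b s))
      have h3 := eta_nonneg (β * (u - b s))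
      have h4 : |c| * exp (β * b s) * eta (β * (u - b s))
          ≤ |c| * exp (|β| * bb |s|) * exp 1 := by gcongr
      have h5 : 0 ≤ |c| * exp (|β| * bb |s|) * (M * |β|) := by positivity
      simp only [hκ]
      linarith)
    (fun s u v => by
      have e : c * exp (β * b s) * eta (β * (u - b s)) - c * exp (β * b s) * eta (β * (v - b s))
          = c * exp (β * b s) * (eta (β * (u - b s)) - eta (β * (v - b s))) := by ring
      rw [e, abs_mul, abs_mul, abs_of_pos (exp_pos _)]
      have h1 := hexp s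
      have h2 := hM (β * (u - b s)) (β * (v - b s))
      have e2 : β * (u - b s) - β * (v - b s) = β * (u - v) := by ring
      rw [e2, abs_mul] at h2
      have h4 : |c| * exp (β * b s) * |eta (β * (u - b s)) - eta (β * (v - b s))|
          ≤ |c| * exp (|β| * bb |s|) * (M * (|β| * |u - v|)) := by gcongr
      refine h4.trans ?_
      simp only [hκ]
      have h5 : 0 ≤ |c| * exp (|β| * bb |s|) := by positivity
      have h6 : 0 ≤ |u - v| := abs_nonneg _
      have h7 : |c| * exp (|β| * bb |s|) * (M * (|β| * |u - v|))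
          = (|c| * exp (|β| * bb |s|) * (M * |β|)) * |u - v| := by ring
      rw [h7]
      refine mul_le_mul_of_nonneg_right ?_ h6
      nlinarith [exp_pos (1 : ℝ)])
  exact ⟨F, fixed_smooth hNsm hF hFe, hFe⟩

/-- Comparison for the right inverse. -/
theorem Phi_le {k : ℕ} : ∀ (m : ℕ) (a : ℕ → ℝ) {G H : ℝ → ℝ}, Continuous G → Continuous H →
    ∀ {s : ℝ}, 0 ≤ s → (∀ t, 0 ≤ t → t ≤ s → G t ≤ H t) → Phi k m a G s ≤ Phi k m a H s := by
  intro m
  induction m with
  | zero =>
    intro a G H _ _ s hs h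
    exact h s hs (le_refl _)
  | succ m ih =>
    intro a G H hG hH s hs h
    have h1 : 0 ≤ K k (fun t => Phi k m (fun i => a (i + 1)) H t
        - Phi k m (fun i => a (i + 1)) G t) s := by
      refine K_nonneg hs fun t h0 h1 => sub_nonneg.2 ?_
      exact ih _ hG hH h0 fun r hr0 hr1 => h r hr0 (hr1.trans h1)
    rw [K_sub (Phi_cont _ _ hH) (Phi_cont _ _ hG)] at h1
    simp only [Phi]
    linarith

variable {E : Type*} [NormedAddCommGroup E] [InnerProductSpace ℝ E] [FiniteDimensional ℝ E]

/-- Existence of entire radial solutions for the sign that gives an upper bound. -/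
theorem exists_neg {k m : ℕ} (hE : Module.finrank ℝ E = 2 * (k + 1)) (a : ℕ → ℝ) {c β : ℝ}
    (hc : 0 ≤ c) (hβ : 0 ≤ β) :
    ∃ F : ℝ → ℝ, ContDiff ℝ (⊤ : ℕ∞) F ∧ (∀ s, 0 ≤ s → F s ≤ Phi k (m + 1) a (fun _ => 0) s) ∧
      (∀ x : E, lapIter (m + 1) (fun x : E => F (‖x‖ ^ 2)) x = - c * exp (β * F (‖x‖ ^ 2))) ∧
      (∀ j ≤ m, lapIter j (fun x : E => F (‖x‖ ^ 2)) 0 = a j) := by
  set b := Phi k (m + 1) a (fun _ => 0) with hb
  have hbs : ContDiff ℝ (⊤ : ℕ∞) b := Phi_contDiff_infty _ _ contDiff_const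
  obtain ⟨F, hF, hFe⟩ := exists_cut (k := k) (m := m) a hbs (-c) β
  set G : ℝ → ℝ := fun s => -c * exp (β * b s) * eta (β * (F s - b s)) with hG
  have hGs : ContDiff ℝ (⊤ : ℕ∞) G :=
    (contDiff_const.mul (Real.contDiff_exp.comp (contDiff_const.mul hbs))).mul
      (eta_contDiff.comp (contDiff_const.mul (hF.sub hbs)))
  have hle : ∀ s, 0 ≤ s → F s ≤ b s := by
    intro s hs
    rw [hFe, hb]
    refine Phi_le (m + 1) a hGs.continuous continuous_const hs fun t _ _ => ?_
    have h1 : 0 ≤ c * exp (β * b t) * eta (β * (F t - b t)) :=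
      mul_nonneg (mul_nonneg hc (exp_pos _).le) (eta_nonneg _)
    linarith
  have hGeq : ∀ s, 0 ≤ s → G s = -c * exp (β * F s) := by
    intro s hs
    have h1 : β * (F s - b s) ≤ 0 := mul_nonpos_of_nonneg_of_nonpos hβ (by linarith [hle s hs])
    simp only [hG]
    rw [eta_eq h1, mul_assoc, ← exp_add]
    congr 2
    ring
  have hfun : (fun x : E => F (‖x‖ ^ 2)) = fun x : E => Phi k (m + 1) a G (‖x‖ ^ 2) := by
    funext x
    exact congrFun hFe _
  refine ⟨F, hF, hle, ?_, ?_⟩
  · intro x
    rw [hfun, lapIter_Phi hE hGs (m + 1) a (m + 1) (le_refl _)]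
    simp only [Nat.sub_self, Phi]
    rw [hGeq _ (sq_nonneg _)]
  · intro j hj
    rw [hfun, lapIter_Phi hE hGs (m + 1) a j (by omega)]
    simp only [norm_zero]
    rw [zero_pow (by norm_num), Phi_at_zero _ _ (by omega), zero_add]

end Pool.Agent.V1181
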