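import Mathlib
import Pool.Agent.V1181.DBb
set_option autoImplicit false

/-! Exponential moments of Dirichlet polynomials with independently twisted blocks. -/

namespace Pool.Agent.V1181.DB

open MeasureTheory Finset Complex
open scoped ENNReal

lemma log_gap1 {N m n : ℕ} (hN : 1 ≤ N) (hm : m ∈ Icc 1 N) (hn : n ∈ Icc 1 N) :
    ((m : ℝ) - n) ^ 2 / (2 * N) ^ 2 ≤ (Real.log m - Real.log n) ^ 2 := by
  have key : ∀ a b : ℕ, a ∈ Icc 1 N → b ∈ Icc 1 N → a ≤ b →
      ((b : ℝ) - a) / (2 * N) ≤ Real.log b - Real.log a := by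
    intro a b ha hb hab
    rw [Finset.mem_Icc] at ha hb
    have ha0 : (0 : ℝ) < a := by exact_mod_cast (by omega : 0 < a)
    have hb0 : (0 : ℝ) < b := by exact_mod_cast (by omega : 0 < b)
    have hN0 : (0 : ℝ) < N := by exact_mod_cast (by omega : 0 < N)
    have h1 : Real.log (a / b) ≤ a / b - 1 := Real.log_le_sub_one_of_pos (by positivity)
    rw [Real.log_div ha0.ne' hb0.ne'] at h1
    have h2 : ((b : ℝ) - a) / (2 * N) ≤ ((b : ℝ) - a) / b := by
      apply div_le_div_of_nonneg_left _ hb0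
      · have h5 : (b : ℝ) ≤ N := by exact_mod_cast hb.2
        linarith
      · have : (a : ℝ) ≤ b := by exact_mod_cast hab
        linarith
    have h3 : ((b : ℝ) - a) / b = 1 - a / b := by field_simp
    linarith
  rw [← div_pow]
  rcases le_total m n with h | h
  · have h1 := key m n hm hn h
    have h2 : 0 ≤ ((n : ℝ) - m) / (2 * N) := by
      have : (m : ℝ) ≤ n := by exact_mod_cast h
      apply div_nonneg (by linarith) (by positivity)
    have h3 := pow_le_pow_left₀ h2 h1 2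
    calc (((m : ℝ) - n) / (2 * N)) ^ 2 = (((n : ℝ) - m) / (2 * N)) ^ 2 := by ring
      _ ≤ _ := h3
      _ = _ := by ring
  · have h1 := key n m hn hm h
    have h2 : 0 ≤ ((m : ℝ) - n) / (2 * N) := by
      have : (n : ℝ) ≤ m := by exact_mod_cast h
      apply div_nonneg (by linarith) (by positivity)
    exact pow_le_pow_left₀ h2 h1 2

lemma gauss_mv1 {N : ℕ} (hN : 1 ≤ N) {Y : ℝ} (hY : (N : ℝ) ≤ Y) (F : Finset ℕ)
    (hF : F ⊆ Icc 1 N) (c : ℕ → ℂ) :
    ∫ v : ℝ, Real.exp (-(v ^ 2 / Y ^ 2)) * ‖∑ n ∈ F, c n * ph v n‖ ^ 2 ≤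
      Real.sqrt Real.pi * Y * K0 * ∑ n ∈ F, ‖c n‖ ^ 2 := by
  have hN0 : (0 : ℝ) < N := by exact_mod_cast (by omega : 0 < N)
  have hY0 : 0 < Y := by linarith
  set θ : ℕ → ℕ → ℝ := fun m n => Real.log m - Real.log n with hθ
  have h1 : ∀ v : ℝ, ((Real.exp (-(v ^ 2 / Y ^ 2)) * ‖∑ n ∈ F, c n * ph v n‖ ^ 2 : ℝ) : ℂ) =
      ∑ m ∈ F, ∑ n ∈ F, (c m * (starRingEnd ℂ) (c n)) *
        (cexp (I * (θ m n : ℂ) * (v : ℂ)) * ((Real.exp (-(v ^ 2 / Y ^ 2)) : ℝ) : ℂ)) := by
    intro v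
    rw [Complex.ofReal_mul, Complex.ofReal_pow, ← Complex.mul_conj', map_sum,
      Finset.sum_mul_sum, Finset.mul_sum]
    refine Finset.sum_congr rfl fun m _ => ?_
    rw [Finset.mul_sum]
    refine Finset.sum_congr rfl fun n _ => ?_
    rw [map_mul]
    have h2 := ph_mul_conj v m n
    simp only [hθ]
    rw [← h2]
    ring
  have h2 : ((∫ v : ℝ, Real.exp (-(v ^ 2 / Y ^ 2)) * ‖∑ n ∈ F, c n * ph v n‖ ^ 2 : ℝ) : ℂ) =
      ∑ m ∈ F, ∑ n ∈ F, (c m * (starRingEnd ℂ) (c n)) *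
        ∫ v : ℝ, cexp (I * (θ m n : ℂ) * (v : ℂ)) * ((Real.exp (-(v ^ 2 / Y ^ 2)) : ℝ) : ℂ) := by
    rw [← integral_complex_ofReal]
    simp only [h1]
    rw [integral_finsetSum]
    · refine Finset.sum_congr rfl fun m _ => ?_
      rw [integral_finsetSum]
      · refine Finset.sum_congr rfl fun n _ => ?_
        rw [integral_const_mul]
      · intro n _
        exact (osc_int hY0 _).const_mul _
    · intro m _
      exact integrable_finsetSum _ fun n _ => (osc_int hY0 _).const_mul _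
  have h3 : ∫ v : ℝ, Real.exp (-(v ^ 2 / Y ^ 2)) * ‖∑ n ∈ F, c n * ph v n‖ ^ 2 ≤
      ‖∑ m ∈ F, ∑ n ∈ F, (c m * (starRingEnd ℂ) (c n)) *
        ∫ v : ℝ, cexp (I * (θ m n : ℂ) * (v : ℂ)) * ((Real.exp (-(v ^ 2 / Y ^ 2)) : ℝ) : ℂ)‖ := by
    rw [← h2, Complex.norm_real]
    exact Real.le_norm_self _
  refine h3.trans ?_
  set w : ℕ → ℕ → ℝ := fun m n => Real.exp (-(((m : ℝ) - n) ^ 2 / 16)) with hw
  have h4 : ∀ m ∈ F, ∀ n ∈ F, ‖(c m * (starRingEnd ℂ) (c n)) *
        ∫ v : ℝ, cexp (I * (θ m n : ℂ) * (v : ℂ)) * ((Real.exp (-(v ^ 2 / Y ^ 2)) : ℝ) : ℂ)‖ ≤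
      Real.sqrt Real.pi * Y * ((‖c m‖ ^ 2 * w m n + ‖c n‖ ^ 2 * w m n) / 2) := by
    intro m hm n hn
    rw [norm_mul, norm_mul, RCLike.norm_conj]
    have h5 := gauss_ft hY0 (θ m n)
    have h6 : Real.exp (-(Y ^ 2 * θ m n ^ 2 / 4)) ≤ w m n := by
      apply Real.exp_le_exp.2
      have h7 := log_gap1 hN (hF hm) (hF hn)
      have h8 : (N : ℝ) ^ 2 ≤ Y ^ 2 := pow_le_pow_left₀ hN0.le hY 2
      have h9 : 0 ≤ θ m n ^ 2 := sq_nonneg _
      have h10 : ((m : ℝ) - n) ^ 2 / 16 = (N : ℝ) ^ 2 * (((m : ℝ) - n) ^ 2 / (2 * N) ^ 2) / 4 := by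
        field_simp
        ring
      have h11 : (N : ℝ) ^ 2 * (((m : ℝ) - n) ^ 2 / (2 * N) ^ 2) ≤ Y ^ 2 * θ m n ^ 2 := by
        calc (N : ℝ) ^ 2 * (((m : ℝ) - n) ^ 2 / (2 * N) ^ 2) ≤ (N : ℝ) ^ 2 * θ m n ^ 2 :=
              mul_le_mul_of_nonneg_left h7 (by positivity)
          _ ≤ _ := mul_le_mul_of_nonneg_right h8 h9
      rw [h10]
      linarith
    have hw0 : 0 ≤ w m n := (Real.exp_pos _).le
    calc ‖c m‖ * ‖c n‖ * ‖∫ v : ℝ, cexp (I * (θ m n : ℂ) * (v : ℂ)) *
            ((Real.exp (-(v ^ 2 / Y ^ 2)) : ℝ) : ℂ)‖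
        ≤ ‖c m‖ * ‖c n‖ * (Real.sqrt Real.pi * Y * w m n) := by
          refine mul_le_mul_of_nonneg_left (h5.trans ?_) (by positivity)
          exact mul_le_mul_of_nonneg_left h6 (by positivity)
      _ = Real.sqrt Real.pi * Y * (‖c m‖ * ‖c n‖ * w m n) := by ring
      _ ≤ _ := by
          refine mul_le_mul_of_nonneg_left ?_ (by positivity)
          nlinarith [mul_nonneg (sq_nonneg (‖c m‖ - ‖c n‖)) hw0]
  calc ‖∑ m ∈ F, ∑ n ∈ F, (c m * (starRingEnd ℂ) (c n)) *
        ∫ v : ℝ, cexp (I * (θ m n : ℂ) * (v : ℂ)) * ((Real.exp (-(v ^ 2 / Y ^ 2)) : ℝ) : ℂ)‖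
      ≤ ∑ m ∈ F, ∑ n ∈ F, Real.sqrt Real.pi * Y * ((‖c m‖ ^ 2 * w m n + ‖c n‖ ^ 2 * w m n) / 2) := by
        refine (norm_sum_le _ _).trans (Finset.sum_le_sum fun m hm => ?_)
        exact (norm_sum_le _ _).trans (Finset.sum_le_sum fun n hn => h4 m hm n hn)
    _ = Real.sqrt Real.pi * Y * ((∑ m ∈ F, ∑ n ∈ F, ‖c m‖ ^ 2 * w m n) / 2 +
        (∑ m ∈ F, ∑ n ∈ F, ‖c n‖ ^ 2 * w m n) / 2) := by
        simp only [← Finset.mul_sum, ← Finset.sum_div, Finset.sum_add_distrib]
        ring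
    _ ≤ Real.sqrt Real.pi * Y * ((K0 * ∑ n ∈ F, ‖c n‖ ^ 2) / 2 +
        (K0 * ∑ n ∈ F, ‖c n‖ ^ 2) / 2) := by
        refine mul_le_mul_of_nonneg_left ?_ (by positivity)
        have e1 : ∑ m ∈ F, ∑ n ∈ F, ‖c m‖ ^ 2 * w m n ≤ K0 * ∑ n ∈ F, ‖c n‖ ^ 2 := by
          rw [Finset.mul_sum]
          refine Finset.sum_le_sum fun m _ => ?_
          rw [← Finset.mul_sum, mul_comm K0]
          exact mul_le_mul_of_nonneg_left (sum_g F m) (by positivity)
        have e2 : ∑ m ∈ F, ∑ n ∈ F, ‖c n‖ ^ 2 * w m n ≤ K0 * ∑ n ∈ F, ‖c n‖ ^ 2 := by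
          rw [Finset.sum_comm]
          refine le_trans (le_of_eq ?_) e1
          refine Finset.sum_congr rfl fun n _ => Finset.sum_congr rfl fun m _ => ?_
          simp only [hw]
          congr 2
          ring
        linarith
    _ = _ := by ring

lemma mvt1 {N : ℕ} (hN : 1 ≤ N) {B : ℝ} (hB : 1 ≤ B) (F : Finset ℕ) (hF : F ⊆ Icc 1 N)
    (c : ℕ → ℂ) (ρ : Measure ℝ) (hs : ρ (Set.Icc (-(B * N)) (B * N))ᶜ = 0)
    (hρ : ρ ≤ ENNReal.ofReal (B / N) • (volume : Measure ℝ)) (t : ℝ) :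
    ∫⁻ v, ‖∑ n ∈ F, c n * ph (t + v) n‖ₑ ^ (2 : ℝ) ∂ρ ≤
      ENNReal.ofReal (C1 B * ∑ n ∈ F, ‖c n‖ ^ 2) := by
  have hN0 : (0 : ℝ) < N := by exact_mod_cast (by omega : 0 < N)
  have hB0 : 0 < B := by linarith
  set Y : ℝ := B * N with hY
  have hY0 : 0 < Y := by positivity
  have hNY : (N : ℝ) ≤ Y := by rw [hY]; nlinarith
  set c' : ℕ → ℂ := fun n => c n * ph t n with hc'
  have hS : ∀ v, ∑ n ∈ F, c n * ph (t + v) n = ∑ n ∈ F, c' n * ph v n := by
    intro v
    refine Finset.sum_congr rfl fun n _ => ?_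
    rw [ph_add, hc', mul_assoc]
  have hc'n : ∀ n, ‖c' n‖ = ‖c n‖ := by
    intro n
    simp only [hc', norm_mul, ph_norm, mul_one]
  simp only [hS]
  have hgm := gauss_mv1 hN hNY F hF c'
  simp only [hc'n] at hgm
  set S : ℝ → ℂ := fun v => ∑ n ∈ F, c' n * ph v n with hSd
  have hScont : Continuous S := by
    refine continuous_finsetSum _ fun n _ => ?_
    exact continuous_const.mul (ph_cont n)
  set G : ℝ → ℝ := fun v => Real.exp (-(v ^ 2 / Y ^ 2)) * ‖S v‖ ^ 2 with hG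
  have hG0 : ∀ v, 0 ≤ G v := fun v => by positivity
  have hGint : Integrable G := by
    have hb : ∀ v, ‖S v‖ ≤ ∑ n ∈ F, ‖c n‖ := by
      intro v
      refine (norm_sum_le _ _).trans (Finset.sum_le_sum fun n _ => ?_)
      rw [norm_mul, ph_norm, mul_one, hc'n]
    refine ((gauss_int hY0).mul_const ((∑ n ∈ F, ‖c n‖) ^ 2)).mono' ?_
      (Filter.Eventually.of_forall fun v => ?_)
    · apply Continuous.aestronglyMeasurable
      have h1 : Continuous fun v : ℝ => Real.exp (-(v ^ 2 / Y ^ 2)) := by fun_prop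
      exact h1.mul (hScont.norm.pow 2)
    · rw [Real.norm_eq_abs, abs_of_nonneg (hG0 v)]
      exact mul_le_mul_of_nonneg_left (pow_le_pow_left₀ (norm_nonneg _) (hb v) 2)
        (Real.exp_pos _).le
  have hae : ∀ᵐ v ∂ρ, v ∈ Set.Icc (-Y) Y := by
    rw [ae_iff]
    exact hs
  calc ∫⁻ v, ‖S v‖ₑ ^ (2 : ℝ) ∂ρ ≤ ∫⁻ v, ENNReal.ofReal (Real.exp 1 * G v) ∂ρ := by
        apply lintegral_mono_ae
        filter_upwards [hae] with v hv
        rw [← ofReal_norm, ENNReal.ofReal_rpow_of_nonneg (norm_nonneg _) (by norm_num)]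
        apply ENNReal.ofReal_le_ofReal
        rw [show ‖S v‖ ^ (2 : ℝ) = ‖S v‖ ^ 2 by simp]
        simp only [hG]
        have h1 : 1 ≤ Real.exp 1 * Real.exp (-(v ^ 2 / Y ^ 2)) := by
          rw [← Real.exp_add]
          apply Real.one_le_exp
          have h2 : v ^ 2 / Y ^ 2 ≤ 1 := by
            rw [div_le_one (by positivity)]
            exact sq_le_sq' hv.1 hv.2
          linarith
        have h2 : 0 ≤ ‖S v‖ ^ 2 := by positivity
        nlinarith
    _ ≤ ∫⁻ v, ENNReal.ofReal (Real.exp 1 * G v) ∂(ENNReal.ofReal (B / N) • (volume : Measure ℝ)) :=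
        lintegral_mono' hρ le_rfl
    _ = ENNReal.ofReal (B / N) * ENNReal.ofReal (∫ v, Real.exp 1 * G v) := by
        rw [lintegral_smul_measure, smul_eq_mul, ofReal_integral_eq_lintegral_ofReal
          (hGint.const_mul _) (Filter.Eventually.of_forall fun v => by
            have := hG0 v
            positivity)]
    _ = ENNReal.ofReal (B / N * (Real.exp 1 * ∫ v, G v)) := by
        rw [integral_const_mul, ← ENNReal.ofReal_mul (by positivity)]
    _ ≤ _ := by
        apply ENNReal.ofReal_le_ofReal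
        calc B / N * (Real.exp 1 * ∫ v, G v)
            ≤ B / N * (Real.exp 1 * (Real.sqrt Real.pi * Y * K0 * ∑ n ∈ F, ‖c n‖ ^ 2)) := by
              refine mul_le_mul_of_nonneg_left ?_ (by positivity)
              exact mul_le_mul_of_nonneg_left hgm (Real.exp_pos _).le
          _ = C1 B * ∑ n ∈ F, ‖c n‖ ^ 2 := by
              rw [hY]
              unfold C1
              field_simp


section bernstein

variable {E : Type} [MeasurableSpace E] (ρ : Measure E) [IsProbabilityMeasure ρ]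

lemma mgf_gen {X : E → ℂ} (hXm : Measurable X) {l M : ℝ} (hl : 0 < l) (hM : ∀ v, ‖X v‖ ≤ M)
    (hlM : l * M ≤ 1) {u : ℂ} (hu : ‖u‖ = 1) :
    ∫ v, Real.exp (l * (u * X v).re) ∂ρ ≤
      Real.exp (l * (u * ∫ v, X v ∂ρ).re + l ^ 2 * ∫ v, ‖X v‖ ^ 2 ∂ρ) := by
  set Z : E → ℝ := fun v => l * (u * X v).re with hZ
  have hZm : Measurable Z := by
    have : Measurable fun v => (u * X v).re := Complex.measurable_re.comp (hXm.const_mul u)
    exact this.const_mul l
  have hZX : ∀ v, |Z v| ≤ l * ‖X v‖ := by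
    intro v
    simp only [hZ]
    rw [abs_mul, abs_of_pos hl]
    refine mul_le_mul_of_nonneg_left ?_ hl.le
    refine (Complex.abs_re_le_norm _).trans ?_
    rw [norm_mul, hu, one_mul]
  have hZ1 : ∀ v, |Z v| ≤ 1 := by
    intro v
    refine (hZX v).trans ?_
    exact (mul_le_mul_of_nonneg_left (hM v) hl.le).trans hlM
  have hZi : Integrable Z ρ :=
    Integrable.of_bound (C := 1) hZm.aestronglyMeasurable
      (Filter.Eventually.of_forall fun v => by rw [Real.norm_eq_abs]; exact hZ1 v)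
  have hZi2 : Integrable (fun v => Z v ^ 2) ρ := by
    refine Integrable.of_bound (C := 1) (hZm.pow_const 2).aestronglyMeasurable
      (Filter.Eventually.of_forall fun v => ?_)
    rw [Real.norm_eq_abs, abs_of_nonneg (by positivity), ← sq_abs]
    exact pow_le_one₀ (abs_nonneg _) (hZ1 v)
  have hXi : Integrable X ρ :=
    Integrable.of_bound (C := M) hXm.aestronglyMeasurable
      (Filter.Eventually.of_forall fun v => hM v)
  have hXi2 : Integrable (fun v => ‖X v‖ ^ 2) ρ := by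
    refine Integrable.of_bound (C := M ^ 2) (hXm.norm.pow_const 2).aestronglyMeasurable
      (Filter.Eventually.of_forall fun v => ?_)
    rw [Real.norm_eq_abs, abs_of_nonneg (by positivity)]
    exact pow_le_pow_left₀ (norm_nonneg _) (hM v) 2
  have h1 : ∫ v, Real.exp (Z v) ∂ρ ≤ ∫ v, (1 + Z v + Z v ^ 2) ∂ρ := by
    apply integral_mono_of_nonneg
    · exact Filter.Eventually.of_forall fun v => (Real.exp_pos _).le
    · exact ((integrable_const _).add hZi).add hZi2
    · refine Filter.Eventually.of_forall fun v => ?_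
      have := Real.abs_exp_sub_one_sub_id_le (hZ1 v)
      have h2 := (abs_le.1 this).2
      simp only
      linarith
  have h2 : ∫ v, (1 + Z v + Z v ^ 2) ∂ρ = 1 + ∫ v, Z v ∂ρ + ∫ v, Z v ^ 2 ∂ρ := by
    rw [integral_add (f := fun v => 1 + Z v) (g := fun v => Z v ^ 2)
      ((integrable_const _).add hZi) hZi2,
      integral_add (f := fun _ => (1 : ℝ)) (g := Z) (integrable_const _) hZi]
    simp
  have h4 : ∫ v, Z v ∂ρ = l * (u * ∫ v, X v ∂ρ).re := by
    have h4' : (∫ v, u * X v ∂ρ).re = ∫ v, (u * X v).re ∂ρ :=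
      (integral_re (𝕜 := ℂ) (hXi.const_mul u)).symm
    rw [integral_const_mul, ← integral_const_mul u, h4']
  have h7 : ∫ v, Z v ^ 2 ∂ρ ≤ l ^ 2 * ∫ v, ‖X v‖ ^ 2 ∂ρ := by
    rw [← integral_const_mul]
    apply integral_mono hZi2 (hXi2.const_mul _)
    intro v
    simp only
    rw [← mul_pow, ← sq_abs]
    exact pow_le_pow_left₀ (abs_nonneg _) (hZX v) 2
  have h8 := Real.add_one_le_exp (l * (u * ∫ v, X v ∂ρ).re + l ^ 2 * ∫ v, ‖X v‖ ^ 2 ∂ρ)
  rw [h2, h4] at h1
  linarith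

/-- the tail in one direction -/
lemma tail_dir {m : ℕ} (X : Fin m → E → ℂ) (hXm : ∀ j, Measurable (X j)) {l M V : ℝ} (hl : 0 < l)
    (hM : ∀ j v, ‖X j v‖ ≤ M) (hlM : l * M ≤ 1)
    (hV : ∑ j, ∫ v, ‖X j v‖ ^ 2 ∂ρ ≤ V) (hV2 : ‖∑ j, ∫ v, X j v ∂ρ‖ ≤ Real.sqrt V)
    {u : ℂ} (hu : ‖u‖ = 1) (x : ℝ) :
    (Measure.pi fun _ : Fin m => ρ).real {y | x ≤ (u * ∑ j, X j (y j)).re} ≤
      Real.exp (-(l * x) + (l * Real.sqrt V + l ^ 2 * V)) := by
  set Y : (Fin m → E) → ℝ := fun y => (u * ∑ j, X j (y j)).re with hY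
  have hSm : Measurable fun y : Fin m → E => ∑ j, X j (y j) :=
    Finset.measurable_sum _ fun j _ => (hXm j).comp (measurable_pi_apply j)
  have hYm : Measurable Y := Complex.measurable_re.comp (hSm.const_mul u)
  have hYb : ∀ y, |Y y| ≤ ∑ _j : Fin m, M := by
    intro y
    refine (Complex.abs_re_le_norm _).trans ?_
    rw [norm_mul, hu, one_mul]
    exact (norm_sum_le _ _).trans (Finset.sum_le_sum fun j _ => hM j _)
  have hint : Integrable (fun y => Real.exp (l * Y y)) (Measure.pi fun _ : Fin m => ρ) := by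
    refine Integrable.of_bound (C := Real.exp (l * ∑ _j : Fin m, M)) ?_
      (Filter.Eventually.of_forall fun y => ?_)
    · exact (Real.measurable_exp.comp (hYm.const_mul l)).aestronglyMeasurable
    · rw [Real.norm_eq_abs, abs_of_pos (Real.exp_pos _)]
      apply Real.exp_le_exp.2
      exact mul_le_mul_of_nonneg_left ((le_abs_self _).trans (hYb y)) hl.le
  have h1 := ProbabilityTheory.measure_ge_le_exp_mul_mgf (μ := Measure.pi fun _ : Fin m => ρ)
    (X := Y) x hl.le hint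
  refine h1.trans ?_
  rw [Real.exp_add, neg_mul]
  refine mul_le_mul_of_nonneg_left ?_ (Real.exp_pos _).le
  unfold ProbabilityTheory.mgf
  have h2 : ∀ y : Fin m → E, Real.exp (l * Y y) = ∏ j, Real.exp (l * (u * X j (y j)).re) := by
    intro y
    rw [← Real.exp_sum]
    congr 1
    simp only [hY]
    rw [Finset.mul_sum, Complex.re_sum, Finset.mul_sum]
  rw [integral_congr_ae (Filter.Eventually.of_forall h2)]
  have h3 : ∫ y : Fin m → E, ∏ j, Real.exp (l * (u * X j (y j)).re) ∂(Measure.pi fun _ => ρ) =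
      ∏ j, ∫ v, Real.exp (l * (u * X j v).re) ∂ρ :=
    integral_fintype_prod_eq_prod (fun j v => Real.exp (l * (u * X j v).re))
  rw [h3]
  calc ∏ j, ∫ v, Real.exp (l * (u * X j v).re) ∂ρ
      ≤ ∏ j, Real.exp (l * (u * ∫ v, X j v ∂ρ).re + l ^ 2 * ∫ v, ‖X j v‖ ^ 2 ∂ρ) := by
        apply Finset.prod_le_prod
        · intro j _
          exact integral_nonneg fun _ => (Real.exp_pos _).le
        · intro j _
          exact mgf_gen ρ (hXm j) hl (hM j) hlM hu
    _ = Real.exp (l * (u * ∑ j, ∫ v, X j v ∂ρ).re + l ^ 2 * ∑ j, ∫ v, ‖X j v‖ ^ 2 ∂ρ) := by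
        rw [← Real.exp_sum, Finset.sum_add_distrib, Finset.mul_sum, Complex.re_sum,
          Finset.mul_sum, Finset.mul_sum]
    _ ≤ _ := by
        apply Real.exp_le_exp.2
        refine add_le_add ?_ (mul_le_mul_of_nonneg_left hV (by positivity))
        refine mul_le_mul_of_nonneg_left ?_ hl.le
        refine (Complex.re_le_norm _).trans ?_
        rw [norm_mul, hu, one_mul]
        exact hV2

/-- Bernstein's inequality, one point -/
lemma bernstein {m : ℕ} (X : Fin m → E → ℂ) (hXm : ∀ j, Measurable (X j)) {M V s : ℝ}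
    (hM0 : 0 < M) (hM : ∀ j v, ‖X j v‖ ≤ M) (hV0 : 0 < V)
    (hV : ∑ j, ∫ v, ‖X j v‖ ^ 2 ∂ρ ≤ V) (hV2 : ‖∑ j, ∫ v, X j v ∂ρ‖ ≤ Real.sqrt V)
    (hs : 1 ≤ s) :
    (Measure.pi fun _ : Fin m => ρ).real
      {y | 6 * (Real.sqrt (V * s) + M * s) ≤ ‖∑ j, X j (y j)‖} ≤ 4 * Real.exp (-s) := by
  have hs0 : 0 < s := by linarith
  set l : ℝ := min (1 / M) (Real.sqrt (s / V)) with hl
  have hl0 : 0 < l := lt_min (by positivity) (Real.sqrt_pos.2 (by positivity))
  have hlM : l * M ≤ 1 := by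
    calc l * M ≤ 1 / M * M := mul_le_mul_of_nonneg_right (min_le_left _ _) hM0.le
      _ = 1 := by field_simp
  have hlV : l ^ 2 * V ≤ s := by
    calc l ^ 2 * V ≤ Real.sqrt (s / V) ^ 2 * V :=
          mul_le_mul_of_nonneg_right (pow_le_pow_left₀ hl0.le (min_le_right _ _) 2) hV0.le
      _ = s := by rw [Real.sq_sqrt (by positivity)]; field_simp
  have hlV2 : l * Real.sqrt V ≤ s := by
    calc l * Real.sqrt V ≤ Real.sqrt (s / V) * Real.sqrt V :=
          mul_le_mul_of_nonneg_right (min_le_right _ _) (Real.sqrt_nonneg _)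
      _ = Real.sqrt s := by
          rw [← Real.sqrt_mul (by positivity)]
          congr 1
          field_simp
      _ ≤ s := by
          rw [Real.sqrt_le_left hs0.le]
          nlinarith
  set x : ℝ := 3 * (Real.sqrt (V * s) + M * s) with hx
  have hlx : 3 * s ≤ l * x := by
    rw [hx]
    rcases min_choice (1 / M) (Real.sqrt (s / V)) with h | h
    · have e : l = 1 / M := h
      rw [e]
      have h1 : 1 / M * (M * s) = s := by field_simp
      have h2 : 0 ≤ 1 / M * Real.sqrt (V * s) := by positivity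
      nlinarith
    · have e : l = Real.sqrt (s / V) := h
      rw [e]
      have h1 : Real.sqrt (s / V) * Real.sqrt (V * s) = s := by
        rw [← Real.sqrt_mul (by positivity)]
        have : s / V * (V * s) = s ^ 2 := by field_simp
        rw [this, Real.sqrt_sq hs0.le]
      have h2 : 0 ≤ Real.sqrt (s / V) * (M * s) := by positivity
      nlinarith
  have hdir : ∀ u : ℂ, ‖u‖ = 1 → (Measure.pi fun _ : Fin m => ρ).real
      {y | x ≤ (u * ∑ j, X j (y j)).re} ≤ Real.exp (-s) := by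
    intro u hu
    refine (tail_dir ρ X hXm hl0 hM hlM hV hV2 hu x).trans ?_
    apply Real.exp_le_exp.2
    linarith
  set W : ℂ → Set (Fin m → E) := fun u => {y | x ≤ (u * ∑ j, X j (y j)).re} with hW
  have hsub : {y | 6 * (Real.sqrt (V * s) + M * s) ≤ ‖∑ j, X j (y j)‖} ⊆
      (W 1 ∪ W (-1)) ∪ (W I ∪ W (-I)) := by
    intro y hy
    rw [Set.mem_ofPred_eq] at hy
    set F := ∑ j, X j (y j) with hF
    have h1 := Complex.norm_le_abs_re_add_abs_im F
    have e1 : (1 * F).re = F.re := by simp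
    have e2 : (-1 * F).re = -F.re := by simp
    have e3 : (I * F).re = -F.im := by simp
    have e4 : (-I * F).re = F.im := by simp
    have hx2 : 2 * x = 6 * (Real.sqrt (V * s) + M * s) := by rw [hx]; ring
    rcases le_or_gt x |F.re| with h | h
    · left
      rcases abs_choice F.re with h2 | h2
      · left
        change x ≤ (1 * F).re
        rw [e1, ← h2]; exact h
      · right
        change x ≤ (-1 * F).re
        rw [e2, ← h2]; exact h
    · right
      have h3 : x ≤ |F.im| := by linarith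
      rcases abs_choice F.im with h2 | h2
      · right
        change x ≤ (-I * F).re
        rw [e4, ← h2]; exact h3
      · left
        change x ≤ (I * F).re
        rw [e3, ← h2]; exact h3
  refine (measureReal_mono hsub (measure_ne_top _ _)).trans ?_
  calc (Measure.pi fun _ : Fin m => ρ).real ((W 1 ∪ W (-1)) ∪ (W I ∪ W (-I)))
      ≤ ((Measure.pi fun _ : Fin m => ρ).real (W 1) + (Measure.pi fun _ : Fin m => ρ).real (W (-1))) +
        ((Measure.pi fun _ : Fin m => ρ).real (W I) + (Measure.pi fun _ : Fin m => ρ).real (W (-I))) :=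
        (measureReal_union_le _ _).trans
          (add_le_add (measureReal_union_le _ _) (measureReal_union_le _ _))
    _ ≤ (Real.exp (-s) + Real.exp (-s)) + (Real.exp (-s) + Real.exp (-s)) := by
        refine add_le_add (add_le_add (hdir _ ?_) (hdir _ ?_))
          (add_le_add (hdir _ ?_) (hdir _ ?_)) <;> simp
    _ = _ := by ring

end bernstein

end Pool.Agent.V1181.DB
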