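import Mathlib
import Pool.Agent.V1181.DBc
set_option autoImplicit false

/-! The supremum of a Dirichlet polynomial with independently twisted blocks. -/

namespace Pool.Agent.V1181.DB

open MeasureTheory Finset Complex
open scoped ENNReal

lemma ph_lip (t t' : ℝ) (n : ℕ) : ‖ph t n - ph t' n‖ ≤ |Real.log n| * |t - t'| := by
  have h1 : ph t n - ph t' n = ph t' n * (cexp (I * (((t - t') * Real.log n : ℝ) : ℂ)) - 1) := by
    rw [mul_sub, mul_one]
    congr 1
    unfold ph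
    rw [← Complex.exp_add]
    congr 1
    push_cast
    ring
  rw [h1, norm_mul, ph_norm, one_mul]
  refine (Real.norm_exp_I_mul_ofReal_sub_one_le).trans ?_
  rw [Real.norm_eq_abs, abs_mul, mul_comm]

lemma jensen {E : Type} [MeasurableSpace E] (ρ : Measure E) [IsProbabilityMeasure ρ] {Z : E → ℂ}
    (hZ : Measurable Z) {K : ℝ} (hK : ∀ v, ‖Z v‖ ≤ K) :
    ‖∫ v, Z v ∂ρ‖ ≤ Real.sqrt (∫ v, ‖Z v‖ ^ 2 ∂ρ) := by
  set a : ℝ := ∫ v, ‖Z v‖ ∂ρ with ha
  have hi : Integrable (fun v => ‖Z v‖) ρ :=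
    Integrable.of_bound (C := K) hZ.norm.aestronglyMeasurable
      (Filter.Eventually.of_forall fun v => by rw [norm_norm]; exact hK v)
  have hi2 : Integrable (fun v => ‖Z v‖ ^ 2) ρ := by
    refine Integrable.of_bound (C := K ^ 2) (hZ.norm.pow_const 2).aestronglyMeasurable
      (Filter.Eventually.of_forall fun v => ?_)
    rw [Real.norm_eq_abs, abs_of_nonneg (by positivity)]
    exact pow_le_pow_left₀ (norm_nonneg _) (hK v) 2
  refine (norm_integral_le_integral_norm _).trans ?_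
  apply Real.le_sqrt_of_sq_le
  have h1 : 0 ≤ ∫ v, (‖Z v‖ ^ 2 - 2 * a * ‖Z v‖ + a ^ 2) ∂ρ := by
    apply integral_nonneg
    intro v
    simp only [Pi.zero_apply]
    nlinarith [sq_nonneg (‖Z v‖ - a)]
  have h2 : ∫ v, (‖Z v‖ ^ 2 - 2 * a * ‖Z v‖ + a ^ 2) ∂ρ =
      ∫ v, ‖Z v‖ ^ 2 ∂ρ - 2 * a * a + a ^ 2 := by
    rw [integral_add (f := fun v => ‖Z v‖ ^ 2 - 2 * a * ‖Z v‖) (g := fun _ => a ^ 2)
      (hi2.sub (hi.const_mul _)) (integrable_const _),
      integral_sub (f := fun v => ‖Z v‖ ^ 2) (g := fun v => 2 * a * ‖Z v‖) hi2 (hi.const_mul _),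
      integral_const_mul, ← ha]
    simp
  rw [h2] at h1
  linarith

lemma mvt_real {N : ℕ} (hN : 1 ≤ N) {B : ℝ} (hB : 1 ≤ B) (F : Finset ℕ) (hF : F ⊆ Icc 1 N)
    (c : ℕ → ℂ) (ρ : Measure ℝ) (hs : ρ (Set.Icc (-(B * N)) (B * N))ᶜ = 0)
    (hρ : ρ ≤ ENNReal.ofReal (B / N) • (volume : Measure ℝ)) (t : ℝ) :
    ∫ v, ‖∑ n ∈ F, c n * ph (t + v) n‖ ^ 2 ∂ρ ≤ C1 B * ∑ n ∈ F, ‖c n‖ ^ 2 := by
  have h := mvt1 hN hB F hF c ρ hs hρ t
  have hC := C1_pos hB
  have hc := poly_cont F c t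
  have hsm : AEStronglyMeasurable (fun v : ℝ => ‖∑ n ∈ F, c n * ph (t + v) n‖ ^ 2) ρ :=
    (hc.norm.pow 2).aestronglyMeasurable
  rw [integral_eq_lintegral_of_nonneg_ae (Filter.Eventually.of_forall fun v => by positivity) hsm]
  apply ENNReal.toReal_le_of_le_ofReal (by positivity)
  refine le_trans (le_of_eq ?_) h
  refine lintegral_congr fun v => ?_
  rw [← ofReal_norm, ENNReal.ofReal_rpow_of_nonneg (norm_nonneg _) (by norm_num)]
  congr 1
  simp

/-- the tail at one point -/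
lemma point_tail {N : ℕ} (hN : 1 ≤ N) {B : ℝ} (hB : 1 ≤ B) (ρ : Measure ℝ)
    [IsProbabilityMeasure ρ] (hs : ρ (Set.Icc (-(B * N)) (B * N))ᶜ = 0)
    (hρ : ρ ≤ ENNReal.ofReal (B / N) • (volume : Measure ℝ)) {m : ℕ} (J : Fin m → Finset ℕ)
    (hJ : ∀ j, J j ⊆ Icc 1 N) (hd : ∀ i j, i ≠ j → Disjoint (J i) (J j)) {M : ℝ} (hM : 1 ≤ M)
    (hJM : ∀ j, ((J j).card : ℝ) ≤ M) (b : ℕ → ℂ) (hb : ∀ n, ‖b n‖ ≤ 1) (t : ℝ) {s : ℝ}
    (h1s : 1 ≤ s) :
    (Measure.pi fun _ : Fin m => ρ).real {y | 6 * (Real.sqrt (C1 B * N * s) + M * s) ≤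
      ‖∑ j, ∑ n ∈ J j, b n * ph (t + y j) n‖} ≤ 4 * Real.exp (-s) := by
  classical
  have hN0 : (0 : ℝ) < N := by exact_mod_cast (by omega : 0 < N)
  have hC1 := C1_pos hB
  set X : Fin m → ℝ → ℂ := fun j v => ∑ n ∈ J j, b n * ph (t + v) n with hX
  have hXc : ∀ j, Continuous (X j) := fun j => poly_cont (J j) b t
  have hXM : ∀ j v, ‖X j v‖ ≤ M := fun j v => (poly_le (J j) hb (t + v)).trans (hJM j)
  have hb2 : ∀ F : Finset ℕ, ∑ n ∈ F, ‖b n‖ ^ 2 ≤ F.card := by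
    intro F
    calc ∑ n ∈ F, ‖b n‖ ^ 2 ≤ ∑ _n ∈ F, (1 : ℝ) := by
          refine Finset.sum_le_sum fun n _ => ?_
          exact pow_le_one₀ (norm_nonneg _) (hb n)
      _ = _ := by simp
  have hUsub : (Finset.univ.biUnion J) ⊆ Icc 1 N := by
    intro n hn
    rw [Finset.mem_biUnion] at hn
    obtain ⟨j, _, hj⟩ := hn
    exact hJ j hj
  have hUc : ((Finset.univ.biUnion J).card : ℝ) ≤ N := by
    have h2 := Finset.card_le_card hUsub
    rw [Nat.card_Icc] at h2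
    exact_mod_cast (by omega : (Finset.univ.biUnion J).card ≤ N)
  have hUcard : ∑ j, ((J j).card : ℝ) ≤ N := by
    have h1 : (Finset.univ.biUnion J).card = ∑ j, (J j).card :=
      Finset.card_biUnion fun i _ j _ hij => hd i j hij
    rw [h1] at hUc
    exact_mod_cast hUc
  have hV : ∑ j, ∫ v, ‖X j v‖ ^ 2 ∂ρ ≤ C1 B * N := by
    calc ∑ j, ∫ v, ‖X j v‖ ^ 2 ∂ρ ≤ ∑ j, C1 B * (J j).card := by
          refine Finset.sum_le_sum fun j _ => ?_
          refine (mvt_real hN hB (J j) (hJ j) b ρ hs hρ t).trans ?_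
          exact mul_le_mul_of_nonneg_left (hb2 _) hC1.le
      _ ≤ C1 B * N := by
          rw [← Finset.mul_sum]
          exact mul_le_mul_of_nonneg_left hUcard hC1.le
  have hXi : ∀ j, Integrable (X j) ρ := fun j =>
    Integrable.of_bound (C := M) (hXc j).measurable.aestronglyMeasurable
      (Filter.Eventually.of_forall fun v => hXM j v)
  have hV2 : ‖∑ j, ∫ v, X j v ∂ρ‖ ≤ Real.sqrt (C1 B * N) := by
    rw [← integral_finsetSum _ fun j _ => hXi j]
    have h1 : ∀ v, ∑ j, X j v = ∑ n ∈ Finset.univ.biUnion J, b n * ph (t + v) n := by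
      intro v
      rw [Finset.sum_biUnion fun i _ j _ hij => hd i j hij]
    simp only [h1]
    refine (jensen ρ (poly_cont _ b t).measurable
      (K := ((Finset.univ.biUnion J).card : ℝ)) fun v => poly_le _ hb (t + v)).trans ?_
    apply Real.sqrt_le_sqrt
    refine (mvt_real hN hB _ hUsub b ρ hs hρ t).trans ?_
    exact mul_le_mul_of_nonneg_left ((hb2 _).trans hUc) hC1.le
  exact bernstein ρ X (fun j => (hXc j).measurable) (by linarith) hXM (by positivity) hV hV2 h1s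

/-- a net of `[-L, L]` -/
lemma net1 (L δ : ℝ) (hL : 0 < L) (hδ : 0 < δ) :
    ∃ S : Finset ℝ, (S.card : ℝ) ≤ 2 * (L / δ) + 3 ∧ ∀ t : ℝ, |t| ≤ L → ∃ w ∈ S, |t - w| ≤ δ := by
  classical
  set K : ℕ := ⌈L / δ⌉₊ with hK
  have hK1 : L / δ ≤ K := Nat.le_ceil _
  have hK2 : (K : ℝ) < L / δ + 1 := Nat.ceil_lt_add_one (by positivity)
  refine ⟨(Finset.Icc (-(K : ℤ)) K).image fun k : ℤ => (k : ℝ) * δ, ?_, ?_⟩
  · have h1 : (((Finset.Icc (-(K : ℤ)) K).image fun k : ℤ => (k : ℝ) * δ).card : ℝ) ≤ 2 * K + 1 := by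
      have h2 := Finset.card_image_le (s := Finset.Icc (-(K : ℤ)) K) (f := fun k : ℤ => (k : ℝ) * δ)
      rw [Int.card_Icc] at h2
      exact_mod_cast (by omega : ((Finset.Icc (-(K : ℤ)) K).image fun k : ℤ => (k : ℝ) * δ).card ≤
        2 * K + 1)
    linarith
  · intro t ht
    rw [abs_le] at ht
    refine ⟨(⌊t / δ⌋ : ℝ) * δ, ?_, ?_⟩
    · refine Finset.mem_image.2 ⟨⌊t / δ⌋, ?_, rfl⟩
      rw [Finset.mem_Icc]
      constructor
      · apply Int.le_floor.2
        push_cast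
        rw [le_div_iff₀ hδ]
        rw [div_le_iff₀ hδ] at hK1
        linarith [ht.1]
      · have h3 : (⌊t / δ⌋ : ℝ) ≤ K := by
          refine (Int.floor_le _).trans (le_trans ?_ hK1)
          exact div_le_div_of_nonneg_right ht.2 hδ.le
        exact_mod_cast h3
    · have h4 := Int.floor_le (t / δ)
      have h5 := Int.lt_floor_add_one (t / δ)
      rw [le_div_iff₀ hδ] at h4
      rw [div_lt_iff₀ hδ] at h5
      rw [abs_le]
      constructor <;> nlinarith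

/-- a polynomial with bounded coefficients is Lipschitz -/
lemma sum_lip {N m : ℕ} (hN : 1 ≤ N) (J : Fin m → Finset ℕ) (hJ : ∀ j, J j ⊆ Icc 1 N)
    (hd : ∀ i j, i ≠ j → Disjoint (J i) (J j)) (b : ℕ → ℂ) (hb : ∀ n, ‖b n‖ ≤ 1)
    (y : Fin m → ℝ) (t t' : ℝ) :
    ‖∑ j, ∑ n ∈ J j, b n * ph (t + y j) n - ∑ j, ∑ n ∈ J j, b n * ph (t' + y j) n‖ ≤
      (N : ℝ) ^ 2 * |t - t'| := by
  classical
  have hN0 : (0 : ℝ) < N := by exact_mod_cast (by omega : 0 < N)
  rw [← Finset.sum_sub_distrib]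
  have hUsub : (Finset.univ.biUnion J) ⊆ Icc 1 N := by
    intro n hn
    rw [Finset.mem_biUnion] at hn
    obtain ⟨j, _, hj⟩ := hn
    exact hJ j hj
  calc ‖∑ j, (∑ n ∈ J j, b n * ph (t + y j) n - ∑ n ∈ J j, b n * ph (t' + y j) n)‖
      ≤ ∑ j, ∑ _n ∈ J j, (N : ℝ) * |t - t'| := by
        refine (norm_sum_le _ _).trans (Finset.sum_le_sum fun j _ => ?_)
        rw [← Finset.sum_sub_distrib]
        refine (norm_sum_le _ _).trans (Finset.sum_le_sum fun n hn => ?_)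
        rw [← mul_sub, norm_mul]
        have h1 := ph_lip (t + y j) (t' + y j) n
        have h2 : t + y j - (t' + y j) = t - t' := by ring
        rw [h2] at h1
        have h3 := Finset.mem_Icc.1 (hJ j hn)
        have hn1 : (1 : ℝ) ≤ n := by exact_mod_cast h3.1
        have h4 : |Real.log n| ≤ N := by
          rw [abs_of_nonneg (Real.log_nonneg hn1)]
          have h5 : (n : ℝ) ≤ N := by exact_mod_cast h3.2
          have h6 := Real.log_le_sub_one_of_pos (by linarith : (0 : ℝ) < n)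
          linarith
        calc ‖b n‖ * ‖ph (t + y j) n - ph (t' + y j) n‖
            ≤ 1 * (|Real.log n| * |t - t'|) :=
              mul_le_mul (hb n) h1 (norm_nonneg _) zero_le_one
          _ ≤ (N : ℝ) * |t - t'| := by
              rw [one_mul]
              exact mul_le_mul_of_nonneg_right h4 (abs_nonneg _)
    _ = ∑ _n ∈ Finset.univ.biUnion J, (N : ℝ) * |t - t'| := by
        rw [Finset.sum_biUnion fun i _ j _ hij => hd i j hij]
    _ = ((Finset.univ.biUnion J).card : ℝ) * ((N : ℝ) * |t - t'|) := by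
        rw [Finset.sum_const, nsmul_eq_mul]
    _ ≤ (N : ℝ) * ((N : ℝ) * |t - t'|) := by
        refine mul_le_mul_of_nonneg_right ?_ (by positivity)
        have h2 := Finset.card_le_card hUsub
        rw [Nat.card_Icc] at h2
        exact_mod_cast (by omega : (Finset.univ.biUnion J).card ≤ N)
    _ = _ := by ring

/-- the supremum over a long interval -/
theorem sup_bound (A B : ℝ) (hA : 0 ≤ A) (hB : 1 ≤ B) : ∃ C : ℝ, 0 < C ∧ ∀ N : ℕ, 1 ≤ N →
    ∀ (ρ : Measure ℝ) [IsProbabilityMeasure ρ], ρ (Set.Icc (-(B * N)) (B * N))ᶜ = 0 →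
    ρ ≤ ENNReal.ofReal (B / N) • (volume : Measure ℝ) →
    ∀ (m : ℕ) (J : Fin m → Finset ℕ), (∀ j, J j ⊆ Icc 1 N) →
    (∀ i j, i ≠ j → Disjoint (J i) (J j)) → ∀ M : ℝ, 1 ≤ M → (∀ j, ((J j).card : ℝ) ≤ M) →
    ∀ b : ℕ → ℂ, (∀ n, ‖b n‖ ≤ 1) → ∀ s : ℝ, 0 ≤ s →
    (Measure.pi fun _ : Fin m => ρ).real {y | ∃ t : ℝ, |t| ≤ (N : ℝ) ^ A ∧
      C * (Real.sqrt (N * (s + Real.log (2 * N))) + M * (s + Real.log (2 * N))) <
        ‖∑ j, ∑ n ∈ J j, b n * ph (t + y j) n‖} ≤ Real.exp (-s) := by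
  classical
  have hC1 := C1_pos hB
  set D : ℝ := A + 7 with hD
  have hD1 : 1 ≤ D := by rw [hD]; linarith
  have hlog2 : (0.69 : ℝ) < Real.log 2 := by
    have := Real.log_two_gt_d9
    linarith
  refine ⟨6 * (Real.sqrt (C1 B * D) + D) + 2, by positivity, ?_⟩
  intro N hN ρ _ hs hρ m J hJ hd M hM hJM b hb s hs0
  have hN0 : (0 : ℝ) < N := by exact_mod_cast (by omega : 0 < N)
  have hN1 : (1 : ℝ) ≤ N := by exact_mod_cast hN
  set l : ℝ := s + Real.log (2 * N) with hl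
  have hlogN : 0 ≤ Real.log N := Real.log_nonneg hN1
  have hl2 : l = s + Real.log 2 + Real.log N := by
    rw [hl, Real.log_mul (by norm_num) hN0.ne']
    ring
  have hl0 : 0.69 < l := by rw [hl2]; linarith
  have hlpos : 0 < l := by linarith
  set s' : ℝ := D * l with hs'
  have h1s : 1 ≤ s' := by
    rw [hs', hD]
    nlinarith
  set P : Measure (Fin m → ℝ) := Measure.pi fun _ : Fin m => ρ with hP
  set F : (Fin m → ℝ) → ℝ → ℂ := fun y t => ∑ j, ∑ n ∈ J j, b n * ph (t + y j) n with hF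
  obtain ⟨S, hS1, hS2⟩ := net1 ((N : ℝ) ^ A) (1 / (N : ℝ) ^ 2) (by positivity) (by positivity)
  have hScard : (S.card : ℝ) ≤ 5 * (N : ℝ) ^ (A + 2) := by
    refine hS1.trans ?_
    have e1 : (N : ℝ) ^ A / (1 / (N : ℝ) ^ 2) = (N : ℝ) ^ (A + 2) := by
      rw [Real.rpow_add hN0, div_div_eq_mul_div, div_one]
      congr 1
      exact (Real.rpow_natCast _ 2).symm
    rw [e1]
    have e2 : 1 ≤ (N : ℝ) ^ (A + 2) := Real.one_le_rpow hN1 (by linarith)
    linarith
  set Q : ℝ := 6 * (Real.sqrt (C1 B * N * s') + M * s') with hQ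
  -- from all points to the net
  have hsub : {y : Fin m → ℝ | ∃ t : ℝ, |t| ≤ (N : ℝ) ^ A ∧
      (6 * (Real.sqrt (C1 B * D) + D) + 2) * (Real.sqrt (N * l) + M * l) < ‖F y t‖} ⊆
      ⋃ w ∈ S, {y : Fin m → ℝ | Q ≤ ‖F y w‖} := by
    rintro y ⟨t, ht, hy⟩
    obtain ⟨w, hw, htw⟩ := hS2 t ht
    refine Set.mem_biUnion hw ?_
    rw [Set.mem_ofPred_eq]
    have h3 : ‖F y t - F y w‖ ≤ 1 := by
      refine (sum_lip hN J hJ hd b hb y t w).trans ?_
      calc (N : ℝ) ^ 2 * |t - w| ≤ (N : ℝ) ^ 2 * (1 / (N : ℝ) ^ 2) :=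
            mul_le_mul_of_nonneg_left htw (by positivity)
        _ = 1 := by field_simp
    have h4 : ‖F y t‖ ≤ ‖F y w‖ + 1 := by
      have := norm_sub_norm_le (F y t) (F y w)
      linarith
    have h5 : 1 ≤ 2 * (Real.sqrt (N * l) + M * l) := by
      have : 0 ≤ Real.sqrt (N * l) := Real.sqrt_nonneg _
      nlinarith
    have h6 : Q ≤ 6 * (Real.sqrt (C1 B * D) + D) * (Real.sqrt (N * l) + M * l) := by
      have e1 : Real.sqrt (C1 B * N * s') = Real.sqrt (C1 B * D) * Real.sqrt (N * l) := by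
        rw [← Real.sqrt_mul (by positivity)]
        congr 1
        rw [hs']
        ring
      rw [hQ, e1, hs']
      have a1 : 0 ≤ Real.sqrt (C1 B * D) := Real.sqrt_nonneg _
      have a2 : 0 ≤ Real.sqrt (N * l) := Real.sqrt_nonneg _
      have a3 : 0 ≤ M * l := by positivity
      have a4 : 0 ≤ Real.sqrt (C1 B * D) * (M * l) := by positivity
      have a5 : 0 ≤ D * Real.sqrt (N * l) := by positivity
      nlinarith
    linarith
  have hfin : ∀ w ∈ S, P.real {y : Fin m → ℝ | Q ≤ ‖F y w‖} ≤ 4 * Real.exp (-s') := fun w _ =>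
    point_tail hN hB ρ hs hρ J hJ hd hM hJM b hb w h1s
  refine (measureReal_mono hsub (measure_ne_top _ _)).trans ?_
  refine (measureReal_biUnion_finset_le S _).trans ?_
  calc ∑ w ∈ S, P.real {y : Fin m → ℝ | Q ≤ ‖F y w‖}
      ≤ ∑ _w ∈ S, 4 * Real.exp (-s') := Finset.sum_le_sum hfin
    _ = (S.card : ℝ) * (4 * Real.exp (-s')) := by rw [Finset.sum_const, nsmul_eq_mul]
    _ ≤ 5 * (N : ℝ) ^ (A + 2) * (4 * Real.exp (-s')) :=
        mul_le_mul_of_nonneg_right hScard (by positivity)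
    _ = 20 * Real.exp (Real.log N * (A + 2) - s') := by
        rw [Real.rpow_def_of_pos hN0, sub_eq_add_neg, Real.exp_add]
        ring
    _ ≤ Real.exp (-s) := by
        have e1 : (20 : ℝ) ≤ Real.exp (5 * Real.log 2) := by
          rw [mul_comm, Real.exp_mul, Real.exp_log (by norm_num)]
          norm_num
        calc 20 * Real.exp (Real.log N * (A + 2) - s')
            ≤ Real.exp (5 * Real.log 2) * Real.exp (Real.log N * (A + 2) - s') :=
              mul_le_mul_of_nonneg_right e1 (Real.exp_pos _).le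
          _ = Real.exp (5 * Real.log 2 + (Real.log N * (A + 2) - s')) := by rw [Real.exp_add]
          _ ≤ Real.exp (-s) := by
              apply Real.exp_le_exp.2
              rw [hs', hl2, hD]
              have e2 : 0 ≤ A * s := by positivity
              have e3 : 0 ≤ A * Real.log 2 := by positivity
              nlinarith

end Pool.Agent.V1181.DB
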