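import Mathlib
import Pool.Agent.V1181.RadExp

/-!
# Radial polynomials and one-sided bounds for the iterated right inverse of the Laplacian
-/

set_option autoImplicit false

namespace Pool.Agent.V1181

open Real Set Filter MeasureTheory Topology InnerProductSpace Laplacian Polynomial

/-- The radial Laplacian of a polynomial in `|x| ^ 2`. -/
noncomputable def polyL (k : ℕ) (P : ℝ[X]) : ℝ[X] :=
  C 4 * X * derivative (derivative P) + C (4 * ((k : ℝ) + 1)) * derivative P

theorem A_polyL (k : ℕ) (P : ℝ[X]) (s : ℝ) :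
    A k (fun t => (polyL k P).eval t) s = 4 * (derivative P).eval s := by
  unfold A
  have hd : ∀ τ ∈ uIcc (0 : ℝ) 1, HasDerivAt
      (fun τ : ℝ => τ ^ (k + 1) * (4 * (derivative P).eval (τ * s)))
      (τ ^ k * (polyL k P).eval (τ * s)) τ := by
    intro τ _
    have h1 : HasDerivAt (fun x : ℝ => x * s) s τ := by
      simpa using (hasDerivAt_id τ).mul_const s
    have h2 := ((derivative P).hasDerivAt (τ * s)).comp τ h1
    have h3 := (hasDerivAt_pow (k + 1) τ).mul (h2.const_mul 4)
    refine h3.congr_deriv ?_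
    simp only [polyL, Nat.add_sub_cancel, eval_add, eval_mul, eval_C, eval_X,
      Function.comp_apply]
    push_cast
    ring
  rw [intervalIntegral.integral_eq_sub_of_hasDerivAt hd]
  · simp
  · exact Continuous.intervalIntegrable (by
      have := (polyL k P).continuous
      fun_prop) _ _

theorem K_polyL (k : ℕ) (P : ℝ[X]) (s : ℝ) :
    K k (fun t => (polyL k P).eval t) s = P.eval s - P.eval 0 := by
  unfold K
  have h : (fun σ => A k (fun t => (polyL k P).eval t) σ) = fun σ => 4 * (derivative P).eval σ := by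
    funext σ
    exact A_polyL k P σ
  rw [h, intervalIntegral.integral_const_mul]
  have h2 : ∫ σ in (0 : ℝ)..s, (derivative P).eval σ = P.eval s - P.eval 0 :=
    intervalIntegral.integral_eq_sub_of_hasDerivAt (fun t _ => P.hasDerivAt t)
      ((derivative P).continuous.intervalIntegrable _ _)
  rw [h2]
  ring

theorem Phi_poly (k : ℕ) : ∀ (d : ℕ) (P : ℝ[X]), P.natDegree ≤ d →
    ∃ a : ℕ → ℝ, Phi k (d + 1) a (fun _ => 0) = fun s => P.eval s := by
  intro d
  induction d with
  | zero =>
    intro P hP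
    refine ⟨fun _ => P.eval 0, ?_⟩
    have h1 : P = C (P.coeff 0) := eq_C_of_natDegree_le_zero hP
    funext s
    simp only [Phi]
    have h2 : K k (fun _ => (0 : ℝ)) s = 0 := by simp [K, A]
    rw [h2, h1]
    simp
  | succ d ih =>
    intro P hP
    have hQ : (polyL k P).natDegree ≤ d := by
      unfold polyL
      have h1 : (derivative P).natDegree ≤ d := (natDegree_derivative_le P).trans (by omega)
      refine (natDegree_add_le _ _).trans (max_le ?_ ?_)
      · rcases Nat.eq_zero_or_pos d with h0 | h0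
        · subst h0
          have h2 : derivative (derivative P) = 0 := by
            have h3 : derivative P = C ((derivative P).coeff 0) :=
              eq_C_of_natDegree_le_zero h1
            rw [h3, derivative_C]
          rw [h2, mul_zero]
          simp
        · have h2 : (derivative (derivative P)).natDegree ≤ d - 1 :=
            (natDegree_derivative_le _).trans (by omega)
          refine (natDegree_mul_le).trans ?_
          have h3 : (C (4 : ℝ) * X).natDegree ≤ 1 := by
            refine (natDegree_C_mul_le _ _).trans ?_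
            exact natDegree_X_le
          omega
      · exact (natDegree_C_mul_le _ _).trans h1
    obtain ⟨a, ha⟩ := ih _ hQ
    refine ⟨fun i => match i with
      | 0 => P.eval 0
      | (i + 1) => a i, ?_⟩
    funext s
    show P.eval 0 + K k (Phi k (d + 1) (fun i => a i) fun _ => 0) s = P.eval s
    rw [ha, K_polyL]
    ring

/-- Superposition. -/
theorem Phi_sub {k : ℕ} : ∀ (m : ℕ) (a : ℕ → ℝ) (a' : ℕ → ℝ) {G H : ℝ → ℝ}, Continuous G →
    Continuous H → ∀ s, Phi k m a G s - Phi k m a' H s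
      = Phi k m (fun i => a i - a' i) (fun t => G t - H t) s := by
  intro m
  induction m with
  | zero => intro a a' G H _ _ s; rfl
  | succ m ih =>
    intro a a' G H hG hH s
    simp only [Phi]
    have h := K_sub (k := k) (Phi_cont (k := k) m (fun i => a (i + 1)) hG)
      (Phi_cont (k := k) m (fun i => a' (i + 1)) hH) s
    have h2 : (fun t => Phi k m (fun i => a (i + 1)) G t - Phi k m (fun i => a' (i + 1)) H t)
        = Phi k m (fun i => a (i + 1) - a' (i + 1)) (fun t => G t - H t) := by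
      funext t
      exact ih _ _ hG hH t
    rw [h2] at h
    linarith

/-- Only the value at the origin is changed. -/
theorem Phi_data {k : ℕ} (m : ℕ) (a a' : ℕ → ℝ) (ha : ∀ i, a (i + 1) = a' (i + 1))
    (G : ℝ → ℝ) (s : ℝ) : Phi k (m + 1) a G s = Phi k (m + 1) a' G s + (a 0 - a' 0) := by
  simp only [Phi]
  have : (fun i => a (i + 1)) = fun i => a' (i + 1) := funext ha
  rw [this]
  ring

/-- Sharp one-sided bound of the right inverse. -/
theorem K_le_integral {k : ℕ} (hk : 1 ≤ k) {G : ℝ → ℝ} (hG : ContDiff ℝ 1 G) {s : ℝ} (hs : 0 ≤ s)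
    (h : ∀ t, 0 ≤ t → t ≤ s → 0 ≤ G t) : K k G s ≤ ∫ t in (0 : ℝ)..s, G t := by
  have hGc := hG.continuous
  have hAc : Continuous (A k G) := A_cont hGc
  have hd : ∀ t ∈ uIcc 0 s, HasDerivAt (fun t => t * A k G t) (G t - k * A k G t) t := by
    intro t _
    have h1 := (hasDerivAt_id t).mul (A_hasDerivAt (k := k) hG t)
    refine h1.congr_deriv ?_
    have h2 := A_euler (k := k) hG t
    simp only [id_eq, one_mul]
    linarith
  have h1 := intervalIntegral.integral_eq_sub_of_hasDerivAt hd
    (Continuous.intervalIntegrable (by fun_prop) _ _)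
  rw [intervalIntegral.integral_sub (hGc.intervalIntegrable _ _)
    (Continuous.intervalIntegrable (by fun_prop) _ _), intervalIntegral.integral_const_mul] at h1
  have h2 : 0 ≤ s * A k G s := mul_nonneg hs (A_nonneg hs h)
  have h3 : 0 ≤ ∫ t in (0 : ℝ)..s, A k G t :=
    intervalIntegral.integral_nonneg hs fun t ht =>
      A_nonneg ht.1 fun r h0 h1 => h r h0 (h1.trans ht.2)
  have hk1 : (1 : ℝ) ≤ k := by exact_mod_cast hk
  unfold K
  have h4 : (0 : ℝ) * A k G 0 = 0 := zero_mul _
  rw [h4, sub_zero] at h1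
  nlinarith

theorem A_bound_nonneg {k : ℕ} {G : ℝ → ℝ} {s B : ℝ} (hs : 0 ≤ s)
    (h : ∀ t, 0 ≤ t → t ≤ s → |G t| ≤ B) : |A k G s| ≤ B := by
  have hB : 0 ≤ B := (abs_nonneg _).trans (h 0 le_rfl hs)
  unfold A
  rw [← Real.norm_eq_abs]
  have h1 : ∀ τ ∈ uIoc (0 : ℝ) 1, ‖τ ^ k * G (τ * s)‖ ≤ B := by
    intro τ hτ
    rw [uIoc_of_le zero_le_one] at hτ
    rw [norm_mul, norm_pow, Real.norm_of_nonneg hτ.1.le, Real.norm_eq_abs]
    have h2 := h (τ * s) (mul_nonneg hτ.1.le hs) (by nlinarith [hτ.2])
    calc τ ^ k * |G (τ * s)| ≤ 1 * |G (τ * s)| := by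
          gcongr
          exact pow_le_one₀ hτ.1.le hτ.2
      _ ≤ B := by rwa [one_mul]
  have := intervalIntegral.norm_integral_le_of_norm_le_const h1
  simpa using this

theorem K_exp_bound {k : ℕ} {G : ℝ → ℝ} {s c Λ : ℝ} (hs : 0 ≤ s) (hc : 0 ≤ c) (hΛ : 0 < Λ)
    (hG : Continuous G)
    (h : ∀ t, 0 ≤ t → t ≤ s → |G t| ≤ c * exp (Λ * t)) : |K k G s| ≤ c / (4 * Λ) * exp (Λ * s) := by
  have h1 : ∀ t, 0 ≤ t → t ≤ s → |A k G t| ≤ c * exp (Λ * t) := by
    intro t ht hts
    refine A_bound_nonneg ht fun r hr hrt => ?_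
    refine (h r hr (hrt.trans hts)).trans ?_
    gcongr
  have hE : ∫ t in (0 : ℝ)..s, c * exp (Λ * t) = c / Λ * (exp (Λ * s) - 1) := by
    have hd : ∀ t ∈ uIcc 0 s, HasDerivAt (fun t => c / Λ * exp (Λ * t)) (c * exp (Λ * t)) t := by
      intro t _
      have h2 : HasDerivAt (fun t : ℝ => Λ * t) Λ t := by
        simpa using (hasDerivAt_id t).const_mul Λ
      refine (h2.exp.const_mul (c / Λ)).congr_deriv ?_
      field_simp
    rw [intervalIntegral.integral_eq_sub_of_hasDerivAt hd
      (Continuous.intervalIntegrable (by fun_prop) _ _)]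
    simp
    ring
  unfold K
  rw [abs_mul, abs_of_pos (by norm_num : (0 : ℝ) < 1 / 4)]
  have h2 : |∫ t in (0 : ℝ)..s, A k G t| ≤ ∫ t in (0 : ℝ)..s, c * exp (Λ * t) := by
    rw [← Real.norm_eq_abs]
    refine intervalIntegral.norm_integral_le_of_norm_le hs
      (Filter.Eventually.of_forall fun t ht => ?_)
      (Continuous.intervalIntegrable (by fun_prop) _ _)
    exact h1 t ht.1.le ht.2
  rw [hE] at h2
  have h3 : 0 ≤ c / Λ := by positivity
  have h4 : c / (4 * Λ) * exp (Λ * s) = 1 / 4 * (c / Λ * exp (Λ * s)) := by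
    field_simp
  rw [h4]
  nlinarith

theorem Phi_exp_bound {k : ℕ} : ∀ (m : ℕ) {G : ℝ → ℝ} {s c Λ : ℝ}, 0 ≤ s → 0 ≤ c → 1 ≤ Λ →
    Continuous G → (∀ t, 0 ≤ t → t ≤ s → |G t| ≤ c * exp (Λ * t)) →
    |Phi k (m + 1) (fun _ => 0) G s| ≤ c / (4 * Λ) * exp (Λ * s) := by
  intro m
  induction m with
  | zero =>
    intro G s c Λ hs hc hΛ hG h
    simp only [Phi, zero_add]
    exact K_exp_bound hs hc (by linarith) hG h
  | succ m ih =>
    intro G s c Λ hs hc hΛ hG h
    have h1 : Phi k (m + 1 + 1) (fun _ => 0) G s = K k (Phi k (m + 1) (fun _ => 0) G) s := by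
      simp only [Phi, zero_add]
    rw [h1]
    refine K_exp_bound hs hc (by linarith) (Phi_cont _ _ hG) fun t ht hts => ?_
    refine (ih ht hc hΛ hG fun r hr hrt => h r hr (hrt.trans hts)).trans ?_
    have h2 : c / (4 * Λ) ≤ c := div_le_self hc (by linarith)
    gcongr

end Pool.Agent.V1181
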