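import Mathlib
import Pool.Agent.V1181.RadPoly

/-!
# Radial solutions of `Δ ^ m w = exp w` in dimension `2 m` with large volume
-/

set_option autoImplicit false

namespace Pool.Agent.V1181

open Real Set Filter MeasureTheory Topology InnerProductSpace Laplacian Polynomial

/-- Second moment. -/
noncomputable def JJ (G : ℝ → ℝ) (s : ℝ) : ℝ := ∫ σ in (0 : ℝ)..s, (s - σ) ^ 2 * G σ

section moments

variable {G : ℝ → ℝ} (hG : Continuous G)

include hG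

theorem I1_deriv (s : ℝ) : HasDerivAt (fun s => ∫ σ in (0 : ℝ)..s, G σ) (G s) s :=
  intervalIntegral.integral_hasDerivAt_right (hG.intervalIntegrable _ _)
    (hG.stronglyMeasurableAtFilter _ _) hG.continuousAt

theorem J1_deriv (s : ℝ) : HasDerivAt
    (fun s => s * (∫ σ in (0 : ℝ)..s, G σ) - ∫ σ in (0 : ℝ)..s, σ * G σ)
    (∫ σ in (0 : ℝ)..s, G σ) s := by
  have h1 := (hasDerivAt_id s).mul (I1_deriv hG s)
  have h2 := I1_deriv (G := fun σ => σ * G σ) (by fun_prop) s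
  refine (h1.sub h2).congr_deriv ?_
  simp only [id_eq]
  ring

theorem JJ_eq (s : ℝ) : JJ G s = s ^ 2 * (∫ σ in (0 : ℝ)..s, G σ)
    - 2 * s * (∫ σ in (0 : ℝ)..s, σ * G σ) + ∫ σ in (0 : ℝ)..s, σ ^ 2 * G σ := by
  unfold JJ
  rw [← intervalIntegral.integral_const_mul, ← intervalIntegral.integral_const_mul,
    ← intervalIntegral.integral_sub (Continuous.intervalIntegrable (by fun_prop) _ _)
      (Continuous.intervalIntegrable (by fun_prop) _ _),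
    ← intervalIntegral.integral_add (Continuous.intervalIntegrable (by fun_prop) _ _)
      (Continuous.intervalIntegrable (by fun_prop) _ _)]
  congr 1
  funext σ
  ring

theorem JJ_deriv (s : ℝ) : HasDerivAt (JJ G)
    (2 * (s * (∫ σ in (0 : ℝ)..s, G σ) - ∫ σ in (0 : ℝ)..s, σ * G σ)) s := by
  have h0 : JJ G = fun s => s ^ 2 * (∫ σ in (0 : ℝ)..s, G σ)
    - 2 * s * (∫ σ in (0 : ℝ)..s, σ * G σ) + ∫ σ in (0 : ℝ)..s, σ ^ 2 * G σ := by
    funext s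
    exact JJ_eq hG s
  rw [h0]
  have h1 := (hasDerivAt_pow 2 s).mul (I1_deriv hG s)
  have h2 := ((hasDerivAt_id s).const_mul 2).mul
    (I1_deriv (G := fun σ => σ * G σ) (by fun_prop) s)
  have h3 := I1_deriv (G := fun σ => σ ^ 2 * G σ) (by fun_prop) s
  refine ((h1.sub h2).add h3).congr_deriv ?_
  simp only [id_eq]
  norm_num
  ring

theorem JJ_cont : Continuous (JJ G) :=
  continuous_iff_continuousAt.2 fun s => (JJ_deriv hG s).continuousAt

theorem int_I1 (s : ℝ) : ∫ ρ in (0 : ℝ)..s, (∫ σ in (0 : ℝ)..ρ, G σ)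
    = s * (∫ σ in (0 : ℝ)..s, G σ) - ∫ σ in (0 : ℝ)..s, σ * G σ := by
  rw [intervalIntegral.integral_eq_sub_of_hasDerivAt (fun t _ => J1_deriv hG t)
    ((intervalIntegral.continuous_primitive (fun a b => hG.intervalIntegrable a b) 0).intervalIntegrable
      _ _)]
  simp

theorem int_J1 (s : ℝ) : ∫ ρ in (0 : ℝ)..s,
    (ρ * (∫ σ in (0 : ℝ)..ρ, G σ) - ∫ σ in (0 : ℝ)..ρ, σ * G σ) = JJ G s / 2 := by
  have hc : Continuous fun ρ => 2 * (ρ * (∫ σ in (0 : ℝ)..ρ, G σ) - ∫ σ in (0 : ℝ)..ρ, σ * G σ) :=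
    continuous_const.mul (continuous_iff_continuousAt.2 fun s => (J1_deriv hG s).continuousAt)
  have h := intervalIntegral.integral_eq_sub_of_hasDerivAt (a := 0) (b := s)
    (fun t _ => JJ_deriv hG t) (hc.intervalIntegrable _ _)
  rw [intervalIntegral.integral_const_mul] at h
  have h0 : JJ G 0 = 0 := by simp [JJ]
  rw [h0, sub_zero] at h
  linarith

theorem JJ_mono (hG0 : ∀ t, 0 ≤ t → 0 ≤ G t) {s t : ℝ} (hs : 0 ≤ s) (hst : s ≤ t) :
    JJ G s ≤ JJ G t := by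
  have h1 : MonotoneOn (JJ G) (Icc 0 t) := by
    refine monotoneOn_of_deriv_nonneg (convex_Icc 0 t) (JJ_cont hG).continuousOn ?_ ?_
    · intro x _
      exact (JJ_deriv hG x).differentiableAt.differentiableWithinAt
    · intro x hx
      rw [interior_Icc] at hx
      rw [(JJ_deriv hG x).deriv, ← int_I1 hG x]
      have : 0 ≤ ∫ ρ in (0 : ℝ)..x, (∫ σ in (0 : ℝ)..ρ, G σ) :=
        intervalIntegral.integral_nonneg hx.1.le fun ρ hρ =>
          intervalIntegral.integral_nonneg hρ.1 fun σ hσ => hG0 σ hσ.1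
      linarith
  exact h1 ⟨hs, hst⟩ ⟨hs.trans hst, le_rfl⟩ hst

theorem JJ_nonneg (hG0 : ∀ t, 0 ≤ t → 0 ≤ G t) {s : ℝ} (hs : 0 ≤ s) : 0 ≤ JJ G s := by
  have := JJ_mono hG hG0 le_rfl hs
  have h0 : JJ G 0 = 0 := by simp [JJ]
  linarith

end moments

theorem Phi_nonneg {k : ℕ} {G : ℝ → ℝ} (hG : Continuous G) (hG0 : ∀ t, 0 ≤ t → 0 ≤ G t) (m : ℕ)
    {s : ℝ} (hs : 0 ≤ s) : 0 ≤ Phi k m (fun _ => 0) G s := by
  have h := Phi_le (k := k) m (fun _ => 0) (G := fun _ => 0) continuous_const hG hs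
    fun t h0 _ => hG0 t h0
  refine le_trans ?_ h
  induction m generalizing s with
  | zero => simp [Phi]
  | succ m ih =>
    simp only [Phi, zero_add]
    exact K_nonneg hs fun t h0 _ => ih h0 (Phi_le (k := k) m (fun _ => 0) (G := fun _ => 0)
      continuous_const hG h0 fun t h0 _ => hG0 t h0)

theorem Phi_le_JJ {k : ℕ} (hk : 1 ≤ k) {G : ℝ → ℝ} (hG : ContDiff ℝ (⊤ : ℕ∞) G)
    (hG0 : ∀ t, 0 ≤ t → 0 ≤ G t) :
    ∀ (j : ℕ) {s : ℝ}, 0 ≤ s → Phi k (j + 3) (fun _ => 0) G s ≤ s ^ j * (JJ G s / 2) := by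
  have hGc := hG.continuous
  have hsm : ∀ i, ContDiff ℝ 1 (Phi k i (fun _ => 0) G) := fun i => by
    exact_mod_cast contDiff_infty.1 (Phi_contDiff_infty i (fun _ => 0) hG) 1
  have hcn : ∀ i, Continuous (Phi k i (fun _ => 0) G) := fun i => (hsm i).continuous
  have step : ∀ i {s : ℝ}, 0 ≤ s → Phi k (i + 1) (fun _ => 0) G s ≤
      ∫ t in (0 : ℝ)..s, Phi k i (fun _ => 0) G t := by
    intro i s hs
    simp only [Phi, zero_add]
    exact K_le_integral hk (hsm i) hs fun t h0 _ => Phi_nonneg hGc hG0 i h0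
  have hI1c : Continuous fun s => ∫ σ in (0 : ℝ)..s, G σ :=
    intervalIntegral.continuous_primitive (fun a b => hGc.intervalIntegrable a b) 0
  have hJ1c : Continuous fun ρ => ρ * (∫ σ in (0 : ℝ)..ρ, G σ) - ∫ σ in (0 : ℝ)..ρ, σ * G σ :=
    continuous_iff_continuousAt.2 fun s => (J1_deriv hGc s).continuousAt
  have h1 : ∀ {s : ℝ}, 0 ≤ s → Phi k 1 (fun _ => 0) G s ≤ ∫ σ in (0 : ℝ)..s, G σ :=
    fun hs => step 0 hs
  have h2 : ∀ {s : ℝ}, 0 ≤ s → Phi k 2 (fun _ => 0) G s ≤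
      s * (∫ σ in (0 : ℝ)..s, G σ) - ∫ σ in (0 : ℝ)..s, σ * G σ := by
    intro s hs
    rw [← int_I1 hGc s]
    refine (step 1 hs).trans (intervalIntegral.integral_mono_on hs
      ((hcn 1).intervalIntegrable _ _) (hI1c.intervalIntegrable _ _) fun t ht => h1 ht.1)
  have h3 : ∀ {s : ℝ}, 0 ≤ s → Phi k 3 (fun _ => 0) G s ≤ JJ G s / 2 := by
    intro s hs
    rw [← int_J1 hGc s]
    refine (step 2 hs).trans (intervalIntegral.integral_mono_on hs
      ((hcn 2).intervalIntegrable _ _) (hJ1c.intervalIntegrable _ _) fun t ht => h2 ht.1)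
  intro j
  induction j with
  | zero => intro s hs; simpa using h3 hs
  | succ j ih =>
    intro s hs
    refine (step (j + 3) hs).trans ?_
    have hb : ∀ t ∈ Icc 0 s, Phi k (j + 3) (fun _ => 0) G t ≤ s ^ j * (JJ G s / 2) := by
      intro t ht
      refine (ih ht.1).trans ?_
      have e1 : t ^ j ≤ s ^ j := pow_le_pow_left₀ ht.1 ht.2 j
      have e2 := JJ_mono hGc hG0 ht.1 ht.2
      have e3 := JJ_nonneg hGc hG0 ht.1
      gcongr
    have := intervalIntegral.integral_mono_on (μ := volume) hs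
      ((hcn (j + 3)).intervalIntegrable _ _) (continuous_const.intervalIntegrable _ _) hb
    refine this.trans (le_of_eq ?_)
    rw [intervalIntegral.integral_const, smul_eq_mul]
    ring

theorem mul_exp_neg_le (x : ℝ) : x * exp (-x) ≤ 1 := by
  have h1 := Real.add_one_le_exp x
  have h2 : exp x * exp (-x) = 1 := by rw [← exp_add]; simp
  have h3 := exp_pos (-x)
  nlinarith

theorem JJ_gauss {G : ℝ → ℝ} (hG : Continuous G) {Q μ : ℝ} (hμ : 0 < μ) (hQ : 0 ≤ Q)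
    (h0 : ∀ t, 0 ≤ t → G t ≤ Q * exp (-(μ ^ 2 / 2) * (t - 1) ^ 2)) {s : ℝ} (hs : 0 ≤ s) :
    JJ G s ≤ Q * (2 * (s - 1) ^ 2 + 8 / μ ^ 2) * (2 * √π / μ) := by
  set B := Q * (2 * (s - 1) ^ 2 + 8 / μ ^ 2) with hB
  have hB0 : 0 ≤ B := by positivity
  have hpt : ∀ σ ∈ Icc 0 s, (s - σ) ^ 2 * G σ ≤ B * exp (-(μ ^ 2 / 4) * (σ - 1) ^ 2) := by
    intro σ hσ
    have h1 := h0 σ hσ.1
    have h2 : exp (-(μ ^ 2 / 2) * (σ - 1) ^ 2) = exp (-(μ ^ 2 / 4) * (σ - 1) ^ 2)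
        * exp (-(μ ^ 2 / 4 * (σ - 1) ^ 2)) := by
      rw [← exp_add]; congr 1; ring
    have h3 := mul_exp_neg_le (μ ^ 2 / 4 * (σ - 1) ^ 2)
    have h4 : (s - σ) ^ 2 ≤ 2 * (s - 1) ^ 2 + 2 * (σ - 1) ^ 2 := by
      nlinarith [sq_nonneg (s - 1 + (σ - 1))]
    have hE1 : exp (-(μ ^ 2 / 4 * (σ - 1) ^ 2)) ≤ 1 := by
      apply Real.exp_le_one_iff.2
      have : 0 ≤ μ ^ 2 / 4 * (σ - 1) ^ 2 := by positivity
      linarith
    have h5 : (2 * (s - 1) ^ 2 + 2 * (σ - 1) ^ 2) * exp (-(μ ^ 2 / 4 * (σ - 1) ^ 2)) ≤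
        2 * (s - 1) ^ 2 + 8 / μ ^ 2 := by
      have h6 : (σ - 1) ^ 2 * exp (-(μ ^ 2 / 4 * (σ - 1) ^ 2)) ≤ 4 / μ ^ 2 := by
        rw [le_div_iff₀ (by positivity)]
        nlinarith
      have h7 : (s - 1) ^ 2 * exp (-(μ ^ 2 / 4 * (σ - 1) ^ 2)) ≤ (s - 1) ^ 2 :=
        mul_le_of_le_one_right (sq_nonneg _) hE1
      have h8 : 8 / μ ^ 2 = 2 * (4 / μ ^ 2) := by ring
      rw [h8]
      nlinarith
    calc (s - σ) ^ 2 * G σ ≤ (s - σ) ^ 2 * (Q * exp (-(μ ^ 2 / 2) * (σ - 1) ^ 2)) := by gcongr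
      _ ≤ (2 * (s - 1) ^ 2 + 2 * (σ - 1) ^ 2) * (Q * exp (-(μ ^ 2 / 2) * (σ - 1) ^ 2)) := by
          gcongr
      _ = Q * ((2 * (s - 1) ^ 2 + 2 * (σ - 1) ^ 2) * exp (-(μ ^ 2 / 4 * (σ - 1) ^ 2)))
            * exp (-(μ ^ 2 / 4) * (σ - 1) ^ 2) := by rw [h2]; ring
      _ ≤ Q * (2 * (s - 1) ^ 2 + 8 / μ ^ 2) * exp (-(μ ^ 2 / 4) * (σ - 1) ^ 2) := by gcongr
  have h1 : JJ G s ≤ ∫ σ in (0 : ℝ)..s, B * exp (-(μ ^ 2 / 4) * (σ - 1) ^ 2) := by
    unfold JJ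
    exact intervalIntegral.integral_mono_on hs (Continuous.intervalIntegrable (by fun_prop) _ _)
      (Continuous.intervalIntegrable (by fun_prop) _ _) hpt
  have hint : Integrable fun y : ℝ => exp (-(μ ^ 2 / 4) * y ^ 2) :=
    integrable_exp_neg_mul_sq (by positivity)
  have hint' : Integrable fun σ : ℝ => exp (-(μ ^ 2 / 4) * (σ - 1) ^ 2) :=
    hint.comp_sub_right 1
  have h2 : ∫ σ in (0 : ℝ)..s, B * exp (-(μ ^ 2 / 4) * (σ - 1) ^ 2) ≤
      ∫ σ, B * exp (-(μ ^ 2 / 4) * (σ - 1) ^ 2) := by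
    rw [intervalIntegral.integral_of_le hs]
    exact setIntegral_le_integral (hint'.const_mul B)
      (Filter.Eventually.of_forall fun σ => by positivity)
  have h3 : ∫ σ, B * exp (-(μ ^ 2 / 4) * (σ - 1) ^ 2) = B * (2 * √π / μ) := by
    rw [integral_const_mul, integral_sub_right_eq_self (fun y => exp (-(μ ^ 2 / 4) * y ^ 2)) 1,
      integral_gaussian]
    congr 1
    rw [show π / (μ ^ 2 / 4) = (2 / μ) ^ 2 * π by field_simp; norm_num, Real.sqrt_mul (by positivity),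
      Real.sqrt_sq (by positivity)]
    ring
  linarith

end Pool.Agent.V1181
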