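import Mathlib
import Pool.Agent.V1181.RadBig
import Pool.Agent.V1181.RadProf
import Pool.Agent.V1181.RadChain

/-!
# Radial solutions of `Δ ^ m w = exp w` in dimension `2 m`: the one-parameter family
-/

set_option autoImplicit false

namespace Pool.Agent.V1181

open Real Set Filter MeasureTheory Topology InnerProductSpace Laplacian Polynomial

/-- The radial polynomial profile. -/
noncomputable def prof (n : ℕ) (β c : ℝ) (s : ℝ) : ℝ := β - c * ((s - 1) ^ 2 * (1 + s) ^ n)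

theorem prof_contDiff (n : ℕ) (β c : ℝ) : ContDiff ℝ (⊤ : ℕ∞) (prof n β c) := by
  unfold prof
  fun_prop

theorem prof_poly (n : ℕ) (β c : ℝ) :
    ∃ a : ℕ → ℝ, Phi (n + 2) (n + 2 + 1) a (fun _ => 0) = prof n β c := by
  obtain ⟨a, ha⟩ := Phi_poly (n + 2) (n + 2)
    (C β - C c * ((X - C 1) ^ 2 * (C 1 + X) ^ n)) (by
      refine (natDegree_sub_le _ _).trans (max_le (by simp) ?_)
      refine (natDegree_C_mul_le _ _).trans ?_
      refine natDegree_mul_le.trans ?_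
      have h1 : ((X - C (1 : ℝ)) ^ 2).natDegree ≤ 2 := by
        refine natDegree_pow_le.trans ?_
        have := natDegree_X_sub_C_le (1 : ℝ)
        omega
      have h2 : ((C (1 : ℝ) + X) ^ n).natDegree ≤ n := by
        refine natDegree_pow_le.trans ?_
        have : (C (1 : ℝ) + X).natDegree ≤ 1 := by
          refine (natDegree_add_le _ _).trans ?_
          simp
        calc n * (C (1 : ℝ) + X).natDegree ≤ n * 1 := Nat.mul_le_mul_left n this
          _ = n := mul_one n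
      omega)
  refine ⟨a, ha.trans ?_⟩
  funext s
  simp [prof]

/-- The basic solution: it is a genuine solution, bounded above by a Gaussian type profile and
below by a profile of arbitrarily large volume. -/
theorem exists_base (n : ℕ) : ∃ c₀ > 0, ∀ μ : ℝ, 1 ≤ μ →
    ∃ (a : ℕ → ℝ) (F G : ℝ → ℝ), ContDiff ℝ (⊤ : ℕ∞) F ∧ ContDiff ℝ (⊤ : ℕ∞) G ∧
      F = Phi (n + 2) (n + 2 + 1) a G ∧ (∀ s, 0 ≤ s → G s = exp (F s)) ∧
      (Phi (n + 2) (n + 2 + 1) a (fun _ => 0) = prof n (log (c₀ * μ ^ 3)) (μ ^ 2)) ∧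
      (∀ s, 0 ≤ s → F s ≤ prof n (log (c₀ * μ ^ 3) + 1) (μ ^ 2 / 2) s) := by
  set c₀ : ℝ := 1 / (8 * exp 2 * √π * (4 * 2 ^ n)) with hc₀
  have hπ : 0 < √π := Real.sqrt_pos.2 Real.pi_pos
  have hc₀pos : 0 < c₀ := by positivity
  refine ⟨c₀, hc₀pos, fun μ hμ => ?_⟩
  have hμ0 : 0 < μ := by linarith
  set β := log (c₀ * μ ^ 3) with hβ
  obtain ⟨a, ha⟩ := prof_poly n β (μ ^ 2)
  set b := prof n (β + 1) (μ ^ 2 / 2) with hb
  have hbs : ContDiff ℝ (⊤ : ℕ∞) b := prof_contDiff _ _ _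
  obtain ⟨F, hF, hFe⟩ := exists_cut (k := n + 2) (m := n + 2) a hbs 1 1
  set G : ℝ → ℝ := fun s => 1 * exp (1 * b s) * eta (1 * (F s - b s)) with hG
  have hGs : ContDiff ℝ (⊤ : ℕ∞) G :=
    (contDiff_const.mul (Real.contDiff_exp.comp (contDiff_const.mul hbs))).mul
      (eta_contDiff.comp (contDiff_const.mul (hF.sub hbs)))
  have hG0 : ∀ t, 0 ≤ t → 0 ≤ G t := fun t _ =>
    mul_nonneg (mul_nonneg zero_le_one (exp_pos _).le) (eta_nonneg _)
  have hsplit : ∀ s, F s = prof n β (μ ^ 2) s + Phi (n + 2) (n + 2 + 1) (fun _ => 0) G s := by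
    intro s
    have h1 := Phi_sub (k := n + 2) (n + 2 + 1) a a (G := G) (H := fun _ => 0) hGs.continuous
      continuous_const s
    rw [ha] at h1
    have h2 : (fun i => a i - a i) = fun _ => (0 : ℝ) := by funext i; ring
    have h3 : (fun t => G t - 0) = G := by funext t; ring
    rw [h2, h3] at h1
    have h4 : F s = Phi (n + 2) (n + 2 + 1) a G s := congrFun hFe s
    linarith
  have hGb : ∀ t, 0 ≤ t → G t ≤ exp (β + 2) * exp (-(μ ^ 2 / 2) * (t - 1) ^ 2) := by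
    intro t ht
    simp only [hG, one_mul]
    calc exp (b t) * eta (F t - b t) ≤ exp (b t) * exp 1 := by
          gcongr
          exact eta_le _
      _ = exp (b t + 1) := by rw [exp_add]
      _ ≤ exp (β + 2 + -(μ ^ 2 / 2) * (t - 1) ^ 2) := by
          apply Real.exp_le_exp.2
          simp only [hb, prof]
          have h1 : (1 : ℝ) ≤ (1 + t) ^ n := one_le_pow₀ (by linarith)
          have h2 : 0 ≤ μ ^ 2 / 2 * (t - 1) ^ 2 := by positivity
          nlinarith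
      _ = _ := by rw [exp_add]
  have hbnd : ∀ s, 0 ≤ s → Phi (n + 2) (n + 2 + 1) (fun _ => 0) G s ≤
      1 + μ ^ 2 / 2 * ((s - 1) ^ 2 * (1 + s) ^ n) := by
    intro s hs
    have h1 := Phi_le_JJ (k := n + 2) (by omega) hGs hG0 n hs
    have h2 := JJ_gauss hGs.continuous hμ0 (exp_pos (β + 2)).le hGb hs
    have h3 : exp (β + 2) = c₀ * μ ^ 3 * exp 2 := by
      rw [exp_add, hβ, exp_log (by positivity)]
    have h4 : exp (β + 2) * (2 * (s - 1) ^ 2 + 8 / μ ^ 2) * (2 * √π / μ)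
        = (1 / (8 * 2 ^ n)) * ((s - 1) ^ 2 * μ ^ 2 + 4) := by
      rw [h3, hc₀]
      field_simp
      ring
    rw [h4] at h2
    have h5 : JJ G s / 2 ≤ 1 / (4 * 2 ^ n) * ((s - 1) ^ 2 * μ ^ 2 + 1) := by
      have h6 : (1 : ℝ) / (8 * 2 ^ n) = 1 / (4 * 2 ^ n) / 2 := by
        field_simp
        norm_num
      rw [h6] at h2
      have h7 : 0 < 1 / (4 * (2 : ℝ) ^ n) := by positivity
      have h8 : 0 ≤ (s - 1) ^ 2 * μ ^ 2 := by positivity
      nlinarith
    have hpow : 0 ≤ s ^ n := pow_nonneg hs n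
    refine h1.trans ((mul_le_mul_of_nonneg_left h5 hpow).trans ?_)
    have hq : 0 < (2 : ℝ) ^ n := by positivity
    have hq1 : (1 : ℝ) ≤ 2 ^ n := one_le_pow₀ (by norm_num)
    have hs1 : s ^ n ≤ (1 + s) ^ n := pow_le_pow_left₀ hs (by linarith) n
    have hp1 : 1 / (4 * (2 : ℝ) ^ n) ≤ 1 / 4 := by
      rw [div_le_div_iff₀ (by positivity) (by norm_num)]
      linarith
    have e1 : s ^ n * (1 / (4 * 2 ^ n) * ((s - 1) ^ 2 * μ ^ 2)) ≤
        μ ^ 2 / 4 * ((s - 1) ^ 2 * (1 + s) ^ n) := by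
      have h8 : 0 ≤ (s - 1) ^ 2 * μ ^ 2 := by positivity
      calc s ^ n * (1 / (4 * 2 ^ n) * ((s - 1) ^ 2 * μ ^ 2)) ≤
            (1 + s) ^ n * (1 / 4 * ((s - 1) ^ 2 * μ ^ 2)) := by gcongr
        _ = _ := by ring
    have e2 : s ^ n * (1 / (4 * 2 ^ n)) ≤ 1 + μ ^ 2 / 4 * ((s - 1) ^ 2 * (1 + s) ^ n) := by
      have h9 : 0 ≤ μ ^ 2 / 4 * ((s - 1) ^ 2 * (1 + s) ^ n) := by positivity
      rcases le_total s 2 with h | h
      · have h10 : s ^ n ≤ 2 ^ n := pow_le_pow_left₀ hs h n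
        have h11 : s ^ n * (1 / (4 * 2 ^ n)) ≤ 2 ^ n * (1 / (4 * 2 ^ n)) := by gcongr
        have h12 : (2 : ℝ) ^ n * (1 / (4 * 2 ^ n)) = 1 / 4 := by field_simp
        linarith
      · have h10 : 1 ≤ (s - 1) ^ 2 := by nlinarith
        have h11 : (1 : ℝ) ≤ μ ^ 2 := by nlinarith
        have h12 : 0 ≤ (1 + s) ^ n := by positivity
        calc s ^ n * (1 / (4 * 2 ^ n)) ≤ (1 + s) ^ n * (1 / 4) := by gcongr
          _ ≤ μ ^ 2 / 4 * ((s - 1) ^ 2 * (1 + s) ^ n) := by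
              have : 1 ≤ μ ^ 2 * (s - 1) ^ 2 := by nlinarith
              nlinarith
          _ ≤ _ := by linarith
    nlinarith
  have hle : ∀ s, 0 ≤ s → F s ≤ b s := by
    intro s hs
    rw [hsplit s]
    have := hbnd s hs
    simp only [hb, prof]
    nlinarith
  refine ⟨a, F, G, hF, hGs, hFe, ?_, ha, hle⟩
  intro s hs
  simp only [hG, one_mul]
  rw [eta_eq (by linarith [hle s hs]), ← exp_add]
  congr 1
  ring

end Pool.Agent.V1181
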