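import Mathlib
import Pool.Agent.V1181.RadBig2

/-!
# Radial solutions of `Δ ^ m w = exp w` in dimension `2 m`: all volumes
-/

set_option autoImplicit false

namespace Pool.Agent.V1181

open Real Set Filter MeasureTheory Topology InnerProductSpace Laplacian

/-- An absorption argument on a compact interval. -/
theorem absorb {u : ℝ → ℝ} {S κ δ : ℝ} (hu : Continuous u) (hS : 0 ≤ S) (hκ : 0 ≤ κ) (hδ : 0 ≤ δ)
    (h : ∀ c Λ : ℝ, 0 ≤ c → 1 ≤ Λ → (∀ t ∈ Icc 0 S, u t ≤ c * exp (Λ * t)) →
      ∀ s ∈ Icc 0 S, u s ≤ δ + κ * c / (4 * Λ) * exp (Λ * s)) :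
    ∀ s ∈ Icc 0 S, u s ≤ 4 / 3 * δ * exp ((κ + 1) * s) := by
  set Λ := κ + 1 with hΛ
  have hΛ1 : 1 ≤ Λ := by linarith
  obtain ⟨t₀, ht₀, hmax⟩ := isCompact_Icc.exists_isMaxOn (nonempty_Icc.2 hS)
    (f := fun t => u t * exp (-(Λ * t))) (by fun_prop)
  set c := max (u t₀ * exp (-(Λ * t₀))) 0 with hc
  have hc0 : 0 ≤ c := le_max_right _ _
  have hE : ∀ t, exp (-(Λ * t)) * exp (Λ * t) = 1 := fun t => by rw [← exp_add]; simp
  have h1 : ∀ t ∈ Icc 0 S, u t ≤ c * exp (Λ * t) := by
    intro t ht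
    have h2 : u t * exp (-(Λ * t)) ≤ c := (hmax ht).trans (le_max_left _ _)
    calc u t = u t * exp (-(Λ * t)) * exp (Λ * t) := by rw [mul_assoc, hE, mul_one]
      _ ≤ c * exp (Λ * t) := by gcongr
  have h2 := h c Λ hc0 hΛ1 h1
  have hc1 : c ≤ 4 / 3 * δ := by
    rcases le_total (u t₀ * exp (-(Λ * t₀))) 0 with h0 | h0
    · have : c = 0 := by rw [hc, max_eq_right h0]
      rw [this]; positivity
    · have h3 : c = u t₀ * exp (-(Λ * t₀)) := by rw [hc, max_eq_left h0]
      have h4 := h2 t₀ ht₀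
      have h5 : κ * c / (4 * Λ) ≤ c / 4 := by
        rw [div_le_div_iff₀ (by positivity) (by norm_num)]
        nlinarith
      have h6 : exp (-(Λ * t₀)) ≤ 1 := by
        apply Real.exp_le_one_iff.2
        have : 0 ≤ Λ * t₀ := mul_nonneg (by linarith) ht₀.1
        linarith
      have h7 : u t₀ ≤ δ + c / 4 * exp (Λ * t₀) := by
        refine h4.trans ?_
        gcongr
      have h8 := exp_pos (-(Λ * t₀))
      have h9 : c ≤ δ + c / 4 := by
        calc c = u t₀ * exp (-(Λ * t₀)) := h3
          _ ≤ (δ + c / 4 * exp (Λ * t₀)) * exp (-(Λ * t₀)) := by gcongr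
          _ = δ * exp (-(Λ * t₀)) + c / 4 * (exp (-(Λ * t₀)) * exp (Λ * t₀)) := by ring
          _ ≤ δ * 1 + c / 4 * 1 := by rw [hE]; gcongr
          _ = _ := by ring
      linarith
  intro s hs
  refine (h1 s hs).trans ?_
  gcongr

variable {k d : ℕ} {a : ℕ → ℝ} {F G : ℝ → ℝ}

/-- Data shifted at the origin. -/
noncomputable def shiftData (a : ℕ → ℝ) (t : ℝ) : ℕ → ℝ := fun i => match i with
  | 0 => a 0 - t
  | (i + 1) => a (i + 1)

theorem shiftData_sub (a : ℕ → ℝ) (t : ℝ) (G : ℝ → ℝ) (s : ℝ) :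
    Phi k (d + 1) (shiftData a t) G s = Phi k (d + 1) a G s - t := by
  rw [Phi_data d (shiftData a t) a (fun i => rfl) G s]
  simp only [shiftData]
  ring

/-- The cut-off right-hand side. -/
noncomputable def cutG (F f : ℝ → ℝ) (s : ℝ) : ℝ := 1 * exp (1 * F s) * eta (1 * (f s - F s))

theorem cutG_smooth {f : ℝ → ℝ} (hF : ContDiff ℝ (⊤ : ℕ∞) F) (hf : ContDiff ℝ (⊤ : ℕ∞) f) :
    ContDiff ℝ (⊤ : ℕ∞) (cutG F f) :=
  (contDiff_const.mul (Real.contDiff_exp.comp (contDiff_const.mul hF))).mul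
      (eta_contDiff.comp (contDiff_const.mul (hf.sub hF)))

theorem cutG_nonneg (F f : ℝ → ℝ) (s : ℝ) : 0 ≤ cutG F f s :=
  mul_nonneg (mul_nonneg zero_le_one (exp_pos _).le) (eta_nonneg _)

theorem zero_diff (a : ℕ → ℝ) : (fun i => a i - a i) = fun _ => (0 : ℝ) := by funext i; ring

/-- The shifted solutions stay below the shifted basic solution. -/
theorem family_upper (hF : ContDiff ℝ (⊤ : ℕ∞) F) (hG : ContDiff ℝ (⊤ : ℕ∞) G)
    (hFe : F = Phi k (d + 1) a G) (hGF : ∀ s, 0 ≤ s → G s = exp (F s)) {t : ℝ} (ht : 0 ≤ t)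
    {f : ℝ → ℝ} (hf : ContDiff ℝ (⊤ : ℕ∞) f)
    (hfe : f = Phi k (d + 1) (shiftData a t) (cutG F f)) {s : ℝ} (hs : 0 ≤ s) :
    f s ≤ F s - t := by
  obtain ⟨M, hM0, hM⟩ := eta_lipschitz
  have hFc := hF.continuous
  have hfc := hf.continuous
  have hHs := cutG_smooth hF hf
  obtain ⟨B, hB⟩ := (isCompact_Icc (a := (0 : ℝ)) (b := s)).exists_bound_of_continuousOn
    (f := fun s => exp (F s)) (by fun_prop)
  have hB0 : 0 ≤ B := (norm_nonneg _).trans (hB 0 ⟨le_rfl, hs⟩)
  have heta1 : ∀ x, eta x ≤ 1 + M * max x 0 := by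
    intro x
    rcases le_total x 0 with h | h
    · rw [eta_eq h, max_eq_right h]
      have := Real.exp_le_one_iff.2 h
      linarith
    · have h1 := hM x 0
      rw [eta_eq (le_refl 0), exp_zero, sub_zero] at h1
      have h2 := (abs_le.1 h1).2
      rw [abs_of_nonneg h] at h2
      rw [max_eq_left h]
      linarith
  have hu : ∀ r, f r - F r + t = Phi k (d + 1) (fun _ => 0) (fun q => cutG F f q - G q) r := by
    intro r
    have h1 : f r = Phi k (d + 1) a (cutG F f) r - t := by
      conv_lhs => rw [hfe]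
      exact shiftData_sub a t _ r
    have h2 : F r = Phi k (d + 1) a G r := congrFun hFe r
    have h3 := Phi_sub (k := k) (d + 1) a a hHs.continuous hG.continuous r
    rw [zero_diff] at h3
    linarith
  have key := absorb (u := fun r => f r - F r + t) (S := s) (κ := B * M) (δ := 0)
    (by fun_prop) hs (by positivity) le_rfl (fun c Λ hc hΛ h r hr => by
      simp only [zero_add]
      rw [hu r]
      have h1 : Phi k (d + 1) (fun _ => 0) (fun q => cutG F f q - G q) r ≤
          Phi k (d + 1) (fun _ => 0) (fun q => B * M * c * exp (Λ * q)) r := by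
        refine Phi_le (d + 1) _ (hHs.continuous.sub hG.continuous) (by fun_prop) hr.1
          fun q hq hqr => ?_
        have hqS : q ∈ Icc 0 s := ⟨hq, hqr.trans hr.2⟩
        show cutG F f q - G q ≤ B * M * c * exp (Λ * q)
        rw [hGF q hq]
        simp only [cutG, one_mul]
        have h2 := h q hqS
        have h3 := heta1 (f q - F q)
        have h4 : max (f q - F q) 0 ≤ c * exp (Λ * q) := by
          refine max_le ?_ (by positivity)
          linarith
        have h5 : exp (F q) ≤ B := by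
          have := hB q hqS
          rwa [Real.norm_of_nonneg (exp_pos _).le] at this
        calc exp (F q) * eta (f q - F q) - exp (F q)
            ≤ exp (F q) * (1 + M * max (f q - F q) 0) - exp (F q) := by gcongr
          _ = exp (F q) * (M * max (f q - F q) 0) := by ring
          _ ≤ B * (M * (c * exp (Λ * q))) := by gcongr
          _ = _ := by ring
      refine h1.trans ((le_abs_self _).trans ?_)
      refine Phi_exp_bound d hr.1 (by positivity) hΛ (by fun_prop) fun q hq _ => ?_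
      rw [abs_of_nonneg (by positivity)])
  have h1 := key s ⟨hs, le_rfl⟩
  simp only [mul_zero, zero_mul] at h1
  linarith

/-- Lipschitz dependence on the shift, locally uniformly. -/
theorem family_lip (hF : ContDiff ℝ (⊤ : ℕ∞) F) {S : ℝ} (hS : 0 ≤ S) :
    ∃ C : ℝ, 0 ≤ C ∧ ∀ (t t' : ℝ) (f f' : ℝ → ℝ), ContDiff ℝ (⊤ : ℕ∞) f → ContDiff ℝ (⊤ : ℕ∞) f' →
      f = Phi k (d + 1) (shiftData a t) (cutG F f) →
      f' = Phi k (d + 1) (shiftData a t') (cutG F f') → |f S - f' S| ≤ C * |t - t'| := by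
  obtain ⟨M, hM0, hM⟩ := eta_lipschitz
  have hFc := hF.continuous
  obtain ⟨B, hB⟩ := (isCompact_Icc (a := (0 : ℝ)) (b := S)).exists_bound_of_continuousOn
    (f := fun s => exp (F s)) (by fun_prop)
  have hB0 : 0 ≤ B := (norm_nonneg _).trans (hB 0 ⟨le_rfl, hS⟩)
  refine ⟨4 / 3 * exp ((B * M + 1) * S), by positivity, fun t t' f f' hf hf' hfe hfe' => ?_⟩
  have hfc := hf.continuous
  have hfc' := hf'.continuous
  have hHs := cutG_smooth hF hf
  have hHs' := cutG_smooth hF hf'
  have hu : ∀ r, f r - f' r = (t' - t) +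
      Phi k (d + 1) (fun _ => 0) (fun q => cutG F f q - cutG F f' q) r := by
    intro r
    have h1 : f r = Phi k (d + 1) a (cutG F f) r - t := by
      conv_lhs => rw [hfe]
      exact shiftData_sub a t _ r
    have h2 : f' r = Phi k (d + 1) a (cutG F f') r - t' := by
      conv_lhs => rw [hfe']
      exact shiftData_sub a t' _ r
    have h3 := Phi_sub (k := k) (d + 1) a a hHs.continuous hHs'.continuous r
    rw [zero_diff] at h3
    linarith
  have key := absorb (u := fun r => |f r - f' r|) (S := S) (κ := B * M) (δ := |t - t'|)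
    (by fun_prop) hS (by positivity) (abs_nonneg _) (fun c Λ hc hΛ h r hr => by
      rw [hu r]
      refine (abs_add_le _ _).trans ?_
      rw [abs_sub_comm t' t]
      gcongr
      refine Phi_exp_bound d hr.1 (by positivity) hΛ (hHs.continuous.sub hHs'.continuous)
        fun q hq hqr => ?_
      have hqS : q ∈ Icc 0 S := ⟨hq, hqr.trans hr.2⟩
      have h2 := h q hqS
      have h3 := hM (f q - F q) (f' q - F q)
      have e3 : f q - F q - (f' q - F q) = f q - f' q := by ring
      rw [e3] at h3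
      have h5 : exp (F q) ≤ B := by
        have := hB q hqS
        rwa [Real.norm_of_nonneg (exp_pos _).le] at this
      simp only [cutG, one_mul]
      rw [← mul_sub, abs_mul, abs_of_pos (exp_pos _)]
      calc exp (F q) * |eta (f q - F q) - eta (f' q - F q)|
          ≤ B * (M * (c * exp (Λ * q))) := by
            gcongr
            exact h3.trans (by gcongr)
        _ = _ := by ring)
  refine (key S ⟨hS, le_rfl⟩).trans (le_of_eq ?_)
  ring

end Pool.Agent.V1181
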