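import Mathlib

/-!
# The boundary tracking problem for the heat equation on an interval
-/

set_option autoImplicit false

namespace Pool.Agent.V1181.HeatCost

open Set Filter Topology
open scoped ENNReal

noncomputable section

/-- `y` (as a function of `t` and `x`) is the solution of `y_t = y_xx` in `(0,T) × (0,L)` with
`y = 0` for `t = 0`, `y = 0` for `x = 0` and `y = v t` for `x = L`.  It is bounded, and continuous
on `[0,T] × [0,L]` except possibly at the corner `(0, L)`, where the data may be incompatible. -/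
structure IsSol (L T : ℝ) (v : ℝ → ℝ) (y : ℝ → ℝ → ℝ) : Prop where
  bounded : ∃ M : ℝ, ∀ t ∈ Icc 0 T, ∀ x ∈ Icc 0 L, |y t x| ≤ M
  cont : ContinuousOn (fun p : ℝ × ℝ => y p.1 p.2) ((Icc 0 T ×ˢ Icc 0 L) \ {(0, L)})
  pde : ∀ t ∈ Ioo 0 T, ∀ x ∈ Ioo 0 L, ∃ a : ℝ, HasDerivAt (fun s => y s x) a t ∧
    (∀ᶠ z in 𝓝 x, DifferentiableAt ℝ (y t) z) ∧ HasDerivAt (deriv (y t)) a x
  init : ∀ x ∈ Ico 0 L, y 0 x = 0
  left : ∀ t ∈ Icc 0 T, y t 0 = 0
  right : ∀ t ∈ Ioc 0 T, y t L = v t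

/-- The control `v` achieves `ε`-approximate tracking of `w`: the flux `φ t = ∂ₓ y (t, 0)` exists, is
continuous on `[0,T]` and is within `ε` of `w`. -/
def Achieves (L T : ℝ) (w : ℝ → ℝ) (ε : ℝ) (v : ℝ → ℝ) : Prop :=
  ∃ (y : ℝ → ℝ → ℝ) (φ : ℝ → ℝ), IsSol L T v y ∧
    (∀ t ∈ Icc 0 T, HasDerivWithinAt (y t) (φ t) (Ici 0) 0) ∧
    ContinuousOn φ (Icc 0 T) ∧ ∀ t ∈ Icc 0 T, |φ t - w t| ≤ ε

/-- The norm of `v` in `C⁰([0,T])`. -/
def supNorm (T : ℝ) (v : ℝ → ℝ) : ℝ≥0∞ := ⨆ t ∈ Icc 0 T, ENNReal.ofReal |v t|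

/-- The cost `K_w(ε)` of `ε`-approximate tracking of `w`. -/
def cost (L T : ℝ) (w : ℝ → ℝ) (ε : ℝ) : ℝ≥0∞ :=
  ⨅ (v : ℝ → ℝ) (_ : ContinuousOn v (Icc 0 T)) (_ : Achieves L T w ε v), supNorm T v

/-! ### The comparison principle -/

/-- Second derivative test. -/
theorem second_nonneg {f : ℝ → ℝ} {a x : ℝ} (hf : ∀ᶠ z in 𝓝 x, DifferentiableAt ℝ f z)
    (h2 : HasDerivAt (deriv f) a x) (hmin : IsLocalMin f x) : 0 ≤ a := by
  by_contra hneg
  push Not at hneg
  have h1 : deriv f x = 0 := hmin.deriv_eq_zero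
  have h3 : IsLocalMax f x := by
    apply isLocalMax_of_deriv_deriv_neg
    · rw [h2.deriv]; exact hneg
    · exact h1
    · exact hf.self_of_nhds.continuousAt
  have h4 : f =ᶠ[𝓝 x] fun _ => f x := by
    filter_upwards [hmin, h3] with z hz1 hz2
    exact le_antisymm hz2 hz1
  have h5 : deriv f =ᶠ[𝓝 x] fun _ => 0 := by
    have := h4.deriv
    filter_upwards [this] with z hz
    rw [hz]; simp
  have h6 : HasDerivAt (deriv f) 0 x := (hasDerivAt_const x (0 : ℝ)).congr_of_eventuallyEq h5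
  have := h2.unique h6
  linarith

/-- First derivative test from the left. -/
theorem left_nonpos {f : ℝ → ℝ} {a t : ℝ} (h : HasDerivAt f a t)
    (hmin : ∀ᶠ s in 𝓝[<] t, f t ≤ f s) : a ≤ 0 := by
  have h1 : Tendsto (slope f t) (𝓝[<] t) (𝓝 a) :=
    (hasDerivAt_iff_tendsto_slope.mp h).mono_left (nhdsWithin_mono _ (fun s hs => ne_of_lt hs))
  refine le_of_tendsto h1 ?_
  filter_upwards [hmin, self_mem_nhdsWithin] with s hs1 hs2
  rw [slope_def_field]
  exact div_nonpos_of_nonneg_of_nonpos (by linarith) (by have : s < t := hs2; linarith)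

/-- The barrier: a heat kernel concentrated near the corner `(0, L)`. -/
def bar (L δ t x : ℝ) : ℝ :=
  2 * δ * Real.exp (1 / 4) * Real.exp (-(Real.log (t + δ ^ 2) / 2) - (L - x) ^ 2 / (4 * (t + δ ^ 2)))

theorem bar_pos {L δ t x : ℝ} (hδ : 0 < δ) : 0 < bar L δ t x := by
  unfold bar; positivity

theorem bar_deriv_t {L δ t x : ℝ} (ht : 0 < t + δ ^ 2) :
    HasDerivAt (fun s => bar L δ s x)
      (bar L δ t x * ((L - x) ^ 2 / (4 * (t + δ ^ 2) ^ 2) - 1 / (2 * (t + δ ^ 2)))) t := by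
  have h1 : HasDerivAt (fun s : ℝ => s + δ ^ 2) 1 t := (hasDerivAt_id t).add_const _
  have h2 := (h1.log ht.ne').div_const 2
  have h3 : HasDerivAt (fun s : ℝ => (L - x) ^ 2 / (4 * (s + δ ^ 2)))
      (-(L - x) ^ 2 * (4 * 1) / (4 * (t + δ ^ 2)) ^ 2) t := by
    have h4 := (h1.const_mul 4).inv (by positivity)
    have h5 := h4.const_mul ((L - x) ^ 2)
    have h6 := h5.congr_of_eventuallyEq (f₁ := fun s : ℝ => (L - x) ^ 2 / (4 * (s + δ ^ 2)))
      (Eventually.of_forall fun s => by simp [div_eq_mul_inv])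
    refine h6.congr_deriv ?_
    ring
  have h7 := ((h2.neg.sub h3).exp).const_mul (2 * δ * Real.exp (1 / 4))
  refine h7.congr_deriv ?_
  unfold bar
  simp only [Pi.neg_apply, Pi.sub_apply]
  field_simp
  ring

theorem bar_deriv_x {L δ t x : ℝ} :
    HasDerivAt (fun z => bar L δ t z) (bar L δ t x * ((L - x) / (2 * (t + δ ^ 2)))) x := by
  have h1 : HasDerivAt (fun z : ℝ => L - z) (-1) x := by
    simpa using (hasDerivAt_id x).const_sub L
  have h2 := ((h1.pow 2).div_const (4 * (t + δ ^ 2))).const_sub (-(Real.log (t + δ ^ 2) / 2))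
  have h3 := h2.exp.const_mul (2 * δ * Real.exp (1 / 4))
  refine h3.congr_deriv ?_
  unfold bar
  simp only [Pi.pow_apply]
  generalize t + δ ^ 2 = s
  norm_num
  ring

theorem bar_deriv_xx {L δ t x : ℝ} (ht : 0 < t + δ ^ 2) :
    HasDerivAt (fun z => bar L δ t z * ((L - z) / (2 * (t + δ ^ 2))))
      (bar L δ t x * ((L - x) ^ 2 / (4 * (t + δ ^ 2) ^ 2) - 1 / (2 * (t + δ ^ 2)))) x := by
  have h1 : HasDerivAt (fun z : ℝ => L - z) (-1) x := by
    simpa using (hasDerivAt_id x).const_sub L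
  have h2 := (bar_deriv_x (L := L) (δ := δ) (t := t) (x := x)).mul
    (h1.div_const (2 * (t + δ ^ 2)))
  refine h2.congr_deriv ?_
  field_simp
  ring

/-- The comparison principle for bounded functions which are continuous except at a corner. -/
theorem comparison {L T : ℝ} (hL : 0 < L) {D : ℝ → ℝ → ℝ} {B : ℝ}
    (hB : ∀ t ∈ Icc 0 T, ∀ x ∈ Icc 0 L, -B ≤ D t x)
    (hc : ContinuousOn (fun p : ℝ × ℝ => D p.1 p.2) ((Icc 0 T ×ˢ Icc 0 L) \ {(0, L)}))
    (hpde : ∀ t ∈ Ioo 0 T, ∀ x ∈ Ioo 0 L, ∃ a : ℝ, HasDerivAt (fun s => D s x) a t ∧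
      (∀ᶠ z in 𝓝 x, DifferentiableAt ℝ (D t) z) ∧ HasDerivAt (deriv (D t)) a x)
    (h0 : ∀ x ∈ Ico 0 L, 0 ≤ D 0 x) (hl : ∀ t ∈ Icc 0 T, 0 ≤ D t 0)
    (hr : ∀ t ∈ Ioc 0 T, 0 ≤ D t L) {t₀ x₀ : ℝ} (ht₀ : t₀ ∈ Ioo 0 T) (hx₀ : x₀ ∈ Ioo 0 L) :
    0 ≤ D t₀ x₀ := by
  have hB0 : 0 ≤ max B 0 := le_max_right _ _
  -- the perturbed inequality
  have key : ∀ δ : ℝ, 0 < δ → δ ^ 2 < t₀ → δ < L → ∀ η : ℝ, 0 < η →
      0 ≤ D t₀ x₀ + max B 0 * bar L δ t₀ x₀ + η * t₀ := by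
    intro δ hδ hδt hδL η hη
    set E : ℝ → ℝ → ℝ := fun t x => D t x + max B 0 * bar L δ t x + η * t with hE
    set S : Set (ℝ × ℝ) := (Icc 0 t₀ ×ˢ Icc 0 L) \ (Iio (δ ^ 2) ×ˢ Ioi (L - δ)) with hS
    have hδ2 : 0 < δ ^ 2 := by positivity
    have hScomp : IsCompact S :=
      (isCompact_Icc.prod isCompact_Icc).diff (isOpen_Iio.prod isOpen_Ioi)
    have hSsub : S ⊆ (Icc 0 T ×ˢ Icc 0 L) \ {(0, L)} := by
      rintro ⟨t, x⟩ ⟨⟨h1, h2⟩, h3⟩
      refine ⟨⟨⟨h1.1, h1.2.trans ht₀.2.le⟩, h2⟩, ?_⟩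
      rintro h4
      apply h3
      have h5 : t = 0 ∧ x = L := by simpa using h4
      refine ⟨?_, ?_⟩
      · show t < δ ^ 2
        rw [h5.1]; exact hδ2
      · show L - δ < x
        rw [h5.2]; linarith
    have hbarc : ContinuousOn (fun p : ℝ × ℝ => bar L δ p.1 p.2) (Icc 0 T ×ˢ Icc 0 L) := by
      unfold bar
      have hpos : ∀ p ∈ (Icc 0 T ×ˢ Icc 0 L : Set (ℝ × ℝ)), p.1 + δ ^ 2 ≠ 0 := by
        rintro ⟨t, x⟩ ⟨h1, _⟩
        have := h1.1
        have : 0 < t + δ ^ 2 := by simp only at this; linarith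
        exact this.ne'
      refine continuousOn_const.mul (Real.continuous_exp.comp_continuousOn ?_)
      refine ContinuousOn.sub ?_ ?_
      · exact ((ContinuousOn.log (by fun_prop) hpos).div_const 2).neg
      · refine ContinuousOn.div (by fun_prop) (by fun_prop) ?_
        intro p hp
        exact mul_ne_zero four_ne_zero (hpos p hp)
    have hEc : ContinuousOn (fun p : ℝ × ℝ => E p.1 p.2) S := by
      refine ((hc.mono hSsub).add (continuousOn_const.mul (hbarc.mono ?_))).add (by fun_prop)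
      exact fun p hp => (hSsub hp).1
    have hmem : (t₀, x₀) ∈ S := by
      refine ⟨⟨⟨ht₀.1.le, le_rfl⟩, ⟨hx₀.1.le, hx₀.2.le⟩⟩, ?_⟩
      rintro ⟨h1, _⟩
      have : t₀ < δ ^ 2 := h1
      linarith
    obtain ⟨⟨t₁, x₁⟩, hp1, hmin⟩ := hScomp.exists_isMinOn ⟨_, hmem⟩ hEc
    have hle : E t₁ x₁ ≤ E t₀ x₀ := hmin hmem
    suffices h : 0 ≤ E t₁ x₁ from h.trans hle
    by_contra hneg
    push Not at hneg
    obtain ⟨⟨⟨ht1a, ht1b⟩, ⟨hx1a, hx1b⟩⟩, hbox⟩ := hp1
    simp only at ht1a ht1b hx1a hx1b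
    have ht1T : t₁ ≤ T := ht1b.trans ht₀.2.le
    have hbp : 0 < bar L δ t₁ x₁ := bar_pos hδ
    have hbB : 0 ≤ max B 0 * bar L δ t₁ x₁ := mul_nonneg hB0 hbp.le
    have hηt : 0 ≤ η * t₁ := mul_nonneg hη.le ht1a
    have hDneg : D t₁ x₁ < 0 := by
      have : D t₁ x₁ + max B 0 * bar L δ t₁ x₁ + η * t₁ < 0 := hneg
      linarith
    -- not near the corner
    have hfar : δ ^ 2 < t₁ ∨ x₁ < L - δ := by
      by_contra hcon
      push Not at hcon
      obtain ⟨hc1, hc2⟩ := hcon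
      have h1 : 1 ≤ bar L δ t₁ x₁ := by
        unfold bar
        have hs : 0 < t₁ + δ ^ 2 := by linarith
        have h2 : Real.log (t₁ + δ ^ 2) ≤ 2 * Real.log (2 * δ) := by
          have h3 : 2 * Real.log (2 * δ) = Real.log ((2 * δ) ^ 2) := by
            rw [Real.log_pow]; norm_num
          rw [h3]
          apply Real.log_le_log hs
          nlinarith
        have h4 : (L - x₁) ^ 2 / (4 * (t₁ + δ ^ 2)) ≤ 1 / 4 := by
          rw [div_le_div_iff₀ (by positivity) (by norm_num)]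
          nlinarith
        have h5 : -Real.log (2 * δ) - 1 / 4 ≤
            -(Real.log (t₁ + δ ^ 2) / 2) - (L - x₁) ^ 2 / (4 * (t₁ + δ ^ 2)) := by linarith
        have h6 := Real.exp_le_exp.mpr h5
        have h7 : Real.exp (-Real.log (2 * δ) - 1 / 4) = (2 * δ)⁻¹ * (Real.exp (1 / 4))⁻¹ := by
          rw [sub_eq_add_neg, Real.exp_add, Real.exp_neg, Real.exp_log (by positivity),
            Real.exp_neg]
        rw [h7] at h6
        have he := Real.exp_pos (1 / 4)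
        calc (1 : ℝ) = 2 * δ * Real.exp (1 / 4) * ((2 * δ)⁻¹ * (Real.exp (1 / 4))⁻¹) := by
              field_simp
          _ ≤ _ := mul_le_mul_of_nonneg_left h6 (by positivity)
      have h8 : -max B 0 ≤ D t₁ x₁ :=
        (neg_le_neg (le_max_left B 0)).trans (hB t₁ ⟨ht1a, ht1T⟩ x₁ ⟨hx1a, hx1b⟩)
      have h9 : max B 0 * 1 ≤ max B 0 * bar L δ t₁ x₁ := mul_le_mul_of_nonneg_left h1 hB0
      have : D t₁ x₁ + max B 0 * bar L δ t₁ x₁ + η * t₁ < 0 := hneg
      linarith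
    have hx1pos : 0 < x₁ := by
      rcases hx1a.eq_or_lt with h | h
      · exfalso
        rw [← h] at hDneg
        exact absurd (hl t₁ ⟨ht1a, ht1T⟩) (not_le.mpr hDneg)
      · exact h
    have ht1pos : 0 < t₁ := by
      rcases ht1a.eq_or_lt with h | h
      · exfalso
        rcases hfar with h' | h'
        · rw [← h] at h'; linarith
        · rw [← h] at hDneg
          exact absurd (h0 x₁ ⟨hx1a, by linarith⟩) (not_le.mpr hDneg)
      · exact h
    have hx1L : x₁ < L := by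
      rcases hx1b.eq_or_lt with h | h
      · exfalso
        rw [h] at hDneg
        exact absurd (hr t₁ ⟨ht1pos, ht1T⟩) (not_le.mpr hDneg)
      · exact h
    have ht1T' : t₁ < T := ht1b.trans_lt ht₀.2
    obtain ⟨a, ha1, ha2, ha3⟩ := hpde t₁ ⟨ht1pos, ht1T'⟩ x₁ ⟨hx1pos, hx1L⟩
    have hs1 : 0 < t₁ + δ ^ 2 := by linarith
    -- time derivative
    have hEt := (ha1.add ((bar_deriv_t (L := L) (x := x₁) hs1).const_mul (max B 0))).add
      ((hasDerivAt_id t₁).const_mul η)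
    have hEt' : a + max B 0 * (bar L δ t₁ x₁ *
        ((L - x₁) ^ 2 / (4 * (t₁ + δ ^ 2) ^ 2) - 1 / (2 * (t₁ + δ ^ 2)))) + η * 1 ≤ 0 := by
      refine left_nonpos (f := fun s => E s x₁) hEt ?_
      have h1 : ∀ᶠ s in 𝓝[<] t₁, 0 < s ∧ (δ ^ 2 < s ∨ x₁ < L - δ) := by
        refine Filter.Eventually.and ?_ ?_
        · exact (lt_mem_nhds ht1pos).filter_mono nhdsWithin_le_nhds
        · rcases hfar with h | h
          · exact ((lt_mem_nhds h).filter_mono nhdsWithin_le_nhds).mono fun s hs => Or.inl hs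
          · exact Eventually.of_forall fun _ => Or.inr h
      filter_upwards [h1, self_mem_nhdsWithin] with s hs hs'
      have hs2 : s < t₁ := hs'
      have hsS : (s, x₁) ∈ S := by
        refine ⟨⟨⟨hs.1.le, hs2.le.trans ht1b⟩, ⟨hx1a, hx1b⟩⟩, ?_⟩
        rintro ⟨h2, h3⟩
        have h2' : s < δ ^ 2 := h2
        have h3' : L - δ < x₁ := h3
        rcases hs.2 with h | h <;> linarith
      exact hmin hsS
    -- space derivative
    have hEx : ∀ᶠ z in 𝓝 x₁, DifferentiableAt ℝ (E t₁) z := by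
      filter_upwards [ha2] with z hz
      exact (hz.add ((bar_deriv_x (L := L) (δ := δ) (t := t₁) (x := z)).differentiableAt.const_mul
        (max B 0))).add_const _
    have hEd : deriv (E t₁) =ᶠ[𝓝 x₁]
        fun z => deriv (D t₁) z + max B 0 * (bar L δ t₁ z * ((L - z) / (2 * (t₁ + δ ^ 2)))) := by
      filter_upwards [ha2] with z hz
      exact ((hz.hasDerivAt.add ((bar_deriv_x (L := L) (δ := δ) (t := t₁) (x := z)).const_mul
        (max B 0))).add_const (η * t₁)).deriv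
    have hExx := (ha3.add ((bar_deriv_xx (L := L) (x := x₁) hs1).const_mul
      (max B 0))).congr_of_eventuallyEq hEd
    have hlm : IsLocalMin (E t₁) x₁ := by
      have h1 : ∀ᶠ z in 𝓝 x₁, (0 < z ∧ z < L) ∧ (δ ^ 2 < t₁ ∨ z < L - δ) := by
        refine Filter.Eventually.and ((lt_mem_nhds hx1pos).and (gt_mem_nhds hx1L)) ?_
        rcases hfar with h | h
        · exact Eventually.of_forall fun _ => Or.inl h
        · exact (gt_mem_nhds h).mono fun z hz => Or.inr hz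
      filter_upwards [h1] with z hz
      have hzS : (t₁, z) ∈ S := by
        refine ⟨⟨⟨ht1a, ht1b⟩, ⟨hz.1.1.le, hz.1.2.le⟩⟩, ?_⟩
        rintro ⟨h2, h3⟩
        have h2' : t₁ < δ ^ 2 := h2
        have h3' : L - δ < z := h3
        rcases hz.2 with h | h <;> linarith
      exact hmin hzS
    have := second_nonneg hEx hExx hlm
    linarith
  -- pass to the limit
  by_contra hneg
  push Not at hneg
  set C := 2 * Real.exp (1 / 4) * Real.exp (-(Real.log t₀ / 2)) with hC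
  have hC0 : 0 < C := by positivity
  have hbound : ∀ δ : ℝ, 0 < δ → bar L δ t₀ x₀ ≤ C * δ := by
    intro δ hδ
    unfold bar
    have h1 : -(Real.log (t₀ + δ ^ 2) / 2) - (L - x₀) ^ 2 / (4 * (t₀ + δ ^ 2))
        ≤ -(Real.log t₀ / 2) := by
      have h2 : Real.log t₀ ≤ Real.log (t₀ + δ ^ 2) :=
        Real.log_le_log ht₀.1 (by nlinarith [sq_nonneg δ])
      have h3 : 0 ≤ (L - x₀) ^ 2 / (4 * (t₀ + δ ^ 2)) := by
        have := ht₀.1
        positivity
      linarith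
    have h2 := Real.exp_le_exp.mpr h1
    calc _ ≤ 2 * δ * Real.exp (1 / 4) * Real.exp (-(Real.log t₀ / 2)) :=
          mul_le_mul_of_nonneg_left h2 (by positivity)
      _ = C * δ := by rw [hC]; ring
  set d := -D t₀ x₀ with hd
  have hdpos : 0 < d := by rw [hd]; linarith
  have ht0 := ht₀.1
  obtain ⟨δ, hδ, hδ1, hδ2, hδ3⟩ : ∃ δ : ℝ, 0 < δ ∧ δ ^ 2 < t₀ ∧ δ < L ∧
      max B 0 * (C * δ) < d / 2 := by
    have h1 : Tendsto (fun δ : ℝ => δ ^ 2) (𝓝[>] 0) (𝓝 0) := by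
      have : Tendsto (fun δ : ℝ => δ ^ 2) (𝓝 0) (𝓝 (0 ^ 2)) := (continuous_pow 2).tendsto 0
      rw [zero_pow two_ne_zero] at this
      exact this.mono_left nhdsWithin_le_nhds
    have h2 : Tendsto (fun δ : ℝ => δ) (𝓝[>] 0) (𝓝 0) := nhdsWithin_le_nhds
    have h3 : Tendsto (fun δ : ℝ => max B 0 * (C * δ)) (𝓝[>] 0) (𝓝 0) := by
      have : Tendsto (fun δ : ℝ => max B 0 * (C * δ)) (𝓝 0) (𝓝 (max B 0 * (C * 0))) :=
        (continuous_const.mul (continuous_const.mul continuous_id)).tendsto 0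
      rw [mul_zero, mul_zero] at this
      exact this.mono_left nhdsWithin_le_nhds
    obtain ⟨δ, h⟩ := ((((h1.eventually (gt_mem_nhds ht0)).and
      (h2.eventually (gt_mem_nhds hL))).and
      (h3.eventually (gt_mem_nhds (half_pos hdpos)))).and self_mem_nhdsWithin).exists
    exact ⟨δ, h.2, h.1.1.1, h.1.1.2, h.1.2⟩
  have h1 := key δ hδ hδ1 hδ2 (d / (4 * t₀)) (by positivity)
  have h2 : max B 0 * bar L δ t₀ x₀ ≤ max B 0 * (C * δ) :=
    mul_le_mul_of_nonneg_left (hbound δ hδ) hB0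
  have h3 : d / (4 * t₀) * t₀ = d / 4 := by field_simp
  rw [h3] at h1
  linarith

end

end Pool.Agent.V1181.HeatCost
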