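import Mathlib

/-!
# The mollifier `exp (-(ν² t + b / t))` and its derivatives
-/

set_option autoImplicit false

namespace Pool.Agent.V1181.HeatMoll

open Set Filter Topology MeasureTheory

noncomputable section

/-- The holomorphic function `exp (-(ν² z + b / z))`. -/
def G (ν b : ℝ) (z : ℂ) : ℂ := Complex.exp (-((ν : ℂ) ^ 2 * z + (b : ℂ) / z))

/-- The `i`-th derivative of `exp (-(ν² t + b / t))`, extended by zero to `t ≤ 0`. -/
def g (ν b : ℝ) (i : ℕ) (t : ℝ) : ℝ := if 0 < t then (iteratedDeriv i (G ν b) (t : ℂ)).re else 0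

theorem G_diffOn (ν b : ℝ) : DifferentiableOn ℂ (G ν b) {z | z ≠ 0} := by
  intro z hz
  have hz' : z ≠ 0 := hz
  refine DifferentiableAt.differentiableWithinAt ?_
  unfold G
  exact ((((differentiableAt_id).const_mul _).add
    ((differentiableAt_const _).div differentiableAt_id hz')).neg).cexp

theorem G_analytic (ν b : ℝ) : AnalyticOnNhd ℂ (G ν b) {z | z ≠ 0} :=
  (G_diffOn ν b).analyticOnNhd isOpen_ne

theorem G_hasDerivAt (ν b : ℝ) (i : ℕ) {z : ℂ} (hz : z ≠ 0) :
    HasDerivAt (iteratedDeriv i (G ν b)) (iteratedDeriv (i + 1) (G ν b) z) z := by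
  have h1 := (G_analytic ν b).iterated_deriv i z hz
  rw [iteratedDeriv_succ, iteratedDeriv_eq_iterate]
  exact h1.differentiableAt.hasDerivAt

theorem g_zero {ν b t : ℝ} (ht : 0 < t) : g ν b 0 t = Real.exp (-(ν ^ 2 * t + b / t)) := by
  rw [g, if_pos ht, iteratedDeriv_zero, G]
  have : (-((ν : ℂ) ^ 2 * (t : ℂ) + (b : ℂ) / (t : ℂ))) = ((-(ν ^ 2 * t + b / t) : ℝ) : ℂ) := by
    push_cast; ring
  rw [this, Complex.exp_ofReal_re]

theorem g_nonpos {ν b t : ℝ} {i : ℕ} (ht : t ≤ 0) : g ν b i t = 0 := by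
  rw [g, if_neg (not_lt.mpr ht)]

theorem cauchy {ν b t : ℝ} (hb : 0 < b) (i : ℕ) (ht : 0 < t) :
    |g ν b i t| ≤ i.factorial * Real.exp (-(2 * b / (3 * t))) / (t / 2) ^ i := by
  have h1 : ‖iteratedDeriv i (G ν b) (t : ℂ)‖ ≤
      i.factorial * Real.exp (-(2 * b / (3 * t))) / (t / 2) ^ i := by
    have hsub : ∀ z ∈ Metric.closedBall (t : ℂ) (t / 2), z ≠ 0 := by
      rintro z hz rfl
      rw [Metric.mem_closedBall, dist_eq_norm, zero_sub, norm_neg, Complex.norm_real,
        Real.norm_of_nonneg ht.le] at hz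
      linarith
    apply Complex.norm_iteratedDeriv_le_of_forall_mem_sphere_norm_le i (by positivity)
    · refine DifferentiableOn.diffContOnCl ?_
      refine (G_diffOn ν b).mono fun z hz => ?_
      rw [closure_ball _ (by positivity)] at hz
      exact hsub z hz
    · intro z hz
      have hz0 : z ≠ 0 := hsub z (Metric.sphere_subset_closedBall hz)
      rw [mem_sphere_iff_norm] at hz
      have h2 : Complex.normSq (z - t) = (t / 2) ^ 2 := by
        rw [← hz, ← Complex.normSq_eq_norm_sq]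
      rw [Complex.normSq_apply] at h2
      simp only [Complex.sub_re, Complex.sub_im, Complex.ofReal_re, Complex.ofReal_im,
        sub_zero] at h2
      have hN : 0 < Complex.normSq z := Complex.normSq_pos.mpr hz0
      have h3 : Complex.normSq z = 2 * t * z.re - 3 / 4 * t ^ 2 := by
        rw [Complex.normSq_apply]; nlinarith
      have hre : 0 ≤ z.re := by nlinarith
      have hre2 : z.re ≤ 3 / 2 * t := by nlinarith [sq_nonneg z.im, sq_nonneg (z.re - t)]
      unfold G
      rw [Complex.norm_exp]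
      apply Real.exp_le_exp.mpr
      have e1 : ((ν : ℂ) ^ 2 * z).re = ν ^ 2 * z.re := by
        rw [← Complex.ofReal_pow, Complex.re_ofReal_mul]
      have e2 : ((b : ℂ) / z).re = b * z.re / Complex.normSq z := by
        rw [Complex.div_re]; simp
      rw [Complex.neg_re, Complex.add_re, e1, e2]
      have h4 : 2 * b / (3 * t) ≤ b * z.re / Complex.normSq z := by
        rw [div_le_div_iff₀ (by positivity) hN, h3]
        have : 0 ≤ b * (t * (3 / 2 * t - z.re)) := by
          have : 0 ≤ 3 / 2 * t - z.re := by linarith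
          positivity
        nlinarith
      have h5 : 0 ≤ ν ^ 2 * z.re := by positivity
      linarith
  rw [g, if_pos ht]
  exact (Complex.abs_re_le_norm _).trans h1

theorem exp_neg_le {x : ℝ} (hx : 0 < x) (k : ℕ) : Real.exp (-x) ≤ k.factorial / x ^ k := by
  have h1 := Real.pow_div_factorial_le_exp x hx.le k
  have hk : (0 : ℝ) < k.factorial := by positivity
  rw [Real.exp_neg, inv_le_comm₀ (Real.exp_pos x) (by positivity), inv_div]
  exact h1

theorem g_bound {ν b : ℝ} (hb : 0 < b) (i : ℕ) (t : ℝ) :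
    |g ν b i t| ≤ (i.factorial : ℝ) ^ 2 * (3 / b) ^ i := by
  rcases le_or_gt t 0 with ht | ht
  · rw [g_nonpos ht, abs_zero]; positivity
  · have h1 := cauchy (ν := ν) hb i ht
    have h2 := exp_neg_le (x := 2 * b / (3 * t)) (by positivity) i
    refine h1.trans ?_
    rw [div_le_iff₀ (by positivity)]
    have h3 : (i.factorial : ℝ) ^ 2 * (3 / b) ^ i * (t / 2) ^ i =
        i.factorial * (i.factorial / (2 * b / (3 * t)) ^ i) := by
      have : (3 / b) ^ i * (t / 2) ^ i = 1 / (2 * b / (3 * t)) ^ i := by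
        rw [← mul_pow, one_div, ← inv_pow]
        congr 1
        field_simp
      rw [mul_assoc, this]
      ring
    rw [h3]
    gcongr

theorem g_bound_sq {ν b : ℝ} (hb : 0 < b) (i : ℕ) :
    ∃ C : ℝ, ∀ t : ℝ, |g ν b i t| ≤ C * t ^ 2 := by
  refine ⟨i.factorial * ((i + 2).factorial * (3 / (2 * b)) ^ (i + 2)) * 2 ^ i, fun t => ?_⟩
  rcases le_or_gt t 0 with ht | ht
  · rw [g_nonpos ht, abs_zero]; positivity
  · have h1 := cauchy (ν := ν) hb i ht
    have h2 := exp_neg_le (x := 2 * b / (3 * t)) (by positivity) (i + 2)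
    refine h1.trans ?_
    rw [div_le_iff₀ (by positivity)]
    have h3 : (i.factorial : ℝ) * ((i + 2).factorial * (3 / (2 * b)) ^ (i + 2)) * 2 ^ i * t ^ 2 *
        (t / 2) ^ i = i.factorial * ((i + 2).factorial / (2 * b / (3 * t)) ^ (i + 2)) := by
      have e1 : (3 / (2 * b)) ^ (i + 2) * t ^ (i + 2) = 1 / (2 * b / (3 * t)) ^ (i + 2) := by
        rw [← mul_pow, one_div, ← inv_pow]
        congr 1
        field_simp
      have e2 : (2 : ℝ) ^ i * (t / 2) ^ i = t ^ i := by
        rw [← mul_pow]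
        congr 1
        ring
      calc _ = i.factorial * (i + 2).factorial * (3 / (2 * b)) ^ (i + 2) * t ^ 2 *
            (2 ^ i * (t / 2) ^ i) := by ring
        _ = i.factorial * (i + 2).factorial * ((3 / (2 * b)) ^ (i + 2) * t ^ (i + 2)) := by
            rw [e2]; ring
        _ = _ := by rw [e1]; ring
    rw [h3]
    gcongr

theorem g_hasDerivAt {ν b : ℝ} (hb : 0 < b) (i : ℕ) (t : ℝ) :
    HasDerivAt (g ν b i) (g ν b (i + 1) t) t := by
  rcases lt_trichotomy t 0 with ht | ht | ht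
  · rw [g_nonpos ht.le]
    have h1 : g ν b i =ᶠ[𝓝 t] fun _ => 0 := by
      filter_upwards [gt_mem_nhds ht] with s hs
      exact g_nonpos hs.le
    exact (hasDerivAt_const t (0 : ℝ)).congr_of_eventuallyEq h1
  · subst ht
    rw [g_nonpos le_rfl]
    obtain ⟨C, hC⟩ := g_bound_sq (ν := ν) hb i
    have h1 : (g ν b i) =O[𝓝 0] fun x => ‖x - 0‖ ^ 2 := by
      refine Asymptotics.IsBigO.of_bound C (Eventually.of_forall fun x => ?_)
      rw [sub_zero, Real.norm_eq_abs, Real.norm_eq_abs, Real.norm_eq_abs, abs_pow, abs_abs, sq_abs]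
      exact hC x
    have h2 := h1.hasFDerivAt (𝕜 := ℝ) (by norm_num)
    have h3 := h2.hasDerivAt
    simpa using h3
  · have hne : (t : ℂ) ≠ 0 := by exact_mod_cast ht.ne'
    have h1 := (G_hasDerivAt ν b i hne).real_of_complex
    have h2 : g ν b i =ᶠ[𝓝 t] fun s => (iteratedDeriv i (G ν b) (s : ℂ)).re := by
      filter_upwards [lt_mem_nhds ht] with s hs
      rw [g, if_pos hs]
    have h3 : g ν b (i + 1) t = (iteratedDeriv (i + 1) (G ν b) (t : ℂ)).re := by
      rw [g, if_pos ht]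
    rw [h3]
    exact h1.congr_of_eventuallyEq h2

theorem g_continuous {ν b : ℝ} (hb : 0 < b) (i : ℕ) : Continuous (g ν b i) :=
  continuous_iff_continuousAt.mpr fun t => (g_hasDerivAt hb i t).continuousAt

/-! ### Integral estimates -/

theorem g0_nonneg {ν b t : ℝ} : 0 ≤ g ν b 0 t := by
  rcases le_or_gt t 0 with ht | ht
  · rw [g_nonpos ht]
  · rw [g_zero ht]; exact (Real.exp_pos _).le

theorem g0_le {ν b t : ℝ} (hb : 0 < b) (ht : 0 < t) : g ν b 0 t ≤ Real.exp (-(ν ^ 2 * t)) := by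
  rw [g_zero ht]
  apply Real.exp_le_exp.mpr
  have : 0 < b / t := by positivity
  linarith

theorem integrable_mom {ν b : ℝ} (hν : 0 < ν) (hb : 0 < b) (k : ℕ) :
    IntegrableOn (fun t => t ^ k * g ν b 0 t) (Ioi 0) := by
  have h1 : IntegrableOn (fun x : ℝ => x ^ (k : ℝ) * Real.exp (-(ν ^ 2) * x ^ (1 : ℝ))) (Ioi 0) :=
    integrableOn_rpow_mul_exp_neg_mul_rpow (by have : (0 : ℝ) ≤ k := by positivity
                                               linarith) one_pos (by positivity)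
  refine Integrable.mono' h1 ?_ ?_
  · exact ((continuous_pow k).mul (g_continuous hb 0)).aestronglyMeasurable
  · refine (ae_restrict_iff' measurableSet_Ioi).mpr (Eventually.of_forall fun t ht => ?_)
    have ht' : 0 < t := ht
    rw [Real.rpow_natCast, Real.rpow_one, Real.norm_of_nonneg
      (mul_nonneg (by positivity) g0_nonneg), neg_mul]
    exact mul_le_mul_of_nonneg_left (g0_le hb ht') (by positivity)

/-- The moments. -/
def mom (ν b : ℝ) (k : ℕ) : ℝ := ∫ t in Ioi 0, t ^ k * g ν b 0 t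

theorem mom_identity {ν b : ℝ} (hν : 0 < ν) (hb : 0 < b) :
    ν ^ 2 * mom ν b 2 = b * mom ν b 0 + 2 * mom ν b 1 := by
  have hd : ∀ t ∈ Ioi (0 : ℝ), HasDerivAt (fun t => t ^ 2 * g ν b 0 t)
      (2 * (t ^ 1 * g ν b 0 t) - ν ^ 2 * (t ^ 2 * g ν b 0 t) + b * (t ^ 0 * g ν b 0 t)) t := by
    intro t ht
    have ht' : 0 < t := ht
    have h1 : HasDerivAt (fun s : ℝ => Real.exp (-(ν ^ 2 * s + b / s)))
        (Real.exp (-(ν ^ 2 * t + b / t)) * (-(ν ^ 2 - b / t ^ 2))) t := by
      have h2 : HasDerivAt (fun s : ℝ => ν ^ 2 * s) (ν ^ 2) t := by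
        simpa using (hasDerivAt_id t).const_mul (ν ^ 2)
      have h3 : HasDerivAt (fun s : ℝ => b / s) (-b / t ^ 2) t := by
        have := (hasDerivAt_inv ht'.ne').const_mul b
        refine (this.congr_of_eventuallyEq
          (Eventually.of_forall fun s => div_eq_mul_inv b s)).congr_deriv ?_
        ring
      refine ((h2.add h3).neg.exp).congr_deriv ?_
      simp only [Pi.neg_apply, Pi.add_apply]
      ring
    have h4 : (fun t => t ^ 2 * g ν b 0 t) =ᶠ[𝓝 t]
        fun s => s ^ 2 * Real.exp (-(ν ^ 2 * s + b / s)) := by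
      filter_upwards [lt_mem_nhds ht'] with s hs
      rw [g_zero hs]
    have h5 := ((hasDerivAt_pow 2 t).mul h1).congr_of_eventuallyEq h4
    refine h5.congr_deriv ?_
    rw [g_zero ht']
    field_simp
    norm_num
    ring
  have hi0 := integrable_mom hν hb 0
  have hi1 := integrable_mom hν hb 1
  have hi2 := integrable_mom hν hb 2
  have hint : IntegrableOn (fun t => 2 * (t ^ 1 * g ν b 0 t) - ν ^ 2 * (t ^ 2 * g ν b 0 t)
      + b * (t ^ 0 * g ν b 0 t)) (Ioi 0) :=
    ((hi1.const_mul 2).sub (hi2.const_mul (ν ^ 2))).add (hi0.const_mul b)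
  have hlim : Tendsto (fun t => t ^ 2 * g ν b 0 t) atTop (𝓝 0) := by
    have h1 : Tendsto (fun t : ℝ => t ^ 2 * Real.exp (-(ν ^ 2 * t))) atTop (𝓝 0) := by
      have h2 := Real.tendsto_pow_mul_exp_neg_atTop_nhds_zero 2
      have h3 : Tendsto (fun t : ℝ => ν ^ 2 * t) atTop atTop :=
        tendsto_id.const_mul_atTop (by positivity)
      have h4 := (h2.comp h3).const_mul ((ν ^ 2) ^ 2)⁻¹
      rw [mul_zero] at h4
      refine h4.congr fun t => ?_
      simp only [Function.comp_apply]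
      field_simp
    refine squeeze_zero' ?_ ?_ h1
    · exact Eventually.of_forall fun t => mul_nonneg (sq_nonneg t) g0_nonneg
    · filter_upwards [eventually_gt_atTop 0] with t ht
      exact mul_le_mul_of_nonneg_left (g0_le hb ht) (sq_nonneg t)
  have h := integral_Ioi_of_hasDerivAt_of_tendsto
    (((continuous_pow 2).mul (g_continuous hb 0)).continuousWithinAt) hd hint hlim
  have e1 : ∫ t in Ioi (0 : ℝ), (2 * (t ^ 1 * g ν b 0 t) - ν ^ 2 * (t ^ 2 * g ν b 0 t)
      + b * (t ^ 0 * g ν b 0 t)) = (∫ t in Ioi (0 : ℝ), (2 * (t ^ 1 * g ν b 0 t)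
        - ν ^ 2 * (t ^ 2 * g ν b 0 t))) + ∫ t in Ioi (0 : ℝ), b * (t ^ 0 * g ν b 0 t) :=
    integral_add ((hi1.const_mul 2).sub (hi2.const_mul (ν ^ 2))) (hi0.const_mul b)
  have e2 : ∫ t in Ioi (0 : ℝ), (2 * (t ^ 1 * g ν b 0 t) - ν ^ 2 * (t ^ 2 * g ν b 0 t))
      = (∫ t in Ioi (0 : ℝ), 2 * (t ^ 1 * g ν b 0 t))
        - ∫ t in Ioi (0 : ℝ), ν ^ 2 * (t ^ 2 * g ν b 0 t) :=
    integral_sub (hi1.const_mul 2) (hi2.const_mul (ν ^ 2))
  rw [e1, e2, integral_const_mul, integral_const_mul, integral_const_mul] at h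
  have e3 : ((fun a : ℝ => a ^ 2) * g ν b 0) 0 = 0 := by simp
  rw [e3] at h
  unfold mom
  linarith

theorem mom_nonneg {ν b : ℝ} (k : ℕ) : 0 ≤ mom ν b k := by
  unfold mom
  refine setIntegral_nonneg measurableSet_Ioi fun t ht => ?_
  have ht' : 0 < t := ht
  exact mul_nonneg (by positivity) g0_nonneg

theorem mom_one_le {ν b : ℝ} (hν : 2 ≤ ν) (hb : 0 < b) :
    mom ν b 1 ≤ (b + 1) / ν * mom ν b 0 := by
  have hν0 : 0 < ν := by linarith
  have hi0 := integrable_mom hν0 hb 0
  have hi1 := integrable_mom hν0 hb 1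
  have hi2 := integrable_mom hν0 hb 2
  have h1 : mom ν b 1 ≤ ν / 2 * mom ν b 2 + 1 / (2 * ν) * mom ν b 0 := by
    unfold mom
    rw [← integral_const_mul, ← integral_const_mul, ← integral_add (hi2.const_mul _)
      (hi0.const_mul _)]
    refine setIntegral_mono_on hi1 ((hi2.const_mul _).add (hi0.const_mul _)) measurableSet_Ioi
      fun t ht => ?_
    have ht' : 0 < t := ht
    have h2 : t ≤ ν / 2 * t ^ 2 + 1 / (2 * ν) := by
      have h3 : ν / 2 * t ^ 2 + 1 / (2 * ν) - t = (ν * t - 1) ^ 2 / (2 * ν) := by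
        field_simp; ring
      have h4 : 0 ≤ (ν * t - 1) ^ 2 / (2 * ν) := by positivity
      linarith
    have h5 := mul_le_mul_of_nonneg_right h2 (g0_nonneg (ν := ν) (b := b) (t := t))
    simp only [pow_one, pow_zero, one_mul]
    linarith
  have h2 := mom_identity hν0 hb
  have h3 : ν * (ν / 2 * mom ν b 2 + 1 / (2 * ν) * mom ν b 0) =
      (b * mom ν b 0 + 2 * mom ν b 1) / 2 + mom ν b 0 / 2 := by
    rw [← h2]; field_simp
  have h4 := mul_le_mul_of_nonneg_left h1 hν0.le
  rw [h3] at h4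
  have h5 : 0 ≤ mom ν b 1 := mom_nonneg 1
  rw [div_mul_eq_mul_div, le_div_iff₀ hν0]
  nlinarith [mom_nonneg (ν := ν) (b := b) 0]

theorem mom_zero_ge {ν b : ℝ} (hν : 0 < ν) (hb : 0 < b) :
    1 / ν * Real.exp (-((2 + b) * ν)) ≤ mom ν b 0 := by
  have hi0 := integrable_mom hν hb 0
  have hle : 1 / ν ≤ 2 / ν := by gcongr; norm_num
  have hsub : Ioc (1 / ν) (2 / ν) ⊆ Ioi 0 := fun t ht => by
    have h1 : 0 < 1 / ν := by positivity
    exact h1.trans ht.1
  have h1 : ∫ _ in Ioc (1 / ν) (2 / ν), Real.exp (-((2 + b) * ν)) ≤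
      ∫ t in Ioc (1 / ν) (2 / ν), t ^ 0 * g ν b 0 t := by
    refine setIntegral_mono_on (integrable_const _) (hi0.mono_set hsub) measurableSet_Ioc
      fun t ht => ?_
    have ht0 : 0 < t := hsub ht
    rw [pow_zero, one_mul, g_zero ht0]
    apply Real.exp_le_exp.mpr
    have h2 : ν ^ 2 * t ≤ 2 * ν := by
      have := ht.2
      rw [le_div_iff₀ hν] at this
      nlinarith
    have h3 : b / t ≤ b * ν := by
      have := ht.1
      rw [div_lt_iff₀ hν] at this
      rw [div_le_iff₀ ht0]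
      nlinarith
    linarith
  have h2 : ∫ t in Ioc (1 / ν) (2 / ν), t ^ 0 * g ν b 0 t ≤ mom ν b 0 := by
    unfold mom
    refine setIntegral_mono_set hi0 ?_ (LE.le.eventuallyLE hsub)
    exact Eventually.of_forall fun t => mul_nonneg (by simp) g0_nonneg
  refine le_trans ?_ (h1.trans h2)
  rw [setIntegral_const, measureReal_def, Real.volume_Ioc, smul_eq_mul,
    ENNReal.toReal_ofReal (by linarith)]
  apply le_of_eq
  ring

end

end Pool.Agent.V1181.HeatMoll
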