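import Mathlib

/-!
# Power series solutions of the heat equation
-/

set_option autoImplicit false

namespace Pool.Agent.V1181.HeatSeries

open Set Filter Topology

noncomputable section

/-- Odd power series. -/
def S1 (a : ℕ → ℝ) (x : ℝ) : ℝ := ∑' i, a i * x ^ (2 * i + 1) / (2 * i + 1).factorial

/-- Even power series. -/
def S0 (a : ℕ → ℝ) (x : ℝ) : ℝ := ∑' i, a i * x ^ (2 * i) / (2 * i).factorial

/-- Gevrey bounds. -/
def Bd (a : ℕ → ℝ) (A q : ℝ) : Prop := ∀ i, |a i| ≤ A * (2 * i).factorial * q ^ i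

theorem bound0 {a : ℕ → ℝ} {A q R x : ℝ} (h : Bd a A q) (hA : 0 ≤ A) (hq : 0 ≤ q)
    (hRq : 4 * R ^ 2 * q ≤ 1) (hx : |x| ≤ R) (i : ℕ) :
    |a i * x ^ (2 * i) / (2 * i).factorial| ≤ A * (1 / 4) ^ i := by
  have hf : (0 : ℝ) < (2 * i).factorial := by positivity
  rw [abs_div, abs_mul, abs_pow, abs_of_pos hf, div_le_iff₀ hf, pow_mul]
  have hR : 0 ≤ R := (abs_nonneg x).trans hx
  have h1 : |x| ^ 2 ≤ R ^ 2 := pow_le_pow_left₀ (abs_nonneg x) hx 2
  calc |a i| * (|x| ^ 2) ^ i ≤ (A * (2 * i).factorial * q ^ i) * (R ^ 2) ^ i := by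
        gcongr
        exact h i
    _ = A * (2 * i).factorial * (q * R ^ 2) ^ i := by rw [mul_pow]; ring
    _ ≤ A * (2 * i).factorial * (1 / 4) ^ i := by
        gcongr
        linarith
    _ = _ := by ring

theorem bound1 {a : ℕ → ℝ} {A q R x : ℝ} (h : Bd a A q) (hA : 0 ≤ A) (hq : 0 ≤ q)
    (hRq : 4 * R ^ 2 * q ≤ 1) (hx : |x| ≤ R) (i : ℕ) :
    |a i * x ^ (2 * i + 1) / (2 * i + 1).factorial| ≤ A * R * (1 / 4) ^ i := by
  have hf : (0 : ℝ) < (2 * i).factorial := by positivity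
  have h0 := bound0 h hA hq hRq hx i
  have hR : 0 ≤ R := (abs_nonneg x).trans hx
  have e : a i * x ^ (2 * i + 1) / (2 * i + 1).factorial
      = (a i * x ^ (2 * i) / (2 * i).factorial) * x / (2 * i + 1) := by
    rw [Nat.factorial_succ]
    push_cast
    field_simp
    ring
  rw [e, abs_div, abs_mul]
  have h2 : (1 : ℝ) ≤ |2 * (i : ℝ) + 1| := by
    rw [abs_of_nonneg (by positivity)]
    have : (0 : ℝ) ≤ i := by positivity
    linarith
  calc _ ≤ |a i * x ^ (2 * i) / (2 * i).factorial| * |x| := div_le_self (by positivity) h2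
    _ ≤ A * (1 / 4) ^ i * R := by gcongr
    _ = _ := by ring

theorem bound2 {a : ℕ → ℝ} {A q R x : ℝ} (h : Bd a A q) (hA : 0 ≤ A) (hq : 0 ≤ q)
    (hRq : 4 * R ^ 2 * q ≤ 1) (hx : |x| ≤ R) (i : ℕ) :
    |a (i + 1) * x ^ (2 * i + 1) / (2 * i + 1).factorial| ≤ 2 * A * q * R * (1 / 2) ^ i := by
  have hf : (0 : ℝ) < (2 * i + 1).factorial := by positivity
  rw [abs_div, abs_mul, abs_pow, abs_of_pos hf, div_le_iff₀ hf]
  have hR : 0 ≤ R := (abs_nonneg x).trans hx
  have h1 : |x| ^ (2 * i + 1) ≤ R ^ (2 * i + 1) := pow_le_pow_left₀ (abs_nonneg x) hx _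
  have h3 : ((2 * (i + 1)).factorial : ℝ) = (2 * i + 2) * (2 * i + 1).factorial := by
    have : 2 * (i + 1) = (2 * i + 1) + 1 := by ring
    rw [this, Nat.factorial_succ]
    push_cast
    ring
  have h4 : ((i : ℝ) + 1) ≤ 2 ^ i := by
    have : i + 1 ≤ 2 ^ i := Nat.lt_two_pow_self
    exact_mod_cast this
  calc |a (i + 1)| * |x| ^ (2 * i + 1)
      ≤ (A * (2 * (i + 1)).factorial * q ^ (i + 1)) * R ^ (2 * i + 1) := by
        gcongr
        exact h (i + 1)
    _ = 2 * A * q * R * (((i : ℝ) + 1) * (q * R ^ 2) ^ i) * (2 * i + 1).factorial := by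
        rw [h3, mul_pow, ← pow_mul]; ring
    _ ≤ 2 * A * q * R * (2 ^ i * (1 / 4) ^ i) * (2 * i + 1).factorial := by
        gcongr
        linarith
    _ = _ := by
        rw [← mul_pow]
        norm_num

theorem S1_hasDerivAt {a : ℕ → ℝ} {A q R x : ℝ} (h : Bd a A q) (hA : 0 ≤ A) (hq : 0 ≤ q)
    (hRq : 4 * R ^ 2 * q ≤ 1) (hx : x ∈ Ioo (-R) R) : HasDerivAt (S1 a) (S0 a x) x := by
  unfold S1 S0
  have hR : 0 < R := by linarith [hx.1, hx.2]
  have hu : Summable fun i : ℕ => A * (1 / 4 : ℝ) ^ i :=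
    (summable_geometric_of_lt_one (by norm_num) (by norm_num)).mul_left A
  refine hasDerivAt_tsum_of_isPreconnected (F := ℝ) (t := Ioo (-R) R) (y₀ := (0 : ℝ))
    (g := fun i y => a i * y ^ (2 * i + 1) / (2 * i + 1).factorial)
    (g' := fun i y => a i * y ^ (2 * i) / (2 * i).factorial) hu isOpen_Ioo
    isPreconnected_Ioo ?_ ?_ ⟨by linarith, hR⟩ ?_ hx
  · intro i y _
    have h1 := ((hasDerivAt_pow (2 * i + 1) y).const_mul (a i)).div_const
      ((2 * i + 1).factorial : ℝ)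
    refine h1.congr_deriv ?_
    rw [Nat.factorial_succ]
    push_cast
    field_simp
  · intro i y hy
    exact bound0 h hA hq hRq (abs_le.mpr ⟨hy.1.le, hy.2.le⟩) i
  · have : (fun i : ℕ => a i * (0 : ℝ) ^ (2 * i + 1) / (2 * i + 1).factorial) = fun _ => 0 := by
      funext i
      simp
    rw [this]
    exact summable_zero

theorem S0_hasDerivAt {a : ℕ → ℝ} {A q R x : ℝ} (h : Bd a A q) (hA : 0 ≤ A) (hq : 0 ≤ q)
    (hRq : 4 * R ^ 2 * q ≤ 1) (hx : x ∈ Ioo (-R) R) :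
    HasDerivAt (S0 a) (S1 (fun i => a (i + 1)) x) x := by
  have hR : 0 < R := by linarith [hx.1, hx.2]
  have hu0 : Summable fun i : ℕ => A * (1 / 4 : ℝ) ^ i :=
    (summable_geometric_of_lt_one (by norm_num) (by norm_num)).mul_left A
  have hu : Summable fun i : ℕ => 2 * A * q * R * (1 / 2 : ℝ) ^ i :=
    (summable_geometric_of_lt_one (by norm_num) (by norm_num)).mul_left _
  have key : HasDerivAt (fun y => ∑' i, a (i + 1) * y ^ (2 * (i + 1)) / (2 * (i + 1)).factorial)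
      (S1 (fun i => a (i + 1)) x) x := by
    unfold S1
    refine hasDerivAt_tsum_of_isPreconnected (F := ℝ) (t := Ioo (-R) R) (y₀ := (0 : ℝ))
      (g := fun i y => a (i + 1) * y ^ (2 * (i + 1)) / (2 * (i + 1)).factorial)
      (g' := fun i y => a (i + 1) * y ^ (2 * i + 1) / (2 * i + 1).factorial) hu isOpen_Ioo
      isPreconnected_Ioo ?_ ?_ ⟨by linarith, hR⟩ ?_ hx
    · intro i y _
      have h1 := ((hasDerivAt_pow (2 * (i + 1)) y).const_mul (a (i + 1))).div_const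
        ((2 * (i + 1)).factorial : ℝ)
      refine h1.congr_deriv ?_
      have e : 2 * (i + 1) = (2 * i + 1) + 1 := by ring
      rw [e, Nat.factorial_succ]
      push_cast
      field_simp
    · intro i y hy
      exact bound2 h hA hq hRq (abs_le.mpr ⟨hy.1.le, hy.2.le⟩) i
    · have : (fun i : ℕ => a (i + 1) * (0 : ℝ) ^ (2 * (i + 1)) / (2 * (i + 1)).factorial)
          = fun _ => 0 := by
        funext i
        simp
      rw [this]
      exact summable_zero
  have h2 : S0 a =ᶠ[𝓝 x] fun y => a 0 +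
      ∑' i, a (i + 1) * y ^ (2 * (i + 1)) / (2 * (i + 1)).factorial := by
    filter_upwards [isOpen_Ioo.mem_nhds hx] with y hy
    unfold S0
    have hs : Summable fun i => a i * y ^ (2 * i) / (2 * i).factorial :=
      Summable.of_norm_bounded hu0 fun i =>
        bound0 h hA hq hRq (abs_le.mpr ⟨hy.1.le, hy.2.le⟩) i
    rw [hs.tsum_eq_zero_add]
    simp
  exact (key.const_add (a 0)).congr_of_eventuallyEq h2

theorem S0_zero (a : ℕ → ℝ) : S0 a 0 = a 0 := by
  unfold S0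
  rw [tsum_eq_single 0]
  · simp
  · intro i hi
    simp [hi]

theorem S1_zero (a : ℕ → ℝ) : S1 a 0 = 0 := by
  unfold S1
  simp

theorem S1_abs_le {a : ℕ → ℝ} {A q R x : ℝ} (h : Bd a A q) (hA : 0 ≤ A) (hq : 0 ≤ q)
    (hRq : 4 * R ^ 2 * q ≤ 1) (hx : |x| ≤ R) : |S1 a x| ≤ 2 * A * R := by
  have hR : 0 ≤ R := (abs_nonneg x).trans hx
  have hu : HasSum (fun i : ℕ => A * R * (1 / 4 : ℝ) ^ i) (A * R * (1 - 1 / 4)⁻¹) :=
    (hasSum_geometric_of_lt_one (by norm_num) (by norm_num)).mul_left _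
  have h1 : ‖S1 a x‖ ≤ A * R * (1 - 1 / 4)⁻¹ :=
    tsum_of_norm_bounded hu fun i => bound1 h hA hq hRq hx i
  rw [Real.norm_eq_abs] at h1
  refine h1.trans ?_
  norm_num
  nlinarith [mul_nonneg hA hR]

theorem S1_time {f : ℕ → ℝ → ℝ} {A q R x : ℝ} (h : ∀ t, Bd (fun i => f i t) A q) (hA : 0 ≤ A)
    (hq : 0 ≤ q) (hRq : 4 * R ^ 2 * q ≤ 1) (hx : |x| ≤ R)
    (hd : ∀ i t, HasDerivAt (f i) (f (i + 1) t) t) (t : ℝ) :
    HasDerivAt (fun t => S1 (fun i => f i t) x) (S1 (fun i => f (i + 1) t) x) t := by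
  have hR : 0 ≤ R := (abs_nonneg x).trans hx
  have hu : Summable fun i : ℕ => 2 * A * q * R * (1 / 2 : ℝ) ^ i :=
    (summable_geometric_of_lt_one (by norm_num) (by norm_num)).mul_left _
  have hu1 : Summable fun i : ℕ => A * R * (1 / 4 : ℝ) ^ i :=
    (summable_geometric_of_lt_one (by norm_num) (by norm_num)).mul_left _
  unfold S1
  refine hasDerivAt_tsum (F := ℝ) (y₀ := (0 : ℝ))
    (g := fun i t => f i t * x ^ (2 * i + 1) / (2 * i + 1).factorial)
    (g' := fun i t => f (i + 1) t * x ^ (2 * i + 1) / (2 * i + 1).factorial) hu ?_ ?_ ?_ t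
  · intro i s
    exact ((hd i s).mul_const _).div_const _
  · intro i s
    exact bound2 (h s) hA hq hRq hx i
  · exact Summable.of_norm_bounded hu1 fun i => bound1 (h 0) hA hq hRq hx i

theorem S1_cont {f : ℕ → ℝ → ℝ} {A q R : ℝ} (h : ∀ t, Bd (fun i => f i t) A q) (hA : 0 ≤ A)
    (hq : 0 ≤ q) (hRq : 4 * R ^ 2 * q ≤ 1) (hd : ∀ i t, HasDerivAt (f i) (f (i + 1) t) t) :
    ContinuousOn (fun p : ℝ × ℝ => S1 (fun i => f i p.1) p.2) (univ ×ˢ Icc (-R) R) := by
  have hu1 : Summable fun i : ℕ => A * R * (1 / 4 : ℝ) ^ i :=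
    (summable_geometric_of_lt_one (by norm_num) (by norm_num)).mul_left _
  have hc : ∀ i, Continuous (f i) := fun i =>
    continuous_iff_continuousAt.mpr fun t => (hd i t).continuousAt
  unfold S1
  refine continuousOn_tsum ?_ hu1 ?_
  · intro i
    refine Continuous.continuousOn ?_
    have := hc i
    fun_prop
  · rintro i ⟨t, x⟩ ⟨_, hx⟩
    exact bound1 (h t) hA hq hRq (abs_le.mpr hx) i

end

end Pool.Agent.V1181.HeatSeries
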