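import Mathlib
import Pool.Agent.V1181.H10Chain

/-!
# `H¹(ℝ)` and the sharp inequality `(16/3) ∫ u⁴ ≤ (∫ u'² + u²)²`
-/

set_option autoImplicit false

namespace Pool.Agent.V1181

open Real Set Filter MeasureTheory Topology InnerProductSpace
open scoped ENNReal

/-- `C¹` functions which are square integrable together with the derivative are in `H¹(ℝ)`. -/
theorem isH10_line {g : ℝ → ℝ} (hg : ContDiff ℝ 1 g) (h1 : MemLp g 2 volume)
    (h2 : MemLp (deriv g) 2 volume) : IsH10 univ g (deriv g) := by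
  set st := Real.smoothTransition with hst
  have hstc : ContDiff ℝ 1 st := Real.smoothTransition.contDiff
  have hstd : ∀ t, HasDerivAt st (deriv st t) t := fun t =>
    (hstc.differentiable (by norm_num) t).hasDerivAt
  have hst'c : Continuous (deriv st) := hstc.continuous_deriv (le_refl _)
  obtain ⟨C0, hC0⟩ := (isCompact_Icc (a := (0 : ℝ)) (b := 1)).exists_bound_of_continuousOn
    hst'c.continuousOn
  have hC00 : 0 ≤ C0 := (norm_nonneg _).trans (hC0 0 (by simp))
  have hd0 : ∀ t, t < 0 → deriv st t = 0 := by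
    intro t ht
    have : st =ᶠ[𝓝 t] fun _ => 0 := by
      filter_upwards [gt_mem_nhds ht] with s hs
      exact Real.smoothTransition.zero_of_nonpos hs.le
    rw [this.deriv_eq]; simp
  have hd1 : ∀ t, 1 < t → deriv st t = 0 := by
    intro t ht
    have : st =ᶠ[𝓝 t] fun _ => 1 := by
      filter_upwards [lt_mem_nhds ht] with s hs
      exact Real.smoothTransition.one_of_one_le hs.le
    rw [this.deriv_eq]; simp
  set N : ℕ → ℝ := fun n => (n : ℝ) + 1 with hN
  have hNpos : ∀ n, 1 ≤ N n := fun n => by simp only [hN]; linarith [n.cast_nonneg (α := ℝ)]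
  set η : ℕ → ℝ → ℝ := fun n x => st (2 - x ^ 2 / N n ^ 2) with hη
  have hηd : ∀ n x, HasDerivAt (η n) (deriv st (2 - x ^ 2 / N n ^ 2) * (-(2 * x / N n ^ 2))) x := by
    intro n x
    have h3 : HasDerivAt (fun x : ℝ => 2 - x ^ 2 / N n ^ 2) (-(2 * x / N n ^ 2)) x := by
      have := ((hasDerivAt_pow 2 x).div_const (N n ^ 2)).const_sub 2
      simpa using this
    exact (hstd _).comp x h3
  have hηsm : ∀ n, ContDiff ℝ 1 (η n) := fun n => by
    have h3 : ContDiff ℝ 1 fun x : ℝ => 2 - x ^ 2 / N n ^ 2 := by fun_prop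
    exact hstc.comp h3
  set φ : ℕ → ℝ → ℝ := fun n x => η n x * g x with hφ
  have hφsm : ∀ n, ContDiff ℝ 1 (φ n) := fun n => (hηsm n).mul hg
  have hgd : ∀ x, HasDerivAt g (deriv g x) x := fun x =>
    (hg.differentiable (by norm_num) x).hasDerivAt
  have hφd : ∀ n x, gradient (φ n) x = η n x * deriv g x
      + deriv st (2 - x ^ 2 / N n ^ 2) * (-(2 * x / N n ^ 2)) * g x := by
    intro n x
    rw [gradient_eq_deriv']
    have h3 : HasDerivAt (φ n) (deriv st (2 - x ^ 2 / N n ^ 2) * (-(2 * x / N n ^ 2)) * g x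
        + η n x * deriv g x) x := (hηd n x).mul (hgd x)
    rw [h3.deriv]
    ring
  have hη01 : ∀ n x, 0 ≤ η n x ∧ η n x ≤ 1 := fun n x =>
    ⟨Real.smoothTransition.nonneg _, Real.smoothTransition.le_one _⟩
  have hsupp : ∀ n, Function.support (φ n) ⊆ Icc (-(2 * N n)) (2 * N n) := by
    intro n x hx
    by_contra hcon
    apply hx
    have h3 : 2 - x ^ 2 / N n ^ 2 ≤ 0 := by
      have h4 : 0 < N n ^ 2 := by have := hNpos n; positivity
      rw [sub_nonpos, le_div_iff₀ h4]
      rw [mem_Icc, not_and_or, not_le, not_le] at hcon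
      have := hNpos n
      rcases hcon with h | h <;> nlinarith
    simp only [hφ, hη, hst]
    rw [Real.smoothTransition.zero_of_nonpos h3, zero_mul]
  have htest : ∀ n, IsTest univ (φ n) := fun n =>
    ⟨hφsm n, HasCompactSupport.of_support_subset_isCompact isCompact_Icc (hsupp n),
      subset_univ _⟩
  have hlim : ∀ x : ℝ, ∀ᶠ n : ℕ in atTop, 1 < 2 - x ^ 2 / N n ^ 2 := by
    intro x
    have h3 : Tendsto (fun n : ℕ => (n : ℝ) + 1) atTop atTop :=
      tendsto_atTop_add_const_right _ _ tendsto_natCast_atTop_atTop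
    filter_upwards [h3.eventually_gt_atTop |x|] with n hn
    have hn' : |x| < N n := hn
    have h4 : 0 < N n ^ 2 := by have := hNpos n; positivity
    have h5 : x ^ 2 < N n ^ 2 := by
      rw [← sq_abs]
      have := abs_nonneg x
      nlinarith
    have : x ^ 2 / N n ^ 2 < 1 := by rwa [div_lt_one h4]
    linarith
  refine ⟨by rwa [Measure.restrict_univ], by rwa [Measure.restrict_univ], φ, htest, ?_, ?_⟩
  · rw [Measure.restrict_univ]
    refine eLpNorm_tendsto_zero (g := fun x => |g x|)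
      (fun n => ((hφsm n).continuous.sub hg.continuous).aestronglyMeasurable)
      h1.abs (fun n => Eventually.of_forall fun x => ?_) (Eventually.of_forall fun x => ?_)
    · have h2 := hη01 n x
      have e : φ n x - g x = (η n x - 1) * g x := by simp only [hφ]; ring
      rw [e, norm_mul]
      have h3 : ‖η n x - 1‖ ≤ 1 := by
        rw [Real.norm_eq_abs, abs_le]
        constructor <;> linarith [h2.1, h2.2]
      calc _ ≤ 1 * ‖g x‖ := by gcongr
        _ = |g x| := by rw [one_mul, Real.norm_eq_abs]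
    · refine tendsto_const_nhds.congr' ?_
      filter_upwards [hlim x] with n hn
      have : η n x = 1 := Real.smoothTransition.one_of_one_le hn.le
      simp only [hφ]
      rw [this]
      ring
  · rw [Measure.restrict_univ]
    refine eLpNorm_tendsto_zero (g := fun x => |deriv g x| + 4 * C0 * |g x|)
      (fun n => ((grad_cont (hφsm n)).sub (hg.continuous_deriv (le_refl _))).aestronglyMeasurable)
      (h2.abs.add (h1.abs.const_mul _)) (fun n => Eventually.of_forall fun x => ?_)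
      (Eventually.of_forall fun x => ?_)
    · have h2 := hη01 n x
      rw [hφd]
      have e : η n x * deriv g x + deriv st (2 - x ^ 2 / N n ^ 2) * (-(2 * x / N n ^ 2)) * g x
          - deriv g x = (η n x - 1) * deriv g x
          + deriv st (2 - x ^ 2 / N n ^ 2) * (-(2 * x / N n ^ 2)) * g x := by ring
      rw [e]
      refine (norm_add_le _ _).trans (add_le_add ?_ ?_)
      · rw [norm_mul]
        have h3 : ‖η n x - 1‖ ≤ 1 := by
          rw [Real.norm_eq_abs, abs_le]
          constructor <;> linarith [h2.1, h2.2]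
        calc _ ≤ 1 * ‖deriv g x‖ := by gcongr
          _ = _ := by rw [one_mul, Real.norm_eq_abs]
      · by_cases htI : 2 - x ^ 2 / N n ^ 2 ∈ Icc (0 : ℝ) 1
        · rw [norm_mul, norm_mul, Real.norm_eq_abs (g x)]
          have h4 := hC0 _ htI
          have hN1 := hNpos n
          have h5 : ‖-(2 * x / N n ^ 2)‖ ≤ 4 := by
            have h6 : 0 < N n ^ 2 := by positivity
            have h7 : x ^ 2 ≤ 2 * N n ^ 2 := by
              have := htI.1
              rw [sub_nonneg, div_le_iff₀ h6] at this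
              exact this
            rw [norm_neg, Real.norm_eq_abs, abs_div, abs_of_pos h6, div_le_iff₀ h6, abs_mul,
              abs_of_pos (by norm_num : (0 : ℝ) < 2)]
            have h8 : |x| ≤ 2 * N n := by
              refine abs_le_of_sq_le_sq ?_ (by linarith)
              nlinarith
            nlinarith
          calc ‖deriv st (2 - x ^ 2 / N n ^ 2)‖ * ‖-(2 * x / N n ^ 2)‖ * |g x|
              ≤ C0 * 4 * |g x| := by gcongr
            _ = _ := by ring
        · have h3 : deriv st (2 - x ^ 2 / N n ^ 2) = 0 := by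
            rcases lt_or_ge (2 - x ^ 2 / N n ^ 2) 0 with h | h
            · exact hd0 _ h
            · refine hd1 _ ?_
              by_contra hcon
              exact htI ⟨h, not_lt.1 hcon⟩
          rw [h3]
          simp only [zero_mul, norm_zero]
          positivity
    · refine tendsto_const_nhds.congr' ?_
      filter_upwards [hlim x] with n hn
      have h1 : η n x = 1 := Real.smoothTransition.one_of_one_le hn.le
      rw [hφd, h1, hd1 _ hn]
      ring

/-- The sharp inequality for test functions. -/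
theorem gn_test {φ : ℝ → ℝ} (hφ : ContDiff ℝ 1 φ) (hc : HasCompactSupport φ) :
    16 / 3 * ∫ x, φ x ^ 4 ≤ (∫ x, (deriv φ x ^ 2 + φ x ^ 2)) ^ 2 := by
  have hcont := hφ.continuous
  have hd'c : Continuous (deriv φ) := hφ.continuous_deriv (le_refl _)
  have hd : ∀ x, HasDerivAt φ (deriv φ x) x := fun x =>
    (hφ.differentiable (by norm_num) x).hasDerivAt
  have habs : HasCompactSupport fun x => |φ x| := hc.mono fun x hx => by
    rw [Function.mem_support] at hx ⊢
    intro h
    exact hx (by rw [h, abs_zero])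
  obtain ⟨x₀, hx₀⟩ := hcont.abs.exists_forall_ge_of_hasCompactSupport habs
  set M := |φ x₀| with hM
  rcases (abs_nonneg (φ x₀)).eq_or_lt with h0 | h0
  · have hz : ∀ x, φ x = 0 := fun x => by
      have := hx₀ x
      rw [hM, ← h0] at this
      exact abs_eq_zero.1 (le_antisymm this (abs_nonneg _))
    have : ∫ x, φ x ^ 4 = 0 := by
      simp [hz]
    rw [this, mul_zero]
    positivity
  have hM0 : 0 < M := h0
  obtain ⟨R, hR⟩ := hc.isCompact.isBounded.subset_ball 0
  have hout : ∀ x, R ≤ |x| → φ x = 0 := by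
    intro x hx
    refine image_eq_zero_of_notMem_tsupport fun h => ?_
    have := hR h
    rw [mem_ball_zero_iff, Real.norm_eq_abs] at this
    linarith
  have hout' : ∀ x, R ≤ |x| → deriv φ x = 0 := by
    intro x hx
    have h1 : φ =ᶠ[𝓝 x] fun _ => 0 :=
      notMem_tsupport_iff_eventuallyEq.1 fun h => by
        have := hR h
        rw [mem_ball_zero_iff, Real.norm_eq_abs] at this
        linarith
    rw [h1.deriv_eq]
    simp
  have hx₀R : |x₀| < R := by
    by_contra hcon
    have := hout x₀ (not_lt.1 hcon)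
    rw [hM, this, abs_zero] at hM0
    exact lt_irrefl _ hM0
  have hR0 : 0 < R := (abs_nonneg _).trans_lt hx₀R
  have hx₀R' := abs_lt.1 hx₀R
  -- the calibration
  set Ψ : ℝ → ℝ := fun x => 2 / 3 * M ^ 2 * (1 - (1 - φ x ^ 2 / M ^ 2) ^ (3 / 2 : ℝ)) with hΨ
  set Ψ' : ℝ → ℝ := fun x => 2 * φ x * deriv φ x * (1 - φ x ^ 2 / M ^ 2) ^ (1 / 2 : ℝ) with hΨ'
  set W : ℝ → ℝ := fun x => deriv φ x ^ 2 + φ x ^ 2 - φ x ^ 4 / M ^ 2 with hW
  have hq : ∀ x, 0 ≤ 1 - φ x ^ 2 / M ^ 2 := by
    intro x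
    rw [sub_nonneg, div_le_one (by positivity), ← sq_abs (φ x)]
    have := hx₀ x
    gcongr
  have dΨ : ∀ x, HasDerivAt Ψ (Ψ' x) x := by
    intro x
    have h1 : HasDerivAt (fun x => 1 - φ x ^ 2 / M ^ 2) (-(2 * φ x * deriv φ x / M ^ 2)) x := by
      have := (((hd x).pow 2).div_const (M ^ 2)).const_sub 1
      simpa using this
    have h2 := h1.rpow_const (p := 3 / 2) (Or.inr (by norm_num))
    have h3 := (h2.const_sub 1).const_mul (2 / 3 * M ^ 2)
    refine h3.congr_deriv ?_
    simp only [hΨ']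
    have e : (3 / 2 - 1 : ℝ) = 1 / 2 := by norm_num
    rw [e]
    field_simp
  have hΨ'c : Continuous Ψ' := by
    have h1 : Continuous fun x => (1 - φ x ^ 2 / M ^ 2) ^ (1 / 2 : ℝ) :=
      Continuous.rpow_const (by fun_prop) fun x => Or.inr (by norm_num)
    simp only [hΨ']
    fun_prop
  have hWc : Continuous W := by
    simp only [hW]
    fun_prop
  have hbd : ∀ x, |Ψ' x| ≤ W x := by
    intro x
    have h1 : ((1 - φ x ^ 2 / M ^ 2) ^ (1 / 2 : ℝ)) ^ 2 = 1 - φ x ^ 2 / M ^ 2 := by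
      rw [← rpow_natCast, ← rpow_mul (hq x)]
      norm_num
    have h2 : 0 ≤ (1 - φ x ^ 2 / M ^ 2) ^ (1 / 2 : ℝ) := rpow_nonneg (hq x) _
    simp only [hΨ', hW]
    generalize (1 - φ x ^ 2 / M ^ 2) ^ (1 / 2 : ℝ) = r at *
    have e : deriv φ x ^ 2 + φ x ^ 2 - φ x ^ 4 / M ^ 2 = deriv φ x ^ 2 + (φ x * r) ^ 2 := by
      rw [mul_pow, h1]
      ring
    rw [e, abs_le]
    constructor
    · nlinarith [sq_nonneg (deriv φ x + φ x * r)]
    · nlinarith [sq_nonneg (deriv φ x - φ x * r)]
  have e0 : ∀ x, R ≤ |x| → Ψ x = 0 := by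
    intro x hx
    simp only [hΨ]
    rw [hout x hx]
    norm_num
  have e1 : Ψ x₀ = 2 / 3 * M ^ 2 := by
    simp only [hΨ]
    have : φ x₀ ^ 2 = M ^ 2 := by rw [hM, sq_abs]
    rw [this, div_self (by positivity), sub_self, zero_rpow (by norm_num)]
    ring
  have i1 := intervalIntegral.integral_eq_sub_of_hasDerivAt (a := -R) (b := x₀)
    (fun x _ => dΨ x) (hΨ'c.intervalIntegrable _ _)
  have i2 := intervalIntegral.integral_eq_sub_of_hasDerivAt (a := x₀) (b := R)
    (fun x _ => dΨ x) (hΨ'c.intervalIntegrable _ _)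
  rw [e1, e0 (-R) (by rw [abs_neg]; exact le_abs_self R)] at i1
  rw [e1, e0 R (le_abs_self R)] at i2
  have j1 : ∫ x in (-R)..x₀, Ψ' x ≤ ∫ x in (-R)..x₀, W x :=
    intervalIntegral.integral_mono_on (μ := volume) hx₀R'.1.le (hΨ'c.intervalIntegrable _ _)
      (hWc.intervalIntegrable _ _) fun x _ => (le_abs_self _).trans (hbd x)
  have j2 : ∫ x in x₀..R, -Ψ' x ≤ ∫ x in x₀..R, W x :=
    intervalIntegral.integral_mono_on (μ := volume) hx₀R'.2.le (hΨ'c.neg.intervalIntegrable _ _)
      (hWc.intervalIntegrable _ _) fun x _ => (neg_le_abs _).trans (hbd x)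
  rw [intervalIntegral.integral_neg] at j2
  have j3 := intervalIntegral.integral_add_adjacent_intervals (μ := volume)
    (hWc.intervalIntegrable (-R) x₀) (hWc.intervalIntegrable x₀ R)
  have j4 : ∫ x in (-R)..R, W x = ∫ x, W x := by
    refine intervalIntegral.integral_eq_integral_of_support_subset ?_
    intro x hx
    rw [Function.mem_support] at hx
    have h1 : |x| < R := by
      by_contra hcon
      apply hx
      simp only [hW]
      rw [hout x (not_lt.1 hcon), hout' x (not_lt.1 hcon)]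
      norm_num
    exact ⟨(abs_lt.1 h1).1, (abs_lt.1 h1).2.le⟩
  have c2 : HasCompactSupport fun x => deriv φ x ^ 2 + φ x ^ 2 := by
    refine HasCompactSupport.of_support_subset_isCompact (isCompact_Icc (a := -R) (b := R)) ?_
    intro x hx
    rw [Function.mem_support] at hx
    have h1 : |x| < R := by
      by_contra hcon
      apply hx
      rw [hout x (not_lt.1 hcon), hout' x (not_lt.1 hcon)]
      norm_num
    exact ⟨(abs_lt.1 h1).1.le, (abs_lt.1 h1).2.le⟩
  have c4 : HasCompactSupport fun x => φ x ^ 4 := hc.mono fun x hx => by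
    rw [Function.mem_support] at hx ⊢
    intro h
    exact hx (by rw [h]; norm_num)
  have k1 : Integrable fun x => deriv φ x ^ 2 + φ x ^ 2 :=
    Continuous.integrable_of_hasCompactSupport (by fun_prop) c2
  have k2 : Integrable fun x => φ x ^ 4 :=
    Continuous.integrable_of_hasCompactSupport (by fun_prop) c4
  have j5 : ∫ x, W x = (∫ x, (deriv φ x ^ 2 + φ x ^ 2)) - ∫ x, φ x ^ 4 / M ^ 2 :=
    integral_sub k1 (k2.div_const _)
  rw [integral_div] at j5
  have hP : 0 ≤ ∫ x, φ x ^ 4 := integral_nonneg fun x => by positivity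
  have key : (∫ x, φ x ^ 4) / M ^ 2 + 4 / 3 * M ^ 2 ≤ ∫ x, (deriv φ x ^ 2 + φ x ^ 2) := by
    linarith
  generalize (∫ x, (deriv φ x ^ 2 + φ x ^ 2)) = Q at *
  generalize (∫ x, φ x ^ 4) = P at *
  have h1 : 0 ≤ P / M ^ 2 := by positivity
  have h2 : 16 / 3 * P = 4 * (P / M ^ 2) * (4 / 3 * M ^ 2) := by
    field_simp
    ring
  rw [h2]
  have hB : 0 ≤ 4 / 3 * M ^ 2 := by positivity
  generalize P / M ^ 2 = A at *
  generalize 4 / 3 * M ^ 2 = B at *
  have h3 : (A + B) ^ 2 ≤ Q ^ 2 := by gcongr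
  nlinarith [sq_nonneg (A - B)]

theorem tendsto_integral_normsq {E F : Type*} [MeasurableSpace E] [NormedAddCommGroup F]
    [InnerProductSpace ℝ F]
    {μ : Measure E} {g : ℕ → E → F} {g' : E → F}
    (hg : ∀ n, MemLp (g n) 2 μ) (hg' : MemLp g' 2 μ)
    (h : Tendsto (fun n => eLpNorm (fun x => g n x - g' x) 2 μ) atTop (𝓝 0)) :
    Tendsto (fun n => ∫ x, ‖g n x‖ ^ 2 ∂μ) atTop (𝓝 (∫ x, ‖g' x‖ ^ 2 ∂μ)) := by
  have h1 := (Lp.tendsto_Lp_iff_tendsto_eLpNorm'' g hg g' hg').2 h
  have h2 : Tendsto (fun n => inner ℝ ((hg n).toLp (g n)) ((hg n).toLp (g n))) atTop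
      (𝓝 (inner ℝ (hg'.toLp g') (hg'.toLp g'))) := h1.inner h1
  have e : ∀ {k : E → F} (hk : MemLp k 2 μ),
      inner ℝ (hk.toLp k) (hk.toLp k) = ∫ x, ‖k x‖ ^ 2 ∂μ := by
    intro k hk
    rw [L2.inner_def]
    refine integral_congr_ae ?_
    filter_upwards [hk.coeFn_toLp] with x h4
    rw [h4, real_inner_self_eq_norm_sq]
  rw [e hg'] at h2
  refine h2.congr fun n => ?_
  exact e (hg n)

/-- The sharp inequality in `H¹(ℝ)`. -/
theorem IsH10.gn {u G : ℝ → ℝ} (h : IsH10 univ u G) :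
    MemLp u 4 volume ∧ Integrable (fun x => u x ^ 4) ∧
    16 / 3 * ∫ x, u x ^ 4 ≤ (∫ x, (G x ^ 2 + u x ^ 2)) ^ 2 := by
  obtain ⟨hu, hG, φ, hφ, h1, h2⟩ := h
  have hφu := fun n => (hφ n).memLp
  have hφG := fun n => (hφ n).grad_memLp
  simp only [Measure.restrict_univ] at hu hG h1 h2 hφu hφG
  obtain ⟨ns, hns, hae⟩ := (tendstoInMeasure_of_tendsto_eLpNorm (f := φ) (g := u) (by norm_num)
    (fun n => (hφu n).1) hu.1 h1).exists_seq_tendsto_ae
  have t1 := (tendsto_integral_normsq hφu hu h1).comp hns.tendsto_atTop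
  have t2 := (tendsto_integral_normsq hφG hG h2).comp hns.tendsto_atTop
  set Q : ℝ := (∫ x, ‖G x‖ ^ 2) + ∫ x, ‖u x‖ ^ 2 with hQ
  have t3 : Tendsto (fun k => (∫ x, ‖gradient (φ (ns k)) x‖ ^ 2) + ∫ x, ‖φ (ns k) x‖ ^ 2) atTop
      (𝓝 Q) := t2.add t1
  have hQ0 : 0 ≤ Q := add_nonneg (integral_nonneg fun x => by positivity)
    (integral_nonneg fun x => by positivity)
  have hb : ∀ k, eLpNorm (φ (ns k)) 4 volume ≤ ENNReal.ofReal ((3 / 16 *
      ((∫ x, ‖gradient (φ (ns k)) x‖ ^ 2) + ∫ x, ‖φ (ns k) x‖ ^ 2) ^ 2) ^ (4 : ℝ)⁻¹) := by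
    intro k
    have m4 : MemLp (φ (ns k)) 4 volume :=
      (hφ (ns k)).1.continuous.memLp_of_hasCompactSupport (hφ (ns k)).2.1
    rw [m4.eLpNorm_eq_integral_rpow_norm (by norm_num) (by norm_num)]
    refine ENNReal.ofReal_le_ofReal ?_
    have e4 : ∫ x, ‖φ (ns k) x‖ ^ (4 : ENNReal).toReal = ∫ x, φ (ns k) x ^ 4 := by
      refine integral_congr_ae (Eventually.of_forall fun x => ?_)
      show ‖φ (ns k) x‖ ^ (4 : ENNReal).toReal = φ (ns k) x ^ 4
      rw [ENNReal.toReal_ofNat, Real.norm_eq_abs]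
      have : |φ (ns k) x| ^ (4 : ℝ) = |φ (ns k) x| ^ 4 := by
        rw [← rpow_natCast]
        norm_num
      rw [this]
      exact Even.pow_abs (by decide) _
    rw [e4, ENNReal.toReal_ofNat]
    have h3 := gn_test (hφ (ns k)).1 (hφ (ns k)).2.1
    have i1 : Integrable fun x => deriv (φ (ns k)) x ^ 2 := by
      have := (hφG (ns k)).integrable_sq
      simpa only [gradient_eq_deriv'] using this
    have i2 : Integrable fun x => φ (ns k) x ^ 2 := (hφu (ns k)).integrable_sq
    have e5 : ∫ x, (deriv (φ (ns k)) x ^ 2 + φ (ns k) x ^ 2)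
        = (∫ x, ‖gradient (φ (ns k)) x‖ ^ 2) + ∫ x, ‖φ (ns k) x‖ ^ 2 := by
      have e6 : ∫ x, (deriv (φ (ns k)) x ^ 2 + φ (ns k) x ^ 2)
        = (∫ x, deriv (φ (ns k)) x ^ 2) + ∫ x, φ (ns k) x ^ 2 := integral_add i1 i2
      rw [e6]
      simp only [gradient_eq_deriv', Real.norm_eq_abs, sq_abs]
    rw [e5] at h3
    have h4 : 0 ≤ ∫ x, φ (ns k) x ^ 4 := integral_nonneg fun x => by positivity
    refine rpow_le_rpow h4 ?_ (by norm_num)
    linarith
  have hlim : eLpNorm u 4 volume ≤ ENNReal.ofReal ((3 / 16 * Q ^ 2) ^ (4 : ℝ)⁻¹) := by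
    refine (Lp.eLpNorm_lim_le_liminf_eLpNorm (fun k => (hφu (ns k)).1) u hae).trans ?_
    have t4 : Tendsto (fun k => ENNReal.ofReal ((3 / 16 *
      ((∫ x, ‖gradient (φ (ns k)) x‖ ^ 2) + ∫ x, ‖φ (ns k) x‖ ^ 2) ^ 2) ^ (4 : ℝ)⁻¹)) atTop
      (𝓝 (ENNReal.ofReal ((3 / 16 * Q ^ 2) ^ (4 : ℝ)⁻¹))) := by
      refine ENNReal.tendsto_ofReal ?_
      exact ((t3.pow 2).const_mul (3 / 16)).rpow_const (Or.inr (by norm_num))
    rw [← t4.liminf_eq]
    exact liminf_le_liminf (Eventually.of_forall hb)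
  have m4 : MemLp u 4 volume := ⟨hu.1, hlim.trans_lt ENNReal.ofReal_lt_top⟩
  have e4 : ∀ x, ‖u x‖ ^ (4 : ENNReal).toReal = u x ^ 4 := by
    intro x
    rw [ENNReal.toReal_ofNat, Real.norm_eq_abs]
    have : |u x| ^ (4 : ℝ) = |u x| ^ 4 := by
      rw [← rpow_natCast]
      norm_num
    rw [this]
    exact Even.pow_abs (by decide) _
  have i4 : Integrable fun x => u x ^ 4 := by
    have := m4.integrable_norm_rpow (by norm_num) (by norm_num)
    simpa only [e4] using this
  refine ⟨m4, i4, ?_⟩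
  rw [m4.eLpNorm_eq_integral_rpow_norm (by norm_num) (by norm_num),
    ENNReal.ofReal_le_ofReal_iff (by positivity)] at hlim
  simp only [e4] at hlim
  rw [ENNReal.toReal_ofNat] at hlim
  have h4 : 0 ≤ ∫ x, u x ^ 4 := integral_nonneg fun x => by positivity
  rw [Real.rpow_le_rpow_iff h4 (by positivity) (by norm_num)] at hlim
  have e5 : ∫ x, (G x ^ 2 + u x ^ 2) = Q := by
    have : ∫ x, (G x ^ 2 + u x ^ 2) = (∫ x, G x ^ 2) + ∫ x, u x ^ 2 :=
      integral_add hG.integrable_sq hu.integrable_sq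
    rw [this, hQ]
    simp only [Real.norm_eq_abs, sq_abs]
  rw [e5]
  linarith

end Pool.Agent.V1181
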