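import Mathlib
import Pool.Agent.V1181.Lap
import Pool.Agent.V1181.Lap2
import Pool.Agent.V1181.Green

/-!
# The Laplacian of `log ‖z‖ ^ 2` in the plane
-/

set_option autoImplicit false
set_option linter.unusedSectionVars false

namespace Pool.Agent.V1181

open Real Set Filter MeasureTheory Topology InnerProductSpace Laplacian

theorem lap_log_eta {η : ℝ} (hη : 0 < η) (x : ℂ) :
    Δ (fun y : ℂ => log (‖y‖ ^ 2 + η)) x = 4 * η / (‖x‖ ^ 2 + η) ^ 2 := by
  have hpos : ∀ s : ℝ, 0 ≤ s → 0 < s + η := fun s hs => by linarith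
  have h0 : 0 < ‖x‖ ^ 2 + η := hpos _ (sq_nonneg _)
  have hev : ∀ᶠ s in 𝓝 (‖x‖ ^ 2), s + η ≠ 0 := by
    have : ContinuousAt (fun s : ℝ => s + η) (‖x‖ ^ 2) := by fun_prop
    exact this.eventually_ne h0.ne'
  have hF : ∀ᶠ s in 𝓝 (‖x‖ ^ 2), HasDerivAt (fun s : ℝ => log (s + η)) ((fun s => (s + η)⁻¹) s) s := by
    filter_upwards [hev] with s hs
    have := ((hasDerivAt_id s).add_const η).log hs
    refine this.congr_deriv ?_
    simp
  have hF' : HasDerivAt (fun s : ℝ => (s + η)⁻¹) (-(‖x‖ ^ 2 + η)⁻¹ ^ 2) (‖x‖ ^ 2) := by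
    refine (((hasDerivAt_id (‖x‖ ^ 2)).add_const η).inv h0.ne').congr_deriv ?_
    simp only [id]
    rw [inv_pow, neg_div, one_div]
  have hC : ContDiffAt ℝ 2 (fun s : ℝ => log (s + η)) (‖x‖ ^ 2) :=
    ContDiffAt.log (by fun_prop) h0.ne'
  rw [lap_radial hC hF hF', Complex.finrank_real_complex]
  push_cast
  field_simp
  ring

theorem integral_profile : ∫ y : ℂ, 4 / (‖y‖ ^ 2 + 1) ^ 2 = 4 * π := by
  have h := integral_fun_norm_addHaar (volume : Measure ℂ) (fun r : ℝ => 4 / (r ^ 2 + 1) ^ 2)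
  rw [h, Complex.finrank_real_complex]
  have hb : (volume : Measure ℂ).real (Metric.ball 0 1) = π := by
    rw [measureReal_def, Complex.volume_ball]
    simp
  rw [hb]
  have hi : ∫ y in Ioi (0 : ℝ), y ^ (2 - 1) • (4 / (y ^ 2 + 1) ^ 2) = 2 := by
    have hd : ∀ x ∈ Ici (0 : ℝ), HasDerivAt (fun y : ℝ => -2 * (y ^ 2 + 1)⁻¹)
        (x ^ (2 - 1) • (4 / (x ^ 2 + 1) ^ 2)) x := by
      intro x _
      have h1 : x ^ 2 + 1 ≠ 0 := by positivity
      refine ((((hasDerivAt_pow 2 x).add_const 1).inv h1).const_mul (-2)).congr_deriv ?_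
      simp only [smul_eq_mul]
      field_simp
      ring
    have ht : Tendsto (fun y : ℝ => -2 * (y ^ 2 + 1)⁻¹) atTop (𝓝 0) := by
      have h1 : Tendsto (fun y : ℝ => y ^ 2 + 1) atTop atTop :=
        tendsto_atTop_add_const_right _ _ (tendsto_pow_atTop (by norm_num))
      simpa using h1.inv_tendsto_atTop.const_mul (-2)
    rw [integral_Ioi_of_hasDerivAt_of_nonneg' hd (fun x hx => ?_) ht]
    · norm_num
    · have : (0 : ℝ) < x := hx
      simp only [smul_eq_mul]
      positivity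
  rw [hi]
  simp only [nsmul_eq_mul, smul_eq_mul]
  push_cast
  ring

theorem integrable_profile : Integrable fun y : ℂ => 4 / (‖y‖ ^ 2 + 1) ^ 2 := by
  by_contra h
  have := integral_undef h
  rw [integral_profile] at this
  have := pi_pos
  linarith

theorem locallyIntegrable_log : LocallyIntegrable fun x : ℂ => log (‖x‖ ^ 2) := by
  intro x
  refine ⟨Metric.ball 0 (‖x‖ + 1), Metric.isOpen_ball.mem_nhds (by simp), ?_⟩
  rw [integrableOn_fun_norm_addHaar (volume : Measure ℂ) (f := fun r : ℝ => log (r ^ 2)),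
    Complex.finrank_real_complex]
  have hc : Continuous fun y : ℝ => 2 * (y * log y) := continuous_mul_log.const_mul 2
  refine ((hc.integrableOn_Icc (a := 0) (b := ‖x‖ + 1)).mono_set Ioo_subset_Icc_self).congr_fun
    (fun y hy => ?_) measurableSet_Ioo
  simp only [smul_eq_mul, log_pow]
  push_cast
  ring

/-- `Δ log ‖z‖ ^ 2 = 4 π δ₀` in the sense of distributions. -/
theorem log_delta {φ : ℂ → ℝ} (hφ : ContDiff ℝ (⊤ : ℕ∞) φ) (hc : HasCompactSupport φ) :
    ∫ x, log (‖x‖ ^ 2) * Δ φ x = 4 * π * φ 0 := by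
  have hφ2 : ContDiff ℝ 2 φ := (contDiff_infty.1 hφ 2)
  have hΔc : Continuous (Δ φ) := (contDiff_laplacian hφ).continuous
  have hΔs : HasCompactSupport (Δ φ) := by
    refine HasCompactSupport.of_support_subset_isCompact hc (fun x hx => ?_)
    by_contra h
    apply hx
    have : φ =ᶠ[𝓝 x] fun _ => 0 := by
      have := notMem_tsupport_iff_eventuallyEq.1 h
      exact this
    rw [laplacian_congr_nhds this |>.self_of_nhds]
    exact congrFun laplacian_const x
  -- the regularised identity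
  have hreg : ∀ r : ℝ, 0 < r → ∫ x, log (‖x‖ ^ 2 + r ^ 2) * Δ φ x
      = ∫ y : ℂ, 4 / (‖y‖ ^ 2 + 1) ^ 2 * φ (r • y) := by
    intro r hr
    have hr2 : 0 < r ^ 2 := by positivity
    have hsm : ContDiff ℝ 2 fun x : ℂ => log (‖x‖ ^ 2 + r ^ 2) := by
      refine ContDiff.log ((contDiff_norm_sq ℝ).add contDiff_const) fun x => ?_
      positivity
    rw [green volume hsm hφ2 hc]
    have hcv := Measure.integral_comp_smul (volume : Measure ℂ)
      (fun x : ℂ => 4 * r ^ 2 / (‖x‖ ^ 2 + r ^ 2) ^ 2 * φ x) r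
    rw [Complex.finrank_real_complex] at hcv
    simp only [lap_log_eta hr2]
    have h2 : ∫ x : ℂ, 4 * r ^ 2 / (‖x‖ ^ 2 + r ^ 2) ^ 2 * φ x
        = r ^ 2 * ∫ x : ℂ, (fun x : ℂ => 4 * r ^ 2 / (‖x‖ ^ 2 + r ^ 2) ^ 2 * φ x) (r • x) := by
      rw [hcv, abs_of_pos (by positivity), smul_eq_mul, ← mul_assoc, mul_inv_cancel₀ hr2.ne',
        one_mul]
    rw [h2, ← integral_const_mul]
    refine integral_congr_ae (Eventually.of_forall fun y => ?_)
    simp only [norm_smul, Real.norm_eq_abs, mul_pow, sq_abs]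
    have h3 : (0 : ℝ) < ‖y‖ ^ 2 + 1 := by positivity
    have h4 : r ^ 2 * ‖y‖ ^ 2 + r ^ 2 = r ^ 2 * (‖y‖ ^ 2 + 1) := by ring
    rw [h4]
    field_simp
  have hseq : Tendsto (fun n : ℕ => (1 / ((n : ℝ) + 1))) atTop (𝓝 0) :=
    tendsto_one_div_add_atTop_nhds_zero_nat
  have hrpos : ∀ n : ℕ, (0 : ℝ) < 1 / ((n : ℝ) + 1) := fun n => by positivity
  have hrle : ∀ n : ℕ, (1 / ((n : ℝ) + 1)) ≤ 1 := fun n => by
    rw [div_le_one (by positivity)]
    have : (0 : ℝ) ≤ n := Nat.cast_nonneg n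
    linarith
  -- left limit
  have hL : Tendsto (fun n : ℕ => ∫ x, log (‖x‖ ^ 2 + (1 / ((n : ℝ) + 1)) ^ 2) * Δ φ x) atTop
      (𝓝 (∫ x, log (‖x‖ ^ 2) * Δ φ x)) := by
    have hb1 : Integrable fun x : ℂ => |log (‖x‖ ^ 2)| * |Δ φ x| := by
      have h1 : Integrable fun x : ℂ => Δ φ x • log (‖x‖ ^ 2) :=
        locallyIntegrable_log.integrable_smul_left_of_hasCompactSupport hΔc hΔs
      refine h1.norm.congr (Eventually.of_forall fun x => ?_)
      simp only [smul_eq_mul, norm_mul, Real.norm_eq_abs]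
      ring
    have hb2 : Integrable fun x : ℂ => log (‖x‖ ^ 2 + 1) * |Δ φ x| := by
      refine Continuous.integrable_of_hasCompactSupport ?_ hΔs.abs.mul_left
      refine Continuous.mul ?_ hΔc.abs
      exact Continuous.log (by fun_prop) fun x => by positivity
    refine tendsto_integral_of_dominated_convergence
      (fun x => |log (‖x‖ ^ 2)| * |Δ φ x| + log (‖x‖ ^ 2 + 1) * |Δ φ x|) (fun n => ?_)
      (hb1.add hb2) (fun n => ?_) ?_
    · refine (Continuous.mul ?_ hΔc).aestronglyMeasurable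
      exact Continuous.log (by fun_prop) fun x => by have := hrpos n; positivity
    · have hne : ∀ᵐ x : ℂ, x ≠ 0 := by
        rw [ae_iff]
        simp
      filter_upwards [hne] with x hx
      have h0 : 0 < ‖x‖ ^ 2 := by positivity
      have h1 : log (‖x‖ ^ 2) ≤ log (‖x‖ ^ 2 + (1 / ((n : ℝ) + 1)) ^ 2) :=
        log_le_log h0 (by have := hrpos n; nlinarith)
      have h2 : log (‖x‖ ^ 2 + (1 / ((n : ℝ) + 1)) ^ 2) ≤ log (‖x‖ ^ 2 + 1) :=
        log_le_log (by have := hrpos n; positivity) (by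
          have := hrle n
          have := hrpos n
          nlinarith)
      have h3 : 0 ≤ log (‖x‖ ^ 2 + 1) := log_nonneg (by linarith)
      rw [norm_mul, Real.norm_eq_abs, Real.norm_eq_abs, ← add_mul]
      refine mul_le_mul_of_nonneg_right ?_ (abs_nonneg _)
      rw [abs_le]
      constructor
      · have := neg_abs_le (log (‖x‖ ^ 2))
        linarith
      · have := abs_nonneg (log (‖x‖ ^ 2))
        linarith
    · have hne : ∀ᵐ x : ℂ, x ≠ 0 := by
        rw [ae_iff]
        simp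
      filter_upwards [hne] with x hx
      have h0 : ‖x‖ ^ 2 ≠ 0 := by positivity
      refine Tendsto.mul_const _ ?_
      have h1 : Tendsto (fun n : ℕ => ‖x‖ ^ 2 + (1 / ((n : ℝ) + 1)) ^ 2) atTop
          (𝓝 (‖x‖ ^ 2)) := by
        simpa using (hseq.pow 2).const_add (‖x‖ ^ 2)
      exact h1.log h0
  -- right limit
  have hR : Tendsto (fun n : ℕ => ∫ y : ℂ, 4 / (‖y‖ ^ 2 + 1) ^ 2 * φ ((1 / ((n : ℝ) + 1)) • y))
      atTop (𝓝 (∫ y : ℂ, 4 / (‖y‖ ^ 2 + 1) ^ 2 * φ 0)) := by
    obtain ⟨C, hC⟩ := hφ.continuous.bounded_above_of_compact_support hc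
    refine tendsto_integral_of_dominated_convergence
      (fun y => 4 / (‖y‖ ^ 2 + 1) ^ 2 * C) (fun n => ?_) (integrable_profile.mul_const C)
      (fun n => ?_) ?_
    · refine Continuous.aestronglyMeasurable (Continuous.mul ?_ ?_)
      · exact Continuous.div (by fun_prop) (by fun_prop) fun x => by positivity
      · exact hφ.continuous.comp (by fun_prop)
    · refine Eventually.of_forall fun y => ?_
      rw [norm_mul, Real.norm_eq_abs, abs_of_pos (by positivity)]
      exact mul_le_mul_of_nonneg_left (hC _) (by positivity)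
    · refine Eventually.of_forall fun y => ?_
      refine Tendsto.const_mul _ ?_
      have h1 : Tendsto (fun n : ℕ => (1 / ((n : ℝ) + 1)) • y) atTop (𝓝 0) := by
        simpa using hseq.smul_const y
      exact (hφ.continuous.tendsto 0).comp h1
  have hcong : (fun n : ℕ => ∫ x, log (‖x‖ ^ 2 + (1 / ((n : ℝ) + 1)) ^ 2) * Δ φ x)
      = fun n : ℕ => ∫ y : ℂ, 4 / (‖y‖ ^ 2 + 1) ^ 2 * φ ((1 / ((n : ℝ) + 1)) • y) := by
    funext n
    exact hreg _ (hrpos n)
  rw [hcong] at hL
  rw [tendsto_nhds_unique hL hR, integral_mul_const, integral_profile]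

end Pool.Agent.V1181
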