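import Mathlib
import Pool.Agent.V1181.RadChain

/-!
# Finite volume of radial solutions of `Δ ^ m u = - exp u` in dimension `2 m`
-/

set_option autoImplicit false

namespace Pool.Agent.V1181

open Real Set Filter MeasureTheory Topology

theorem Chain.smul {n : ℕ} {v w : ℝ → ℝ} (h : Chain n v w) (c : ℝ) :
    Chain n (fun r => c * v r) (fun r => c * w r) where
  cv := continuous_const.mul h.cv
  cw := continuous_const.mul h.cw
  d := fun r hr => by
    refine ((h.d r hr).const_mul c).congr_deriv ?_
    rw [mul_div_assoc', ← intervalIntegral.integral_const_mul]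
    congr 2
    funext t
    ring

/-- Eventually below a negative constant. -/
def EvNeg (f : ℝ → ℝ) : Prop := ∃ c > 0, ∃ R : ℝ, ∀ r, R ≤ r → f r ≤ -c

theorem Chain.evNeg {n : ℕ} {v w : ℝ → ℝ} (h : Chain n v w) (hw : EvNeg w) : EvNeg v := by
  obtain ⟨c, hc, R, hR⟩ := hw
  obtain ⟨c', hc', R', hR', h'⟩ := h.down hc hR
  refine ⟨c', hc', max R' 1, fun r hr => ?_⟩
  have h1 := h' r ((le_max_left _ _).trans hr)
  have h2 : 1 ≤ r := (le_max_right _ _).trans hr
  have h3 : 1 ≤ r ^ 2 := one_le_pow₀ h2
  nlinarith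

section cascade

variable {n m : ℕ} {w : ℕ → ℝ → ℝ} (hc : ∀ j < m, Chain n (w j) (w (j + 1)))

include hc

theorem evNeg_down {i : ℕ} : ∀ (d : ℕ), i + d ≤ m → EvNeg (w (i + d)) → EvNeg (w i) := by
  intro d
  induction d with
  | zero => exact fun _ h => h
  | succ d ih =>
    intro hd h
    exact ih (by omega) ((hc (i + d) (by omega)).evNeg h)

theorem evPos_down {i : ℕ} : ∀ (d : ℕ), i + d ≤ m → EvNeg (fun r => - w (i + d) r) →
    EvNeg (fun r => - w i r) := by
  intro d
  induction d with
  | zero => exact fun _ h => h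
  | succ d ih =>
    intro hd h
    exact ih (by omega) ((hc (i + d) (by omega)).neg.evNeg h)

variable (hm : 1 ≤ m) (hwm : ∀ r, w m r = - exp (w 0 r))

include hm hwm

/-- The solution is not eventually bounded below. -/
theorem not_bounded_below : ¬ ∃ B R : ℝ, ∀ r, R ≤ r → B ≤ w 0 r := by
  rintro ⟨B, R, h⟩
  have h1 : EvNeg (w m) := by
    refine ⟨exp B, exp_pos _, R, fun r hr => ?_⟩
    rw [hwm]
    have := Real.exp_le_exp.2 (h r hr)
    linarith
  have h2 : EvNeg (w 1) := evNeg_down hc (m - 1) (by omega) (by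
    rwa [show 1 + (m - 1) = m by omega])
  obtain ⟨c, hc0, R1, hR1⟩ := h2
  obtain ⟨c', hc', R', hR', h'⟩ := (hc 0 (by omega)).down hc0 hR1
  obtain ⟨k, hk⟩ := exists_nat_gt (|B| / c')
  set r := max (max R R') (k + 1) with hr
  have h3 := h r ((le_max_left _ _).trans (le_max_left _ _))
  have h4 := h' r ((le_max_right _ _).trans (le_max_left _ _))
  have h5 : (k : ℝ) + 1 ≤ r := le_max_right _ _
  have hk0 : (0 : ℝ) ≤ k := Nat.cast_nonneg k
  rw [div_lt_iff₀ hc'] at hk
  have h6 := neg_abs_le B
  have h7 : r ≤ r ^ 2 := by nlinarith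
  nlinarith

/-- No iterated Laplacian is eventually above a positive constant. -/
theorem not_evPos {j : ℕ} (hj : j < m) : ¬ EvNeg (fun r => - w j r) := by
  intro h
  have h1 := evPos_down hc (i := 0) j (by omega) (by simpa using h)
  obtain ⟨c, hc0, R, hR⟩ := h1
  exact not_bounded_below hc hm hwm ⟨c, R, fun r hr => by
    have := hR r hr
    linarith⟩

/-- The alternating sequence is positive if the first Laplacian is not eventually negative. -/
theorem alt_pos (h1 : ¬ EvNeg (w 1)) : ∀ k, k + 1 ≤ m →
    ∀ r, 0 ≤ r → 0 < (-1) ^ (k + 1) * w (m - k) r := by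
  intro k
  induction k with
  | zero =>
    intro _ r _
    rw [Nat.sub_zero, hwm]
    have := exp_pos (w 0 r)
    simpa using this
  | succ k ih =>
    intro hk
    have ih' := ih (by omega)
    by_contra hcon
    push Not at hcon
    obtain ⟨r1, hr1, hle⟩ := hcon
    have hch : Chain n (fun r => (-1) ^ (k + 1 + 1) * w (m - (k + 1)) r)
        (fun r => (-1) ^ (k + 1 + 1) * w (m - k) r) := by
      have h2 := hc (m - (k + 1)) (by omega)
      rw [show m - (k + 1) + 1 = m - k by omega] at h2
      exact h2.smul _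
    have hneg : ∀ r, 0 < r → (∫ t in (0 : ℝ)..r, t ^ n * ((-1) ^ (k + 1 + 1) * w (m - k) t))
        / r ^ n < 0 := by
      intro r hr
      refine div_neg_of_neg_of_pos ?_ (by positivity)
      have h3 : ∫ t in (0 : ℝ)..r, t ^ n * ((-1) ^ (k + 1 + 1) * w (m - k) t)
          = - ∫ t in (0 : ℝ)..r, t ^ n * ((-1) ^ (k + 1) * w (m - k) t) := by
        rw [← intervalIntegral.integral_neg]
        congr 1
        funext t
        ring
      rw [h3, neg_lt_zero]
      have hcw : Continuous (w (m - k)) := by
        have h2 := (hc (m - (k + 1)) (by omega)).cw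
        rwa [show m - (k + 1) + 1 = m - k by omega] at h2
      refine intervalIntegral.intervalIntegral_pos_of_pos_on
        (Continuous.intervalIntegrable (by fun_prop) _ _) (fun t ht => ?_) hr
      exact mul_pos (pow_pos ht.1 _) (ih' t ht.1.le)
    have hsa : StrictAntiOn (fun r => (-1) ^ (k + 1 + 1) * w (m - (k + 1)) r) (Ici 0) := by
      refine strictAntiOn_of_deriv_neg (convex_Ici 0) hch.cv.continuousOn fun r hr => ?_
      rw [interior_Ici] at hr
      rw [(hch.d r hr).deriv]
      exact hneg r hr
    have h4 : EvNeg (fun r => (-1) ^ (k + 1 + 1) * w (m - (k + 1)) r) := by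
      have h5 : (-1) ^ (k + 1 + 1) * w (m - (k + 1)) (r1 + 1)
          < (-1) ^ (k + 1 + 1) * w (m - (k + 1)) r1 :=
        hsa (mem_Ici.2 hr1) (mem_Ici.2 (by linarith)) (by linarith)
      refine ⟨-((-1) ^ (k + 1 + 1) * w (m - (k + 1)) (r1 + 1)), by linarith, r1 + 1,
        fun r hr => ?_⟩
      rw [neg_neg]
      exact hsa.antitoneOn (mem_Ici.2 (by linarith)) (mem_Ici.2 (by linarith)) hr
    rcases Nat.even_or_odd (k + 1 + 1) with he | ho
    · rw [he.neg_one_pow] at h4
      simp only [one_mul] at h4
      exact h1 (evNeg_down hc (i := 1) (m - (k + 1) - 1) (by omega) (by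
        rwa [show 1 + (m - (k + 1) - 1) = m - (k + 1) by omega]))
    · rw [ho.neg_one_pow] at h4
      simp only [neg_mul, one_mul] at h4
      exact not_evPos hc hm hwm (by omega) h4

end cascade

/-- Lower bounds for the alternating sequence. -/
theorem alt_lower {n m : ℕ} {w : ℕ → ℝ → ℝ} (hc : ∀ j < m, Chain n (w j) (w (j + 1)))
    (hnm : n + 1 = 2 * m) (hwm : ∀ r, w m r = - exp (w 0 r))
    (hpos : ∀ k, k + 1 ≤ m → ∀ r, 0 ≤ r → 0 < (-1) ^ (k + 1) * w (m - k) r) :
    ∀ k, k + 2 ≤ m → ∃ c > 0, ∀ r, 0 < r →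
      c * (∫ t in (0 : ℝ)..r, t ^ n * exp (w 0 t))
        ≤ (-1) ^ (k + 1 + 1) * w (m - (k + 1)) r * r ^ (n - 1 - 2 * k) := by
  have hcw0 : 2 ≤ m → Continuous (w 0) := fun h => (hc 0 (by omega)).cv
  -- a general step
  have step : ∀ (k : ℕ), k + 2 ≤ m → ∀ (r D : ℝ), 0 < r → 0 ≤ D →
      (∀ s, 2 * r ≤ s → s ≤ 3 * r →
        D ≤ ∫ t in (0 : ℝ)..s, t ^ n * ((-1) ^ (k + 1) * w (m - k) t)) →
      r * (D / (3 * r) ^ n) ≤ (-1) ^ (k + 1 + 1) * w (m - (k + 1)) r := by
    intro k hk r D hr hD hs
    have hch : Chain n (fun r => (-1) ^ (k + 1 + 1) * w (m - (k + 1)) r)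
        (fun r => (-1) ^ (k + 1 + 1) * w (m - k) r) := by
      have h2 := hc (m - (k + 1)) (by omega)
      rw [show m - (k + 1) + 1 = m - k by omega] at h2
      exact h2.smul _
    have hder : ∀ s, (∫ t in (0 : ℝ)..s, t ^ n * ((-1) ^ (k + 1 + 1) * w (m - k) t))
        = - ∫ t in (0 : ℝ)..s, t ^ n * ((-1) ^ (k + 1) * w (m - k) t) := by
      intro s
      rw [← intervalIntegral.integral_neg]
      congr 1
      funext t
      ring
    -- decrease on [r, 2 r]
    have h1 : (-1) ^ (k + 1 + 1) * w (m - (k + 1)) (2 * r)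
        ≤ (-1) ^ (k + 1 + 1) * w (m - (k + 1)) r := by
      have h2 := hch.neg.mono' (fun t ht => by
        have h3 := hpos k (by omega) t ht
        have h4 : -((-1) ^ (k + 1 + 1) * w (m - k) t) = (-1) ^ (k + 1) * w (m - k) t := by ring
        rw [h4]
        exact h3.le) hr.le (show r ≤ 2 * r by linarith)
      linarith
    -- quantitative decrease on [2 r, 3 r]
    have h5 : (-1) ^ (k + 1 + 1) * w (m - (k + 1)) (3 * r)
        ≤ (-1) ^ (k + 1 + 1) * w (m - (k + 1)) (2 * r) - r * (D / (3 * r) ^ n) := by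
      have hanti : AntitoneOn (fun s => (-1) ^ (k + 1 + 1) * w (m - (k + 1)) s
          + (D / (3 * r) ^ n) * s) (Icc (2 * r) (3 * r)) := by
        have hd : ∀ s, 2 * r < s → HasDerivAt (fun s => (-1) ^ (k + 1 + 1) * w (m - (k + 1)) s
            + (D / (3 * r) ^ n) * s)
            ((∫ t in (0 : ℝ)..s, t ^ n * ((-1) ^ (k + 1 + 1) * w (m - k) t)) / s ^ n
              + (D / (3 * r) ^ n) * 1) s := fun s hs =>
          (hch.d s (by linarith)).add ((hasDerivAt_id s).const_mul _)
        have hcv := hch.cv
        refine antitoneOn_of_deriv_nonpos (convex_Icc _ _) (Continuous.continuousOn (by fun_prop))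
          ?_ ?_
        · intro s hs'
          rw [interior_Icc] at hs'
          exact (hd s hs'.1).differentiableAt.differentiableWithinAt
        · intro s hs'
          rw [interior_Icc] at hs'
          rw [(hd s hs'.1).deriv, hder]
          have h6 := hs s hs'.1.le hs'.2.le
          have hs0 : 0 < s := by linarith [hs'.1]
          have h7 : D / (3 * r) ^ n ≤ (∫ t in (0 : ℝ)..s, t ^ n * ((-1) ^ (k + 1) * w (m - k) t))
              / s ^ n := by
            have hsn : s ^ n ≤ (3 * r) ^ n := by
              have := hs'.2.le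
              gcongr
            calc D / (3 * r) ^ n ≤ D / s ^ n := by gcongr
              _ ≤ _ := by gcongr
          rw [neg_div]
          linarith
      have := hanti (left_mem_Icc.2 (by linarith)) (right_mem_Icc.2 (by linarith))
        (show 2 * r ≤ 3 * r by linarith)
      simp only at this
      linarith
    have h8 : 0 ≤ (-1) ^ (k + 1 + 1) * w (m - (k + 1)) (3 * r) :=
      (hpos (k + 1) (by omega) (3 * r) (by linarith)).le
    linarith
  intro k
  induction k with
  | zero =>
    intro hk
    have hcw := hcw0 (by omega)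
    refine ⟨1 / 3 ^ n, by positivity, fun r hr => ?_⟩
    set Y := ∫ t in (0 : ℝ)..r, t ^ n * exp (w 0 t) with hY
    have hY0 : 0 ≤ Y := intervalIntegral.integral_nonneg hr.le fun t ht =>
      mul_nonneg (pow_nonneg ht.1 _) (exp_pos _).le
    have h1 := step 0 (by omega) r Y hr hY0 (fun s hs _ => by
      have e : (fun t : ℝ => t ^ n * ((-1) ^ (0 + 1) * w (m - 0) t))
          = fun t => t ^ n * exp (w 0 t) := by
        funext t
        rw [Nat.sub_zero, hwm]
        ring
      rw [e]
      refine intervalIntegral.integral_mono_interval (le_refl _) hr.le (by linarith) ?_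
        (Continuous.intervalIntegrable (by fun_prop) _ _)
      refine (ae_restrict_mem measurableSet_Ioc).mono fun t ht => ?_
      exact mul_nonneg (pow_nonneg ht.1.le _) (exp_pos _).le)
    have h2 : r ^ n = r ^ (n - 1) * r := by
      rw [← pow_succ]
      congr 1
      omega
    have h3 : r * (Y / (3 * r) ^ n) * r ^ (n - 1) = 1 / 3 ^ n * Y := by
      rw [mul_pow, h2]
      field_simp
    rw [← h3]
    have h4 : n - 1 - 2 * 0 = n - 1 := by omega
    rw [h4]
    exact mul_le_mul_of_nonneg_right h1 (by positivity)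
  | succ k ih =>
    intro hk
    obtain ⟨c, hc0, hcr⟩ := ih (by omega)
    have hcw := hcw0 (by omega)
    refine ⟨c / 3 ^ n, by positivity, fun r hr => ?_⟩
    set Y := ∫ t in (0 : ℝ)..r, t ^ n * exp (w 0 t) with hY
    have hY0 : 0 ≤ Y := intervalIntegral.integral_nonneg hr.le fun t ht =>
      mul_nonneg (pow_nonneg ht.1 _) (exp_pos _).le
    have hwc : Continuous (w (m - (k + 1))) := (hc (m - (k + 1)) (by omega)).cv
    have h1 := step (k + 1) (by omega) r (c * Y * r ^ (2 * k + 2)) hr (by positivity)
      (fun s hs _ => by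
        have hsub : ∫ t in r..(2 * r), t ^ n * ((-1) ^ (k + 1 + 1) * w (m - (k + 1)) t)
            ≤ ∫ t in (0 : ℝ)..s, t ^ n * ((-1) ^ (k + 1 + 1) * w (m - (k + 1)) t) := by
          refine intervalIntegral.integral_mono_interval hr.le (by linarith) (by linarith) ?_
            (Continuous.intervalIntegrable (by fun_prop) _ _)
          refine (ae_restrict_mem measurableSet_Ioc).mono fun t ht => ?_
          exact mul_nonneg (pow_nonneg ht.1.le _) (hpos (k + 1) (by omega) t ht.1.le).le
        refine le_trans ?_ hsub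
        have hmono : ∫ _t in r..(2 * r), c * Y * r ^ (2 * k + 1)
            ≤ ∫ t in r..(2 * r), t ^ n * ((-1) ^ (k + 1 + 1) * w (m - (k + 1)) t) := by
          refine intervalIntegral.integral_mono_on (by linarith) (by simp)
            (Continuous.intervalIntegrable (by fun_prop) _ _) fun t ht => ?_
          have ht0 : 0 < t := by linarith [ht.1]
          have h2 := hcr t ht0
          have hYt : Y ≤ ∫ τ in (0 : ℝ)..t, τ ^ n * exp (w 0 τ) := by
            refine intervalIntegral.integral_mono_interval (le_refl _) hr.le ht.1 ?_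
              (Continuous.intervalIntegrable (by fun_prop) _ _)
            refine (ae_restrict_mem measurableSet_Ioc).mono fun τ hτ => ?_
            exact mul_nonneg (pow_nonneg hτ.1.le _) (exp_pos _).le
          have h3 : t ^ n = t ^ (n - 1 - 2 * k) * t ^ (2 * k + 1) := by
            rw [← pow_add]
            congr 1
            omega
          rw [h3]
          calc c * Y * r ^ (2 * k + 1)
              ≤ c * (∫ τ in (0 : ℝ)..t, τ ^ n * exp (w 0 τ)) * t ^ (2 * k + 1) := by
                have := ht.1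
                have h5 : 0 ≤ ∫ τ in (0 : ℝ)..t, τ ^ n * exp (w 0 τ) := hY0.trans hYt
                have h6 : 0 ≤ c * ∫ τ in (0 : ℝ)..t, τ ^ n * exp (w 0 τ) := mul_nonneg hc0.le h5
                gcongr
            _ ≤ ((-1) ^ (k + 1 + 1) * w (m - (k + 1)) t * t ^ (n - 1 - 2 * k))
                * t ^ (2 * k + 1) := by gcongr
            _ = t ^ (n - 1 - 2 * k) * t ^ (2 * k + 1)
                * ((-1) ^ (k + 1 + 1) * w (m - (k + 1)) t) := by ring
        rw [intervalIntegral.integral_const, smul_eq_mul] at hmono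
        refine le_trans (le_of_eq ?_) hmono
        ring)
    have h2 : r ^ n = r ^ (n - 1 - 2 * (k + 1)) * r ^ (2 * k + 3) := by
      rw [← pow_add]
      congr 1
      omega
    have h3 : r * (c * Y * r ^ (2 * k + 2) / (3 * r) ^ n) * r ^ (n - 1 - 2 * (k + 1))
        = c / 3 ^ n * Y := by
      rw [mul_pow, h2]
      field_simp
      ring
    rw [← h3]
    exact mul_le_mul_of_nonneg_right h1 (by positivity)

/-- Integrability from a logarithmic upper bound. -/
theorem integrable_of_log {n : ℕ} {v : ℝ → ℝ} (hv : Continuous v) {R : ℝ} (hR : 0 < R) {C : ℝ}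
    (h : ∀ r, R ≤ r → v r ≤ C - (n + 2) * log r) :
    IntegrableOn (fun t : ℝ => t ^ n * exp (v t)) (Ioi 0) := by
  have h1 : IntegrableOn (fun t : ℝ => t ^ n * exp (v t)) (Ioc 0 R) :=
    (Continuous.integrableOn_Icc (by fun_prop)).mono_set Ioc_subset_Icc_self
  have h2 : IntegrableOn (fun t : ℝ => t ^ n * exp (v t)) (Ioi R) := by
    have h3 := (integrableOn_Ioi_rpow_of_lt (show (-2 : ℝ) < -1 by norm_num) hR).const_mul (exp C)
    refine Integrable.mono' h3 (Continuous.aestronglyMeasurable (by fun_prop)) ?_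
    refine (ae_restrict_mem measurableSet_Ioi).mono fun t ht => ?_
    have ht0 : 0 < t := hR.trans ht
    rw [Real.norm_of_nonneg (by positivity)]
    have h4 := Real.exp_le_exp.2 (h t (le_of_lt ht))
    have h5 : exp (C - (n + 2) * log t) = exp C * (t ^ (n + 2))⁻¹ := by
      rw [exp_sub, div_eq_mul_inv]
      congr 2
      have : ((n : ℝ) + 2) * log t = log (t ^ (n + 2)) := by
        rw [Real.log_pow]
        push_cast
        ring
      rw [this, exp_log (by positivity)]
    rw [h5] at h4
    have h6 : t ^ (-2 : ℝ) = (t ^ 2)⁻¹ := by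
      rw [Real.rpow_neg ht0.le]
      norm_num
    rw [h6]
    calc t ^ n * exp (v t) ≤ t ^ n * (exp C * (t ^ (n + 2))⁻¹) := by gcongr
      _ = exp C * (t ^ 2)⁻¹ := by
        rw [pow_add]
        field_simp
  rw [(Ioc_union_Ioi_eq_Ioi hR.le).symm]
  exact h1.union h2

/-- Finite volume. -/
theorem finite_volume {n m : ℕ} {w : ℕ → ℝ → ℝ} (hm : 2 ≤ m)
    (hc : ∀ j < m, Chain n (w j) (w (j + 1)))
    (hnm : n + 1 = 2 * m) (hwm : ∀ r, w m r = - exp (w 0 r)) :
    IntegrableOn (fun t : ℝ => t ^ n * exp (w 0 t)) (Ioi 0) := by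
  have hcw : Continuous (w 0) := (hc 0 (by omega)).cv
  by_cases h1 : EvNeg (w 1)
  · obtain ⟨c, hc0, R, hR⟩ := h1
    obtain ⟨c', hc', R', -, h'⟩ := (hc 0 (by omega)).down hc0 hR
    have := integrable_of_quadratic (n := n) hcw one_pos hc' h'
    simpa using this
  have hpos := alt_pos hc (by omega) hwm h1
  have hm2 := hpos (m - 1) (by omega)
  rw [show m - 1 + 1 = m by omega, show m - (m - 1) = 1 by omega] at hm2
  rcases Nat.even_or_odd m with he | ho
  · exfalso
    refine not_bounded_below hc (by omega) hwm ⟨w 0 0, 0, fun r hr => ?_⟩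
    refine (hc 0 (by omega)).mono' (fun t ht => ?_) (le_refl 0) hr
    have := hm2 t ht
    rw [he.neg_one_pow, one_mul] at this
    exact this.le
  obtain ⟨c, hc0, hcr⟩ := alt_lower hc hnm hwm hpos (m - 2) (by omega)
  rw [show m - 2 + 1 + 1 = m by omega, show m - (m - 2 + 1) = 1 by omega,
    show n - 1 - 2 * (m - 2) = 2 by omega, ho.neg_one_pow] at hcr
  set Y : ℝ → ℝ := fun r => ∫ t in (0 : ℝ)..r, t ^ n * exp (w 0 t) with hY
  have hYmono : ∀ s r, 0 ≤ s → s ≤ r → Y s ≤ Y r := by
    intro s r hs hsr
    refine intervalIntegral.integral_mono_interval (le_refl _) hs hsr ?_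
      (Continuous.intervalIntegrable (by fun_prop) _ _)
    refine (ae_restrict_mem measurableSet_Ioc).mono fun t ht => ?_
    exact mul_nonneg (pow_nonneg ht.1.le _) (exp_pos _).le
  have hw1c : Continuous (w 1) := (hc 0 (by omega)).cw
  have hw1 : ∀ t, 0 ≤ t → w 1 t ≤ 0 := by
    intro t ht
    have := hm2 t ht
    rw [ho.neg_one_pow] at this
    linarith
  set K : ℝ := (n + 2) * 2 ^ n / c with hK
  by_cases hb : ∃ r0 > 0, K ≤ Y r0
  · obtain ⟨r0, hr0, hKY⟩ := hb
    -- logarithmic decay
    have hder : ∀ s, 2 * r0 ≤ s →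
        (∫ t in (0 : ℝ)..s, t ^ n * w 1 t) / s ^ n ≤ - ((n + 2) / s) := by
      intro s hs
      have hs0 : 0 < s := by linarith
      have h2 : ∫ t in (0 : ℝ)..s, t ^ n * (- w 1 t) = - ∫ t in (0 : ℝ)..s, t ^ n * w 1 t := by
        rw [← intervalIntegral.integral_neg]
        congr 1
        funext t
        ring
      have h3 : ∫ _t in (s / 2)..s, c * K * (s / 2) ^ (n - 2)
          ≤ ∫ t in (s / 2)..s, t ^ n * (- w 1 t) := by
        refine intervalIntegral.integral_mono_on (by linarith) (by simp)
          (Continuous.intervalIntegrable (by fun_prop) _ _) fun t ht => ?_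
        have ht0 : 0 < t := by linarith [ht.1]
        have h4 := hcr t ht0
        have h5 : K ≤ Y t := hKY.trans (hYmono r0 t hr0.le (by linarith [ht.1]))
        have h6 : t ^ n = t ^ (n - 2) * t ^ 2 := by
          rw [← pow_add]
          congr 1
          omega
        have hK0 : 0 ≤ K := by positivity
        have hYt : 0 ≤ Y t := hK0.trans h5
        calc c * K * (s / 2) ^ (n - 2) ≤ c * Y t * t ^ (n - 2) := by
              have := ht.1
              gcongr
          _ ≤ (-1 * w 1 t * t ^ 2) * t ^ (n - 2) := by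
              have h7 : c * Y t ≤ -1 * w 1 t * t ^ 2 := h4
              gcongr
          _ = t ^ n * (- w 1 t) := by
              rw [h6]
              ring
      rw [intervalIntegral.integral_const, smul_eq_mul] at h3
      have h7 : ∫ t in (s / 2)..s, t ^ n * (- w 1 t) ≤ ∫ t in (0 : ℝ)..s, t ^ n * (- w 1 t) := by
        refine intervalIntegral.integral_mono_interval (by linarith) (by linarith) (le_refl _) ?_
          (Continuous.intervalIntegrable (by fun_prop) _ _)
        refine (ae_restrict_mem measurableSet_Ioc).mono fun t ht => ?_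
        exact mul_nonneg (pow_nonneg ht.1.le _) (by linarith [hw1 t ht.1.le])
      rw [h2] at h7
      have h8 : (s - s / 2) * (c * K * (s / 2) ^ (n - 2)) = (n + 2) * 2 * s ^ (n - 1) := by
        have e1 : s ^ (n - 1) = s ^ (n - 2) * s := by
          rw [← pow_succ]
          congr 1
          omega
        have e2 : (2 : ℝ) ^ n = 2 ^ (n - 2) * 2 ^ 2 := by
          rw [← pow_add]
          congr 1
          omega
        rw [hK, e1, e2, div_pow]
        field_simp
        ring
      rw [h8] at h3
      have e3 : s ^ n = s ^ (n - 1) * s := by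
        rw [← pow_succ]
        congr 1
        omega
      rw [div_le_iff₀ (by positivity), e3]
      have h9 : -(((n : ℝ) + 2) / s) * (s ^ (n - 1) * s) = - ((n + 2) * s ^ (n - 1)) := by
        field_simp
      rw [h9]
      have h10 : 0 ≤ ((n : ℝ) + 2) * s ^ (n - 1) := by positivity
      linarith
    have hanti : AntitoneOn (fun s => w 0 s + (n + 2) * log s) (Ici (2 * r0)) := by
      have hd : ∀ s, 2 * r0 < s → HasDerivAt (fun s => w 0 s + (n + 2) * log s)
          ((∫ t in (0 : ℝ)..s, t ^ n * w 1 t) / s ^ n + (n + 2) * s⁻¹) s := fun s hs =>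
        ((hc 0 (by omega)).d s (by linarith)).add
          ((Real.hasDerivAt_log (by linarith : s ≠ 0)).const_mul _)
      refine antitoneOn_of_deriv_nonpos (convex_Ici _) ?_ ?_ ?_
      · refine hcw.continuousOn.add (continuousOn_const.mul ?_)
        intro s hs
        have hs' : 2 * r0 ≤ s := hs
        exact (Real.continuousAt_log (by linarith)).continuousWithinAt
      · intro s hs
        rw [interior_Ici] at hs
        exact (hd s hs).differentiableAt.differentiableWithinAt
      · intro s hs
        rw [interior_Ici] at hs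
        rw [(hd s hs).deriv]
        have := hder s (le_of_lt hs)
        have h4 : ((n : ℝ) + 2) / s = (n + 2) * s⁻¹ := div_eq_mul_inv _ _
        linarith
    refine integrable_of_log hcw (R := 2 * r0) (by linarith)
      (C := w 0 (2 * r0) + (n + 2) * log (2 * r0)) fun r hr => ?_
    have := hanti (mem_Ici.2 (le_refl _)) (mem_Ici.2 hr) hr
    simp only at this
    linarith
  · push Not at hb
    refine integrableOn_Ioi_of_intervalIntegral_norm_bounded (l := atTop) (b := fun r : ℝ => r)
      K 0 (fun r => ?_) tendsto_id ?_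
    · exact (Continuous.integrableOn_Icc (by fun_prop)).mono_set Ioc_subset_Icc_self
    · filter_upwards [eventually_gt_atTop 0] with r hr
      have h2 : ∫ t in (0 : ℝ)..r, ‖t ^ n * exp (w 0 t)‖ = Y r := by
        refine intervalIntegral.integral_congr fun t ht => ?_
        rw [uIcc_of_le hr.le] at ht
        exact Real.norm_of_nonneg (mul_nonneg (pow_nonneg ht.1 _) (exp_pos _).le)
      rw [h2]
      exact (hb r hr).le

end Pool.Agent.V1181
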