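import Mathlib
import Pool.Agent.V1181.RadExp
import Pool.Agent.V1181.RadFinite

/-!
# Radial solutions of `Δ ^ m u = - exp u` in dimension `2 m` with prescribed data
-/

set_option autoImplicit false

namespace Pool.Agent.V1181

open Real Set Filter MeasureTheory Topology InnerProductSpace Laplacian

/-- `U` is the (smooth) radial solution of `Δ ^ m U = - exp U` on `ℝ ^ (2 m)` whose iterated
Laplacians at the origin are `a 0, ..., a (m - 1)`. -/
structure IsSol (m : ℕ) (a : Fin m → ℝ) (U : EuclideanSpace ℝ (Fin (2 * m)) → ℝ) : Prop where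
  smooth : ContDiff ℝ (⊤ : ℕ∞) U
  radial : ∀ x y, ‖x‖ = ‖y‖ → U x = U y
  eq : ∀ x, lapIter m U x = - exp (U x)
  data : ∀ i : Fin m, lapIter i U 0 = a i

theorem exists_isSol {m : ℕ} (hm : 1 ≤ m) (a : Fin m → ℝ) : ∃ U, IsSol m a U := by
  obtain ⟨k, rfl⟩ : ∃ k, m = k + 1 := ⟨m - 1, by omega⟩
  have hE : Module.finrank ℝ (EuclideanSpace ℝ (Fin (2 * (k + 1)))) = 2 * (k + 1) := by simp
  obtain ⟨F, hF, -, h2, h3⟩ := exists_neg (m := k) hE
    (fun i => if h : i < k + 1 then a ⟨i, h⟩ else 0) (c := 1) (β := 1) (by norm_num) (by norm_num)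
  refine ⟨fun x => F (‖x‖ ^ 2), hF.comp (contDiff_norm_sq ℝ), fun x y h => by rw [h],
    fun x => ?_, fun i => ?_⟩
  · have := h2 x
    simpa using this
  · have := h3 i (by have := i.2; omega)
    rw [this, dif_pos i.2]

/-- The unit vector used for the profiles. -/
theorem exists_unit {m : ℕ} (hm : 1 ≤ m) : ∃ e : EuclideanSpace ℝ (Fin (2 * m)), ‖e‖ = 1 :=
  ⟨EuclideanSpace.single ⟨0, by omega⟩ 1, by simp⟩

theorem sol_chain {m : ℕ} (hm : 1 ≤ m) {a : Fin m → ℝ}
    {U : EuclideanSpace ℝ (Fin (2 * m)) → ℝ} (h : IsSol m a U)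
    {e : EuclideanSpace ℝ (Fin (2 * m))} (he : ‖e‖ = 1) :
    (∀ j < m, Chain (2 * m - 1) (fun t : ℝ => lapIter j U (t • e))
      (fun t : ℝ => lapIter (j + 1) U (t • e))) ∧
    (∀ r : ℝ, lapIter m U (r • e) = - exp (lapIter 0 U (r • e))) ∧
    (∀ i : Fin m, lapIter i U ((0 : ℝ) • e) = a i) := by
  refine ⟨fun j _ => chain_lapIter h.smooth h.radial he (by simp; omega) (by omega) j,
    fun r => h.eq _, fun i => ?_⟩
  rw [zero_smul]
  exact h.data i

theorem sol_integrable {m : ℕ} (hm : 2 ≤ m) {a : Fin m → ℝ}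
    {U : EuclideanSpace ℝ (Fin (2 * m)) → ℝ} (h : IsSol m a U)
    {e : EuclideanSpace ℝ (Fin (2 * m))} (he : ‖e‖ = 1) :
    IntegrableOn (fun t : ℝ => t ^ (2 * m - 1) * exp (U (t • e))) (Ioi 0) ∧
    Integrable (fun x => exp (U x)) ∧
    ∫ x, exp (U x) = ((2 * m - 1 + 1 : ℕ) *
      (volume : Measure (EuclideanSpace ℝ (Fin (2 * m)))).real (Metric.ball 0 1))
      * ∫ t in Ioi (0 : ℝ), t ^ (2 * m - 1) * exp (U (t • e)) := by
  obtain ⟨h1, h2, -⟩ := sol_chain (by omega) h he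
  have h3 := finite_volume (w := fun j t => lapIter j U (t • e)) hm h1 (by omega) h2
  have h4 : IsRadial fun x => exp (U x) := fun x y hxy => by simp only [h.radial x y hxy]
  have hfr : Module.finrank ℝ (EuclideanSpace ℝ (Fin (2 * m))) = (2 * m - 1) + 1 := by
    simp
    omega
  have : Nontrivial (EuclideanSpace ℝ (Fin (2 * m))) := by
    refine ⟨e, 0, fun h0 => ?_⟩
    rw [h0, norm_zero] at he
    exact zero_ne_one he
  obtain ⟨h5, h6⟩ := radial_integral h4 he hfr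
  exact ⟨h3, h5.2 h3, h6⟩

end Pool.Agent.V1181
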