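import Mathlib
import Pool.Agent.Y359.PE.PairRuns
import Pool.Agent.Y359.PE.Runs
import Pool.Agent.V1181.BDiff

/-!
# Product sets of random bounded perturbations of arbitrary finite sets of integers
-/

set_option autoImplicit false

open scoped Pointwise

namespace Pool.Agent.V1181.Smooth

open Finset Pool.Agent.Y359.PE

/-- The set of the numbers `s + t s`, `s ∈ S`. -/
def perturb (S : Finset ℤ) {L : ℕ} (t : S → Fin L) : Finset ℤ :=
  univ.image fun s : S => (s : ℤ) + ((t s : ℕ) : ℤ)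

/-- Double counting. -/
theorem mean_ge {Ω β : Type} [Fintype Ω] [DecidableEq β] (P : Ω → Finset β) (X : Finset β)
    (D M : ℝ) (hD : 0 ≤ D)
    (h : ∀ x ∈ X, M ≤ D * ((univ.filter fun w => x ∈ P w).card : ℝ)) :
    M * X.card ≤ D * ∑ w, ((P w).card : ℝ) := by
  have h1 : ∑ x ∈ X, ((univ.filter fun w => x ∈ P w).card : ℝ) ≤ ∑ w, ((P w).card : ℝ) := by
    have h2 : ∀ x ∈ X, ((univ.filter fun w => x ∈ P w).card : ℝ) =
        ∑ w, if x ∈ P w then (1 : ℝ) else 0 := by
      intro x _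
      rw [← sum_filter, sum_const, nsmul_eq_mul, mul_one]
    rw [sum_congr rfl h2, sum_comm]
    refine sum_le_sum fun w _ => ?_
    rw [← sum_filter, sum_const, nsmul_eq_mul, mul_one]
    exact_mod_cast card_le_card (fun x hx => (mem_filter.1 hx).2)
  calc M * X.card = ∑ x ∈ X, M := by rw [sum_const, nsmul_eq_mul, mul_comm]
    _ ≤ ∑ x ∈ X, D * ((univ.filter fun w => x ∈ P w).card : ℝ) := sum_le_sum h
    _ = D * ∑ x ∈ X, ((univ.filter fun w => x ∈ P w).card : ℝ) := by rw [mul_sum]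
    _ ≤ _ := mul_le_mul_of_nonneg_left h1 hD

/-- Functions with prescribed values at `k` different places. -/
theorem prescribed {ι α : Type} [Fintype ι] [DecidableEq ι] [Fintype α] [DecidableEq α] {k : ℕ}
    (σ : Fin k → ι) (hσ : Function.Injective σ) (r : Fin k → α) :
    (Fintype.card α : ℝ) ^ Fintype.card ι ≤
      (Fintype.card α : ℝ) ^ k * ((univ.filter fun w : ι → α => ∀ i, w (σ i) = r i).card : ℝ) := by
  classical
  let F : {w : ι → α // ∀ i, w (σ i) = r i} × (Fin k → α) → (ι → α) := fun p x =>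
    if h : ∃ i, σ i = x then p.2 h.choose else p.1.1 x
  have hch : ∀ i (h : ∃ j, σ j = σ i), h.choose = i := fun i h => hσ h.choose_spec
  have hF : Function.Surjective F := by
    intro w
    refine ⟨(⟨fun x => if h : ∃ i, σ i = x then r h.choose else w x, ?_⟩, fun i => w (σ i)), ?_⟩
    · intro i
      have h : ∃ j, σ j = σ i := ⟨i, rfl⟩
      simp only [dif_pos h, hch i h]
    · funext x
      by_cases h : ∃ i, σ i = x
      · simp only [F, dif_pos h, h.choose_spec]
      · simp only [F, dif_neg h]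
  have h1 := Fintype.card_le_of_surjective F hF
  rw [Fintype.card_prod, Fintype.card_fun, Fintype.card_fun, Fintype.card_fin,
    Fintype.card_subtype] at h1
  have h2 : ((Fintype.card α ^ Fintype.card ι : ℕ) : ℝ) ≤
      (((univ.filter fun w : ι → α => ∀ i, w (σ i) = r i).card * Fintype.card α ^ k : ℕ) : ℝ) := by
    exact_mod_cast h1
  push_cast at h2
  linarith

/-- Tuples in which one entry is a function of the others. -/
theorem card_tuple {k : ℕ} (i : Fin (k + 1)) {β : Type} [Fintype β] [DecidableEq β]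
    (p : (Fin (k + 1) → β) → Prop) [DecidablePred p] (g : (Fin k → β) → β)
    (h : ∀ σ, p σ → σ i = g (fun x => σ (i.succAbove x))) :
    (univ.filter p).card ≤ Fintype.card β ^ k := by
  have h1 : (univ.filter p).card ≤ (univ : Finset (Fin k → β)).card := by
    refine card_le_card_of_injOn (fun σ x => σ (i.succAbove x)) (fun _ _ => by simp) ?_
    intro σ hσ τ hτ hst
    have h2 := h σ (by simpa using hσ)
    have h3 := h τ (by simpa using hτ)
    simp only at hst
    funext x
    rcases Fin.eq_self_or_eq_succAbove i x with rfl | ⟨y, rfl⟩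
    · rw [h2, h3, hst]
    · exact congrFun hst y
  rw [card_univ, Fintype.card_fun, Fintype.card_fin] at h1
  exact h1

theorem card_hit {k : ℕ} {β : Type} [Fintype β] [DecidableEq β] (s : β) :
    (univ.filter fun σ : Fin (k + 1) → β => ∃ i, σ i = s).card ≤
      (k + 1) * Fintype.card β ^ k := by
  have h1 : (univ.filter fun σ : Fin (k + 1) → β => ∃ i, σ i = s) ⊆
      univ.biUnion fun i => univ.filter fun σ : Fin (k + 1) → β => σ i = s := by
    intro σ hσ
    obtain ⟨i, hi⟩ := (mem_filter.1 hσ).2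
    exact mem_biUnion.2 ⟨i, mem_univ _, mem_filter.2 ⟨mem_univ _, hi⟩⟩
  refine (card_le_card h1).trans (card_biUnion_le.trans ?_)
  refine (sum_le_sum fun i _ => card_tuple i _ (fun _ => s) (fun σ h => h)).trans (le_of_eq ?_)
  rw [sum_const, card_univ, Fintype.card_fin, smul_eq_mul]

theorem card_noninj {k : ℕ} {β : Type} [Fintype β] [DecidableEq β] :
    (univ.filter fun σ : Fin (k + 1) → β => ¬ Function.Injective σ).card ≤
      (k + 1) ^ 2 * Fintype.card β ^ k := by
  classical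
  have h1 : (univ.filter fun σ : Fin (k + 1) → β => ¬ Function.Injective σ) ⊆
      (univ : Finset (Fin (k + 1) × Fin (k + 1))).biUnion fun q =>
        univ.filter fun σ : Fin (k + 1) → β => q.1 ≠ q.2 ∧ σ q.1 = σ q.2 := by
    intro σ hσ
    have h2 := (mem_filter.1 hσ).2
    unfold Function.Injective at h2
    push Not at h2
    obtain ⟨i, j, h3, h4⟩ := h2
    exact mem_biUnion.2 ⟨(i, j), mem_univ _, mem_filter.2 ⟨mem_univ _, h4, h3⟩⟩
  refine (card_le_card h1).trans (card_biUnion_le.trans ?_)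
  have h2 : ∀ q ∈ (univ : Finset (Fin (k + 1) × Fin (k + 1))),
      (univ.filter fun σ : Fin (k + 1) → β => q.1 ≠ q.2 ∧ σ q.1 = σ q.2).card ≤
        Fintype.card β ^ k := by
    rintro ⟨i, j⟩ _
    by_cases hij : i = j
    · subst hij
      simp
    · obtain ⟨y, hy⟩ := Fin.exists_succAbove_eq (Ne.symm hij)
      exact card_tuple i _ (fun τ => τ y) (fun σ h => by
        show σ i = σ (i.succAbove y)
        rw [hy]; exact h.2)
  refine (sum_le_sum h2).trans (le_of_eq ?_)
  rw [sum_const, card_univ, Fintype.card_prod, Fintype.card_fin, smul_eq_mul]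
  ring

/-- the thickened set -/
def thick (S : Finset ℤ) (L : ℕ) : Finset ℤ := (S ×ˢ range L).image fun s => s.1 + (s.2 : ℤ)

theorem pk_thick_subset (S : Finset ℤ) (L k : ℕ) :
    pk (k + 1) (thick S L) ⊆
      ((univ.filter fun q : (Fin (k + 1) → S) × (Fin (k + 1) → Fin L) =>
          Function.Injective q.1).image fun q => ∏ i, ((q.1 i : ℤ) + ((q.2 i : ℕ) : ℤ))) ∪
      ((univ.filter fun q : (Fin (k + 1) → S) × (Fin (k + 1) → Fin L) =>
          ¬ Function.Injective q.1).image fun q => ∏ i, ((q.1 i : ℤ) + ((q.2 i : ℕ) : ℤ))) := by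
  intro x hx
  obtain ⟨g, hg, rfl⟩ := mem_image.1 hx
  rw [Fintype.mem_piFinset] at hg
  have hg' : ∀ i, ∃ (s : S) (r : Fin L), (s : ℤ) + ((r : ℕ) : ℤ) = g i := by
    intro i
    obtain ⟨s, hs1, hs2⟩ := mem_image.1 (hg i)
    rw [mem_product, mem_range] at hs1
    exact ⟨⟨s.1, hs1.1⟩, ⟨s.2, hs1.2⟩, hs2⟩
  choose s r hsr using hg'
  rw [mem_union]
  have e : ∏ i, g i = ∏ i, ((s i : ℤ) + ((r i : ℕ) : ℤ)) :=
    prod_congr rfl fun i _ => (hsr i).symm
  by_cases h : Function.Injective s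
  · exact Or.inl (mem_image.2 ⟨(s, r), mem_filter.2 ⟨mem_univ _, h⟩, e.symm⟩)
  · exact Or.inr (mem_image.2 ⟨(s, r), mem_filter.2 ⟨mem_univ _, h⟩, e.symm⟩)

theorem card_noninj' (S : Finset ℤ) (L k : ℕ) :
    ((univ.filter fun q : (Fin (k + 1) → S) × (Fin (k + 1) → Fin L) =>
          ¬ Function.Injective q.1).image
            fun q => ∏ i, ((q.1 i : ℤ) + ((q.2 i : ℕ) : ℤ))).card ≤
      (k + 1) ^ 2 * S.card ^ k * L ^ (k + 1) := by
  refine card_image_le.trans ?_
  have h1 : (univ.filter fun q : (Fin (k + 1) → S) × (Fin (k + 1) → Fin L) =>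
      ¬ Function.Injective q.1) =
      (univ.filter fun σ : Fin (k + 1) → S => ¬ Function.Injective σ) ×ˢ univ := by
    ext q
    simp
  rw [h1, card_product]
  have h2 := card_noninj (k := k) (β := S)
  rw [Fintype.card_coe] at h2
  rw [card_univ, Fintype.card_fun, Fintype.card_fin, Fintype.card_fin]
  exact Nat.mul_le_mul_right _ h2

theorem perturb_nonempty {S : Finset ℤ} (hS : S.Nonempty) {L : ℕ} (t : S → Fin L) :
    (perturb S t).Nonempty := by
  obtain ⟨s, hs⟩ := hS
  exact ⟨_, mem_image.2 ⟨⟨s, hs⟩, mem_univ _, rfl⟩⟩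

theorem mem_pk_perturb {S : Finset ℤ} {L k : ℕ} (t : S → Fin L) (x : ℤ) :
    x ∈ pk k (perturb S t) ↔ ∃ σ : Fin k → S, ∏ i, ((σ i : ℤ) + ((t (σ i) : ℕ) : ℤ)) = x := by
  constructor
  · intro hx
    obtain ⟨g, hg, rfl⟩ := mem_image.1 hx
    rw [Fintype.mem_piFinset] at hg
    have hg' : ∀ i, ∃ s : S, (s : ℤ) + ((t s : ℕ) : ℤ) = g i := by
      intro i
      obtain ⟨s, _, hs2⟩ := mem_image.1 (hg i)
      exact ⟨s, hs2⟩
    choose σ hσ using hg'
    exact ⟨σ, prod_congr rfl fun i _ => hσ i⟩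
  · rintro ⟨σ, rfl⟩
    refine mem_image.2 ⟨fun i => (σ i : ℤ) + ((t (σ i) : ℕ) : ℤ), ?_, rfl⟩
    rw [Fintype.mem_piFinset]
    intro i
    exact mem_image.2 ⟨σ i, mem_univ _, rfl⟩

theorem diff_k {S : Finset ℤ} {L k : ℕ} (t : S → Fin L) (s : S) (v : Fin L) :
    (pk (k + 1) (perturb S (Function.update t s v))).card ≤
      (pk (k + 1) (perturb S t)).card + (k + 1) * S.card ^ k := by
  classical
  have h1 : pk (k + 1) (perturb S (Function.update t s v)) ⊆ pk (k + 1) (perturb S t) ∪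
      (univ.filter fun σ : Fin (k + 1) → S => ∃ i, σ i = s).image fun σ =>
        ∏ i, ((σ i : ℤ) + ((Function.update t s v (σ i) : ℕ) : ℤ)) := by
    intro x hx
    obtain ⟨σ, hσ⟩ := (mem_pk_perturb _ _).1 hx
    rw [mem_union]
    by_cases h : ∃ i, σ i = s
    · exact Or.inr (mem_image.2 ⟨σ, mem_filter.2 ⟨mem_univ _, h⟩, hσ⟩)
    · push Not at h
      refine Or.inl ((mem_pk_perturb _ _).2 ⟨σ, ?_⟩)
      rw [← hσ]
      refine prod_congr rfl fun i _ => ?_
      rw [Function.update_of_ne (h i)]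
  refine (card_le_card h1).trans ((card_union_le _ _).trans ?_)
  refine Nat.add_le_add_left (card_image_le.trans ?_) _
  have := card_hit (k := k) (β := S) s
  rwa [Fintype.card_coe] at this

theorem abs_of_two {ι α : Type} [DecidableEq ι] (f : (ι → α) → ℝ) (c : ι → ℝ)
    (h : ∀ t i v, f (Function.update t i v) ≤ f t + c i) (t : ι → α) (i : ι) (v : α) :
    |f (Function.update t i v) - f t| ≤ c i := by
  rw [abs_le]
  constructor
  · have h1 := h (Function.update t i v) i (t i)
    rw [Function.update_idem, Function.update_eq_self] at h1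
    linarith
  · have h1 := h t i v
    linarith

/-- the size of the products with different places -/
theorem many (S : Finset ℤ) (L k : ℕ) (y : ℝ)
    (h : y ≤ ((pk (k + 1) (thick S L)).card : ℝ)) :
    y - (k + 1) ^ 2 * (S.card : ℝ) ^ k * (L : ℝ) ^ (k + 1) ≤
      (((univ.filter fun q : (Fin (k + 1) → S) × (Fin (k + 1) → Fin L) =>
          Function.Injective q.1).image
            fun q => ∏ i, ((q.1 i : ℤ) + ((q.2 i : ℕ) : ℤ))).card : ℝ) := by
  have h1 := (card_le_card (pk_thick_subset S L k)).trans (card_union_le _ _)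
  have h2 := h1.trans (Nat.add_le_add_left (card_noninj' S L k) _)
  have h3 : ((pk (k + 1) (thick S L)).card : ℝ) ≤
      (((univ.filter fun q : (Fin (k + 1) → S) × (Fin (k + 1) → Fin L) =>
          Function.Injective q.1).image
            fun q => ∏ i, ((q.1 i : ℤ) + ((q.2 i : ℕ) : ℤ))).card : ℝ) +
        (k + 1) ^ 2 * (S.card : ℝ) ^ k * (L : ℝ) ^ (k + 1) := by exact_mod_cast h2
  linarith

/-- the mean of the number of products -/
theorem mean_k (S : Finset ℤ) (L k : ℕ) (y : ℝ)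
    (h : y ≤ ((pk (k + 1) (thick S L)).card : ℝ)) :
    (L : ℝ) ^ S.card * (y - (k + 1) ^ 2 * (S.card : ℝ) ^ k * (L : ℝ) ^ (k + 1)) ≤
      (L : ℝ) ^ (k + 1) * ∑ t : S → Fin L, ((pk (k + 1) (perturb S t)).card : ℝ) := by
  classical
  have h1 := mean_ge (fun t : S → Fin L => pk (k + 1) (perturb S t))
    ((univ.filter fun q : (Fin (k + 1) → S) × (Fin (k + 1) → Fin L) =>
          Function.Injective q.1).image fun q => ∏ i, ((q.1 i : ℤ) + ((q.2 i : ℕ) : ℤ)))
    ((L : ℝ) ^ (k + 1)) ((L : ℝ) ^ S.card) (by positivity) (by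
      intro x hx
      obtain ⟨q, hq, rfl⟩ := mem_image.1 hx
      have hinj := (mem_filter.1 hq).2
      have h2 := prescribed q.1 hinj q.2
      rw [Fintype.card_fin, Fintype.card_coe] at h2
      refine h2.trans (mul_le_mul_of_nonneg_left ?_ (by positivity))
      have h3 : (univ.filter fun w : S → Fin L => ∀ i, w (q.1 i) = q.2 i) ⊆
          univ.filter fun w : S → Fin L =>
            ∏ i, ((q.1 i : ℤ) + ((q.2 i : ℕ) : ℤ)) ∈ pk (k + 1) (perturb S w) := by
        intro w hw
        have h4 := (mem_filter.1 hw).2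
        refine mem_filter.2 ⟨mem_univ _, (mem_pk_perturb _ _).2 ⟨q.1, ?_⟩⟩
        exact prod_congr rfl fun i _ => by rw [h4 i]
      exact_mod_cast card_le_card h3)
  exact (mul_le_mul_of_nonneg_left (many S L k y h) (by positivity)).trans h1

/-- **`k`-fold products of random bounded perturbations.** -/
theorem kfold (k : ℕ) (ε : ℝ) (hε : 0 < ε) (hε1 : ε ≤ 1 / 2) :
    ∃ (L : ℕ) (c : ℝ), 1 ≤ L ∧ 0 < c ∧ ∀ S : Finset ℤ, S.Nonempty →
      ((univ.filter fun t : S → Fin L =>
        ((pk (k + 1) (perturb S t)).card : ℝ) <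
          c * (S.card : ℝ) ^ (((k + 1 : ℕ) : ℝ) - ε)).card : ℝ) ≤
      Real.exp (-(c * (S.card : ℝ) ^ (1 - 2 * ε))) * (L : ℝ) ^ S.card := by
  classical
  obtain ⟨L, c0, hL, hc0, hruns⟩ := runs (k + 1) (by omega) ε hε (by linarith)
  have hLr : (0 : ℝ) < L := by exact_mod_cast hL
  have : Nonempty (Fin L) := ⟨⟨0, hL⟩⟩
  set c1 : ℝ := c0 / (2 * (L : ℝ) ^ (k + 1)) with hc1
  have hc1p : 0 < c1 := by positivity
  set B : ℝ := 2 * ((k + 1) ^ 2 * (L : ℝ) ^ (k + 1)) / c0 with hB
  have hBp : 0 < B := by positivity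
  set c : ℝ := min (c1 / 2) (min (c1 ^ 2 / (8 * (k + 1) ^ 2)) ((B ^ (2 * (k + 1)))⁻¹)) with hc
  have hcp : 0 < c := lt_min (by positivity) (lt_min (by positivity) (by positivity))
  have hca : c ≤ c1 / 2 := min_le_left _ _
  have hcb : c ≤ c1 ^ 2 / (8 * (k + 1) ^ 2) := (min_le_right _ _).trans (min_le_left _ _)
  have hcc : c ≤ (B ^ (2 * (k + 1)))⁻¹ := (min_le_right _ _).trans (min_le_right _ _)
  refine ⟨L, c, hL, hcp, fun S hS => ?_⟩
  set n : ℝ := (S.card : ℝ) with hn
  have hn1 : 1 ≤ n := by rw [hn]; exact_mod_cast card_pos.2 hS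
  have hn0 : 0 < n := by linarith
  by_cases hbig : B ≤ n ^ (1 - ε)
  · -- many elements
    have hthick : (c0 * n ^ (((k + 1 : ℕ) : ℝ) - ε)) ≤ ((pk (k + 1) (thick S L)).card : ℝ) := by
      have h1 := hruns (thick S L) (hS.mono (by
        intro s hs
        exact mem_image.2 ⟨(s, 0), mem_product.2 ⟨hs, mem_range.2 hL⟩, by simp⟩))
        (run_of_shift S L)
      refine le_trans ?_ h1
      refine mul_le_mul_of_nonneg_left ?_ hc0.le
      refine Real.rpow_le_rpow hn0.le ?_ (by
        push_cast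
        have : (0 : ℝ) ≤ k := Nat.cast_nonneg k
        linarith)
      rw [hn]
      exact_mod_cast card_le_card (by
        intro s hs
        exact mem_image.2 ⟨(s, 0), mem_product.2 ⟨hs, mem_range.2 hL⟩, by simp⟩)
    have hmean := mean_k S L k _ hthick
    set a : ℝ := n ^ (((k + 1 : ℕ) : ℝ) - ε) with ha
    have ha0 : 0 < a := Real.rpow_pos_of_pos hn0 _
    have hak : a = n ^ (1 - ε) * n ^ k := by
      rw [ha, ← Real.rpow_natCast n k, ← Real.rpow_add hn0]
      congr 1
      push_cast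
      ring
    have hsmall : (k + 1) ^ 2 * n ^ k * (L : ℝ) ^ (k + 1) ≤ c0 / 2 * a := by
      have h1 : (k + 1) ^ 2 * n ^ k * (L : ℝ) ^ (k + 1) = c0 / 2 * (B * n ^ k) := by
        rw [hB]
        field_simp
      rw [h1, hak]
      have h2 : B * n ^ k ≤ n ^ (1 - ε) * n ^ k := mul_le_mul_of_nonneg_right hbig (by positivity)
      exact mul_le_mul_of_nonneg_left h2 (by positivity)
    set f : (S → Fin L) → ℝ := fun t => ((pk (k + 1) (perturb S t)).card : ℝ) with hf
    set μ : ℝ := (∑ t, f t) / (Fintype.card (Fin L) : ℝ) ^ Fintype.card S with hμ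
    have hμa : c1 * a ≤ μ := by
      rw [hμ, Fintype.card_fin, Fintype.card_coe, le_div_iff₀ (by positivity)]
      have h1 : (L : ℝ) ^ S.card * (c0 / 2 * a) ≤ (L : ℝ) ^ (k + 1) * ∑ t, f t := by
        refine le_trans (mul_le_mul_of_nonneg_left ?_ (by positivity)) hmean
        linarith
      have h2 : c1 * a * (L : ℝ) ^ S.card * (L : ℝ) ^ (k + 1) =
          (L : ℝ) ^ S.card * (c0 / 2 * a) := by
        rw [hc1]
        field_simp
      have h3 : c1 * a * (L : ℝ) ^ S.card * (L : ℝ) ^ (k + 1) ≤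
          (∑ t, f t) * (L : ℝ) ^ (k + 1) := by rw [h2]; linarith
      exact le_of_mul_le_mul_right h3 (by positivity)
    have hdiff : ∀ (t : S → Fin L) (s : S) (v : Fin L),
        |f (Function.update t s v) - f t| ≤ (k + 1) * n ^ k := by
      refine abs_of_two f (fun _ => (k + 1) * n ^ k) (fun t s v => ?_)
      have h1 := diff_k (k := k) t s v
      have h2 : ((pk (k + 1) (perturb S (Function.update t s v))).card : ℝ) ≤
        (pk (k + 1) (perturb S t)).card + (k + 1) * (S.card : ℝ) ^ k := by exact_mod_cast h1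
      exact h2
    have hlow := BDiff.lower (fun _ : S => (k + 1) * n ^ k) f (fun _ => by positivity) hdiff
      (n * ((k + 1) * n ^ k) ^ 2) (c1 / 2 * a) (by positivity) (by
        rw [sum_const, card_univ, Fintype.card_coe, nsmul_eq_mul]) (by positivity)
    rw [← hμ, Fintype.card_fin, Fintype.card_coe] at hlow
    have hsub : (univ.filter fun t : S → Fin L => f t < c * a) ⊆
        univ.filter fun t : S → Fin L => f t ≤ μ - c1 / 2 * a := by
      intro t ht
      have h1 := (mem_filter.1 ht).2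
      refine mem_filter.2 ⟨mem_univ _, ?_⟩
      have h2 : c * a ≤ c1 / 2 * a := mul_le_mul_of_nonneg_right hca ha0.le
      have h3 : c1 / 2 * a = c1 * a - c1 / 2 * a := by ring
      linarith
    have hcard : ((univ.filter fun t : S → Fin L => f t < c * a).card : ℝ) ≤
        ((univ.filter fun t : S → Fin L => f t ≤ μ - c1 / 2 * a).card : ℝ) := by
      exact_mod_cast card_le_card hsub
    refine (hcard.trans hlow).trans (mul_le_mul_of_nonneg_right ?_ (by positivity))
    apply Real.exp_le_exp.mpr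
    rw [neg_le_neg_iff]
    have ha2 : a ^ 2 = n ^ (1 - 2 * ε) * (n * (n ^ k) ^ 2) := by
      have h1 : a ^ 2 = n ^ ((((k + 1 : ℕ) : ℝ) - ε) + (((k + 1 : ℕ) : ℝ) - ε)) := by
        rw [sq, ha, ← Real.rpow_add hn0]
      have h2 : n * (n ^ k) ^ 2 = n ^ ((2 * k + 1 : ℕ) : ℝ) := by
        rw [Real.rpow_natCast]
        ring
      rw [h1, h2, ← Real.rpow_add hn0]
      congr 1
      push_cast
      ring
    rw [le_div_iff₀ (by positivity)]
    have h4 : c * n ^ (1 - 2 * ε) * (2 * (n * ((k + 1) * n ^ k) ^ 2)) =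
        c * (8 * (k + 1) ^ 2) / 4 * a ^ 2 := by
      rw [ha2]
      ring
    have h5 : c * (8 * (k + 1) ^ 2) ≤ c1 ^ 2 := by
      rw [le_div_iff₀ (by positivity)] at hcb
      exact hcb
    rw [h4]
    have h6 : c * (8 * (k + 1) ^ 2) / 4 * a ^ 2 ≤ c1 ^ 2 / 4 * a ^ 2 :=
      mul_le_mul_of_nonneg_right (by linarith) (by positivity)
    linarith
  · -- few elements
    push Not at hbig
    have h1 : n ^ (1 / 2 : ℝ) ≤ n ^ (1 - ε) := Real.rpow_le_rpow_of_exponent_le hn1 (by linarith)
    have h2 : n ≤ B ^ 2 := by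
      have h3 : n = (n ^ (1 / 2 : ℝ)) ^ 2 := by
        rw [← Real.rpow_natCast, ← Real.rpow_mul hn0.le]
        norm_num
      rw [h3]
      exact pow_le_pow_left₀ (by positivity) (h1.trans hbig.le) 2
    have h3 : n ^ (((k + 1 : ℕ) : ℝ) - ε) ≤ B ^ (2 * (k + 1)) := by
      calc n ^ (((k + 1 : ℕ) : ℝ) - ε) ≤ n ^ (((k + 1 : ℕ) : ℝ)) :=
            Real.rpow_le_rpow_of_exponent_le hn1 (by linarith)
        _ = n ^ (k + 1) := Real.rpow_natCast _ _
        _ ≤ (B ^ 2) ^ (k + 1) := pow_le_pow_left₀ hn0.le h2 _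
        _ = B ^ (2 * (k + 1)) := by rw [← pow_mul]
    have h4 : c * n ^ (((k + 1 : ℕ) : ℝ) - ε) ≤ 1 := by
      calc c * n ^ (((k + 1 : ℕ) : ℝ) - ε) ≤ (B ^ (2 * (k + 1)))⁻¹ * B ^ (2 * (k + 1)) :=
            mul_le_mul hcc h3 (by positivity) (by positivity)
        _ = 1 := inv_mul_cancel₀ (by positivity)
    have h5 : (univ.filter fun t : S → Fin L =>
        ((pk (k + 1) (perturb S t)).card : ℝ) < c * n ^ (((k + 1 : ℕ) : ℝ) - ε)) = ∅ := by
      rw [filter_eq_empty_iff]
      intro t _ ht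
      have h6 : (1 : ℝ) ≤ ((pk (k + 1) (perturb S t)).card : ℝ) := by
        have h7 : (pk (k + 1) (perturb S t)).Nonempty := by
          obtain ⟨s, hs⟩ := hS
          exact ⟨_, (mem_pk_perturb t _).2 ⟨fun _ => ⟨s, hs⟩, rfl⟩⟩
        exact_mod_cast card_pos.2 h7
      linarith
    rw [h5, card_empty]
    push_cast
    positivity

/-! ### Two sets -/

theorem mem_mul_perturb {S R : Finset ℤ} {L : ℕ} (t : S → Fin L) (u : R → Fin L) (x : ℤ) :
    x ∈ perturb S t * perturb R u ↔
      ∃ (s : S) (r : R), ((s : ℤ) + ((t s : ℕ) : ℤ)) * ((r : ℤ) + ((u r : ℕ) : ℤ)) = x := by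
  rw [mem_mul]
  constructor
  · rintro ⟨a, ha, b, hb, rfl⟩
    obtain ⟨s, -, rfl⟩ := mem_image.1 ha
    obtain ⟨r, -, rfl⟩ := mem_image.1 hb
    exact ⟨s, r, rfl⟩
  · rintro ⟨s, r, rfl⟩
    exact ⟨_, mem_image.2 ⟨s, mem_univ _, rfl⟩, _, mem_image.2 ⟨r, mem_univ _, rfl⟩, rfl⟩

/-- the number of products for perturbations of both sets -/
noncomputable def F2 (S R : Finset ℤ) (L : ℕ) (w : S ⊕ R → Fin L) : ℝ :=
  ((perturb S (fun s => w (Sum.inl s)) * perturb R (fun r => w (Sum.inr r))).card : ℝ)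

theorem diff_two (S R : Finset ℤ) (L : ℕ) (w : S ⊕ R → Fin L) (i : S ⊕ R) (v : Fin L) :
    F2 S R L (Function.update w i v) ≤ F2 S R L w + Sum.elim (fun _ => (R.card : ℝ))
      (fun _ => (S.card : ℝ)) i := by
  classical
  unfold F2
  rcases i with s | r
  · have h1 : perturb S (fun x => Function.update w (Sum.inl s) v (Sum.inl x)) *
        perturb R (fun x => Function.update w (Sum.inl s) v (Sum.inr x)) ⊆
        (perturb S (fun x => w (Sum.inl x)) * perturb R (fun x => w (Sum.inr x))) ∪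
        univ.image fun r : R => ((s : ℤ) + ((v : ℕ) : ℤ)) * ((r : ℤ) + ((w (Sum.inr r) : ℕ) : ℤ)) := by
      intro x hx
      obtain ⟨s', r', h⟩ := (mem_mul_perturb _ _ _).1 hx
      rw [mem_union]
      by_cases hs : s' = s
      · subst hs
        right
        refine mem_image.2 ⟨r', mem_univ _, ?_⟩
        rw [← h]
        simp
      · left
        refine (mem_mul_perturb _ _ _).2 ⟨s', r', ?_⟩
        rw [← h]
        have h2 : (Sum.inl s' : S ⊕ R) ≠ Sum.inl s := fun h => hs (Sum.inl_injective h)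
        rw [Function.update_of_ne h2]
        simp
    have h2 := (card_le_card h1).trans ((card_union_le _ _).trans
      (Nat.add_le_add_left card_image_le _))
    rw [card_univ, Fintype.card_coe] at h2
    simp only [Sum.elim_inl]
    exact_mod_cast h2
  · have h1 : perturb S (fun x => Function.update w (Sum.inr r) v (Sum.inl x)) *
        perturb R (fun x => Function.update w (Sum.inr r) v (Sum.inr x)) ⊆
        (perturb S (fun x => w (Sum.inl x)) * perturb R (fun x => w (Sum.inr x))) ∪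
        univ.image fun s : S => ((s : ℤ) + ((w (Sum.inl s) : ℕ) : ℤ)) * ((r : ℤ) + ((v : ℕ) : ℤ)) := by
      intro x hx
      obtain ⟨s', r', h⟩ := (mem_mul_perturb _ _ _).1 hx
      rw [mem_union]
      by_cases hs : r' = r
      · subst hs
        right
        refine mem_image.2 ⟨s', mem_univ _, ?_⟩
        rw [← h]
        simp
      · left
        refine (mem_mul_perturb _ _ _).2 ⟨s', r', ?_⟩
        rw [← h]
        have h2 : (Sum.inr r' : S ⊕ R) ≠ Sum.inr r := fun h => hs (Sum.inr_injective h)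
        rw [Function.update_of_ne h2]
        simp
    have h2 := (card_le_card h1).trans ((card_union_le _ _).trans
      (Nat.add_le_add_left card_image_le _))
    rw [card_univ, Fintype.card_coe] at h2
    simp only [Sum.elim_inr]
    exact_mod_cast h2

theorem mean_two (S R : Finset ℤ) (L : ℕ) :
    (L : ℝ) ^ (S.card + R.card) * ((thick S L * thick R L).card : ℝ) ≤
      (L : ℝ) ^ 2 * ∑ w : S ⊕ R → Fin L, F2 S R L w := by
  classical
  have h1 := mean_ge (fun w : S ⊕ R → Fin L =>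
      perturb S (fun s => w (Sum.inl s)) * perturb R (fun r => w (Sum.inr r)))
    (thick S L * thick R L) ((L : ℝ) ^ 2) ((L : ℝ) ^ (S.card + R.card)) (by positivity) (by
      intro x hx
      obtain ⟨a, ha, b, hb, rfl⟩ := mem_mul.1 hx
      obtain ⟨⟨s, i⟩, hs, rfl⟩ := mem_image.1 ha
      obtain ⟨⟨r, j⟩, hr, rfl⟩ := mem_image.1 hb
      rw [mem_product, mem_range] at hs hr
      have hinj : Function.Injective (![Sum.inl ⟨s, hs.1⟩, Sum.inr ⟨r, hr.1⟩] : Fin 2 → S ⊕ R) := by
        intro x y hxy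
        fin_cases x <;> fin_cases y <;> simp at hxy ⊢
      have h2 := prescribed (![Sum.inl ⟨s, hs.1⟩, Sum.inr ⟨r, hr.1⟩] : Fin 2 → S ⊕ R) hinj
        ![(⟨i, hs.2⟩ : Fin L), ⟨j, hr.2⟩]
      rw [Fintype.card_fin, Fintype.card_sum, Fintype.card_coe, Fintype.card_coe] at h2
      refine h2.trans (mul_le_mul_of_nonneg_left ?_ (by positivity))
      have h3 : (univ.filter fun w : S ⊕ R → Fin L => ∀ q : Fin 2,
          w ((![Sum.inl ⟨s, hs.1⟩, Sum.inr ⟨r, hr.1⟩] : Fin 2 → S ⊕ R) q) =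
            (![(⟨i, hs.2⟩ : Fin L), ⟨j, hr.2⟩] : Fin 2 → Fin L) q) ⊆
          univ.filter fun w : S ⊕ R → Fin L => (s + (i : ℤ)) * (r + (j : ℤ)) ∈
            perturb S (fun s => w (Sum.inl s)) * perturb R (fun r => w (Sum.inr r)) := by
        intro w hw
        have h4 := (mem_filter.1 hw).2
        refine mem_filter.2 ⟨mem_univ _, (mem_mul_perturb _ _ _).2 ⟨⟨s, hs.1⟩, ⟨r, hr.1⟩, ?_⟩⟩
        have h5 : w (Sum.inl ⟨s, hs.1⟩) = ⟨i, hs.2⟩ := h4 0
        have h6 : w (Sum.inr ⟨r, hr.1⟩) = ⟨j, hr.2⟩ := h4 1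
        rw [h5, h6]
      exact_mod_cast card_le_card h3)
  exact h1

/-- **Products of random bounded perturbations of two sets.** -/
theorem two (ε : ℝ) (hε : 0 < ε) (hε1 : ε ≤ 1 / 2) :
    ∃ (L : ℕ) (c : ℝ), 1 ≤ L ∧ 0 < c ∧ ∀ S R : Finset ℤ, S.Nonempty → R.Nonempty →
      ((univ.filter fun w : S ⊕ R → Fin L => F2 S R L w <
          c * ((S.card : ℝ) * R.card) ^ (1 - ε)).card : ℝ) ≤
      Real.exp (-(c * min (S.card : ℝ) R.card * ((S.card : ℝ) * R.card) ^ (-(2 * ε)))) *
        (L : ℝ) ^ (S.card + R.card) := by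
  classical
  obtain ⟨L, c0, hL, hc0, hruns⟩ := pair_runs ε hε (by linarith)
  have hLr : (0 : ℝ) < L := by exact_mod_cast hL
  have : Nonempty (Fin L) := ⟨⟨0, hL⟩⟩
  set c1 : ℝ := c0 / (L : ℝ) ^ 2 with hc1
  have hc1p : 0 < c1 := by positivity
  set c : ℝ := min (c1 / 2) (c1 ^ 2 / 16) with hc
  have hcp : 0 < c := lt_min (by positivity) (by positivity)
  have hca : c ≤ c1 / 2 := min_le_left _ _
  have hcb : c ≤ c1 ^ 2 / 16 := min_le_right _ _
  refine ⟨L, c, hL, hcp, fun S R hS hR => ?_⟩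
  set n : ℝ := (S.card : ℝ) with hn
  set m : ℝ := (R.card : ℝ) with hm
  have hn1 : 1 ≤ n := by rw [hn]; exact_mod_cast card_pos.2 hS
  have hm1 : 1 ≤ m := by rw [hm]; exact_mod_cast card_pos.2 hR
  have hn0 : 0 < n := by linarith
  have hm0 : 0 < m := by linarith
  have hsub : ∀ T : Finset ℤ, T ⊆ thick T L := by
    intro T s hs
    exact mem_image.2 ⟨(s, 0), mem_product.2 ⟨hs, mem_range.2 hL⟩, by simp⟩
  set a : ℝ := (n * m) ^ (1 - ε) with ha
  have ha0 : 0 < a := Real.rpow_pos_of_pos (by positivity) _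
  have hthick : c0 * a ≤ ((thick S L * thick R L).card : ℝ) := by
    have h1 := hruns (thick S L) (thick R L) (hS.mono (hsub S)) (hR.mono (hsub R))
      (run_of_shift S L) (run_of_shift R L)
    refine le_trans ?_ h1
    refine mul_le_mul_of_nonneg_left ?_ hc0.le
    refine Real.rpow_le_rpow (by positivity) ?_ (by linarith)
    refine mul_le_mul ?_ ?_ (by positivity) (by positivity)
    · rw [hn]; exact_mod_cast card_le_card (hsub S)
    · rw [hm]; exact_mod_cast card_le_card (hsub R)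
  have hmean := mean_two S R L
  set μ : ℝ := (∑ w, F2 S R L w) / (Fintype.card (Fin L) : ℝ) ^ Fintype.card (S ⊕ R) with hμ
  have hμa : c1 * a ≤ μ := by
    rw [hμ, Fintype.card_fin, Fintype.card_sum, Fintype.card_coe, Fintype.card_coe,
      le_div_iff₀ (by positivity)]
    have h1 : (L : ℝ) ^ (S.card + R.card) * (c0 * a) ≤ (L : ℝ) ^ 2 * ∑ w, F2 S R L w :=
      le_trans (mul_le_mul_of_nonneg_left hthick (by positivity)) hmean
    have h2 : c1 * a * (L : ℝ) ^ (S.card + R.card) * (L : ℝ) ^ 2 =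
        (L : ℝ) ^ (S.card + R.card) * (c0 * a) := by
      rw [hc1]
      field_simp
    have h3 : c1 * a * (L : ℝ) ^ (S.card + R.card) * (L : ℝ) ^ 2 ≤
        (∑ w, F2 S R L w) * (L : ℝ) ^ 2 := by rw [h2]; linarith
    exact le_of_mul_le_mul_right h3 (by positivity)
  have hdiff := abs_of_two (F2 S R L) (Sum.elim (fun _ => m) (fun _ => n)) (diff_two S R L)
  have hlow := BDiff.lower (Sum.elim (fun _ : S => m) (fun _ : R => n)) (F2 S R L)
    (by rintro (i | i) <;> simp <;> assumption) hdiff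
    (n * m * (n + m)) (c1 / 2 * a) (by positivity) (by
      rw [Fintype.sum_sum_type]
      simp only [Sum.elim_inl, Sum.elim_inr]
      rw [sum_const, sum_const, card_univ, card_univ, Fintype.card_coe, Fintype.card_coe,
        nsmul_eq_mul, nsmul_eq_mul, ← hn, ← hm]
      apply le_of_eq
      ring) (by positivity)
  rw [← hμ, Fintype.card_fin, Fintype.card_sum, Fintype.card_coe, Fintype.card_coe] at hlow
  have hsub2 : (univ.filter fun w : S ⊕ R → Fin L => F2 S R L w < c * a) ⊆
      univ.filter fun w : S ⊕ R → Fin L => F2 S R L w ≤ μ - c1 / 2 * a := by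
    intro t ht
    have h1 := (mem_filter.1 ht).2
    refine mem_filter.2 ⟨mem_univ _, ?_⟩
    have h2 : c * a ≤ c1 / 2 * a := mul_le_mul_of_nonneg_right hca ha0.le
    have h3 : c1 / 2 * a = c1 * a - c1 / 2 * a := by ring
    linarith
  have hcard : ((univ.filter fun w : S ⊕ R → Fin L => F2 S R L w < c * a).card : ℝ) ≤
      ((univ.filter fun w : S ⊕ R → Fin L => F2 S R L w ≤ μ - c1 / 2 * a).card : ℝ) := by
    exact_mod_cast card_le_card hsub2
  refine (hcard.trans hlow).trans (mul_le_mul_of_nonneg_right ?_ (by positivity))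
  apply Real.exp_le_exp.mpr
  rw [neg_le_neg_iff]
  set b : ℝ := (n * m) ^ (-(2 * ε)) with hb
  have hb0 : 0 < b := Real.rpow_pos_of_pos (by positivity) _
  have ha2 : a ^ 2 = b * (n * m) ^ 2 := by
    have h2 : (n * m) ^ 2 = (n * m) ^ ((2 : ℕ) : ℝ) := (Real.rpow_natCast _ _).symm
    rw [h2, sq, ha, hb, ← Real.rpow_add (by positivity), ← Real.rpow_add (by positivity)]
    congr 1
    push_cast
    ring
  rw [le_div_iff₀ (by positivity)]
  have h3 : (c1 / 2 * a) ^ 2 = c1 ^ 2 / 4 * (b * (n * m) ^ 2) := by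
    rw [mul_pow, ha2]; ring
  rw [h3]
  have h4 : min n m * (n + m) ≤ 2 * (n * m) := by
    rcases le_total n m with h | h
    · rw [min_eq_left h]; nlinarith
    · rw [min_eq_right h]; nlinarith
  have h5 : c * min n m * b * (2 * (n * m * (n + m))) = c * (2 * b * (n * m)) * (min n m * (n + m)) := by
    ring
  rw [h5]
  have h6 : c * (2 * b * (n * m)) * (min n m * (n + m)) ≤
      c * (2 * b * (n * m)) * (2 * (n * m)) := mul_le_mul_of_nonneg_left h4 (by positivity)
  have h7 : c * (2 * b * (n * m)) * (2 * (n * m)) = 4 * c * (b * (n * m) ^ 2) := by ring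
  have h8 : 4 * c * (b * (n * m) ^ 2) ≤ c1 ^ 2 / 4 * (b * (n * m) ^ 2) :=
    mul_le_mul_of_nonneg_right (by linarith) (by positivity)
  linarith

end Pool.Agent.V1181.Smooth
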