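import Mathlib

/-!
# The logarithm of the stretch tensor
-/

set_option autoImplicit false

namespace Pool.Agent.V1181.LogStretch

open Matrix Polynomial
open scoped Matrix

noncomputable section

/-- Real `3 × 3` matrices. -/
abbrev M3 := Matrix (Fin 3) (Fin 3) ℝ

/-- `L` is the symmetric logarithm of the positive definite square root `U` of `Fᵀ F`. -/
def IsLogU (F L : M3) : Prop :=
  ∃ U : M3, U.PosDef ∧ U * U = Fᵀ * F ∧ L.IsSymm ∧ NormedSpace.exp L = U

/-- `log U`, where `U = √(Fᵀ F)`. -/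
def logU (F : M3) : M3 := Classical.epsilon (IsLogU F)

/-- The deviator `dev₃ X = X - (tr X / 3) 1`. -/
def dev (X : M3) : M3 := X - (1 / 3 * X.trace) • (1 : M3)

/-- `K F = ‖dev₃ log U‖²` for the Frobenius norm. -/
def K (F : M3) : ℝ := (dev (logU F) * (dev (logU F))ᵀ).trace

theorem spectral (A : M3) (hA : A.IsHermitian) : ∃ V : M3, Vᵀ * V = 1 ∧ V * Vᵀ = 1 ∧
    A = V * diagonal hA.eigenvalues * Vᵀ := by
  refine ⟨(hA.eigenvectorUnitary : M3), ?_, ?_, ?_⟩
  · have := Unitary.coe_star_mul_self hA.eigenvectorUnitary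
    rwa [star_eq_conjTranspose, conjTranspose_eq_transpose_of_trivial] at this
  · have := Unitary.coe_mul_star_self hA.eigenvectorUnitary
    rwa [Unitary.coe_star, star_eq_conjTranspose, conjTranspose_eq_transpose_of_trivial] at this
  · have := hA.spectral_theorem
    rw [Unitary.conjStarAlgAut_apply] at this
    conv_lhs => rw [this]
    rw [star_eq_conjTranspose, conjTranspose_eq_transpose_of_trivial]
    rfl

theorem exp_conj_diag {V : M3} (h1 : Vᵀ * V = 1) (h2 : V * Vᵀ = 1) (v : Fin 3 → ℝ) :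
    NormedSpace.exp (V * diagonal v * Vᵀ) = V * diagonal (fun i => Real.exp (v i)) * Vᵀ := by
  have hinv : V⁻¹ = Vᵀ := Matrix.inv_eq_right_inv h2
  have hu : IsUnit V := ⟨⟨V, Vᵀ, h2, h1⟩, rfl⟩
  rw [← hinv, Matrix.exp_conj V _ hu, Matrix.exp_diagonal]
  congr 2
  congr 1
  funext i
  rw [Pi.coe_exp, Real.exp_eq_exp_ℝ]

theorem exists_logU {F : M3} (hF : F.det ≠ 0) : ∃ L, IsLogU F L := by
  have hA : (Fᵀ * F).PosDef := by
    have hu : IsUnit F := (Matrix.isUnit_iff_isUnit_det F).mpr (isUnit_iff_ne_zero.mpr hF)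
    have h1 := Matrix.PosDef.one (n := Fin 3) (R := ℝ)
    have h2 := h1.conjTranspose_mul_mul_same (B := F) (Matrix.mulVec_injective_of_isUnit hu)
    simpa [conjTranspose_eq_transpose_of_trivial] using h2
  have hH : (Fᵀ * F).IsHermitian := hA.1
  obtain ⟨V, h1, h2, h3⟩ := spectral _ hH
  have hpos : ∀ i, 0 < hH.eigenvalues i := hA.eigenvalues_pos
  refine ⟨V * diagonal (fun i => 1 / 2 * Real.log (hH.eigenvalues i)) * Vᵀ,
    V * diagonal (fun i => Real.exp (1 / 2 * Real.log (hH.eigenvalues i))) * Vᵀ, ?_, ?_, ?_, ?_⟩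
  · have hd : (diagonal (fun i => Real.exp (1 / 2 * Real.log (hH.eigenvalues i)))).PosDef := by
      rw [Matrix.posDef_diagonal_iff]
      exact fun i => Real.exp_pos _
    have hu : IsUnit Vᵀ := ⟨⟨Vᵀ, V, h1, h2⟩, rfl⟩
    have h4 := hd.conjTranspose_mul_mul_same (B := Vᵀ) (Matrix.mulVec_injective_of_isUnit hu)
    simpa [conjTranspose_eq_transpose_of_trivial] using h4
  · conv_rhs => rw [h3]
    have e : V * diagonal (fun i => Real.exp (1 / 2 * Real.log (hH.eigenvalues i))) * Vᵀ *
        (V * diagonal (fun i => Real.exp (1 / 2 * Real.log (hH.eigenvalues i))) * Vᵀ)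
        = V * diagonal (fun i => Real.exp (1 / 2 * Real.log (hH.eigenvalues i))) * (Vᵀ * V) *
        diagonal (fun i => Real.exp (1 / 2 * Real.log (hH.eigenvalues i))) * Vᵀ := by
      simp only [Matrix.mul_assoc]
    rw [e, h1, Matrix.mul_one, Matrix.mul_assoc V, diagonal_mul_diagonal]
    congr 2
    congr 1
    funext i
    rw [← Real.exp_add, ← two_mul, ← mul_assoc]
    norm_num
    rw [Real.exp_log (hpos i)]
  · rw [Matrix.IsSymm, Matrix.transpose_mul, Matrix.transpose_mul, Matrix.transpose_transpose,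
      diagonal_transpose, Matrix.mul_assoc]
  · exact exp_conj_diag h1 h2 _

theorem logU_spec {F : M3} (hF : F.det ≠ 0) : IsLogU F (logU F) :=
  Classical.epsilon_spec (exists_logU hF)

/-- The squared norm of the deviator in terms of the eigenvalues. -/
theorem K_eigen {F : M3} (hF : F.det ≠ 0) : ∃ l : Fin 3 → ℝ,
    (Fᵀ * F).charpoly = ∏ i, (X - C (Real.exp (2 * l i))) ∧
    K F = ∑ i, l i ^ 2 - 1 / 3 * (∑ i, l i) ^ 2 := by
  obtain ⟨U, _, hU2, hL, hexp⟩ := logU_spec hF
  have hH : (logU F).IsHermitian := by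
    rw [Matrix.IsHermitian, conjTranspose_eq_transpose_of_trivial]; exact hL
  obtain ⟨V, h1, h2, h3⟩ := spectral _ hH
  set l := hH.eigenvalues
  refine ⟨l, ?_, ?_⟩
  · have e1 : Fᵀ * F = V * diagonal (fun i => Real.exp (2 * l i)) * Vᵀ := by
      rw [← hU2, ← hexp]
      conv_lhs => rw [h3, exp_conj_diag h1 h2]
      have e : V * diagonal (fun i => Real.exp (l i)) * Vᵀ *
          (V * diagonal (fun i => Real.exp (l i)) * Vᵀ)
          = V * diagonal (fun i => Real.exp (l i)) * (Vᵀ * V) *
          diagonal (fun i => Real.exp (l i)) * Vᵀ := by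
        simp only [Matrix.mul_assoc]
      rw [e, h1, Matrix.mul_one, Matrix.mul_assoc V, diagonal_mul_diagonal]
      congr 2
      congr 1
      funext i
      rw [← Real.exp_add, ← two_mul]
    rw [e1, Matrix.charpoly_mul_comm, ← Matrix.mul_assoc, h1, Matrix.one_mul,
      Matrix.charpoly_diagonal]
  · have hdev : dev (logU F) = V * diagonal (fun i => l i - 1 / 3 * ∑ j, l j) * Vᵀ := by
      have htr : (logU F).trace = ∑ j, l j := by
        conv_lhs => rw [h3]
        rw [Matrix.trace_mul_comm, ← Matrix.mul_assoc, h1, Matrix.one_mul, Matrix.trace_diagonal]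
      have hone : (1 : M3) = V * 1 * Vᵀ := by rw [Matrix.mul_one, h2]
      rw [dev, htr]
      conv_lhs => rw [h3, hone]
      have hdiag : diagonal (fun i => l i - 1 / 3 * ∑ j, l j)
          = diagonal l - (1 / 3 * ∑ j, l j) • (1 : M3) := by
        ext i j
        by_cases hij : i = j
        · subst hij; simp
        · simp [hij]
      rw [hdiag, Matrix.mul_sub, Matrix.sub_mul, Matrix.mul_smul, Matrix.smul_mul]
    rw [K, hdev, Matrix.transpose_mul, Matrix.transpose_mul, Matrix.transpose_transpose,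
      diagonal_transpose]
    have e : V * diagonal (fun i => l i - 1 / 3 * ∑ j, l j) * Vᵀ *
        (V * (diagonal (fun i => l i - 1 / 3 * ∑ j, l j) * Vᵀ))
        = V * (diagonal (fun i => l i - 1 / 3 * ∑ j, l j) * (Vᵀ * V) *
        (diagonal (fun i => l i - 1 / 3 * ∑ j, l j))) * Vᵀ := by
      simp only [Matrix.mul_assoc]
    rw [e, h1, Matrix.mul_one, diagonal_mul_diagonal, Matrix.trace_mul_comm, ← Matrix.mul_assoc,
      h1, Matrix.one_mul, Matrix.trace_diagonal]
    simp only [Fin.sum_univ_three]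
    ring

/-- `K F` from a factorization of the characteristic polynomial of `Fᵀ F`. -/
theorem K_of_charpoly {F : M3} (hF : F.det ≠ 0) (m : Fin 3 → ℝ)
    (h : (Fᵀ * F).charpoly = ∏ i, (X - C (Real.exp (2 * m i)))) :
    K F = ∑ i, m i ^ 2 - 1 / 3 * (∑ i, m i) ^ 2 := by
  obtain ⟨l, hl, hK⟩ := K_eigen hF
  have hroots : Multiset.map (fun i => Real.exp (2 * l i)) Finset.univ.val
      = Multiset.map (fun i => Real.exp (2 * m i)) Finset.univ.val := by
    have e1 : ∀ v : Fin 3 → ℝ, (∏ i, (X - C (Real.exp (2 * v i)))).roots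
        = Multiset.map (fun i => Real.exp (2 * v i)) Finset.univ.val := by
      intro v
      rw [Polynomial.roots_prod]
      · simp
      · simp [Finset.prod_ne_zero_iff, Polynomial.X_sub_C_ne_zero]
    rw [← e1 l, ← e1 m, ← hl, ← h]
  have hmap : Multiset.map l Finset.univ.val = Multiset.map m Finset.univ.val := by
    have h2 := congrArg (Multiset.map fun x : ℝ => 1 / 2 * Real.log x) hroots
    simp only [Multiset.map_map, Function.comp_def, Real.log_exp] at h2
    have e : ∀ v : Fin 3 → ℝ, (fun x => 1 / 2 * (2 * v x)) = v := by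
      intro v; funext x; ring
    rwa [e, e] at h2
  have hsum : ∑ i, l i = ∑ i, m i := by
    have := congrArg Multiset.sum hmap
    exact this
  have hsq : ∑ i, l i ^ 2 = ∑ i, m i ^ 2 := by
    have h2 := congrArg (fun s => (Multiset.map (fun x : ℝ => x ^ 2) s).sum) hmap
    simp only [Multiset.map_map, Function.comp_def] at h2
    exact h2
  rw [hK, hsum, hsq]

end

end Pool.Agent.V1181.LogStretch
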