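import Mathlib
import Pool.Agent.V1181.DBd
set_option autoImplicit false

/-! Short random translations of separated blocks. -/

namespace Pool.Agent.V1181.DB

open MeasureTheory Finset Complex
open scoped ENNReal

lemma summable_h : Summable fun d : ℤ => 16 / (1 + (d : ℝ) ^ 2) := by
  have hnat : Summable fun n : ℕ => 16 / (1 + (n : ℝ) ^ 2) := by
    have h1 : Summable fun n : ℕ => 32 * (1 / ((n + 1 : ℕ) : ℝ) ^ 2) :=
      ((summable_nat_add_iff 1).2 (Real.summable_one_div_nat_pow.2 (by norm_num : 1 < 2))).mul_left 32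
    refine Summable.of_nonneg_of_le (fun n => by positivity) (fun n => ?_) h1
    push_cast
    rw [mul_one_div, div_le_div_iff₀ (by positivity) (by positivity)]
    nlinarith [sq_nonneg ((n : ℝ) - 1)]
  apply Summable.of_nat_of_neg
  · exact hnat
  · simpa using hnat

/-- the constant -/
noncomputable def K1 : ℝ := ∑' d : ℤ, 16 / (1 + (d : ℝ) ^ 2)

lemma K1_pos : 0 < K1 := by
  unfold K1
  exact summable_h.tsum_pos (fun d => by positivity) 0 (by positivity)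

/-- separated sets -/
def Sep (d : ℕ) (F : Finset ℕ) : Prop := ∀ m ∈ F, ∀ n ∈ F, m < n → m + d ≤ n

lemma sum_h {d : ℕ} (hd : 1 ≤ d) (F : Finset ℕ) (hF : Sep d F) (m : ℕ) :
    ∑ n ∈ F, 1 / (1 + (((m : ℝ) - n) / d) ^ 2 / 4) ≤ K1 := by
  classical
  have hd0 : (0 : ℝ) < d := by exact_mod_cast (by omega : 0 < d)
  have hinj : Set.InjOn (fun n : ℕ => ((m / d : ℕ) : ℤ) - ((n / d : ℕ) : ℤ)) (F : Set ℕ) := by
    intro a ha b hb hab
    simp only at hab
    have h1 : a / d = b / d := by omega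
    by_contra hne
    rcases Nat.lt_or_gt_of_ne hne with h | h
    · have h2 := hF a ha b hb h
      have h3 : (a + d) / d ≤ b / d := Nat.div_le_div_right h2
      rw [Nat.add_div_right _ (by omega)] at h3
      omega
    · have h2 := hF b hb a ha h
      have h3 : (b + d) / d ≤ a / d := Nat.div_le_div_right h2
      rw [Nat.add_div_right _ (by omega)] at h3
      omega
  have hfl : ∀ a : ℕ, ((a / d : ℕ) : ℝ) ≤ (a : ℝ) / d ∧ (a : ℝ) / d < ((a / d : ℕ) : ℝ) + 1 := by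
    intro a
    have h1 := Nat.div_mul_le_self a d
    have h2 := Nat.lt_succ_iff.1 (Nat.lt_succ_self a)
    have h3 : a < (a / d + 1) * d := by
      have := Nat.lt_mul_div_succ a (by omega : 0 < d)
      rw [mul_comm]
      exact this
    constructor
    · rw [le_div_iff₀ hd0]
      exact_mod_cast h1
    · rw [div_lt_iff₀ hd0]
      exact_mod_cast h3
  calc ∑ n ∈ F, 1 / (1 + (((m : ℝ) - n) / d) ^ 2 / 4)
      ≤ ∑ n ∈ F, 16 / (1 + ((((m / d : ℕ) : ℤ) - ((n / d : ℕ) : ℤ) : ℤ) : ℝ) ^ 2) := by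
        refine Finset.sum_le_sum fun n _ => ?_
        rw [Int.cast_sub, Int.cast_natCast, Int.cast_natCast]
        set k : ℝ := ((m / d : ℕ) : ℝ) - ((n / d : ℕ) : ℝ) with hk
        set x : ℝ := ((m : ℝ) - n) / d with hx
        have h1 := hfl m
        have h2 := hfl n
        have hx1 : x = (m : ℝ) / d - (n : ℝ) / d := by rw [hx]; ring
        have h3 : |k| - 1 ≤ |x| := by
          have h4 : |k - x| ≤ 1 := by
            rw [abs_le, hk, hx1]
            constructor <;> linarith [h1.1, h1.2, h2.1, h2.2]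
          have h5 : |k| ≤ |k - x| + |x| := by
            have := abs_add_le (k - x) x
            rwa [sub_add_cancel] at this
          linarith
        rw [div_le_div_iff₀ (by positivity) (by positivity)]
        have h6 : (|k|) ^ 2 = k ^ 2 := sq_abs k
        have h7 : (|x|) ^ 2 = x ^ 2 := sq_abs x
        have h8 : 0 ≤ |k| := abs_nonneg k
        have h9 : 0 ≤ |x| := abs_nonneg x
        -- `1 + k² ≤ 16 + 4 x²`
        have h10 : (|k|) ^ 2 ≤ (|x| + 1) ^ 2 := pow_le_pow_left₀ h8 (by linarith) 2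
        nlinarith [sq_nonneg (|x| - 1)]
    _ = ∑ k ∈ F.image (fun n : ℕ => ((m / d : ℕ) : ℤ) - ((n / d : ℕ) : ℤ)),
          16 / (1 + (k : ℝ) ^ 2) := by
        rw [Finset.sum_image hinj]
    _ ≤ K1 := summable_h.sum_le_tsum _ fun k _ => by positivity

/-- mean value theorem for separated sets and laws with Fourier decay -/
lemma mvt2 {N d : ℕ} (hN : 1 ≤ N) (hd : 1 ≤ d) {B Y : ℝ} (hB : 0 ≤ B) (hY : (N : ℝ) / d ≤ Y)
    (F : Finset ℕ) (hF : F ⊆ Icc N (2 * N)) (hS : Sep d F) (c : ℕ → ℂ) (ρ : Measure ℝ)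
    [IsProbabilityMeasure ρ]
    (hρ : ∀ θ : ℝ, ‖∫ v, cexp (I * (θ : ℂ) * (v : ℂ)) ∂ρ‖ ≤ B / (1 + (Y * θ) ^ 2)) (t : ℝ) :
    ∫ v, ‖∑ n ∈ F, c n * ph (t + v) n‖ ^ 2 ∂ρ ≤ B * K1 * ∑ n ∈ F, ‖c n‖ ^ 2 := by
  have hN0 : (0 : ℝ) < N := by exact_mod_cast (by omega : 0 < N)
  have hd0 : (0 : ℝ) < d := by exact_mod_cast (by omega : 0 < d)
  set c' : ℕ → ℂ := fun n => c n * ph t n with hc'
  have hSS : ∀ v, ∑ n ∈ F, c n * ph (t + v) n = ∑ n ∈ F, c' n * ph v n := by
    intro v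
    refine Finset.sum_congr rfl fun n _ => ?_
    rw [ph_add, hc', mul_assoc]
  have hc'n : ∀ n, ‖c' n‖ = ‖c n‖ := by
    intro n
    simp only [hc', norm_mul, ph_norm, mul_one]
  simp only [hSS]
  set θ : ℕ → ℕ → ℝ := fun m n => Real.log m - Real.log n with hθ
  have hint : ∀ θ : ℝ, Integrable (fun v : ℝ => cexp (I * (θ : ℂ) * (v : ℂ))) ρ := by
    intro θ
    refine Integrable.of_bound (C := 1) ?_ (Filter.Eventually.of_forall fun v => ?_)
    · apply Continuous.aestronglyMeasurable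
      fun_prop
    · rw [show I * (θ : ℂ) * (v : ℂ) = ((θ * v : ℝ) : ℂ) * I by push_cast; ring,
        Complex.norm_exp_ofReal_mul_I]
  have h1 : ∀ v : ℝ, ((‖∑ n ∈ F, c' n * ph v n‖ ^ 2 : ℝ) : ℂ) =
      ∑ m ∈ F, ∑ n ∈ F, (c' m * (starRingEnd ℂ) (c' n)) *
        cexp (I * (θ m n : ℂ) * (v : ℂ)) := by
    intro v
    rw [Complex.ofReal_pow, ← Complex.mul_conj', map_sum, Finset.sum_mul_sum]
    refine Finset.sum_congr rfl fun m _ => ?_
    refine Finset.sum_congr rfl fun n _ => ?_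
    rw [map_mul]
    have h2 := ph_mul_conj v m n
    simp only [hθ]
    rw [← h2]
    ring
  have h2 : ((∫ v : ℝ, ‖∑ n ∈ F, c' n * ph v n‖ ^ 2 ∂ρ : ℝ) : ℂ) =
      ∑ m ∈ F, ∑ n ∈ F, (c' m * (starRingEnd ℂ) (c' n)) *
        ∫ v : ℝ, cexp (I * (θ m n : ℂ) * (v : ℂ)) ∂ρ := by
    rw [← integral_complex_ofReal]
    simp only [h1]
    rw [integral_finsetSum]
    · refine Finset.sum_congr rfl fun m _ => ?_
      rw [integral_finsetSum]
      · refine Finset.sum_congr rfl fun n _ => ?_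
        rw [integral_const_mul]
      · intro n _
        exact (hint _).const_mul _
    · intro m _
      exact integrable_finsetSum _ fun n _ => (hint _).const_mul _
  have h3 : ∫ v : ℝ, ‖∑ n ∈ F, c' n * ph v n‖ ^ 2 ∂ρ ≤
      ‖∑ m ∈ F, ∑ n ∈ F, (c' m * (starRingEnd ℂ) (c' n)) *
        ∫ v : ℝ, cexp (I * (θ m n : ℂ) * (v : ℂ)) ∂ρ‖ := by
    rw [← h2, Complex.norm_real]
    exact Real.le_norm_self _
  refine h3.trans ?_
  set w : ℕ → ℕ → ℝ := fun m n => 1 / (1 + (((m : ℝ) - n) / d) ^ 2 / 4) with hw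
  have h4 : ∀ m ∈ F, ∀ n ∈ F, ‖(c' m * (starRingEnd ℂ) (c' n)) *
        ∫ v : ℝ, cexp (I * (θ m n : ℂ) * (v : ℂ)) ∂ρ‖ ≤
      B * ((‖c m‖ ^ 2 * w m n + ‖c n‖ ^ 2 * w m n) / 2) := by
    intro m hm n hn
    rw [norm_mul, norm_mul, RCLike.norm_conj, hc'n, hc'n]
    have h6 : B / (1 + (Y * θ m n) ^ 2) ≤ B * w m n := by
      have h7 := log_gap hN (hF hm) (hF hn)
      have h8 : ((N : ℝ) / d) ^ 2 ≤ Y ^ 2 := pow_le_pow_left₀ (by positivity) hY 2
      have h10 : (((m : ℝ) - n) / d) ^ 2 / 4 =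
          ((N : ℝ) / d) ^ 2 * (((m : ℝ) - n) ^ 2 / (2 * N) ^ 2) := by
        field_simp
        ring
      have h11 : ((N : ℝ) / d) ^ 2 * (((m : ℝ) - n) ^ 2 / (2 * N) ^ 2) ≤ (Y * θ m n) ^ 2 := by
        have e9 : (Y * θ m n) ^ 2 = Y ^ 2 * (Real.log m - Real.log n) ^ 2 := by
          simp only [hθ]
          ring
        rw [e9]
        exact mul_le_mul h8 h7 (by positivity) (sq_nonneg _)
      rw [hw, mul_one_div]
      apply div_le_div_of_nonneg_left hB (by positivity)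
      rw [h10]
      linarith
    have hw0 : 0 ≤ w m n := by positivity
    calc ‖c m‖ * ‖c n‖ * ‖∫ v : ℝ, cexp (I * (θ m n : ℂ) * (v : ℂ)) ∂ρ‖
        ≤ ‖c m‖ * ‖c n‖ * (B * w m n) := by
          refine mul_le_mul_of_nonneg_left ((hρ _).trans h6) (by positivity)
      _ = B * (‖c m‖ * ‖c n‖ * w m n) := by ring
      _ ≤ _ := by
          refine mul_le_mul_of_nonneg_left ?_ hB
          nlinarith [mul_nonneg (sq_nonneg (‖c m‖ - ‖c n‖)) hw0]
  calc ‖∑ m ∈ F, ∑ n ∈ F, (c' m * (starRingEnd ℂ) (c' n)) *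
        ∫ v : ℝ, cexp (I * (θ m n : ℂ) * (v : ℂ)) ∂ρ‖
      ≤ ∑ m ∈ F, ∑ n ∈ F, B * ((‖c m‖ ^ 2 * w m n + ‖c n‖ ^ 2 * w m n) / 2) := by
        refine (norm_sum_le _ _).trans (Finset.sum_le_sum fun m hm => ?_)
        exact (norm_sum_le _ _).trans (Finset.sum_le_sum fun n hn => h4 m hm n hn)
    _ = B * ((∑ m ∈ F, ∑ n ∈ F, ‖c m‖ ^ 2 * w m n) / 2 +
        (∑ m ∈ F, ∑ n ∈ F, ‖c n‖ ^ 2 * w m n) / 2) := by
        simp only [← Finset.mul_sum, ← Finset.sum_div, Finset.sum_add_distrib]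
        ring
    _ ≤ B * ((K1 * ∑ n ∈ F, ‖c n‖ ^ 2) / 2 + (K1 * ∑ n ∈ F, ‖c n‖ ^ 2) / 2) := by
        refine mul_le_mul_of_nonneg_left ?_ hB
        have e1 : ∑ m ∈ F, ∑ n ∈ F, ‖c m‖ ^ 2 * w m n ≤ K1 * ∑ n ∈ F, ‖c n‖ ^ 2 := by
          rw [Finset.mul_sum]
          refine Finset.sum_le_sum fun m hm => ?_
          rw [← Finset.mul_sum, mul_comm K1]
          exact mul_le_mul_of_nonneg_left (sum_h hd F hS m) (by positivity)
        have e2 : ∑ m ∈ F, ∑ n ∈ F, ‖c n‖ ^ 2 * w m n ≤ K1 * ∑ n ∈ F, ‖c n‖ ^ 2 := by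
          rw [Finset.sum_comm]
          refine le_trans (le_of_eq ?_) e1
          refine Finset.sum_congr rfl fun n _ => Finset.sum_congr rfl fun m _ => ?_
          simp only [hw]
          congr 2
          ring
        linarith
    _ = _ := by ring

end Pool.Agent.V1181.DB
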