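import Mathlib
import Pool.Agent.V1181.DBe
set_option autoImplicit false

/-! Short random translations of separated blocks: the supremum. -/

namespace Pool.Agent.V1181.DB

open MeasureTheory Finset Complex
open scoped ENNReal

lemma mean_one {N : ℕ} (hN : 1 ≤ N) {B Y : ℝ} (hB : 0 ≤ B) (hY : (N : ℝ) ^ (1 / 4 : ℝ) ≤ Y)
    (ρ : Measure ℝ) (hρ : ∀ θ : ℝ, ‖∫ v, cexp (I * (θ : ℂ) * (v : ℂ)) ∂ρ‖ ≤ B / (1 + (Y * θ) ^ 2))
    {n : ℕ} (hn : n ∈ Icc N (2 * N)) (t : ℝ) :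
    ‖∫ v, ph (t + v) n ∂ρ‖ ≤ 3 * B / Real.sqrt N := by
  have hN0 : (0 : ℝ) < N := by exact_mod_cast (by omega : 0 < N)
  have h1 : ∫ v, ph (t + v) n ∂ρ =
      ph t n * ∫ v, cexp (I * ((Real.log n : ℝ) : ℂ) * (v : ℂ)) ∂ρ := by
    rw [← integral_const_mul]
    congr 1
    ext v
    rw [ph_add]
    congr 1
    unfold ph
    congr 1
    ring
  rw [h1, norm_mul, ph_norm, one_mul]
  refine (hρ _).trans ?_
  rw [Finset.mem_Icc] at hn
  have hsq : 0 < Real.sqrt N := Real.sqrt_pos.2 hN0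
  rw [div_le_div_iff₀ (by positivity) hsq]
  have h2 : Real.sqrt N ≤ 3 * (1 + (Y * Real.log n) ^ 2) := by
    rcases Nat.lt_or_ge N 2 with h | h
    · have : N = 1 := by omega
      subst this
      simp only [Nat.cast_one, Real.sqrt_one]
      nlinarith [sq_nonneg (Y * Real.log n)]
    · have hlog2 : (0.69 : ℝ) < Real.log 2 := by
        have := Real.log_two_gt_d9
        linarith
      have h3 : Real.log 2 ≤ Real.log n := by
        apply Real.log_le_log (by norm_num)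
        exact_mod_cast (by omega : 2 ≤ n)
      have h4 : Real.sqrt N = ((N : ℝ) ^ (1 / 4 : ℝ)) ^ 2 := by
        rw [← Real.rpow_natCast, ← Real.rpow_mul hN0.le, Real.sqrt_eq_rpow]
        congr 1
        norm_num
      have h5 : ((N : ℝ) ^ (1 / 4 : ℝ)) ^ 2 ≤ Y ^ 2 := pow_le_pow_left₀ (by positivity) hY 2
      have h6 : (0.69 : ℝ) ^ 2 ≤ Real.log n ^ 2 := pow_le_pow_left₀ (by norm_num) (by linarith) 2
      rw [h4, mul_pow]
      have h7 : Y ^ 2 * (0.69 : ℝ) ^ 2 ≤ Y ^ 2 * Real.log n ^ 2 :=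
        mul_le_mul_of_nonneg_left h6 (sq_nonneg _)
      have h8 : 0 ≤ Y ^ 2 := sq_nonneg _
      norm_num at h7
      nlinarith
  nlinarith

/-- the tail at one point -/
lemma point_tail2 {N d : ℕ} (hN : 1 ≤ N) (hd : 1 ≤ d) {B Y : ℝ} (hB : 1 ≤ B)
    (hY : (N : ℝ) / d ≤ Y) (hY4 : (N : ℝ) ^ (1 / 4 : ℝ) ≤ Y) (ρ : Measure ℝ)
    [IsProbabilityMeasure ρ]
    (hρ : ∀ θ : ℝ, ‖∫ v, cexp (I * (θ : ℂ) * (v : ℂ)) ∂ρ‖ ≤ B / (1 + (Y * θ) ^ 2))
    {m : ℕ} (J : Fin m → Finset ℕ)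
    (hJ : ∀ j, J j ⊆ Icc N (2 * N)) (hdis : ∀ i j, i ≠ j → Disjoint (J i) (J j))
    (hsep : ∀ j, Sep d (J j)) {M : ℝ} (hM : 1 ≤ M)
    (hJM : ∀ j, ((J j).card : ℝ) ≤ M) (b : ℕ → ℂ) (hb : ∀ n, ‖b n‖ ≤ 1) (t : ℝ) {s : ℝ}
    (h1s : 1 ≤ s) :
    (Measure.pi fun _ : Fin m => ρ).real
      {y | 6 * (Real.sqrt ((2 * B * K1 + 36 * B ^ 2) * N * s) + M * s) ≤
      ‖∑ j, ∑ n ∈ J j, b n * ph (t + y j) n‖} ≤ 4 * Real.exp (-s) := by
  classical
  have hN0 : (0 : ℝ) < N := by exact_mod_cast (by omega : 0 < N)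
  have hK1 := K1_pos
  have hB0 : 0 < B := by linarith
  set X : Fin m → ℝ → ℂ := fun j v => ∑ n ∈ J j, b n * ph (t + v) n with hX
  have hXc : ∀ j, Continuous (X j) := fun j => poly_cont (J j) b t
  have hXM : ∀ j v, ‖X j v‖ ≤ M := fun j v => (poly_le (J j) hb (t + v)).trans (hJM j)
  have hb2 : ∀ F : Finset ℕ, ∑ n ∈ F, ‖b n‖ ^ 2 ≤ F.card := by
    intro F
    calc ∑ n ∈ F, ‖b n‖ ^ 2 ≤ ∑ _n ∈ F, (1 : ℝ) := by
          refine Finset.sum_le_sum fun n _ => ?_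
          exact pow_le_one₀ (norm_nonneg _) (hb n)
      _ = _ := by simp
  have hUsub : (Finset.univ.biUnion J) ⊆ Icc N (2 * N) := by
    intro n hn
    rw [Finset.mem_biUnion] at hn
    obtain ⟨j, _, hj⟩ := hn
    exact hJ j hj
  have hUcard : ∑ j, ((J j).card : ℝ) ≤ 2 * N := by
    have h1 : (Finset.univ.biUnion J).card = ∑ j, (J j).card :=
      Finset.card_biUnion fun i _ j _ hij => hdis i j hij
    have h2 := card_le hN _ hUsub
    rw [h1] at h2
    exact_mod_cast h2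
  have hV : ∑ j, ∫ v, ‖X j v‖ ^ 2 ∂ρ ≤ (2 * B * K1 + 36 * B ^ 2) * N := by
    calc ∑ j, ∫ v, ‖X j v‖ ^ 2 ∂ρ ≤ ∑ j, B * K1 * (J j).card := by
          refine Finset.sum_le_sum fun j _ => ?_
          refine (mvt2 hN hd hB0.le hY (J j) (hJ j) (hsep j) b ρ hρ t).trans ?_
          exact mul_le_mul_of_nonneg_left (hb2 _) (by positivity)
      _ ≤ B * K1 * (2 * N) := by
          rw [← Finset.mul_sum]
          exact mul_le_mul_of_nonneg_left hUcard (by positivity)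
      _ ≤ _ := by
          have : 0 ≤ 36 * B ^ 2 * N := by positivity
          nlinarith
  have hphi : ∀ n : ℕ, Integrable (fun v : ℝ => ph (t + v) n) ρ := by
    intro n
    have h1 : Continuous fun v : ℝ => t + v := continuous_const.add continuous_id
    have h2 := Continuous.comp (ph_cont n) h1
    refine Integrable.of_bound (C := 1) h2.measurable.aestronglyMeasurable
      (Filter.Eventually.of_forall fun v => ?_)
    exact (ph_norm (t + v) n).le
  have hV2 : ‖∑ j, ∫ v, X j v ∂ρ‖ ≤ Real.sqrt ((2 * B * K1 + 36 * B ^ 2) * N) := by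
    have h1 : ∀ j, ‖∫ v, X j v ∂ρ‖ ≤ (J j).card * (3 * B / Real.sqrt N) := by
      intro j
      have h2 : ∫ v, X j v ∂ρ = ∑ n ∈ J j, b n * ∫ v, ph (t + v) n ∂ρ := by
        simp only [hX]
        rw [integral_finsetSum _ fun n _ => (hphi n).const_mul _]
        refine Finset.sum_congr rfl fun n _ => ?_
        rw [integral_const_mul]
      rw [h2]
      calc ‖∑ n ∈ J j, b n * ∫ v, ph (t + v) n ∂ρ‖
          ≤ ∑ _n ∈ J j, 3 * B / Real.sqrt N := by
            refine (norm_sum_le _ _).trans (Finset.sum_le_sum fun n hn => ?_)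
            rw [norm_mul]
            have h3 := mean_one hN hB0.le hY4 ρ hρ (hJ j hn) t
            calc ‖b n‖ * ‖∫ v, ph (t + v) n ∂ρ‖ ≤ 1 * (3 * B / Real.sqrt N) :=
                  mul_le_mul (hb n) h3 (norm_nonneg _) zero_le_one
              _ = _ := one_mul _
        _ = _ := by rw [Finset.sum_const, nsmul_eq_mul]
    have h2 : ‖∑ j, ∫ v, X j v ∂ρ‖ ≤ 6 * B * Real.sqrt N := by
      calc ‖∑ j, ∫ v, X j v ∂ρ‖ ≤ ∑ j, ((J j).card : ℝ) * (3 * B / Real.sqrt N) :=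
            (norm_sum_le _ _).trans (Finset.sum_le_sum fun j _ => h1 j)
        _ = (∑ j, ((J j).card : ℝ)) * (3 * B / Real.sqrt N) := by rw [Finset.sum_mul]
        _ ≤ (2 * N) * (3 * B / Real.sqrt N) :=
            mul_le_mul_of_nonneg_right hUcard (by positivity)
        _ = 6 * B * (N / Real.sqrt N) := by ring
        _ = 6 * B * Real.sqrt N := by rw [Real.div_sqrt]
    refine h2.trans ?_
    apply Real.le_sqrt_of_sq_le
    rw [mul_pow, Real.sq_sqrt hN0.le]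
    have : 0 ≤ 2 * B * K1 * N := by positivity
    nlinarith
  exact bernstein ρ X (fun j => (hXc j).measurable) (by linarith) hXM (by positivity) hV hV2 h1s

/-- the supremum over a long interval -/
theorem sup_bound2 (A B : ℝ) (hA : 0 ≤ A) (hB : 1 ≤ B) : ∃ C : ℝ, 0 < C ∧ ∀ N d : ℕ, 1 ≤ N →
    1 ≤ d → ∀ Y : ℝ, (N : ℝ) / d ≤ Y → (N : ℝ) ^ (1 / 4 : ℝ) ≤ Y →
    ∀ (ρ : Measure ℝ) [IsProbabilityMeasure ρ],
    (∀ θ : ℝ, ‖∫ v, cexp (I * (θ : ℂ) * (v : ℂ)) ∂ρ‖ ≤ B / (1 + (Y * θ) ^ 2)) →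
    ∀ (m : ℕ) (J : Fin m → Finset ℕ), (∀ j, J j ⊆ Icc N (2 * N)) →
    (∀ i j, i ≠ j → Disjoint (J i) (J j)) → (∀ j, Sep d (J j)) →
    ∀ M : ℝ, 1 ≤ M → (∀ j, ((J j).card : ℝ) ≤ M) →
    ∀ b : ℕ → ℂ, (∀ n, ‖b n‖ ≤ 1) → ∀ s : ℝ, 0 ≤ s →
    (Measure.pi fun _ : Fin m => ρ).real {y | ∃ t : ℝ, |t| ≤ (N : ℝ) ^ A ∧
      C * (Real.sqrt (N * (s + Real.log (2 * N))) + M * (s + Real.log (2 * N))) <
        ‖∑ j, ∑ n ∈ J j, b n * ph (t + y j) n‖} ≤ Real.exp (-s) := by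
  classical
  have hK1 := K1_pos
  have hB0 : 0 < B := by linarith
  set C1 : ℝ := 2 * B * K1 + 36 * B ^ 2 with hC1d
  have hC1 : 0 < C1 := by positivity
  set D : ℝ := A + 8 with hD
  have hD1 : 1 ≤ D := by rw [hD]; linarith
  have hlog2 : (0.69 : ℝ) < Real.log 2 := by
    have := Real.log_two_gt_d9
    linarith
  refine ⟨6 * (Real.sqrt (C1 * D) + D) + 2, by positivity, ?_⟩
  intro N d hN hd Y hY hY4 ρ _ hρ m J hJ hdis hsep M hM hJM b hb s hs0
  have hN0 : (0 : ℝ) < N := by exact_mod_cast (by omega : 0 < N)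
  have hN1 : (1 : ℝ) ≤ N := by exact_mod_cast hN
  set l : ℝ := s + Real.log (2 * N) with hl
  have hlogN : 0 ≤ Real.log N := Real.log_nonneg hN1
  have hl2 : l = s + Real.log 2 + Real.log N := by
    rw [hl, Real.log_mul (by norm_num) hN0.ne']
    ring
  have hl0 : 0.69 < l := by rw [hl2]; linarith
  have hlpos : 0 < l := by linarith
  set s' : ℝ := D * l with hs'
  have h1s : 1 ≤ s' := by
    rw [hs', hD]
    nlinarith
  set P : Measure (Fin m → ℝ) := Measure.pi fun _ : Fin m => ρ with hP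
  set F : (Fin m → ℝ) → ℝ → ℂ := fun y t => ∑ j, ∑ n ∈ J j, b n * ph (t + y j) n with hF
  have hJ' : ∀ j, J j ⊆ Icc 1 (2 * N) := fun j n hn => by
    have := Finset.mem_Icc.1 (hJ j hn)
    exact Finset.mem_Icc.2 ⟨by omega, this.2⟩
  obtain ⟨S, hS1, hS2⟩ := net1 ((N : ℝ) ^ A) (1 / (4 * (N : ℝ) ^ 2)) (by positivity) (by positivity)
  have hScard : (S.card : ℝ) ≤ 11 * (N : ℝ) ^ (A + 2) := by
    refine hS1.trans ?_
    have e1 : (N : ℝ) ^ A / (1 / (4 * (N : ℝ) ^ 2)) = 4 * (N : ℝ) ^ (A + 2) := by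
      rw [Real.rpow_add hN0, div_div_eq_mul_div, div_one]
      have : (N : ℝ) ^ (2 : ℝ) = (N : ℝ) ^ 2 := Real.rpow_natCast _ 2
      rw [this]
      ring
    rw [e1]
    have e2 : 1 ≤ (N : ℝ) ^ (A + 2) := Real.one_le_rpow hN1 (by linarith)
    linarith
  set Q : ℝ := 6 * (Real.sqrt (C1 * N * s') + M * s') with hQ
  have hsub : {y : Fin m → ℝ | ∃ t : ℝ, |t| ≤ (N : ℝ) ^ A ∧
      (6 * (Real.sqrt (C1 * D) + D) + 2) * (Real.sqrt (N * l) + M * l) < ‖F y t‖} ⊆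
      ⋃ w ∈ S, {y : Fin m → ℝ | Q ≤ ‖F y w‖} := by
    rintro y ⟨t, ht, hy⟩
    obtain ⟨w, hw, htw⟩ := hS2 t ht
    refine Set.mem_biUnion hw ?_
    rw [Set.mem_ofPred_eq]
    have h3 : ‖F y t - F y w‖ ≤ 1 := by
      refine (sum_lip (by omega : 1 ≤ 2 * N) J hJ' hdis b hb y t w).trans ?_
      calc (((2 * N : ℕ) : ℝ)) ^ 2 * |t - w| ≤ (((2 * N : ℕ) : ℝ)) ^ 2 * (1 / (4 * (N : ℝ) ^ 2)) :=
            mul_le_mul_of_nonneg_left htw (by positivity)
        _ = 1 := by push_cast; field_simp; norm_num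
    have h4 : ‖F y t‖ ≤ ‖F y w‖ + 1 := by
      have := norm_sub_norm_le (F y t) (F y w)
      linarith
    have h5 : 1 ≤ 2 * (Real.sqrt (N * l) + M * l) := by
      have : 0 ≤ Real.sqrt (N * l) := Real.sqrt_nonneg _
      nlinarith
    have h6 : Q ≤ 6 * (Real.sqrt (C1 * D) + D) * (Real.sqrt (N * l) + M * l) := by
      have e1 : Real.sqrt (C1 * N * s') = Real.sqrt (C1 * D) * Real.sqrt (N * l) := by
        rw [← Real.sqrt_mul (by positivity)]
        congr 1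
        rw [hs']
        ring
      rw [hQ, e1, hs']
      have a1 : 0 ≤ Real.sqrt (C1 * D) := Real.sqrt_nonneg _
      have a2 : 0 ≤ Real.sqrt (N * l) := Real.sqrt_nonneg _
      have a3 : 0 ≤ M * l := by positivity
      have a4 : 0 ≤ Real.sqrt (C1 * D) * (M * l) := by positivity
      have a5 : 0 ≤ D * Real.sqrt (N * l) := by positivity
      nlinarith
    linarith
  have hfin : ∀ w ∈ S, P.real {y : Fin m → ℝ | Q ≤ ‖F y w‖} ≤ 4 * Real.exp (-s') := fun w _ =>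
    point_tail2 hN hd hB hY hY4 ρ hρ J hJ hdis hsep hM hJM b hb w h1s
  refine (measureReal_mono hsub (measure_ne_top _ _)).trans ?_
  refine (measureReal_biUnion_finset_le S _).trans ?_
  calc ∑ w ∈ S, P.real {y : Fin m → ℝ | Q ≤ ‖F y w‖}
      ≤ ∑ _w ∈ S, 4 * Real.exp (-s') := Finset.sum_le_sum hfin
    _ = (S.card : ℝ) * (4 * Real.exp (-s')) := by rw [Finset.sum_const, nsmul_eq_mul]
    _ ≤ 11 * (N : ℝ) ^ (A + 2) * (4 * Real.exp (-s')) :=
        mul_le_mul_of_nonneg_right hScard (by positivity)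
    _ = 44 * Real.exp (Real.log N * (A + 2) - s') := by
        rw [Real.rpow_def_of_pos hN0, sub_eq_add_neg, Real.exp_add]
        ring
    _ ≤ Real.exp (-s) := by
        have e1 : (44 : ℝ) ≤ Real.exp (6 * Real.log 2) := by
          rw [mul_comm, Real.exp_mul, Real.exp_log (by norm_num)]
          norm_num
        calc 44 * Real.exp (Real.log N * (A + 2) - s')
            ≤ Real.exp (6 * Real.log 2) * Real.exp (Real.log N * (A + 2) - s') :=
              mul_le_mul_of_nonneg_right e1 (Real.exp_pos _).le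
          _ = Real.exp (6 * Real.log 2 + (Real.log N * (A + 2) - s')) := by rw [Real.exp_add]
          _ ≤ Real.exp (-s) := by
              apply Real.exp_le_exp.2
              rw [hs', hl2, hD]
              have e2 : 0 ≤ A * s := by positivity
              have e3 : 0 ≤ A * Real.log 2 := by positivity
              nlinarith

end Pool.Agent.V1181.DB
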