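import Mathlib

/-!
# Weighted composition operators on spaces of smooth functions
-/

set_option autoImplicit false
set_option linter.unusedSectionVars false

namespace Pool.Agent.V1181.WCO

open Set Filter Topology

variable {E : Type*} [NormedAddCommGroup E] [InnerProductSpace ℝ E] [FiniteDimensional ℝ E]
  {𝕜 : Type*} [RCLike 𝕜]

/-- Smooth functions on `Ω`. -/
def Smooth (Ω : Set E) (f : E → 𝕜) : Prop := ContDiffOn ℝ (⊤ : ℕ∞) f Ω

/-- `f` and `g` are closer than `ε` on `L`, together with all derivatives of order at most `m`: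
these sets of `f` (with `L ⊆ Ω` compact) form a basis of neighbourhoods of `g` in `C^∞(Ω)`. -/
def Near (L : Set E) (m : ℕ) (ε : ℝ) (f g : E → 𝕜) : Prop :=
  ∀ x ∈ L, ∀ j ≤ m, ‖iteratedFDeriv ℝ j (fun y => f y - g y) x‖ < ε

/-- The weighted composition operator. -/
def wco (ω : E → 𝕜) (ψ : E → E) (f : E → 𝕜) : E → 𝕜 := fun x => ω x * f (ψ x)

/-- Topological transitivity of the weighted composition operator on `C^∞(Ω)`. -/
def Transitive (Ω : Set E) (ω : E → 𝕜) (ψ : E → E) : Prop :=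
  ∀ f g : E → 𝕜, Smooth Ω f → Smooth Ω g → ∀ L ⊆ Ω, IsCompact L → ∀ (m : ℕ) (ε : ℝ), 0 < ε →
    ∃ (n : ℕ) (h : E → 𝕜), Smooth Ω h ∧ Near L m ε h f ∧ Near L m ε ((wco ω ψ)^[n] h) g

/-- The weighted composition operator is mixing on `C^∞(Ω)`. -/
def Mixing (Ω : Set E) (ω : E → 𝕜) (ψ : E → E) : Prop :=
  ∀ f g : E → 𝕜, Smooth Ω f → Smooth Ω g → ∀ L ⊆ Ω, IsCompact L → ∀ (m : ℕ) (ε : ℝ), 0 < ε →
    ∃ n₀ : ℕ, ∀ n ≥ n₀, ∃ h : E → 𝕜, Smooth Ω h ∧ Near L m ε h f ∧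
      Near L m ε ((wco ω ψ)^[n] h) g

/-- `h` is a periodic point of the weighted composition operator on `C^∞(Ω)`. -/
def Periodic (Ω : Set E) (ω : E → 𝕜) (ψ : E → E) (h : E → 𝕜) : Prop :=
  Smooth Ω h ∧ ∃ N : ℕ, 1 ≤ N ∧ ∀ x ∈ Ω, (wco ω ψ)^[N] h x = h x

/-- Periodic points are dense in `C^∞(Ω)`. -/
def DensePeriodic (Ω : Set E) (ω : E → 𝕜) (ψ : E → E) : Prop :=
  ∀ f : E → 𝕜, Smooth Ω f → ∀ L ⊆ Ω, IsCompact L → ∀ (m : ℕ) (ε : ℝ), 0 < ε →
    ∃ h : E → 𝕜, Periodic Ω ω ψ h ∧ Near L m ε h f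

/-- The weighted composition operator is chaotic on `C^∞(Ω)`. -/
def Chaotic (Ω : Set E) (ω : E → 𝕜) (ψ : E → E) : Prop :=
  Transitive Ω ω ψ ∧ DensePeriodic Ω ω ψ

/-! ### Iterates -/

/-- The weight of the iterates. -/
def W (ω : E → 𝕜) (ψ : E → E) (n : ℕ) (x : E) : 𝕜 := ∏ j ∈ Finset.range n, ω (ψ^[j] x)

variable {Ω : Set E} {ω : E → 𝕜} {ψ : E → E}

theorem W_zero (x : E) : W ω ψ 0 x = 1 := by simp [W]

theorem W_succ (n : ℕ) (x : E) : W ω ψ (n + 1) x = W ω ψ n x * ω (ψ^[n] x) := by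
  simp [W, Finset.prod_range_succ]

theorem W_add (m n : ℕ) (x : E) : W ω ψ (m + n) x = W ω ψ m x * W ω ψ n (ψ^[m] x) := by
  induction n with
  | zero => simp [W_zero]
  | succ n ih =>
    rw [← add_assoc, W_succ, ih, W_succ, mul_assoc, add_comm m n, Function.iterate_add_apply]

theorem iter_eq (n : ℕ) (f : E → 𝕜) (x : E) :
    (wco ω ψ)^[n] f x = W ω ψ n x * f (ψ^[n] x) := by
  induction n generalizing f with
  | zero => simp [W_zero]
  | succ n ih =>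
    rw [Function.iterate_succ_apply, ih, W_succ, Function.iterate_succ_apply' ψ]
    simp only [wco]
    ring

theorem maps_iter (hψ : MapsTo ψ Ω Ω) (n : ℕ) : MapsTo ψ^[n] Ω Ω := hψ.iterate n

theorem smooth_iter (hψ : MapsTo ψ Ω Ω) (hs : ContDiffOn ℝ (⊤ : ℕ∞) ψ Ω) (n : ℕ) :
    ContDiffOn ℝ (⊤ : ℕ∞) ψ^[n] Ω := by
  induction n with
  | zero => exact contDiffOn_id
  | succ n ih =>
    rw [Function.iterate_succ']
    exact hs.comp ih (maps_iter hψ n)

theorem smooth_W (hψ : MapsTo ψ Ω Ω) (hs : ContDiffOn ℝ (⊤ : ℕ∞) ψ Ω) (hω : Smooth Ω ω)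
    (n : ℕ) : Smooth Ω (W ω ψ n) := by
  induction n with
  | zero =>
    have : W ω ψ 0 = fun _ => (1 : 𝕜) := funext fun x => W_zero x
    rw [this]
    exact contDiffOn_const
  | succ n ih =>
    have : W ω ψ (n + 1) = fun x => W ω ψ n x * ω (ψ^[n] x) := funext fun x => W_succ n x
    rw [this]
    exact ContDiffOn.mul ih (ContDiffOn.comp hω (smooth_iter hψ hs n) (maps_iter hψ n))

theorem smooth_wco (hψ : MapsTo ψ Ω Ω) (hs : ContDiffOn ℝ (⊤ : ℕ∞) ψ Ω) (hω : Smooth Ω ω)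
    {f : E → 𝕜} (hf : Smooth Ω f) (n : ℕ) : Smooth Ω ((wco ω ψ)^[n] f) := by
  have : (wco ω ψ)^[n] f = fun x => W ω ψ n x * f (ψ^[n] x) := funext fun x => iter_eq n f x
  rw [this]
  exact ContDiffOn.mul (smooth_W hψ hs hω n) (ContDiffOn.comp hf (smooth_iter hψ hs n)
    (maps_iter hψ n))

theorem W_ne (hψ : MapsTo ψ Ω Ω) (h0 : ∀ x ∈ Ω, ω x ≠ 0) (n : ℕ) {x : E} (hx : x ∈ Ω) :
    W ω ψ n x ≠ 0 :=
  Finset.prod_ne_zero_iff.2 fun j _ => h0 _ (maps_iter hψ j hx)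

/-! ### Evaluations -/

theorem Near.eval {L : Set E} {m : ℕ} {ε : ℝ} {f g : E → 𝕜} (h : Near L m ε f g) {x : E}
    (hx : x ∈ L) : ‖f x - g x‖ < ε := by
  have := h x hx 0 (Nat.zero_le _)
  rwa [norm_iteratedFDeriv_zero] at this

theorem Near.deriv {L : Set E} {m : ℕ} {ε : ℝ} {f g : E → 𝕜} (h : Near L m ε f g) {x : E}
    (hx : x ∈ L) (hm : 1 ≤ m) (hf : DifferentiableAt ℝ f x) (hg : DifferentiableAt ℝ g x) :
    ‖fderiv ℝ f x - fderiv ℝ g x‖ < ε := by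
  have := h x hx 1 hm
  rw [norm_iteratedFDeriv_one] at this
  rwa [fderiv_fun_sub hf hg] at this

theorem Smooth.diff (hΩ : IsOpen Ω) {f : E → 𝕜} (hf : Smooth Ω f) {x : E} (hx : x ∈ Ω) :
    DifferentiableAt ℝ f x :=
  (hf.contDiffAt (hΩ.mem_nhds hx)).differentiableAt (by norm_num)

/-- Functions which agree near `L` are near. -/
theorem near_of_eventuallyEq {L : Set E} {m : ℕ} {ε : ℝ} {f g : E → 𝕜} (hε : 0 < ε)
    (h : ∀ x ∈ L, f =ᶠ[𝓝 x] g) : Near L m ε f g := by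
  intro x hx j _
  have h1 : (fun y => f y - g y) =ᶠ[𝓝 x] fun _ => (0 : 𝕜) := by
    filter_upwards [h x hx] with y hy
    rw [hy, sub_self]
  have h2 := (h1.iteratedFDeriv ℝ j).self_of_nhds
  rw [h2, iteratedFDeriv_fun_zero]
  simpa using hε

/-! ### Necessary conditions for transitivity -/

theorem omega_ne (ht : Transitive Ω ω ψ) {x : E} (hx : x ∈ Ω) : ω x ≠ 0 := by
  intro h0
  obtain ⟨n, h, -, h1, h2⟩ := ht (fun _ => 0) (fun _ => 1) contDiffOn_const contDiffOn_const {x}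
    (singleton_subset_iff.2 hx) isCompact_singleton 0 (1 / 2) (by norm_num)
  have e1 := h1.eval (mem_singleton x)
  have e2 := h2.eval (mem_singleton x)
  rcases n with _ | n
  · rw [Function.iterate_zero, id] at e2
    have h3 : (1 : ℝ) ≤ ‖h x - 0‖ + ‖h x - 1‖ := by
      have h4 : ‖(h x - 0) - (h x - 1)‖ ≤ ‖h x - 0‖ + ‖h x - 1‖ := norm_sub_le _ _
      have h5 : (h x - 0) - (h x - 1) = (1 : 𝕜) := by ring
      rw [h5, norm_one] at h4
      exact h4
    linarith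
  · have h3 : W ω ψ (n + 1) x = 0 := by
      rw [add_comm, W_add, W_succ, W_zero]
      simp [h0]
    rw [iter_eq, h3, zero_mul, zero_sub, norm_neg, norm_one] at e2
    norm_num at e2

/-- A continuous functional vanishing on the range of the operator prevents transitivity. -/
theorem not_functional (ht : Transitive Ω ω ψ) {L : Set E} (hL : L ⊆ Ω) (hc : IsCompact L)
    {m : ℕ} {a : E} (ha : a ∈ L) {Λ : (E → 𝕜) → 𝕜} {g : E → 𝕜} (hg : Smooth Ω g)
    (hg0 : Λ g ≠ 0) {C : ℝ}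
    (hΛ : ∀ ε : ℝ, 0 < ε → ∀ h : E → 𝕜, Smooth Ω h → Near L m ε h g → ‖Λ h - Λ g‖ ≤ C * ε)
    (hψ : MapsTo ψ Ω Ω) (hs : ContDiffOn ℝ (⊤ : ℕ∞) ψ Ω) (hω : Smooth Ω ω)
    (hz : ∀ h : E → 𝕜, Smooth Ω h → Λ (wco ω ψ h) = 0) : False := by
  have hpos : 0 < ‖Λ g‖ := norm_pos_iff.2 hg0
  set ε := min (1 / 2) (‖Λ g‖ / (2 * (|C| + 1))) with hε
  have hε0 : 0 < ε := lt_min (by norm_num) (by positivity)
  obtain ⟨n, h, hh, h1, h2⟩ := ht (fun x => g x + 1) g (ContDiffOn.add hg contDiffOn_const) hg L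
    hL hc m ε hε0
  rcases n with _ | n
  · have e1 := h1.eval ha
    have e2 := h2.eval ha
    rw [Function.iterate_zero, id] at e2
    have h3 : (1 : ℝ) ≤ ‖h a - (g a + 1)‖ + ‖h a - g a‖ := by
      have h4 : ‖(h a - g a) - (h a - (g a + 1))‖ ≤ ‖h a - g a‖ + ‖h a - (g a + 1)‖ :=
        norm_sub_le _ _
      have h5 : (h a - g a) - (h a - (g a + 1)) = (1 : 𝕜) := by ring
      rw [h5, norm_one] at h4
      linarith
    have h4 : ε ≤ 1 / 2 := min_le_left _ _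
    linarith
  · have h3 := hΛ ε hε0 _ (smooth_wco hψ hs hω hh (n + 1)) h2
    rw [Function.iterate_succ_apply', hz _ (smooth_wco hψ hs hω hh n), zero_sub, norm_neg] at h3
    have h4 : ε ≤ ‖Λ g‖ / (2 * (|C| + 1)) := min_le_right _ _
    have h5 : C * ε ≤ |C| * (‖Λ g‖ / (2 * (|C| + 1))) := by
      have := le_abs_self C
      have := abs_nonneg C
      calc C * ε ≤ |C| * ε := by gcongr
        _ ≤ _ := by gcongr
    have h6 : |C| * (‖Λ g‖ / (2 * (|C| + 1))) < ‖Λ g‖ := by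
      have := abs_nonneg C
      rw [mul_div_assoc', div_lt_iff₀ (by positivity)]
      nlinarith
    linarith

theorem psi_inj (ht : Transitive Ω ω ψ)
    (hψ : MapsTo ψ Ω Ω) (hs : ContDiffOn ℝ (⊤ : ℕ∞) ψ Ω) (hω : Smooth Ω ω) : InjOn ψ Ω := by
  intro a ha b hb hab
  by_contra hne
  have hne' : a - b ≠ 0 := sub_ne_zero.2 hne
  have hpos : 0 < ‖a - b‖ ^ 2 := by positivity
  set g : E → 𝕜 := fun x => ((inner ℝ (x - b) (a - b) / ‖a - b‖ ^ 2 : ℝ) : 𝕜) with hg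
  have hgs : Smooth Ω g := by
    have h1 : ContDiff ℝ (⊤ : ℕ∞) fun x : E => inner ℝ (x - b) (a - b) / ‖a - b‖ ^ 2 :=
      ((contDiff_id.sub contDiff_const).inner ℝ contDiff_const).div_const _
    exact ((RCLike.ofRealCLM : ℝ →L[ℝ] 𝕜).contDiff.comp h1).contDiffOn
  have ga : g a = 1 := by
    simp only [hg]
    rw [real_inner_self_eq_norm_sq, div_self hpos.ne']
    simp
  have gb : g b = 0 := by simp [hg]
  refine not_functional (L := {a, b}) (m := 0) (a := a) (g := g) (C := ‖ω b‖ + ‖ω a‖)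
    (Λ := fun h => ω b * h a - ω a * h b) ht
    (by rintro x (rfl | rfl) <;> assumption) ((Set.toFinite _).isCompact) (by simp) hgs ?_ ?_ hψ hs
    hω ?_
  · simp only [ga, gb, mul_one, mul_zero, sub_zero]
    exact omega_ne ht hb
  · intro ε _ h _ hh
    have e1 := hh.eval (show a ∈ ({a, b} : Set E) by simp)
    have e2 := hh.eval (show b ∈ ({a, b} : Set E) by simp)
    have e : ω b * h a - ω a * h b - (ω b * g a - ω a * g b)
        = ω b * (h a - g a) - ω a * (h b - g b) := by ring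
    rw [e]
    refine (norm_sub_le _ _).trans ?_
    rw [norm_mul, norm_mul, add_mul]
    gcongr
  · intro h _
    simp only [wco, hab]
    ring

theorem dpsi_inj (hΩ : IsOpen Ω) (ht : Transitive Ω ω ψ)
    (hψ : MapsTo ψ Ω Ω) (hs : ContDiffOn ℝ (⊤ : ℕ∞) ψ Ω) (hω : Smooth Ω ω) {a : E} (ha : a ∈ Ω)
    {v : E} (hv : fderiv ℝ ψ a v = 0) : v = 0 := by
  by_contra hne
  have hpos : 0 < ‖v‖ ^ 2 := by positivity
  set g : E → 𝕜 := fun x => ((inner ℝ (x - a) v / ‖v‖ ^ 2 : ℝ) : 𝕜) with hg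
  have h1 : ContDiff ℝ (⊤ : ℕ∞) fun x : E => inner ℝ (x - a) v / ‖v‖ ^ 2 :=
    ((contDiff_id.sub contDiff_const).inner ℝ contDiff_const).div_const _
  have hgs : Smooth Ω g := ((RCLike.ofRealCLM : ℝ →L[ℝ] 𝕜).contDiff.comp h1).contDiffOn
  have ga : g a = 0 := by simp [hg]
  have gd : fderiv ℝ g a v = 1 := by
    have h2 : HasFDerivAt (fun x : E => inner ℝ (x - a) v / ‖v‖ ^ 2)
        ((‖v‖ ^ 2)⁻¹ • innerSL ℝ v) a := by
      have h3 : HasFDerivAt (fun x : E => (‖v‖ ^ 2)⁻¹ * innerSL ℝ v (x - a))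
          ((‖v‖ ^ 2)⁻¹ • innerSL ℝ v) a := by
        have h4 : HasFDerivAt (fun x : E => innerSL ℝ v (x - a)) (innerSL ℝ v) a := by
          have h5 : HasFDerivAt (fun x : E => x - a) (ContinuousLinearMap.id ℝ E) a :=
            (hasFDerivAt_id a).sub_const a
          exact (innerSL ℝ v).hasFDerivAt.comp a h5
        exact h4.const_mul _
      refine h3.congr_of_eventuallyEq (Eventually.of_forall fun x => ?_)
      simp only [innerSL_apply_apply]
      rw [real_inner_comm, div_eq_inv_mul]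
    have h3 : HasFDerivAt g ((RCLike.ofRealCLM : ℝ →L[ℝ] 𝕜).comp ((‖v‖ ^ 2)⁻¹ • innerSL ℝ v)) a :=
      (RCLike.ofRealCLM : ℝ →L[ℝ] 𝕜).hasFDerivAt.comp a h2
    rw [h3.fderiv]
    simp only [ContinuousLinearMap.comp_apply, ContinuousLinearMap.smul_apply,
      innerSL_apply_apply, real_inner_self_eq_norm_sq, smul_eq_mul]
    rw [inv_mul_cancel₀ hpos.ne']
    simp
  refine not_functional (L := {a}) (m := 1) (a := a) (g := g)
    (C := ‖ω a‖ * ‖v‖ + ‖fderiv ℝ ω a v‖)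
    (Λ := fun h => ω a * fderiv ℝ h a v - fderiv ℝ ω a v * h a) ht
    (singleton_subset_iff.2 ha) isCompact_singleton (by simp) hgs ?_ ?_ hψ hs hω ?_
  · simp only [ga, gd, mul_one, mul_zero, sub_zero]
    exact omega_ne ht ha
  · intro ε _ h hh hn
    have e1 := hn.eval (mem_singleton a)
    have e2 := hn.deriv (mem_singleton a) le_rfl (hh.diff hΩ ha) (hgs.diff hΩ ha)
    have e : ω a * fderiv ℝ h a v - fderiv ℝ ω a v * h a
        - (ω a * fderiv ℝ g a v - fderiv ℝ ω a v * g a)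
        = ω a * ((fderiv ℝ h a - fderiv ℝ g a) v) - fderiv ℝ ω a v * (h a - g a) := by
      rw [ContinuousLinearMap.sub_apply]
      ring
    rw [e]
    refine (norm_sub_le _ _).trans ?_
    rw [norm_mul, norm_mul, add_mul]
    have e3 : ‖(fderiv ℝ h a - fderiv ℝ g a) v‖ ≤ ε * ‖v‖ :=
      (ContinuousLinearMap.le_opNorm _ _).trans (by gcongr)
    refine add_le_add ?_ (by gcongr)
    calc ‖ω a‖ * ‖(fderiv ℝ h a - fderiv ℝ g a) v‖ ≤ ‖ω a‖ * (ε * ‖v‖) := by gcongr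
      _ = _ := by ring
  · intro h hh
    have d1 := hω.diff hΩ ha
    have d2 : DifferentiableAt ℝ ψ a :=
      (hs.contDiffAt (hΩ.mem_nhds ha)).differentiableAt (by norm_num)
    have d3 := hh.diff hΩ (hψ ha)
    have h2 : HasFDerivAt (wco ω ψ h) (ω a • ((fderiv ℝ h (ψ a)).comp (fderiv ℝ ψ a))
        + h (ψ a) • fderiv ℝ ω a) a :=
      d1.hasFDerivAt.mul (d3.hasFDerivAt.comp a d2.hasFDerivAt)
    rw [h2.fderiv]
    simp only [ContinuousLinearMap.add_apply, ContinuousLinearMap.smul_apply,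
      ContinuousLinearMap.comp_apply, hv, map_zero, smul_zero, zero_add, wco, smul_eq_mul]
    ring

end Pool.Agent.V1181.WCO
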