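import Pool.Agent.V1181.WCO

/-!
# Weighted composition operators: no periodic points, periodic functions
-/

set_option autoImplicit false
set_option linter.unusedSectionVars false

namespace Pool.Agent.V1181.WCO

open Set Filter Topology

variable {E : Type*} [NormedAddCommGroup E] [InnerProductSpace ℝ E] [FiniteDimensional ℝ E]
  {𝕜 : Type*} [RCLike 𝕜] {Ω : Set E} {ω : E → 𝕜} {ψ : E → E}

theorem iterate_periodic {p : ℕ} {a : E} (hp : ψ^[p] a = a) (q s : ℕ) :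
    ψ^[q * p + s] a = ψ^[s] a := by
  induction q with
  | zero => simp
  | succ q ih =>
    rw [show (q + 1) * p + s = (q * p + s) + p by ring, Function.iterate_add_apply, hp, ih]

theorem W_periodic {p : ℕ} {a : E} (hp : ψ^[p] a = a) (q s : ℕ) :
    W ω ψ (q * p + s) a = W ω ψ p a ^ q * W ω ψ s a := by
  induction q with
  | zero => simp
  | succ q ih =>
    rw [show (q + 1) * p + s = p + (q * p + s) by ring, W_add, hp, ih]
    ring

/-- A transitive weighted composition operator has a symbol without periodic points. -/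
theorem no_periodic (ht : Transitive Ω ω ψ) (hψ : MapsTo ψ Ω Ω) {a : E} (ha : a ∈ Ω) {p : ℕ}
    (hp : 1 ≤ p) (hpa : ψ^[p] a = a) : False := by
  set L : Set E := (fun i => ψ^[i] a) '' (Finset.range p : Set ℕ) with hL
  have hLc : IsCompact L := ((Finset.range p).finite_toSet.image _).isCompact
  have hLΩ : L ⊆ Ω := by
    rintro x ⟨i, -, rfl⟩
    exact maps_iter hψ i ha
  have hmem : ∀ n, ψ^[n] a ∈ L := by
    intro n
    refine ⟨n % p, by simpa using Nat.mod_lt n (by omega), ?_⟩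
    conv_rhs => rw [← Nat.div_add_mod n p, mul_comm p]
    exact (iterate_periodic hpa _ _).symm
  have haL : a ∈ L := hmem 0
  have hω0 : ∀ x ∈ Ω, ω x ≠ 0 := fun x hx => omega_ne ht hx
  have hWn : ∀ n, W ω ψ n a = W ω ψ p a ^ (n / p) * W ω ψ (n % p) a := by
    intro n
    conv_lhs => rw [← Nat.div_add_mod n p, mul_comm p]
    exact W_periodic hpa _ _
  rcases le_total ‖W ω ψ p a‖ 1 with hc | hc
  · -- bounded weights
    set C : ℝ := ∑ s ∈ Finset.range p, ‖W ω ψ s a‖ with hC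
    have hC0 : 0 ≤ C := Finset.sum_nonneg fun _ _ => norm_nonneg _
    have hW : ∀ n, ‖W ω ψ n a‖ ≤ C := by
      intro n
      rw [hWn, norm_mul, norm_pow]
      have h1 : ‖W ω ψ p a‖ ^ (n / p) ≤ 1 := pow_le_one₀ (norm_nonneg _) hc
      have h2 : ‖W ω ψ (n % p) a‖ ≤ C :=
        Finset.single_le_sum (f := fun s => ‖W ω ψ s a‖) (fun _ _ => norm_nonneg _)
          (Finset.mem_range.2 (Nat.mod_lt n (by omega)))
      calc _ ≤ 1 * ‖W ω ψ (n % p) a‖ := by gcongr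
        _ ≤ C := by rw [one_mul]; exact h2
    set ε : ℝ := 1 / (2 * (C + 1)) with hε
    have hε0 : 0 < ε := by positivity
    have hε1 : ε ≤ 1 / 2 := by
      rw [hε]
      apply one_div_le_one_div_of_le (by norm_num)
      linarith
    obtain ⟨n, h, -, h1, h2⟩ := ht (fun _ => 0) (fun _ => 1) contDiffOn_const contDiffOn_const L
      hLΩ hLc 0 ε hε0
    have e1 := h1.eval (hmem n)
    have e2 := h2.eval haL
    rw [sub_zero] at e1
    rw [iter_eq] at e2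
    have e3 : ‖W ω ψ n a * h (ψ^[n] a)‖ ≤ C * ε := by
      rw [norm_mul]
      gcongr
      exact hW n
    have e4 : C * ε < 1 / 2 := by
      rw [hε, mul_one_div, div_lt_div_iff₀ (by positivity) (by norm_num)]
      linarith
    have e5 : (1 : ℝ) ≤ ‖W ω ψ n a * h (ψ^[n] a)‖ + ‖W ω ψ n a * h (ψ^[n] a) - 1‖ := by
      have h4 : ‖(W ω ψ n a * h (ψ^[n] a)) - (W ω ψ n a * h (ψ^[n] a) - 1)‖
          ≤ ‖W ω ψ n a * h (ψ^[n] a)‖ + ‖W ω ψ n a * h (ψ^[n] a) - 1‖ := norm_sub_le _ _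
      rw [sub_sub_cancel, norm_one] at h4
      exact h4
    linarith
  · -- weights bounded below
    obtain ⟨s₀, hs₀, hmin⟩ := (Finset.range p).exists_min_image (fun s => ‖W ω ψ s a‖)
      ⟨0, Finset.mem_range.2 (by omega)⟩
    set c : ℝ := ‖W ω ψ s₀ a‖ with hcdef
    have hc0 : 0 < c := norm_pos_iff.2 (W_ne hψ hω0 _ ha)
    have hW : ∀ n, c ≤ ‖W ω ψ n a‖ := by
      intro n
      rw [hWn, norm_mul, norm_pow]
      have h1 : 1 ≤ ‖W ω ψ p a‖ ^ (n / p) := one_le_pow₀ hc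
      have h2 : c ≤ ‖W ω ψ (n % p) a‖ := hmin _ (Finset.mem_range.2 (Nat.mod_lt n (by omega)))
      calc c ≤ 1 * ‖W ω ψ (n % p) a‖ := by rw [one_mul]; exact h2
        _ ≤ _ := by gcongr
    set ε : ℝ := min (1 / 2) (c / 2) with hε
    have hε0 : 0 < ε := by positivity
    obtain ⟨n, h, -, h1, h2⟩ := ht (fun _ => 1) (fun _ => 0) contDiffOn_const contDiffOn_const L
      hLΩ hLc 0 ε hε0
    have e1 := h1.eval (hmem n)
    have e2 := h2.eval haL
    rw [sub_zero, iter_eq, norm_mul] at e2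
    have e3 : (1 : ℝ) / 2 ≤ ‖h (ψ^[n] a)‖ := by
      have h4 : ‖h (ψ^[n] a) - (h (ψ^[n] a) - 1)‖ ≤ ‖h (ψ^[n] a)‖ + ‖h (ψ^[n] a) - 1‖ :=
        norm_sub_le _ _
      rw [sub_sub_cancel, norm_one] at h4
      have : ε ≤ 1 / 2 := min_le_left _ _
      linarith
    have e4 : c * (1 / 2) ≤ ‖W ω ψ n a‖ * ‖h (ψ^[n] a)‖ := by
      gcongr
      exact hW n
    have e5 : ε ≤ c / 2 := min_le_right _ _
    linarith

/-! ### Periodic functions -/

/-- `h` is periodic with period `N`. -/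
def Per (Ω : Set E) (ω : E → 𝕜) (ψ : E → E) (N : ℕ) (h : E → 𝕜) : Prop :=
  Smooth Ω h ∧ ∀ x ∈ Ω, W ω ψ N x * h (ψ^[N] x) = h x

theorem periodic_iff {h : E → 𝕜} :
    Periodic Ω ω ψ h ↔ ∃ N : ℕ, 1 ≤ N ∧ Per Ω ω ψ N h := by
  constructor
  · rintro ⟨h1, N, hN, h2⟩
    exact ⟨N, hN, h1, fun x hx => by rw [← iter_eq]; exact h2 x hx⟩
  · rintro ⟨N, hN, h1, h2⟩
    exact ⟨h1, N, hN, fun x hx => by rw [iter_eq]; exact h2 x hx⟩

theorem Per.mul (hψ : MapsTo ψ Ω Ω) {N : ℕ} {h : E → 𝕜} (hp : Per Ω ω ψ N h) (k : ℕ) :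
    Per Ω ω ψ (k * N) h := by
  refine ⟨hp.1, ?_⟩
  induction k with
  | zero => intro x _; simp [W_zero]
  | succ k ih =>
    intro x hx
    rw [show (k + 1) * N = N + k * N by ring, W_add, add_comm N, Function.iterate_add_apply,
      mul_assoc, ih _ (maps_iter hψ N hx), hp.2 x hx]

theorem Per.dvd (hψ : MapsTo ψ Ω Ω) {N M : ℕ} {h : E → 𝕜} (hp : Per Ω ω ψ N h) (hd : N ∣ M) :
    Per Ω ω ψ M h := by
  obtain ⟨k, rfl⟩ := hd
  rw [mul_comm]
  exact hp.mul hψ k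

/-- Values of a periodic function along an orbit. -/
theorem Per.orbit (hψ : MapsTo ψ Ω Ω) {N : ℕ} {h : E → 𝕜} (hp : Per Ω ω ψ N h) {n : ℕ} {x : E}
    (hx : x ∈ Ω) : W ω ψ n x * h (ψ^[n] x) = W ω ψ (n % N) x * h (ψ^[n % N] x) := by
  conv_lhs => rw [← Nat.mod_add_div n N]
  rw [W_add, add_comm (n % N), Function.iterate_add_apply, mul_assoc]
  have := (hp.mul hψ (n / N)).2 (ψ^[n % N] x) (maps_iter hψ _ hx)
  rw [mul_comm (n / N) N] at this
  rw [this]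

theorem Per.cross (hψ : MapsTo ψ Ω Ω) (h0 : ∀ x ∈ Ω, ω x ≠ 0) {N : ℕ} {f g : E → 𝕜}
    (hf : Per Ω ω ψ N f) (hg : Per Ω ω ψ N g) {n r : ℕ} (hn : n % N = r) {x : E} (hx : x ∈ Ω) :
    f (ψ^[n] x) * g (ψ^[r] x) = g (ψ^[n] x) * f (ψ^[r] x) := by
  subst hn
  have e1 := hf.orbit hψ (n := n) hx
  have e2 := hg.orbit hψ (n := n) hx
  have w1 : W ω ψ n x ≠ 0 := W_ne hψ h0 n hx
  have w2 : W ω ψ (n % N) x ≠ 0 := W_ne hψ h0 _ hx
  have : W ω ψ n x * (W ω ψ (n % N) x) * (f (ψ^[n] x) * g (ψ^[n % N] x))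
      = W ω ψ n x * (W ω ψ (n % N) x) * (g (ψ^[n] x) * f (ψ^[n % N] x)) := by
    calc _ = (W ω ψ n x * f (ψ^[n] x)) * (W ω ψ (n % N) x * g (ψ^[n % N] x)) := by ring
      _ = (W ω ψ (n % N) x * f (ψ^[n % N] x)) * (W ω ψ n x * g (ψ^[n] x)) := by rw [e1, ← e2]
      _ = _ := by ring
  exact mul_left_cancel₀ (mul_ne_zero w1 w2) this

theorem Per.add {N : ℕ} {f g : E → 𝕜} (hf : Per Ω ω ψ N f) (hg : Per Ω ω ψ N g) :
    Per Ω ω ψ N (fun x => f x + g x) :=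
  ⟨ContDiffOn.add hf.1 hg.1, fun x hx => by
    rw [mul_add, hf.2 x hx, hg.2 x hx]⟩

theorem Per.smul {N : ℕ} {f : E → 𝕜} (hf : Per Ω ω ψ N f) (c : 𝕜) :
    Per Ω ω ψ N (fun x => c * f x) :=
  ⟨ContDiffOn.mul contDiffOn_const hf.1, fun x hx => by
    show W ω ψ N x * (c * f (ψ^[N] x)) = c * f x
    rw [← hf.2 x hx]; ring⟩

theorem Per.zero (N : ℕ) : Per Ω ω ψ N (fun _ => (0 : 𝕜)) :=
  ⟨contDiffOn_const, fun x _ => by simp⟩

/-- The iterates of a periodic function are periodic. -/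
theorem Per.iter (hψ : MapsTo ψ Ω Ω) (hs : ContDiffOn ℝ (⊤ : ℕ∞) ψ Ω) (hω : Smooth Ω ω)
    {N : ℕ} {f : E → 𝕜} (hf : Per Ω ω ψ N f) (s : ℕ) :
    Per Ω ω ψ N (fun x => W ω ψ s x * f (ψ^[s] x)) := by
  refine ⟨ContDiffOn.mul (smooth_W hψ hs hω s) (ContDiffOn.comp hf.1 (smooth_iter hψ hs s)
    (maps_iter hψ s)), fun x hx => ?_⟩
  have e1 := hf.2 (ψ^[s] x) (maps_iter hψ s hx)
  show W ω ψ N x * (W ω ψ s (ψ^[N] x) * f (ψ^[s] (ψ^[N] x))) = W ω ψ s x * f (ψ^[s] x)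
  rw [← e1, ← mul_assoc, ← mul_assoc, ← W_add, ← W_add, ← Function.iterate_add_apply,
    ← Function.iterate_add_apply, add_comm s N]

/-- The 1-jets of periodic functions exhaust all 1-jets. -/
theorem jets (hΩ : IsOpen Ω) (hψ : MapsTo ψ Ω Ω) (hd : DensePeriodic Ω ω ψ) {y : E} (hy : y ∈ Ω)
    (c : 𝕜) (A : E →L[ℝ] 𝕜) :
    ∃ N : ℕ, 1 ≤ N ∧ ∃ f, Per Ω ω ψ N f ∧ f y = c ∧ fderiv ℝ f y = A := by
  let S : Submodule ℝ (𝕜 × (E →L[ℝ] 𝕜)) :=
    { carrier := {q | ∃ N : ℕ, 1 ≤ N ∧ ∃ f, Per Ω ω ψ N f ∧ f y = q.1 ∧ fderiv ℝ f y = q.2}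
      zero_mem' := ⟨1, le_rfl, fun _ => 0, Per.zero 1, rfl, by simp⟩
      add_mem' := by
        rintro a b ⟨N, hN, f, hf, hf1, hf2⟩ ⟨M, hM, g, hg, hg1, hg2⟩
        refine ⟨N * M, Nat.mul_pos hN hM, fun x => f x + g x,
          (hf.dvd hψ (dvd_mul_right N M)).add (hg.dvd hψ (dvd_mul_left M N)), ?_, ?_⟩
        · simp [hf1, hg1]
        · have h1 := (hf.1.diff hΩ hy).hasFDerivAt.add (hg.1.diff hΩ hy).hasFDerivAt
          have h2 := h1.fderiv
          rw [hf2, hg2] at h2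
          exact h2
      smul_mem' := by
        rintro t a ⟨N, hN, f, hf, hf1, hf2⟩
        refine ⟨N, hN, fun x => (t : 𝕜) * f x, hf.smul _, ?_, ?_⟩
        · simp [hf1, RCLike.real_smul_eq_coe_mul]
        · have h1 := (hf.1.diff hΩ hy).hasFDerivAt.const_mul (t : 𝕜)
          rw [h1.fderiv, hf2]
          ext v
          simp [RCLike.real_smul_eq_coe_mul] }
  have hcl : IsClosed (S : Set (𝕜 × (E →L[ℝ] 𝕜))) := S.closed_of_finiteDimensional
  have hmem : ((c, A) : 𝕜 × (E →L[ℝ] 𝕜)) ∈ (S : Set (𝕜 × (E →L[ℝ] 𝕜))) := by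
    rw [← hcl.closure_eq]
    rw [Metric.mem_closure_iff]
    intro ε hε
    set F : E → 𝕜 := fun z => c + A (z - y) with hF
    have hFs : Smooth Ω F :=
      (contDiff_const.add (A.contDiff.comp (contDiff_id.sub contDiff_const))).contDiffOn
    have hFy : F y = c := by simp [hF]
    have hFd : HasFDerivAt F A y := by
      have h5 : HasFDerivAt (fun x : E => x - y) (ContinuousLinearMap.id ℝ E) y :=
        (hasFDerivAt_id y).sub_const y
      exact (A.hasFDerivAt.comp y h5).const_add c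
    obtain ⟨h, hper, hn⟩ := hd F hFs {y} (singleton_subset_iff.2 hy) isCompact_singleton 1 ε hε
    obtain ⟨N, hN, hp⟩ := periodic_iff.1 hper
    refine ⟨(h y, fderiv ℝ h y), ⟨N, hN, h, hp, rfl, rfl⟩, ?_⟩
    have e1 := hn.eval (mem_singleton y)
    have e2 := hn.deriv (mem_singleton y) le_rfl (hp.1.diff hΩ hy) hFd.differentiableAt
    rw [hFy] at e1
    rw [hFd.fderiv] at e2
    rw [dist_comm, dist_eq_norm, Prod.norm_def]
    exact max_lt e1 e2
  exact hmem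

end Pool.Agent.V1181.WCO
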