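import Pool.Agent.V1181.WCO2

/-!
# Chaotic weighted composition operators have a strongly run-away symbol
-/

set_option autoImplicit false
set_option linter.unusedSectionVars false

namespace Pool.Agent.V1181.WCO

open Set Filter Topology Metric

variable {E : Type*} [NormedAddCommGroup E] [InnerProductSpace ℝ E] [FiniteDimensional ℝ E]
  {𝕜 : Type*} [RCLike 𝕜] {Ω : Set E} {ω : E → 𝕜} {ψ : E → E}

/-- The quotients of suitable periodic functions are a chart. -/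
noncomputable def quo (f₀ : E → 𝕜) (f : Fin (Module.finrank ℝ E) → E → 𝕜) (z : E) : E :=
  ∑ i, (RCLike.re (f i z * (f₀ z)⁻¹)) • stdOrthonormalBasis ℝ E i

theorem quo_contDiffAt {f₀ : E → 𝕜} {f : Fin (Module.finrank ℝ E) → E → 𝕜} {z : E}
    (h₀ : ContDiffAt ℝ (⊤ : ℕ∞) f₀ z) (h : ∀ i, ContDiffAt ℝ (⊤ : ℕ∞) (f i) z) (hne : f₀ z ≠ 0) :
    ContDiffAt ℝ (⊤ : ℕ∞) (quo f₀ f) z := by
  unfold quo
  refine ContDiffAt.sum fun i _ => ContDiffAt.smul ?_ contDiffAt_const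
  have h1 : ContDiffAt ℝ (⊤ : ℕ∞) (fun z => f i z * (f₀ z)⁻¹) z := (h i).mul (h₀.inv hne)
  exact (RCLike.reCLM : 𝕜 →L[ℝ] ℝ).contDiff.contDiffAt.comp z h1

theorem quo_hasFDerivAt {f₀ : E → 𝕜} {f : Fin (Module.finrank ℝ E) → E → 𝕜} {y : E}
    (h₀ : ContDiffAt ℝ (⊤ : ℕ∞) f₀ y) (h : ∀ i, ContDiffAt ℝ (⊤ : ℕ∞) (f i) y) (h1 : f₀ y = 1)
    (hf : ∀ i, f i y = 0)
    (hd : ∀ i, fderiv ℝ (f i) y
      = (RCLike.ofRealCLM : ℝ →L[ℝ] 𝕜).comp (innerSL ℝ (stdOrthonormalBasis ℝ E i))) :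
    HasFDerivAt (quo f₀ f) (ContinuousLinearMap.id ℝ E) y := by
  have hne : f₀ y ≠ 0 := by rw [h1]; exact one_ne_zero
  have hinv : DifferentiableAt ℝ (fun z => (f₀ z)⁻¹) y :=
    (h₀.inv hne).differentiableAt (by norm_num)
  have key : HasFDerivAt (quo f₀ f) (∑ i, ((RCLike.reCLM : 𝕜 →L[ℝ] ℝ).comp
      (f i y • fderiv ℝ (fun z => (f₀ z)⁻¹) y + (f₀ y)⁻¹ • fderiv ℝ (f i) y)).smulRight
        (stdOrthonormalBasis ℝ E i)) y := by
    unfold quo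
    refine HasFDerivAt.fun_sum fun i _ => ?_
    have e1 : HasFDerivAt (fun z => f i z * (f₀ z)⁻¹)
        (f i y • fderiv ℝ (fun z => (f₀ z)⁻¹) y + (f₀ y)⁻¹ • fderiv ℝ (f i) y) y :=
      ((h i).differentiableAt (by norm_num)).hasFDerivAt.mul hinv.hasFDerivAt
    have e2 : HasFDerivAt (fun z => RCLike.re (f i z * (f₀ z)⁻¹))
        ((RCLike.reCLM : 𝕜 →L[ℝ] ℝ).comp
        (f i y • fderiv ℝ (fun z => (f₀ z)⁻¹) y + (f₀ y)⁻¹ • fderiv ℝ (f i) y)) y :=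
      (RCLike.reCLM : 𝕜 →L[ℝ] ℝ).hasFDerivAt.comp y e1
    exact e2.smul_const _
  refine key.congr_fderiv ?_
  ext v
  rw [ContinuousLinearMap.sum_apply]
  have e3 : ∀ i, (((RCLike.reCLM : 𝕜 →L[ℝ] ℝ).comp
      (f i y • fderiv ℝ (fun z => (f₀ z)⁻¹) y + (f₀ y)⁻¹ • fderiv ℝ (f i) y)).smulRight
        (stdOrthonormalBasis ℝ E i)) v
      = inner ℝ (stdOrthonormalBasis ℝ E i) v • stdOrthonormalBasis ℝ E i := by
    intro i
    rw [hf i, h1, hd i]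
    simp
  rw [Finset.sum_congr rfl fun i _ => e3 i, OrthonormalBasis.sum_repr']
  rfl

theorem chart (hΩ : IsOpen Ω) {f₀ : E → 𝕜} {f : Fin (Module.finrank ℝ E) → E → 𝕜} {y : E}
    (hy : y ∈ Ω) (h₀ : Smooth Ω f₀) (h : ∀ i, Smooth Ω (f i)) (h1 : f₀ y = 1)
    (hf : ∀ i, f i y = 0)
    (hd : ∀ i, fderiv ℝ (f i) y
      = (RCLike.ofRealCLM : ℝ →L[ℝ] 𝕜).comp (innerSL ℝ (stdOrthonormalBasis ℝ E i))) :
    ∃ δ > 0, ball y δ ⊆ Ω ∧ (∀ z ∈ ball y δ, f₀ z ≠ 0) ∧ InjOn (quo f₀ f) (ball y δ) ∧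
      IsOpen (quo f₀ f '' ball y (δ / 2)) := by
  have hne : f₀ y ≠ 0 := by rw [h1]; exact one_ne_zero
  have c₀ : ContDiffAt ℝ (⊤ : ℕ∞) f₀ y := h₀.contDiffAt (hΩ.mem_nhds hy)
  have c : ∀ i, ContDiffAt ℝ (⊤ : ℕ∞) (f i) y := fun i => (h i).contDiffAt (hΩ.mem_nhds hy)
  have d1 : HasFDerivAt (quo f₀ f) ((ContinuousLinearEquiv.refl ℝ E : E ≃L[ℝ] E) : E →L[ℝ] E) y :=
    quo_hasFDerivAt c₀ c h1 hf hd
  set Φ := (quo_contDiffAt c₀ c hne).toOpenPartialHomeomorph (quo f₀ f) d1 (by norm_num) with hΦ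
  have hsrc : Φ.source ∈ 𝓝 y := Φ.open_source.mem_nhds
    ((quo_contDiffAt c₀ c hne).mem_toOpenPartialHomeomorph_source d1 (by norm_num))
  have hne' : ∀ᶠ z in 𝓝 y, f₀ z ≠ 0 := c₀.continuousAt.eventually_ne hne
  obtain ⟨δ, hδ, hsub⟩ := Metric.mem_nhds_iff.1
    (inter_mem (inter_mem hsrc (hΩ.mem_nhds hy)) hne')
  refine ⟨δ, hδ, fun z hz => (hsub hz).1.2, fun z hz => (hsub hz).2, ?_, ?_⟩
  · have := Φ.injOn
    exact this.mono fun z hz => (hsub hz).1.1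
  · have h2 : ball y (δ / 2) ⊆ Φ.source := fun z hz =>
      (hsub (ball_subset_ball (by linarith) hz)).1.1
    exact Φ.isOpen_image_of_subset_source isOpen_ball h2

theorem strong_runaway (hΩ : IsOpen Ω) (hψ : MapsTo ψ Ω Ω) (hs : ContDiffOn ℝ (⊤ : ℕ∞) ψ Ω)
    (hω : Smooth Ω ω) (ht : Transitive Ω ω ψ) (hd : DensePeriodic Ω ω ψ) {K : Set E}
    (hK : K ⊆ Ω) (hKc : IsCompact K) : ∃ n₀ : ℕ, ∀ n ≥ n₀, ∀ x ∈ K, ψ^[n] x ∉ K := by
  by_contra hcon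
  push Not at hcon
  choose n hn z hz hzK using hcon
  have h0 : ∀ x ∈ Ω, ω x ≠ 0 := fun x hx => omega_ne ht hx
  have hinj : InjOn ψ Ω := psi_inj ht hψ hs hω
  let F : Ultrafilter ℕ := Ultrafilter.of atTop
  have hF : (F : Filter ℕ) ≤ atTop := Ultrafilter.of_le atTop
  obtain ⟨x, hxK, hx⟩ := hKc.ultrafilter_le_nhds (F.map z)
    (by
      rw [le_principal_iff]
      exact Filter.mem_map.2 (Filter.univ_mem' hz))
  obtain ⟨y, hyK, hy⟩ := hKc.ultrafilter_le_nhds (F.map fun m => ψ^[n m] (z m))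
    (by
      rw [le_principal_iff]
      exact Filter.mem_map.2 (Filter.univ_mem' hzK))
  have hxt : Tendsto z F (𝓝 x) := hx
  have hyt : Tendsto (fun m => ψ^[n m] (z m)) F (𝓝 y) := hy
  have hxΩ := hK hxK
  have hyΩ := hK hyK
  -- the periodic functions
  obtain ⟨N₀, hN₀, f₀, hp₀, hf₀, hdf₀⟩ := jets hΩ hψ hd hyΩ 1 0
  choose Ni hNi f hpf hf hdf using fun i : Fin (Module.finrank ℝ E) =>
    jets hΩ hψ hd hyΩ 0 ((RCLike.ofRealCLM : ℝ →L[ℝ] 𝕜).comp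
      (innerSL ℝ (stdOrthonormalBasis ℝ E i)))
  obtain ⟨Ns, hNs, fs, hps, hfs, -⟩ := jets hΩ hψ hd hxΩ 1 0
  set N := N₀ * Ns * ∏ i, Ni i with hNdef
  have hN : 1 ≤ N := Nat.mul_pos (Nat.mul_pos hN₀ hNs) (Finset.prod_pos fun i _ => hNi i)
  have P₀ : Per Ω ω ψ N f₀ := hp₀.dvd hψ (by rw [hNdef, mul_assoc]; exact dvd_mul_right _ _)
  have Ps : Per Ω ω ψ N fs := hps.dvd hψ
    (by rw [hNdef]; exact (dvd_mul_left _ _).mul_right _)
  have Pf : ∀ i, Per Ω ω ψ N (f i) := fun i => (hpf i).dvd hψ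
    ((Finset.dvd_prod_of_mem Ni (Finset.mem_univ i)).mul_left _)
  -- the residue
  obtain ⟨r, hrN, hr⟩ : ∃ r ∈ Set.Iio N, ∀ᶠ m in (F : Filter ℕ), n m % N = r := by
    have h1 : (⋃ r ∈ Set.Iio N, {m | n m % N = r}) ∈ F := by
      refine Filter.univ_mem' fun m => ?_
      simp only [mem_iUnion, mem_setOf_eq]
      exact ⟨n m % N, Nat.mod_lt _ hN, rfl⟩
    exact (Ultrafilter.finite_biUnion_mem_iff (Set.finite_Iio N)).1 h1
  have hrN' : r < N := hrN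
  -- continuity of the iterate at `x`
  have hψr : ContinuousAt ψ^[r] x :=
    ((smooth_iter hψ hs r).contDiffAt (hΩ.mem_nhds hxΩ)).continuousAt
  have hrx : ψ^[r] x ∈ Ω := maps_iter hψ r hxΩ
  have cross_lim : ∀ g h : E → 𝕜, Per Ω ω ψ N g → Per Ω ω ψ N h →
      g y * h (ψ^[r] x) = h y * g (ψ^[r] x) := by
    intro g h hg hh
    have lim : ∀ g h : E → 𝕜, Per Ω ω ψ N g → Per Ω ω ψ N h →
        Tendsto (fun m => g (ψ^[n m] (z m)) * h (ψ^[r] (z m))) F (𝓝 (g y * h (ψ^[r] x))) := by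
      intro g h hg hh
      have c1 : ContinuousAt g y := (hg.1.contDiffAt (hΩ.mem_nhds hyΩ)).continuousAt
      have c2 : ContinuousAt h (ψ^[r] x) := (hh.1.contDiffAt (hΩ.mem_nhds hrx)).continuousAt
      exact (c1.tendsto.comp hyt).mul (c2.tendsto.comp (hψr.tendsto.comp hxt))
    refine tendsto_nhds_unique (lim g h hg hh) ((lim h g hh hg).congr' ?_)
    filter_upwards [hr] with m hm
    exact (hg.cross hψ h0 hh hm (hK (hz m))).symm
  -- `f₀` does not vanish at `ψ^[r] x`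
  have hf₀r : f₀ (ψ^[r] x) ≠ 0 := by
    intro h
    have Pg : Per Ω ω ψ N (fun x => W ω ψ (N - r) x * fs (ψ^[N - r] x)) := Ps.iter hψ hs hω _
    have e1 : f₀ y * (W ω ψ (N - r) (ψ^[r] x) * fs (ψ^[N - r] (ψ^[r] x)))
        = (W ω ψ (N - r) y * fs (ψ^[N - r] y)) * f₀ (ψ^[r] x) := cross_lim f₀ _ P₀ Pg
    rw [h, hf₀, one_mul, mul_zero] at e1
    have e2 := Ps.2 x hxΩ
    obtain ⟨t, ht'⟩ : ∃ t, N = r + t := ⟨N - r, by omega⟩
    have ht2 : N - r = t := by omega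
    rw [ht2] at e1
    rw [ht', W_add, add_comm r, Function.iterate_add_apply, mul_assoc, e1, mul_zero, hfs] at e2
    exact zero_ne_one e2
  -- the chart
  obtain ⟨δ, hδ, hballΩ, hball₀, hqinj, hqopen⟩ := chart hΩ hyΩ P₀.1 (fun i => (Pf i).1) hf₀ hf hdf
  set q := quo f₀ f with hq
  have hqr : q (ψ^[r] x) = q y := by
    simp only [hq, quo]
    refine Finset.sum_congr rfl fun i _ => ?_
    have e1 := cross_lim f₀ (f i) P₀ (Pf i)
    rw [hf₀, hf i, one_mul, zero_mul] at e1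
    rw [e1, hf i]
    simp
  have hqc : ContinuousAt (fun z => q (ψ^[r] z)) x := by
    have c1 : ContinuousAt q (ψ^[r] x) :=
      (quo_contDiffAt (P₀.1.contDiffAt (hΩ.mem_nhds hrx))
        (fun i => (Pf i).1.contDiffAt (hΩ.mem_nhds hrx)) hf₀r).continuousAt
    exact c1.comp hψr
  have hV : q '' ball y (δ / 2) ∈ 𝓝 (q (ψ^[r] x)) := by
    rw [hqr]
    exact hqopen.mem_nhds (mem_image_of_mem _ (mem_ball_self (by linarith)))
  have hne : ∀ᶠ z in 𝓝 x, f₀ (ψ^[r] z) ≠ 0 := by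
    have c1 : ContinuousAt f₀ (ψ^[r] x) := (P₀.1.contDiffAt (hΩ.mem_nhds hrx)).continuousAt
    have c2 : ContinuousAt (fun z => f₀ (ψ^[r] z)) x :=
      ContinuousAt.comp (f := ψ^[r]) (g := f₀) c1 hψr
    exact c2.eventually_ne hf₀r
  obtain ⟨ρ, hρ, hB⟩ := Metric.mem_nhds_iff.1
    (inter_mem (inter_mem (hqc.preimage_mem_nhds hV) (hΩ.mem_nhds hxΩ)) hne)
  -- equality of the quotients along the orbit
  have hquo : ∀ k, k % N = r → ∀ z ∈ ball x ρ, f₀ (ψ^[k] z) ≠ 0 → q (ψ^[k] z) = q (ψ^[r] z) := by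
    intro k hk z hz hnz
    have hzΩ : z ∈ Ω := (hB hz).1.2
    have hnz' : f₀ (ψ^[r] z) ≠ 0 := (hB hz).2
    simp only [hq, quo]
    refine Finset.sum_congr rfl fun i _ => ?_
    have e1 := P₀.cross hψ h0 (Pf i) hk hzΩ
    have e2 : f i (ψ^[k] z) * (f₀ (ψ^[k] z))⁻¹ = f i (ψ^[r] z) * (f₀ (ψ^[r] z))⁻¹ := by
      field_simp
      linear_combination -e1
    rw [e2]
  have hcont : ∀ k, ContinuousOn ψ^[k] (ball x ρ) := fun k =>
    ((smooth_iter hψ hs k).continuousOn).mono fun z hz => (hB hz).1.2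
  -- the clopen argument
  have hclopen : ∀ k, k % N = r → (∃ z ∈ ball x ρ, ψ^[k] z ∈ ball y δ) → ψ^[k] x ∈ ball y δ := by
    rintro k hk ⟨z₀, hz₀, hz₀'⟩
    have hstep : ∀ z ∈ ball x ρ, ψ^[k] z ∈ ball y δ → ψ^[k] z ∈ ball y (δ / 2) := by
      intro z hz hz'
      have e1 := hquo k hk z hz (hball₀ _ hz')
      obtain ⟨w, hw, hw'⟩ := (hB hz).1.1
      have hw2 : w ∈ ball y δ := ball_subset_ball (by linarith) hw
      have : w = ψ^[k] z := hqinj hw2 hz' (by rw [e1]; exact hw')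
      rw [← this]
      exact hw
    have ho1 : IsOpen (ball x ρ ∩ ψ^[k] ⁻¹' ball y δ) :=
      (hcont k).isOpen_inter_preimage isOpen_ball isOpen_ball
    have ho2 : IsOpen (ball x ρ ∩ ψ^[k] ⁻¹' (closedBall y (δ / 2))ᶜ) :=
      (hcont k).isOpen_inter_preimage isOpen_ball isClosed_closedBall.isOpen_compl
    have hpc : IsPreconnected (ball x ρ) := (convex_ball x ρ).isPreconnected
    have hsub : ball x ρ ⊆ ball x ρ ∩ ψ^[k] ⁻¹' ball y δ := by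
      refine hpc.subset_left_of_subset_union ho1 ho2 ?_ ?_ ⟨z₀, hz₀, hz₀, hz₀'⟩
      · rw [Set.disjoint_left]
        rintro z ⟨hz1, hz2⟩ ⟨-, hz3⟩
        exact hz3 (ball_subset_closedBall (hstep z hz1 hz2))
      · intro z hz
        by_cases hc : ψ^[k] z ∈ closedBall y (δ / 2)
        · exact Or.inl ⟨hz, closedBall_subset_ball (by linarith) hc⟩
        · exact Or.inr ⟨hz, hc⟩
    exact (hsub (mem_ball_self hρ)).2
  -- eventually the orbit of `x` passes through one point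
  have hev : ∀ᶠ m in (F : Filter ℕ), ψ^[n m] x ∈ ball y δ ∧ q (ψ^[n m] x) = q (ψ^[r] x) := by
    filter_upwards [hr, hxt (ball_mem_nhds x hρ), hyt (ball_mem_nhds y hδ)] with m h1 h2 h3
    have h4 := hclopen (n m) h1 ⟨z m, h2, h3⟩
    exact ⟨h4, hquo _ h1 x (mem_ball_self hρ) (hball₀ _ h4)⟩
  obtain ⟨m₁, hm₁⟩ := hev.exists
  have hlt : ∀ᶠ m in (F : Filter ℕ), n m₁ < n m := by
    refine hF ?_
    filter_upwards [eventually_gt_atTop (n m₁)] with m hm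
    exact lt_of_lt_of_le hm (hn m)
  obtain ⟨m₂, hm₂, hlt'⟩ := (hev.and hlt).exists
  have heq : ψ^[n m₁] x = ψ^[n m₂] x := hqinj hm₁.1 hm₂.1 (by rw [hm₁.2, hm₂.2])
  have hiter : ∀ k, InjOn ψ^[k] Ω := by
    intro k
    induction k with
    | zero => exact injOn_id Ω
    | succ k ih =>
      rw [Function.iterate_succ']
      exact hinj.comp ih (maps_iter hψ k)
  have hper : ψ^[n m₂ - n m₁] x = x := by
    have e1 : ψ^[n m₁] (ψ^[n m₂ - n m₁] x) = ψ^[n m₁] x := by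
      rw [← Function.iterate_add_apply, show n m₁ + (n m₂ - n m₁) = n m₂ by omega, heq]
    exact hiter _ (maps_iter hψ _ hxΩ) hxΩ e1
  exact no_periodic ht hψ hxΩ (show 1 ≤ n m₂ - n m₁ by omega) hper

end Pool.Agent.V1181.WCO
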