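import Pool.Agent.V1181.WCO3

/-!
# Strongly run-away symbols give mixing weighted composition operators
-/

set_option autoImplicit false
set_option linter.unusedSectionVars false

namespace Pool.Agent.V1181.WCO

open Set Filter Topology Metric Manifold

variable {E : Type*} [NormedAddCommGroup E] [InnerProductSpace ℝ E] [FiniteDimensional ℝ E]
  {𝕜 : Type*} [RCLike 𝕜] {Ω : Set E} {ω : E → 𝕜} {ψ : E → E}

theorem inj_iter (hψ : MapsTo ψ Ω Ω) (hinj : InjOn ψ Ω) (k : ℕ) : InjOn ψ^[k] Ω := by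
  induction k with
  | zero => exact injOn_id Ω
  | succ k ih =>
    rw [Function.iterate_succ']
    exact hinj.comp ih (maps_iter hψ k)

theorem dinj_iter (hΩ : IsOpen Ω) (hψ : MapsTo ψ Ω Ω) (hs : ContDiffOn ℝ (⊤ : ℕ∞) ψ Ω)
    (hdinj : ∀ a ∈ Ω, ∀ v, fderiv ℝ ψ a v = 0 → v = 0) (n : ℕ) {a : E} (ha : a ∈ Ω) {v : E}
    (hv : fderiv ℝ ψ^[n] a v = 0) : v = 0 := by
  induction n generalizing v with
  | zero =>
    have : fderiv ℝ (ψ^[0]) a = ContinuousLinearMap.id ℝ E := fderiv_id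
    rw [this] at hv
    exact hv
  | succ n ih =>
    have d1 : DifferentiableAt ℝ ψ^[n] a :=
      ((smooth_iter hψ hs n).contDiffAt (hΩ.mem_nhds ha)).differentiableAt (by norm_num)
    have d2 : DifferentiableAt ℝ ψ (ψ^[n] a) :=
      (hs.contDiffAt (hΩ.mem_nhds (maps_iter hψ n ha))).differentiableAt (by norm_num)
    rw [Function.iterate_succ', fderiv_comp a d2 d1] at hv
    exact ih (hdinj _ (maps_iter hψ n ha) _ hv)

/-- One piece of a prescribed orbit. -/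
theorem piece (hΩ : IsOpen Ω) (hψ : MapsTo ψ Ω Ω) (hs : ContDiffOn ℝ (⊤ : ℕ∞) ψ Ω)
    (hω : Smooth Ω ω) (h0 : ∀ x ∈ Ω, ω x ≠ 0) (hinj : InjOn ψ Ω)
    (hdinj : ∀ a ∈ Ω, ∀ v, fderiv ℝ ψ a v = 0 → v = 0) (n : ℕ) {g : E → 𝕜} (hg : Smooth Ω g)
    {χ : E → ℝ} (hχ : ContDiff ℝ (⊤ : ℕ∞) χ) (hc : HasCompactSupport χ) (hsupp : tsupport χ ⊆ Ω) :
    ∃ p : E → 𝕜, ContDiff ℝ (⊤ : ℕ∞) p ∧
      (∀ z ∈ Ω, p (ψ^[n] z) = (χ z : 𝕜) * g z * (W ω ψ n z)⁻¹) ∧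
      ∀ x, x ∉ ψ^[n] '' tsupport χ → p x = 0 := by
  classical
  set G : E → 𝕜 := fun z => (χ z : 𝕜) * g z * (W ω ψ n z)⁻¹ with hG
  set p : E → 𝕜 := fun x => if h : ∃ z ∈ Ω, ψ^[n] z = x then G h.choose else 0 with hp
  have hpz : ∀ z ∈ Ω, p (ψ^[n] z) = G z := by
    intro z hz
    have h : ∃ z' ∈ Ω, ψ^[n] z' = ψ^[n] z := ⟨z, hz, rfl⟩
    simp only [hp]
    rw [dif_pos h]
    have := inj_iter hψ hinj n h.choose_spec.1 hz h.choose_spec.2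
    rw [this]
  have hp0 : ∀ x, x ∉ ψ^[n] '' tsupport χ → p x = 0 := by
    intro x hx
    by_cases h : ∃ z ∈ Ω, ψ^[n] z = x
    · obtain ⟨z, hz, rfl⟩ := h
      rw [hpz z hz]
      have hzt : z ∉ tsupport χ := fun hz' => hx ⟨z, hz', rfl⟩
      simp only [hG]
      rw [image_eq_zero_of_notMem_tsupport hzt]
      simp
    · simp only [hp]
      rw [dif_neg h]
  refine ⟨p, ?_, hpz, hp0⟩
  rw [contDiff_iff_contDiffAt]
  intro x
  have hcl : IsClosed (ψ^[n] '' tsupport χ) :=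
    (IsCompact.image_of_continuousOn (show IsCompact (tsupport χ) from hc)
      ((smooth_iter hψ hs n).continuousOn.mono hsupp)).isClosed
  by_cases hx : x ∈ ψ^[n] '' tsupport χ
  · obtain ⟨z₀, hz₀, rfl⟩ := hx
    have hz₀Ω := hsupp hz₀
    have cψ : ContDiffAt ℝ (⊤ : ℕ∞) ψ^[n] z₀ :=
      (smooth_iter hψ hs n).contDiffAt (hΩ.mem_nhds hz₀Ω)
    have hker : Function.Injective ((fderiv ℝ ψ^[n] z₀ : E →L[ℝ] E) : E →ₗ[ℝ] E) := by
      rw [← LinearMap.ker_eq_bot, LinearMap.ker_eq_bot']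
      intro v hv
      exact dinj_iter hΩ hψ hs hdinj n hz₀Ω hv
    set e : E ≃L[ℝ] E := (LinearEquiv.ofInjectiveEndo _ hker).toContinuousLinearEquiv with he
    have hee : (e : E →L[ℝ] E) = fderiv ℝ ψ^[n] z₀ := by
      ext v
      rfl
    have dψ : HasFDerivAt ψ^[n] (e : E →L[ℝ] E) z₀ := by
      rw [hee]
      exact (cψ.differentiableAt (by norm_num)).hasFDerivAt
    have hne : ((⊤ : ℕ∞) : WithTop ℕ∞) ≠ 0 := by norm_num
    have hinv := cψ.to_localInverse dψ hne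
    have hz : cψ.localInverse dψ hne (ψ^[n] z₀) = z₀ := cψ.localInverse_apply_image dψ hne
    have hGc : ContDiffAt ℝ (⊤ : ℕ∞) G z₀ := by
      have c1 : ContDiffAt ℝ (⊤ : ℕ∞) (fun z => (χ z : 𝕜)) z₀ :=
        (RCLike.ofRealCLM : ℝ →L[ℝ] 𝕜).contDiff.contDiffAt.comp z₀ hχ.contDiffAt
      have c2 : ContDiffAt ℝ (⊤ : ℕ∞) g z₀ := hg.contDiffAt (hΩ.mem_nhds hz₀Ω)
      have c3 : ContDiffAt ℝ (⊤ : ℕ∞) (W ω ψ n) z₀ :=
        (smooth_W hψ hs hω n).contDiffAt (hΩ.mem_nhds hz₀Ω)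
      exact (c1.mul c2).mul (c3.inv (W_ne hψ h0 n hz₀Ω))
    have hcomp : ContDiffAt ℝ (⊤ : ℕ∞) (fun x => G (cψ.localInverse dψ hne x)) (ψ^[n] z₀) := by
      refine ContDiffAt.comp (ψ^[n] z₀) (g := G) ?_ hinv
      rw [hz]
      exact hGc
    refine hcomp.congr_of_eventuallyEq ?_
    have hr : ∀ᶠ x in 𝓝 (ψ^[n] z₀), ψ^[n] (cψ.localInverse dψ hne x) = x :=
      (cψ.hasStrictFDerivAt' dψ hne).eventually_right_inverse
    have hcont : Tendsto (cψ.localInverse dψ hne) (𝓝 (ψ^[n] z₀)) (𝓝 z₀) := by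
      have := hinv.continuousAt.tendsto
      rwa [hz] at this
    filter_upwards [hr, hcont (hΩ.mem_nhds hz₀Ω)] with x h1 h2
    conv_lhs => rw [← h1]
    exact hpz _ h2
  · have h1 : p =ᶠ[𝓝 x] fun _ => 0 := by
      filter_upwards [hcl.isOpen_compl.mem_nhds hx] with x' hx'
      exact hp0 x' hx'
    exact contDiffAt_const.congr_of_eventuallyEq h1

/-- Cutoff functions. -/
theorem cutoff {L L' : Set E} (hL : IsCompact L) (hL' : IsCompact L') (h : L ⊆ interior L') :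
    ∃ χ : E → ℝ, ContDiff ℝ (⊤ : ℕ∞) χ ∧ HasCompactSupport χ ∧ tsupport χ ⊆ L' ∧
      ∀ x ∈ L, ∀ᶠ y in 𝓝 x, χ y = 1 := by
  obtain ⟨χ, h1, h2, -⟩ := exists_contMDiffMap_one_nhds_of_subset_interior (𝓘(ℝ, E))
    (n := (⊤ : ℕ∞)) hL.isClosed h
  have hsup : tsupport (χ : E → ℝ) ⊆ L' := by
    refine closure_minimal ?_ hL'.isClosed
    intro x hx
    by_contra hx'
    exact hx (h2 x hx')
  refine ⟨χ, χ.contMDiff.contDiff, HasCompactSupport.of_support_subset_isCompact hL'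
    ((subset_tsupport _).trans hsup), hsup, fun x hx => ?_⟩
  exact h1.filter_mono (nhds_le_nhdsSet hx)

/-- A compact neighbourhood. -/
theorem cpt_nhd (hΩ : IsOpen Ω) {L : Set E} (hL : IsCompact L) (hLΩ : L ⊆ Ω) :
    ∃ L', IsCompact L' ∧ L ⊆ interior L' ∧ L' ⊆ Ω :=
  exists_compact_between hL hΩ hLΩ

/-- Mixing from the strong run-away property. -/
theorem mixing_of (hΩ : IsOpen Ω) (hψ : MapsTo ψ Ω Ω) (hs : ContDiffOn ℝ (⊤ : ℕ∞) ψ Ω)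
    (hω : Smooth Ω ω) (h0 : ∀ x ∈ Ω, ω x ≠ 0) (hinj : InjOn ψ Ω)
    (hdinj : ∀ a ∈ Ω, ∀ v, fderiv ℝ ψ a v = 0 → v = 0)
    (hrun : ∀ K ⊆ Ω, IsCompact K → ∃ n₀ : ℕ, ∀ n ≥ n₀, ∀ x ∈ K, ψ^[n] x ∉ K) :
    Mixing Ω ω ψ := by
  intro f g hf hg L hLΩ hL m ε hε
  obtain ⟨L', hL', hLL', hL'Ω⟩ := cpt_nhd hΩ hL hLΩ
  obtain ⟨χ, hχ, hc, hsup, hone⟩ := cutoff hL hL' hLL'
  obtain ⟨n₀, hn₀⟩ := hrun L' hL'Ω hL'
  refine ⟨n₀, fun n hn => ?_⟩
  obtain ⟨p, hp, hpz, hp0⟩ := piece hΩ hψ hs hω h0 hinj hdinj n hg hχ hc (hsup.trans hL'Ω)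
  have hpL : ∀ x ∈ L', p x = 0 := by
    intro x hx
    refine hp0 x ?_
    rintro ⟨z, hz, rfl⟩
    exact hn₀ n hn z (hsup hz) hx
  refine ⟨fun x => (χ x : 𝕜) * f x + p x, ?_, ?_, ?_⟩
  · refine ContDiffOn.add (ContDiffOn.mul ?_ hf) hp.contDiffOn
    exact ((RCLike.ofRealCLM : ℝ →L[ℝ] 𝕜).contDiff.comp hχ).contDiffOn
  · refine near_of_eventuallyEq hε fun x hx => ?_
    filter_upwards [hone x hx, isOpen_interior.mem_nhds (hLL' hx)] with y h1 h2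
    rw [h1, hpL y (interior_subset h2)]
    simp
  · refine near_of_eventuallyEq hε fun x hx => ?_
    filter_upwards [hone x hx, isOpen_interior.mem_nhds (hLL' hx)] with y h1 h2
    have hy : y ∈ L' := interior_subset h2
    have hyΩ := hL'Ω hy
    rw [iter_eq, hpz y hyΩ, h1, image_eq_zero_of_notMem_tsupport
      (fun h => hn₀ n hn y hy (hsup h))]
    have := W_ne hψ h0 n hyΩ
    simp only [map_zero, zero_mul, zero_add, map_one, one_mul]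
    field_simp

end Pool.Agent.V1181.WCO
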