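import Pool.Agent.V1181.WCO4

/-!
# Hypercyclic vectors of weighted composition operators
-/

set_option autoImplicit false
set_option linter.unusedSectionVars false
set_option linter.style.haveILetI false

namespace Pool.Agent.V1181.WCO

open Set Filter Topology Metric Manifold

variable {E : Type*} [NormedAddCommGroup E] [InnerProductSpace ℝ E] [FiniteDimensional ℝ E]
  {𝕜 : Type*} [RCLike 𝕜] {Ω : Set E} {ω : E → 𝕜} {ψ : E → E}

/-- The weighted composition operator is supercyclic on `C^∞(Ω)`: some projective orbit is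
dense. -/
def Supercyclic (Ω : Set E) (ω : E → 𝕜) (ψ : E → E) : Prop :=
  ∃ g : E → 𝕜, Smooth Ω g ∧ ∀ f : E → 𝕜, Smooth Ω f → ∀ L ⊆ Ω, IsCompact L →
    ∀ (m : ℕ) (ε : ℝ), 0 < ε → ∃ (n : ℕ) (c : 𝕜),
      Near L m ε (fun x => c * (wco ω ψ)^[n] g x) f

/-- The weighted composition operator is hypercyclic on `C^∞(Ω)`: some orbit is dense. -/
def Hypercyclic (Ω : Set E) (ω : E → 𝕜) (ψ : E → E) : Prop :=
  ∃ g : E → 𝕜, Smooth Ω g ∧ ∀ f : E → 𝕜, Smooth Ω f → ∀ L ⊆ Ω, IsCompact L →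
    ∀ (m : ℕ) (ε : ℝ), 0 < ε → ∃ n : ℕ, Near L m ε ((wco ω ψ)^[n] g) f

theorem Hypercyclic.supercyclic (h : Hypercyclic Ω ω ψ) : Supercyclic Ω ω ψ := by
  obtain ⟨g, hg, h⟩ := h
  refine ⟨g, hg, fun f hf L hL hLc m ε hε => ?_⟩
  obtain ⟨n, hn⟩ := h f hf L hL hLc m ε hε
  exact ⟨n, 1, by simpa using hn⟩

/-- An exhaustion by compact sets. -/
theorem exhaustion (hΩ : IsOpen Ω) : ∃ K : ℕ → Set E, (∀ n, IsCompact (K n)) ∧ (∀ n, K n ⊆ Ω) ∧
    (∀ L ⊆ Ω, IsCompact L → ∃ n, L ⊆ K n) ∧ (∀ n m, n ≤ m → K n ⊆ K m) ∧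
    ∀ x ∈ Ω, ∃ n, K n ∈ 𝓝 x := by
  haveI : LocallyCompactSpace Ω := hΩ.locallyCompactSpace
  let C : CompactExhaustion Ω := CompactExhaustion.choice Ω
  refine ⟨fun n => Subtype.val '' C n, fun n => (C.isCompact n).image continuous_subtype_val,
    fun n => ?_, fun L hL hLc => ?_, fun n m hnm => image_mono (C.subset hnm), fun x hx => ?_⟩
  · rintro x ⟨y, -, rfl⟩
    exact y.2
  · have h1 : IsCompact (Subtype.val ⁻¹' L : Set Ω) := by
      rw [Subtype.isCompact_iff, Subtype.image_preimage_coe, inter_eq_self_of_subset_right hL]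
      exact hLc
    obtain ⟨n, hn⟩ := C.exists_superset_of_isCompact h1
    refine ⟨n, fun x hx => ⟨⟨x, hL hx⟩, hn hx, rfl⟩⟩
  · obtain ⟨n, hn⟩ := C.exists_mem_nhds ⟨x, hx⟩
    exact ⟨n, hΩ.isOpenEmbedding_subtypeVal.image_mem_nhds.2 hn⟩

theorem instFinMul (i : ℕ) : FiniteDimensional ℝ (E [×i]→L[ℝ] 𝕜) := by
  have h : Module.Finite ℝ (MultilinearMap ℝ (fun _ : Fin i => E) 𝕜) :=
    Module.Finite.multilinearMap
  have h2 : IsNoetherian ℝ (MultilinearMap ℝ (fun _ : Fin i => E) 𝕜) :=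
    isNoetherian_of_isNoetherianRing_of_finite ℝ _
  exact Module.Finite.of_injective
    (ContinuousMultilinearMap.toMultilinearMapLinear :
      (E [×i]→L[ℝ] 𝕜) →ₗ[ℝ] MultilinearMap ℝ (fun _ : Fin i => E) 𝕜)
    ContinuousMultilinearMap.toMultilinearMap_injective

/-- Smooth functions form a separable space. -/
theorem separable (hΩ : IsOpen Ω) : ∃ d : ℕ → E → 𝕜, (∀ k, Smooth Ω (d k)) ∧
    ∀ f : E → 𝕜, Smooth Ω f → ∀ L ⊆ Ω, IsCompact L → ∀ (m : ℕ) (ε : ℝ), 0 < ε →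
      ∃ k, Near L m ε (d k) f := by
  obtain ⟨K, hK, hKΩ, hcov, -, -⟩ := exhaustion hΩ
  haveI : ∀ j, CompactSpace (K j) := fun j => isCompact_iff_compactSpace.1 (hK j)
  haveI : ∀ i : ℕ, ProperSpace (E [×i]→L[ℝ] 𝕜) := fun i => by
    have := instFinMul (E := E) (𝕜 := 𝕜) i
    exact FiniteDimensional.proper ℝ (E [×i]→L[ℝ] 𝕜)
  let X := {f : E → 𝕜 // Smooth Ω f}
  let J : X → (∀ j : ℕ, ∀ i : ℕ, C(K j, E [×i]→L[ℝ] 𝕜)) := fun f j i =>
    ⟨fun x => iteratedFDeriv ℝ i f.1 x, by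
      rw [continuous_iff_continuousAt]
      intro x
      have h1 : ContDiffAt ℝ (⊤ : ℕ∞) f.1 x := f.2.contDiffAt (hΩ.mem_nhds (hKΩ j x.2))
      have h2 : ContinuousAt (iteratedFDeriv ℝ i f.1) (x : E) := by
        have h3 : ContDiffAt ℝ 0 (iteratedFDeriv ℝ i f.1) (x : E) :=
          h1.iteratedFDeriv_right (m := 0) (i := i) (by
            rw [zero_add]
            exact_mod_cast le_top)
        exact h3.continuousAt
      exact ContinuousAt.comp (g := iteratedFDeriv ℝ i f.1) h2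
        continuous_subtype_val.continuousAt⟩
  letI : TopologicalSpace X := TopologicalSpace.induced J inferInstance
  haveI : SecondCountableTopology X := TopologicalSpace.secondCountableTopology_induced _ _ J
  haveI : Nonempty X := ⟨⟨fun _ => 0, contDiffOn_const⟩⟩
  refine ⟨fun k => (TopologicalSpace.denseSeq X k).1, fun k =>
    (TopologicalSpace.denseSeq X k).2, fun f hf L hL hLc m ε hε => ?_⟩
  obtain ⟨j, hj⟩ := hcov L hL hLc
  have hJ : Continuous J := continuous_induced_dom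
  let U : Set X := ⋂ i ∈ Finset.range (m + 1), {g : X | dist (J g j i) (J ⟨f, hf⟩ j i) < ε}
  have hU : IsOpen U := by
    refine isOpen_biInter_finset fun i _ => ?_
    have h1 : Continuous fun g : X => J g j i :=
      (continuous_apply i).comp ((continuous_apply j).comp hJ)
    exact isOpen_lt (h1.dist continuous_const) continuous_const
  have hfU : (⟨f, hf⟩ : X) ∈ U := by
    simp only [U, mem_iInter]
    intro i _
    show dist _ _ < ε
    rw [dist_self]
    exact hε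
  obtain ⟨k, hk⟩ := (TopologicalSpace.denseRange_denseSeq X).exists_mem_open hU ⟨_, hfU⟩
  refine ⟨k, fun x hx i hi => ?_⟩
  set g := TopologicalSpace.denseSeq X k with hg
  have h1 : dist (J g j i) (J ⟨f, hf⟩ j i) < ε := by
    simp only [U, mem_iInter] at hk
    exact hk i (Finset.mem_range.2 (by omega))
  have h2 : dist (J g j i ⟨x, hj hx⟩) (J ⟨f, hf⟩ j i ⟨x, hj hx⟩) < ε :=
    lt_of_le_of_lt (ContinuousMap.dist_apply_le_dist _) h1
  have hxΩ := hL hx
  have c1 : ContDiffAt ℝ i g.1 x := (g.2.contDiffAt (hΩ.mem_nhds hxΩ)).of_le (by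
    exact_mod_cast le_top)
  have c2 : ContDiffAt ℝ i f x := (hf.contDiffAt (hΩ.mem_nhds hxΩ)).of_le (by
    exact_mod_cast le_top)
  change ‖iteratedFDeriv ℝ i (g.1 - f) x‖ < ε
  rw [iteratedFDeriv_sub_apply c1 c2, ← dist_eq_norm]
  exact h2

/-- A run-away symbol (with the other necessary conditions) gives a hypercyclic operator. -/
theorem hypercyclic_of (hΩ : IsOpen Ω) (hψ : MapsTo ψ Ω Ω) (hs : ContDiffOn ℝ (⊤ : ℕ∞) ψ Ω)
    (hω : Smooth Ω ω) (h0 : ∀ x ∈ Ω, ω x ≠ 0) (hinj : InjOn ψ Ω)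
    (hdinj : ∀ a ∈ Ω, ∀ v, fderiv ℝ ψ a v = 0 → v = 0)
    (hrun : ∀ K ⊆ Ω, IsCompact K → ∃ n : ℕ, ∀ x ∈ K, ψ^[n] x ∉ K) :
    Hypercyclic Ω ω ψ := by
  obtain ⟨d, hd, hdense⟩ := separable (𝕜 := 𝕜) hΩ
  obtain ⟨K, hK, hKΩ, hcov, hmono, hnhd⟩ := exhaustion hΩ
  choose L' hL' hLL' hL'Ω using fun k =>
    cpt_nhd hΩ (hK (Nat.unpair k).2) (hKΩ (Nat.unpair k).2)
  let C := {S : Set E // S ⊆ Ω ∧ IsCompact S}
  choose N hN using fun S : C => hrun S.1 S.2.1 S.2.2
  have himg : ∀ (S : C) (n : ℕ), ψ^[n] '' S.1 ⊆ Ω ∧ IsCompact (ψ^[n] '' S.1) := fun S n =>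
    ⟨by
      rintro x ⟨y, hy, rfl⟩
      exact maps_iter hψ n (S.2.1 hy),
    S.2.2.image_of_continuousOn ((smooth_iter hψ hs n).continuousOn.mono S.2.1)⟩
  let step : ℕ → C → C := fun k S => ⟨(S.1 ∪ ψ^[N S] '' S.1) ∪ (L' (k + 1) ∪ K (k + 1)),
    union_subset (union_subset S.2.1 (himg S _).1) (union_subset (hL'Ω _) (hKΩ _)),
    (S.2.2.union (himg S _).2).union ((hL' _).union (hK _))⟩
  let M : ℕ → C := fun k => Nat.rec (motive := fun _ => C)
    ⟨L' 0 ∪ K 0, union_subset (hL'Ω _) (hKΩ _), (hL' _).union (hK _)⟩ step k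
  have hM1 : ∀ k, M (k + 1) = step k (M k) := fun k => rfl
  have hMsub : ∀ k, (M k).1 ⊆ (M (k + 1)).1 := fun k => by
    rw [hM1]
    exact subset_union_left.trans subset_union_left
  have hMmono : Monotone fun k => (M k).1 := monotone_nat_of_le_succ hMsub
  have hMimg : ∀ k, ψ^[N (M k)] '' (M k).1 ⊆ (M (k + 1)).1 := fun k => by
    rw [hM1]
    exact subset_union_right.trans subset_union_left
  have hML : ∀ k, L' k ⊆ (M k).1 := by
    rintro (_ | k)
    · exact subset_union_left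
    · rw [hM1]
      exact subset_union_left.trans subset_union_right
  have hMK : ∀ k, K k ⊆ (M k).1 := by
    rintro (_ | k)
    · exact subset_union_right
    · rw [hM1]
      exact subset_union_right.trans subset_union_right
  choose χ hχ hc hsup hone using fun k => cutoff (hK (Nat.unpair k).2) (hL' k) (hLL' k)
  choose p hp hpz hp0 using fun k => piece hΩ hψ hs hω h0 hinj hdinj (N (M k))
    (hd (Nat.unpair k).1) (hχ k) (hc k) ((hsup k).trans (hL'Ω k))
  have hA : ∀ j k, j ≤ k → ∀ x ∈ (M j).1, p k x = 0 := by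
    intro j k hjk x hx
    refine hp0 k x ?_
    rintro ⟨z, hz, rfl⟩
    exact hN (M k) z (hML k (hsup k hz)) (hMmono hjk hx)
  have hB : ∀ k, ∀ x, x ∉ (M (k + 1)).1 → p k x = 0 := by
    intro k x hx
    refine hp0 k x ?_
    rintro ⟨z, hz, rfl⟩
    exact hx (hMimg k ⟨z, hML k (hsup k hz), rfl⟩)
  have hsum : ∀ j, ∀ x ∈ (M j).1, ∑' k, p k x = ∑ k ∈ Finset.range j, p k x := by
    intro j x hx
    refine tsum_eq_sum fun k hk => ?_
    exact hA j k (by simpa using hk) x hx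
  refine ⟨fun x => ∑' k, p k x, ?_, ?_⟩
  · intro x hx
    obtain ⟨j, hj⟩ := hnhd x hx
    have h1 : (fun x => ∑' k, p k x) =ᶠ[𝓝 x] fun x => ∑ k ∈ Finset.range j, p k x := by
      filter_upwards [hj] with y hy
      exact hsum j y (hMK j hy)
    have h2 : ContDiffAt ℝ (⊤ : ℕ∞) (fun x => ∑ k ∈ Finset.range j, p k x) x :=
      ContDiffAt.sum fun k _ => (hp k).contDiffAt
    exact (h2.congr_of_eventuallyEq h1).contDiffWithinAt
  · intro f hf S hS hSc m ε hε
    obtain ⟨j, hj⟩ := hcov S hS hSc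
    obtain ⟨i, hi⟩ := hdense f hf S hS hSc m ε hε
    set k := Nat.pair i j with hk
    have hk1 : (Nat.unpair k).1 = i := by rw [hk, Nat.unpair_pair]
    have hk2 : (Nat.unpair k).2 = j := by rw [hk, Nat.unpair_pair]
    refine ⟨N (M k), fun x hx l hl => ?_⟩
    have hxK : x ∈ K (Nat.unpair k).2 := by rw [hk2]; exact hj hx
    have key : (wco ω ψ)^[N (M k)] (fun x => ∑' k, p k x) =ᶠ[𝓝 x] d i := by
      filter_upwards [hone k x hxK, isOpen_interior.mem_nhds (hLL' k hxK)] with z h1 h2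
      have hzL : z ∈ L' k := interior_subset h2
      have hzM : z ∈ (M k).1 := hML k hzL
      have hzΩ : z ∈ Ω := hL'Ω k hzL
      have hw : ψ^[N (M k)] z ∈ (M (k + 1)).1 := hMimg k ⟨z, hzM, rfl⟩
      have hw' : ψ^[N (M k)] z ∉ (M k).1 := hN (M k) z hzM
      rw [iter_eq, hsum (k + 1) _ hw, Finset.sum_range_succ, Finset.sum_eq_zero, zero_add,
        hpz k z hzΩ, h1, hk1]
      · have := W_ne hψ h0 (N (M k)) hzΩ
        simp only [map_one, one_mul]
        field_simp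
      · intro a ha
        have ha' : a + 1 ≤ k := Finset.mem_range.1 ha
        exact hB a _ fun h => hw' (hMmono ha' h)
    have h3 := hi x hx l hl
    have h4 : (fun y => (wco ω ψ)^[N (M k)] (fun x => ∑' k, p k x) y - f y)
        =ᶠ[𝓝 x] fun y => d i y - f y := by
      filter_upwards [key] with y hy
      rw [hy]
    rw [(h4.iteratedFDeriv ℝ l).self_of_nhds]
    exact h3

end Pool.Agent.V1181.WCO
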