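import Pool.Agent.V1181.WCO5

/-!
# A run-away map which is not strongly run-away
-/

set_option autoImplicit false
set_option linter.unusedSectionVars false

namespace Pool.Agent.V1181.WCO

open Set Filter Topology Metric

/-- The size of the shift as a function of `t = log H²`. -/
noncomputable def gG (t : ℝ) : ℝ := t ^ 2 * (1 + Real.sin (Real.log (1 + t ^ 2)))

/-- The gate. -/
noncomputable def chi (u v : ℝ) : ℝ :=
  Real.smoothTransition (10 * (u ^ 2 * v ^ 2 / (u ^ 2 + v ^ 2) ^ 2) - 6 / 10)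

variable {d : ℕ}

/-- The shift. -/
noncomputable def phi (x : EuclideanSpace ℝ (Fin (d + 3))) : ℝ :=
  gG (Real.log ((x 0 * x 1) ^ 2)) * chi (x 0) (x 1)

/-- The domain `{x : (x₀, x₁) ≠ (0, 0)}`. -/
def Dom (d : ℕ) : Set (EuclideanSpace ℝ (Fin (d + 3))) := {x | x 0 ^ 2 + x 1 ^ 2 ≠ 0}

/-- The symbol `(x₀, x₁, x₂, x') ↦ (2 x₀, x₁ / 2, x₂ + φ(x₀, x₁), x')`. -/
noncomputable def psi (x : EuclideanSpace ℝ (Fin (d + 3))) : EuclideanSpace ℝ (Fin (d + 3)) :=
  x + x 0 • EuclideanSpace.single 0 (1 : ℝ) - (x 1 / 2) • EuclideanSpace.single 1 (1 : ℝ)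
    + phi x • EuclideanSpace.single 2 (1 : ℝ)

theorem f01 : (0 : Fin (d + 3)) ≠ 1 := by
  rw [Ne, Fin.ext_iff]
  simp
theorem f02 : (0 : Fin (d + 3)) ≠ 2 := by
  rw [Ne, Fin.ext_iff, Fin.val_two]
  simp
theorem f12 : (1 : Fin (d + 3)) ≠ 2 := by
  rw [Ne, Fin.ext_iff, Fin.val_two]
  simp

theorem psi_apply (x : EuclideanSpace ℝ (Fin (d + 3))) (i : Fin (d + 3)) :
    psi x i = x i + x 0 * (if i = 0 then 1 else 0) - (x 1 / 2) * (if i = 1 then 1 else 0)
      + phi x * (if i = 2 then 1 else 0) := by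
  simp [psi, Pi.single_apply]

theorem psi_0 (x : EuclideanSpace ℝ (Fin (d + 3))) : psi x 0 = 2 * x 0 := by
  rw [psi_apply, if_pos rfl, if_neg f01, if_neg f02]; ring
theorem psi_1 (x : EuclideanSpace ℝ (Fin (d + 3))) : psi x 1 = x 1 / 2 := by
  rw [psi_apply, if_pos rfl, if_neg f01.symm, if_neg f12]; ring
theorem psi_2 (x : EuclideanSpace ℝ (Fin (d + 3))) : psi x 2 = x 2 + phi x := by
  rw [psi_apply, if_pos rfl, if_neg f02.symm, if_neg f12.symm]; ring
theorem psi_i (x : EuclideanSpace ℝ (Fin (d + 3))) {i : Fin (d + 3)} (h0 : i ≠ 0) (h1 : i ≠ 1)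
    (h2 : i ≠ 2) : psi x i = x i := by
  rw [psi_apply, if_neg h0, if_neg h1, if_neg h2]; ring

theorem phi_congr {x y : EuclideanSpace ℝ (Fin (d + 3))} (h0 : x 0 = y 0) (h1 : x 1 = y 1) :
    phi x = phi y := by simp [phi, h0, h1]

theorem isOpen_dom : IsOpen (Dom d) := by
  have h : Continuous fun x : EuclideanSpace ℝ (Fin (d + 3)) => x 0 ^ 2 + x 1 ^ 2 := by fun_prop
  exact isOpen_ne_fun h continuous_const

theorem maps_psi : MapsTo (psi (d := d)) (Dom d) (Dom d) := by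
  intro x hx
  simp only [Dom, mem_setOf_eq, psi_0, psi_1] at hx ⊢
  contrapose! hx
  nlinarith [sq_nonneg (x 0), sq_nonneg (x 1)]

theorem inj_psi : Function.Injective (psi (d := d)) := by
  intro x y h
  have h0 : x 0 = y 0 := by
    have := congrArg (fun z => z 0) h
    simp only [psi_0] at this
    linarith
  have h1 : x 1 = y 1 := by
    have := congrArg (fun z => z 1) h
    simp only [psi_1] at this
    linarith
  have h2 : x 2 = y 2 := by
    have := congrArg (fun z => z 2) h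
    simp only [psi_2, phi_congr h0 h1] at this
    linarith
  ext i
  by_cases i0 : i = 0
  · rw [i0, h0]
  by_cases i1 : i = 1
  · rw [i1, h1]
  by_cases i2 : i = 2
  · rw [i2, h2]
  have := congrArg (fun z => z i) h
  simpa only [psi_i _ i0 i1 i2] using this

theorem chi_nonneg (u v : ℝ) : 0 ≤ chi u v := Real.smoothTransition.nonneg _

theorem chi_one {u v : ℝ} (h : 0 < u ^ 2 + v ^ 2)
    (h2 : 4 * (u ^ 2 + v ^ 2) ^ 2 ≤ 25 * (u ^ 2 * v ^ 2)) : chi u v = 1 := by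
  refine Real.smoothTransition.one_of_one_le ?_
  have h3 : (4 : ℝ) / 25 ≤ u ^ 2 * v ^ 2 / (u ^ 2 + v ^ 2) ^ 2 := by
    rw [div_le_div_iff₀ (by norm_num) (by positivity)]
    linarith
  linarith

theorem gG_nonneg (t : ℝ) : 0 ≤ gG t := by
  have := Real.neg_one_le_sin (Real.log (1 + t ^ 2))
  exact mul_nonneg (sq_nonneg _) (by linarith)

theorem smooth_phi : ContDiffOn ℝ (⊤ : ℕ∞) (phi (d := d)) (Dom d) := by
  intro a ha
  apply ContDiffAt.contDiffWithinAt
  have c0 : ContDiff ℝ (⊤ : ℕ∞) fun x : EuclideanSpace ℝ (Fin (d + 3)) => x 0 := by fun_prop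
  have c1 : ContDiff ℝ (⊤ : ℕ∞) fun x : EuclideanSpace ℝ (Fin (d + 3)) => x 1 := by fun_prop
  have ha' : a 0 ^ 2 + a 1 ^ 2 ≠ 0 := ha
  have cfrac : ContDiffAt ℝ (⊤ : ℕ∞) (fun x : EuclideanSpace ℝ (Fin (d + 3)) =>
      10 * (x 0 ^ 2 * x 1 ^ 2 / (x 0 ^ 2 + x 1 ^ 2) ^ 2) - 6 / 10) a := by
    have n1 : ContDiffAt ℝ (⊤ : ℕ∞) (fun x : EuclideanSpace ℝ (Fin (d + 3)) =>
        x 0 ^ 2 * x 1 ^ 2) a := ((c0.pow 2).mul (c1.pow 2)).contDiffAt
    have n2 : ContDiffAt ℝ (⊤ : ℕ∞) (fun x : EuclideanSpace ℝ (Fin (d + 3)) =>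
        (x 0 ^ 2 + x 1 ^ 2) ^ 2) a := (((c0.pow 2).add (c1.pow 2)).pow 2).contDiffAt
    have n3 := n1.div n2 (pow_ne_zero 2 ha')
    exact (contDiffAt_const.mul n3).sub contDiffAt_const
  have cchi : ContDiffAt ℝ (⊤ : ℕ∞) (fun x : EuclideanSpace ℝ (Fin (d + 3)) =>
      chi (x 0) (x 1)) a :=
    ContDiffAt.comp a (g := Real.smoothTransition) Real.smoothTransition.contDiff.contDiffAt cfrac
  by_cases h : a 0 * a 1 = 0
  · have h1 : (fun x : EuclideanSpace ℝ (Fin (d + 3)) => phi x) =ᶠ[𝓝 a] fun _ => (0 : ℝ) := by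
      have h2 : ∀ᶠ x : EuclideanSpace ℝ (Fin (d + 3)) in 𝓝 a, 10 * (x 0 ^ 2 * x 1 ^ 2 / (x 0 ^ 2 + x 1 ^ 2) ^ 2) - 6 / 10 < 0 := by
        refine cfrac.continuousAt.eventually_lt continuousAt_const ?_
        have : a 0 ^ 2 * a 1 ^ 2 = 0 := by rw [← mul_pow, h]; norm_num
        rw [this]
        norm_num
      filter_upwards [h2] with x hx
      rw [phi, chi, Real.smoothTransition.zero_of_nonpos hx.le, mul_zero]
    exact contDiffAt_const.congr_of_eventuallyEq h1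
  · refine ContDiffAt.mul ?_ cchi
    have h1 : ContDiffAt ℝ (⊤ : ℕ∞) (fun x : EuclideanSpace ℝ (Fin (d + 3)) =>
        Real.log ((x 0 * x 1) ^ 2)) a :=
      ((c0.mul c1).pow 2).contDiffAt.log (pow_ne_zero 2 h)
    have h2 : ContDiff ℝ (⊤ : ℕ∞) gG := by
      have h3 : ContDiff ℝ (⊤ : ℕ∞) fun t : ℝ => Real.log (1 + t ^ 2) :=
        (contDiff_const.add (contDiff_id.pow 2)).log fun t => by positivity
      exact (contDiff_id.pow 2).mul (contDiff_const.add (Real.contDiff_sin.comp h3))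
    exact h2.contDiffAt.comp a h1

theorem smooth_psi : ContDiffOn ℝ (⊤ : ℕ∞) (psi (d := d)) (Dom d) := by
  have c0 : ContDiff ℝ (⊤ : ℕ∞) fun x : EuclideanSpace ℝ (Fin (d + 3)) => x 0 := by fun_prop
  have c1 : ContDiff ℝ (⊤ : ℕ∞) fun x : EuclideanSpace ℝ (Fin (d + 3)) => x 1 := by fun_prop
  have h1 : ContDiff ℝ (⊤ : ℕ∞) fun x : EuclideanSpace ℝ (Fin (d + 3)) =>
      x + x 0 • EuclideanSpace.single 0 (1 : ℝ) - (x 1 / 2) • EuclideanSpace.single 1 (1 : ℝ) :=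
    (contDiff_id.add (c0.smul contDiff_const)).sub ((c1.div_const 2).smul contDiff_const)
  exact h1.contDiffOn.add (smooth_phi.smul contDiffOn_const)

theorem dinj_psi {a : EuclideanSpace ℝ (Fin (d + 3))} (ha : a ∈ Dom d)
    {v : EuclideanSpace ℝ (Fin (d + 3))} (hv : fderiv ℝ psi a v = 0) : v = 0 := by
  have dφ : DifferentiableAt ℝ (phi (d := d)) a :=
    (smooth_phi.contDiffAt (isOpen_dom.mem_nhds ha)).differentiableAt (by norm_num)
  have d0 : HasFDerivAt (fun x : EuclideanSpace ℝ (Fin (d + 3)) => x 0)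
      (EuclideanSpace.proj 0 : EuclideanSpace ℝ (Fin (d + 3)) →L[ℝ] ℝ) a :=
    (EuclideanSpace.proj 0 : EuclideanSpace ℝ (Fin (d + 3)) →L[ℝ] ℝ).hasFDerivAt
  have d1 : HasFDerivAt (fun x : EuclideanSpace ℝ (Fin (d + 3)) => x 1)
      (EuclideanSpace.proj 1 : EuclideanSpace ℝ (Fin (d + 3)) →L[ℝ] ℝ) a :=
    (EuclideanSpace.proj 1 : EuclideanSpace ℝ (Fin (d + 3)) →L[ℝ] ℝ).hasFDerivAt
  have d1' : HasFDerivAt (fun x : EuclideanSpace ℝ (Fin (d + 3)) => x 1 / 2)
      ((2 : ℝ)⁻¹ • (EuclideanSpace.proj 1 : EuclideanSpace ℝ (Fin (d + 3)) →L[ℝ] ℝ)) a := by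
    have := d1.const_mul ((2 : ℝ)⁻¹)
    refine this.congr_of_eventuallyEq (Eventually.of_forall fun x => ?_)
    show x 1 / 2 = 2⁻¹ * x 1
    ring
  have key : HasFDerivAt (psi (d := d)) _ a :=
    (((hasFDerivAt_id a).add (d0.smul_const (EuclideanSpace.single 0 (1 : ℝ)))).sub
      (d1'.smul_const (EuclideanSpace.single 1 (1 : ℝ)))).add
      (dφ.hasFDerivAt.smul_const (EuclideanSpace.single 2 (1 : ℝ)))
  rw [key.fderiv] at hv
  have hv' : v + v 0 • EuclideanSpace.single 0 (1 : ℝ)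
      - ((2 : ℝ)⁻¹ • v 1) • EuclideanSpace.single 1 (1 : ℝ)
      + fderiv ℝ phi a v • EuclideanSpace.single 2 (1 : ℝ) = 0 := hv
  have hcoord : ∀ i : Fin (d + 3), v i + v 0 * (if i = 0 then 1 else 0)
      - (v 1 / 2) * (if i = 1 then 1 else 0) + fderiv ℝ phi a v * (if i = 2 then 1 else 0) = 0 := by
    intro i
    have h := congrArg (fun z : EuclideanSpace ℝ (Fin (d + 3)) => z i) hv'
    have h' : v i + v 0 * (if i = 0 then 1 else 0)
      - ((2 : ℝ)⁻¹ * v 1) * (if i = 1 then 1 else 0)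
        + fderiv ℝ phi a v * (if i = 2 then 1 else 0) = 0 := by
      simpa using h
    linear_combination h'
  have e0 : v 0 = 0 := by
    have := hcoord 0
    rw [if_pos rfl, if_neg f01, if_neg f02] at this
    linarith
  have e1 : v 1 = 0 := by
    have := hcoord 1
    rw [if_pos rfl, if_neg f01.symm, if_neg f12] at this
    linarith
  have eφ : fderiv ℝ phi a v = 0 := by
    have h1 : HasDerivAt (fun t : ℝ => a + t • v) v 0 := by
      have := ((hasDerivAt_id (0 : ℝ)).smul_const v).const_add a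
      simpa using this
    have h2 : HasFDerivAt (phi (d := d)) (fderiv ℝ phi a) (a + (0 : ℝ) • v) := by
      rw [zero_smul, add_zero]
      exact dφ.hasFDerivAt
    have h3 := h2.comp_hasDerivAt (0 : ℝ) h1
    have h4 : (phi (d := d) ∘ fun t : ℝ => a + t • v) = fun _ => phi a := by
      funext t
      exact phi_congr (by simp [e0]) (by simp [e1])
    rw [h4] at h3
    exact h3.unique (hasDerivAt_const _ _)
  ext i
  have := hcoord i
  rw [e0, e1, eφ] at this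
  simpa using this

end Pool.Agent.V1181.WCO
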