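import Pool.Agent.V1181.WCO6

/-!
# A run-away map which is not strongly run-away: dynamics
-/

set_option autoImplicit false
set_option linter.unusedSectionVars false

namespace Pool.Agent.V1181.WCO

open Set Filter Topology Metric

variable {d : ℕ}

theorem iter_0 (n : ℕ) (x : EuclideanSpace ℝ (Fin (d + 3))) : psi^[n] x 0 = 2 ^ n * x 0 := by
  induction n with
  | zero => simp
  | succ n ih => rw [Function.iterate_succ_apply', psi_0, ih]; ring

theorem iter_1 (n : ℕ) (x : EuclideanSpace ℝ (Fin (d + 3))) : psi^[n] x 1 = x 1 / 2 ^ n := by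
  induction n with
  | zero => simp
  | succ n ih => rw [Function.iterate_succ_apply', psi_1, ih, pow_succ, div_div]

theorem iter_i (n : ℕ) (x : EuclideanSpace ℝ (Fin (d + 3))) {i : Fin (d + 3)} (h0 : i ≠ 0)
    (h1 : i ≠ 1) (h2 : i ≠ 2) : psi^[n] x i = x i := by
  induction n with
  | zero => simp
  | succ n ih => rw [Function.iterate_succ_apply', psi_i _ h0 h1 h2, ih]

theorem iter_2 (n : ℕ) (x : EuclideanSpace ℝ (Fin (d + 3))) :
    psi^[n] x 2 = x 2 + gG (Real.log ((x 0 * x 1) ^ 2))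
      * ∑ j ∈ Finset.range n, chi (2 ^ j * x 0) (x 1 / 2 ^ j) := by
  induction n with
  | zero => simp
  | succ n ih =>
    rw [Function.iterate_succ_apply', psi_2, ih, Finset.sum_range_succ, phi, iter_0, iter_1]
    have : (2 ^ n * x 0 * (x 1 / 2 ^ n) : ℝ) = x 0 * x 1 := by field_simp
    rw [this]
    ring

theorem gate (a b : ℝ) (n : ℕ) (h1 : a ^ 2 ≤ 4 * b ^ 2)
    (h2 : 4 * (b / 2 ^ n) ^ 2 < (2 ^ n * a) ^ 2) :
    1 ≤ ∑ j ∈ Finset.range n, chi (2 ^ j * a) (b / 2 ^ j) := by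
  classical
  have hex : ∃ j, 4 * (b / 2 ^ j) ^ 2 < (2 ^ j * a) ^ 2 := ⟨n, h2⟩
  have hmn : Nat.find hex ≤ n := Nat.find_min' hex h2
  obtain ⟨j, hj⟩ : ∃ j, Nat.find hex = j + 1 := by
    refine Nat.exists_eq_succ_of_ne_zero fun h => ?_
    have := Nat.find_spec hex
    rw [h] at this
    simp only [pow_zero, div_one, one_mul] at this
    linarith
  have hP : (2 ^ j * a) ^ 2 ≤ 4 * (b / 2 ^ j) ^ 2 := by
    have := Nat.find_min hex (show j < Nat.find hex by omega)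
    linarith
  have hQ : (b / 2 ^ j) ^ 2 < 4 * (2 ^ j * a) ^ 2 := by
    have := Nat.find_spec hex
    rw [hj] at this
    have e1 : 4 * (b / 2 ^ (j + 1)) ^ 2 = (b / 2 ^ j) ^ 2 := by
      rw [pow_succ]
      field_simp
      ring
    have e2 : (2 ^ (j + 1) * a) ^ 2 = 4 * (2 ^ j * a) ^ 2 := by
      rw [pow_succ]
      ring
    rw [e1, e2] at this
    exact this
  have hone : chi (2 ^ j * a) (b / 2 ^ j) = 1 := by
    generalize 2 ^ j * a = u at hP hQ
    generalize b / 2 ^ j = v at hP hQ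
    have hu : 0 < u ^ 2 := by nlinarith [sq_nonneg v]
    refine chi_one (by nlinarith [sq_nonneg v]) ?_
    nlinarith [mul_nonneg (show 0 ≤ 4 * v ^ 2 - u ^ 2 by linarith)
      (show 0 ≤ 4 * u ^ 2 - v ^ 2 by linarith)]
  rw [← hone]
  exact Finset.single_le_sum (f := fun j => chi (2 ^ j * a) (b / 2 ^ j))
    (fun i _ => chi_nonneg _ _) (Finset.mem_range.2 (by omega))

theorem log4_pos : 0 < Real.log 4 := Real.log_pos (by norm_num)

theorem floor_bounds {T : ℝ} (hT : 0 ≤ T) :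
    (⌊T / Real.log 4⌋₊ : ℝ) * Real.log 4 ≤ T ∧
      T < ((⌊T / Real.log 4⌋₊ : ℝ) + 1) * Real.log 4 := by
  have h4 := log4_pos
  constructor
  · rw [← le_div_iff₀ h4]
    exact Nat.floor_le (by positivity)
  · rw [← div_lt_iff₀ h4]
    exact Nat.lt_floor_add_one _

theorem window (A M : ℝ) (hA : 0 ≤ A) (n₁ : ℕ) :
    ∃ n : ℕ, n₁ ≤ n ∧ ∀ t : ℝ, |t + n * Real.log 4| ≤ A → M < gG t := by
  have h4 := log4_pos
  set B := A + Real.log 4 with hB
  have hB0 : 0 < B := by positivity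
  set X := 4 * B + (|M| + 2) + (n₁ + 1) * Real.log 4 with hX
  have hX0 : 0 < X := by positivity
  obtain ⟨k, hk⟩ := exists_nat_ge (X ^ 2)
  have hexp : X ^ 2 ≤ Real.exp (2 * Real.pi * k + Real.pi / 2) - 1 := by
    have h1 := Real.add_one_le_exp (2 * Real.pi * k + Real.pi / 2)
    have h2 : (k : ℝ) ≤ 2 * Real.pi * k + Real.pi / 2 := by
      have := Real.pi_gt_three
      have hk0 : (0 : ℝ) ≤ k := Nat.cast_nonneg k
      nlinarith
    linarith
  set T := Real.sqrt (Real.exp (2 * Real.pi * k + Real.pi / 2) - 1) with hT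
  have hTsq : T ^ 2 = Real.exp (2 * Real.pi * k + Real.pi / 2) - 1 :=
    Real.sq_sqrt (by nlinarith [sq_nonneg X])
  have hXT : X ≤ T := Real.le_sqrt_of_sq_le hexp
  have hT0 : 0 < T := hX0.trans_le hXT
  obtain ⟨f1, f2⟩ := floor_bounds hT0.le
  refine ⟨⌊T / Real.log 4⌋₊, ?_, fun t ht => ?_⟩
  · apply Nat.le_floor
    rw [le_div_iff₀ h4]
    have := abs_nonneg M
    nlinarith
  · have ht' := abs_le.1 ht
    have t1 : t ≤ -T + B := by linarith
    have t2 : -T - B ≤ t := by linarith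
    have hTB : 4 * B ≤ T := by
      have := abs_nonneg M
      have : 0 ≤ ((n₁ : ℝ) + 1) * Real.log 4 := by positivity
      linarith
    have hTM : |M| + 2 ≤ T := by
      have : 0 ≤ ((n₁ : ℝ) + 1) * Real.log 4 := by positivity
      linarith
    have s1 : t ^ 2 ≤ (T + B) ^ 2 := by nlinarith
    have s2 : (T - B) ^ 2 ≤ t ^ 2 := by nlinarith
    have s3 : 1 + t ^ 2 ≤ 2 * (1 + T ^ 2) := by nlinarith
    have s4 : 1 + T ^ 2 ≤ 2 * (1 + t ^ 2) := by nlinarith
    have l1 : Real.log (1 + t ^ 2) ≤ Real.log 2 + Real.log (1 + T ^ 2) := by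
      rw [← Real.log_mul (by norm_num) (by positivity)]
      exact Real.log_le_log (by positivity) s3
    have l2 : Real.log (1 + T ^ 2) ≤ Real.log 2 + Real.log (1 + t ^ 2) := by
      rw [← Real.log_mul (by norm_num) (by positivity)]
      exact Real.log_le_log (by positivity) s4
    have l3 : Real.log (1 + T ^ 2) = 2 * Real.pi * k + Real.pi / 2 := by
      rw [hTsq, add_sub_cancel, Real.log_exp]
    have l4 : Real.log 2 < 1 := by
      have := Real.log_two_lt_d9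
      linarith
    have hsin : 0 ≤ Real.sin (Real.log (1 + t ^ 2)) := by
      have e : Real.log (1 + t ^ 2)
          = (Real.log (1 + t ^ 2) - Real.log (1 + T ^ 2)) + Real.pi / 2 + k * (2 * Real.pi) := by
        rw [l3]; ring
      rw [e, Real.sin_add_nat_mul_two_pi, Real.sin_add_pi_div_two]
      apply Real.cos_nonneg_of_mem_Icc
      have := Real.pi_gt_three
      constructor <;> linarith
    have g1 : t ^ 2 ≤ gG t := by
      unfold gG
      nlinarith [sq_nonneg t]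
    have g2 : M < (T - B) ^ 2 := by
      have e1 : (3 / 4 * T) ^ 2 ≤ (T - B) ^ 2 := by
        apply pow_le_pow_left₀ (by positivity)
        linarith
      have e2 : M ≤ |M| := le_abs_self M
      have e3 := abs_nonneg M
      nlinarith
    linarith

/-- The symbol is run-away. -/
theorem runaway {K : Set (EuclideanSpace ℝ (Fin (d + 3)))} (hK : K ⊆ Dom d) (hKc : IsCompact K) :
    ∃ n : ℕ, ∀ x ∈ K, psi^[n] x ∉ K := by
  rcases K.eq_empty_or_nonempty with rfl | hne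
  · exact ⟨0, fun x hx => hx.elim⟩
  have hcont : Continuous fun x : EuclideanSpace ℝ (Fin (d + 3)) => x 0 ^ 2 + x 1 ^ 2 := by
    fun_prop
  obtain ⟨x₀, hx₀, hmin⟩ := hKc.exists_isMinOn hne hcont.continuousOn
  set c := x₀ 0 ^ 2 + x₀ 1 ^ 2 with hc
  have hc0 : 0 < c := lt_of_le_of_ne (by positivity) (Ne.symm (hK hx₀))
  have hcK : ∀ x ∈ K, c ≤ x 0 ^ 2 + x 1 ^ 2 := fun x hx => hmin hx
  obtain ⟨R, hR⟩ := hKc.isBounded.exists_norm_le
  have hR0 : 0 ≤ R := (norm_nonneg _).trans (hR x₀ hx₀)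
  have hRi : ∀ x ∈ K, ∀ i, |x i| ≤ R := fun x hx i => by
    have := PiLp.norm_apply_le x i
    rw [Real.norm_eq_abs] at this
    exact this.trans (hR x hx)
  obtain ⟨n₁, hn₁⟩ := exists_nat_gt (8 * R ^ 2 / c)
  obtain ⟨n, hn, hwin⟩ := window (|Real.log (c ^ 2 / 4)| + |Real.log (R ^ 4)|) (2 * R)
    (by positivity) n₁
  refine ⟨n, fun x hx hx' => ?_⟩
  have h4n : 8 * R ^ 2 / c < 4 ^ n := by
    have e1 : (n : ℝ) < 4 ^ n := by exact_mod_cast Nat.lt_pow_self (by norm_num)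
    have e2 : (n₁ : ℝ) ≤ n := by exact_mod_cast hn
    linarith
  have h4n' : 8 * R ^ 2 < 4 ^ n * c := by rwa [div_lt_iff₀ hc0] at h4n
  have h4pos : (0 : ℝ) < 4 ^ n := by positivity
  have hpow : (4 : ℝ) ^ n = (2 ^ n) ^ 2 := by rw [← pow_mul, mul_comm, pow_mul]; norm_num
  -- bounds
  have b0 : (2 ^ n * x 0) ^ 2 ≤ R ^ 2 := by
    have := hRi _ hx' 0
    rw [iter_0] at this
    exact sq_le_sq' (by linarith [abs_le.1 this]) (abs_le.1 this).2
  have b1 : x 1 ^ 2 ≤ R ^ 2 := by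
    have := hRi _ hx 1
    exact sq_le_sq' (by linarith [abs_le.1 this]) (abs_le.1 this).2
  have e0 : (2 ^ n * x 0) ^ 2 = 4 ^ n * x 0 ^ 2 := by rw [mul_pow, ← hpow]
  have e1 : (x 1 / 2 ^ n) ^ 2 = x 1 ^ 2 / 4 ^ n := by rw [div_pow, ← hpow]
  have c0 : c ≤ x 0 ^ 2 + x 1 ^ 2 := hcK x hx
  have c1 : c ≤ (2 ^ n * x 0) ^ 2 + (x 1 / 2 ^ n) ^ 2 := by
    have := hcK _ hx'
    rwa [iter_0, iter_1] at this
  have q0 : x 0 ^ 2 ≤ c / 8 := by
    rw [e0] at b0
    have : 4 ^ n * (8 * x 0 ^ 2) ≤ 4 ^ n * c := by linarith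
    have := le_of_mul_le_mul_left this h4pos
    linarith
  have q1 : (x 1 / 2 ^ n) ^ 2 < c / 8 := by
    rw [e1, div_lt_div_iff₀ h4pos (by norm_num)]
    linarith
  have p1 : c / 2 ≤ x 1 ^ 2 := by linarith
  have p0 : c / 2 ≤ (2 ^ n * x 0) ^ 2 := by linarith
  have hS := gate (x 0) (x 1) n (by linarith) (by linarith)
  have hx0 : 0 < x 0 ^ 2 := by
    rw [e0] at p0
    by_contra h
    have : x 0 ^ 2 = 0 := le_antisymm (not_lt.1 h) (sq_nonneg _)
    rw [this, mul_zero] at p0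
    linarith
  have hH : Real.log ((x 0 * x 1) ^ 2) + n * Real.log 4
      = Real.log ((2 ^ n * x 0) ^ 2 * x 1 ^ 2) := by
    rw [e0, mul_pow, mul_assoc, Real.log_mul h4pos.ne' (by
      have : 0 < x 1 ^ 2 := by linarith
      positivity), Real.log_pow]
    ring
  have hbd : |Real.log ((x 0 * x 1) ^ 2) + n * Real.log 4|
      ≤ |Real.log (c ^ 2 / 4)| + |Real.log (R ^ 4)| := by
    rw [hH]
    have l1 : Real.log (c ^ 2 / 4) ≤ Real.log ((2 ^ n * x 0) ^ 2 * x 1 ^ 2) := by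
      apply Real.log_le_log (by positivity)
      calc c ^ 2 / 4 = c / 2 * (c / 2) := by ring
        _ ≤ _ := by gcongr
    have l2 : Real.log ((2 ^ n * x 0) ^ 2 * x 1 ^ 2) ≤ Real.log (R ^ 4) := by
      apply Real.log_le_log
      · have : 0 < x 1 ^ 2 := by linarith
        have : 0 < (2 ^ n * x 0) ^ 2 := by linarith
        positivity
      · calc (2 ^ n * x 0) ^ 2 * x 1 ^ 2 ≤ R ^ 2 * R ^ 2 := by gcongr
          _ = R ^ 4 := by ring
    have a1 := neg_abs_le (Real.log (c ^ 2 / 4))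
    have a2 := le_abs_self (Real.log (R ^ 4))
    have a3 := abs_nonneg (Real.log (c ^ 2 / 4))
    have a4 := abs_nonneg (Real.log (R ^ 4))
    rw [abs_le]
    constructor <;> linarith
  have hG := hwin _ hbd
  have hlast := hRi _ hx' 2
  rw [iter_2] at hlast
  have hx2 := hRi _ hx 2
  have hl := (abs_le.1 hlast).2
  have hl2 := (abs_le.1 hx2).1
  have hGS : 2 * R < gG (Real.log ((x 0 * x 1) ^ 2))
      * ∑ j ∈ Finset.range n, chi (2 ^ j * x 0) (x 1 / 2 ^ j) := by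
    have := gG_nonneg (Real.log ((x 0 * x 1) ^ 2))
    nlinarith
  linarith

theorem zero_seq (n₀ : ℕ) : ∃ T : ℝ, 0 < T ∧ (n₀ + 1) * Real.log 4 ≤ T ∧ gG (-T) = 0 := by
  have h4 := log4_pos
  set X := ((n₀ : ℝ) + 1) * Real.log 4 with hX
  have hX0 : 0 < X := by positivity
  obtain ⟨k, hk⟩ := exists_nat_ge (X ^ 2 + 1)
  have hk1 : (1 : ℝ) ≤ k := by nlinarith [sq_nonneg X]
  have hexp : X ^ 2 ≤ Real.exp (k * (2 * Real.pi) - Real.pi / 2) - 1 := by
    have h1 := Real.add_one_le_exp (k * (2 * Real.pi) - Real.pi / 2)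
    have h2 : (k : ℝ) ≤ k * (2 * Real.pi) - Real.pi / 2 := by
      have := Real.pi_gt_three
      have := Real.pi_lt_four
      nlinarith
    linarith
  set T := Real.sqrt (Real.exp (k * (2 * Real.pi) - Real.pi / 2) - 1) with hT
  have hTsq : T ^ 2 = Real.exp (k * (2 * Real.pi) - Real.pi / 2) - 1 :=
    Real.sq_sqrt (by nlinarith [sq_nonneg X])
  have hXT : X ≤ T := Real.le_sqrt_of_sq_le hexp
  refine ⟨T, hX0.trans_le hXT, hXT, ?_⟩
  unfold gG
  rw [neg_sq, hTsq, add_sub_cancel, Real.log_exp, Real.sin_nat_mul_two_pi_sub,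
    Real.sin_pi_div_two]
  ring

/-- The symbol is not strongly run-away. -/
theorem not_strong : ∃ K ⊆ Dom d, IsCompact K ∧ ∀ n₀ : ℕ, ∃ n ≥ n₀, ∃ x ∈ K,
    psi^[n] x ∈ K := by
  have hcont : Continuous fun x : EuclideanSpace ℝ (Fin (d + 3)) => x 0 ^ 2 + x 1 ^ 2 := by
    fun_prop
  have hcl : IsClosed {x : EuclideanSpace ℝ (Fin (d + 3)) | 1 / 4 ≤ x 0 ^ 2 + x 1 ^ 2} :=
    isClosed_le continuous_const hcont
  refine ⟨closedBall 0 2 ∩ {x | 1 / 4 ≤ x 0 ^ 2 + x 1 ^ 2}, ?_,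
    (isCompact_closedBall _ _).inter_right hcl, fun n₀ => ?_⟩
  · rintro x ⟨-, hx⟩ h0
    have hx' : 1 / 4 ≤ x 0 ^ 2 + x 1 ^ 2 := hx
    have h0' : x 0 ^ 2 + x 1 ^ 2 = 0 := h0
    linarith
  have h4 := log4_pos
  have hl4 : Real.log 4 = 2 * Real.log 2 := by
    rw [show (4 : ℝ) = 2 ^ 2 by norm_num, Real.log_pow]
    norm_num
  obtain ⟨T, hT0, hT1, hT2⟩ := zero_seq n₀
  obtain ⟨f1, f2⟩ := floor_bounds hT0.le
  set n := ⌊T / Real.log 4⌋₊ with hn
  have hnn : n₀ ≤ n := by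
    apply Nat.le_floor
    rw [le_div_iff₀ h4]
    nlinarith
  have mem : ∀ a b : ℝ, 0 ≤ a → a ≤ 1 → 0 ≤ b → b ≤ 1 → 1 / 4 ≤ a ^ 2 + b ^ 2 →
      (EuclideanSpace.single 0 a + EuclideanSpace.single 1 b : EuclideanSpace ℝ (Fin (d + 3)))
        ∈ closedBall 0 2 ∩ {x : EuclideanSpace ℝ (Fin (d + 3)) | 1 / 4 ≤ x 0 ^ 2 + x 1 ^ 2} := by
    intro a b ha ha1 hb hb1 hab
    constructor
    · rw [mem_closedBall_zero_iff]
      refine (norm_add_le _ _).trans ?_
      rw [EuclideanSpace.norm_single, EuclideanSpace.norm_single, Real.norm_of_nonneg ha,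
        Real.norm_of_nonneg hb]
      linarith
    · show 1 / 4 ≤ (_ : ℝ) ^ 2 + (_ : ℝ) ^ 2
      simpa [f01, f01.symm] using hab
  set e := Real.exp (-T / 2) with he
  have he0 : 0 < e := Real.exp_pos _
  have he1 : e ≤ 1 := Real.exp_le_one_iff.2 (by linarith)
  have h2n : (2 : ℝ) ^ n = Real.exp (n * Real.log 2) := by
    rw [Real.exp_nat_mul, Real.exp_log (by norm_num)]
  have hp1 : 2 ^ n * e ≤ 1 := by
    rw [h2n, he, ← Real.exp_add]
    apply Real.exp_le_one_iff.2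
    rw [hl4] at f1
    linarith
  have hp2 : 1 / 2 ≤ 2 ^ n * e := by
    have : (1 : ℝ) / 2 = Real.exp (-Real.log 2) := by
      rw [Real.exp_neg, Real.exp_log (by norm_num)]; norm_num
    rw [this, h2n, he, ← Real.exp_add]
    apply Real.exp_le_exp.2
    rw [hl4] at f2
    linarith
  have hone : (1 : ℝ) ≤ 2 ^ n := one_le_pow₀ (by norm_num)
  refine ⟨n, hnn, EuclideanSpace.single 0 e + EuclideanSpace.single 1 1,
    mem e 1 he0.le he1 zero_le_one le_rfl (by nlinarith), ?_⟩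
  have himg : psi^[n] (EuclideanSpace.single 0 e + EuclideanSpace.single 1 1 :
      EuclideanSpace ℝ (Fin (d + 3)))
      = EuclideanSpace.single 0 (2 ^ n * e) + EuclideanSpace.single 1 (1 / 2 ^ n) := by
    have hx0 : (EuclideanSpace.single 0 e + EuclideanSpace.single 1 1 :
      EuclideanSpace ℝ (Fin (d + 3))) 0 = e := by simp [f01]
    have hx1 : (EuclideanSpace.single 0 e + EuclideanSpace.single 1 1 :
      EuclideanSpace ℝ (Fin (d + 3))) 1 = 1 := by simp [f01.symm]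
    ext i
    by_cases i0 : i = 0
    · rw [i0, iter_0, hx0]
      simp [f01]
    by_cases i1 : i = 1
    · rw [i1, iter_1, hx1]
      simp [f01.symm]
    by_cases i2 : i = 2
    · rw [i2, iter_2, hx0, hx1]
      have : Real.log ((e * 1) ^ 2) = -T := by
        rw [mul_one, he, ← Real.exp_nat_mul, Real.log_exp]
        push_cast
        ring
      rw [this, hT2]
      simp [f02.symm, f12.symm]
    · rw [iter_i _ _ i0 i1 i2]
      simp [i0, i1]
  rw [himg]
  refine mem _ _ (by positivity) hp1 (by positivity) ?_ ?_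
  · rw [div_le_one (by positivity)]
    exact hone
  · have : 0 ≤ (1 / 2 ^ n : ℝ) ^ 2 := by positivity
    nlinarith

end Pool.Agent.V1181.WCO
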